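import Mathlib

/-!
TB (complements of components are connected; Kuratowski).  `compl_component`: let `S` be preconnected, `V ⊆ S` preconnected
nonempty, `K ⊆ S \ V` preconnected and maximal (every preconnected subset of `S \ V` meeting `K` is contained in `K`); then
`S \ K` is preconnected.
Proof.  Suppose `S \ K ⊆ A ∪ B`, `A`, `B` open in the space, `(S \ K) ∩ A ≠ ∅`, `(S \ K) ∩ B ≠ ∅`, `(S \ K) ∩ A ∩ B = ∅`.
(Use the open set form of `IsPreconnected`.)  `V ⊆ S \ K` is preconnected, so it is contained in one of them, say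
`V ⊆ A`, `V ∩ B = ∅`.  Claim: `C = K ∪ ((S \ K) ∩ B)` is preconnected.  Let `C ⊆ O₁ ∪ O₂`, both meeting `C`, with
`C ∩ O₁ ∩ O₂ = ∅`.  `K` (if nonempty) is contained in one of them, say `K ⊆ O₁`, `K ∩ O₂ = ∅`; then `C ∩ O₂ = (S \ K) ∩ B ∩ O₂`
is nonempty.  The open sets `B ∩ O₂` and `A ∪ O₁` cover `S`: (a point of `K` is in `O₁`, a point of `(S \ K) ∩ A` in `A`, a point
of `(S \ K) ∩ B` in `O₁` or in `B ∩ O₂`); both meet `S` (`V ⊆ A`); so there is a point of `S` in `B ∩ O₂ ∩ (A ∪ O₁)`: it is not in `K`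
(`K ∩ O₂ = ∅`), so it is in `(S \ K) ∩ B`, not in `A`, so in `O₁ ∩ O₂ ∩ C`: contradiction.
`C ⊆ S \ V` meets `K` if `K` is nonempty (if `K` is empty, `S \ K = S`), so `C ⊆ K`, contradiction to `(S \ K) ∩ B ≠ ∅`.
`compl_two`: apply `compl_component` twice: `S₁ = univ \ K₁`, then `K₂ ⊆ S₁ \ V` (different components are disjoint).
-/

namespace DS
open Set Topology

theorem auxTB_core {X : Type*} [TopologicalSpace X] {S V K A B : Set X} (hS : IsPreconnected S)
    (hVn : V.Nonempty) (hVS : V ⊆ S) (hK : IsPreconnected K) (hKn : K.Nonempty)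
    (hKS : K ⊆ S \ V)
    (hmax : ∀ C ⊆ S \ V, IsPreconnected C → (C ∩ K).Nonempty → C ⊆ K)
    (hA : IsOpen A) (hB : IsOpen B) (hcov : S \ K ⊆ A ∪ B) (hB1 : ((S \ K) ∩ B).Nonempty)
    (hne : ¬ ((S \ K) ∩ (A ∩ B)).Nonempty) (hVA : V ⊆ A) (hVB : ∀ x ∈ V, x ∉ B) : False := by
  have key : ∀ O₁ O₂ : Set X, IsOpen O₁ → IsOpen O₂ → K ∪ ((S \ K) ∩ B) ⊆ O₁ ∪ O₂ →
      ((K ∪ ((S \ K) ∩ B)) ∩ O₂).Nonempty → (∀ x ∈ K, x ∉ O₂) →
      ((K ∪ ((S \ K) ∩ B)) ∩ (O₁ ∩ O₂)).Nonempty := by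
    intro O₁ O₂ hO₁ hO₂ hC h2 hKO
    have h3 : S ⊆ (A ∪ O₁) ∪ (B ∩ O₂) := by
      intro x hx
      by_cases hxK : x ∈ K
      · rcases hC (Or.inl hxK) with h | h
        · exact Or.inl (Or.inr h)
        · exact absurd h (hKO x hxK)
      · rcases hcov ⟨hx, hxK⟩ with h | h
        · exact Or.inl (Or.inl h)
        · rcases hC (Or.inr ⟨⟨hx, hxK⟩, h⟩) with h' | h'
          · exact Or.inl (Or.inr h')
          · exact Or.inr ⟨h, h'⟩
    have h4 : (S ∩ (A ∪ O₁)).Nonempty := by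
      obtain ⟨x, hx⟩ := hVn
      exact ⟨x, hVS hx, Or.inl (hVA hx)⟩
    have h5 : (S ∩ (B ∩ O₂)).Nonempty := by
      obtain ⟨x, hx, hx2⟩ := h2
      rcases hx with hx | hx
      · exact absurd hx2 (hKO x hx)
      · exact ⟨x, hx.1.1, hx.2, hx2⟩
    obtain ⟨y, hyS, hy1, hyB, hyO⟩ := hS _ _ (hA.union hO₁) (hB.inter hO₂) h3 h4 h5
    have hyK : y ∉ K := fun h => hKO y h hyO
    have hyA : y ∉ A := fun h => hne ⟨y, ⟨hyS, hyK⟩, h, hyB⟩
    rcases hy1 with h | h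
    · exact absurd h hyA
    · exact ⟨y, Or.inr ⟨⟨hyS, hyK⟩, hyB⟩, h, hyO⟩
  have hCpre : IsPreconnected (K ∪ ((S \ K) ∩ B)) := by
    intro O₁ O₂ hO₁ hO₂ hC h1 h2
    by_cases hk : ∀ x ∈ K, x ∉ O₂
    · exact key O₁ O₂ hO₁ hO₂ hC h2 hk
    · push Not at hk
      obtain ⟨x, hx, hx2⟩ := hk
      by_cases hk' : ∀ x ∈ K, x ∉ O₁
      · have := key O₂ O₁ hO₂ hO₁ (by rw [union_comm O₂ O₁]; exact hC) h1 hk'
        rwa [inter_comm O₂ O₁] at this
      · push Not at hk'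
        obtain ⟨z, hz, hz2⟩ := hk'
        obtain ⟨t, ht1, ht2⟩ := hK O₁ O₂ hO₁ hO₂ (fun a ha => hC (Or.inl ha)) ⟨z, hz, hz2⟩
          ⟨x, hx, hx2⟩
        exact ⟨t, Or.inl ht1, ht2⟩
  have hCsub : K ∪ ((S \ K) ∩ B) ⊆ S \ V := by
    rintro x (hx | hx)
    · exact hKS hx
    · exact ⟨hx.1.1, fun h => hVB x h hx.2⟩
  have hCK : ((K ∪ ((S \ K) ∩ B)) ∩ K).Nonempty := by
    obtain ⟨x, hx⟩ := hKn
    exact ⟨x, Or.inl hx, hx⟩
  have := hmax _ hCsub hCpre hCK
  obtain ⟨x, hx⟩ := hB1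
  exact hx.1.2 (this (Or.inr hx))

theorem compl_component {X : Type*} [TopologicalSpace X] {S V K : Set X} (hS : IsPreconnected S)
    (hV : IsPreconnected V) (hVn : V.Nonempty) (hVS : V ⊆ S) (hK : IsPreconnected K)
    (hKS : K ⊆ S \ V)
    (hmax : ∀ C ⊆ S \ V, IsPreconnected C → (C ∩ K).Nonempty → C ⊆ K) :
    IsPreconnected (S \ K) := by
  rcases K.eq_empty_or_nonempty with rfl | hKn
  · rwa [diff_empty]
  intro A B hA hB hcov hA1 hB1
  by_contra hne
  have hVSK : V ⊆ S \ K := fun x hx => ⟨hVS hx, fun h => (hKS h).2 hx⟩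
  have hVcov : V ⊆ A ∪ B := hVSK.trans hcov
  by_cases h1 : ∀ x ∈ V, x ∉ B
  · refine auxTB_core hS hVn hVS hK hKn hKS hmax hA hB hcov hB1 hne ?_ h1
    intro x hx
    rcases hVcov hx with h | h
    · exact h
    · exact absurd h (h1 x hx)
  · push Not at h1
    obtain ⟨z, hz, hzB⟩ := h1
    by_cases h2 : ∀ x ∈ V, x ∉ A
    · refine auxTB_core hS hVn hVS hK hKn hKS hmax hB hA (by rwa [union_comm]) hA1
        (by rwa [inter_comm B A]) ?_ h2
      intro x hx
      rcases hVcov hx with h | h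
      · exact absurd h (h2 x hx)
      · exact h
    · push Not at h2
      obtain ⟨t, ht, htA⟩ := h2
      obtain ⟨y, hy1, hy2⟩ := hV A B hA hB hVcov ⟨t, ht, htA⟩ ⟨z, hz, hzB⟩
      exact hne ⟨y, hVSK hy1, hy2⟩

theorem auxTB_max {X : Type*} [TopologicalSpace X] {F : Set X} (x : X) (C : Set X) (hC : C ⊆ F)
    (hCp : IsPreconnected C) (hCK : (C ∩ connectedComponentIn F x).Nonempty) :
    C ⊆ connectedComponentIn F x := by
  obtain ⟨z, hz, hzx⟩ := hCK
  rw [connectedComponentIn_eq hzx]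
  exact hCp.subset_connectedComponentIn hz hC

theorem compl_comp {X : Type*} [TopologicalSpace X] [ConnectedSpace X] {V : Set X}
    (hV : IsPreconnected V) (hVn : V.Nonempty) (x : X) (hx : x ∉ V) :
    IsPreconnected (connectedComponentIn Vᶜ x)ᶜ := by
  rw [compl_eq_univ_diff]
  refine compl_component isPreconnected_univ hV hVn (subset_univ _)
    isPreconnected_connectedComponentIn ?_ ?_
  · rw [← compl_eq_univ_diff]
    exact connectedComponentIn_subset _ _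
  · intro C hC hCp hCK
    rw [← compl_eq_univ_diff] at hC
    exact auxTB_max x C hC hCp hCK

theorem compl_two {X : Type*} [TopologicalSpace X] [ConnectedSpace X] {V : Set X}
    (hV : IsPreconnected V) (hVn : V.Nonempty) (x y : X) (hx : x ∉ V) (hy : y ∉ V)
    (hne : connectedComponentIn Vᶜ x ≠ connectedComponentIn Vᶜ y) :
    IsPreconnected (connectedComponentIn Vᶜ x ∪ connectedComponentIn Vᶜ y)ᶜ := by
  have h1 := compl_comp hV hVn x hx
  have hVS : V ⊆ (connectedComponentIn Vᶜ x)ᶜ :=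
    fun z hz hz' => connectedComponentIn_subset _ _ hz' hz
  have h2 : IsPreconnected ((connectedComponentIn Vᶜ x)ᶜ \ connectedComponentIn Vᶜ y) := by
    refine compl_component h1 hV hVn hVS isPreconnected_connectedComponentIn ?_ ?_
    · intro z hz
      refine ⟨fun hz' => hne ?_, connectedComponentIn_subset _ _ hz⟩
      rw [connectedComponentIn_eq hz, connectedComponentIn_eq hz']
    · intro C hC hCp hCK
      exact auxTB_max y C (fun z hz => (hC hz).2) hCp hCK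
  rwa [compl_union, ← diff_eq]

end DS
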