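import Pool.Agent.H36.DS.PBase

/-!
HA.  `disc_minus_ball`: the disc minus a closed ball not containing `0` is path connected.  Proof: rotate so that
the centre `p` is real and `≥ 0`.  A point `w` of the set is joined to `-‖w‖` by an arc of the circle `‖·‖ = ‖w‖` along
which the distance to `p` increases (`‖w - p‖² = ‖w‖² + p² - 2 p ‖w‖ cos θ`), and `-‖w‖` is joined to `0` by the segment,
all of whose points have distance `≥ p > r` from `p`.  `disc_minus_ball'`: the same for the set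
`{z | r ≤ dist z p}`; here `r < ‖p‖`.
`arc_connected`: `ball 0 1 ∩ sphere ζ ρ` is an arc for `‖ζ‖ = 1`, `0 < ρ < 2`: `ζ - ζ ρ e^{iθ}` with
`cos θ > ρ / 2`.
-/

namespace DS
open Metric Set Filter Topology

theorem HA_norm_sq (s q a : ℝ) :
    ‖(s : ℂ) * Complex.exp (a * Complex.I) - q‖ ^ 2 = s ^ 2 + q ^ 2 - 2 * s * q * Real.cos a := by
  rw [← Complex.normSq_eq_norm_sq, Complex.exp_mul_I, ← Complex.ofReal_cos, ← Complex.ofReal_sin,
    Complex.normSq_apply]
  simp only [Complex.sub_re, Complex.re_ofReal_mul, Complex.add_re, Complex.ofReal_re,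
    Complex.mul_re, Complex.I_re, mul_zero, Complex.ofReal_im, Complex.I_im, zero_mul, sub_zero,
    add_zero, Complex.sub_im, Complex.im_ofReal_mul, Complex.add_im, Complex.mul_im, mul_one,
    zero_add]
  nlinarith [Real.sin_sq_add_cos_sq a]

theorem HA_mono {s q a b : ℝ} (hs : 0 ≤ s) (hq : 0 ≤ q) (hab : Real.cos b ≤ Real.cos a) :
    ‖(s : ℂ) * Complex.exp (a * Complex.I) - q‖ ≤ ‖(s : ℂ) * Complex.exp (b * Complex.I) - q‖ := by
  refine le_of_sq_le_sq ?_ (norm_nonneg _)
  rw [HA_norm_sq, HA_norm_sq]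
  have := mul_le_mul_of_nonneg_left hab (mul_nonneg hs hq)
  nlinarith

theorem HA_gen {p : ℂ} (hp : p ≠ 0) {P : ℝ → Prop} (hP : ∀ x y, x ≤ y → P x → P y)
    (hPp : P ‖p‖) : IsConnected {z : ℂ | ‖z‖ < 1 ∧ P (dist z p)} := by
  have h0 : (0 : ℂ) ∈ {z : ℂ | ‖z‖ < 1 ∧ P (dist z p)} := by
    refine ⟨by simp, ?_⟩
    rw [dist_zero_left]
    exact hPp
  refine ⟨⟨0, h0⟩, isPreconnected_of_forall 0 fun w hw => ?_⟩
  have hpn : 0 < ‖p‖ := norm_pos_iff.2 hp
  set ε : ℝ := if 0 ≤ Complex.arg (w / p) then Real.pi else - Real.pi with hε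
  set θ : ℝ := Complex.arg (w / p) with hθ
  set g : ℝ → ℂ := fun t => (p / ‖p‖) * ((‖w‖ : ℝ) *
    Complex.exp ((((1 - t) * θ + t * ε : ℝ) : ℂ) * Complex.I)) with hg
  set d : ℝ → ℂ := fun t => (p / ‖p‖) * (-((‖w‖ : ℝ) * (t : ℂ))) with hd
  have hu : ‖p / (‖p‖ : ℂ)‖ = 1 := by
    rw [norm_div, Complex.norm_real, Real.norm_of_nonneg hpn.le, div_self hpn.ne']
  have hpp : p = (p / (‖p‖ : ℂ)) * (‖p‖ : ℂ) := by
    rw [div_mul_cancel₀]
    exact_mod_cast hpn.ne'
  have hgc : Continuous g := by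
    simp only [hg]
    fun_prop
  have hdc : Continuous d := by
    simp only [hd]
    fun_prop
  have hgn : ∀ t, ‖g t‖ = ‖w‖ := by
    intro t
    simp only [hg]
    rw [norm_mul, hu, one_mul, norm_mul, Complex.norm_exp_ofReal_mul_I, mul_one,
      Complex.norm_real, norm_norm]
  have hg0 : g 0 = w := by
    simp only [hg]
    rw [show ((1 - 0) * θ + 0 * ε : ℝ) = θ by ring]
    have h1 := Complex.norm_mul_exp_arg_mul_I (w / p)
    rw [← hθ, norm_div] at h1
    have h2 : w = (w / p) * p := by rw [div_mul_cancel₀ _ hp]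
    conv_rhs => rw [h2, ← h1]
    push_cast
    have : (‖p‖ : ℂ) ≠ 0 := by exact_mod_cast hpn.ne'
    field_simp
  have hgd : ∀ t, dist (g t) p = ‖((‖w‖ : ℝ) : ℂ) *
      Complex.exp ((((1 - t) * θ + t * ε : ℝ) : ℂ) * Complex.I) - (‖p‖ : ℝ)‖ := by
    intro t
    rw [dist_eq_norm]
    conv_lhs => rw [hpp]
    simp only [hg]
    rw [show ∀ a b c : ℂ, a * b - a * c = a * (b - c) from fun a b c => by ring, norm_mul, hu,
      one_mul]
  have hθ1 : -Real.pi < θ := Complex.neg_pi_lt_arg _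
  have hθ2 : θ ≤ Real.pi := Complex.arg_le_pi _
  have hgm : ∀ t ∈ Icc (0 : ℝ) 1, dist (g 0) p ≤ dist (g t) p := by
    intro t ht
    rw [hgd, hgd]
    refine HA_mono (norm_nonneg _) (norm_nonneg _) ?_
    rw [show ((1 - 0) * θ + 0 * ε : ℝ) = θ by ring]
    rw [← Real.cos_abs θ, ← Real.cos_abs ((1 - t) * θ + t * ε)]
    have hab : |(1 - t) * θ + t * ε| = (1 - t) * |θ| + t * Real.pi := by
      by_cases h : 0 ≤ θ
      · rw [hε, if_pos h, abs_of_nonneg h, abs_of_nonneg]
        exact add_nonneg (mul_nonneg (by linarith [ht.2]) h) (mul_nonneg ht.1 Real.pi_pos.le)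
      · rw [hε, if_neg h, abs_of_neg (not_le.1 h), abs_of_nonpos]
        · ring
        · have h1 : (1 - t) * θ ≤ 0 := mul_nonpos_of_nonneg_of_nonpos (by linarith [ht.2])
            (not_le.1 h).le
          have h2 : 0 ≤ t * Real.pi := mul_nonneg ht.1 Real.pi_pos.le
          linarith
    have hθa : |θ| ≤ Real.pi := abs_le.2 ⟨by linarith, hθ2⟩
    rw [hab]
    refine Real.cos_le_cos_of_nonneg_of_le_pi (abs_nonneg _) ?_ ?_
    · nlinarith [ht.1, ht.2]
    · nlinarith [ht.1, ht.2]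
  have hg1 : g 1 = d 1 := by
    simp only [hg, hd]
    rw [show ((1 - 1) * θ + 1 * ε : ℝ) = ε by ring]
    have : Complex.exp ((ε : ℂ) * Complex.I) = -1 := by
      by_cases h : 0 ≤ θ
      · rw [hε, if_pos h, Complex.exp_pi_mul_I]
      · rw [hε, if_neg h]
        push_cast
        rw [neg_mul, Complex.exp_neg, Complex.exp_pi_mul_I]
        norm_num
    rw [this]
    push_cast
    ring
  refine ⟨g '' Icc 0 1 ∪ d '' Icc 0 1, ?_, ?_, ?_, ?_⟩
  · rintro z (⟨t, ht, rfl⟩ | ⟨t, ht, rfl⟩)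
    · refine ⟨by rw [hgn]; exact hw.1, hP _ _ (hgm t ht) ?_⟩
      rw [hg0]
      exact hw.2
    · refine ⟨?_, hP _ _ ?_ hPp⟩
      · simp only [hd]
        rw [norm_mul, hu, one_mul, norm_neg, norm_mul, Complex.norm_real, Complex.norm_real,
          norm_norm, Real.norm_of_nonneg ht.1]
        have := hw.1
        nlinarith [norm_nonneg w, ht.2, ht.1]
      · rw [dist_eq_norm]
        have h3 : d t - p = (p / (‖p‖ : ℂ)) * ((-(‖w‖ * t + ‖p‖) : ℝ) : ℂ) := by
          conv_lhs => rw [hpp]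
          simp only [hd]
          push_cast
          rw [← hpp]
          have h4 : p = (p / (‖p‖ : ℂ)) * (‖p‖ : ℂ) := hpp
          linear_combination -h4
        rw [h3, norm_mul, hu, one_mul, Complex.norm_real, norm_neg, Real.norm_of_nonneg]
        · have := mul_nonneg (norm_nonneg w) ht.1
          linarith
        · have := mul_nonneg (norm_nonneg w) ht.1
          linarith
  · right
    refine ⟨0, by simp, ?_⟩
    simp [hd]
  · left
    exact ⟨0, by simp, hg0⟩
  · refine IsPreconnected.union (g 1) ⟨1, by simp, rfl⟩ ⟨1, by simp, hg1.symm⟩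
      (isPreconnected_Icc.image _ hgc.continuousOn) (isPreconnected_Icc.image _ hdc.continuousOn)

theorem disc_minus_ball {p : ℂ} {r : ℝ} (hr : 0 ≤ r) (hp : r < ‖p‖) :
    IsConnected {z : ℂ | ‖z‖ < 1 ∧ r < dist z p} := by
  have hp0 : p ≠ 0 := by
    rintro rfl
    rw [norm_zero] at hp
    linarith
  exact HA_gen (P := fun x => r < x) hp0 (fun x y h h' => lt_of_lt_of_le h' h) hp

theorem disc_minus_ball' {p : ℂ} {r : ℝ} (hr : 0 ≤ r) (hp : r < ‖p‖) :
    IsConnected {z : ℂ | ‖z‖ < 1 ∧ r ≤ dist z p} := by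
  have hp0 : p ≠ 0 := by
    rintro rfl
    rw [norm_zero] at hp
    linarith
  exact HA_gen (P := fun x => r ≤ x) hp0 (fun x y h h' => le_trans h' h) hp.le

theorem arc_connected {ζ : ℂ} (hζ : ‖ζ‖ = 1) {ρ : ℝ} (hρ : 0 < ρ) (hρ2 : ρ < 2) :
    IsConnected {z : ℂ | ‖z‖ < 1 ∧ dist z ζ = ρ} := by
  set g : ℝ → ℂ := fun t => -ζ * ((ρ : ℂ) * Complex.exp ((t : ℂ) * Complex.I) - ((1 : ℝ) : ℂ))
    with hg
  have hζ0 : ζ ≠ 0 := by
    rintro rfl
    rw [norm_zero] at hζ
    exact zero_ne_one hζ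
  have hgc : Continuous g := by
    simp only [hg]
    fun_prop
  have hgn : ∀ t, ‖g t‖ ^ 2 = ρ ^ 2 + 1 - 2 * ρ * Real.cos t := by
    intro t
    simp only [hg]
    rw [norm_mul, norm_neg, hζ, one_mul, HA_norm_sq]
    ring
  have hgd : ∀ t, dist (g t) ζ = ρ := by
    intro t
    rw [dist_eq_norm]
    have : g t - ζ = -ζ * ((ρ : ℂ) * Complex.exp ((t : ℂ) * Complex.I)) := by
      simp only [hg]
      push_cast
      ring
    rw [this, norm_mul, norm_neg, hζ, one_mul, norm_mul, Complex.norm_exp_ofReal_mul_I, mul_one,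
      Complex.norm_real, Real.norm_of_nonneg hρ.le]
  have hlt : ∀ t, ‖g t‖ < 1 ↔ ρ / 2 < Real.cos t := by
    intro t
    rw [← sq_lt_one_iff₀ (norm_nonneg _), hgn]
    constructor
    · intro h
      nlinarith
    · intro h
      nlinarith
  have harc : 0 < Real.arccos (ρ / 2) := Real.arccos_pos.2 (by linarith)
  have heq : {z : ℂ | ‖z‖ < 1 ∧ dist z ζ = ρ} =
      g '' Ioo (-(Real.arccos (ρ / 2))) (Real.arccos (ρ / 2)) := by
    ext z
    constructor
    · rintro ⟨hz1, hz2⟩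
      set u : ℂ := (ζ - z) / ζ with hu
      have hun : ‖u‖ = ρ := by
        rw [hu, norm_div, hζ, div_one, ← dist_eq_norm, dist_comm]
        exact hz2
      have h1 := Complex.norm_mul_exp_arg_mul_I u
      rw [hun] at h1
      have h2 : g (Complex.arg u) = z := by
        simp only [hg]
        rw [h1, hu]
        field_simp
        push_cast
        ring
      refine ⟨Complex.arg u, ?_, h2⟩
      have h3 : ρ / 2 < Real.cos (Complex.arg u) := by
        rw [← hlt, h2]
        exact hz1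
      rw [← Real.cos_abs] at h3
      have h4 : |Complex.arg u| ≤ Real.pi := Complex.abs_arg_le_pi u
      have h5 : Real.arccos (Real.cos |Complex.arg u|) < Real.arccos (ρ / 2) :=
        Real.strictAntiOn_arccos ⟨by linarith, by linarith⟩
          ⟨Real.neg_one_le_cos _, Real.cos_le_one _⟩ h3
      rw [Real.arccos_cos (abs_nonneg _) h4] at h5
      exact abs_lt.1 h5
    · rintro ⟨t, ht, rfl⟩
      refine ⟨?_, hgd t⟩
      rw [hlt, ← Real.cos_abs]
      have h5 : |t| < Real.arccos (ρ / 2) := abs_lt.2 ht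
      have h6 := Real.cos_lt_cos_of_nonneg_of_le_pi (abs_nonneg t) (Real.arccos_le_pi _) h5
      rwa [Real.cos_arccos (by linarith) (by linarith)] at h6
  rw [heq]
  exact (isConnected_Ioo (by linarith)).image _ hgc.continuousOn

end DS
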