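import Pool.Agent.H36.DS.Base

/-!
IA (logarithms and winding numbers).  Proofs.
`allLogs_univ`: Mathlib has `Complex.exists_continuousOn_eqOn_exp_comp` for open simply connected sets
(`univ` is convex) in `Mathlib/Analysis/Complex/BranchLogRoot.lean`.  `allLogs_closedBall`, `allLogs_ball`:
closed ball by composing with the radial retraction `ℂ → closedBall c ρ` and `allLogs_univ`; the open ball
is homeomorphic to `ℂ` (`Homeomorph.unitBall` or open simply connected).
`allLogs_of_homeo`: compose with the homeomorphism.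
`hasWind_exists`: `t ↦ f (c + ρ e^{2πit})` on `[0,1]` has a continuous logarithm `l` (an interval; e.g. extend
by constants to `ℝ` and use `allLogs_univ` for `z ↦ f(..z.re..)`), `l 1 - l 0 = 2πi n`; `l t - 2πi n t` descends to
the circle (quotient topology of `[0,1]`, or glue two charts).
`hasWind_unique`: if `z ^ k = exp (L z)` on the circle with `k ≠ 0`, then `L (e^{iθ}) - i k θ` is constant on
`[0, 2π]`, contradiction at the endpoints.
`hasWind_of_ratio`: `f = g * exp (Complex.log (f / g))`.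
-/

namespace DS
open Metric Set Filter Topology

private theorem IA_allLogs_convex {W : Set ℂ} (hc : Convex ℝ W) (ho : IsOpen W) : AllLogs W := by
  intro f hf h0
  rcases W.eq_empty_or_nonempty with he | hne
  · subst he
    exact ⟨fun _ => 0, continuousOn_const, fun z hz => absurd hz (notMem_empty z)⟩
  · have hsc : IsSimplyConnected W := by
      have := hc.contractibleSpace hne
      exact (inferInstance : SimplyConnectedSpace W)
    obtain ⟨L, hL, hE⟩ := Complex.exists_continuousOn_eqOn_exp_comp hsc ho hf (by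
      rintro ⟨z, hz, hz0⟩
      exact h0 z hz hz0)
    exact ⟨L, hL, fun z hz => (hE hz).symm⟩

theorem allLogs_univ : AllLogs univ := IA_allLogs_convex convex_univ isOpen_univ

theorem allLogs_closedBall (c : ℂ) (ρ : ℝ) : AllLogs (closedBall c ρ) := by
  intro f hf h0
  rcases lt_trichotomy ρ 0 with h | h | h
  · refine ⟨fun _ => 0, continuousOn_const, fun z hz => ?_⟩
    rw [closedBall_eq_empty.2 h] at hz
    exact absurd hz (notMem_empty z)
  · subst h
    rw [closedBall_zero] at *
    refine ⟨fun _ => Complex.log (f c), continuousOn_const, ?_⟩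
    intro z hz
    rw [mem_singleton_iff] at hz
    subst hz
    rw [Complex.exp_log (h0 z (mem_singleton z))]
  · set r : ℂ → ℂ := fun z => c + ((ρ / max ρ ‖z - c‖ : ℝ) : ℂ) * (z - c) with hr
    have hmax : ∀ z : ℂ, 0 < max ρ ‖z - c‖ := fun z => lt_of_lt_of_le h (le_max_left _ _)
    have hrc : Continuous r := by
      have h1 : Continuous fun z : ℂ => max ρ ‖z - c‖ := by fun_prop
      have h2 : Continuous fun z : ℂ => ρ / max ρ ‖z - c‖ :=
        continuous_const.div h1 fun z => (hmax z).ne'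
      have h3 : Continuous fun z : ℂ => ((ρ / max ρ ‖z - c‖ : ℝ) : ℂ) :=
        Complex.continuous_ofReal.comp h2
      exact continuous_const.add (h3.mul (continuous_id.sub continuous_const))
    have hrm : ∀ z, r z ∈ closedBall c ρ := by
      intro z
      rw [mem_closedBall, dist_eq_norm, hr]
      simp only [add_sub_cancel_left]
      rw [norm_mul, Complex.norm_real, Real.norm_eq_abs,
        abs_of_nonneg (div_nonneg h.le (hmax z).le), div_mul_eq_mul_div, div_le_iff₀ (hmax z)]
      exact mul_le_mul_of_nonneg_left (le_max_right _ _) h.le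
    have hri : ∀ z ∈ closedBall c ρ, r z = z := by
      intro z hz
      rw [mem_closedBall, dist_eq_norm] at hz
      rw [hr]
      simp only
      rw [max_eq_left hz, div_self h.ne', Complex.ofReal_one, one_mul, add_sub_cancel]
    obtain ⟨L, hL, hE⟩ := allLogs_univ (f ∘ r)
      (hf.comp hrc.continuousOn (fun z _ => hrm z)) (fun z _ => h0 _ (hrm z))
    refine ⟨L, hL.mono (subset_univ _), fun z hz => ?_⟩
    rw [← hE z (mem_univ z), Function.comp_apply, hri z hz]

theorem allLogs_ball (c : ℂ) (ρ : ℝ) : AllLogs (ball c ρ) :=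
  IA_allLogs_convex (convex_ball c ρ) isOpen_ball

theorem allLogs_of_homeo {W : Set ℂ} {φ u : ℂ → ℂ} (hφ : ContinuousOn φ (ball 0 1))
    (hφW : MapsTo φ (ball 0 1) W) (hu : ContinuousOn u W) (huW : MapsTo u W (ball 0 1))
    (hφu : ∀ w ∈ W, φ (u w) = w) : AllLogs W := by
  intro f hf h0
  obtain ⟨L, hL, hE⟩ := allLogs_ball 0 1 (f ∘ φ) (hf.comp hφ hφW) (fun z hz => h0 _ (hφW hz))
  refine ⟨L ∘ u, hL.comp hu huW, fun w hw => ?_⟩
  have := hE (u w) (huW hw)
  rwa [Function.comp_apply, hφu w hw] at this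

/-- a continuous logarithm of one is constant -/
private theorem IA_const {g : ℝ → ℂ} (hg : Continuous g) (h : ∀ t, Complex.exp (g t) = 1)
    (s t : ℝ) : g s = g t := by
  have hloc : IsLocallyConstant g := by
    rw [IsLocallyConstant.iff_eventually_eq]
    intro x
    have h1 : ∀ᶠ y in 𝓝 x, dist (g y) (g x) < 1 :=
      hg.continuousAt.eventually (ball_mem_nhds _ one_pos)
    filter_upwards [h1] with y hy
    obtain ⟨a, ha⟩ := Complex.exp_eq_one_iff.1 (h y)
    obtain ⟨b, hb⟩ := Complex.exp_eq_one_iff.1 (h x)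
    have hab : g y - g x = ((a - b : ℤ) : ℂ) * (2 * Real.pi * Complex.I) := by
      rw [ha, hb]; push_cast; ring
    have hpi : (1 : ℝ) < 2 * Real.pi := by linarith [Real.pi_gt_three]
    by_cases hk : a - b = 0
    · rw [hk, Int.cast_zero, zero_mul, sub_eq_zero] at hab
      exact hab
    · exfalso
      have h2 : (1 : ℝ) ≤ |((a - b : ℤ) : ℝ)| := by
        rw [← Int.cast_abs]; exact_mod_cast Int.one_le_abs hk
      rw [dist_eq_norm, hab, norm_mul, Complex.norm_intCast] at hy
      have h3 : ‖(2 * Real.pi * Complex.I : ℂ)‖ = 2 * Real.pi := by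
        rw [norm_mul, Complex.norm_I, mul_one, norm_mul, Complex.norm_real, Real.norm_eq_abs,
          abs_of_pos Real.pi_pos]
        norm_num
      rw [h3] at hy
      nlinarith
  exact hloc.apply_eq_of_preconnectedSpace s t

private theorem IA_mem {c : ℂ} {ρ : ℝ} (hρ : 0 < ρ) (t : ℝ) :
    c + (ρ : ℂ) * Complex.exp (t * Complex.I) ∈ sphere c ρ := by
  rw [mem_sphere, dist_eq_norm, add_sub_cancel_left, norm_mul, Complex.norm_exp_ofReal_mul_I,
    mul_one, Complex.norm_real, Real.norm_eq_abs, abs_of_pos hρ]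

private theorem IA_arg {c : ℂ} {ρ : ℝ} {z : ℂ} (hz : z ∈ sphere c ρ) :
    c + (ρ : ℂ) * Complex.exp (Complex.arg (z - c) * Complex.I) = z := by
  rw [mem_sphere, dist_eq_norm] at hz
  have := Complex.norm_mul_exp_arg_mul_I (z - c)
  rw [hz] at this
  rw [this]; ring

private theorem IA_cont (c : ℂ) (ρ : ℝ) :
    Continuous fun t : ℝ => c + (ρ : ℂ) * Complex.exp (t * Complex.I) := by fun_prop

theorem hasWind_exists {f : ℂ → ℂ} {c : ℂ} {ρ : ℝ} (hρ : 0 < ρ) (hf : ContinuousOn f (sphere c ρ))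
    (h0 : ∀ z ∈ sphere c ρ, f z ≠ 0) : ∃ n : ℤ, HasWind f c ρ n := by
  set F : ℝ → ℂ := fun t => f (c + (ρ : ℂ) * Complex.exp (t * Complex.I)) with hF
  have hFc : Continuous F :=
    hf.comp_continuous (IA_cont c ρ) (fun t => IA_mem hρ t)
  have hF0 : ∀ t, F t ≠ 0 := fun t => h0 _ (IA_mem hρ t)
  have hFp : ∀ t, F (t + 2 * Real.pi) = F t := by
    intro t
    simp only [hF]
    congr 3
    have : ((t + 2 * Real.pi : ℝ) : ℂ) * Complex.I = t * Complex.I + 2 * Real.pi * Complex.I := by
      push_cast; ring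
    rw [this, Complex.exp_add, Complex.exp_two_pi_mul_I, mul_one]
  obtain ⟨L, hL, hE⟩ := allLogs_univ (fun z => F z.re)
    (hFc.comp Complex.continuous_re).continuousOn (fun z _ => hF0 _)
  have hLc : Continuous L := continuousOn_univ.1 hL
  set l : ℝ → ℂ := fun t => L t with hl
  have hlc : Continuous l := hLc.comp Complex.continuous_ofReal
  have hlE : ∀ t, F t = Complex.exp (l t) := by
    intro t
    have := hE (t : ℂ) (mem_univ _)
    simpa using this
  have hd : ∀ t, Complex.exp (l (t + 2 * Real.pi) - l t) = 1 := by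
    intro t
    rw [Complex.exp_sub, ← hlE, ← hlE, hFp, div_self (hF0 t)]
  have hdc : Continuous fun t => l (t + 2 * Real.pi) - l t :=
    (hlc.comp (continuous_id.add continuous_const)).sub hlc
  obtain ⟨n, hn⟩ := Complex.exp_eq_one_iff.1 (hd 0)
  have hdn : ∀ t, l (t + 2 * Real.pi) - l t = n * (2 * Real.pi * Complex.I) := by
    intro t
    rw [← hn]
    exact IA_const hdc hd t 0
  set m : ℝ → ℂ := fun t => l t - n * (t * Complex.I) with hm
  have hmc : Continuous m := by
    have : Continuous fun t : ℝ => (n : ℂ) * ((t : ℂ) * Complex.I) := by fun_prop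
    exact hlc.sub this
  have hmp : Function.Periodic m (2 * Real.pi) := by
    intro t
    have := hdn t
    simp only [hm]
    have h1 : l (t + 2 * Real.pi) = l t + n * (2 * Real.pi * Complex.I) := by
      rw [← this]; ring
    rw [h1]; push_cast; ring
  set M : Real.Angle → ℂ := fun θ => hmp.lift θ with hM
  have hMc : Continuous M := Continuous.quotient_liftOn' hmc _
  refine ⟨n, fun z => M (Complex.arg (z - c) : Real.Angle) - n * Real.log ρ, ?_, ?_⟩
  · refine ContinuousOn.sub ?_ continuousOn_const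
    intro z hz
    have hz0 : z - c ≠ 0 := by
      intro h
      rw [mem_sphere, dist_eq_norm, h, norm_zero] at hz
      exact hρ.ne hz
    have h1 : ContinuousAt (((↑) : ℝ → Real.Angle) ∘ Complex.arg) (z - c) :=
      Complex.continuousAt_arg_coe_angle hz0
    have h2 : ContinuousAt (fun w : ℂ => w - c) z := by fun_prop
    have h3 : ContinuousAt (fun w : ℂ => ((Complex.arg (w - c) : ℝ) : Real.Angle)) z :=
      ContinuousAt.comp (f := fun w : ℂ => w - c) h1 h2
    exact (hMc.continuousAt.comp h3).continuousWithinAt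
  · intro z hz
    have h1 : f z = Complex.exp (l (Complex.arg (z - c))) := by
      rw [← hlE]; simp only [hF]; rw [IA_arg hz]
    have h2 : M (Complex.arg (z - c) : Real.Angle) = m (Complex.arg (z - c)) := rfl
    have h3 : (z - c) ^ n = Complex.exp (n * Real.log ρ) *
        Complex.exp (n * (Complex.arg (z - c) * Complex.I)) := by
      rw [← Complex.exp_add, ← mul_add, Complex.exp_int_mul, Complex.exp_add, ← Complex.ofReal_exp,
        Real.exp_log hρ]
      congr 1
      have := IA_arg hz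
      linear_combination -this
    simp only
    rw [h1, h3, h2, ← Complex.exp_add, ← Complex.exp_add]
    congr 1
    simp only [hm]
    ring

theorem hasWind_unique {f : ℂ → ℂ} {c : ℂ} {ρ : ℝ} (hρ : 0 < ρ) {n m : ℤ}
    (hn : HasWind f c ρ n) (hm : HasWind f c ρ m) : n = m := by
  obtain ⟨L, hL, hLE⟩ := hn
  obtain ⟨M, hM, hME⟩ := hm
  have hpt : ∀ t : ℝ, ((ρ : ℂ) * Complex.exp (t * Complex.I)) ≠ 0 := fun t =>
    mul_ne_zero (Complex.ofReal_ne_zero.2 hρ.ne') (Complex.exp_ne_zero _)
  set p : ℝ → ℂ := fun t => c + (ρ : ℂ) * Complex.exp (t * Complex.I) with hp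
  have hpm : ∀ t, p t ∈ sphere c ρ := fun t => IA_mem hρ t
  have hpc : Continuous p := IA_cont c ρ
  have hexp : ∀ (k : ℤ) (t : ℝ), (p t - c) ^ k =
      Complex.exp (k * (Real.log ρ + t * Complex.I)) := by
    intro k t
    rw [Complex.exp_int_mul, Complex.exp_add, ← Complex.ofReal_exp, Real.exp_log hρ]
    simp only [hp, add_sub_cancel_left]
  set g : ℝ → ℂ := fun t => (n * (Real.log ρ + t * Complex.I) + L (p t)) -
    (m * (Real.log ρ + t * Complex.I) + M (p t)) with hg
  have hgc : Continuous g := by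
    have h1 : Continuous fun t => L (p t) := hL.comp_continuous hpc hpm
    have h2 : Continuous fun t => M (p t) := hM.comp_continuous hpc hpm
    have h3 : Continuous fun t : ℝ => (n : ℂ) * (Real.log ρ + t * Complex.I) := by fun_prop
    have h4 : Continuous fun t : ℝ => (m : ℂ) * (Real.log ρ + t * Complex.I) := by fun_prop
    exact (h3.add h1).sub (h4.add h2)
  have hg1 : ∀ t, Complex.exp (g t) = 1 := by
    intro t
    simp only [hg]
    rw [Complex.exp_sub, Complex.exp_add, Complex.exp_add, ← hexp, ← hexp, ← hLE _ (hpm t),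
      ← hME _ (hpm t), div_self]
    rw [hLE _ (hpm t)]
    refine mul_ne_zero (zpow_ne_zero _ ?_) (Complex.exp_ne_zero _)
    simp only [hp, add_sub_cancel_left]
    exact hpt t
  have h0 := IA_const hgc hg1 (2 * Real.pi) 0
  have hpp : p (2 * Real.pi) = p 0 := by
    simp only [hp]
    congr 2
    push_cast
    rw [Complex.exp_two_pi_mul_I, zero_mul, Complex.exp_zero]
  simp only [hg] at h0
  rw [hpp] at h0
  have h5 : ((n : ℂ) - m) * (2 * Real.pi * Complex.I) = 0 := by
    push_cast at h0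
    linear_combination h0
  have h6 : (2 * Real.pi * Complex.I : ℂ) ≠ 0 := Complex.two_pi_I_ne_zero
  rcases mul_eq_zero.1 h5 with h7 | h7
  · rw [sub_eq_zero] at h7
    exact_mod_cast h7
  · exact absurd h7 h6

private theorem IA_sub_ne {c : ℂ} {ρ : ℝ} (hρ : 0 < ρ) {z : ℂ} (hz : z ∈ sphere c ρ) :
    z - c ≠ 0 := by
  intro h
  rw [mem_sphere, dist_eq_norm, h, norm_zero] at hz
  exact hρ.ne hz

theorem hasWind_mul {f g : ℂ → ℂ} {c : ℂ} {ρ : ℝ} (hρ : 0 < ρ) {n m : ℤ}
    (hn : HasWind f c ρ n) (hm : HasWind g c ρ m) : HasWind (fun z => f z * g z) c ρ (n + m) := by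
  obtain ⟨L, hL, hLE⟩ := hn
  obtain ⟨M, hM, hME⟩ := hm
  refine ⟨fun z => L z + M z, hL.add hM, fun z hz => ?_⟩
  simp only
  rw [hLE z hz, hME z hz, zpow_add₀ (IA_sub_ne hρ hz), Complex.exp_add]
  ring

theorem hasWind_div {f g : ℂ → ℂ} {c : ℂ} {ρ : ℝ} (hρ : 0 < ρ) {n m : ℤ}
    (hn : HasWind f c ρ n) (hm : HasWind g c ρ m) : HasWind (fun z => f z / g z) c ρ (n - m) := by
  obtain ⟨L, hL, hLE⟩ := hn
  obtain ⟨M, hM, hME⟩ := hm
  refine ⟨fun z => L z - M z, hL.sub hM, fun z hz => ?_⟩
  simp only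
  rw [hLE z hz, hME z hz, zpow_sub₀ (IA_sub_ne hρ hz), Complex.exp_sub, mul_div_mul_comm]

theorem hasWind_of_ratio {f g : ℂ → ℂ} {c : ℂ} {ρ : ℝ} {n : ℤ} (hf : ContinuousOn f (sphere c ρ))
    (hg : ContinuousOn g (sphere c ρ)) (hg0 : ∀ z ∈ sphere c ρ, g z ≠ 0)
    (h : ∀ z ∈ sphere c ρ, f z / g z ∈ Complex.slitPlane) (hn : HasWind g c ρ n) :
    HasWind f c ρ n := by
  obtain ⟨L, hL, hLE⟩ := hn
  refine ⟨fun z => L z + Complex.log (f z / g z), ?_, fun z hz => ?_⟩
  · exact hL.add ((hf.div hg hg0).clog h)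
  · simp only
    rw [Complex.exp_add, Complex.exp_log (Complex.slitPlane_ne_zero (h z hz)), ← mul_assoc,
      ← hLE z hz, mul_div_cancel₀ _ (hg0 z hz)]

theorem hasWind_of_hasLog {f : ℂ → ℂ} {c : ℂ} {ρ : ℝ} {S : Set ℂ} (hS : sphere c ρ ⊆ S)
    (h : HasLog f S) : HasWind f c ρ 0 := by
  obtain ⟨L, hL, hLE⟩ := h
  refine ⟨L, hL.mono hS, fun z hz => ?_⟩
  rw [zpow_zero, one_mul]
  exact hLE z (hS hz)

theorem hasLog_of_hasWind {f : ℂ → ℂ} {c : ℂ} {ρ : ℝ} (h : HasWind f c ρ 0) :
    HasLog f (sphere c ρ) := by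
  obtain ⟨L, hL, hLE⟩ := h
  refine ⟨L, hL, fun z hz => ?_⟩
  have := hLE z hz
  rwa [zpow_zero, one_mul] at this

theorem hasWind_id (c : ℂ) (ρ : ℝ) : HasWind (fun z => z - c) c ρ 1 := by
  refine ⟨fun _ => 0, continuousOn_const, fun z _ => ?_⟩
  simp

end DS
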