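import Pool.Agent.H36.DS.Base

/-!
RG (primitives from closed polygons).  Proof.  First `polyI` is additive under concatenation:
`polyI f (l₁ ++ [b]) + polyI f (b :: l₂) = polyI f (l₁ ++ b :: l₂)` and changes sign under reversal
(`segI f a b = - segI f b a` by the substitution `t ↦ 1 - t`).  Fix `z₀ ∈ U`.  Every `z ∈ U` is the end of a
polygon in `U` starting at `z₀` (`U` open connected: the set of such points is open and closed in `U`);
put `F z = polyI f L` for any such polygon (well defined by the hypothesis applied to `L` followed by the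
reverse of `L'`).  On a ball around `z` inside `U`: `F w - F z = segI f z w`, and continuity of `f` at `z`
gives `HasDerivAt F (f z) z` (`‖segI f z w - (w - z) * f z‖ ≤ ε ‖w - z‖`).
-/

namespace DS
open Metric Set Filter Topology

theorem RG_segI_symm (f : ℂ → ℂ) (a b : ℂ) : segI f b a = -segI f a b := by
  unfold segI
  have h : (∫ t in (0:ℝ)..1, f (b + t * (a - b))) = ∫ t in (0:ℝ)..1, f (a + t * (b - a)) := by
    have h1 := intervalIntegral.integral_comp_sub_left (a := (0:ℝ)) (b := 1)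
      (fun t : ℝ => f (a + t * (b - a))) 1
    rw [sub_zero, sub_self] at h1
    rw [← h1]
    refine intervalIntegral.integral_congr fun t _ => ?_
    congr 1
    push_cast
    ring
  rw [h]
  ring

theorem RG_poly_append (f : ℂ → ℂ) (l₁ l₂ : List ℂ) (b c : ℂ) : ∀ a : ℂ,
    polyI f (a :: (l₁ ++ b :: (l₂ ++ [c]))) =
      polyI f (a :: (l₁ ++ [b])) + polyI f (b :: (l₂ ++ [c])) := by
  induction l₁ with
  | nil => intro a; simp [polyI]
  | cons x l ih =>
    intro a
    simp only [List.cons_append, polyI]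
    rw [ih x, add_assoc]

theorem RG_in_append {U : Set ℂ} (l₁ l₂ : List ℂ) (b c : ℂ) : ∀ a : ℂ,
    PolyIn U (a :: (l₁ ++ [b])) → PolyIn U (b :: (l₂ ++ [c])) →
      PolyIn U (a :: (l₁ ++ b :: (l₂ ++ [c]))) := by
  induction l₁ with
  | nil =>
    intro a h1 h2
    exact ⟨h1.1, h2⟩
  | cons x l ih =>
    intro a h1 h2
    exact ⟨h1.1, ih x h1.2 h2⟩

/-- there is a polygon in `U` from `a` to `b` with integral `v` -/
def RG_R (U : Set ℂ) (f : ℂ → ℂ) (a b v : ℂ) : Prop :=
  ∃ l : List ℂ, PolyIn U (a :: (l ++ [b])) ∧ polyI f (a :: (l ++ [b])) = v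

theorem RG_trans {U : Set ℂ} {f : ℂ → ℂ} {a b c v w : ℂ} (h1 : RG_R U f a b v)
    (h2 : RG_R U f b c w) : RG_R U f a c (v + w) := by
  obtain ⟨l₁, h11, h12⟩ := h1
  obtain ⟨l₂, h21, h22⟩ := h2
  refine ⟨l₁ ++ b :: l₂, ?_, ?_⟩
  · have := RG_in_append l₁ l₂ b c a h11 h21
    simpa using this
  · have := RG_poly_append f l₁ l₂ b c a
    rw [h12, h22] at this
    rw [← this]
    simp

theorem RG_seg {U : Set ℂ} {f : ℂ → ℂ} {a b : ℂ} (h : segment ℝ a b ⊆ U) :
    RG_R U f a b (segI f a b) :=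
  ⟨[], ⟨h, h (right_mem_segment ℝ a b)⟩, by simp [polyI]⟩

theorem RG_symm {U : Set ℂ} {f : ℂ → ℂ} (l : List ℂ) (b : ℂ) : ∀ a : ℂ,
    PolyIn U (a :: (l ++ [b])) → RG_R U f b a (-polyI f (a :: (l ++ [b]))) := by
  induction l with
  | nil =>
    intro a h
    have h1 : segment ℝ b a ⊆ U := by rw [segment_symm]; exact h.1
    have h2 := RG_seg (f := f) h1
    rw [RG_segI_symm] at h2
    simpa [polyI] using h2
  | cons x l ih =>
    intro a h
    have h1 : segment ℝ x a ⊆ U := by rw [segment_symm]; exact h.1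
    have h2 := RG_trans (ih x h.2) (RG_seg (f := f) h1)
    rw [RG_segI_symm] at h2
    have e : -polyI f (a :: (x :: l ++ [b])) = -polyI f (x :: (l ++ [b])) + -segI f a x := by
      simp only [List.cons_append, polyI]
      ring
    rw [e]
    exact h2

theorem RG_sub {U : Set ℂ} (hU : IsOpen U) {z : ℂ} (hz : z ∈ U) :
    ∀ᶠ w in 𝓝 z, segment ℝ z w ⊆ U := by
  obtain ⟨r, hr, hb⟩ := Metric.isOpen_iff.mp hU z hz
  filter_upwards [Metric.ball_mem_nhds z hr] with w hw
  exact ((convex_ball z r).segment_subset (mem_ball_self hr) hw).trans hb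

theorem prim_of_poly {U : Set ℂ} (hU : IsOpen U) (hc : IsConnected U) {f : ℂ → ℂ}
    (hf : ContinuousOn f U)
    (hp : ∀ (a : ℂ) (l : List ℂ), PolyIn U (a :: (l ++ [a])) → polyI f (a :: (l ++ [a])) = 0) :
    ∃ F : ℂ → ℂ, ∀ z ∈ U, HasDerivAt F (f z) z := by
  classical
  obtain ⟨z₀, hz₀⟩ := hc.nonempty
  have hsym : ∀ a b v, RG_R U f a b v → RG_R U f b a (-v) := by
    rintro a b v ⟨l, h1, rfl⟩
    exact RG_symm l b a h1
  have hex : ∀ z ∈ U, ∃ v, RG_R U f z₀ z v := by
    intro z hz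
    refine hc.isPreconnected.induction₂ (fun a b => ∃ v, RG_R U f a b v) ?_ ?_ ?_ hz₀ hz
    · intro x hx
      filter_upwards [nhdsWithin_le_nhds (RG_sub hU hx)] with y hy
      exact ⟨_, RG_seg hy⟩
    · rintro x y z _ _ _ ⟨v, hv⟩ ⟨w, hw⟩
      exact ⟨_, RG_trans hv hw⟩
    · rintro x y _ _ ⟨v, hv⟩
      exact ⟨_, hsym _ _ _ hv⟩
  have huni : ∀ z v w, RG_R U f z₀ z v → RG_R U f z₀ z w → v = w := by
    intro z v w hv hw
    obtain ⟨l, h1, h2⟩ := RG_trans hv (hsym _ _ _ hw)
    rw [hp z₀ l h1] at h2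
    exact (sub_eq_zero.mp (by rw [sub_eq_add_neg]; exact h2.symm))
  choose! F hF using hex
  refine ⟨F, fun z hz => ?_⟩
  have hFw : ∀ w, segment ℝ z w ⊆ U → F w - F z = segI f z w := by
    intro w hw
    have hwU : w ∈ U := hw (right_mem_segment ℝ z w)
    rw [huni w _ _ (hF w hwU) (RG_trans (hF z hz) (RG_seg hw))]
    ring
  rw [hasDerivAt_iff_isLittleO, Asymptotics.isLittleO_iff]
  intro ε hε
  have hcz : ContinuousAt f z := hf.continuousAt (hU.mem_nhds hz)
  obtain ⟨r, hr, hb⟩ := Metric.isOpen_iff.mp hU z hz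
  obtain ⟨δ, hδ, hδ'⟩ := Metric.continuousAt_iff.mp hcz ε hε
  filter_upwards [Metric.ball_mem_nhds z (lt_min hr hδ)] with w hw
  have hseg : segment ℝ z w ⊆ ball z (min r δ) :=
    (convex_ball z _).segment_subset (mem_ball_self (lt_min hr hδ)) hw
  have hsegU : segment ℝ z w ⊆ U := (hseg.trans (ball_subset_ball (min_le_left _ _))).trans hb
  rw [hFw w hsegU]
  have hmem : ∀ t ∈ Icc (0:ℝ) 1, z + (t:ℂ) * (w - z) ∈ segment ℝ z w := by
    intro t ht
    rw [segment_eq_image']
    exact ⟨t, ht, by simp⟩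
  have hint : IntervalIntegrable (fun t : ℝ => f (z + t * (w - z))) MeasureTheory.volume 0 1 := by
    apply ContinuousOn.intervalIntegrable
    rw [uIcc_of_le zero_le_one]
    exact hf.comp (by fun_prop) fun t ht => hsegU (hmem t ht)
  have e : segI f z w - (w - z) • f z = (w - z) * ∫ t in (0:ℝ)..1, (f (z + t * (w - z)) - f z) := by
    rw [intervalIntegral.integral_sub hint intervalIntegrable_const]
    simp only [intervalIntegral.integral_const, sub_zero, one_smul, smul_eq_mul]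
    unfold segI
    ring
  rw [e, norm_mul, mul_comm]
  apply mul_le_mul_of_nonneg_right _ (norm_nonneg _)
  have h1 := intervalIntegral.norm_integral_le_of_norm_le_const (a := (0:ℝ)) (b := 1) (C := ε)
    (f := fun t : ℝ => f (z + t * (w - z)) - f z) ?_
  · simpa using h1
  · intro t ht
    rw [uIoc_of_le zero_le_one] at ht
    have h2 := hseg (hmem t ⟨ht.1.le, ht.2⟩)
    rw [← dist_eq_norm]
    exact (hδ' ((mem_ball.mp h2).trans_le (min_le_right _ _))).le

end DS
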