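import Pool.Agent.H36.DS.RH

/-!
RJ (Dixon: the global Cauchy theorem for closed polygons).  Proof (Rudin, Real and Complex Analysis 10.35).
Let `L = a :: (l ++ [a])`, `P` the union of its edges (compact, `⊆ U`), and
`g z w = (f w - f z) / (w - z)` for `z ≠ w`, `g z z = deriv f z`: continuous on `U × U` (use
`g z w = ∫_0^1 deriv f (z + t (w - z)) dt` near the diagonal; Mathlib's `dslope f z w` is this function).
`h z = polyI (fun w => g z w) L` for `z ∈ U` is holomorphic on `U` (continuous by uniform continuity on compacta;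
differentiate under the integral or use Morera/Fubini over small circles).  Let
`Ω₁ = {z | z off the edges, polyI (fun w => (w - z)⁻¹) L = 0}`: open because the value is `2 π i n` and continuous
(`wnd_int`, `wnd_cont`); `h₁ z = polyI (fun w => f w / (w - z)) L` is holomorphic on `Ω₁` and `h = h₁` on
`U ∩ Ω₁`.  By hypothesis `U ∪ Ω₁ = ℂ`, so the glued function is entire; it tends to `0` at infinity
(`Ω₁` contains the outside of a large ball and `‖h₁ z‖ ≤ C / dist`), so it is `0` by Liouville.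
Hence for `z ∈ U` off the edges `polyI (fun w => f w / (w - z)) L = f z * polyI (fun w => (w - z)⁻¹) L`.  Apply
this to `w ↦ f w * (w - z₁)` at a point `z = z₁ ∈ U` off the edges (exists: `U` is open and the edges have
empty interior; if `U` is empty there is nothing to do): `polyI f L = 0`.
(`PolyIn U L` forces `U` nonempty.)
-/

namespace DS
open Metric Set Filter Topology MeasureTheory

theorem RJ_paramI {V : Set ℂ} (hV : IsOpen V) {F : ℂ → ℝ → ℂ}
    (hF : ContinuousOn (fun p : ℂ × ℝ => F p.1 p.2) (V ×ˢ Icc 0 1))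
    (hd : ∀ t ∈ Icc (0:ℝ) 1, DifferentiableOn ℂ (fun z => F z t) V) :
    DifferentiableOn ℂ (fun z => ∫ t in (0:ℝ)..1, F z t) V := by
  intro z₀ hz₀
  apply DifferentiableAt.differentiableWithinAt
  obtain ⟨r₀, hr₀, hball⟩ := Metric.isOpen_iff.mp hV z₀ hz₀
  set r : ℝ := r₀ / 4 with hr
  have hr0 : 0 < r := by positivity
  have hcb : closedBall z₀ (2 * r) ⊆ V := by
    refine (closedBall_subset_ball ?_).trans hball
    rw [hr]; linarith
  have hcont : ∀ z ∈ V, ContinuousOn (fun t => F z t) (Icc 0 1) := by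
    intro z hz
    have h1 : ContinuousOn (fun t : ℝ => ((z, t) : ℂ × ℝ)) (Icc 0 1) := by fun_prop
    exact hF.comp h1 (fun t ht => ⟨hz, ht⟩)
  have hu : uIoc (0:ℝ) 1 ⊆ Icc 0 1 := by
    rw [uIoc_of_le zero_le_one]; exact Ioc_subset_Icc_self
  have hmeas : ∀ z ∈ V, AEStronglyMeasurable (fun t => F z t) (volume.restrict (uIoc (0:ℝ) 1)) := by
    intro z hz
    exact ((hcont z hz).mono hu).aestronglyMeasurable measurableSet_uIoc
  obtain ⟨M, hM⟩ := ((isCompact_closedBall z₀ (2 * r)).prod
    (isCompact_Icc (a := (0:ℝ)) (b := 1))).exists_bound_of_continuousOn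
    (hF.mono (prod_mono hcb (Subset.refl _)))
  have hM' : ∀ z ∈ closedBall z₀ (2 * r), ∀ t ∈ Icc (0:ℝ) 1, ‖F z t‖ ≤ M :=
    fun z hz t ht => hM (z, t) ⟨hz, ht⟩
  have hball_cb : ∀ z ∈ ball z₀ r, closedBall z r ⊆ closedBall z₀ (2 * r) := by
    intro z hz
    apply closedBall_subset_closedBall'
    have := (mem_ball.mp hz).le
    linarith
  have hderiv : ∀ z ∈ ball z₀ r, ∀ t ∈ Icc (0:ℝ) 1, ‖deriv (fun z => F z t) z‖ ≤ M / r := by
    intro z hz t ht
    apply Complex.norm_deriv_le_of_forall_mem_sphere_norm_le hr0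
    · apply DifferentiableOn.diffContOnCl
      refine (hd t ht).mono ?_
      exact (closure_ball_subset_closedBall).trans ((hball_cb z hz).trans hcb)
    · intro w hw
      exact hM' w (hball_cb z hz (sphere_subset_closedBall hw)) t ht
  have hballV : ball z₀ r ⊆ V := (ball_subset_closedBall.trans
    (closedBall_subset_closedBall (by linarith))).trans hcb
  have hdiff : ∀ z ∈ V, ∀ t ∈ Icc (0:ℝ) 1,
      HasDerivAt (fun z => F z t) (deriv (fun z => F z t) z) z := by
    intro z hz t ht
    exact ((hd t ht).differentiableAt (hV.mem_nhds hz)).hasDerivAt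
  have hres := intervalIntegral.hasDerivAt_integral_of_dominated_loc_of_deriv_le
    (μ := volume) (a := (0:ℝ)) (b := 1) (F := F) (F' := fun z t => deriv (fun z => F z t) z)
    (x₀ := z₀) (s := ball z₀ r) (bound := fun _ => M / r) (ball_mem_nhds z₀ hr0)
    (by filter_upwards [hV.mem_nhds hz₀] with z hz using hmeas z hz)
    (by
      apply ContinuousOn.intervalIntegrable
      rw [uIcc_of_le zero_le_one]
      exact hcont z₀ hz₀)
    (by
      have hlim : ∀ t ∈ Icc (0:ℝ) 1, Tendsto (fun n : ℕ =>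
          ((r / (n + 1) : ℝ) : ℂ)⁻¹ • (F (z₀ + ((r / (n + 1) : ℝ) : ℂ)) t - F z₀ t)) atTop
          (𝓝 (deriv (fun z => F z t) z₀)) := by
        intro t ht
        have h1 := (hdiff z₀ hz₀ t ht).tendsto_slope_zero
        have h2 : Tendsto (fun n : ℕ => ((r / (n + 1) : ℝ) : ℂ)) atTop (𝓝[≠] 0) := by
          rw [tendsto_nhdsWithin_iff]
          constructor
          · have h3 : Tendsto (fun n : ℕ => (r / (n + 1) : ℝ)) atTop (𝓝 0) := by
              have := (tendsto_one_div_add_atTop_nhds_zero_nat (𝕜 := ℝ)).const_mul r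
              rw [mul_zero] at this
              refine this.congr ?_
              intro n; rw [mul_one_div]
            have h4 := (Complex.continuous_ofReal.tendsto 0).comp h3
            rw [Complex.ofReal_zero] at h4
            exact h4
          · filter_upwards with n
            have : (r / (n + 1) : ℝ) ≠ 0 := by positivity
            exact Complex.ofReal_ne_zero.mpr this
        exact h1.comp h2
      refine aestronglyMeasurable_of_tendsto_ae atTop (f := fun (n : ℕ) (t : ℝ) =>
          ((r / (n + 1) : ℝ) : ℂ)⁻¹ • (F (z₀ + ((r / (n + 1) : ℝ) : ℂ)) t - F z₀ t)) ?_ ?_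
      · intro n
        have hmem : z₀ + ((r / (n + 1) : ℝ) : ℂ) ∈ V := by
          apply hcb
          rw [mem_closedBall, dist_eq_norm, add_sub_cancel_left, Complex.norm_real,
            Real.norm_eq_abs, abs_of_pos (by positivity)]
          have : r / (n + 1) ≤ r := div_le_self hr0.le (by
            have : (0:ℝ) ≤ n := Nat.cast_nonneg n
            linarith)
          linarith
        exact AEStronglyMeasurable.const_smul ((hmeas _ hmem).sub (hmeas z₀ hz₀))
          (((r / (n + 1) : ℝ) : ℂ)⁻¹)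
      · rw [ae_restrict_iff' measurableSet_uIoc]
        filter_upwards with t ht
        exact hlim t (hu ht))
    (by filter_upwards with t ht z hz using hderiv z hz t (hu ht))
    (by simp)
    (by filter_upwards with t ht z hz using hdiff z (hballV hz) t (hu ht))
  exact hres.2.differentiableAt


/-- union of the edges -/
def RJ_ed : List ℂ → Set ℂ
  | [] => ∅
  | [a] => {a}
  | a :: b :: l => segment ℝ a b ∪ RJ_ed (b :: l)

theorem RJ_polyIn_iff (V : Set ℂ) : ∀ L : List ℂ, PolyIn V L ↔ RJ_ed L ⊆ V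
  | [] => by simp [PolyIn, RJ_ed]
  | [a] => by simp [PolyIn, RJ_ed]
  | a :: b :: l => by
    rw [PolyIn, RJ_ed, union_subset_iff, RJ_polyIn_iff V (b :: l)]

theorem RJ_ed_compact : ∀ L : List ℂ, IsCompact (RJ_ed L)
  | [] => isCompact_empty
  | [a] => isCompact_singleton
  | a :: b :: l => by
    rw [RJ_ed]
    refine IsCompact.union ?_ (RJ_ed_compact (b :: l))
    rw [segment_eq_image']
    exact isCompact_Icc.image (by fun_prop)

theorem RJ_mem {a b : ℂ} {t : ℝ} (ht : t ∈ Icc (0:ℝ) 1) : a + t * (b - a) ∈ segment ℝ a b := by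
  rw [segment_eq_image']
  exact ⟨t, ht, by simp⟩

theorem RJ_param {V : Set ℂ} (hV : IsOpen V) {F : ℂ → ℂ → ℂ} : ∀ L : List ℂ,
    ContinuousOn (fun p : ℂ × ℂ => F p.1 p.2) (V ×ˢ RJ_ed L) →
    (∀ w ∈ RJ_ed L, DifferentiableOn ℂ (fun z => F z w) V) →
    DifferentiableOn ℂ (fun z => polyI (F z) L) V
  | [] => fun _ _ => by simp [polyI]
  | [a] => fun _ _ => by simp [polyI]
  | a :: b :: l => fun hF hd => by
    have h1 : DifferentiableOn ℂ (fun z => polyI (F z) (b :: l)) V :=
      RJ_param hV (b :: l) (hF.mono (prod_mono (Subset.refl _) subset_union_right))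
        (fun w hw => hd w (Or.inr hw))
    have h2 : DifferentiableOn ℂ (fun z => ∫ t in (0:ℝ)..1, F z (a + t * (b - a))) V := by
      apply RJ_paramI hV (F := fun z t => F z (a + t * (b - a)))
      · have h3 : ContinuousOn (fun p : ℂ × ℝ => ((p.1, a + p.2 * (b - a)) : ℂ × ℂ))
            (V ×ˢ Icc 0 1) := by
          apply Continuous.continuousOn
          fun_prop
        exact hF.comp h3 (fun p hp => ⟨hp.1, Or.inl (RJ_mem hp.2)⟩)
      · intro t ht
        exact hd _ (Or.inl (RJ_mem ht))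
    have h3 : (fun z => polyI (F z) (a :: b :: l)) =
        fun z => (b - a) * (∫ t in (0:ℝ)..1, F z (a + t * (b - a))) + polyI (F z) (b :: l) := by
      funext z
      rw [polyI, segI]
    rw [h3]
    exact (h2.const_mul _).add h1

theorem RJ_congr {f g : ℂ → ℂ} : ∀ L : List ℂ, (∀ w ∈ RJ_ed L, f w = g w) → polyI f L = polyI g L
  | [] => fun _ => rfl
  | [a] => fun _ => rfl
  | a :: b :: l => fun h => by
    rw [polyI, polyI, RJ_congr (b :: l) (fun w hw => h w (Or.inr hw)), segI, segI]
    congr 2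
    apply intervalIntegral.integral_congr
    intro t ht
    rw [uIcc_of_le zero_le_one] at ht
    exact h _ (Or.inl (RJ_mem ht))

theorem RJ_sub {f g : ℂ → ℂ} (c : ℂ) : ∀ L : List ℂ, ContinuousOn f (RJ_ed L) →
    ContinuousOn g (RJ_ed L) → polyI (fun w => f w - c * g w) L = polyI f L - c * polyI g L
  | [] => fun _ _ => by simp [polyI]
  | [a] => fun _ _ => by simp [polyI]
  | a :: b :: l => fun hf hg => by
    have hγ : ContinuousOn (fun t : ℝ => a + (t:ℂ) * (b - a)) (uIcc 0 1) := by
      apply Continuous.continuousOn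
      fun_prop
    have hm : ∀ t ∈ uIcc (0:ℝ) 1, a + (t:ℂ) * (b - a) ∈ RJ_ed (a :: b :: l) := by
      intro t ht
      rw [uIcc_of_le zero_le_one] at ht
      exact Or.inl (RJ_mem ht)
    have h1 : IntervalIntegrable (fun t : ℝ => f (a + t * (b - a))) volume 0 1 :=
      (hf.comp hγ hm).intervalIntegrable
    have h2 : IntervalIntegrable (fun t : ℝ => g (a + t * (b - a))) volume 0 1 :=
      (hg.comp hγ hm).intervalIntegrable
    rw [polyI, polyI, polyI, RJ_sub c (b :: l) (hf.mono subset_union_right)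
      (hg.mono subset_union_right), segI, segI, segI,
      intervalIntegral.integral_sub h1 (h2.const_mul c), intervalIntegral.integral_const_mul]
    ring

theorem RJ_bound : ∀ L : List ℂ, ∃ C : ℝ, 0 ≤ C ∧ ∀ (f : ℂ → ℂ) (M : ℝ),
    (∀ w ∈ RJ_ed L, ‖f w‖ ≤ M) → ‖polyI f L‖ ≤ C * M
  | [] => ⟨0, le_rfl, fun f M _ => by simp [polyI]⟩
  | [a] => ⟨0, le_rfl, fun f M _ => by simp [polyI]⟩
  | a :: b :: l => by
    obtain ⟨C, hC, h⟩ := RJ_bound (b :: l)
    refine ⟨‖b - a‖ + C, by positivity, ?_⟩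
    intro f M hM
    rw [polyI, segI, add_mul]
    refine (norm_add_le _ _).trans (add_le_add ?_ (h f M (fun w hw => hM w (Or.inr hw))))
    rw [norm_mul]
    apply mul_le_mul_of_nonneg_left _ (norm_nonneg _)
    have h1 : ‖∫ t in (0:ℝ)..1, f (a + t * (b - a))‖ ≤ M * |1 - 0| := by
      apply intervalIntegral.norm_integral_le_of_norm_le_const
      intro t ht
      rw [uIoc_of_le zero_le_one] at ht
      exact hM _ (Or.inl (RJ_mem (Ioc_subset_Icc_self ht)))
    simpa using h1

theorem RJ_dslope_cont {U : Set ℂ} (hU : IsOpen U) {f : ℂ → ℂ} (hf : DifferentiableOn ℂ f U) :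
    ContinuousOn (fun p : ℂ × ℂ => dslope f p.1 p.2) (U ×ˢ U) := by
  rintro ⟨z, w⟩ ⟨hz, hw⟩
  apply ContinuousAt.continuousWithinAt
  have hfc : ∀ z ∈ U, ContinuousAt f z := fun z hz =>
    (hf.differentiableAt (hU.mem_nhds hz)).continuousAt
  by_cases hzw : z = w
  · subst hzw
    have hstr : HasStrictDerivAt f (deriv f z) z :=
      ((hf.analyticAt (hU.mem_nhds hz)).hasStrictDerivAt)
    have hder : ContinuousAt (deriv f) z := by
      have := (hf.analyticAt (hU.mem_nhds hz)).deriv
      exact this.continuousAt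
    rw [Metric.continuousAt_iff]
    intro ε hε
    have h1 := (hasStrictDerivAt_iff_hasStrictFDerivAt.mp hstr).isLittleO.def (half_pos hε)
    rw [Metric.eventually_nhds_iff] at h1
    obtain ⟨δ₁, hδ₁, h1⟩ := h1
    obtain ⟨δ₂, hδ₂, h2⟩ := Metric.continuousAt_iff.mp hder ε hε
    refine ⟨min δ₁ δ₂, lt_min hδ₁ hδ₂, ?_⟩
    rintro ⟨x, y⟩ hxy
    have hx : dist x z < δ₂ := (le_max_left _ _).trans_lt (hxy.trans_le (min_le_right _ _))
    have hxy' : dist ((y, x) : ℂ × ℂ) (z, z) < δ₁ := by
      have := hxy.trans_le (min_le_left δ₁ δ₂)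
      rw [Prod.dist_eq] at this ⊢
      rw [max_comm]; exact this
    show dist (dslope f x y) (dslope f z z) < ε
    rw [dslope_same]
    by_cases hne : y = x
    · subst hne
      rw [dslope_same]
      exact h2 hx
    · rw [dslope_of_ne f hne, slope_def_field, dist_eq_norm]
      have h3 := h1 hxy'
      simp only at h3
      have hpos : 0 < ‖y - x‖ := norm_pos_iff.mpr (sub_ne_zero.mpr hne)
      have h4 : (f y - f x) / (y - x) - deriv f z =
          (f y - f x - (y - x) * deriv f z) / (y - x) := by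
        have : y - x ≠ 0 := sub_ne_zero.mpr hne
        field_simp
      rw [h4, norm_div, div_lt_iff₀ hpos]
      have h5 : ‖f y - f x - (y - x) * deriv f z‖ ≤ ε / 2 * ‖y - x‖ := by
        simpa using h3
      nlinarith
  · have hev : (fun p : ℂ × ℂ => dslope f p.1 p.2) =ᶠ[𝓝 (z, w)]
        fun p : ℂ × ℂ => (f p.2 - f p.1) / (p.2 - p.1) := by
      have hne : ∀ᶠ p : ℂ × ℂ in 𝓝 (z, w), p.2 ≠ p.1 := by
        have : IsOpen {p : ℂ × ℂ | p.2 ≠ p.1} := isOpen_ne_fun continuous_snd continuous_fst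
        exact this.mem_nhds (fun h => hzw h.symm)
      filter_upwards [hne] with p hp
      rw [dslope_of_ne f hp, slope_def_field]
    refine ContinuousAt.congr ?_ hev.symm
    apply ContinuousAt.div
    · apply ContinuousAt.sub
      · exact ContinuousAt.comp (f := Prod.snd) (hfc w hw) continuousAt_snd
      · exact ContinuousAt.comp (f := Prod.fst) (hfc z hz) continuousAt_fst
    · exact continuousAt_snd.sub continuousAt_fst
    · exact sub_ne_zero.mpr (fun h => hzw h.symm)

theorem RJ_dslope_symm (f : ℂ → ℂ) (z w : ℂ) : dslope f z w = dslope f w z := by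
  by_cases h : z = w
  · subst h; rfl
  · rw [dslope_of_ne f h, dslope_of_ne f (Ne.symm h), slope_comm]


theorem RJ_head (a : ℂ) (M : List ℂ) : a ∈ RJ_ed (a :: M) := by
  cases M with
  | nil => exact mem_singleton a
  | cons b l => exact Or.inl (left_mem_segment ℝ a b)

theorem RJ_int_zero (a : ℂ) (l : List ℂ) (z : ℂ) (hz : z ∉ RJ_ed (a :: (l ++ [a])))
    (h : ‖polyI (fun w => (w - z)⁻¹) (a :: (l ++ [a]))‖ < 1) :
    polyI (fun w => (w - z)⁻¹) (a :: (l ++ [a])) = 0 := by
  have hP : PolyIn {z}ᶜ (a :: (l ++ [a])) := by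
    rw [RJ_polyIn_iff]
    intro w hw hwz
    rw [mem_singleton_iff] at hwz
    exact hz (hwz ▸ hw)
  obtain ⟨n, hn⟩ := wnd_int a l z hP
  rw [hn] at h ⊢
  have h1 : ‖(2 * Real.pi * Complex.I * n : ℂ)‖ = 2 * Real.pi * |(n:ℝ)| := by
    rw [norm_mul, norm_mul, norm_mul, Complex.norm_I, Complex.norm_real, Complex.norm_intCast,
      Real.norm_eq_abs, abs_of_pos Real.pi_pos]
    simp
  rw [h1] at h
  have hn0 : n = 0 := by
    by_contra hne
    have h2 : (1:ℝ) ≤ |(n:ℝ)| := by exact_mod_cast Int.one_le_abs hne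
    have h3 := Real.pi_gt_three
    nlinarith
  rw [hn0]; simp

theorem RJ_key {U : Set ℂ} (hU : IsOpen U) {f : ℂ → ℂ} (hf : DifferentiableOn ℂ f U)
    (a : ℂ) (l : List ℂ) (hl : PolyIn U (a :: (l ++ [a])))
    (h0 : ∀ z, z ∉ U → polyI (fun w => (w - z)⁻¹) (a :: (l ++ [a])) = 0) {z : ℂ} (hz : z ∈ U) :
    polyI (dslope f z) (a :: (l ++ [a])) = 0 := by
  classical
  set L := a :: (l ++ [a]) with hL
  have hPU : RJ_ed L ⊆ U := (RJ_polyIn_iff U L).mp hl
  have hPc : IsCompact (RJ_ed L) := RJ_ed_compact L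
  have hPo : IsOpen (RJ_ed L)ᶜ := hPc.isClosed.isOpen_compl
  have hfc : ContinuousOn f (RJ_ed L) := hf.continuousOn.mono hPU
  -- the three functions
  have hh : DifferentiableOn ℂ (fun z => polyI (dslope f z) L) U := by
    apply RJ_param hU (F := fun z w => dslope f z w) L
    · exact (RJ_dslope_cont hU hf).mono (prod_mono (Subset.refl _) hPU)
    · intro w hw
      have h1 : (fun z => dslope f z w) = dslope f w := by
        funext z; exact RJ_dslope_symm f z w
      rw [h1]
      exact (Complex.differentiableOn_dslope (hU.mem_nhds (hPU hw))).mpr hf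
  have hne : ∀ z ∈ (RJ_ed L)ᶜ, ∀ w ∈ RJ_ed L, w - z ≠ 0 := by
    intro z hz w hw h
    rw [sub_eq_zero] at h
    exact hz (h ▸ hw)
  have hW : DifferentiableOn ℂ (fun z => polyI (fun w => (w - z)⁻¹) L) (RJ_ed L)ᶜ := by
    apply RJ_param hPo (F := fun z w => (w - z)⁻¹) L
    · apply ContinuousOn.inv₀
      · fun_prop
      · rintro ⟨z, w⟩ ⟨hz, hw⟩
        exact hne z hz w hw
    · intro w hw
      apply DifferentiableOn.inv
      · fun_prop
      · intro z hz
        exact hne z hz w hw
  have hh1 : DifferentiableOn ℂ (fun z => polyI (fun w => f w * (w - z)⁻¹) L) (RJ_ed L)ᶜ := by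
    apply RJ_param hPo (F := fun z w => f w * (w - z)⁻¹) L
    · apply ContinuousOn.mul
      · exact hfc.comp continuousOn_snd (fun p hp => hp.2)
      · apply ContinuousOn.inv₀
        · fun_prop
        · rintro ⟨z, w⟩ ⟨hz, hw⟩
          exact hne z hz w hw
    · intro w hw
      apply DifferentiableOn.const_mul
      apply DifferentiableOn.inv
      · fun_prop
      · intro z hz
        exact hne z hz w hw
  have hagree : ∀ z ∈ (RJ_ed L)ᶜ, polyI (fun w => (w - z)⁻¹) L = 0 →
      polyI (dslope f z) L = polyI (fun w => f w * (w - z)⁻¹) L := by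
    intro z hz hWz
    have hinv : ContinuousOn (fun w => (w - z)⁻¹) (RJ_ed L) := by
      apply ContinuousOn.inv₀
      · fun_prop
      · intro w hw
        exact hne z hz w hw
    have h1 : polyI (dslope f z) L = polyI (fun w => f w * (w - z)⁻¹ - f z * (w - z)⁻¹) L := by
      apply RJ_congr
      intro w hw
      have hwz : w ≠ z := sub_ne_zero.mp (hne z hz w hw)
      rw [dslope_of_ne f hwz, slope_def_field, div_eq_mul_inv, sub_mul]
    rw [h1, RJ_sub (f := fun w => f w * (w - z)⁻¹) (g := fun w => (w - z)⁻¹) (f z) L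
      (hfc.mul hinv) hinv, hWz, mul_zero, sub_zero]
  -- the glued function
  set Φ : ℂ → ℂ := fun z => if z ∈ U then polyI (dslope f z) L
    else polyI (fun w => f w * (w - z)⁻¹) L with hΦ
  have hΦ1 : ∀ z ∈ (RJ_ed L)ᶜ, polyI (fun w => (w - z)⁻¹) L = 0 →
      Φ z = polyI (fun w => f w * (w - z)⁻¹) L := by
    intro z hz hWz
    by_cases hzU : z ∈ U
    · rw [hΦ]; simp only [hzU, if_true]; exact hagree z hz hWz
    · rw [hΦ]; simp only [hzU, if_false]
  have hΦd : Differentiable ℂ Φ := by
    intro z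
    by_cases hzU : z ∈ U
    · have hev : Φ =ᶠ[𝓝 z] fun z => polyI (dslope f z) L := by
        filter_upwards [hU.mem_nhds hzU] with x hx
        rw [hΦ]; simp only [hx, if_true]
      exact ((hh.differentiableAt (hU.mem_nhds hzU)).congr_of_eventuallyEq hev)
    · have hzP : z ∈ (RJ_ed L)ᶜ := fun h => hzU (hPU h)
      have hWz := h0 z hzU
      have hcont := (hW.differentiableAt (hPo.mem_nhds hzP)).continuousAt
      have hev1 : ∀ᶠ x in 𝓝 z, ‖polyI (fun w => (w - x)⁻¹) L‖ < 1 := by
        have h1 : ContinuousAt (fun x => ‖polyI (fun w => (w - x)⁻¹) L‖) z := hcont.norm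
        have h2 : ‖polyI (fun w => (w - z)⁻¹) L‖ < 1 := by rw [hWz, norm_zero]; norm_num
        exact h1.eventually (gt_mem_nhds h2)
      have hev : Φ =ᶠ[𝓝 z] fun z => polyI (fun w => f w * (w - z)⁻¹) L := by
        filter_upwards [hev1, hPo.mem_nhds hzP] with x hx hxP
        exact hΦ1 x hxP (RJ_int_zero a l x hxP hx)
      exact ((hh1.differentiableAt (hPo.mem_nhds hzP)).congr_of_eventuallyEq hev)
  obtain ⟨C, hC, hbd⟩ := RJ_bound L
  obtain ⟨R, hR⟩ := hPc.isBounded.exists_norm_le
  obtain ⟨M, hM⟩ := hPc.exists_bound_of_continuousOn hfc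
  have hM0 : 0 ≤ M := (norm_nonneg _).trans (hM a (RJ_head a _))
  have hlim : Tendsto Φ (cocompact ℂ) (𝓝 0) := by
    rw [Metric.tendsto_nhds]
    intro ε hε
    set T : ℝ := C + C * M / ε + 1 with hT
    have hCM : 0 ≤ C * M / ε := by positivity
    have hT0 : 0 < T := by rw [hT]; linarith
    filter_upwards [(tendsto_norm_cocompact_atTop (E := ℂ)).eventually_ge_atTop (R + T)] with z hz
    have hdist : ∀ w ∈ RJ_ed L, T ≤ ‖w - z‖ := by
      intro w hw
      have h1 := hR w hw
      have h2 : ‖z‖ ≤ ‖w‖ + ‖w - z‖ := by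
        calc ‖z‖ = ‖w - (w - z)‖ := by congr 1; ring
          _ ≤ ‖w‖ + ‖w - z‖ := norm_sub_le _ _
      linarith
    have hinv : ∀ w ∈ RJ_ed L, ‖(w - z)⁻¹‖ ≤ T⁻¹ := by
      intro w hw
      rw [norm_inv]
      exact inv_anti₀ hT0 (hdist w hw)
    have hzP : z ∈ (RJ_ed L)ᶜ := by
      intro h
      have := hdist z h
      rw [sub_self, norm_zero] at this
      linarith
    have hW1 : ‖polyI (fun w => (w - z)⁻¹) L‖ < 1 := by
      refine (hbd _ _ hinv).trans_lt ?_
      rw [← div_eq_mul_inv, div_lt_one hT0, hT]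
      linarith
    rw [hΦ1 z hzP (RJ_int_zero a l z hzP hW1), dist_zero_right]
    have h2 : ‖polyI (fun w => f w * (w - z)⁻¹) L‖ ≤ C * (M * T⁻¹) := by
      apply hbd
      intro w hw
      rw [norm_mul]
      exact mul_le_mul (hM w hw) (hinv w hw) (norm_nonneg _) hM0
    refine h2.trans_lt ?_
    rw [← mul_assoc, ← div_eq_mul_inv, div_lt_iff₀ hT0]
    have h3 : ε * T = ε * C + C * M + ε := by
      rw [hT]; field_simp
    rw [h3]
    nlinarith
  have hconst := hΦd.eq_const_of_tendsto_cocompact hlim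
  have hfin : Φ z = 0 := by rw [hconst]; rfl
  rw [hΦ] at hfin
  simpa only [hz, if_true] using hfin

theorem dixon {U : Set ℂ} (hU : IsOpen U) {f : ℂ → ℂ} (hf : DifferentiableOn ℂ f U)
    (a : ℂ) (l : List ℂ) (hl : PolyIn U (a :: (l ++ [a])))
    (h0 : ∀ z, z ∉ U → polyI (fun w => (w - z)⁻¹) (a :: (l ++ [a])) = 0) :
    polyI f (a :: (l ++ [a])) = 0 := by
  have hPU : RJ_ed (a :: (l ++ [a])) ⊆ U := (RJ_polyIn_iff U _).mp hl
  have haU : a ∈ U := hPU (RJ_head a _)
  have hf2 : DifferentiableOn ℂ (fun w => f w * (w - a)) U := by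
    apply hf.mul
    fun_prop
  have h1 := RJ_key hU hf2 a l hl h0 haU
  rw [← h1]
  apply RJ_congr
  intro w hw
  by_cases hwa : w = a
  · subst hwa
    rw [dslope_same]
    have h2 : HasDerivAt (fun x => f x * (x - w)) (deriv f w * (w - w) + f w * 1) w := by
      apply HasDerivAt.mul
      · exact (hf.differentiableAt (hU.mem_nhds haU)).hasDerivAt
      · exact (hasDerivAt_id w).sub_const w
    rw [h2.deriv]
    ring
  · rw [dslope_of_ne _ hwa, slope_def_field]
    have : w - a ≠ 0 := sub_ne_zero.mpr hwa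
    simp only [sub_self, mul_zero, sub_zero]
    field_simp

end DS
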