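import Pool.Agent.H36.DS.RF
import Pool.Agent.H36.DS.RG
import Pool.Agent.H36.DS.RJ

/-!
RX (Riemann map of the complement of a continuum).  Proof.  Put `U = extDom K`, so
`Uᶜ = {w | w ≠ 0, w⁻¹ ∈ K}` (recall `0 ∈ K`).
(1) `U` is open: near `w₀ = 0` because `K` is bounded, near `w₀ ≠ 0` because inversion is continuous and
`K` is closed.  `U` is connected: `(·)⁻¹ '' Kᶜ` is connected (`0 ∉ Kᶜ`), it is `U \ {0}`, and `0` is in its
closure (points of `Kᶜ` go to infinity).  `U ≠ univ`: `K` has a point `k ≠ 0` and `k⁻¹ ∉ U`.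
(2) `hK`: if `C ⊆ Uᶜ` is compact, `C = O ∩ Uᶜ`, `O` open, then `C' = (·)⁻¹ '' C ⊆ K \ {0}` is compact and
relatively open in `K` (`C' = {k ∈ K | k ≠ 0 ∧ k⁻¹ ∈ O}`), `0 ∉ C'`; `K` is connected, so `C' = ∅`.
(3) by `wnd_zero`, `dixon`, `prim_of_poly` every holomorphic function on `U` has a primitive; hence a nowhere
zero holomorphic `f` has a holomorphic logarithm (`g' = f'/f`, `f exp(-g)` is constant) and a square root.
(4) `riemann_map` with `z₀ = 0`.
-/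

namespace DS
open Metric Set Filter Topology

theorem RX_isOpen {K : Set ℂ} (hK : IsCompact K) : IsOpen (extDom K) := by
  rw [isOpen_iff_mem_nhds]
  rintro w hw
  by_cases hw0 : w = 0
  · subst hw0
    obtain ⟨R, hR⟩ := hK.isBounded.subset_closedBall (0:ℂ)
    have hR1 : 0 < max R 1 := lt_of_lt_of_le one_pos (le_max_right _ _)
    filter_upwards [ball_mem_nhds (0:ℂ) (inv_pos.mpr hR1)] with x hx
    by_cases hx0 : x = 0
    · exact Or.inl hx0
    · refine Or.inr fun hxK => ?_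
      have h1 := hR hxK
      rw [mem_closedBall_zero_iff, norm_inv] at h1
      rw [mem_ball_zero_iff] at hx
      have hxp : 0 < ‖x‖ := norm_pos_iff.mpr hx0
      have h2 : max R 1 < ‖x‖⁻¹ := by
        rw [lt_inv_comm₀ hR1 hxp]; exact hx
      have := le_max_left R 1
      linarith
  · have hw' : w⁻¹ ∉ K := hw.resolve_left hw0
    have h1 : (fun x : ℂ => x⁻¹) ⁻¹' Kᶜ ∈ 𝓝 w :=
      (continuousAt_inv₀ hw0).preimage_mem_nhds (hK.isClosed.isOpen_compl.mem_nhds hw')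
    filter_upwards [h1] with x hx
    exact Or.inr hx

theorem RX_isConnected {K : Set ℂ} (hK : IsCompact K) (h0 : (0:ℂ) ∈ K) (hcc : IsConnected Kᶜ) :
    IsConnected (extDom K) := by
  have hne : ∀ z ∈ Kᶜ, z ≠ 0 := fun z hz h => hz (h ▸ h0)
  have him : IsConnected ((fun x : ℂ => x⁻¹) '' Kᶜ) :=
    hcc.image _ (continuousOn_inv₀.mono fun z hz => hne z hz)
  refine him.subset_closure ?_ ?_
  · rintro _ ⟨z, hz, rfl⟩
    exact Or.inr (by simpa using hz)
  · intro w hw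
    by_cases hw0 : w = 0
    · subst hw0
      have h1 : (extDom K) ∈ 𝓝 (0:ℂ) := (RX_isOpen hK).mem_nhds (Or.inl rfl)
      rw [mem_closure_iff_frequently]
      have h2 : ∀ᶠ x in 𝓝[≠] (0:ℂ), x ∈ (fun x : ℂ => x⁻¹) '' Kᶜ := by
        filter_upwards [nhdsWithin_le_nhds h1, self_mem_nhdsWithin] with x hx hx0
        exact ⟨x⁻¹, hx.resolve_left hx0, inv_inv x⟩
      exact (h2.frequently).filter_mono nhdsWithin_le_nhds
    · exact subset_closure ⟨w⁻¹, hw.resolve_left hw0, inv_inv w⟩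

theorem RX_pieces {K : Set ℂ} (hc : IsConnected K) (h0 : (0:ℂ) ∈ K) :
    ∀ C ⊆ (extDom K)ᶜ, IsCompact C → (∃ O, IsOpen O ∧ C = O ∩ (extDom K)ᶜ) → C = ∅ := by
  rintro C hC hCc ⟨O, hO, hCO⟩
  by_contra hne
  have hne : C.Nonempty := nonempty_iff_ne_empty.mpr hne
  have hC0 : ∀ z ∈ C, z ≠ 0 := fun z hz h => hC hz (Or.inl h)
  set C' : Set ℂ := (fun x : ℂ => x⁻¹) '' C with hC'
  have hCK : ∀ z ∈ C, z⁻¹ ∈ K := by
    intro z hz
    by_contra h
    exact hC hz (Or.inr h)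
  have hC'c : IsCompact C' := hCc.image_of_continuousOn (continuousOn_inv₀.mono fun z hz => hC0 z hz)
  set V : Set ℂ := {x : ℂ | x ≠ 0} ∩ (fun x : ℂ => x⁻¹) ⁻¹' O with hV
  have hVo : IsOpen V := by
    refine ContinuousOn.isOpen_inter_preimage ?_ isOpen_ne hO
    exact continuousOn_inv₀.mono fun z hz => hz
  have h1 : K ⊆ V ∪ C'ᶜ := by
    intro k hk
    by_cases hkC : k ∈ C'
    · left
      obtain ⟨z, hz, rfl⟩ := hkC
      refine ⟨inv_ne_zero (hC0 z hz), ?_⟩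
      show (z⁻¹)⁻¹ ∈ O
      rw [inv_inv]
      rw [hCO] at hz
      exact hz.1
    · right; exact hkC
  obtain ⟨z, hz⟩ := hne
  have h2 : (K ∩ V).Nonempty := by
    refine ⟨z⁻¹, hCK z hz, inv_ne_zero (hC0 z hz), ?_⟩
    show (z⁻¹)⁻¹ ∈ O
    rw [inv_inv]
    rw [hCO] at hz
    exact hz.1
  have h3 : (K ∩ C'ᶜ).Nonempty := by
    refine ⟨0, h0, ?_⟩
    rintro ⟨y, hy, hy0⟩
    exact hC0 y hy (inv_eq_zero.mp hy0)
  obtain ⟨k, hkK, ⟨hk0, hkO⟩, hkC⟩ := hc.isPreconnected V C'ᶜ hVo hC'c.isClosed.isOpen_compl h1 h2 h3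
  apply hkC
  refine ⟨k⁻¹, ?_, inv_inv k⟩
  rw [hCO]
  refine ⟨hkO, ?_⟩
  rintro (h | h)
  · exact hk0 (inv_eq_zero.mp h)
  · exact h (by rwa [inv_inv])

theorem RX_sqrt {U : Set ℂ} (hU : IsOpen U) (hc : IsConnected U)
    (hK : ∀ C ⊆ Uᶜ, IsCompact C → (∃ O, IsOpen O ∧ C = O ∩ Uᶜ) → C = ∅) {f : ℂ → ℂ}
    (hf : DifferentiableOn ℂ f U) (hf0 : ∀ z ∈ U, f z ≠ 0) :
    ∃ s : ℂ → ℂ, DifferentiableOn ℂ s U ∧ ∀ z ∈ U, s z ^ 2 = f z := by
  have hprim : ∀ f : ℂ → ℂ, DifferentiableOn ℂ f U → ∃ F : ℂ → ℂ, ∀ z ∈ U, HasDerivAt F (f z) z :=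
    fun f hf => prim_of_poly hU hc hf.continuousOn fun a l hl =>
      dixon hU hf a l hl fun z hz => wnd_zero hU hK a l hl hz
  have hdf : DifferentiableOn ℂ (deriv f) U := hf.deriv hU
  obtain ⟨g, hg⟩ := hprim (fun z => deriv f z / f z) (hdf.div hf hf0)
  have hfd : ∀ z ∈ U, HasDerivAt f (deriv f z) z := fun z hz =>
    (hf.differentiableAt (hU.mem_nhds hz)).hasDerivAt
  have hh : ∀ z ∈ U, HasDerivAt (fun z => f z * Complex.exp (-g z)) 0 z := by
    intro z hz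
    have h1 := (hfd z hz).mul ((hg z hz).neg.cexp)
    have h2 : deriv f z * Complex.exp (-g z) +
        f z * (Complex.exp (-g z) * -(deriv f z / f z)) = 0 := by
      have := hf0 z hz
      field_simp
      ring
    exact h1.congr_deriv h2
  obtain ⟨c, hcc⟩ : ∃ c, ∀ z ∈ U, f z * Complex.exp (-g z) = c := by
    obtain ⟨c, hc'⟩ := hU.exists_is_const_of_deriv_eq_zero hc.isPreconnected
      (fun z hz => (hh z hz).differentiableAt.differentiableWithinAt)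
      (fun z hz => (hh z hz).deriv)
    exact ⟨c, hc'⟩
  obtain ⟨z₁, hz₁⟩ := hc.nonempty
  have hc0 : c ≠ 0 := by
    rw [← hcc z₁ hz₁]
    exact mul_ne_zero (hf0 z₁ hz₁) (Complex.exp_ne_zero _)
  refine ⟨fun z => Complex.exp ((g z + Complex.log c) / 2), ?_, ?_⟩
  · intro z hz
    have := ((hg z hz).add_const (Complex.log c)).div_const 2 |>.cexp
    exact this.differentiableAt.differentiableWithinAt
  · intro z hz
    show Complex.exp ((g z + Complex.log c) / 2) ^ 2 = f z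
    rw [← Complex.exp_nat_mul]
    have : ((2:ℕ):ℂ) * ((g z + Complex.log c) / 2) = g z + Complex.log c := by
      push_cast; ring
    rw [this, Complex.exp_add, Complex.exp_log hc0, ← hcc z hz, Complex.exp_neg]
    have := Complex.exp_ne_zero (g z)
    field_simp

theorem ext_map {K : Set ℂ} (hK : IsCompact K) (hc : IsConnected K) (h0 : (0:ℂ) ∈ K)
    (hn : K.Nontrivial) (hcc : IsConnected Kᶜ) : ∃ ψ v : ℂ → ℂ, ExtMap K ψ v := by
  have hU := RX_isOpen hK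
  have hUc := RX_isConnected hK h0 hcc
  have hne : extDom K ≠ univ := by
    obtain ⟨k, hk, hk0⟩ := hn.exists_ne (0:ℂ)
    intro h
    have h1 : k⁻¹ ∈ extDom K := by rw [h]; trivial
    rcases h1 with h1 | h1
    · exact hk0 (inv_eq_zero.mp h1)
    · exact h1 (by rwa [inv_inv])
  have hz : (0:ℂ) ∈ extDom K := Or.inl rfl
  obtain ⟨f, F, h1, h2, h3, h4, h5, h6, h7⟩ := riemann_map hU hUc hne
    (fun f hf hf0 => RX_sqrt hU hUc (RX_pieces hc h0) hf hf0) hz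
  refine ⟨F, f, ⟨h2, h1, h4, h3, h6, h5, ?_⟩⟩
  have := h5 0 hz
  rwa [h7] at this

end DS
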