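import Pool.Agent.H36.DS.PBase

/-!
PF (the abstract area argument).  Proof.  `A' = G '' A`, `Δ' = G '' Δ`, `M' = G '' M` are the sides of the image
(all open: `G '' B = W ∩ Gi ⁻¹' B` for `B ⊆ W`; connected; `A' ⊆ closure Δ'` and `A' ⊆ closure M'` by continuity).
Suppose `A ∩ A' = ∅`.  `A'` is connected and contained in `W \ A = Δ ∪ M`, so `A' ⊆ Δ` or `A' ⊆ M`; similarly
`A ⊆ Δ'` or `A ⊆ M'`.
Case 1: `A' ⊆ Δ`, `A ⊆ Δ'`.  `M` is connected, disjoint from `A'`, so `M ⊆ Δ'` or `M ⊆ M'`; as `A ⊆ closure M` and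
`A ⊆ Δ'` (open, `A` nonempty) `M ∩ Δ' ≠ ∅`, so `M ⊆ Δ'` and `μ M ≤ μ Δ' = μ Δ`, contradiction.
Case 2: `A' ⊆ M`, `A ⊆ M'`.  `Δ` is connected, disjoint from `A'`, meets `M'`, so `Δ ⊆ M'` and `Δ ∩ Δ' = ∅`, contradiction.
Case 3: `A' ⊆ Δ`, `A ⊆ M'`.  `M` is connected, disjoint from `A'`, meets `M'`, so `M ⊆ M'`; hence `Δ' ⊆ Δ` (it misses `A ⊆ M'`
and `M`), and `Δ ∩ M'` is nonempty open (`A ⊆ closure Δ`), disjoint from `Δ'`:
`μ Δ ≥ μ Δ' + μ (Δ ∩ M') > μ Δ' = μ Δ` (finite), contradiction.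
Case 4: `A' ⊆ M`, `A ⊆ Δ'`.  `Δ` is connected, disjoint from `A'`, meets `Δ'`, so `Δ ⊆ Δ'`; `Δ' ∩ M` is nonempty open,
`μ Δ' ≥ μ Δ + μ (Δ' ∩ M) > μ Δ`, contradiction.
-/

namespace DS
open Metric Set Filter Topology MeasureTheory

theorem PF_Y {A C U : Set ℂ} (hne : A.Nonempty) (hU : IsOpen U) (hAU : A ⊆ U) (hAC : A ⊆ closure C) :
    (C ∩ U).Nonempty := by
  obtain ⟨x, hx⟩ := hne
  obtain ⟨y, hy1, hy2⟩ := _root_.mem_closure_iff.1 (hAC hx) U hU (hAU hx)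
  exact ⟨y, hy2, hy1⟩

theorem PF_image {W : Set ℂ} {G Gi : ℂ → ℂ} (hGm : MapsTo G W W) (hGiG : ∀ w ∈ W, Gi (G w) = w)
    (hGGi : ∀ w ∈ W, G (Gi w) = w) {B : Set ℂ} (hB : B ⊆ W) : G '' B = W ∩ Gi ⁻¹' B := by
  ext x
  constructor
  · rintro ⟨z, hz, rfl⟩
    exact ⟨hGm (hB hz), by rw [mem_preimage, hGiG z (hB hz)]; exact hz⟩
  · rintro ⟨hx, hu⟩
    exact ⟨Gi x, hu, hGGi x hx⟩

theorem PF_sides {W A Δ M : Set ℂ} (hW : IsOpen W) (hS : Sides W A Δ M) (hAW : A ⊆ W) {G Gi : ℂ → ℂ}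
    (hG : ContinuousOn G W) (hGm : MapsTo G W W) (hGi : ContinuousOn Gi W) (hGiG : ∀ w ∈ W, Gi (G w) = w)
    (hGim : MapsTo Gi W W) (hGGi : ∀ w ∈ W, G (Gi w) = w) : Sides W (G '' A) (G '' Δ) (G '' M) := by
  have hMW : M ⊆ W := fun z hz => ((by rw [← hS.union]; exact Or.inr hz : z ∈ W \ A)).1
  have hΔW : Δ ⊆ W := fun z hz => ((by rw [← hS.union]; exact Or.inl hz : z ∈ W \ A)).1
  have hop : ∀ B : Set ℂ, B ⊆ W → IsOpen B → IsOpen (G '' B) := by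
    intro B hB hBo
    rw [PF_image hGm hGiG hGGi hB]
    exact hGi.isOpen_inter_preimage hW hBo
  have hcl : ∀ B : Set ℂ, B ⊆ W → A ⊆ closure B → G '' A ⊆ closure (G '' B) := by
    rintro B hB hAB _ ⟨x, hx, rfl⟩
    exact ((hG x (hAW hx)).mono hB).mem_closure_image (hAB hx)
  refine ⟨hop Δ hΔW hS.oΔ, hop M hMW hS.oM, hS.cΔ.image G (hG.mono hΔW), hS.cM.image G (hG.mono hMW), ?_, ?_,
    hcl Δ hΔW hS.clΔ, hcl M hMW hS.clM⟩
  · rw [Set.disjoint_left]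
    rintro _ ⟨x, hx, rfl⟩ ⟨y, hy, e⟩
    have : y = x := by rw [← hGiG y (hMW hy), e, hGiG x (hΔW hx)]
    rw [this] at hy
    exact Set.disjoint_left.1 hS.disj hx hy
  · rw [← Set.image_union, hS.union]
    ext x
    constructor
    · rintro ⟨z, ⟨hz1, hz2⟩, rfl⟩
      refine ⟨hGm hz1, ?_⟩
      rintro ⟨y, hy, e⟩
      have : y = z := by rw [← hGiG y (hAW hy), e, hGiG z hz1]
      rw [this] at hy
      exact hz2 hy
    · rintro ⟨hx1, hx2⟩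
      exact ⟨Gi x, ⟨hGim hx1, fun h => hx2 ⟨Gi x, h, hGGi x hx1⟩⟩, hGGi x hx1⟩

theorem area_abstract {W A Δ M : Set ℂ} (hW : IsOpen W) (hS : Sides W A Δ M) (hA : IsConnected A)
    (hAW : A ⊆ W) {G Gi : ℂ → ℂ} (hG : ContinuousOn G W) (hGm : MapsTo G W W)
    (hGi : ContinuousOn Gi W) (hGim : MapsTo Gi W W) (hGiG : ∀ w ∈ W, Gi (G w) = w)
    (hGGi : ∀ w ∈ W, G (Gi w) = w) {μ : Measure ℂ}
    (hinv : ∀ B ⊆ W, MeasurableSet B → μ (G '' B) = μ B)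
    (hpos : ∀ O ⊆ W, IsOpen O → O.Nonempty → 0 < μ O) (h1 : μ Δ < μ M) (h2 : μ Δ ≠ ⊤)
    (h3 : (Δ ∩ G '' Δ).Nonempty) : (A ∩ G '' A).Nonempty := by
  by_contra hno
  have hdisj : Disjoint A (G '' A) := by
    rw [Set.disjoint_iff_inter_eq_empty, ← Set.not_nonempty_iff_eq_empty]; exact hno
  have hS' := PF_sides hW hS hAW hG hGm hGi hGiG hGim hGGi
  have hMW : M ⊆ W := fun z hz => ((by rw [← hS.union]; exact Or.inr hz : z ∈ W \ A)).1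
  have hΔW : Δ ⊆ W := fun z hz => ((by rw [← hS.union]; exact Or.inl hz : z ∈ W \ A)).1
  have hA' : IsConnected (G '' A) := hA.image G (hG.mono hAW)
  have hΔ'W : G '' Δ ⊆ W := by rintro _ ⟨x, hx, rfl⟩; exact hGm (hΔW hx)
  have hμ' : μ (G '' Δ) = μ Δ := hinv Δ hΔW hS.oΔ.measurableSet
  have c1 : G '' A ⊆ Δ ∨ G '' A ⊆ M := by
    apply hA'.isPreconnected.subset_or_subset hS.oΔ hS.oM hS.disj
    rw [hS.union]
    rintro x hx
    refine ⟨?_, fun h => Set.disjoint_left.1 hdisj h hx⟩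
    obtain ⟨y, hy, rfl⟩ := hx
    exact hGm (hAW hy)
  have c2 : A ⊆ G '' Δ ∨ A ⊆ G '' M := by
    apply hA.isPreconnected.subset_or_subset hS'.oΔ hS'.oM hS'.disj
    rw [hS'.union]
    exact fun x hx => ⟨hAW hx, fun h => Set.disjoint_left.1 hdisj hx h⟩
  have hMcov : G '' A ⊆ Δ → M ⊆ G '' Δ ∪ G '' M := by
    intro h x hx
    rw [hS'.union]
    exact ⟨hMW hx, fun h' => Set.disjoint_left.1 hS.disj (h h') hx⟩
  have hΔcov : G '' A ⊆ M → Δ ⊆ G '' Δ ∪ G '' M := by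
    intro h x hx
    rw [hS'.union]
    exact ⟨hΔW hx, fun h' => Set.disjoint_left.1 hS.disj hx (h h')⟩
  rcases c1 with c1 | c1 <;> rcases c2 with c2 | c2
  · -- A' ⊆ Δ, A ⊆ Δ'
    have hm := PF_Y hA.nonempty hS'.oΔ c2 hS.clM
    have hsub : M ⊆ G '' Δ :=
      hS.cM.isPreconnected.subset_left_of_subset_union hS'.oΔ hS'.oM hS'.disj (hMcov c1) hm
    have := measure_mono (μ := μ) hsub
    rw [hμ'] at this
    exact absurd h1 (not_lt.2 this)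
  · -- A' ⊆ Δ, A ⊆ M'
    have hm := PF_Y hA.nonempty hS'.oM c2 hS.clM
    have hsub : M ⊆ G '' M :=
      hS.cM.isPreconnected.subset_right_of_subset_union hS'.oΔ hS'.oM hS'.disj (hMcov c1) hm
    have hsub2 : G '' Δ ⊆ Δ := by
      intro z hz
      have hzM' : z ∉ G '' M := fun h => Set.disjoint_left.1 hS'.disj hz h
      have : z ∈ Δ ∪ M := by
        rw [hS.union]; exact ⟨hΔ'W hz, fun h => hzM' (c2 h)⟩
      exact this.resolve_right (fun h => hzM' (hsub h))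
    have hne := PF_Y hA.nonempty hS'.oM c2 hS.clΔ
    have hop : IsOpen (Δ ∩ G '' M) := hS.oΔ.inter hS'.oM
    have hp := hpos (Δ ∩ G '' M) (fun x hx => hΔW hx.1) hop hne
    have hd : Disjoint (G '' Δ) (Δ ∩ G '' M) :=
      Set.disjoint_left.2 fun x hx hx' => Set.disjoint_left.1 hS'.disj hx hx'.2
    have hle : μ (G '' Δ) + μ (Δ ∩ G '' M) ≤ μ Δ := by
      rw [← measure_union hd hop.measurableSet]
      exact measure_mono (union_subset hsub2 inter_subset_left)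
    rw [hμ'] at hle
    have : μ Δ < μ Δ + μ (Δ ∩ G '' M) := ENNReal.lt_add_right h2 hp.ne'
    exact absurd this (not_lt.2 hle)
  · -- A' ⊆ M, A ⊆ Δ'
    have hm := PF_Y hA.nonempty hS'.oΔ c2 hS.clΔ
    have hsub : Δ ⊆ G '' Δ :=
      hS.cΔ.isPreconnected.subset_left_of_subset_union hS'.oΔ hS'.oM hS'.disj (hΔcov c1) hm
    have hne := PF_Y hA.nonempty hS'.oΔ c2 hS.clM
    have hop : IsOpen (M ∩ G '' Δ) := hS.oM.inter hS'.oΔ
    have hp := hpos (M ∩ G '' Δ) (fun x hx => hMW hx.1) hop hne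
    have hd : Disjoint Δ (M ∩ G '' Δ) :=
      Set.disjoint_left.2 fun x hx hx' => Set.disjoint_left.1 hS.disj hx hx'.1
    have hle : μ Δ + μ (M ∩ G '' Δ) ≤ μ (G '' Δ) := by
      rw [← measure_union hd hop.measurableSet]
      exact measure_mono (union_subset hsub inter_subset_right)
    rw [hμ'] at hle
    have : μ Δ < μ Δ + μ (M ∩ G '' Δ) := ENNReal.lt_add_right h2 hp.ne'
    exact absurd this (not_lt.2 hle)
  · -- A' ⊆ M, A ⊆ M'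
    have hm := PF_Y hA.nonempty hS'.oM c2 hS.clΔ
    have hsub : Δ ⊆ G '' M :=
      hS.cΔ.isPreconnected.subset_right_of_subset_union hS'.oΔ hS'.oM hS'.disj (hΔcov c1) hm
    obtain ⟨x, hx1, hx2⟩ := h3
    exact Set.disjoint_left.1 hS'.disj hx2 (hsub hx1)

end DS
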