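import Pool.Agent.H36.DS.Base

/-!
LA (length-area, small arcs around a boundary point).  Proof.  Put `Ω = ball 0 1 ∩ ball ζ r₀`,
`J s = {t | ζ + s e^{it} ∈ ball 0 1}` for `0 < s < r₀`, `ℓ s = ∫ t in J s, s * ‖deriv F (ζ + s e^{it})‖`
(`t` in a period of length `2π`).  By Cauchy-Schwarz `ℓ s ^ 2 ≤ 2π s ∫_{J s} s ‖F'‖² dt`, so
`∫_0^{r₀} ℓ s ^ 2 / s ds ≤ 2π ∫_Ω ‖deriv F‖² = 2π area (F '' Ω) < ∞`
(polar coordinates about `ζ`; area formula `lintegral_abs_det_fderiv_eq_addHaar_image` for the injective `F`,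
the real determinant of multiplication by `F'` is `‖F'‖²`; the image is bounded).  As `∫_0 ds/s = ∞`, for
every `ε > 0` there is `s < min ε r₀` with `ℓ s < ε`.  For two points `z, w` of the disc with
`dist z ζ = dist w ζ = s` the shorter circular arc about `ζ` between them stays in the disc
(`ball 0 1 ∩ sphere ζ s` is an arc: `‖ζ + s e^{it}‖ < 1` iff `2 Re (conj ζ e^{it}) < -s`, an interval of
`t`), and integrating `F'` along it gives `dist (F z) (F w) ≤ ℓ s < ε`.
You may use `lintegral` throughout.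
-/

namespace DS
open Metric Set Filter Topology MeasureTheory ENNReal

/-- the real determinant of a complex derivative -/
theorem LA_det (c : ℂ) :
    ((ContinuousLinearMap.toSpanSingleton ℂ c).restrictScalars ℝ : ℂ →L[ℝ] ℂ).det = ‖c‖ ^ 2 := by
  have h1 : (((ContinuousLinearMap.toSpanSingleton ℂ c).restrictScalars ℝ : ℂ →L[ℝ] ℂ) :
      ℂ →ₗ[ℝ] ℂ) = LinearMap.mulLeft ℝ c := by
    ext x
    simp [mul_comm]
  rw [ContinuousLinearMap.det, h1]
  have h2 := Algebra.norm_complex_apply c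
  rw [Algebra.norm_apply] at h2
  rw [Complex.sq_norm, ← h2]
  rfl

/-- area formula for injective holomorphic functions -/
theorem LA_area {Ω : Set ℂ} (hΩ : IsOpen Ω) {G : ℂ → ℂ} (hG : DifferentiableOn ℂ G Ω)
    (hi : InjOn G Ω) :
    ∫⁻ x in Ω, ENNReal.ofReal (‖deriv G x‖ ^ 2) = volume (G '' Ω) := by
  rw [← lintegral_abs_det_fderiv_eq_addHaar_image volume hΩ.measurableSet
    (f' := fun x => ((ContinuousLinearMap.toSpanSingleton ℂ (deriv G x)).restrictScalars ℝ))
    _ hi]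
  · apply lintegral_congr
    intro x
    rw [LA_det, abs_of_nonneg (sq_nonneg _)]
  · intro x hx
    have h1 : HasDerivAt G (deriv G x) x := (hG.differentiableAt (hΩ.mem_nhds hx)).hasDerivAt
    exact (h1.hasFDerivAt.restrictScalars ℝ).hasFDerivWithinAt

/-- polar coordinates (Tonelli) -/
theorem LA_polar {f : ℂ → ℝ≥0∞} (hf : Measurable f) :
    ∫⁻ s in Ioi (0:ℝ), ∫⁻ t in Ioo (-Real.pi) Real.pi,
      ENNReal.ofReal s * f (s * (Real.cos t + Real.sin t * Complex.I)) = ∫⁻ p, f p := by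
  rw [← Complex.lintegral_comp_polarCoord_symm f]
  rw [polarCoord_target, Measure.volume_eq_prod, ← Measure.prod_restrict]
  simp only [Complex.polarCoord_symm_apply, smul_eq_mul]
  rw [lintegral_prod]
  · apply Measurable.aemeasurable
    apply Measurable.mul
    · exact measurable_fst.ennreal_ofReal
    · apply hf.comp
      apply Measurable.mul
      · exact (Complex.measurable_ofReal).comp measurable_fst
      · apply Measurable.add
        · exact (Complex.measurable_ofReal).comp (Real.measurable_cos.comp measurable_snd)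
        · exact ((Complex.measurable_ofReal).comp
            (Real.measurable_sin.comp measurable_snd)).mul_const _

/-- pointwise inequality replacing Cauchy-Schwarz -/
theorem LA_amgm {ε : ℝ} (hε : 0 < ε) (h : ℝ → ℝ)
    (hL : ENNReal.ofReal ε ≤ ∫⁻ t in Ioo (-Real.pi) Real.pi, ENNReal.ofReal (h t)) :
    ENNReal.ofReal (ε ^ 2 / (4 * Real.pi)) ≤
      ∫⁻ t in Ioo (-Real.pi) Real.pi, ENNReal.ofReal (h t ^ 2) := by
  have hpi := Real.pi_pos
  by_contra hcon
  rw [not_le] at hcon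
  have h1 : ∀ t, ENNReal.ofReal (h t) ≤ ENNReal.ofReal (ε / (4 * Real.pi)) +
      ENNReal.ofReal (Real.pi / ε) * ENNReal.ofReal (h t ^ 2) := by
    intro t
    rw [← ENNReal.ofReal_mul (by positivity), ← ENNReal.ofReal_add (by positivity)
      (mul_nonneg (by positivity) (sq_nonneg _))]
    apply ENNReal.ofReal_le_ofReal
    have h2 : 0 ≤ (h t - ε / (2 * Real.pi)) ^ 2 := sq_nonneg _
    have h3 : ε / (4 * Real.pi) + Real.pi / ε * h t ^ 2 - h t =
        Real.pi / ε * (h t - ε / (2 * Real.pi)) ^ 2 := by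
      field_simp
      ring
    have h4 : 0 ≤ Real.pi / ε * (h t - ε / (2 * Real.pi)) ^ 2 := by positivity
    linarith
  have h5 : ∫⁻ t in Ioo (-Real.pi) Real.pi, ENNReal.ofReal (h t) ≤
      ENNReal.ofReal (ε / 2) + ENNReal.ofReal (Real.pi / ε) *
        ∫⁻ t in Ioo (-Real.pi) Real.pi, ENNReal.ofReal (h t ^ 2) := by
    calc _ ≤ ∫⁻ t in Ioo (-Real.pi) Real.pi, (ENNReal.ofReal (ε / (4 * Real.pi)) +
          ENNReal.ofReal (Real.pi / ε) * ENNReal.ofReal (h t ^ 2)) := lintegral_mono h1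
      _ = _ := by
          rw [lintegral_add_left measurable_const, lintegral_const_mul' _ _ ENNReal.ofReal_ne_top,
            setLIntegral_const, Real.volume_Ioo, ← ENNReal.ofReal_mul (by positivity)]
          congr 2
          field_simp
          ring
  have h6 : ENNReal.ofReal (Real.pi / ε) *
        ∫⁻ t in Ioo (-Real.pi) Real.pi, ENNReal.ofReal (h t ^ 2) < ENNReal.ofReal (ε / 2) := by
    calc _ < ENNReal.ofReal (Real.pi / ε) * ENNReal.ofReal (ε ^ 2 / (4 * Real.pi)) := by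
          apply ENNReal.mul_lt_mul_right (by positivity) ENNReal.ofReal_ne_top hcon
      _ ≤ ENNReal.ofReal (ε / 2) := by
          rw [← ENNReal.ofReal_mul (by positivity)]
          apply ENNReal.ofReal_le_ofReal
          have : Real.pi / ε * (ε ^ 2 / (4 * Real.pi)) = ε / 4 := by
            field_simp
          rw [this]
          linarith
  have h7 : ENNReal.ofReal (ε / 2) + ENNReal.ofReal (Real.pi / ε) *
        ∫⁻ t in Ioo (-Real.pi) Real.pi, ENNReal.ofReal (h t ^ 2) <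
        ENNReal.ofReal (ε / 2) + ENNReal.ofReal (ε / 2) :=
    ENNReal.add_lt_add_left ENNReal.ofReal_ne_top h6
  rw [← ENNReal.ofReal_add (by positivity) (by positivity), add_halves] at h7
  exact absurd (hL.trans h5) (not_le.2 h7)

/-- `∫ c/s ds = ∞` near zero -/
theorem LA_div {c m : ℝ} (hc : 0 < c) (hm : 0 < m) :
    ∫⁻ s in Ioo (0:ℝ) m, ENNReal.ofReal (c / s) = ∞ := by
  by_contra hcon
  have h1 : IntegrableOn (fun s : ℝ => c / s) (Ioo 0 m) := by
    refine ⟨(measurable_const.div measurable_id).aestronglyMeasurable, ?_⟩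
    rw [hasFiniteIntegral_iff_ofReal]
    · exact lt_top_iff_ne_top.2 hcon
    · rw [Filter.EventuallyLE, ae_restrict_iff' measurableSet_Ioo]
      filter_upwards with s hs
      exact div_nonneg hc.le hs.1.le
  have h2 : IntegrableOn (fun s : ℝ => s⁻¹) (Ioo 0 m) := by
    have := h1.const_mul c⁻¹
    refine this.congr ?_
    filter_upwards with s
    field_simp
  have h3 : IntervalIntegrable (fun s : ℝ => s⁻¹) volume 0 m := by
    rw [intervalIntegrable_iff_integrableOn_Ioo_of_le hm.le]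
    exact h2
  rw [intervalIntegrable_inv_iff] at h3
  rcases h3 with h3 | h3
  · exact hm.ne h3
  · exact h3 left_mem_uIcc

/-- the length-area principle for circular arcs around `0` -/
theorem LA_short {Ω : Set ℂ} (hΩ : IsOpen Ω) {G : ℂ → ℂ} (hG : DifferentiableOn ℂ G Ω)
    (hi : InjOn G Ω) (hb : Bornology.IsBounded (G '' Ω)) {ε m : ℝ} (hε : 0 < ε) (hm : 0 < m) :
    ∃ s, 0 < s ∧ s < m ∧ ∫⁻ t in Ioo (-Real.pi) Real.pi, ENNReal.ofReal
      (Ω.indicator (fun w => s * ‖deriv G w‖) (s * (Real.cos t + Real.sin t * Complex.I))) <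
      ENNReal.ofReal ε := by
  classical
  by_contra hcon
  push Not at hcon
  set k : ℂ → ℝ := Ω.indicator (fun w => ‖deriv G w‖) with hk
  have hkm : Measurable k := (measurable_deriv G).norm.indicator hΩ.measurableSet
  set f : ℂ → ℝ≥0∞ := fun w => ENNReal.ofReal (k w ^ 2) with hf
  have hfm : Measurable f := (hkm.pow_const 2).ennreal_ofReal
  have hfin : ∫⁻ p, f p < ∞ := by
    have h1 : ∫⁻ p, f p = ∫⁻ x in Ω, ENNReal.ofReal (‖deriv G x‖ ^ 2) := by
      rw [← lintegral_indicator hΩ.measurableSet]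
      apply lintegral_congr
      intro x
      simp only [hf, hk]
      by_cases hx : x ∈ Ω
      · rw [indicator_of_mem hx, indicator_of_mem hx]
      · rw [indicator_of_notMem hx, indicator_of_notMem hx]
        simp
    rw [h1, LA_area hΩ hG hi]
    exact hb.measure_lt_top
  rw [← LA_polar hfm] at hfin
  have h2 : ∀ s ∈ Ioo (0:ℝ) m, ENNReal.ofReal (ε ^ 2 / (4 * Real.pi) / s) ≤
      ∫⁻ t in Ioo (-Real.pi) Real.pi,
      ENNReal.ofReal s * f (s * (Real.cos t + Real.sin t * Complex.I)) := by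
    intro s hs
    have h3 := LA_amgm hε _ (hcon s hs.1 hs.2)
    have h4 : ∀ t : ℝ, ENNReal.ofReal ((Ω.indicator (fun w => s * ‖deriv G w‖)
        (s * (Real.cos t + Real.sin t * Complex.I))) ^ 2) =
        ENNReal.ofReal s * (ENNReal.ofReal s *
          f (s * (Real.cos t + Real.sin t * Complex.I))) := by
      intro t
      simp only [hf, hk]
      rw [← ENNReal.ofReal_mul hs.1.le, ← ENNReal.ofReal_mul hs.1.le]
      congr 1
      by_cases hx : (s * (Real.cos t + Real.sin t * Complex.I) : ℂ) ∈ Ω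
      · rw [indicator_of_mem hx, indicator_of_mem hx]
        ring
      · rw [indicator_of_notMem hx, indicator_of_notMem hx]
        ring
    simp only [h4] at h3
    rw [lintegral_const_mul' _ _ ENNReal.ofReal_ne_top] at h3
    rw [ENNReal.ofReal_div_of_pos hs.1]
    apply ENNReal.div_le_of_le_mul
    exact h3.trans_eq (mul_comm _ _)
  have h5 : ∫⁻ s in Ioo (0:ℝ) m, ENNReal.ofReal (ε ^ 2 / (4 * Real.pi) / s) ≤
      ∫⁻ s in Ioi (0:ℝ), ∫⁻ t in Ioo (-Real.pi) Real.pi,
      ENNReal.ofReal s * f (s * (Real.cos t + Real.sin t * Complex.I)) := by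
    calc _ ≤ ∫⁻ s in Ioo (0:ℝ) m, ∫⁻ t in Ioo (-Real.pi) Real.pi,
        ENNReal.ofReal s * f (s * (Real.cos t + Real.sin t * Complex.I)) :=
          setLIntegral_mono' measurableSet_Ioo h2
      _ ≤ _ := lintegral_mono_set Ioo_subset_Ioi_self
  have hpi := Real.pi_pos
  rw [LA_div (by positivity) hm] at h5
  exact absurd hfin (not_lt.2 h5)

/-- the point of polar coordinates `s`, `t` -/
noncomputable def LA_pt (s t : ℝ) : ℂ := s * (Real.cos t + Real.sin t * Complex.I)

theorem LA_pt_eq (s t : ℝ) : LA_pt s t = s * Complex.exp (t * Complex.I) := by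
  rw [LA_pt, Complex.exp_mul_I, Complex.ofReal_cos, Complex.ofReal_sin]

theorem LA_pt_deriv (s t : ℝ) :
    HasDerivAt (fun t : ℝ => LA_pt s t) (s * (Complex.exp (t * Complex.I) * Complex.I)) t := by
  have h1 : HasDerivAt (fun t : ℝ => (t : ℂ) * Complex.I) Complex.I t := by
    simpa using (Complex.ofRealCLM.hasDerivAt (x := t)).mul_const Complex.I
  have h2 := (h1.cexp).const_mul (s : ℂ)
  have h3 : (fun t : ℝ => LA_pt s t) = fun t : ℝ => (s : ℂ) * Complex.exp (t * Complex.I) := by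
    funext t
    exact LA_pt_eq s t
  rw [h3]
  exact h2

/-- length of the image of an arc -/
theorem LA_arc {Ω : Set ℂ} (hΩ : IsOpen Ω) {G : ℂ → ℂ} (hG : DifferentiableOn ℂ G Ω)
    {s a b : ℝ} (hs : 0 < s) (hab : a ≤ b) (ha : -Real.pi < a) (hb : b < Real.pi)
    (harc : ∀ t ∈ Icc a b, LA_pt s t ∈ Ω) :
    ENNReal.ofReal (dist (G (LA_pt s b)) (G (LA_pt s a))) ≤
      ∫⁻ t in Ioo (-Real.pi) Real.pi, ENNReal.ofReal
      (Ω.indicator (fun w => s * ‖deriv G w‖) (s * (Real.cos t + Real.sin t * Complex.I))) := by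
  classical
  set g' : ℝ → ℂ := fun t => deriv G (LA_pt s t) * (s * (Complex.exp (t * Complex.I) * Complex.I))
    with hg'
  have hd : ∀ t ∈ uIcc a b, HasDerivAt (fun t : ℝ => G (LA_pt s t)) (g' t) t := by
    intro t ht
    rw [uIcc_of_le hab] at ht
    have h1 : HasDerivAt G (deriv G (LA_pt s t)) (LA_pt s t) :=
      (hG.differentiableAt (hΩ.mem_nhds (harc t ht))).hasDerivAt
    exact h1.comp_of_eq t (LA_pt_deriv s t) rfl
  have hcont : ContinuousOn g' (uIcc a b) := by
    apply ContinuousOn.mul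
    · have h1 : ContinuousOn (deriv G) Ω := (hG.deriv hΩ).continuousOn
      have h2 : Continuous (fun t : ℝ => LA_pt s t) := by
        unfold LA_pt
        fun_prop
      rw [uIcc_of_le hab]
      exact h1.comp h2.continuousOn harc
    · fun_prop
  have hint := intervalIntegral.integral_eq_sub_of_hasDerivAt hd hcont.intervalIntegrable
  rw [dist_eq_norm, ← hint, intervalIntegral.integral_of_le hab]
  have h3 : ‖∫ t in Ioc a b, g' t‖ₑ ≤ ∫⁻ t in Ioc a b, ‖g' t‖ₑ :=
    enorm_integral_le_lintegral_enorm _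
  rw [ofReal_norm]
  refine h3.trans ?_
  have h4 : ∫⁻ t in Ioc a b, ‖g' t‖ₑ ≤ ∫⁻ t in Ioc a b, ENNReal.ofReal
      (Ω.indicator (fun w => s * ‖deriv G w‖) (s * (Real.cos t + Real.sin t * Complex.I))) := by
    apply setLIntegral_mono' measurableSet_Ioc
    intro t ht
    have hmem : (s * (Real.cos t + Real.sin t * Complex.I) : ℂ) ∈ Ω :=
      harc t ⟨ht.1.le, ht.2⟩
    rw [indicator_of_mem hmem, ← ofReal_norm]
    apply ENNReal.ofReal_le_ofReal
    simp only [hg']
    rw [norm_mul, norm_mul, norm_mul, Complex.norm_exp_ofReal_mul_I, Complex.norm_I,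
      Complex.norm_real, Real.norm_of_nonneg hs.le, mul_one, mul_one, mul_comm]
    exact le_of_eq rfl
  exact h4.trans (lintegral_mono_set (fun t ht => ⟨ha.trans ht.1, ht.2.trans_lt hb⟩))

/-- the lens -/
theorem LA_lens {s t : ℝ} (hs : 0 < s) : LA_pt s t ∈ ball (1:ℂ) 1 ↔ s / 2 < Real.cos t := by
  rw [mem_ball, dist_eq_norm, ← sq_lt_one_iff₀ (norm_nonneg _), Complex.sq_norm,
    Complex.normSq_apply]
  have h1 : (LA_pt s t - 1).re = s * Real.cos t - 1 := by
    simp [LA_pt, Complex.cos_ofReal_re]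
  have h2 : (LA_pt s t - 1).im = s * Real.sin t := by
    simp [LA_pt, Complex.cos_ofReal_im, Complex.sin_ofReal_re]
  rw [h1, h2]
  have h3 := Real.sin_sq_add_cos_sq t
  have h4 : (s * Real.cos t - 1) * (s * Real.cos t - 1) + s * Real.sin t * (s * Real.sin t) =
      1 + s * (s - 2 * Real.cos t) := by
    linear_combination s ^ 2 * h3
  rw [h4]
  constructor
  · intro h5
    by_contra h6
    push Not at h6
    have : 0 ≤ s * (s - 2 * Real.cos t) := mul_nonneg hs.le (by linarith)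
    linarith
  · intro h5
    have : s * (s - 2 * Real.cos t) < 0 := mul_neg_of_pos_of_neg hs (by linarith)
    linarith

theorem LA_cos {s a b t : ℝ} (ha : -Real.pi < a) (hb : b < Real.pi)
    (ht : t ∈ Icc a b) (h1 : s / 2 < Real.cos a) (h2 : s / 2 < Real.cos b) :
    s / 2 < Real.cos t := by
  rcases le_or_gt 0 t with h0 | h0
  · have := Real.cos_le_cos_of_nonneg_of_le_pi h0 hb.le ht.2
    linarith
  · have := Real.cos_le_cos_of_nonneg_of_le_pi (x := -t) (y := -a) (by linarith) (by linarith)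
      (by linarith [ht.1])
    rw [Real.cos_neg, Real.cos_neg] at this
    linarith

/-- normalised version: boundary point `0` of the disc with centre `1` -/
theorem LA_norm {G : ℂ → ℂ} {r₀ : ℝ} (hr : 0 < r₀)
    (hG : DifferentiableOn ℂ G (ball 1 1 ∩ ball 0 r₀)) (hi : InjOn G (ball 1 1 ∩ ball 0 r₀))
    (hb : Bornology.IsBounded (G '' (ball 1 1 ∩ ball 0 r₀))) {ε : ℝ} (hε : 0 < ε) :
    ∃ ρ, 0 < ρ ∧ ρ < ε ∧ ∀ z w : ℂ, z ∈ ball (1:ℂ) 1 → w ∈ ball (1:ℂ) 1 →
      ‖z‖ = ρ → ‖w‖ = ρ → dist (G z) (G w) < ε := by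
  have hΩ : IsOpen (ball (1:ℂ) 1 ∩ ball 0 r₀) := isOpen_ball.inter isOpen_ball
  obtain ⟨s, hs0, hsm, hs⟩ := LA_short hΩ hG hi hb hε (lt_min hε hr)
  refine ⟨s, hs0, hsm.trans_le (min_le_left _ _), ?_⟩
  have key : ∀ a b : ℝ, -Real.pi < a → b < Real.pi → a ≤ b → s / 2 < Real.cos a →
      s / 2 < Real.cos b → dist (G (LA_pt s b)) (G (LA_pt s a)) < ε := by
    intro a b ha hb' hab h1 h2
    have h3 := LA_arc hΩ hG hs0 hab ha hb' (fun t ht => by
      refine ⟨(LA_lens hs0).2 (LA_cos ha hb' ht h1 h2), ?_⟩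
      rw [mem_ball_zero_iff, LA_pt_eq, norm_mul, Complex.norm_exp_ofReal_mul_I, Complex.norm_real,
        Real.norm_of_nonneg hs0.le, mul_one]
      exact hsm.trans_le (min_le_right _ _))
    have h4 := h3.trans_lt hs
    exact (ENNReal.ofReal_lt_ofReal_iff hε).1 h4
  have hpol : ∀ z : ℂ, z ∈ ball (1:ℂ) 1 → ‖z‖ = s → ∃ a : ℝ, -Real.pi < a ∧ a < Real.pi ∧
      s / 2 < Real.cos a ∧ LA_pt s a = z := by
    intro z hz hzs
    have h1 : LA_pt s z.arg = z := by
      rw [LA_pt_eq, ← hzs]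
      exact Complex.norm_mul_exp_arg_mul_I z
    have h2 : s / 2 < Real.cos z.arg := by
      rw [← LA_lens hs0, h1]
      exact hz
    refine ⟨z.arg, Complex.neg_pi_lt_arg z, lt_of_le_of_ne (Complex.arg_le_pi z) ?_, h2, h1⟩
    intro h3
    rw [h3, Real.cos_pi] at h2
    linarith
  intro z w hz hw hzs hws
  obtain ⟨a, ha1, ha2, ha3, rfl⟩ := hpol z hz hzs
  obtain ⟨b, hb1, hb2, hb3, rfl⟩ := hpol w hw hws
  rcases le_total a b with h | h
  · rw [dist_comm]
    exact key a b ha1 hb2 h ha3 hb3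
  · exact key b a hb1 ha2 h hb3 ha3

theorem small_arc {F : ℂ → ℂ} {ζ : ℂ} {r₀ : ℝ} (hr : 0 < r₀) (hζ : ‖ζ‖ = 1)
    (hF : DifferentiableOn ℂ F (ball 0 1 ∩ ball ζ r₀)) (hi : InjOn F (ball 0 1 ∩ ball ζ r₀))
    (hb : Bornology.IsBounded (F '' (ball 0 1 ∩ ball ζ r₀))) :
    ∀ ε > 0, ∃ ρ, 0 < ρ ∧ ρ < ε ∧ ∀ z w : ℂ, z ∈ ball (0:ℂ) 1 → w ∈ ball (0:ℂ) 1 →
      dist z ζ = ρ → dist w ζ = ρ → dist (F z) (F w) < ε := by
  intro ε hε
  have hζ0 : ζ ≠ 0 := by
    intro h
    rw [h, norm_zero] at hζ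
    exact zero_ne_one hζ
  have hmaps : MapsTo (fun w : ℂ => ζ * (1 - w)) (ball 1 1 ∩ ball 0 r₀)
      (ball 0 1 ∩ ball ζ r₀) := by
    intro w hw
    constructor
    · rw [mem_ball_zero_iff, norm_mul, hζ, one_mul, norm_sub_rev, ← dist_eq_norm]
      exact hw.1
    · rw [mem_ball, dist_eq_norm]
      have : ζ * (1 - w) - ζ = -(ζ * w) := by ring
      rw [this, norm_neg, norm_mul, hζ, one_mul, ← mem_ball_zero_iff]
      exact hw.2
  obtain ⟨ρ, h0, h1, h2⟩ := LA_norm (G := fun w => F (ζ * (1 - w))) hr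
    (hF.comp (by fun_prop) hmaps)
    (by
      intro a ha b hb' hab
      have h3 := hi (hmaps ha) (hmaps hb') hab
      have h4 := mul_left_cancel₀ hζ0 h3
      linear_combination -h4)
    (hb.subset (by
      rintro _ ⟨w, hw, rfl⟩
      exact ⟨_, hmaps hw, rfl⟩)) hε
  refine ⟨ρ, h0, h1, fun z w hz hw hzρ hwρ => ?_⟩
  have hinv : ∀ z : ℂ, ζ * (1 - (1 - z / ζ)) = z := by
    intro z
    field_simp
    ring
  have hn : ∀ z : ℂ, ‖1 - z / ζ‖ = dist z ζ := by
    intro z
    have : 1 - z / ζ = (ζ - z) / ζ := by field_simp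
    rw [this, norm_div, hζ, div_one, dist_comm, dist_eq_norm]
  have hm : ∀ z : ℂ, z ∈ ball (0:ℂ) 1 → 1 - z / ζ ∈ ball (1:ℂ) 1 := by
    intro z hz
    rw [mem_ball, dist_eq_norm]
    have : 1 - z / ζ - 1 = -(z / ζ) := by ring
    rw [this, norm_neg, norm_div, hζ, div_one]
    exact mem_ball_zero_iff.1 hz
  have := h2 (1 - z / ζ) (1 - w / ζ) (hm z hz) (hm w hw) (by rw [hn, hzρ]) (by rw [hn, hwρ])
  simpa only [hinv] using this

end DS
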