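import Pool.Agent.H36.DS.Base

/-!
LC.  `norm_u_tendsto`: the inverse Riemann map `u w = v w⁻¹` on `Kᶜ` tends to the unit circle at `K`.
Proof: otherwise there are `w n ∈ Kᶜ`, `w n → w' ∈ K` with `u (w n)` in a compact subset of the disc; pass to
a subsequence `u (w n) → z ∈ ball 0 1`; then `(w n)⁻¹ = ψ (u (w n)) → ψ z ∈ extDom K`.  If `w' = 0` then
`‖(w n)⁻¹‖ → ∞`, contradiction; otherwise `ψ z = w'⁻¹`, which is not in `extDom K`.
`depth`: if the circle about `w₀` of radius `r` meets `K` and the image under `u` of its part outside `K` has length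
`≤ η` then this image lies within `η` of the unit circle.  Proof: let `t ∈ T`, `t₀ ∈ Ioo 0 (4π)` with
`circleMap w₀ r t₀ ∈ K`; say `t < t₀` (the other case is symmetric); let `t₁` be the first parameter after `t` with
`circleMap w₀ r t₁ ∈ K`; `[t, t₁) ⊆ T`, and for `s ∈ [t, t₁)`
`‖u (c s) - u (c t)‖ ≤ ∫_t^s r ‖u'‖ ≤ η`; let `s → t₁`, `‖u (c s)‖ → 1`.
(`0 ∈ K`, so `w ≠ 0` on `Kᶜ` and `u` is holomorphic there.)
-/

namespace DS
open Metric Set Filter Topology MeasureTheory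

theorem LC_mem {K : Set ℂ} {w : ℂ} (hw : w ∉ K) : w⁻¹ ∈ extDom K := by
  right
  rw [inv_inv]; exact hw

theorem norm_u_tendsto {K : Set ℂ} (hK : IsCompact K) (h0 : (0:ℂ) ∈ K) {ψ v : ℂ → ℂ}
    (hE : ExtMap K ψ v) {w' : ℂ} (hw : w' ∈ K) :
    Tendsto (fun w => ‖v w⁻¹‖) (𝓝[Kᶜ] w') (𝓝 1) := by
  have hlt : ∀ w ∈ Kᶜ, ‖v w⁻¹‖ < 1 := by
    intro w hw
    have := hE.mv (LC_mem hw)
    simpa using this
  rw [Metric.tendsto_nhds]
  intro ε hε
  -- the compact set
  have hC : IsCompact (closedBall (0:ℂ) (1 - ε)) := isCompact_closedBall _ _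
  have hCb : closedBall (0:ℂ) (1 - ε) ⊆ ball 0 1 := closedBall_subset_ball (by linarith)
  have hψC : IsCompact (ψ '' closedBall (0:ℂ) (1 - ε)) :=
    hC.image_of_continuousOn (hE.dψ.continuousOn.mono hCb)
  have key : ∀ᶠ w in 𝓝[Kᶜ] w', w⁻¹ ∉ ψ '' closedBall (0:ℂ) (1 - ε) := by
    by_cases hw0 : w' = 0
    · subst hw0
      have h1 : Tendsto (fun w : ℂ => w⁻¹) (𝓝[Kᶜ] 0) (Bornology.cobounded ℂ) := by
        have h2 : (𝓝[Kᶜ] (0:ℂ)) ≤ 𝓝[≠] 0 := by
          apply nhdsWithin_mono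
          intro w hw h
          simp only [mem_singleton_iff] at h
          subst h
          exact hw h0
        exact (Filter.tendsto_inv₀_nhdsNE_zero).mono_left h2
      exact h1.eventually (Bornology.isBounded_def.mp hψC.isBounded)
    · have h1 : Tendsto (fun w : ℂ => w⁻¹) (𝓝[Kᶜ] w') (𝓝 w'⁻¹) :=
        (continuousAt_inv₀ hw0).tendsto.mono_left nhdsWithin_le_nhds
      have h2 : w'⁻¹ ∉ ψ '' closedBall (0:ℂ) (1 - ε) := by
        rintro ⟨z, hz, hzw⟩
        have h3 := hE.mψ (hCb hz)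
        rw [hzw] at h3
        rcases h3 with h3 | h3
        · exact hw0 (inv_eq_zero.mp h3)
        · rw [inv_inv] at h3
          exact h3 hw
      exact h1.eventually (hψC.isClosed.isOpen_compl.mem_nhds h2)
  filter_upwards [key, self_mem_nhdsWithin] with w hw1 hw2
  rw [Real.dist_eq, abs_sub_comm, abs_of_pos (by linarith [hlt w hw2])]
  by_contra hcon
  push Not at hcon
  apply hw1
  refine ⟨v w⁻¹, ?_, hE.ψv _ (LC_mem hw2)⟩
  rw [mem_closedBall_zero_iff]
  linarith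

theorem LC_step {K : Set ℂ} (hK : IsCompact K) (h0 : (0:ℂ) ∈ K) {ψ v : ℂ → ℂ}
    (hE : ExtMap K ψ v) {w₀ : ℂ} {r η : ℝ} (hr : 0 < r) (hη : 0 < η)
    (hint : (∫⁻ t in {t : ℝ | t ∈ Ioo 0 (4 * Real.pi) ∧ circleMap w₀ r t ∈ Kᶜ},
        ENNReal.ofReal (r * ‖deriv (fun w => v w⁻¹) (circleMap w₀ r t)‖)) ≤ ENNReal.ofReal η)
    {a b : ℝ} (hab : a ≤ b) (ha : 0 < a) (hb : b < 4 * Real.pi)
    (hI : ∀ s ∈ Icc a b, circleMap w₀ r s ∉ K) :
    ‖v (circleMap w₀ r b)⁻¹ - v (circleMap w₀ r a)⁻¹‖ ≤ η := by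
  have hKo : IsOpen Kᶜ := hK.isClosed.isOpen_compl
  have hext : IsOpen (extDom K) := by
    rw [isOpen_iff_mem_nhds]
    intro w hw
    by_cases hw0 : w = 0
    · subst hw0
      -- near zero: w⁻¹ is large
      have h2 : ∀ᶠ w in 𝓝[≠] (0:ℂ), w⁻¹ ∈ Kᶜ :=
        (Filter.tendsto_inv₀_nhdsNE_zero).eventually (Bornology.isBounded_def.mp hK.isBounded)
      rw [eventually_nhdsWithin_iff] at h2
      filter_upwards [h2] with w hw2
      by_cases h : w = 0
      · left; exact h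
      · right; exact hw2 h
    · have h2 : w⁻¹ ∈ Kᶜ := by
        rcases hw with h | h
        · exact absurd h hw0
        · exact h
      have h3 := (continuousAt_inv₀ hw0).tendsto.eventually (hKo.mem_nhds h2)
      filter_upwards [h3] with x hx
      right; exact hx
  have hud : DifferentiableOn ℂ (fun w : ℂ => v w⁻¹) Kᶜ := by
    intro w hw
    have hw0 : w ≠ 0 := by rintro rfl; exact hw h0
    have h1 : DifferentiableAt ℂ v w⁻¹ := hE.dv.differentiableAt (hext.mem_nhds (LC_mem hw))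
    have h2 : DifferentiableAt ℂ (fun w : ℂ => w⁻¹) w := differentiableAt_inv hw0
    exact (DifferentiableAt.comp w h1 h2).differentiableWithinAt
  set u : ℂ → ℂ := fun w => v w⁻¹ with hu
  have hdu : ContinuousOn (deriv u) Kᶜ := (hud.deriv hKo).continuousOn
  -- derivative along the circle
  have hder : ∀ s ∈ uIcc a b, HasDerivAt (fun s : ℝ => u (circleMap w₀ r s))
      (deriv u (circleMap w₀ r s) * (circleMap 0 r s * Complex.I)) s := by
    intro s hs
    rw [uIcc_of_le hab] at hs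
    have h1 : HasDerivAt u (deriv u (circleMap w₀ r s)) (circleMap w₀ r s) :=
      (hud.differentiableAt (hKo.mem_nhds (hI s hs))).hasDerivAt
    have h2 := hasDerivAt_circleMap w₀ r s
    exact h1.comp_of_eq s h2 rfl
  have hcont : ContinuousOn (fun s : ℝ => deriv u (circleMap w₀ r s) * (circleMap 0 r s * Complex.I))
      (uIcc a b) := by
    rw [uIcc_of_le hab]
    apply ContinuousOn.mul
    · exact hdu.comp (continuous_circleMap w₀ r).continuousOn (fun s hs => hI s hs)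
    · exact ((continuous_circleMap 0 r).mul continuous_const).continuousOn
  have hint2 : IntervalIntegrable
      (fun s : ℝ => deriv u (circleMap w₀ r s) * (circleMap 0 r s * Complex.I)) volume a b :=
    hcont.intervalIntegrable
  have hftc := intervalIntegral.integral_eq_sub_of_hasDerivAt hder hint2
  have h3 : v (circleMap w₀ r b)⁻¹ - v (circleMap w₀ r a)⁻¹ =
      ∫ s in a..b, deriv u (circleMap w₀ r s) * (circleMap 0 r s * Complex.I) := by
    rw [hftc]
  rw [h3, intervalIntegral.integral_of_le hab]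
  refine (norm_integral_le_lintegral_norm _).trans ?_
  apply ENNReal.toReal_le_of_le_ofReal hη.le
  refine le_trans ?_ hint
  refine le_trans (lintegral_mono_set (s := Ioc a b)
    (t := {t : ℝ | t ∈ Ioo 0 (4 * Real.pi) ∧ circleMap w₀ r t ∈ Kᶜ}) ?_) ?_
  · intro s hs
    exact ⟨⟨ha.trans hs.1, lt_of_le_of_lt hs.2 hb⟩, hI s ⟨hs.1.le, hs.2⟩⟩
  · apply le_of_eq
    congr 1
    ext s
    congr 1
    rw [norm_mul, norm_mul, norm_circleMap_zero, Complex.norm_I, mul_one, abs_of_pos hr, mul_comm]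

theorem depth {K : Set ℂ} (hK : IsCompact K) (h0 : (0:ℂ) ∈ K) {ψ v : ℂ → ℂ}
    (hE : ExtMap K ψ v) {w₀ : ℂ} {r η : ℝ} (hr : 0 < r) (hη : 0 < η)
    (hint : (∫⁻ t in {t : ℝ | t ∈ Ioo 0 (4 * Real.pi) ∧ circleMap w₀ r t ∈ Kᶜ},
        ENNReal.ofReal (r * ‖deriv (fun w => v w⁻¹) (circleMap w₀ r t)‖)) ≤ ENNReal.ofReal η)
    (hmeet : ∃ t₀ ∈ Ioo (0:ℝ) (4 * Real.pi), circleMap w₀ r t₀ ∈ K) :
    ∀ t ∈ Ioo (0:ℝ) (4 * Real.pi), circleMap w₀ r t ∉ K → 1 - η ≤ ‖v (circleMap w₀ r t)⁻¹‖ := by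
  obtain ⟨t₀, ht₀, hc₀⟩ := hmeet
  intro t ht hct
  have hcl : IsClosed {s : ℝ | circleMap w₀ r s ∈ K} :=
    hK.isClosed.preimage (continuous_circleMap w₀ r)
  have hne : t ≠ t₀ := by rintro rfl; exact hct hc₀
  -- limit argument, common to both cases
  have hlim : ∀ (S : Set ℝ) (t₁ : ℝ), circleMap w₀ r t₁ ∈ K → (𝓝[S] t₁).NeBot →
      (∀ s ∈ S, circleMap w₀ r s ∉ K) →
      (∀ s ∈ S, ‖v (circleMap w₀ r s)⁻¹ - v (circleMap w₀ r t)⁻¹‖ ≤ η) →
      1 - η ≤ ‖v (circleMap w₀ r t)⁻¹‖ := by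
    intro S t₁ ht₁ hnb hS1 hS2
    have h1 : Tendsto (fun s => circleMap w₀ r s) (𝓝[S] t₁) (𝓝[Kᶜ] (circleMap w₀ r t₁)) := by
      apply tendsto_nhdsWithin_iff.mpr
      refine ⟨(continuous_circleMap w₀ r).continuousAt.tendsto.mono_left nhdsWithin_le_nhds, ?_⟩
      filter_upwards [self_mem_nhdsWithin] with s hs using hS1 s hs
    have h2 := (norm_u_tendsto hK h0 hE ht₁).comp h1
    have h3 : ∀ᶠ s in 𝓝[S] t₁, ((fun w => ‖v w⁻¹‖) ∘ fun s => circleMap w₀ r s) s ≤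
        ‖v (circleMap w₀ r t)⁻¹‖ + η := by
      filter_upwards [self_mem_nhdsWithin] with s hs
      have h4 := hS2 s hs
      have h5 := norm_sub_norm_le (v (circleMap w₀ r s)⁻¹) (v (circleMap w₀ r t)⁻¹)
      simp only [Function.comp]
      linarith
    have h4 := le_of_tendsto h2 h3
    linarith
  rcases lt_or_gt_of_ne hne with hlt | hgt
  · -- t < t₀
    let A : Set ℝ := {s : ℝ | circleMap w₀ r s ∈ K} ∩ Icc t t₀
    have hAc : IsClosed A := hcl.inter isClosed_Icc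
    have hAne : A.Nonempty := ⟨t₀, hc₀, hlt.le, le_rfl⟩
    have hAb : BddBelow A := ⟨t, fun s hs => hs.2.1⟩
    have hmem : sInf A ∈ A := hAc.csInf_mem hAne hAb
    have ht1 : t < sInf A := by
      rcases lt_or_eq_of_le hmem.2.1 with h | h
      · exact h
      · exfalso; apply hct; rw [h]; exact hmem.1
    have hS1 : ∀ s ∈ Ico t (sInf A), circleMap w₀ r s ∉ K := by
      intro s hs hcon
      have : s ∈ A := ⟨hcon, hs.1, hs.2.le.trans hmem.2.2⟩
      exact absurd (csInf_le hAb this) (not_le.mpr hs.2)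
    refine hlim (Ico t (sInf A)) (sInf A) hmem.1 ?_ hS1 ?_
    · rw [nhdsWithin_Ico_eq_nhdsLT ht1]
      infer_instance
    · intro s hs
      apply LC_step hK h0 hE hr hη hint hs.1 ht.1 (lt_of_lt_of_le hs.2 (hmem.2.2.trans ht₀.2.le))
      intro x hx
      exact hS1 x ⟨hx.1, lt_of_le_of_lt hx.2 hs.2⟩
  · -- t₀ < t
    let A : Set ℝ := {s : ℝ | circleMap w₀ r s ∈ K} ∩ Icc t₀ t
    have hAc : IsClosed A := hcl.inter isClosed_Icc
    have hAne : A.Nonempty := ⟨t₀, hc₀, le_rfl, hgt.le⟩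
    have hAb : BddAbove A := ⟨t, fun s hs => hs.2.2⟩
    have hmem : sSup A ∈ A := hAc.csSup_mem hAne hAb
    have ht1 : sSup A < t := by
      rcases lt_or_eq_of_le hmem.2.2 with h | h
      · exact h
      · exfalso; apply hct; rw [← h]; exact hmem.1
    have hS1 : ∀ s ∈ Ioc (sSup A) t, circleMap w₀ r s ∉ K := by
      intro s hs hcon
      have : s ∈ A := ⟨hcon, hmem.2.1.trans hs.1.le, hs.2⟩
      exact absurd (le_csSup hAb this) (not_le.mpr hs.1)
    refine hlim (Ioc (sSup A) t) (sSup A) hmem.1 ?_ hS1 ?_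
    · rw [nhdsWithin_Ioc_eq_nhdsGT ht1]
      infer_instance
    · intro s hs
      rw [norm_sub_rev]
      apply LC_step hK h0 hE hr hη hint hs.2 (lt_of_le_of_lt (ht₀.1.le.trans hmem.2.1) hs.1) ht.2
      intro x hx
      exact hS1 x ⟨lt_of_lt_of_le hs.1 hx.1, hx.2⟩

end DS
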