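import Pool.Agent.H36.DS.Base

/-!
LD (good rays).  Proof.  Suppose every `θ ∈ Ioo α β` is hit by some `t ∈ T`.  Let `m = (α + β) / 2`,
`T' = {t ∈ T | 0 < re (c t * exp (-m I))}` (open) and `f t = arg (c t * exp (-m I))`; on `T'` it is
differentiable with `|f'| ≤ ‖c'‖ / ‖c‖ ≤ 2 ‖c'‖`.  If `c t = s * exp (θ I)`, `s > 0`, `θ ∈ Ioo α β`, then
`|θ - m| < π/2`, so `t ∈ T'` and `f t = θ - m`: hence `Ioo (α - m) (β - m) ⊆ f '' T'`.  In one dimension
`volume (f '' T') ≤ ∫⁻ t in T', |f'|` (`MeasureTheory.addHaar_image_le_lintegral_abs_det_fderiv`), so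
`β - α ≤ 2 η`, a contradiction.
-/

namespace DS
open Metric Set Filter Topology MeasureTheory

theorem LD_key (w : ℂ) (d : ℂ) (hd : 1 / 2 ≤ ‖w‖) : |(d / w).im| ≤ 2 * ‖d‖ := by
  have hw : 0 < ‖w‖ := by linarith
  calc |(d / w).im| ≤ ‖d / w‖ := Complex.abs_im_le_norm _
    _ = ‖d‖ / ‖w‖ := norm_div _ _
    _ ≤ 2 * ‖d‖ := by
        rw [div_le_iff₀ hw]
        nlinarith [norm_nonneg d]

theorem good_ray {T : Set ℝ} (hT : IsOpen T) {c c' : ℝ → ℂ} (hc : ∀ t ∈ T, HasDerivAt c (c' t) t)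
    (hc' : ContinuousOn c' T)
    (hn : ∀ t ∈ T, 1 / 2 ≤ ‖c t‖) {η : ℝ} (hη : 0 < η)
    (hint : (∫⁻ t in T, ENNReal.ofReal ‖c' t‖) ≤ ENNReal.ofReal η)
    {α β : ℝ} (hαβ : 2 * η < β - α) (hβ : β - α ≤ Real.pi) :
    ∃ θ ∈ Ioo α β, ∀ t ∈ T, ∀ s : ℝ, 0 < s → c t ≠ s * Complex.exp (θ * Complex.I) := by
  by_contra hcon
  push Not at hcon
  set m : ℝ := (α + β) / 2 with hm
  set e : ℂ := Complex.exp ((-m : ℝ) * Complex.I) with he
  have hen : ‖e‖ = 1 := Complex.norm_exp_ofReal_mul_I _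
  have hcc : ContinuousOn (fun t => c t * e) T := fun t ht =>
    ((hc t ht).continuousAt.mul continuousAt_const).continuousWithinAt
  set T' : Set ℝ := T ∩ (fun t => c t * e) ⁻¹' {z | 0 < z.re} with hT'
  have hT'o : IsOpen T' := hcc.isOpen_inter_preimage hT (isOpen_lt continuous_const
    Complex.continuous_re)
  have hne : ∀ t ∈ T, c t * e ≠ 0 := by
    intro t ht h
    have := hn t ht
    have h2 : ‖c t * e‖ = 0 := by rw [h, norm_zero]
    rw [norm_mul, hen, mul_one] at h2
    linarith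
  set f : ℝ → ℝ := fun t => (Complex.log (c t * e)).im with hf
  set f' : ℝ → ℝ := fun t => ((c' t * e) / (c t * e)).im with hf'
  have hder : ∀ t ∈ T', HasDerivAt f (f' t) t := by
    intro t ht
    have h1 : HasDerivAt (fun t => c t * e) (c' t * e) t := (hc t ht.1).mul_const e
    have h2 : HasDerivAt (fun t => Complex.log (c t * e)) ((c' t * e) / (c t * e)) t :=
      h1.clog_real (Or.inl ht.2)
    exact (Complex.imCLM.hasFDerivAt.comp_hasDerivAt t h2)
  have hvol := addHaar_image_le_lintegral_abs_det_fderiv (μ := volume) (s := T') (f := f)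
    (f' := fun t => ContinuousLinearMap.toSpanSingleton ℝ (f' t)) hT'o.measurableSet
    (fun t ht => (hder t ht).hasFDerivAt.hasFDerivWithinAt)
  simp only [ContinuousLinearMap.det_toSpanSingleton] at hvol
  have hsub : Ioo (α - m) (β - m) ⊆ f '' T' := by
    intro θ hθ
    obtain ⟨t, ht, s, hs, hts⟩ := hcon (θ + m) ⟨by linarith [hθ.1], by linarith [hθ.2]⟩
    have h3 : c t * e = s * (Complex.cos θ + Complex.sin θ * Complex.I) := by
      rw [hts, he, mul_assoc, ← Complex.exp_add, ← Complex.exp_mul_I]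
      congr 2
      push_cast
      ring
    have hθ1 : -(Real.pi / 2) < θ := by linarith [hθ.1]
    have hθ2 : θ < Real.pi / 2 := by linarith [hθ.2]
    refine ⟨t, ⟨ht, ?_⟩, ?_⟩
    · show 0 < (c t * e).re
      rw [h3, Complex.re_ofReal_mul, ← Complex.ofReal_cos, ← Complex.ofReal_sin]
      simp only [Complex.add_re, Complex.ofReal_re, Complex.mul_re, Complex.I_re, Complex.ofReal_im,
        Complex.I_im, mul_zero, zero_mul, sub_zero, add_zero]
      exact mul_pos hs (Real.cos_pos_of_mem_Ioo ⟨hθ1, hθ2⟩)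
    · show (Complex.log (c t * e)).im = θ
      rw [Complex.log_im, h3]
      exact Complex.arg_mul_cos_add_sin_mul_I hs ⟨by linarith [Real.pi_pos], by
        linarith [Real.pi_pos]⟩
  have h4 : volume (Ioo (α - m) (β - m)) ≤ ENNReal.ofReal (2 * η) := by
    refine (measure_mono hsub).trans (hvol.trans ?_)
    have h5 : (∫⁻ t in T', ENNReal.ofReal |f' t|) ≤ ∫⁻ t in T', 2 * ENNReal.ofReal ‖c' t‖ := by
      refine setLIntegral_mono' hT'o.measurableSet fun t ht => ?_
      have h6 : |f' t| ≤ 2 * ‖c' t‖ := by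
        have h7 : f' t = (c' t / c t).im := by
          show ((c' t * e) / (c t * e)).im = _
          rw [mul_div_mul_right]
          intro h0
          rw [h0, norm_zero] at hen
          exact zero_ne_one hen
        rw [h7]
        exact LD_key _ _ (hn t ht.1)
      refine (ENNReal.ofReal_le_ofReal h6).trans ?_
      rw [ENNReal.ofReal_mul (by norm_num)]
      simp
    refine h5.trans ?_
    rw [lintegral_const_mul' _ _ (by simp), ENNReal.ofReal_mul (by norm_num)]
    refine mul_le_mul' (by simp) ?_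
    exact (lintegral_mono_set inter_subset_left).trans hint
  rw [Real.volume_Ioo, ENNReal.ofReal_le_ofReal_iff (by linarith)] at h4
  linarith

end DS
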