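import Pool.Agent.H36.DS.Base

/-!
RI (injective holomorphic functions have nonzero derivative).  Search Mathlib first.  Proof otherwise:
WLOG `z = 0`, `f 0 = 0`.  If `deriv f 0 = 0` then `f w = w ^ n * g w` near `0` with `n ≥ 2`, `g 0 ≠ 0`
(finite order of vanishing: `f` is not locally constant by injectivity).  Choose a holomorphic `n`-th root
`k` of `g` near `0` (`g` close to `g 0 ≠ 0`), so `f w = (w * k w) ^ n`; the function `p w = w * k w` has
`p 0 = 0`, `deriv p 0 = k 0 ≠ 0`, hence it is open at `0` and takes the two values `t` and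
`t * exp (2 π i / n)` for small `t ≠ 0` at two different points, where `f` takes the same value.
-/

namespace DS
open Metric Set Filter Topology

/-- Holomorphic `n`-th root near a point where the function does not vanish. -/
theorem RI_root {g : ℂ → ℂ} {z : ℂ} (hg : AnalyticAt ℂ g z) (hgz : g z ≠ 0) {n : ℕ} (hn : n ≠ 0) :
    ∃ k : ℂ → ℂ, AnalyticAt ℂ k z ∧ k z ≠ 0 ∧ ∀ᶠ w in 𝓝 z, k w ^ n = g w := by
  obtain ⟨c, hc⟩ : ∃ c : ℂ, c ^ n = g z := IsAlgClosed.exists_pow_nat_eq (g z) (Nat.pos_of_ne_zero hn)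
  have hc0 : c ≠ 0 := by
    rintro rfl
    rw [zero_pow hn] at hc
    exact hgz hc.symm
  have h1 : AnalyticAt ℂ (fun w => g w / g z) z := hg.div analyticAt_const hgz
  have h2 : (fun w => g w / g z) z ∈ Complex.slitPlane := by
    simp only [div_self hgz]
    exact Complex.one_mem_slitPlane
  have hl : AnalyticAt ℂ (fun w => Complex.log (g w / g z)) z := h1.clog h2
  refine ⟨fun w => c * Complex.exp (Complex.log (g w / g z) / n), ?_, ?_, ?_⟩
  · have h3 : AnalyticAt ℂ (fun w => Complex.log (g w / g z) / n) z :=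
      hl.div analyticAt_const (by exact_mod_cast hn)
    exact analyticAt_const.mul h3.cexp
  · exact mul_ne_zero hc0 (Complex.exp_ne_zero _)
  · have h4 : ∀ᶠ w in 𝓝 z, g w ≠ 0 := hg.continuousAt.eventually_ne hgz
    filter_upwards [h4] with w hw
    rw [mul_pow, hc, ← Complex.exp_nat_mul, mul_div_cancel₀ _ (by exact_mod_cast hn),
      Complex.exp_log (div_ne_zero hw hgz), mul_div_cancel₀ _ hgz]

theorem deriv_ne_zero_of_injOn {U : Set ℂ} (hU : IsOpen U) {f : ℂ → ℂ} (hf : DifferentiableOn ℂ f U)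
    (hi : InjOn f U) {z : ℂ} (hz : z ∈ U) : deriv f z ≠ 0 := by
  intro hd
  have hUz : U ∈ 𝓝 z := hU.mem_nhds hz
  have hfa : AnalyticAt ℂ f z := hf.analyticAt hUz
  have hFa : AnalyticAt ℂ (fun w => f w - f z) z := hfa.sub analyticAt_const
  have hne : ¬ ∀ᶠ w in 𝓝 z, (fun w => f w - f z) w = 0 := by
    intro h
    have h1 : ∀ᶠ w in 𝓝[≠] z, False := by
      have h2 : ∀ᶠ w in 𝓝[≠] z, (f w - f z = 0 ∧ w ∈ U) :=
        ((h.and hUz).filter_mono nhdsWithin_le_nhds)
      filter_upwards [h2, self_mem_nhdsWithin] with w hw hwz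
      exact hwz (hi hw.2 hz (sub_eq_zero.1 hw.1))
    exact (h1.exists).elim fun _ h => h
  obtain ⟨n, g, hga, hgz, hFg⟩ := (hFa.exists_eventuallyEq_pow_smul_nonzero_iff).2 hne
  have hn0 : n ≠ 0 := by
    rintro rfl
    have := hFg.self_of_nhds
    simp only [sub_self, pow_zero, one_smul] at this
    exact hgz this.symm
  have hn1 : n ≠ 1 := by
    rintro rfl
    have h1 : deriv (fun w => f w - f z) z = deriv (fun w => (w - z) ^ 1 • g w) z :=
      Filter.EventuallyEq.deriv_eq hFg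
    have h2 : deriv (fun w => f w - f z) z = 0 := by
      rw [deriv_sub_const, hd]
    have h3 : HasDerivAt (fun w => (w - z) ^ 1 • g w) (g z) z := by
      have h4 : HasDerivAt (fun w : ℂ => w - z) 1 z := (hasDerivAt_id z).sub_const z
      have h5 := h4.mul hga.differentiableAt.hasDerivAt
      have h6 : (1 : ℂ) * g z + (z - z) * deriv g z = g z := by ring
      rw [h6] at h5
      have h7 : (fun w : ℂ => (w - z) ^ 1 • g w) = ((fun w : ℂ => w - z) * g) := by
        funext w
        simp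
      rw [h7]
      exact h5
    rw [h2, h3.deriv] at h1
    exact hgz h1.symm
  obtain ⟨k, hka, hkz, hkn⟩ := RI_root hga hgz hn0
  set p : ℂ → ℂ := fun w => (w - z) * k w with hp
  have hpa : AnalyticAt ℂ p z := (analyticAt_id.sub analyticAt_const).mul hka
  have hpd : HasStrictDerivAt p (k z) z := by
    have h4 : HasStrictDerivAt (fun w : ℂ => w - z) 1 z := (hasStrictDerivAt_id z).sub_const z
    have h5 := h4.mul (hka.hasStrictDerivAt)
    have h6 : (1 : ℂ) * k z + (z - z) * deriv k z = k z := by ring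
    rw [h6] at h5
    exact h5
  have hmap : map p (𝓝 z) = 𝓝 (p z) := hpd.map_nhds_eq hkz
  have hpz : p z = 0 := by simp [hp]
  set V : Set ℂ := {w | (f w - f z = (p w) ^ n) ∧ w ∈ U} with hV
  have hVn : V ∈ 𝓝 z := by
    filter_upwards [hFg, hkn, hUz] with w h1 h2 h3
    refine ⟨?_, h3⟩
    rw [h1, hp]
    simp only [smul_eq_mul, mul_pow, h2]
  have himg : p '' V ∈ 𝓝 (0 : ℂ) := by
    rw [← hpz, ← hmap]
    exact image_mem_map hVn
  obtain ⟨r, hr, hball⟩ := Metric.mem_nhds_iff.1 himg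
  set ζ : ℂ := Complex.exp (2 * Real.pi * Complex.I / n) with hζ
  have hprim : IsPrimitiveRoot ζ n := Complex.isPrimitiveRoot_exp n hn0
  have hζn : ζ ^ n = 1 := hprim.pow_eq_one
  have hζ1 : ζ ≠ 1 := hprim.ne_one (by omega)
  have hζa : ‖ζ‖ = 1 := hprim.norm'_eq_one hn0
  have ht0 : ((r / 2 : ℝ) : ℂ) ≠ 0 := by
    exact_mod_cast (half_pos hr).ne'
  have hta : ‖((r / 2 : ℝ) : ℂ)‖ < r := by
    rw [Complex.norm_real, Real.norm_of_nonneg (half_pos hr).le]
    exact half_lt_self hr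
  obtain ⟨w1, hw1, hw1'⟩ := hball (show ((r / 2 : ℝ) : ℂ) ∈ ball (0 : ℂ) r by
    simpa [mem_ball_zero_iff] using hta)
  obtain ⟨w2, hw2, hw2'⟩ := hball (show ((r / 2 : ℝ) : ℂ) * ζ ∈ ball (0 : ℂ) r by
    rw [mem_ball_zero_iff, norm_mul, hζa, mul_one]
    exact hta)
  have he : f w1 = f w2 := by
    have h1 := hw1.1
    have h2 := hw2.1
    rw [hw1'] at h1
    rw [hw2', mul_pow, hζn, mul_one] at h2
    have : f w1 - f z = f w2 - f z := by rw [h1, h2]
    exact sub_left_injective this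
  have hw : w1 = w2 := hi hw1.2 hw2.2 he
  rw [hw, hw2'] at hw1'
  have : ((r / 2 : ℝ) : ℂ) * ζ = ((r / 2 : ℝ) : ℂ) * 1 := by rw [hw1', mul_one]
  exact hζ1 (mul_left_cancel₀ ht0 this)

end DS
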