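import Pool.Agent.H36.DS.LB
import Pool.Agent.H36.DS.LC
import Pool.Agent.H36.DS.LD
import Pool.Agent.H36.DS.RI

/-!
LE (no long curves with short image).  Proof.  Write `u w = v w⁻¹` (holomorphic and injective on `Kᶜ`, values in
the disc), `F z = (ψ z)⁻¹` for `z ∈ ball 0 1`, `z ≠ 0` (values in `Kᶜ`), `u (F z) = z`, `‖F z‖ → ∞` for `z → 0`.
By `norm_u_tendsto` applied along `F (z n) → w₀` (and `F (z' n) → w₀`) we get `‖a‖ = ‖b‖ = 1`.  Let `a = e^{iα}`,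
`b = e^{iβ}` with `α < β < α + 2π`.  Choose `η < 1/2` with `2 η <` the lengths of both intervals `(α, β)` and
`(β, α + 2π)` and `< π`; choose `r₁ > 0` such that `K` has a point outside `closedBall w₀ r₁`; by `short_circle`
(`Ω = Kᶜ`) there is `r < r₁` with image length `≤ η`; the circle `sphere w₀ r` meets `K` (connected, contains
`w₀` and a point outside), so `depth` applies: all points `u w`, `w ∈ Kᶜ`, `‖w - w₀‖ = r`, have norm
`≥ 1 - η ≥ 1/2`.  By `good_ray` (with `T = {t | t ∈ Ioo 0 (4π) ∧ circleMap w₀ r t ∈ Kᶜ}`, `c t = u (circleMap w₀ r t)`)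
there are `θ₁ ∈ (α, β)` and `θ₂ ∈ (β, α + 2π)` (subintervals of length `≤ π` if necessary) such that no point of
`E = u '' (sphere w₀ r ∩ Kᶜ)` lies on the rays of angles `θ₁, θ₂` (every point of the circle has a parameter in
`Ioo 0 (4π)`).
Let `z` be in the disc, `z ≠ 0`, with `‖z‖ < 1 - η` or on one of the two rays.  The function
`s ↦ ‖F (s z) - w₀‖` on `(0, 1]` is continuous, tends to `∞` for `s → 0` and is never `r` (otherwise `s z ∈ E`),
so `‖F z - w₀‖ > r`.  For large `n` all `z ∈ γ n` have `‖F z - w₀‖ < r`.  Hence `γ n` is contained in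
`{z | 1 - η ≤ ‖z‖ < 1}` and misses the two rays: it is contained in the union of the two disjoint open sectors
`{s e^{iθ} | s > 0, θ₁ < θ < θ₂}` and `{s e^{iθ} | s > 0, θ₂ < θ < θ₁ + 2π}`, the first contains `z' n` and the
second contains `z n` for large `n`; this contradicts the connectedness of `γ n`.
-/

namespace DS
open Metric Set Filter Topology MeasureTheory

private theorem LE_param (w₀ : ℂ) {r : ℝ} {w : ℂ} (hw : dist w w₀ = r) :
    ∃ t ∈ Ioo (0:ℝ) (4 * Real.pi), circleMap w₀ r t = w := by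
  refine ⟨Complex.arg (w - w₀) + 2 * Real.pi, ⟨?_, ?_⟩, ?_⟩
  · have := Complex.neg_pi_lt_arg (w - w₀)
    linarith [Real.pi_pos]
  · have := Complex.arg_le_pi (w - w₀)
    linarith [Real.pi_pos]
  · rw [periodic_circleMap w₀ r (Complex.arg (w - w₀))]
    unfold circleMap
    have h := Complex.norm_mul_exp_arg_mul_I (w - w₀)
    rw [← dist_eq_norm, hw] at h
    rw [h]
    ring

private theorem LE_ext {K : Set ℂ} (h0 : (0:ℂ) ∈ K) {w : ℂ} (hw : w ∉ K) :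
    w ≠ 0 ∧ w⁻¹ ∈ extDom K := by
  refine ⟨fun h => hw (h ▸ h0), Or.inr ?_⟩
  rwa [inv_inv]

private theorem LE_F {K : Set ℂ} {ψ v : ℂ → ℂ} (hE : ExtMap K ψ v) {z : ℂ}
    (hz : z ∈ ball (0:ℂ) 1) (hz0 : z ≠ 0) : ψ z ≠ 0 ∧ (ψ z)⁻¹ ∉ K := by
  have h1 : ψ z ≠ 0 := by
    intro h
    have h2 := hE.vψ z hz
    have h3 := hE.vψ 0 (by simp)
    rw [h] at h2
    rw [hE.ψ0] at h3
    exact hz0 (h2.symm.trans h3)
  refine ⟨h1, ?_⟩
  rcases hE.mψ hz with h | h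
  · exact absurd h h1
  · exact h

private theorem LE_diff {K : Set ℂ} (h0 : (0:ℂ) ∈ K) {ψ v : ℂ → ℂ} (hE : ExtMap K ψ v) :
    DifferentiableOn ℂ (fun w => v w⁻¹) Kᶜ := by
  refine hE.dv.comp ?_ fun w hw => (LE_ext h0 hw).2
  exact differentiableOn_inv.mono fun w hw => (LE_ext h0 hw).1

private theorem LE_inj {K : Set ℂ} (h0 : (0:ℂ) ∈ K) {ψ v : ℂ → ℂ} (hE : ExtMap K ψ v) :
    InjOn (fun w => v w⁻¹) Kᶜ := by
  intro w hw w' hw' h
  have h1 := hE.ψv _ (LE_ext h0 hw).2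
  have h2 := hE.ψv _ (LE_ext h0 hw').2
  have h3 : v w⁻¹ = v w'⁻¹ := h
  rw [h3, h2] at h1
  exact (inv_injective h1).symm

/-- limits of the points lie on the unit circle -/
private theorem LE_norm {K : Set ℂ} (hK : IsCompact K) (h0 : (0:ℂ) ∈ K) {ψ v : ℂ → ℂ}
    (hE : ExtMap K ψ v) {w₀ : ℂ} (hw₀ : w₀ ∈ K) {z : ℕ → ℂ} (hz : ∀ n, z n ∈ ball (0:ℂ) 1 \ {0})
    (hF : Tendsto (fun n => (ψ (z n))⁻¹) atTop (𝓝 w₀)) {a : ℂ} (ha : Tendsto z atTop (𝓝 a)) :
    ‖a‖ = 1 := by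
  have h1 : Tendsto (fun n => (ψ (z n))⁻¹) atTop (𝓝[Kᶜ] w₀) := by
    rw [tendsto_nhdsWithin_iff]
    exact ⟨hF, Eventually.of_forall fun n => (LE_F hE (hz n).1 (hz n).2).2⟩
  have h2 := (norm_u_tendsto hK h0 hE hw₀).comp h1
  have h3 : ((fun w => ‖v w⁻¹‖) ∘ fun n => (ψ (z n))⁻¹) = fun n => ‖z n‖ := by
    funext n
    simp only [Function.comp_apply, inv_inv]
    rw [hE.vψ _ (hz n).1]
  rw [h3] at h2
  exact tendsto_nhds_unique ha.norm h2

/-- the circle and the two good rays -/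
private theorem LE_circle {K : Set ℂ} (hK : IsCompact K) (hc : IsConnected K) (h0 : (0:ℂ) ∈ K)
    (hn : K.Nontrivial) {ψ v : ℂ → ℂ} (hE : ExtMap K ψ v) {w₀ : ℂ} (hw₀ : w₀ ∈ K) {α β : ℝ}
    (h1 : α < β) (h2 : β < α + 2 * Real.pi) :
    ∃ (r η θ₁ θ₂ : ℝ), 0 < r ∧ 0 < η ∧ η < 1 / 2 ∧ α < θ₁ ∧ θ₁ < β ∧ β < θ₂ ∧
      θ₂ < α + 2 * Real.pi ∧
      ∀ w, w ∉ K → dist w w₀ = r → 1 - η ≤ ‖v w⁻¹‖ ∧
        (∀ s : ℝ, 0 < s → v w⁻¹ ≠ s * Complex.exp (θ₁ * Complex.I)) ∧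
        (∀ s : ℝ, 0 < s → v w⁻¹ ≠ s * Complex.exp (θ₂ * Complex.I)) := by
  have hpi := Real.pi_pos
  obtain ⟨η, hη0, hη⟩ : ∃ η : ℝ, 0 < η ∧ η < 1 / 2 ∧ 2 * η < β - α ∧
      2 * η < α + 2 * Real.pi - β ∧ 2 * η < Real.pi := by
    have hp : 0 < min (min (1 / 2) ((β - α) / 2)) (min ((α + 2 * Real.pi - β) / 2)
        (Real.pi / 2)) := by
      refine lt_min (lt_min (by norm_num) (by linarith)) (lt_min (by linarith) (by linarith))
    refine ⟨min (min (1 / 2) ((β - α) / 2)) (min ((α + 2 * Real.pi - β) / 2)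
        (Real.pi / 2)) / 2, by linarith, ?_, ?_, ?_, ?_⟩
    · have := (min_le_left (min (1 / 2) ((β - α) / 2)) (min ((α + 2 * Real.pi - β) / 2)
        (Real.pi / 2))).trans (min_le_left _ _)
      linarith
    · have := (min_le_left (min (1 / 2) ((β - α) / 2)) (min ((α + 2 * Real.pi - β) / 2)
        (Real.pi / 2))).trans (min_le_right _ _)
      linarith
    · have := (min_le_right (min (1 / 2) ((β - α) / 2)) (min ((α + 2 * Real.pi - β) / 2)
        (Real.pi / 2))).trans (min_le_left _ _)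
      linarith
    · have := (min_le_right (min (1 / 2) ((β - α) / 2)) (min ((α + 2 * Real.pi - β) / 2)
        (Real.pi / 2))).trans (min_le_right _ _)
      linarith
  obtain ⟨hη1, hη2, hη3, hη4⟩ := hη
  obtain ⟨k, hk, hkw⟩ := hn.exists_ne w₀
  have hKo : IsOpen Kᶜ := hK.isClosed.isOpen_compl
  have hd := LE_diff h0 hE
  obtain ⟨r, hr0, hr1, hint⟩ := short_circle hKo hd (LE_inj h0 hE)
    (fun w hw => hE.mv (LE_ext h0 hw).2) w₀ hη0 (dist_pos.2 hkw)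
  -- the circle meets `K`
  obtain ⟨p, hp, hpr⟩ : ∃ p ∈ K, dist p w₀ = r := by
    have h3 := hc.isPreconnected.intermediate_value hw₀ hk
      (f := fun w => dist w w₀) (by fun_prop)
    have h4 : r ∈ Icc (dist w₀ w₀) (dist k w₀) := ⟨by rw [dist_self]; exact hr0.le, hr1.le⟩
    obtain ⟨p, hp, h5⟩ := h3 h4
    exact ⟨p, hp, h5⟩
  have hmeet : ∃ t₀ ∈ Ioo (0:ℝ) (4 * Real.pi), circleMap w₀ r t₀ ∈ K := by
    obtain ⟨t, ht, h3⟩ := LE_param w₀ hpr
    exact ⟨t, ht, h3 ▸ hp⟩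
  have hdepth := depth hK h0 hE hr0 hη0 hint hmeet
  -- the curve
  have hTo : IsOpen {t : ℝ | t ∈ Ioo 0 (4 * Real.pi) ∧ circleMap w₀ r t ∈ Kᶜ} :=
    isOpen_Ioo.inter (hKo.preimage (continuous_circleMap w₀ r))
  have hcd : ∀ t ∈ {t : ℝ | t ∈ Ioo 0 (4 * Real.pi) ∧ circleMap w₀ r t ∈ Kᶜ},
      HasDerivAt (fun t => (fun w => v w⁻¹) (circleMap w₀ r t))
        (deriv (fun w => v w⁻¹) (circleMap w₀ r t) * (circleMap 0 r t * Complex.I)) t := by
    intro t ht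
    have h3 : HasDerivAt (fun w => v w⁻¹) (deriv (fun w => v w⁻¹) (circleMap w₀ r t))
        (circleMap w₀ r t) := (hd.differentiableAt (hKo.mem_nhds ht.2)).hasDerivAt
    exact h3.scomp_of_eq t (hasDerivAt_circleMap w₀ r t) rfl |>.congr_deriv (by
      rw [smul_eq_mul, mul_comm])
  have hcc : ContinuousOn (fun t => deriv (fun w => v w⁻¹) (circleMap w₀ r t) *
      (circleMap 0 r t * Complex.I))
      {t : ℝ | t ∈ Ioo 0 (4 * Real.pi) ∧ circleMap w₀ r t ∈ Kᶜ} := by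
    refine ContinuousOn.mul ?_ (by fun_prop)
    have h3 : ContinuousOn (deriv (fun w => v w⁻¹)) Kᶜ := (hd.deriv hKo).continuousOn
    exact h3.comp (continuous_circleMap w₀ r).continuousOn fun t ht => ht.2
  have hnorm : ∀ t ∈ {t : ℝ | t ∈ Ioo 0 (4 * Real.pi) ∧ circleMap w₀ r t ∈ Kᶜ},
      1 / 2 ≤ ‖(fun w => v w⁻¹) (circleMap w₀ r t)‖ := by
    intro t ht
    have := hdepth t ht.1 ht.2
    beta_reduce
    linarith
  have hint' : (∫⁻ t in {t : ℝ | t ∈ Ioo 0 (4 * Real.pi) ∧ circleMap w₀ r t ∈ Kᶜ},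
      ENNReal.ofReal ‖deriv (fun w => v w⁻¹) (circleMap w₀ r t) *
        (circleMap 0 r t * Complex.I)‖) ≤ ENNReal.ofReal η := by
    refine le_trans (le_of_eq ?_) hint
    refine lintegral_congr fun t => ?_
    congr 1
    rw [norm_mul, norm_mul, Complex.norm_I, mul_one, norm_circleMap_zero, abs_of_pos hr0, mul_comm]
  -- the rays
  obtain ⟨θ₁, ⟨ha1, ha2⟩, hθ₁⟩ := good_ray hTo hcd hcc hnorm hη0 hint'
    (α := α) (β := min β (α + Real.pi))
    (by rcases min_cases β (α + Real.pi) with h | h <;> rw [h.1] <;> linarith)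
    (by have := min_le_right β (α + Real.pi); linarith)
  obtain ⟨θ₂, ⟨hb1, hb2⟩, hθ₂⟩ := good_ray hTo hcd hcc hnorm hη0 hint'
    (α := β) (β := min (α + 2 * Real.pi) (β + Real.pi))
    (by rcases min_cases (α + 2 * Real.pi) (β + Real.pi) with h | h <;> rw [h.1] <;> linarith)
    (by have := min_le_right (α + 2 * Real.pi) (β + Real.pi); linarith)
  refine ⟨r, η, θ₁, θ₂, hr0, hη0, hη1, ha1, lt_of_lt_of_le ha2 (min_le_left _ _), hb1,
    lt_of_lt_of_le hb2 (min_le_left _ _), ?_⟩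
  intro w hw hwr
  obtain ⟨t, ht, rfl⟩ := LE_param w₀ hwr
  exact ⟨hdepth t ht hw, fun s hs => hθ₁ t ⟨ht, hw⟩ s hs, fun s hs => hθ₂ t ⟨ht, hw⟩ s hs⟩

/-- points whose radial segment misses the image of the circle -/
private theorem LE_far {K : Set ℂ} {ψ v : ℂ → ℂ} (hE : ExtMap K ψ v) {w₀ : ℂ} {r : ℝ}
    (hr : 0 < r) {z : ℂ} (hz : z ∈ ball (0:ℂ) 1) (hz0 : z ≠ 0)
    (h : ∀ s : ℝ, 0 < s → s ≤ 1 → ∀ w, w ∉ K → dist w w₀ = r → v w⁻¹ ≠ s * z) :
    r < dist (ψ z)⁻¹ w₀ := by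
  have hmem : ∀ s : ℝ, 0 < s → s ≤ 1 → (s * z : ℂ) ∈ ball (0:ℂ) 1 ∧ (s * z : ℂ) ≠ 0 := by
    intro s hs hs1
    refine ⟨?_, mul_ne_zero (by exact_mod_cast hs.ne') hz0⟩
    rw [mem_ball_zero_iff] at hz ⊢
    rw [norm_mul, Complex.norm_real, Real.norm_eq_abs, abs_of_pos hs]
    have := mul_le_of_le_one_left (norm_nonneg z) hs1
    linarith
  have hne : ∀ s : ℝ, 0 < s → s ≤ 1 → dist (ψ (s * z))⁻¹ w₀ ≠ r := by
    intro s hs hs1 h1
    obtain ⟨m1, m2⟩ := hmem s hs hs1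
    obtain ⟨f1, f2⟩ := LE_F hE m1 m2
    refine h s hs hs1 _ f2 h1 ?_
    rw [inv_inv]
    exact hE.vψ _ m1
  -- a point near zero
  obtain ⟨s₀, hs0, hs1, hs2⟩ : ∃ s : ℝ, 0 < s ∧ s ≤ 1 ∧ r < dist (ψ (s * z))⁻¹ w₀ := by
    have hc : ContinuousAt ψ 0 :=
      (hE.dψ.differentiableAt (ball_mem_nhds 0 one_pos)).continuousAt
    have h2 : Tendsto (fun s : ℝ => ψ (s * z)) (𝓝[>] 0) (𝓝 (ψ 0)) := by
      refine hc.tendsto.comp ?_
      have h3 : Tendsto (fun s : ℝ => (s * z : ℂ)) (𝓝 0) (𝓝 ((0:ℝ) * z)) := by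
        have : Continuous (fun s : ℝ => (s * z : ℂ)) := by fun_prop
        exact this.tendsto 0
      rw [Complex.ofReal_zero, zero_mul] at h3
      exact h3.mono_left nhdsWithin_le_nhds
    rw [hE.ψ0] at h2
    have h4 : ∀ᶠ s : ℝ in 𝓝[>] 0, ‖ψ (s * z)‖ < 1 / (r + ‖w₀‖ + 1) := by
      have h5 := h2.norm
      rw [norm_zero] at h5
      exact h5.eventually_lt_const (by positivity)
    have h6 : ∀ᶠ s : ℝ in 𝓝[>] 0, s ≤ 1 :=
      nhdsWithin_le_nhds (Iic_mem_nhds one_pos)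
    obtain ⟨s, hs, hs1, hs2⟩ := (h4.and (h6.and self_mem_nhdsWithin)).exists
    refine ⟨s, hs2, hs1, ?_⟩
    have hψ : 0 < ‖ψ (s * z)‖ := norm_pos_iff.2 (LE_F hE (hmem s hs2 hs1).1 (hmem s hs2 hs1).2).1
    have h7 : r + ‖w₀‖ + 1 < ‖(ψ (s * z))⁻¹‖ := by
      rw [norm_inv, lt_inv_comm₀ (by positivity) hψ, ← one_div]
      exact hs
    have h8 : ‖(ψ (s * z))⁻¹‖ ≤ dist (ψ (s * z))⁻¹ w₀ + ‖w₀‖ := by
      rw [dist_eq_norm]
      exact norm_le_norm_sub_add _ _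
    linarith
  -- intermediate values
  by_contra hcon
  push Not at hcon
  have hlt : dist (ψ ((1:ℝ) * z))⁻¹ w₀ < r := by
    refine lt_of_le_of_ne ?_ (hne 1 one_pos le_rfl)
    rw [Complex.ofReal_one, one_mul]
    exact hcon
  have hcont : ContinuousOn (fun s : ℝ => dist (ψ (s * z))⁻¹ w₀) (Icc s₀ 1) := by
    refine (continuous_id.dist continuous_const).comp_continuousOn (ContinuousOn.inv₀ ?_ ?_)
    · refine hE.dψ.continuousOn.comp (by fun_prop) fun s hs => ?_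
      exact (hmem s (lt_of_lt_of_le hs0 hs.1) hs.2).1
    · intro s hs
      have := hmem s (lt_of_lt_of_le hs0 hs.1) hs.2
      exact (LE_F hE this.1 this.2).1
  have h9 := intermediate_value_Icc' hs1 hcont
  obtain ⟨s, hs, h10⟩ := h9 (show r ∈ Icc _ _ from ⟨hlt.le, hs2.le⟩)
  exact hne s (lt_of_lt_of_le hs0 hs.1) hs.2 h10

private theorem LE_arg {t : ℝ} (h1 : -Real.pi < t) (h2 : t ≤ Real.pi) :
    Complex.arg (Complex.exp (t * Complex.I)) = t := by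
  rw [Complex.exp_mul_I, Complex.arg_cos_add_sin_mul_I ⟨h1, h2⟩]

private theorem LE_rot {z : ℂ} {θ τ : ℝ}
    (h : Complex.arg (z * Complex.exp (-(θ * Complex.I))) = τ) :
    z = ‖z‖ * Complex.exp ((τ + θ : ℝ) * Complex.I) := by
  have h1 := Complex.norm_mul_exp_arg_mul_I (z * Complex.exp (-(θ * Complex.I)))
  have h2 : ‖Complex.exp (-(θ * Complex.I))‖ = 1 := by
    have : -((θ:ℂ) * Complex.I) = ((-θ : ℝ) : ℂ) * Complex.I := by push_cast; ring
    rw [this, Complex.norm_exp_ofReal_mul_I]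
  rw [h, norm_mul, h2, mul_one] at h1
  have h3 : z = z * Complex.exp (-(θ * Complex.I)) * Complex.exp (θ * Complex.I) := by
    rw [mul_assoc, ← Complex.exp_add]
    simp
  rw [h3, ← h1, mul_assoc, ← Complex.exp_add]
  congr 2
  · have h5 : (τ : ℂ) * Complex.I + θ * Complex.I = ((τ + θ : ℝ) : ℂ) * Complex.I := by
      push_cast; ring
    rw [norm_mul, Complex.norm_real, norm_norm, h5, Complex.norm_exp_ofReal_mul_I, mul_one]
  · push_cast
    ring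

private theorem LE_ca {θ : ℝ} {x : ℂ} (hx : x ≠ 0)
    (h : Complex.arg (x * Complex.exp (-(θ * Complex.I))) ≠ Real.pi) :
    ContinuousAt (fun x : ℂ => Complex.arg (x * Complex.exp (-(θ * Complex.I)))) x := by
  have hζ : Continuous (fun x : ℂ => x * Complex.exp (-(θ * Complex.I))) := by fun_prop
  refine ContinuousAt.comp (g := Complex.arg) (f := fun x : ℂ => x * Complex.exp (-(θ * Complex.I)))
    (x := x) (Complex.continuousAt_arg ?_) hζ.continuousAt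
  rw [Complex.mem_slitPlane_iff_arg]
  exact ⟨h, mul_ne_zero hx (Complex.exp_ne_zero _)⟩

private theorem LE_main {K : Set ℂ} (hK : IsCompact K) (hc : IsConnected K) (h0 : (0:ℂ) ∈ K)
    (hn : K.Nontrivial) {ψ v : ℂ → ℂ} (hE : ExtMap K ψ v) (γ : ℕ → Set ℂ)
    (hγ : ∀ n, IsPreconnected (γ n)) (hγD : ∀ n, γ n ⊆ ball 0 1 \ {0}) {w₀ : ℂ} (hw₀ : w₀ ∈ K)
    (hlim : ∀ ε > 0, ∀ᶠ n in atTop, ∀ z ∈ γ n, dist (ψ z)⁻¹ w₀ < ε) (z z' : ℕ → ℂ)
    (hz : ∀ n, z n ∈ γ n) (hz' : ∀ n, z' n ∈ γ n) {α β : ℝ}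
    (ha : Tendsto z atTop (𝓝 (Complex.exp (α * Complex.I))))
    (hb : Tendsto z' atTop (𝓝 (Complex.exp (β * Complex.I)))) (h1 : α < β)
    (h2 : β < α + 2 * Real.pi) : False := by
  obtain ⟨r, η, θ₁, θ₂, hr, hη, hη1, ha1, ha2, hb1, hb2, hw⟩ := LE_circle hK hc h0 hn hE hw₀ h1 h2
  have hpi := Real.pi_pos
  have hfar : ∀ x ∈ ball (0:ℂ) 1, x ≠ 0 → ∀ θ : ℝ, (θ = θ₁ ∨ θ = θ₂) →
      x = ‖x‖ * Complex.exp (θ * Complex.I) → r < dist (ψ x)⁻¹ w₀ := by
    intro x hx hx0 θ hθ hxe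
    refine LE_far hE hr hx hx0 fun s hs _ w hwK hwr => ?_
    have hs' : 0 < s * ‖x‖ := mul_pos hs (norm_pos_iff.2 hx0)
    have e : (s : ℂ) * x = ((s * ‖x‖ : ℝ) : ℂ) * Complex.exp (θ * Complex.I) := by
      conv_lhs => rw [hxe]
      push_cast
      ring
    rw [e]
    rcases hθ with rfl | rfl
    · exact (hw w hwK hwr).2.1 _ hs'
    · exact (hw w hwK hwr).2.2 _ hs'
  -- the function
  have hexp : ∀ t : ℝ, Complex.exp (t * Complex.I) *
      Complex.exp (-(((θ₁ + Real.pi : ℝ) : ℂ) * Complex.I)) =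
      Complex.exp ((t - θ₁ - Real.pi : ℝ) * Complex.I) := by
    intro t
    rw [← Complex.exp_add]
    congr 1
    push_cast
    ring
  have hargb : Complex.arg (Complex.exp (β * Complex.I) *
      Complex.exp (-(((θ₁ + Real.pi : ℝ) : ℂ) * Complex.I))) = β - θ₁ - Real.pi := by
    rw [hexp, LE_arg (by linarith) (by linarith)]
  have harga : Complex.arg (Complex.exp (α * Complex.I) *
      Complex.exp (-(((θ₁ + Real.pi : ℝ) : ℂ) * Complex.I))) = α + Real.pi - θ₁ := by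
    have e : Complex.exp (α * Complex.I) = Complex.exp (((α + 2 * Real.pi : ℝ) : ℂ) * Complex.I) := by
      have : (((α + 2 * Real.pi : ℝ) : ℂ) * Complex.I) = α * Complex.I + 2 * Real.pi * Complex.I := by
        push_cast; ring
      rw [this, Complex.exp_add, Complex.exp_two_pi_mul_I, mul_one]
    rw [e, hexp, LE_arg (by linarith) (by linarith)]
    ring
  have hcontA := LE_ca (θ := θ₁ + Real.pi) (Complex.exp_ne_zero (α * Complex.I))
    (by rw [harga]; linarith)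
  have hcontB := LE_ca (θ := θ₁ + Real.pi) (Complex.exp_ne_zero (β * Complex.I))
    (by rw [hargb]; linarith)
  have e1 := (hcontA.tendsto.comp ha).eventually_const_lt
    (show θ₂ - θ₁ - Real.pi < _ by rw [harga]; linarith)
  have e2 := (hcontB.tendsto.comp hb).eventually_lt_const
    (show _ < θ₂ - θ₁ - Real.pi by rw [hargb]; linarith)
  obtain ⟨n, hn1, hn2, hn3⟩ := (e1.and (e2.and (hlim r hr))).exists
  have hg : ∀ x ∈ γ n, ∀ θ : ℝ, (θ = θ₁ ∨ θ = θ₂) → x ≠ ‖x‖ * Complex.exp (θ * Complex.I) := by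
    intro x hx θ hθ hxe
    have h3 := hfar x (hγD n hx).1 (hγD n hx).2 θ hθ hxe
    have h4 := hn3 x hx
    linarith
  have hcont : ContinuousOn (fun x : ℂ => Complex.arg (x *
      Complex.exp (-(((θ₁ + Real.pi : ℝ) : ℂ) * Complex.I)))) (γ n) := by
    intro x hx
    refine ContinuousAt.continuousWithinAt (LE_ca (hγD n hx).2 ?_)
    intro h3
    have h4 := LE_rot h3
    refine hg x hx θ₁ (Or.inl rfl) ?_
    have e : Complex.exp (((Real.pi + (θ₁ + Real.pi) : ℝ) : ℂ) * Complex.I) =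
        Complex.exp (θ₁ * Complex.I) := by
      have : (((Real.pi + (θ₁ + Real.pi) : ℝ) : ℂ) * Complex.I) =
          θ₁ * Complex.I + 2 * Real.pi * Complex.I := by
        push_cast; ring
      rw [this, Complex.exp_add, Complex.exp_two_pi_mul_I, mul_one]
    rw [e] at h4
    exact h4
  obtain ⟨x, hx, hxe⟩ := (hγ n).intermediate_value (hz' n) (hz n) hcont
    (show θ₂ - θ₁ - Real.pi ∈ Icc _ _ from ⟨le_of_lt hn2, le_of_lt hn1⟩)
  have h4 := LE_rot hxe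
  have e : θ₂ - θ₁ - Real.pi + (θ₁ + Real.pi) = θ₂ := by ring
  rw [e] at h4
  exact hg x hx θ₂ (Or.inr rfl) h4

theorem no_long {K : Set ℂ} (hK : IsCompact K) (hc : IsConnected K) (h0 : (0:ℂ) ∈ K)
    (hn : K.Nontrivial) {ψ v : ℂ → ℂ} (hE : ExtMap K ψ v) (γ : ℕ → Set ℂ)
    (hγ : ∀ n, IsPreconnected (γ n)) (hγD : ∀ n, γ n ⊆ ball 0 1 \ {0}) {w₀ : ℂ} (hw₀ : w₀ ∈ K)
    (hlim : ∀ ε > 0, ∀ᶠ n in atTop, ∀ z ∈ γ n, dist (ψ z)⁻¹ w₀ < ε) (z z' : ℕ → ℂ)
    (hz : ∀ n, z n ∈ γ n) (hz' : ∀ n, z' n ∈ γ n) {a b : ℂ} (ha : Tendsto z atTop (𝓝 a))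
    (hb : Tendsto z' atTop (𝓝 b)) : a = b := by
  have hF : ∀ x : ℕ → ℂ, (∀ n, x n ∈ γ n) → Tendsto (fun n => (ψ (x n))⁻¹) atTop (𝓝 w₀) := by
    intro x hx
    rw [Metric.tendsto_nhds]
    intro ε hε
    filter_upwards [hlim ε hε] with n h
    exact h _ (hx n)
  have hna := LE_norm hK h0 hE hw₀ (fun n => hγD n (hz n)) (hF z hz) ha
  have hnb := LE_norm hK h0 hE hw₀ (fun n => hγD n (hz' n)) (hF z' hz') hb
  have ea : a = Complex.exp (Complex.arg a * Complex.I) := by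
    have := Complex.norm_mul_exp_arg_mul_I a
    rw [hna, Complex.ofReal_one, one_mul] at this
    exact this.symm
  have eb : b = Complex.exp (Complex.arg b * Complex.I) := by
    have := Complex.norm_mul_exp_arg_mul_I b
    rw [hnb, Complex.ofReal_one, one_mul] at this
    exact this.symm
  have a1 := Complex.neg_pi_lt_arg a
  have a2 := Complex.arg_le_pi a
  have b1 := Complex.neg_pi_lt_arg b
  have b2 := Complex.arg_le_pi b
  rcases lt_trichotomy (Complex.arg a) (Complex.arg b) with h | h | h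
  · exfalso
    rw [ea] at ha
    rw [eb] at hb
    exact LE_main hK hc h0 hn hE γ hγ hγD hw₀ hlim z z' hz hz' ha hb h (by linarith)
  · rw [ea, eb, h]
  · exfalso
    rw [ea] at ha
    rw [eb] at hb
    exact LE_main hK hc h0 hn hE γ hγ hγD hw₀ hlim z' z hz' hz hb ha h (by linarith)

end DS
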