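import Pool.Agent.H36.DS.XBase
import Pool.Agent.H36.DS.LA
import Pool.Agent.H36.DS.LE

/-!
XB (the Riemann map of the complement of a continuum of the sphere satisfies the two metric properties).
Write `φ z = O` for `z = 0`, `φ z = q (k₀ + (ψ z)⁻¹)` otherwise, `u x = 0` for `x = O`, `u x = v ((p x - k₀)⁻¹)` otherwise, and
`K' = q '' ((k₀ + ·) '' K)`; note `O ∉ K'`.
Continuity: away from `0` and `O` clear (`ψ z ≠ 0` for `z ≠ 0`, `k₀ + (ψ z)⁻¹ ∉ k₀ + K`); at `0`: `(ψ z)⁻¹ → ∞` and `q_lim`;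
at `O`: `(p x - k₀)⁻¹ → 0` by `p_lim`, and `v 0 = v (ψ 0) = 0`.
`L1`: `F z = (ψ z)⁻¹` on `ball 0 1 ∩ ball ζ (1/2)` is holomorphic, injective and bounded (`ψ` is injective and open with
`ψ 0 = 0`, so `‖ψ z‖ ≥ c > 0` for `1/2 ≤ ‖z‖ < 1`); `small_arc` gives the arcs, and `q` is uniformly continuous on bounded sets.
`L0`: otherwise there are `ε > 0` and connected `γ n` in the disc with `φ`-image of diameter `< 1/(n+1)`, and points
`z n, z' n ∈ γ n` with `dist ≥ ε`.  Pass to a subsequence: `φ (z n) → x₀`, `z n → a`, `z' n → b`, `dist a b ≥ ε`.  If `x₀ ∉ K'`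
then `z n = u (φ (z n)) → u x₀` and the same for `z' n` (as `φ (z' n) → x₀`), contradiction.  If `x₀ = q (k₀ + w₀)`,
`w₀ ∈ K`: all points of `φ '' γ n` are close to `x₀ ≠ O`, so `γ n` does not contain `0` for large `n` and
`(ψ z)⁻¹ = p (φ z) - k₀ → w₀` uniformly for `z ∈ γ n`; `no_long` gives `a = b`, contradiction.
-/

namespace DS
open Metric Set Filter Topology Function

private theorem XB_isOpen {K : Set ℂ} (hK : IsCompact K) : IsOpen (extDom K) := by
  rw [isOpen_iff_mem_nhds]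
  rintro w hw
  by_cases hw0 : w = 0
  · subst hw0
    obtain ⟨R, hR⟩ := hK.isBounded.subset_closedBall (0:ℂ)
    have hR1 : 0 < max R 1 := lt_of_lt_of_le one_pos (le_max_right _ _)
    filter_upwards [ball_mem_nhds (0:ℂ) (inv_pos.mpr hR1)] with x hx
    by_cases hx0 : x = 0
    · exact Or.inl hx0
    · refine Or.inr fun hxK => ?_
      have h1 := hR hxK
      rw [mem_closedBall_zero_iff, norm_inv] at h1
      rw [mem_ball_zero_iff] at hx
      have hxp : 0 < ‖x‖ := norm_pos_iff.mpr hx0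
      have h2 : max R 1 < ‖x‖⁻¹ := by
        rw [lt_inv_comm₀ hR1 hxp]; exact hx
      have := le_max_left R 1
      linarith
  · have hw' : w⁻¹ ∉ K := hw.resolve_left hw0
    have h1 : (fun x : ℂ => x⁻¹) ⁻¹' Kᶜ ∈ 𝓝 w :=
      (continuousAt_inv₀ hw0).preimage_mem_nhds (hK.isClosed.isOpen_compl.mem_nhds hw')
    filter_upwards [h1] with x hx
    exact Or.inr hx

private theorem XB_F {K : Set ℂ} {ψ v : ℂ → ℂ} (hE : ExtMap K ψ v) {z : ℂ}
    (hz : z ∈ ball (0:ℂ) 1) (hz0 : z ≠ 0) : ψ z ≠ 0 ∧ (ψ z)⁻¹ ∉ K := by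
  have h1 : ψ z ≠ 0 := by
    intro h
    have h2 := hE.vψ z hz
    have h3 := hE.vψ 0 (by simp)
    rw [h] at h2
    rw [hE.ψ0] at h3
    exact hz0 (h2.symm.trans h3)
  refine ⟨h1, ?_⟩
  rcases hE.mψ hz with h | h
  · exact absurd h h1
  · exact h

private theorem XB_aux {O : S2} {p : S2 → ℂ} {q : ℂ → S2} (hS : SC O p q) {K : Set ℂ}
    (hK : IsCompact K) (hc : IsConnected K) (h0 : (0:ℂ) ∈ K) (hn : K.Nontrivial) {ψ v : ℂ → ℂ}
    (hE : ExtMap K ψ v) (k₀ : ℂ) {φ : ℂ → S2} {u : S2 → ℂ} (hφ0 : φ 0 = O)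
    (hφ : ∀ z, z ≠ 0 → φ z = q (k₀ + (ψ z)⁻¹)) (hu0 : u O = 0)
    (hu : ∀ x, x ≠ O → u x = v ((p x - k₀)⁻¹)) :
    DiscMap (q '' ((fun z => k₀ + z) '' K)) φ u := by
  have hqc : Continuous q := hS.q_smooth.continuous
  have hpc : ∀ x, x ≠ O → ContinuousAt p x := fun x hx =>
    hS.p_smooth.continuousOn.continuousAt (isOpen_compl_singleton.mem_nhds hx)
  have hinj : Injective q := fun a b hab => by
    have := congrArg p hab
    rwa [hS.pq, hS.pq] at this
  have h0b : (0:ℂ) ∈ ball (0:ℂ) 1 := mem_ball_self one_pos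
  have hv0 : v 0 = 0 := by
    have := hE.vψ 0 h0b
    rwa [hE.ψ0] at this
  have hopen := XB_isOpen hK
  have h0e : (0:ℂ) ∈ extDom K := Or.inl rfl
  have hvc : ∀ w ∈ extDom K, ContinuousAt v w := fun w hw =>
    (hE.dv.differentiableAt (hopen.mem_nhds hw)).continuousAt
  have hψc : ∀ z ∈ ball (0:ℂ) 1, ContinuousAt ψ z := fun z hz =>
    (hE.dψ.differentiableAt (isOpen_ball.mem_nhds hz)).continuousAt
  -- complement of `K'`
  have hK'1 : ∀ x, x ≠ O → x ∉ q '' ((fun z => k₀ + z) '' K) → p x - k₀ ∉ K := by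
    intro x hx hxK hpx
    apply hxK
    refine ⟨p x, ⟨p x - k₀, hpx, ?_⟩, hS.qp x hx⟩
    show k₀ + (p x - k₀) = p x
    ring
  have hK'O : O ∉ q '' ((fun z => k₀ + z) '' K) := by
    rintro ⟨w, -, hw⟩
    exact hS.q_ne w hw
  have hφmaps : MapsTo φ (ball 0 1) (q '' ((fun z => k₀ + z) '' K))ᶜ := by
    intro z hz
    by_cases hz0 : z = 0
    · rw [hz0, hφ0]; exact hK'O
    · rw [hφ z hz0]
      rintro ⟨w, ⟨k, hk, rfl⟩, hw⟩
      have h1 := hinj hw
      have h2 : k = (ψ z)⁻¹ := by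
        have h3 : k₀ + k = k₀ + (ψ z)⁻¹ := h1
        exact add_left_cancel h3
      exact (XB_F hE hz hz0).2 (h2 ▸ hk)
  have hφne : ∀ z, z ≠ 0 → φ z ≠ O := by
    intro z hz
    rw [hφ z hz]
    exact hS.q_ne _
  have hpφ : ∀ z, z ≠ 0 → p (φ z) = k₀ + (ψ z)⁻¹ := by
    intro z hz
    rw [hφ z hz, hS.pq]
  have hφcont : ContinuousOn φ (ball 0 1) := by
    intro z hz
    apply ContinuousAt.continuousWithinAt
    by_cases hz0 : z = 0
    · subst hz0
      rw [continuousAt_iff_punctured_nhds, hφ0]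
      have hev : ∀ᶠ z : ℂ in 𝓝[≠] 0, q (k₀ + (ψ z)⁻¹) = φ z := by
        filter_upwards [self_mem_nhdsWithin] with z hz
        exact (hφ z hz).symm
      refine Tendsto.congr' hev ?_
      have h1 : Tendsto ψ (𝓝[≠] 0) (𝓝[≠] 0) := by
        rw [tendsto_nhdsWithin_iff]
        constructor
        · have h2 := (hψc 0 h0b).tendsto
          rw [hE.ψ0] at h2
          exact h2.mono_left nhdsWithin_le_nhds
        · have hb : ball (0:ℂ) 1 ∈ 𝓝[≠] (0:ℂ) := mem_nhdsWithin_of_mem_nhds (isOpen_ball.mem_nhds h0b)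
          filter_upwards [hb, self_mem_nhdsWithin] with z hz hz0
          exact (XB_F hE hz hz0).1
      have h2 : Tendsto (fun z => (ψ z)⁻¹) (𝓝[≠] 0) (Bornology.cobounded ℂ) :=
        tendsto_inv₀_nhdsNE_zero.comp h1
      have h3 : Tendsto (fun z => k₀ + (ψ z)⁻¹) (𝓝[≠] 0) (Bornology.cobounded ℂ) :=
        (tendsto_const_add_cobounded k₀).comp h2
      rw [Metric.cobounded_eq_cocompact] at h3
      exact hS.q_lim.comp h3
    · have hev : (fun z => q (k₀ + (ψ z)⁻¹)) =ᶠ[𝓝 z] φ := by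
        filter_upwards [isOpen_ne.mem_nhds hz0] with w hw
        exact (hφ w hw).symm
      refine ContinuousAt.congr ?_ hev
      have h1 : ContinuousAt (fun z => k₀ + (ψ z)⁻¹) z :=
        continuousAt_const.add ((hψc z hz).inv₀ (XB_F hE hz hz0).1)
      exact hqc.continuousAt.comp h1
  have hucont : ContinuousOn u (q '' ((fun z => k₀ + z) '' K))ᶜ := by
    intro x hx
    apply ContinuousAt.continuousWithinAt
    by_cases hxO : x = O
    · subst hxO
      rw [continuousAt_iff_punctured_nhds, hu0]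
      have hev : ∀ᶠ y : S2 in 𝓝[≠] x, v ((p y - k₀)⁻¹) = u y := by
        filter_upwards [self_mem_nhdsWithin] with y hy
        exact (hu y hy).symm
      refine Tendsto.congr' hev ?_
      have h1 := hS.p_lim
      rw [← Metric.cobounded_eq_cocompact] at h1
      have h2 : Tendsto (fun y => p y - k₀) (𝓝[≠] x) (Bornology.cobounded ℂ) :=
        (tendsto_sub_const_cobounded k₀).comp h1
      have h3 : Tendsto (fun y => (p y - k₀)⁻¹) (𝓝[≠] x) (𝓝 0) :=
        tendsto_inv₀_cobounded.comp h2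
      have h4 := (hvc 0 h0e).tendsto
      rw [hv0] at h4
      exact h4.comp h3
    · have hev : (fun y => v ((p y - k₀)⁻¹)) =ᶠ[𝓝 x] u := by
        filter_upwards [isOpen_ne.mem_nhds hxO] with y hy
        exact (hu y hy).symm
      refine ContinuousAt.congr ?_ hev
      have h1 : p x - k₀ ∉ K := hK'1 x hxO hx
      have h2 : p x - k₀ ≠ 0 := fun h => h1 (h ▸ h0)
      have h3 : ContinuousAt (fun y => (p y - k₀)⁻¹) x :=
        ((hpc x hxO).sub continuousAt_const).inv₀ h2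
      have h4 : (p x - k₀)⁻¹ ∈ extDom K := Or.inr (by rwa [inv_inv])
      exact (hvc _ h4).comp_of_eq h3 rfl
  have huφ : ∀ z ∈ ball (0:ℂ) 1, u (φ z) = z := by
    intro z hz
    by_cases hz0 : z = 0
    · rw [hz0, hφ0, hu0]
    · rw [hu _ (hφne z hz0), hpφ z hz0]
      have : k₀ + (ψ z)⁻¹ - k₀ = (ψ z)⁻¹ := by ring
      rw [this, inv_inv]
      exact hE.vψ z hz
  have humaps : MapsTo u (q '' ((fun z => k₀ + z) '' K))ᶜ (ball 0 1) := by
    intro x hx
    by_cases hxO : x = O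
    · rw [hxO, hu0]; exact h0b
    · rw [hu x hxO]
      apply hE.mv
      exact Or.inr (by rw [inv_inv]; exact hK'1 x hxO hx)
  have hφu : ∀ x ∈ (q '' ((fun z => k₀ + z) '' K))ᶜ, φ (u x) = x := by
    intro x hx
    by_cases hxO : x = O
    · rw [hxO, hu0, hφ0]
    · rw [hu x hxO]
      have h1 : p x - k₀ ∉ K := hK'1 x hxO hx
      have h2 : p x - k₀ ≠ 0 := fun h => h1 (h ▸ h0)
      have h4 : (p x - k₀)⁻¹ ∈ extDom K := Or.inr (by rwa [inv_inv])
      have h5 := hE.ψv _ h4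
      have h6 : v ((p x - k₀)⁻¹) ≠ 0 := by
        intro h7
        rw [h7, hE.ψ0] at h5
        exact inv_ne_zero h2 h5.symm
      rw [hφ _ h6, h5, inv_inv]
      have : k₀ + (p x - k₀) = p x := by ring
      rw [this]
      exact hS.qp x hxO
  refine ⟨hφcont, hφmaps, hucont, humaps, huφ, hφu, ?_, ?_⟩
  · -- L0
    intro ε hε
    by_contra hcon
    have hseq : ∀ n : ℕ, ∃ (γ : Set ℂ) (z w : ℂ), γ ⊆ ball (0:ℂ) 1 ∧ IsPreconnected γ ∧
        (∀ s ∈ γ, ∀ t ∈ γ, dist (φ s) (φ t) < 1 / ((n : ℝ) + 1)) ∧ z ∈ γ ∧ w ∈ γ ∧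
        ε ≤ dist z w := by
      intro n
      by_contra hno
      apply hcon
      refine ⟨1 / ((n : ℝ) + 1), by positivity, ?_⟩
      intro γ hγ1 hγ2 hγ3 z hz w hw
      by_contra hle
      exact hno ⟨γ, z, w, hγ1, hγ2, hγ3, hz, hw, not_lt.mp hle⟩
    choose γ z w hγb hγp hγd hz hw hzw using hseq
    have hcomp : IsCompact ((univ : Set S2) ×ˢ (closedBall (0:ℂ) 1 ×ˢ closedBall (0:ℂ) 1)) :=
      isCompact_univ.prod ((isCompact_closedBall _ _).prod (isCompact_closedBall _ _))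
    obtain ⟨⟨x₀, a, b⟩, -, θ, hθ, hlim⟩ := hcomp.tendsto_subseq
      (x := fun n => (φ (z n), z n, w n))
      (fun n => ⟨mem_univ _, ball_subset_closedBall (hγb n (hz n)),
        ball_subset_closedBall (hγb n (hw n))⟩)
    have hlim1 : Tendsto (fun n => φ (z (θ n))) atTop (𝓝 x₀) := by
      have := (continuous_fst.tendsto _).comp hlim
      exact this
    have hlim2 : Tendsto (fun n => z (θ n)) atTop (𝓝 a) := by
      have := ((continuous_fst.comp continuous_snd).tendsto _).comp hlim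
      exact this
    have hlim3 : Tendsto (fun n => w (θ n)) atTop (𝓝 b) := by
      have := ((continuous_snd.comp continuous_snd).tendsto _).comp hlim
      exact this
    have hab : ε ≤ dist a b :=
      ge_of_tendsto' (hlim2.dist hlim3) fun n => hzw (θ n)
    have hsmall : Tendsto (fun n : ℕ => 1 / (((θ n : ℕ) : ℝ) + 1)) atTop (𝓝 0) :=
      tendsto_one_div_add_atTop_nhds_zero_nat.comp hθ.tendsto_atTop
    have hnear : ∀ r > 0, ∀ᶠ n in atTop, ∀ t ∈ γ (θ n), dist (φ t) x₀ < r := by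
      intro r hr
      have e1 : ∀ᶠ n in atTop, dist (φ (z (θ n))) x₀ < r / 2 :=
        (Metric.tendsto_nhds.mp hlim1) (r / 2) (by positivity)
      have e2 : ∀ᶠ n : ℕ in atTop, 1 / (((θ n : ℕ) : ℝ) + 1) < r / 2 :=
        hsmall.eventually_lt_const (by positivity)
      filter_upwards [e1, e2] with n h1 h2 t ht
      have h3 := hγd (θ n) t ht (z (θ n)) (hz (θ n))
      have h4 := dist_triangle (φ t) (φ (z (θ n))) x₀
      linarith
    by_cases hx₀ : x₀ ∈ q '' ((fun z => k₀ + z) '' K)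
    · obtain ⟨y, ⟨w₀, hw₀, rfl⟩, hy⟩ := hx₀
      have hx₀O : x₀ ≠ O := by rw [← hy]; exact hS.q_ne _
      have hpx₀ : p x₀ = k₀ + w₀ := by
        rw [← hy]
        exact hS.pq _
      obtain ⟨N, hN⟩ := eventually_atTop.mp (hnear (dist O x₀) (dist_pos.mpr (Ne.symm hx₀O)))
      have hne0 : ∀ n, ∀ t ∈ γ (θ (n + N)), t ≠ 0 := by
        intro n t ht ht0
        have h1 := hN (n + N) (by omega) t ht
        rw [ht0, hφ0] at h1
        exact lt_irrefl _ h1
      have hab' : a = b := by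
        apply no_long hK hc h0 hn hE (fun n => γ (θ (n + N))) (fun n => hγp _)
          (fun n t ht => ⟨hγb _ ht, hne0 n t ht⟩) hw₀ _ (fun n => z (θ (n + N)))
          (fun n => w (θ (n + N))) (fun n => hz _) (fun n => hw _)
          (hlim2.comp (tendsto_add_atTop_nat N)) (hlim3.comp (tendsto_add_atTop_nat N))
        intro ε' hε'
        obtain ⟨δ, hδ, hδp⟩ := Metric.continuousAt_iff.mp (hpc x₀ hx₀O) ε' hε'
        have e1 := (tendsto_add_atTop_nat N).eventually (hnear δ hδ)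
        filter_upwards [e1] with n h1 t ht
        have h2 := hδp (h1 t ht)
        rw [hpφ t (hne0 n t ht), hpx₀] at h2
        rwa [dist_add_left] at h2
      rw [hab', dist_self] at hab
      linarith
    · have hcx := hucont x₀ hx₀
      have hphi : ∀ n, φ (z (θ n)) ∈ (q '' ((fun z => k₀ + z) '' K))ᶜ := fun n =>
        hφmaps (hγb _ (hz _))
      have hphi' : ∀ n, φ (w (θ n)) ∈ (q '' ((fun z => k₀ + z) '' K))ᶜ := fun n =>
        hφmaps (hγb _ (hw _))
      have hlim1' : Tendsto (fun n => φ (w (θ n))) atTop (𝓝 x₀) := by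
        rw [Metric.tendsto_nhds]
        intro r hr
        filter_upwards [hnear r hr] with n h1
        exact h1 _ (hw _)
      have t1 : Tendsto (fun n => u (φ (z (θ n)))) atTop (𝓝 (u x₀)) :=
        hcx.tendsto.comp (tendsto_nhdsWithin_iff.mpr ⟨hlim1, Eventually.of_forall hphi⟩)
      have t2 : Tendsto (fun n => u (φ (w (θ n)))) atTop (𝓝 (u x₀)) :=
        hcx.tendsto.comp (tendsto_nhdsWithin_iff.mpr ⟨hlim1', Eventually.of_forall hphi'⟩)
      have t1' : Tendsto (fun n => z (θ n)) atTop (𝓝 (u x₀)) := by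
        refine t1.congr fun n => ?_
        exact huφ _ (hγb _ (hz _))
      have t2' : Tendsto (fun n => w (θ n)) atTop (𝓝 (u x₀)) := by
        refine t2.congr fun n => ?_
        exact huφ _ (hγb _ (hw _))
      have ha := tendsto_nhds_unique hlim2 t1'
      have hb := tendsto_nhds_unique hlim3 t2'
      rw [ha, hb, dist_self] at hab
      linarith
  · -- L1
    intro ζ hζ ε hε
    -- lower bound for `ψ`
    obtain ⟨c, hc0, hcv⟩ : ∃ c > 0, ∀ w : ℂ, ‖w‖ < c → ‖v w‖ < 1 / 2 := by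
      have h1 := Metric.continuousAt_iff.mp (hvc 0 h0e) (1 / 2) (by norm_num)
      obtain ⟨c, hc0, h2⟩ := h1
      refine ⟨c, hc0, fun w hw => ?_⟩
      have h3 := h2 (x := w) (by rwa [dist_zero_right])
      rwa [hv0, dist_zero_right] at h3
    have hfar : ∀ z : ℂ, dist z ζ < 1 / 2 → 1 / 2 < ‖z‖ := by
      intro z hz
      have h1 : ‖ζ‖ ≤ ‖z‖ + dist z ζ := by
        rw [dist_comm, dist_eq_norm]
        have := norm_add_le z (ζ - z)
        rw [add_sub_cancel] at this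
        exact this
      rw [hζ] at h1
      linarith
    have hne : ∀ z : ℂ, dist z ζ < 1 / 2 → z ≠ 0 := by
      intro z hz hz0
      have := hfar z hz
      rw [hz0, norm_zero] at this
      linarith
    have hψlow : ∀ z ∈ ball (0:ℂ) 1, dist z ζ < 1 / 2 → c ≤ ‖ψ z‖ := by
      intro z hz hzζ
      by_contra hlt
      push Not at hlt
      have h1 := hcv _ hlt
      rw [hE.vψ z hz] at h1
      have := hfar z hzζ
      linarith
    have hFd : DifferentiableOn ℂ (fun z => (ψ z)⁻¹) (ball 0 1 ∩ ball ζ (1 / 2)) := by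
      apply DifferentiableOn.inv (hE.dψ.mono inter_subset_left)
      intro z hz
      exact (XB_F hE hz.1 (hne z hz.2)).1
    have hFi : InjOn (fun z => (ψ z)⁻¹) (ball 0 1 ∩ ball ζ (1 / 2)) := by
      intro z hz z' hz' h
      have h1 : ψ z = ψ z' := inv_injective h
      have h2 := hE.vψ z hz.1
      rw [h1, hE.vψ z' hz'.1] at h2
      exact h2.symm
    have hFle : ∀ z ∈ ball (0:ℂ) 1, dist z ζ < 1 / 2 → ‖(ψ z)⁻¹‖ ≤ c⁻¹ := by
      intro z hz hzζ
      rw [norm_inv]
      exact inv_anti₀ hc0 (hψlow z hz hzζ)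
    have hFb : Bornology.IsBounded ((fun z => (ψ z)⁻¹) '' (ball 0 1 ∩ ball ζ (1 / 2))) := by
      rw [isBounded_iff_forall_norm_le]
      refine ⟨c⁻¹, ?_⟩
      rintro _ ⟨z, hz, rfl⟩
      exact hFle z hz.1 hz.2
    -- uniform continuity of `q`
    have huc : UniformContinuousOn q (closedBall k₀ c⁻¹) :=
      (isCompact_closedBall _ _).uniformContinuousOn_of_continuous hqc.continuousOn
    obtain ⟨δ, hδ, hδq⟩ := Metric.uniformContinuousOn_iff.mp huc ε hε
    obtain ⟨ρ, hρ0, hρ1, hρ2⟩ := small_arc (by norm_num : (0:ℝ) < 1 / 2) hζ hFd hFi hFb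
      (min (min ε (1 / 2)) δ) (by positivity)
    have hρε : ρ < ε := lt_of_lt_of_le hρ1 ((min_le_left _ _).trans (min_le_left _ _))
    have hρ12 : ρ < 1 / 2 := lt_of_lt_of_le hρ1 ((min_le_left _ _).trans (min_le_right _ _))
    refine ⟨ρ, hρ0, hρε, ?_⟩
    intro z hz w hw hzρ hwρ
    have hz' : dist z ζ < 1 / 2 := by rw [hzρ]; exact hρ12
    have hw' : dist w ζ < 1 / 2 := by rw [hwρ]; exact hρ12
    have h1 := hρ2 z w hz hw hzρ hwρ
    have h2 : dist (ψ z)⁻¹ (ψ w)⁻¹ < δ := lt_of_lt_of_le h1 (min_le_right _ _)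
    rw [hφ z (hne z hz'), hφ w (hne w hw')]
    apply hδq
    · rw [mem_closedBall, dist_eq_norm, add_sub_cancel_left]
      exact hFle z hz hz'
    · rw [mem_closedBall, dist_eq_norm, add_sub_cancel_left]
      exact hFle w hw hw'
    · rwa [dist_add_left]

open Classical in
theorem discMap_ext {O : S2} {p : S2 → ℂ} {q : ℂ → S2} (hS : SC O p q) {K : Set ℂ}
    (hK : IsCompact K) (hc : IsConnected K) (h0 : (0:ℂ) ∈ K) (hn : K.Nontrivial) {ψ v : ℂ → ℂ}
    (hE : ExtMap K ψ v) (k₀ : ℂ) :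
    DiscMap (q '' ((fun z => k₀ + z) '' K)) (fun z => if z = 0 then O else q (k₀ + (ψ z)⁻¹))
      (fun x => if x = O then 0 else v ((p x - k₀)⁻¹)) := by
  apply XB_aux hS hK hc h0 hn hE k₀
  · simp
  · intro z hz
    simp [hz]
  · simp
  · intro x hx
    simp [hx]

end DS
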