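import Pool.Agent.H36.DS.PBase

/-!
The boundary map of a homeomorphism on the prime ends (project MP_8a27c0_DS).
-/

namespace DS
open Metric Set Filter Topology

/-- `hb` is the continuous extension to the closed disc of the map `u ∘ g ∘ φ` of the open disc, `hbi` is
its inverse -/
structure EndMap {X : Type*} (φ : ℂ → X) (u : X → ℂ) (g gi : X → X) (hb hbi : ℂ → ℂ) : Prop where
  bc : ContinuousOn hb (closedBall 0 1)
  bic : ContinuousOn hbi (closedBall 0 1)
  bm : MapsTo hb (closedBall 0 1) (closedBall 0 1)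
  bim : MapsTo hbi (closedBall 0 1) (closedBall 0 1)
  bo : MapsTo hb (ball 0 1) (ball 0 1)
  bio : MapsTo hbi (ball 0 1) (ball 0 1)
  bs : MapsTo hb (sphere 0 1) (sphere 0 1)
  bis : MapsTo hbi (sphere 0 1) (sphere 0 1)
  bib : ∀ z ∈ closedBall (0:ℂ) 1, hbi (hb z) = z
  bbi : ∀ z ∈ closedBall (0:ℂ) 1, hb (hbi z) = z
  be : ∀ z ∈ ball (0:ℂ) 1, hb z = u (g (φ z))
  bie : ∀ z ∈ ball (0:ℂ) 1, hbi z = u (gi (φ z))

end DS
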