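import Pool.Agent.H36.DS.HA
import Pool.Agent.H36.DS.HBase

/-!
HB (the boundary homeomorphism of prime ends).  Proof.  `h z = u (g (φ z))` is a homeomorphism of the open disc (inverse
`u (gi (φ z))`; `g` maps `Kᶜ` onto itself).  Claim: `h` has a limit at every `ζ` of the circle.  Let `0 < ε < 1/4`, `δ` from `L0`
for `ε`, `η` from the uniform continuity of `g` (`dist x y < η → dist (g x) (g y) < δ`).  As `h` is proper, for `ρ` small
`h` maps `ball 0 1 ∩ closedBall ζ ρ` into `{‖z‖ > 1/2}` (`h ⁻¹` of the compact `closedBall 0 (1/2)` is compact in the disc).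
By `L1` there is such a `ρ < 1` with `dist (φ z) (φ w) < η` on `C = {z ∈ ball 0 1 | dist z ζ = ρ}`.  `C` is connected
(`arc_connected`), so `h '' C` is connected and its image under `φ` (which is `g (φ '' C)`) has diameter `< δ`; by `L0`
`h '' C ⊆ closedBall p ε` for `p = h z₀`, `z₀ ∈ C`, `‖p‖ > 1/2`.  `E = {z | ‖z‖ < 1 ∧ ε < dist z p}` is connected
(`disc_minus_ball`), contains `0` and misses `h '' C`; so `h ⁻¹ '' E` is connected, misses `C`, contains `h ⁻¹ 0`, which is not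
in `ball ζ ρ`; so it misses `ball ζ ρ`, i.e. `h '' (ball 0 1 ∩ ball ζ ρ) ⊆ closedBall p ε`.  So `h` is Cauchy at `ζ`.
Let `hb = extendFrom (ball 0 1) h` (`continuousOn_extendFrom`), the same for the inverse; the compositions are the
identity on the open disc, so on its closure; `hb` maps the circle to the circle: if `‖hb ζ‖ < 1` then
`ζ = hbi (hb ζ) = u (gi (φ (hb ζ)))` would be in the open disc.
-/

namespace DS
open Metric Set Filter Topology

/-- the map is continuous on the open disc -/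
theorem HB_cont {X : Type*} [MetricSpace X] {K : Set X} {φ : ℂ → X} {u : X → ℂ}
    (H : DiscMap K φ u) {g : X → X} (hg : Continuous g) (hgK : MapsTo g Kᶜ Kᶜ) :
    ContinuousOn (fun z => u (g (φ z))) (ball 0 1) := by
  have h1 : ContinuousOn (fun z => g (φ z)) (ball 0 1) := hg.comp_continuousOn H.φ_cont
  exact H.u_cont.comp h1 (fun z hz => hgK (H.φ_maps hz))

/-- the map is nearly constant near a boundary point -/
theorem HB_small {X : Type*} [MetricSpace X] [CompactSpace X] {K : Set X}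
    {φ : ℂ → X} {u : X → ℂ} (H : DiscMap K φ u) {g gi : X → X} (hg : Continuous g)
    (hgi : Continuous gi) (hggi : ∀ x, g (gi x) = x) (hgig : ∀ x, gi (g x) = x)
    (hgK : MapsTo g Kᶜ Kᶜ) (hgiK : MapsTo gi Kᶜ Kᶜ) {ζ : ℂ} (hζ : ‖ζ‖ = 1) {ε : ℝ} (hε : 0 < ε)
    (hε4 : ε < 1 / 4) :
    ∃ ρ > 0, ∀ z ∈ ball (0:ℂ) 1, ∀ w ∈ ball (0:ℂ) 1, dist z ζ < ρ → dist w ζ < ρ →
      dist (u (g (φ z))) (u (g (φ w))) < 2 * ε := by
  set h : ℂ → ℂ := fun z => u (g (φ z)) with hh
  set hi : ℂ → ℂ := fun z => u (gi (φ z)) with hhi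
  have hhm : MapsTo h (ball 0 1) (ball 0 1) := fun z hz => H.u_maps (hgK (H.φ_maps hz))
  have him : MapsTo hi (ball 0 1) (ball 0 1) := fun z hz => H.u_maps (hgiK (H.φ_maps hz))
  have hhc : ContinuousOn h (ball 0 1) := HB_cont H hg hgK
  have hic : ContinuousOn hi (ball 0 1) := HB_cont H hgi hgiK
  have hih : ∀ z ∈ ball (0:ℂ) 1, hi (h z) = z := by
    intro z hz
    simp only [hh, hhi]
    rw [H.φu _ (hgK (H.φ_maps hz)), hgig, H.uφ z hz]
  have hhi' : ∀ z ∈ ball (0:ℂ) 1, h (hi z) = z := by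
    intro z hz
    simp only [hh, hhi]
    rw [H.φu _ (hgiK (H.φ_maps hz)), hggi, H.uφ z hz]
  obtain ⟨δ, hδ, hL0⟩ := H.L0 ε hε
  have hgu : UniformContinuous g := CompactSpace.uniformContinuous_of_continuous hg
  obtain ⟨η, hη, hgη⟩ := Metric.uniformContinuous_iff.1 hgu δ hδ
  -- properness
  have hhalf : closedBall (0:ℂ) (1/2) ⊆ ball 0 1 := closedBall_subset_ball (by norm_num)
  set Q : Set ℂ := hi '' closedBall 0 (1/2) with hQ
  have hQc : IsCompact Q := (isCompact_closedBall _ _).image_of_continuousOn (hic.mono hhalf)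
  have hQb : Q ⊆ ball 0 1 := by
    rintro _ ⟨z, hz, rfl⟩
    exact him (hhalf hz)
  have hζQ : ζ ∉ Q := by
    intro hc
    have := hQb hc
    rw [mem_ball_zero_iff, hζ] at this
    exact lt_irrefl _ this
  obtain ⟨r0, hr0, hr0Q⟩ := Metric.isOpen_iff.1 hQc.isClosed.isOpen_compl ζ hζQ
  have hbig : ∀ z ∈ ball (0:ℂ) 1, dist z ζ < r0 → 1 / 2 < ‖h z‖ := by
    intro z hz hzr
    by_contra hc
    push Not at hc
    have h1 : z ∈ Q := ⟨h z, by rwa [mem_closedBall_zero_iff], hih z hz⟩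
    exact hr0Q (mem_ball.2 hzr) h1
  obtain ⟨ρ, hρ, hρ2, hL1⟩ := H.L1 ζ hζ (min η (min r0 1)) (by positivity)
  have hρη : min η (min r0 1) ≤ η := min_le_left _ _
  have hρr : min η (min r0 1) ≤ r0 := (min_le_right _ _).trans (min_le_left _ _)
  have hρ1 : min η (min r0 1) ≤ 1 := (min_le_right _ _).trans (min_le_right _ _)
  have hC := arc_connected hζ hρ (by linarith)
  set Cc : Set ℂ := {z : ℂ | ‖z‖ < 1 ∧ dist z ζ = ρ} with hCc
  have hCb : Cc ⊆ ball 0 1 := fun z hz => mem_ball_zero_iff.2 hz.1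
  obtain ⟨z₀, hz₀⟩ := hC.nonempty
  have hp : 1 / 2 < ‖h z₀‖ := hbig z₀ (hCb hz₀) (by rw [hz₀.2]; linarith)
  have hCsmall : ∀ a ∈ Cc, ∀ b ∈ Cc, dist (h a) (h b) < ε := by
    have h2 : ∀ z ∈ h '' Cc, ∀ w ∈ h '' Cc, dist (φ z) (φ w) < δ := by
      rintro _ ⟨a, ha, rfl⟩ _ ⟨b, hb, rfl⟩
      simp only [hh]
      rw [H.φu _ (hgK (H.φ_maps (hCb ha))), H.φu _ (hgK (H.φ_maps (hCb hb)))]
      exact hgη (lt_of_lt_of_le (hL1 a (hCb ha) b (hCb hb) ha.2 hb.2) hρη)
    have h3 := hL0 (h '' Cc) (by rintro _ ⟨a, ha, rfl⟩; exact hhm (hCb ha))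
      (hC.isPreconnected.image h (hhc.mono hCb)) h2
    intro a ha b hb
    exact h3 _ ⟨a, ha, rfl⟩ _ ⟨b, hb, rfl⟩
  have hE := disc_minus_ball' (p := h z₀) hε.le (by linarith)
  set E : Set ℂ := {z : ℂ | ‖z‖ < 1 ∧ ε ≤ dist z (h z₀)} with hEdef
  have hEb : E ⊆ ball 0 1 := fun z hz => mem_ball_zero_iff.2 hz.1
  have h0E : (0:ℂ) ∈ E := by
    refine ⟨by simp, ?_⟩
    rw [dist_zero_left]
    linarith
  have hEi : IsPreconnected (hi '' E) := hE.isPreconnected.image hi (hic.mono hEb)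
  have hEρ : ∀ x ∈ hi '' E, dist x ζ ≠ ρ := by
    rintro _ ⟨e, he, rfl⟩ hc
    have h4 : hi e ∈ Cc := ⟨mem_ball_zero_iff.1 (him (hEb he)), hc⟩
    have h5 := hCsmall _ h4 _ hz₀
    rw [hhi' e (hEb he)] at h5
    exact absurd he.2 (not_le.2 h5)
  have h0big : ρ < dist (hi 0) ζ := by
    have h6 : hi 0 ∈ Q := ⟨0, by simp, rfl⟩
    by_contra hc
    push Not at hc
    exact hr0Q (mem_ball.2 (lt_of_le_of_lt hc (by linarith))) h6
  have hEbig : ∀ x ∈ hi '' E, ρ < dist x ζ := by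
    intro x hx
    by_contra hc
    push Not at hc
    have h7 := hEi.intermediate_value hx ⟨0, h0E, rfl⟩
      (f := fun y => dist y ζ) (by fun_prop)
    obtain ⟨y, hy, hyρ⟩ := h7 ⟨hc, h0big.le⟩
    exact hEρ y hy hyρ
  have hin : ∀ z ∈ ball (0:ℂ) 1, dist z ζ < ρ → dist (h z) (h z₀) < ε := by
    intro z hz hzρ
    by_contra hc
    push Not at hc
    have h8 : h z ∈ E := ⟨mem_ball_zero_iff.1 (hhm hz), hc⟩
    have h9 := hEbig (hi (h z)) ⟨h z, h8, rfl⟩
    rw [hih z hz] at h9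
    exact absurd hzρ (not_lt.2 h9.le)
  refine ⟨ρ, hρ, fun z hz w hw hz1 hw1 => ?_⟩
  have h10 := hin z hz hz1
  have h11 := hin w hw hw1
  calc dist (h z) (h w) ≤ dist (h z) (h z₀) + dist (h w) (h z₀) := dist_triangle_right _ _ _
    _ < 2 * ε := by linarith

/-- the limits exist -/
theorem HB_lim {X : Type*} [MetricSpace X] [CompactSpace X] {K : Set X}
    {φ : ℂ → X} {u : X → ℂ} (H : DiscMap K φ u) {g gi : X → X} (hg : Continuous g)
    (hgi : Continuous gi) (hggi : ∀ x, g (gi x) = x) (hgig : ∀ x, gi (g x) = x)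
    (hgK : MapsTo g Kᶜ Kᶜ) (hgiK : MapsTo gi Kᶜ Kᶜ) (x : ℂ) (hx : x ∈ closedBall (0:ℂ) 1) :
    ∃ y, Tendsto (fun z => u (g (φ z))) (𝓝[ball 0 1] x) (𝓝 y) := by
  by_cases hxb : x ∈ ball (0:ℂ) 1
  · exact ⟨_, HB_cont H hg hgK x hxb⟩
  · have hx1 : ‖x‖ = 1 := by
      rw [mem_closedBall_zero_iff] at hx
      rw [mem_ball_zero_iff, not_lt] at hxb
      exact le_antisymm hx hxb
    have hcl : x ∈ closure (ball (0:ℂ) 1) := by
      rw [closure_ball _ one_ne_zero]
      exact hx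
    have hne : (𝓝[ball 0 1] x).NeBot := mem_closure_iff_nhdsWithin_neBot.1 hcl
    have hcau : Cauchy (map (fun z => u (g (φ z))) (𝓝[ball 0 1] x)) := by
      rw [Metric.cauchy_iff]
      refine ⟨hne.map _, fun e he => ?_⟩
      obtain ⟨ρ, hρ, hρ2⟩ := HB_small H hg hgi hggi hgig hgK hgiK hx1
        (ε := min (e / 2) (1 / 8)) (by positivity)
        (lt_of_le_of_lt (min_le_right _ _) (by norm_num))
      refine ⟨(fun z => u (g (φ z))) '' (ball x ρ ∩ ball 0 1), ?_, ?_⟩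
      · apply image_mem_map
        rw [inter_comm]
        exact inter_mem_nhdsWithin _ (ball_mem_nhds x hρ)
      · rintro _ ⟨a, ha, rfl⟩ _ ⟨b, hb, rfl⟩
        have h1 := hρ2 a ha.2 b hb.2 ha.1 hb.1
        have h2 : min (e / 2) (1 / 8) ≤ e / 2 := min_le_left _ _
        exact lt_of_lt_of_le h1 (by linarith)
    exact cauchy_map_iff_exists_tendsto.1 hcau

theorem end_homeo {X : Type*} [MetricSpace X] [CompactSpace X] {K : Set X} (hK : IsClosed K)
    {φ : ℂ → X} {u : X → ℂ} (H : DiscMap K φ u) {g gi : X → X} (hg : Continuous g)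
    (hgi : Continuous gi) (hggi : ∀ x, g (gi x) = x) (hgig : ∀ x, gi (g x) = x)
    (hgK : g '' K = K) :
    ∃ hb hbi : ℂ → ℂ, EndMap φ u g gi hb hbi := by
  have hm : MapsTo g Kᶜ Kᶜ := by
    intro x hx hc
    rw [← hgK] at hc
    obtain ⟨y, hy, hyx⟩ := hc
    have h1 : y = x := by rw [← hgig y, hyx, hgig]
    exact hx (h1 ▸ hy)
  have hmi : MapsTo gi Kᶜ Kᶜ := by
    intro x hx hc
    apply hx
    show x ∈ K
    rw [← hgK]
    exact ⟨gi x, hc, hggi x⟩
  have hcl : closure (ball (0:ℂ) 1) = closedBall 0 1 := closure_ball _ one_ne_zero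
  have hlim := HB_lim H hg hgi hggi hgig hm hmi
  have hlimi := HB_lim H hgi hg hgig hggi hmi hm
  set h : ℂ → ℂ := fun z => u (g (φ z)) with hh
  set hi : ℂ → ℂ := fun z => u (gi (φ z)) with hhi
  have hhm : MapsTo h (ball 0 1) (ball 0 1) := fun z hz => H.u_maps (hm (H.φ_maps hz))
  have him : MapsTo hi (ball 0 1) (ball 0 1) := fun z hz => H.u_maps (hmi (H.φ_maps hz))
  have hhc : ContinuousOn h (ball 0 1) := HB_cont H hg hm
  have hic : ContinuousOn hi (ball 0 1) := HB_cont H hgi hmi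
  have hih : ∀ z ∈ ball (0:ℂ) 1, hi (h z) = z := by
    intro z hz
    simp only [hh, hhi]
    rw [H.φu _ (hm (H.φ_maps hz)), hgig, H.uφ z hz]
  have hhi' : ∀ z ∈ ball (0:ℂ) 1, h (hi z) = z := by
    intro z hz
    simp only [hh, hhi]
    rw [H.φu _ (hmi (H.φ_maps hz)), hggi, H.uφ z hz]
  have hbc : ContinuousOn (extendFrom (ball 0 1) h) (closedBall 0 1) :=
    continuousOn_extendFrom hcl.ge hlim
  have hbic : ContinuousOn (extendFrom (ball 0 1) hi) (closedBall 0 1) :=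
    continuousOn_extendFrom hcl.ge hlimi
  have hbe : ∀ z ∈ ball (0:ℂ) 1, extendFrom (ball 0 1) h z = h z := fun z hz =>
    extendFrom_eq (subset_closure hz) (hhc z hz)
  have hbie : ∀ z ∈ ball (0:ℂ) 1, extendFrom (ball 0 1) hi z = hi z := fun z hz =>
    extendFrom_eq (subset_closure hz) (hic z hz)
  have hbo : MapsTo (extendFrom (ball 0 1) h) (ball 0 1) (ball 0 1) := by
    intro z hz
    rw [hbe z hz]
    exact hhm hz
  have hbio : MapsTo (extendFrom (ball 0 1) hi) (ball 0 1) (ball 0 1) := by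
    intro z hz
    rw [hbie z hz]
    exact him hz
  have hbm : MapsTo (extendFrom (ball 0 1) h) (closedBall 0 1) (closedBall 0 1) := by
    have := hbo.closure_of_continuousOn (by rw [hcl]; exact hbc)
    rwa [hcl] at this
  have hbim : MapsTo (extendFrom (ball 0 1) hi) (closedBall 0 1) (closedBall 0 1) := by
    have := hbio.closure_of_continuousOn (by rw [hcl]; exact hbic)
    rwa [hcl] at this
  have hbib : ∀ z ∈ closedBall (0:ℂ) 1,
      extendFrom (ball 0 1) hi (extendFrom (ball 0 1) h z) = z := by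
    have h1 : EqOn (fun z => extendFrom (ball 0 1) hi (extendFrom (ball 0 1) h z)) id
        (ball 0 1) := by
      intro z hz
      simp only [id]
      rw [hbe z hz, hbie _ (hhm hz), hih z hz]
    exact h1.of_subset_closure (hbic.comp hbc hbm) continuousOn_id ball_subset_closedBall hcl.ge
  have hbbi : ∀ z ∈ closedBall (0:ℂ) 1,
      extendFrom (ball 0 1) h (extendFrom (ball 0 1) hi z) = z := by
    have h1 : EqOn (fun z => extendFrom (ball 0 1) h (extendFrom (ball 0 1) hi z)) id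
        (ball 0 1) := by
      intro z hz
      simp only [id]
      rw [hbie z hz, hbe _ (him hz), hhi' z hz]
    exact h1.of_subset_closure (hbc.comp hbic hbim) continuousOn_id ball_subset_closedBall hcl.ge
  refine ⟨extendFrom (ball 0 1) h, extendFrom (ball 0 1) hi, hbc, hbic, hbm, hbim, hbo, hbio,
    ?_, ?_, hbib, hbbi, hbe, hbie⟩
  · intro ζ hζ
    have hζ1 : ζ ∈ closedBall (0:ℂ) 1 := sphere_subset_closedBall hζ
    by_contra hc
    have h2 : extendFrom (ball 0 1) h ζ ∈ ball (0:ℂ) 1 := by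
      have h3 := hbm hζ1
      rw [mem_closedBall_zero_iff] at h3
      rw [mem_ball_zero_iff]
      rw [mem_sphere_zero_iff_norm] at hc
      exact lt_of_le_of_ne h3 hc
    have h4 := hbio h2
    rw [hbib ζ hζ1, mem_ball_zero_iff, mem_sphere_zero_iff_norm.1 hζ] at h4
    exact lt_irrefl _ h4
  · intro ζ hζ
    have hζ1 : ζ ∈ closedBall (0:ℂ) 1 := sphere_subset_closedBall hζ
    by_contra hc
    have h2 : extendFrom (ball 0 1) hi ζ ∈ ball (0:ℂ) 1 := by
      have h3 := hbim hζ1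
      rw [mem_closedBall_zero_iff] at h3
      rw [mem_ball_zero_iff]
      rw [mem_sphere_zero_iff_norm] at hc
      exact lt_of_le_of_ne h3 hc
    have h4 := hbo h2
    rw [hbbi ζ hζ1, mem_ball_zero_iff, mem_sphere_zero_iff_norm.1 hζ] at h4
    exact lt_irrefl _ h4

/-- composition -/
theorem HB_comp {X : Type*} [MetricSpace X] {K : Set X} {φ : ℂ → X} {u : X → ℂ}
    (H : DiscMap K φ u) {g1 gi1 g2 gi2 : X → X} (hgK : MapsTo g1 Kᶜ Kᶜ)
    (hgiK : MapsTo gi2 Kᶜ Kᶜ) {hb1 hbi1 hb2 hbi2 : ℂ → ℂ}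
    (h1 : EndMap φ u g1 gi1 hb1 hbi1) (h2 : EndMap φ u g2 gi2 hb2 hbi2) :
    EndMap φ u (g2 ∘ g1) (gi1 ∘ gi2) (hb2 ∘ hb1) (hbi1 ∘ hbi2) where
  bc := h2.bc.comp h1.bc h1.bm
  bic := h1.bic.comp h2.bic h2.bim
  bm := h2.bm.comp h1.bm
  bim := h1.bim.comp h2.bim
  bo := h2.bo.comp h1.bo
  bio := h1.bio.comp h2.bio
  bs := h2.bs.comp h1.bs
  bis := h1.bis.comp h2.bis
  bib := fun z hz => by
    simp only [Function.comp_apply]
    rw [h2.bib _ (h1.bm hz), h1.bib z hz]
  bbi := fun z hz => by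
    simp only [Function.comp_apply]
    rw [h1.bbi _ (h2.bim hz), h2.bbi z hz]
  be := fun z hz => by
    simp only [Function.comp_apply]
    rw [h2.be _ (h1.bo hz), h1.be z hz, H.φu _ (hgK (H.φ_maps hz))]
  bie := fun z hz => by
    simp only [Function.comp_apply]
    rw [h1.bie _ (h2.bio hz), h2.bie z hz, H.φu _ (hgiK (H.φ_maps hz))]

/-- the square of the boundary map is the boundary map of the square -/
theorem endMap_iter {X : Type*} [MetricSpace X] {K : Set X} {φ : ℂ → X} {u : X → ℂ}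
    (H : DiscMap K φ u) {g gi : X → X} (hgK : MapsTo g Kᶜ Kᶜ) (hgiK : MapsTo gi Kᶜ Kᶜ) {hb hbi : ℂ → ℂ}
    (hE : EndMap φ u g gi hb hbi) (n : ℕ) :
    EndMap φ u (g^[n]) (gi^[n]) (hb^[n]) (hbi^[n]) := by
  induction n with
  | zero =>
    simp only [Function.iterate_zero]
    exact ⟨continuousOn_id, continuousOn_id, mapsTo_id _, mapsTo_id _, mapsTo_id _, mapsTo_id _,
      mapsTo_id _, mapsTo_id _, fun _ _ => rfl, fun _ _ => rfl, fun z hz => (H.uφ z hz).symm,
      fun z hz => (H.uφ z hz).symm⟩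
  | succ n ih =>
    rw [Function.iterate_succ g, Function.iterate_succ hb, Function.iterate_succ' gi,
      Function.iterate_succ' hbi]
    exact HB_comp H hgK (hgiK.iterate n) hE ih

end DS
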