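import Pool.Agent.H36.DS.PE

/-!
PH (small separating sets are close to the prime end).  Proof.  WLOG `ε < 1`.  Let `δ` be the number of `L0` for
`ε / 4` and, by `fix_escape`, `r > 0` with `1 - ε / 4 < ‖u w‖` for `w ∈ W`, `‖w‖ ≤ r`; take
`r₁ < min r₀ r (δ/4)`.  `A` is nonempty (`W` is connected, `Sep` of the empty set is impossible: take `z` in the disc near
`ζ`); let `w ∈ A`, `p = u w`; `u z ∈ ball p (ε/4)` for `z ∈ A` (`L0`), `‖p‖ > 1 - ε/4 > ε/4`.
`E = {z | ‖z‖ < 1 ∧ ε/4 ≤ dist z p}` is connected (`disc_minus_ball'`), contains `0`, misses `u '' A`; so `φ '' E` is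
contained in the component `M₀` of `φ 0` in `W \ A`.  So `dist (u z) p < ε/4` for `z ∈ W \ M₀`.  By `Sep`, all `φ z` with `z` in the
disc near `ζ` are not in `M₀`, hence `dist ζ p ≤ ε/4`.  So `dist (u z) ζ ≤ ε/2 < ε` for `z ∈ W \ M₀` and for `z ∈ A`.
-/

namespace DS
open Metric Set Filter Topology MeasureTheory

theorem sep_close {W : Set ℂ} {φ u G Gi : ℂ → ℂ} {μ : Measure ℂ} {ζ : ℂ} {r₀ : ℝ}
    (H : FixPE W φ u G Gi μ ζ r₀) : ∀ ε > 0, ∃ r₁ > 0, ∀ A ⊆ W ∩ closedBall 0 r₁,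
      IsPreconnected A → Sep W φ ζ A → (∀ z ∈ A, dist (u z) ζ < ε) ∧
        ∀ z ∈ W, z ∉ connectedComponentIn (W \ A) (φ 0) → dist (u z) ζ < ε := by
  intro ε hε
  set e : ℝ := min ε 1 with he
  have he0 : 0 < e := lt_min hε one_pos
  have he1 : e ≤ 1 := min_le_right _ _
  have heε : e ≤ ε := min_le_left _ _
  obtain ⟨δ, hδ, hL0⟩ := H.L0 (e / 4) (by positivity)
  obtain ⟨r, hr, hesc⟩ := fix_escape H (e / 4) (by positivity)
  refine ⟨min (min r₀ r) (δ / 4), lt_min (lt_min H.hr₀ hr) (by positivity), ?_⟩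
  intro A hA hAc hsep
  obtain ⟨hφ0, ρ, hρ, hS⟩ := hsep
  -- a point of the disc near `ζ`
  obtain ⟨z₁, hz₁, hz₁ρ, hz₁e⟩ : ∃ z₁ ∈ ball (0:ℂ) 1, dist z₁ ζ < ρ ∧ dist z₁ ζ < e / 4 := by
    set t : ℝ := min (ρ / 2) (e / 8) with ht
    have ht0 : 0 < t := lt_min (by positivity) (by positivity)
    have ht1 : t ≤ e / 8 := min_le_right _ _
    have ht2 : t ≤ ρ / 2 := min_le_left _ _
    have hd : dist (((1 - t : ℝ) : ℂ) * ζ) ζ = t := by
      rw [dist_eq_norm]
      have h1 : ((1 - t : ℝ) : ℂ) * ζ - ζ = ((-t : ℝ) : ℂ) * ζ := by push_cast; ring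
      rw [h1, norm_mul, H.hζ, mul_one, Complex.norm_real, Real.norm_eq_abs, abs_neg,
        abs_of_pos ht0]
    refine ⟨((1 - t : ℝ) : ℂ) * ζ, ?_, ?_, ?_⟩
    · rw [mem_ball_zero_iff, norm_mul, H.hζ, mul_one, Complex.norm_real, Real.norm_eq_abs,
        abs_of_pos (by linarith)]
      linarith
    · rw [hd]; linarith
    · rw [hd]; linarith
  -- `A` is nonempty
  have hAne : A.Nonempty := by
    by_contra hcon
    rw [not_nonempty_iff_eq_empty] at hcon
    have h1 := (hS z₁ hz₁ hz₁ρ).2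
    rw [hcon, sdiff_empty] at h1
    exact h1 ((fix_conn H).isPreconnected.subset_connectedComponentIn hφ0.1 subset_rfl
      (H.φ_maps hz₁))
  obtain ⟨w, hw⟩ := hAne
  have hnorm : ∀ z ∈ A, ‖z‖ ≤ min (min r₀ r) (δ / 4) := fun z hz => by
    simpa using (hA hz).2
  have hwr : ‖w‖ ≤ r := (hnorm w hw).trans ((min_le_left _ _).trans (min_le_right _ _))
  have hp := hesc w (hA hw).1 hwr
  have hclose : ∀ z ∈ A, dist (u z) (u w) < e / 4 := by
    intro z hz
    refine hL0 A ?_ hAc ?_ z hz w hw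
    · intro x hx
      refine ⟨(hA hx).1, ?_⟩
      rw [mem_closedBall_zero_iff]
      exact (hnorm x hx).trans ((min_le_left _ _).trans (min_le_left _ _))
    · intro x hx y hy
      have h1 := (hnorm x hx).trans (min_le_right _ _)
      have h2 := (hnorm y hy).trans (min_le_right _ _)
      have h3 : dist x y ≤ ‖x‖ + ‖y‖ := by rw [dist_eq_norm]; exact norm_sub_le x y
      linarith
  set E : Set ℂ := {z : ℂ | ‖z‖ < 1 ∧ e / 4 ≤ dist z (u w)} with hE
  have hEc : IsConnected E := disc_minus_ball' (by positivity) (by linarith)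
  have hEb : E ⊆ ball 0 1 := fun z hz => by rw [mem_ball_zero_iff]; exact hz.1
  have h0E : (0:ℂ) ∈ E := ⟨by simp, by rw [dist_comm, dist_zero_right]; linarith⟩
  have hsub : φ '' E ⊆ connectedComponentIn (W \ A) (φ 0) := by
    refine (hEc.isPreconnected.image φ (H.φ_cont.mono hEb)).subset_connectedComponentIn
      ⟨0, h0E, rfl⟩ ?_
    rintro _ ⟨z, hz, rfl⟩
    refine ⟨H.φ_maps (hEb hz), fun hzA => ?_⟩
    have h1 := hclose _ hzA
    rw [H.uφ z (hEb hz)] at h1
    exact absurd hz.2 (not_le.mpr h1)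
  have hfar : ∀ z ∈ W, z ∉ connectedComponentIn (W \ A) (φ 0) → dist (u z) (u w) < e / 4 := by
    intro z hz hz'
    by_contra hcon
    apply hz'
    apply hsub
    refine ⟨u z, ⟨?_, not_lt.mp hcon⟩, H.φu z hz⟩
    simpa using H.u_maps hz
  have hζp : dist ζ (u w) < e / 2 := by
    have h1 := hfar (φ z₁) (H.φ_maps hz₁) (hS z₁ hz₁ hz₁ρ).2
    rw [H.uφ z₁ hz₁] at h1
    have h2 := dist_triangle ζ z₁ (u w)
    rw [dist_comm ζ z₁] at h2
    linarith
  constructor
  · intro z hz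
    have h1 := hclose z hz
    have h2 := dist_triangle (u z) (u w) ζ
    rw [dist_comm (u w) ζ] at h2
    linarith
  · intro z hz hz'
    have h1 := hfar z hz hz'
    have h2 := dist_triangle (u z) (u w) ζ
    rw [dist_comm (u w) ζ] at h2
    linarith

end DS
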