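import Pool.Agent.H36.DS.PBase
import Pool.Agent.H36.DS.IA

/-!
PK.  `bd_not_sub`: otherwise `z ↦ z` is nowhere zero on `W` and has a continuous logarithm `L` on `W ⊇ Bd`.  For
`z ∈ sphere 0 1` let `s z = (max (max (z.re / b) (z.re / a)) (max (z.im / d) (z.im / c)))⁻¹` (the maximum is
positive, `a < 0 < b`, `c < 0 < d`); `s` is positive, continuous and `s z * z ∈ Bd a b c d`.  So
`s z * z = exp (L (s z * z))` gives `HasWind (fun z => s z * z) 0 1 0`; compared with `z` (`hasWind_of_ratio`: the quotient is a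
positive real number, `hasWind_id`) it has winding number `1`; contradiction with `hasWind_unique`.
`arg_var`: let `z₀ ∈ Bd`, `z₀ ∉ W` (`bd_not_sub`).  For `z ∈ Bd \ {z₀}` the number `- z / z₀` is in `slitPlane` (the open ray from
`0` through `z₀` meets `Bd` only at `z₀`), so `ℓ z = Complex.log (- z / z₀)` is continuous on `A ⊆ Bd ∩ W`, with
`(ℓ z).im ∈ (-π, π)`; `exp (Θ z - ℓ z) = - z₀` is constant on the connected set `A`, so `Θ z - ℓ z` is constant on `A`
(it takes values in a discrete set).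
-/

namespace DS
open Metric Set Filter Topology

/-- the gauge of the rectangle -/
noncomputable def PK_m (a b c d : ℝ) (z : ℂ) : ℝ :=
  max (max (z.re / b) (z.re / a)) (max (z.im / d) (z.im / c))

private theorem PK_m_cont (a b c d : ℝ) : Continuous (PK_m a b c d) := by
  unfold PK_m
  exact ((Complex.continuous_re.div_const _).max (Complex.continuous_re.div_const _)).max
    ((Complex.continuous_im.div_const _).max (Complex.continuous_im.div_const _))

private theorem PK_m_pos {a b c d : ℝ} (ha : a < 0) (hb : 0 < b) (hc : c < 0) (hd : 0 < d) {z : ℂ}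
    (hz : z ≠ 0) : 0 < PK_m a b c d z := by
  rw [PK_m, lt_max_iff, lt_max_iff, lt_max_iff]
  rcases lt_trichotomy z.re 0 with h | h | h
  · exact Or.inl (Or.inr (div_pos_of_neg_of_neg h ha))
  · rcases lt_trichotomy z.im 0 with h' | h' | h'
    · exact Or.inr (Or.inr (div_pos_of_neg_of_neg h' hc))
    · exact absurd (Complex.ext h h') hz
    · exact Or.inr (Or.inl (div_pos h' hd))
  · exact Or.inl (Or.inl (div_pos h hb))

private theorem PK_m_smul {a b c d : ℝ} {t : ℝ} (ht : 0 ≤ t) (z : ℂ) :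
    PK_m a b c d ((t : ℂ) * z) = t * PK_m a b c d z := by
  simp only [PK_m, Complex.re_ofReal_mul, Complex.im_ofReal_mul, mul_div_assoc]
  rw [mul_max_of_nonneg _ _ ht, mul_max_of_nonneg _ _ ht, mul_max_of_nonneg _ _ ht]

private theorem PK_Bd {a b c d : ℝ} (ha : a < 0) (hb : 0 < b) (hc : c < 0) (hd : 0 < d) {z : ℂ} :
    z ∈ Bd a b c d ↔ PK_m a b c d z = 1 := by
  have e1 : z.re / b ≤ 1 ↔ z.re ≤ b := div_le_one hb
  have e2 : z.re / a ≤ 1 ↔ a ≤ z.re := by
    rw [div_le_iff_of_neg ha, one_mul]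
  have e3 : z.im / d ≤ 1 ↔ z.im ≤ d := div_le_one hd
  have e4 : z.im / c ≤ 1 ↔ c ≤ z.im := by
    rw [div_le_iff_of_neg hc, one_mul]
  have f1 : z.re / b = 1 ↔ z.re = b := div_eq_one_iff_eq hb.ne'
  have f2 : z.re / a = 1 ↔ z.re = a := div_eq_one_iff_eq ha.ne
  have f3 : z.im / d = 1 ↔ z.im = d := div_eq_one_iff_eq hd.ne'
  have f4 : z.im / c = 1 ↔ z.im = c := div_eq_one_iff_eq hc.ne
  constructor
  · rintro ⟨⟨h1, h2, h3, h4⟩, h5⟩
    apply le_antisymm
    · exact max_le (max_le (e1.2 h2) (e2.2 h1)) (max_le (e3.2 h4) (e4.2 h3))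
    · rw [PK_m, le_max_iff, le_max_iff, le_max_iff]
      rcases h5 with h | h | h | h
      · exact Or.inl (Or.inr (f2.2 h).ge)
      · exact Or.inl (Or.inl (f1.2 h).ge)
      · exact Or.inr (Or.inr (f4.2 h).ge)
      · exact Or.inr (Or.inl (f3.2 h).ge)
  · intro h
    have h1 : z.re / b ≤ 1 := by
      rw [← h]; exact (le_max_left _ _).trans (le_max_left _ _)
    have h2 : z.re / a ≤ 1 := by
      rw [← h]; exact (le_max_right _ _).trans (le_max_left _ _)
    have h3 : z.im / d ≤ 1 := by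
      rw [← h]; exact (le_max_left _ _).trans (le_max_right _ _)
    have h4 : z.im / c ≤ 1 := by
      rw [← h]; exact (le_max_right _ _).trans (le_max_right _ _)
    refine ⟨⟨e2.1 h2, e1.1 h1, e4.1 h4, e3.1 h3⟩, ?_⟩
    have h5 : 1 ≤ PK_m a b c d z := h.ge
    rw [PK_m, le_max_iff, le_max_iff, le_max_iff] at h5
    rcases h5 with (h6 | h6) | (h6 | h6)
    · exact Or.inr (Or.inl (f1.1 (le_antisymm h1 h6)))
    · exact Or.inl (f2.1 (le_antisymm h2 h6))
    · exact Or.inr (Or.inr (Or.inr (f3.1 (le_antisymm h3 h6))))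
    · exact Or.inr (Or.inr (Or.inl (f4.1 (le_antisymm h4 h6))))

theorem bd_not_sub {W : Set ℂ} (hL : AllLogs W) (h0 : (0:ℂ) ∉ W) {a b c d : ℝ} (ha : a < 0)
    (hb : 0 < b) (hc : c < 0) (hd : 0 < d) : ¬ Bd a b c d ⊆ W := by
  intro hsub
  obtain ⟨L, hLc, hLe⟩ := hL (fun z => z) continuousOn_id (fun z hz h => h0 (h ▸ hz))
  have hne : ∀ z ∈ sphere (0:ℂ) 1, z ≠ 0 := by
    intro z hz h
    rw [h, mem_sphere_zero_iff_norm, norm_zero] at hz
    norm_num at hz
  have hpos : ∀ z ∈ sphere (0:ℂ) 1, 0 < (PK_m a b c d z)⁻¹ := fun z hz =>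
    inv_pos.2 (PK_m_pos ha hb hc hd (hne z hz))
  have hmem : ∀ z ∈ sphere (0:ℂ) 1, (((PK_m a b c d z)⁻¹ : ℝ) : ℂ) * z ∈ Bd a b c d := by
    intro z hz
    rw [PK_Bd ha hb hc hd, PK_m_smul (hpos z hz).le]
    exact inv_mul_cancel₀ (PK_m_pos ha hb hc hd (hne z hz)).ne'
  have hcont : ContinuousOn (fun z : ℂ => (((PK_m a b c d z)⁻¹ : ℝ) : ℂ) * z) (sphere 0 1) := by
    refine ContinuousOn.mul ?_ continuousOn_id
    refine Complex.continuous_ofReal.comp_continuousOn ?_
    exact (PK_m_cont a b c d).continuousOn.inv₀ fun z hz => (PK_m_pos ha hb hc hd (hne z hz)).ne'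
  have hw0 : HasWind (fun z : ℂ => (((PK_m a b c d z)⁻¹ : ℝ) : ℂ) * z) 0 1 0 := by
    refine ⟨fun z => L ((((PK_m a b c d z)⁻¹ : ℝ) : ℂ) * z), ?_, ?_⟩
    · exact hLc.comp hcont fun z hz => hsub (hmem z hz)
    · intro z hz
      rw [zpow_zero, one_mul]
      exact hLe _ (hsub (hmem z hz))
  have hw1 : HasWind (fun z : ℂ => (((PK_m a b c d z)⁻¹ : ℝ) : ℂ) * z) 0 1 1 := by
    refine hasWind_of_ratio (g := fun z => z - 0) hcont (by fun_prop) ?_ ?_ (hasWind_id 0 1)
    · intro z hz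
      rw [sub_zero]
      exact hne z hz
    · intro z hz
      simp only [sub_zero]
      rw [mul_div_assoc, div_self (hne z hz), mul_one]
      exact Complex.ofReal_mem_slitPlane.2 (hpos z hz)
  exact absurd (hasWind_unique one_pos hw0 hw1) (by norm_num)

private theorem PK_disc : DiscreteTopology (range ((↑) : ℤ → ℝ)) :=
  (Int.isClosedEmbedding_coe_real.isEmbedding.toHomeomorph).symm.isEmbedding.discreteTopology

theorem arg_var {W : Set ℂ} (hL : AllLogs W) (h0 : (0:ℂ) ∉ W) {Θ : ℂ → ℂ} (hΘ : ContinuousOn Θ W)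
    (hexp : ∀ z ∈ W, Complex.exp (Θ z) = z) {a b c d : ℝ} (ha : a < 0)
    (hb : 0 < b) (hc : c < 0) (hd : 0 < d) {A : Set ℂ} (hA : IsPreconnected A)
    (hAB : A ⊆ Bd a b c d ∩ W) : ∀ z ∈ A, ∀ w ∈ A, |(Θ z).im - (Θ w).im| < 2 * Real.pi := by
  obtain ⟨z₀, hz₀, hz₀W⟩ := Set.not_subset.1 (bd_not_sub hL h0 ha hb hc hd)
  have hz₀m : PK_m a b c d z₀ = 1 := (PK_Bd ha hb hc hd).1 hz₀
  have hz₀0 : z₀ ≠ 0 := by
    rintro rfl
    have : PK_m a b c d 0 = 0 := by simp [PK_m]
    rw [this] at hz₀m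
    norm_num at hz₀m
  have hslit : ∀ z ∈ A, -z / z₀ ∈ Complex.slitPlane := by
    intro z hz
    have hzm : PK_m a b c d z = 1 := (PK_Bd ha hb hc hd).1 (hAB hz).1
    have hzW : z ∈ W := (hAB hz).2
    by_contra hcon
    rw [Complex.mem_slitPlane_iff, not_or, not_lt, not_not] at hcon
    obtain ⟨h1, h2⟩ := hcon
    set t : ℝ := -(-z / z₀).re with ht
    have ht0 : 0 ≤ t := by rw [ht]; linarith
    have h3 : (-z / z₀) = ((-t : ℝ) : ℂ) := by
      apply Complex.ext
      · rw [Complex.ofReal_re, ht, neg_neg]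
      · rw [Complex.ofReal_im, h2]
    have h4 : z = (t : ℂ) * z₀ := by
      have h5 : -z = ((-t : ℝ) : ℂ) * z₀ := by
        rw [← h3, div_mul_cancel₀ _ hz₀0]
      push_cast at h5
      linear_combination -h5
    rw [h4, PK_m_smul ht0, hz₀m, mul_one] at hzm
    rw [hzm, Complex.ofReal_one, one_mul] at h4
    rw [h4] at hzW
    exact hz₀W hzW
  have hgc : ContinuousOn (fun z => Θ z - Complex.log (-z / z₀)) A := by
    refine (hΘ.mono fun z hz => (hAB hz).2).sub ?_
    refine ContinuousOn.clog ?_ hslit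
    exact (continuous_neg.div_const _).continuousOn
  have hge : ∀ z ∈ A, Complex.exp (Θ z - Complex.log (-z / z₀)) = -z₀ := by
    intro z hz
    have hz0 : z ≠ 0 := fun h => h0 (h ▸ (hAB hz).2)
    rw [Complex.exp_sub, hexp z (hAB hz).2, Complex.exp_log (Complex.slitPlane_ne_zero (hslit z hz))]
    field_simp
  intro z hz w hw
  have hconst : ∀ x ∈ A, ∃ n : ℤ, ((Θ x - Complex.log (-x / z₀)) - (Θ w - Complex.log (-w / z₀))) =
      n * (2 * Real.pi * Complex.I) := by
    intro x hx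
    apply Complex.exp_eq_one_iff.1
    rw [Complex.exp_sub, hge x hx, hge w hw]
    exact div_self (neg_ne_zero.2 hz₀0)
  set q : ℂ → ℝ := fun x =>
    ((Θ x - Complex.log (-x / z₀)) - (Θ w - Complex.log (-w / z₀))).im / (2 * Real.pi) with hq
  have hqc : ContinuousOn q A :=
    (Complex.continuous_im.comp_continuousOn (hgc.sub continuousOn_const)).div_const _
  have hqm : MapsTo q A (range ((↑) : ℤ → ℝ)) := by
    intro x hx
    obtain ⟨n, hn⟩ := hconst x hx
    refine ⟨n, ?_⟩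
    rw [hq]
    simp only
    rw [hn]
    have h1 : ((n : ℂ) * (2 * Real.pi * Complex.I)).im = n * (2 * Real.pi) := by
      simp
    rw [h1]
    have := Real.pi_pos
    field_simp
  have hdisc : IsDiscrete (range ((↑) : ℤ → ℝ)) := ⟨PK_disc⟩
  have h1 : q z = q w := hA.constant_of_mapsTo hdisc hqc hqm hz hw
  have h2 : q w = 0 := by simp [hq]
  rw [h2, hq] at h1
  simp only at h1
  have hpi := Real.pi_pos
  rw [div_eq_zero_iff] at h1
  have h3 := h1.resolve_right (by positivity)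
  simp only [Complex.sub_im, Complex.log_im] at h3
  have h4 := Complex.mem_slitPlane_iff_arg.1 (hslit z hz)
  have h5 := Complex.mem_slitPlane_iff_arg.1 (hslit w hw)
  have h6 := Complex.arg_mem_Ioc (-z / z₀)
  have h7 := Complex.arg_mem_Ioc (-w / z₀)
  have h8 : (-z / z₀).arg < Real.pi := lt_of_le_of_ne h6.2 h4.1
  have h9 : (-w / z₀).arg < Real.pi := lt_of_le_of_ne h7.2 h5.1
  rw [abs_lt]
  constructor
  · linarith [h6.1]
  · linarith [h7.1]

end DS
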