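import Pool.Agent.H36.DS.PD
import Pool.Agent.H36.DS.PG
import Pool.Agent.H36.DS.PK

/-!
EA (no fixed prime end with an elliptic principal point).  Proof.  `W` has a continuous logarithm
`Θ : W → ℂ`, `exp (Θ z) = z` (`fix_logs`, `0 ∉ W`).  Write `ω = exp (i α)`, `0 < α < 2π`, and `β₀ = min α (2π - α)`.  Choose
`k ≥ 1` with `k β₀ > 2 * (2π + 1)`, and `η` with `0 < η < β₀ / 2`, `η < 1/4`, `k η < 1`.
There is `ρ > 0` such that for `z ∈ W`, `‖z‖ < ρ`: `‖G z‖ ≤ 2 ‖z‖`, and `D z = (Θ (G z) - Θ z).im` is within `η` of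
`α + 2π m` for an integer `m = m z` (unique), because `exp (Θ (G z) - Θ z) = G z / z` is close to `ω`.
`D` is continuous on `W`, so `m` is constant on connected subsets of `W ∩ ball 0 ρ`.
Take a square `Rect (-s) s (-s) s` so small that `2 ^ (k+1) * 2 s < ρ`, that it is contained in the balls `closedBall 0 r₁` of
`area_meet` for the systems of `h 1` and `h k`, and that it does not contain `φ 0`.  By `exists_sep` there is `w`
with `Sep (A)`, `A = cc W (-s) s (-s) s w`, and `A ∩ G '' A` and `A ∩ G^[k] '' A` are nonempty (`Sep` only depends on `W, φ, ζ`; on `W` the map `Gj` of `h j` is `G^[j]`).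
For `0 ≤ i ≤ k` the set `G^[i] '' A` is connected, contained in `W ∩ ball 0 ρ`, and meets the previous one
(`G^[i] '' (A ∩ G '' A) ≠ ∅`), so `m` has the same value on all of them; put `β = α + 2π m`, `|β| ≥ β₀`.
For `z ∈ A`: `(Θ (G^[k] z) - Θ z).im = ∑_{i<k} D (G^[i] z)` is within `k η < 1` of `k β`, of modulus `> 2π + 1`.
For `z ∈ A` with `G^[k] z ∈ A` this contradicts `arg_var` (`|...| < 2π`).
-/

namespace DS
open Metric Set Filter Topology MeasureTheory

/-- a continuous function with values in `c + 2πℤ` is constant on a preconnected set -/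
private lemma EA_const {T : Set ℂ} (hT : IsPreconnected T) {g : ℂ → ℝ} (hg : ContinuousOn g T)
    {c : ℝ} (hi : ∀ z ∈ T, ∃ n : ℤ, g z = c + 2 * Real.pi * n) {z w : ℂ} (hz : z ∈ T)
    (hw : w ∈ T) : g z = g w := by
  have hpi := Real.pi_pos
  have key : ∀ z ∈ T, ∀ w ∈ T, ¬ g z < g w := by
    intro z hz w hw hlt
    have hord : (g '' T).OrdConnected := (hT.image g hg).ordConnected
    obtain ⟨n, hn⟩ := hi z hz
    obtain ⟨m, hm⟩ := hi w hw
    have hnm : n < m := by
      have h1 : 2 * Real.pi * (n : ℝ) < 2 * Real.pi * m := by linarith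
      have h2 : (n : ℝ) < m := lt_of_mul_lt_mul_left h1 (by positivity)
      exact_mod_cast h2
    have hnm' : (n : ℝ) + 1 ≤ m := by exact_mod_cast hnm
    have h3 : g z + Real.pi ∈ Icc (g z) (g w) := by
      constructor
      · linarith
      · rw [hn, hm]; nlinarith
    obtain ⟨v, hv, hv2⟩ := hord.out ⟨z, hz, rfl⟩ ⟨w, hw, rfl⟩ h3
    obtain ⟨l, hl⟩ := hi v hv
    rw [hl, hn] at hv2
    have h4 : 2 * Real.pi * ((l : ℝ) - n - 1 / 2) = 0 := by linarith
    have h5 : (l : ℝ) - n - 1 / 2 = 0 := by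
      rcases mul_eq_zero.1 h4 with h | h
      · linarith
      · exact h
    have h6 : (2 * (l - n) : ℤ) = 1 := by
      have : (2 : ℝ) * (l - n) = 1 := by linarith
      exact_mod_cast this
    omega
  rcases lt_trichotomy (g z) (g w) with h | h | h
  · exact absurd h (key z hz w hw)
  · exact h
  · exact absurd h (key w hw z hz)

private lemma EA_rect {s : ℝ} {z : ℂ} (hz : z ∈ Rect (-s) s (-s) s) : ‖z‖ ≤ 2 * s := by
  obtain ⟨h1, h2, h3, h4⟩ := hz
  have h5 : |z.re| ≤ s := abs_le.2 ⟨h1, h2⟩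
  have h6 : |z.im| ≤ s := abs_le.2 ⟨h3, h4⟩
  have := Complex.norm_le_abs_re_add_abs_im z
  linarith

theorem elliptic_false {W : Set ℂ} {φ u G : ℂ → ℂ} {ζ : ℂ}
    (h : ∀ j : ℕ, 0 < j → ∃ (Gj Gij : ℂ → ℂ) (μ : Measure ℂ) (r : ℝ),
      FixPE W φ u Gj Gij μ ζ r ∧ ∀ w ∈ W, Gj w = G^[j] w)
    {ω : ℂ} (hω : ‖ω‖ = 1) (hω1 : ω ≠ 1) (hG : Tendsto (fun z => G z / z) (𝓝[W] 0) (𝓝 ω)) :
    False := by
  have hpi := Real.pi_pos
  obtain ⟨G1, Gi1, μ1, r1, H1, hG1⟩ := h 1 one_pos
  have hG1' : ∀ w ∈ W, G1 w = G w := fun w hw => by rw [hG1 w hw]; rfl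
  have hGc : ContinuousOn G W := H1.G_cont.congr fun w hw => (hG1' w hw).symm
  have hGm : MapsTo G W W := fun w hw => by rw [← hG1' w hw]; exact H1.G_maps hw
  have hL : AllLogs W := fix_logs H1
  have h0W : (0 : ℂ) ∉ W := H1.zero_notin
  have hne : ∀ z ∈ W, z ≠ 0 := fun z hz hz0 => h0W (hz0 ▸ hz)
  obtain ⟨Θ, hΘc, hΘ⟩ := hL (fun z => z) continuousOn_id hne
  have hexp : ∀ z ∈ W, Complex.exp (Θ z) = z := fun z hz => (hΘ z hz).symm
  have hω0 : ω ≠ 0 := by
    intro h0; rw [h0] at hω; simp at hω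
  -- the argument of `ω`
  have hβ : 0 < |ω.arg| := by
    rw [abs_pos]
    intro h0
    apply hω1
    have := Complex.norm_mul_exp_arg_mul_I ω
    rw [hω, h0] at this
    simpa using this.symm
  set β := |ω.arg| with hβdef
  obtain ⟨k, hk⟩ := exists_nat_gt ((2 * Real.pi + 1) / β)
  rw [div_lt_iff₀ hβ] at hk
  have hk0 : 0 < k := by
    rcases Nat.eq_zero_or_pos k with h0 | h0
    · rw [h0] at hk
      simp at hk
      linarith
    · exact h0
  obtain ⟨Gk, Gik, μk, rk, Hk, hGk⟩ := h k hk0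
  set η : ℝ := 1 / (k + 1) with hη
  have hη0 : 0 < η := by positivity
  have hkη : (k : ℝ) * η < 1 := by
    rw [hη, mul_one_div, div_lt_one (by positivity)]
    linarith
  -- `q z = G z / z / ω` is close to `1`
  set q : ℂ → ℂ := fun z => G z / z / ω with hq
  have hqlim : Tendsto q (𝓝[W] 0) (𝓝 1) := by
    have := hG.div_const ω
    rwa [div_self hω0] at this
  have hev1 : ∀ᶠ z in 𝓝[W] 0, q z ∈ Complex.slitPlane :=
    hqlim.eventually (Complex.isOpen_slitPlane.mem_nhds Complex.one_mem_slitPlane)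
  have hev2 : ∀ᶠ z in 𝓝[W] 0, |(q z).arg| < η := by
    have h1 : Tendsto (fun z => (q z).arg) (𝓝[W] 0) (𝓝 0) := by
      have := (Complex.continuousAt_arg Complex.one_mem_slitPlane).tendsto.comp hqlim
      rwa [Complex.arg_one] at this
    have h2 := h1.eventually (Metric.ball_mem_nhds 0 hη0)
    filter_upwards [h2] with z hz
    simpa [Real.dist_eq] using hz
  have hev3 : ∀ᶠ z in 𝓝[W] 0, ‖G z / z‖ < 2 := by
    have h1 := hG.norm
    rw [hω] at h1
    exact h1.eventually (gt_mem_nhds one_lt_two)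
  have hev := (hev1.and (hev2.and hev3))
  rw [eventually_nhdsWithin_iff, Metric.eventually_nhds_iff] at hev
  obtain ⟨ρ, hρ, hρ2⟩ := hev
  have hS1 : ∀ z ∈ W, ‖z‖ < ρ → q z ∈ Complex.slitPlane := fun z hz hz2 =>
    (hρ2 (by simpa using hz2) hz).1
  have hS2 : ∀ z ∈ W, ‖z‖ < ρ → |(q z).arg| < η := fun z hz hz2 =>
    (hρ2 (by simpa using hz2) hz).2.1
  have hS3 : ∀ z ∈ W, ‖z‖ < ρ → ‖G z‖ ≤ 2 * ‖z‖ := by
    intro z hz hz2
    have h1 := (hρ2 (by simpa using hz2) hz).2.2
    rw [norm_div, div_lt_iff₀ (norm_pos_iff.2 (hne z hz))] at h1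
    exact h1.le
  -- the function `e`
  set e : ℂ → ℝ := fun z => (Θ (G z)).im - (Θ z).im - (q z).arg with he
  have hec : ContinuousOn e (W ∩ ball 0 ρ) := by
    have h1 : ContinuousOn (fun z => Θ (G z)) (W ∩ ball 0 ρ) :=
      (hΘc.comp hGc hGm).mono inter_subset_left
    have h2 : ContinuousOn q (W ∩ ball 0 ρ) := by
      refine ContinuousOn.div_const ?_ _
      exact (hGc.mono inter_subset_left).div continuousOn_id fun z hz => hne z hz.1
    have h3 : ContinuousOn (fun z => (q z).arg) (W ∩ ball 0 ρ) := by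
      intro z hz
      have h4 : q z ∈ Complex.slitPlane := hS1 z hz.1 (by simpa using hz.2)
      exact (Complex.continuousAt_arg h4).comp_continuousWithinAt (h2 z hz)
    exact ((Complex.continuous_im.comp_continuousOn h1).sub
      (Complex.continuous_im.comp_continuousOn (hΘc.mono inter_subset_left))).sub h3
  have hei : ∀ z ∈ W ∩ ball 0 ρ, ∃ n : ℤ, e z = ω.arg + 2 * Real.pi * n := by
    rintro z ⟨hz, -⟩
    have hz0 := hne z hz
    have hGz0 := hne _ (hGm hz)
    have hqz0 : q z ≠ 0 := div_ne_zero (div_ne_zero hGz0 hz0) hω0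
    have h1 : Complex.exp (Θ (G z) - Θ z - Complex.log (q z) - Complex.log ω) = 1 := by
      rw [Complex.exp_sub, Complex.exp_sub, Complex.exp_sub, hexp _ (hGm hz), hexp z hz,
        Complex.exp_log hqz0, Complex.exp_log hω0, hq]
      field_simp
    obtain ⟨n, hn⟩ := Complex.exp_eq_one_iff.1 h1
    refine ⟨n, ?_⟩
    have h2 := congrArg Complex.im hn
    simp only [Complex.sub_im, Complex.log_im] at h2
    have h3 : ((n : ℂ) * (2 * Real.pi * Complex.I)).im = 2 * Real.pi * n := by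
      simp
      ring
    rw [h3] at h2
    simp only [he]
    linarith
  have hlow : ∀ x : ℝ, (∃ n : ℤ, x = ω.arg + 2 * Real.pi * n) → β ≤ |x| := by
    rintro x ⟨n, hn⟩
    by_cases hn0 : n = 0
    · rw [hn, hn0]; simp [hβdef]
    · have h1 : (1 : ℝ) ≤ |(n : ℝ)| := by
        have := Int.one_le_abs hn0
        exact_mod_cast this
      have h2 := Complex.abs_arg_le_pi ω
      have h3 : |2 * Real.pi * (n : ℝ)| ≤ |x| + |ω.arg| := by
        have : 2 * Real.pi * (n : ℝ) = x - ω.arg := by rw [hn]; ring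
        rw [this]
        exact abs_sub _ _
      rw [abs_mul, abs_of_pos (by positivity : (0:ℝ) < 2 * Real.pi)] at h3
      have h4 : 2 * Real.pi * 1 ≤ 2 * Real.pi * |(n : ℝ)| :=
        mul_le_mul_of_nonneg_left h1 (by positivity)
      rw [hβdef]
      linarith
  -- the square
  obtain ⟨ra, hra, harea1⟩ := area_meet H1
  obtain ⟨rb, hrb, hareak⟩ := area_meet Hk
  have hφ0 : φ 0 ∈ W := H1.φ_maps (by simp)
  have hφ0' : 0 < ‖φ 0‖ := norm_pos_iff.2 (hne _ hφ0)
  obtain ⟨s, hs, hs1, hs2, hs3, hs4⟩ : ∃ s : ℝ, 0 < s ∧ 2 ^ (k + 1) * (2 * s) < ρ ∧ 2 * s ≤ ra ∧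
      2 * s ≤ rb ∧ 2 * s < ‖φ 0‖ := by
    set M := min (min (ρ / (2 * 2 ^ (k + 1))) ra) (min rb ‖φ 0‖) with hM
    have hM0 : 0 < M := by
      rw [hM]
      exact lt_min (lt_min (by positivity) hra) (lt_min hrb hφ0')
    have hM1 : M ≤ ρ / (2 * 2 ^ (k + 1)) := (min_le_left _ _).trans (min_le_left _ _)
    have hM2 : M ≤ ra := (min_le_left _ _).trans (min_le_right _ _)
    have hM3 : M ≤ rb := (min_le_right _ _).trans (min_le_left _ _)
    have hM4 : M ≤ ‖φ 0‖ := (min_le_right _ _).trans (min_le_right _ _)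
    refine ⟨M / 4, by positivity, ?_, by linarith, by linarith, by linarith⟩
    rw [le_div_iff₀ (by positivity)] at hM1
    nlinarith [pow_pos (two_pos : (0:ℝ) < 2) (k + 1)]
  have hφ0R : φ 0 ∉ Rect (-s) s (-s) s := fun hcon => by
    have := EA_rect hcon
    linarith
  obtain ⟨w, hw, hsep⟩ := exists_sep H1 (neg_lt_zero.2 hs) hs (neg_lt_zero.2 hs) hs hφ0R
  set A := cc W (-s) s (-s) s w with hA
  have hApre : IsPreconnected A := isPreconnected_connectedComponentIn
  have hAsub : A ⊆ Bd (-s) s (-s) s ∩ W := connectedComponentIn_subset _ _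
  have hAW : A ⊆ W := fun z hz => (hAsub hz).2
  have hAn : ∀ z ∈ A, ‖z‖ ≤ 2 * s := fun z hz => EA_rect (hAsub hz).1.1
  have hsub1 : Rect (-s) s (-s) s ⊆ closedBall 0 ra := fun z hz => by
    rw [mem_closedBall_zero_iff]
    exact (EA_rect hz).trans hs2
  have hsub2 : Rect (-s) s (-s) s ⊆ closedBall 0 rb := fun z hz => by
    rw [mem_closedBall_zero_iff]
    exact (EA_rect hz).trans hs3
  have hss : -s < s := by linarith
  obtain ⟨y, hyA, x, hxA, hxy⟩ := harea1 _ _ _ _ hss hss hsub1 w hw hsep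
  obtain ⟨y', hyA', x', hxA', hxy'⟩ := hareak _ _ _ _ hss hss hsub2 w hw hsep
  rw [hG1' x (hAW hxA)] at hxy
  rw [hGk x' (hAW hxA')] at hxy'
  -- iterates
  have hitm : ∀ i : ℕ, MapsTo (G^[i]) W W := fun i => hGm.iterate i
  have hitc : ∀ i : ℕ, ContinuousOn (G^[i]) W := by
    intro i
    induction i with
    | zero => exact continuousOn_id
    | succ i ih =>
      rw [Function.iterate_succ']
      exact hGc.comp ih (hitm i)
  have hitn : ∀ i : ℕ, i ≤ k → ∀ z ∈ A, ‖G^[i] z‖ ≤ 2 ^ i * (2 * s) := by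
    intro i
    induction i with
    | zero => intro _ z hz; simpa using hAn z hz
    | succ i ih =>
      intro hi z hz
      have h1 := ih (by omega) z hz
      have h2 : (2:ℝ) ^ i * (2 * s) ≤ 2 ^ (k + 1) * (2 * s) :=
        mul_le_mul_of_nonneg_right (pow_le_pow_right₀ one_le_two (by omega)) (by positivity)
      rw [Function.iterate_succ_apply']
      have h3 := hS3 _ (hitm i (hAW hz)) (by linarith)
      calc ‖G (G^[i] z)‖ ≤ 2 * ‖G^[i] z‖ := h3
        _ ≤ 2 * (2 ^ i * (2 * s)) := by linarith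
        _ = 2 ^ (i + 1) * (2 * s) := by ring
  have hitS : ∀ i : ℕ, i ≤ k → ∀ z ∈ A, G^[i] z ∈ W ∩ ball 0 ρ := by
    intro i hi z hz
    refine ⟨hitm i (hAW hz), ?_⟩
    rw [mem_ball_zero_iff]
    have h2 : (2:ℝ) ^ i * (2 * s) ≤ 2 ^ (k + 1) * (2 * s) :=
      mul_le_mul_of_nonneg_right (pow_le_pow_right₀ one_le_two (by omega)) (by positivity)
    have := hitn i hi z hz
    linarith
  have hcst : ∀ i : ℕ, i ≤ k → ∀ z ∈ A, ∀ z' ∈ A, e (G^[i] z) = e (G^[i] z') := by
    intro i hi z hz z' hz'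
    have hpre : IsPreconnected (G^[i] '' A) := hApre.image _ ((hitc i).mono hAW)
    have hsub : G^[i] '' A ⊆ W ∩ ball 0 ρ := by
      rintro _ ⟨v, hv, rfl⟩
      exact hitS i hi v hv
    exact EA_const hpre (hec.mono hsub) (fun v hv => hei v (hsub hv)) ⟨z, hz, rfl⟩ ⟨z', hz', rfl⟩
  have hall : ∀ i : ℕ, i ≤ k → ∀ z ∈ A, e (G^[i] z) = e x := by
    intro i
    induction i with
    | zero => intro hi z hz; exact hcst 0 hi z hz x hxA
    | succ i ih =>
      intro hi z hz
      rw [hcst (i + 1) hi z hz x hxA, Function.iterate_succ_apply, hxy]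
      exact ih (by omega) y hyA
  -- the total variation
  have hsum : (Θ (G^[k] x')).im - (Θ x').im = ∑ i ∈ Finset.range k,
      (e x + (q (G^[i] x')).arg) := by
    have h1 := Finset.sum_range_sub (fun i => (Θ (G^[i] x')).im) k
    simp only [Function.iterate_zero, id_eq] at h1
    rw [← h1]
    refine Finset.sum_congr rfl fun i hi => ?_
    have hik : i ≤ k := (Finset.mem_range.1 hi).le
    rw [← hall i hik x' hxA', Function.iterate_succ_apply']
    simp only [he]
    ring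
  rw [Finset.sum_add_distrib, Finset.sum_const, Finset.card_range, nsmul_eq_mul] at hsum
  have hsmall : |∑ i ∈ Finset.range k, (q (G^[i] x')).arg| ≤ k * η := by
    refine (Finset.abs_sum_le_sum_abs _ _).trans ?_
    calc ∑ i ∈ Finset.range k, |(q (G^[i] x')).arg| ≤ ∑ _i ∈ Finset.range k, η := by
          refine Finset.sum_le_sum fun i hi => ?_
          have hik : i ≤ k := (Finset.mem_range.1 hi).le
          have h1 := hitS i hik x' hxA'
          exact (hS2 _ h1.1 (by simpa using h1.2)).le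
      _ = k * η := by rw [Finset.sum_const, Finset.card_range, nsmul_eq_mul]
  have hbig : (k : ℝ) * β ≤ |(k : ℝ) * e x| := by
    rw [abs_mul, Nat.abs_cast]
    exact mul_le_mul_of_nonneg_left
      (hlow _ (hei x (by simpa using hitS 0 (Nat.zero_le _) x hxA))) (Nat.cast_nonneg _)
  have hvar := arg_var hL h0W hΘc hexp (neg_lt_zero.2 hs) hs (neg_lt_zero.2 hs) hs hApre hAsub
    y' hyA' x' hxA'
  rw [← hxy', hsum] at hvar
  have h7 : |(k : ℝ) * e x| ≤ |(k : ℝ) * e x + ∑ i ∈ Finset.range k, (q (G^[i] x')).arg| +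
      |∑ i ∈ Finset.range k, (q (G^[i] x')).arg| := by
    have := abs_sub ((k : ℝ) * e x + ∑ i ∈ Finset.range k, (q (G^[i] x')).arg)
      (∑ i ∈ Finset.range k, (q (G^[i] x')).arg)
    rwa [add_sub_cancel_right] at this
  linarith

end DS
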