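import Pool.Agent.H36.DS.PBase

/-!
XD (passing to a chart).  Proof.  `μ = Measure.comap κ ν`: `κ` is a homeomorphism onto the open set `{P'}ᶜ`
(inverse `χ`), so it is a measurable embedding and `μ B = ν (κ '' B)` for measurable `B`.  `Kᶜ ⊆ {P'}ᶜ`.
`G = χ ∘ g ∘ κ` maps `W = κ ⁻¹' Kᶜ` to itself (`g` is a bijection with `g '' K = K`, and `κ (χ x) = x` for `x ∉ K`).
`μ_inv`: `κ '' (G '' B) = g '' (κ '' B)`, measurable because `gi` is continuous (a homeomorphism).
`μ_pos`: `κ '' O = {P'}ᶜ ∩ χ ⁻¹' O` is open.  `μ_small`: the sets `φ '' (ball 0 1 ∩ ball ζ ρ)` are open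
(`Kᶜ ∩ u ⁻¹' _`), decrease to the empty set for `ρ → 0`, the first one has finite measure (`hfin`); their preimages under `κ` are the sets
`χ ∘ φ '' _`.
`L0`: `κ` is uniformly continuous on the compact `closedBall 0 r₀`; for connected `γ ⊆ W ∩ closedBall 0 r₀` of small
diameter `κ '' γ ⊆ Kᶜ` is connected of small diameter and `u '' (κ '' γ)` is a connected subset of the disc whose image under `φ`
is `κ '' γ`: apply `H.L0`.
`L1`: from `hPr`, because `χ` is continuous at `P = κ 0 ≠ P'` and `χ P = 0`.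
`fixζ`: for `z` in the disc `u (κ (χ (g (κ (χ (φ z)))))) = u (g (φ z))`.
-/

namespace DS
open Metric Set Filter Topology MeasureTheory

theorem fixPE_of {X : Type*} [MetricSpace X] [MeasurableSpace X] [BorelSpace X]
    {K : Set X} (hK : IsClosed K) {φ : ℂ → X} {u : X → ℂ} (H : DiscMap K φ u) {g gi : X → X}
    (hg : Continuous g) (hgi : Continuous gi) (hggi : ∀ x, g (gi x) = x)
    (hgig : ∀ x, gi (g x) = x) (hgK : g '' K = K) (ν : Measure X)
    (hν : ∀ B ⊆ Kᶜ, MeasurableSet B → ν (g '' B) = ν B)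
    (hpos : ∀ O ⊆ Kᶜ, IsOpen O → O.Nonempty → 0 < ν O)
    {P P' : X} {χ : X → ℂ} {κ : ℂ → X} (hχ : PChart K P P' χ κ) (hP : P ∈ K) {ζ : ℂ}
    (hζ : ‖ζ‖ = 1) (hfin : ∃ ρ > 0, ν (φ '' (ball 0 1 ∩ ball ζ ρ)) < ⊤)
    (hfix : Tendsto (fun z => u (g (φ z))) (𝓝[ball 0 1] ζ) (𝓝 ζ))
    (hPr : Principal φ ζ P) {r₀ : ℝ} (hr₀ : 0 < r₀) :
    ∃ μ : Measure ℂ, FixPE (κ ⁻¹' Kᶜ) (fun z => χ (φ z)) (fun w => u (κ w))
      (fun w => χ (g (κ w))) (fun w => χ (gi (κ w))) μ ζ r₀ := by
  have hoP : IsOpen ({P'}ᶜ : Set X) := isClosed_singleton.isOpen_compl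
  have hKc : ∀ x, x ∉ K → x ≠ P' := fun x hx h => hx (h ▸ hχ.hP')
  have hinj : Function.Injective κ := fun a b h => by
    have := congrArg χ h
    rwa [hχ.χκ, hχ.χκ] at this
  have himg : ∀ O : Set ℂ, κ '' O = {P'}ᶜ ∩ χ ⁻¹' O := by
    intro O
    ext x
    constructor
    · rintro ⟨w, hw, rfl⟩
      exact ⟨hχ.κ_ne w, by simpa [hχ.χκ] using hw⟩
    · rintro ⟨h1, h2⟩
      exact ⟨χ x, h2, hχ.κχ x h1⟩
  have hopen : ∀ O : Set ℂ, IsOpen O → IsOpen (κ '' O) := by
    intro O hO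
    rw [himg O]
    exact hχ.χ_cont.isOpen_inter_preimage hoP hO
  have hemb : IsOpenEmbedding κ :=
    IsOpenEmbedding.of_continuous_injective_isOpenMap hχ.κ_cont hinj hopen
  have hme : MeasurableEmbedding κ := hemb.measurableEmbedding
  have hgc : ∀ x, x ∉ K → g x ∉ K := by
    intro x hx h
    rw [← hgK] at h
    obtain ⟨y, hy, hyx⟩ := h
    have := congrArg gi hyx
    rw [hgig, hgig] at this
    exact hx (this ▸ hy)
  have hgic : ∀ x, x ∉ K → gi x ∉ K := by
    intro x hx h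
    apply hx
    rw [← hgK]
    exact ⟨gi x, h, hggi x⟩
  have hκχ : ∀ x, x ∉ K → κ (χ x) = x := fun x hx => hχ.κχ x (hKc x hx)
  have hφm : ∀ z ∈ ball (0:ℂ) 1, φ z ∉ K := fun z hz => H.φ_maps hz
  have hPP : P ≠ P' := by
    intro h
    exact hχ.κ_ne 0 (hχ.κ0.trans h)
  have hχP : χ P = 0 := by
    rw [← hχ.κ0]
    exact hχ.χκ 0
  refine ⟨Measure.comap κ ν, ?_⟩
  have hcu : ContinuousOn χ Kᶜ := hχ.χ_cont.mono (fun x hx => hKc x hx)
  refine
    { hr₀ := hr₀
      hζ := hζ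
      W_open := hK.isOpen_compl.preimage hχ.κ_cont
      zero_notin := ?_
      φ_cont := hcu.comp H.φ_cont H.φ_maps
      φ_maps := ?_
      u_cont := H.u_cont.comp hχ.κ_cont.continuousOn (fun w hw => hw)
      u_maps := fun w hw => H.u_maps hw
      uφ := ?_
      φu := ?_
      G_cont := ?_
      G_maps := ?_
      Gi_cont := ?_
      Gi_maps := ?_
      GiG := ?_
      GGi := ?_
      fixζ := ?_
      μ_inv := ?_
      μ_pos := ?_
      μ_small := ?_
      L0 := ?_
      L1 := ?_ }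
  · intro h
    apply h
    rw [hχ.κ0]
    exact hP
  · intro z hz
    show κ (χ (φ z)) ∉ K
    rw [hκχ _ (hφm z hz)]
    exact hφm z hz
  · intro z hz
    show u (κ (χ (φ z))) = z
    rw [hκχ _ (hφm z hz)]
    exact H.uφ z hz
  · intro w hw
    show χ (φ (u (κ w))) = w
    rw [H.φu _ hw]
    exact hχ.χκ w
  · exact hcu.comp (hg.comp hχ.κ_cont).continuousOn (fun w hw => hgc _ hw)
  · intro w hw
    show κ (χ (g (κ w))) ∉ K
    rw [hκχ _ (hgc _ hw)]
    exact hgc _ hw
  · exact hcu.comp (hgi.comp hχ.κ_cont).continuousOn (fun w hw => hgic _ hw)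
  · intro w hw
    show κ (χ (gi (κ w))) ∉ K
    rw [hκχ _ (hgic _ hw)]
    exact hgic _ hw
  · intro w hw
    show χ (gi (κ (χ (g (κ w))))) = w
    rw [hκχ _ (hgc _ hw), hgig]
    exact hχ.χκ w
  · intro w hw
    show χ (g (κ (χ (gi (κ w))))) = w
    rw [hκχ _ (hgic _ hw), hggi]
    exact hχ.χκ w
  · refine Tendsto.congr' ?_ hfix
    filter_upwards [self_mem_nhdsWithin] with z hz
    rw [hκχ _ (hφm z hz), hκχ _ (hgc _ (hφm z hz))]
  · intro B hB hBm
    rw [hme.comap_apply, hme.comap_apply]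
    have h1 : κ '' ((fun w => χ (g (κ w))) '' B) = g '' (κ '' B) := by
      rw [image_image, image_image]
      apply image_congr
      intro w hw
      exact hκχ _ (hgc _ (hB hw))
    rw [h1]
    apply hν
    · rintro x ⟨w, hw, rfl⟩
      exact hB hw
    · exact hme.measurableSet_image.2 hBm
  · intro O hO hO1 hO2
    rw [hme.comap_apply]
    apply hpos
    · rintro x ⟨w, hw, rfl⟩
      exact hO hw
    · exact hopen O hO1
    · exact hO2.image κ
  · intro ε hε
    obtain ⟨ρ₀, hρ₀, hfin'⟩ := hfin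
    have hS : ∀ S ⊆ ball (0:ℂ) 1, φ '' S = Kᶜ ∩ u ⁻¹' S := by
      intro S hS
      ext x
      constructor
      · rintro ⟨z, hz, rfl⟩
        refine ⟨hφm z (hS hz), ?_⟩
        show u (φ z) ∈ S
        rw [H.uφ z (hS hz)]
        exact hz
      · rintro ⟨h1, h2⟩
        exact ⟨u x, h2, H.φu x h1⟩
    set s : ℕ → Set X := fun n => φ '' (ball 0 1 ∩ ball ζ (ρ₀ / (n + 1))) with hs
    have hsm : ∀ n, NullMeasurableSet (s n) ν := by
      intro n
      apply MeasurableSet.nullMeasurableSet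
      apply IsOpen.measurableSet
      show IsOpen (φ '' (ball 0 1 ∩ ball ζ (ρ₀ / (n + 1))))
      rw [hS _ inter_subset_left]
      exact H.u_cont.isOpen_inter_preimage hK.isOpen_compl (isOpen_ball.inter isOpen_ball)
    have hanti : Antitone s := by
      intro n m hnm
      apply image_mono
      apply inter_subset_inter_right
      apply ball_subset_ball
      apply div_le_div_of_nonneg_left hρ₀.le (by positivity)
      have : (n:ℝ) ≤ m := by exact_mod_cast hnm
      linarith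
    have hf0 : ∃ n, ν (s n) ≠ ⊤ := by
      refine ⟨0, ?_⟩
      simp only [hs, Nat.cast_zero, zero_add, div_one]
      exact hfin'.ne
    have hlim := tendsto_measure_iInter_atTop hsm hanti hf0
    have hempty : ⋂ n, s n = ∅ := by
      apply eq_empty_of_forall_notMem
      intro x hx
      rw [mem_iInter] at hx
      have hx0 := hx 0
      simp only [hs] at hx0
      obtain ⟨z, hz, rfl⟩ := hx0
      have hd : ∀ n : ℕ, dist z ζ < ρ₀ / (n + 1) := by
        intro n
        obtain ⟨w, hw, hwz⟩ := hx n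
        have : w = z := by
          rw [← H.uφ w hw.1, hwz, H.uφ z hz.1]
        rw [← this]
        exact hw.2
      have h0 : dist z ζ ≤ 0 := by
        have ht : Tendsto (fun n : ℕ => ρ₀ / ((n:ℝ) + 1)) atTop (𝓝 0) := by
          have h := (tendsto_one_div_add_atTop_nhds_zero_nat (𝕜 := ℝ)).const_mul ρ₀
          rw [mul_zero] at h
          refine h.congr (fun n => ?_)
          rw [mul_one_div]
        exact ge_of_tendsto' ht (fun n => (hd n).le)
      have hzζ : z = ζ := dist_le_zero.1 h0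
      have := hz.1
      rw [mem_ball_zero_iff, hzζ, hζ] at this
      exact lt_irrefl _ this
    rw [hempty, measure_empty] at hlim
    have hev := (tendsto_order.1 hlim).2 ε hε
    obtain ⟨n, hn⟩ := hev.exists
    refine ⟨ρ₀ / (n + 1), by positivity, ?_⟩
    rw [hme.comap_apply]
    have h1 : κ '' ((fun z => χ (φ z)) '' (ball 0 1 ∩ ball ζ (ρ₀ / (n + 1)))) =
        φ '' (ball 0 1 ∩ ball ζ (ρ₀ / (n + 1))) := by
      rw [image_image]
      apply image_congr
      intro z hz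
      exact hκχ _ (hφm z hz.1)
    rw [h1]
    exact hn
  · intro ε hε
    obtain ⟨δ₁, hδ₁, hL⟩ := H.L0 ε hε
    have hu := (isCompact_closedBall (0:ℂ) r₀).uniformContinuousOn_of_continuous
      hχ.κ_cont.continuousOn
    rw [Metric.uniformContinuousOn_iff] at hu
    obtain ⟨δ, hδ, hκu⟩ := hu δ₁ hδ₁
    refine ⟨δ, hδ, ?_⟩
    intro γ hγ hpc hdist z hz w hw
    have hγ' : ContinuousOn (fun w => u (κ w)) γ :=
      (H.u_cont.comp hχ.κ_cont.continuousOn (fun w hw => hw)).mono (fun w hw => (hγ hw).1)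
    refine hL ((fun w => u (κ w)) '' γ) ?_ (hpc.image _ hγ') ?_ _ ⟨z, hz, rfl⟩ _ ⟨w, hw, rfl⟩
    · rintro _ ⟨w, hw, rfl⟩
      exact H.u_maps (hγ hw).1
    · rintro _ ⟨a, ha, rfl⟩ _ ⟨b, hb, rfl⟩
      simp only
      rw [H.φu _ (hγ ha).1, H.φu _ (hγ hb).1]
      exact hκu a (hγ ha).2 b (hγ hb).2 (hdist a ha b hb)
  · intro ε hε
    have hcP : ContinuousAt χ P := hχ.χ_cont.continuousAt (hoP.mem_nhds hPP)
    rw [Metric.continuousAt_iff] at hcP
    obtain ⟨δ, hδ, hc⟩ := hcP ε hε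
    obtain ⟨ρ, h1, h2, h3⟩ := hPr (min δ ε) (lt_min hδ hε)
    refine ⟨ρ, h1, lt_of_lt_of_le h2 (min_le_right _ _), ?_⟩
    intro z hz hzρ
    have := hc (lt_of_lt_of_le (h3 z hz hzρ) (min_le_left _ _))
    rw [hχP, dist_zero_right] at this
    exact this

end DS
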