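import Pool.Agent.H36.DS.PI

/-!
YB (filling the quadrant).  Proof.
(1) For any `s₁ ∈ (0, s]` with `Corner W s₁ t xs ys₁` and `Sep (Lset s₁ t xs ys₁)`: by `hmeet` (with `corner_cc`;
the rectangle `Rect a s₁ c t` is contained in `Rect a s c t`) some `q` of `A = Lset s₁ t xs ys₁` has `G q ∈ A`.  If `q` is on the
top (`im q = t`) then `im (G q) ≥ km t > t`, impossible.  So `q = (s₁, y)` with `ys₁ < y ≤ t`, `re (G q) ≤ lp s₁ < s₁`, so
`G q` is on the top: `im (G q) = t` and `xs < re (G q) ≤ lp s₁`.  In particular `xs < lp s₁`.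
(2) For `s₂` with `lp s₁ < s₂ < s₁`: `xs < s₂`; `Corner W s₂ t xs ys₂` for some `ys₂` (as in `corner_exists`: `(s₂, 0) ∉ W`,
`(s₂, t) ∈ W`, and the same `xs`).  By `sep_add` either `Sep (Lset s₂ t xs ys₂)` or `Sep (Uset s₂ s₁ t ys₂ ys₁)`.  The second is
impossible: by `hmeet` (with `corner_cc'`) some `q ∈ Uset` has `G q ∈ Uset`; but `0 < re q ≤ s₁`, so `re (G q) ≤ lp s₁ < s₂`.
(3) Hence the set of `s₁ ∈ (0, s]` for which `xs < s₁` and `Sep (Lset s₁ t xs ys₁)` holds (for the `ys₁` with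
`Corner W s₁ t xs ys₁`, which is unique) contains `s` and with `s₁` all of `(lp s₁, s₁]`; so it is all of `(0, s]`
(iterate with the factor `(1 + lp)/2`).  By (1) `xs < lp s₁` for all `s₁ ∈ (0, s]`, so `xs = 0`; and for every
`x ∈ (0, s]` there is `y_x ∈ (0, t]` with `im (G (x, y_x)) = t` and `(x, y) ∈ W` for `y_x ≤ y ≤ t`.
(4) Hence `(x, y) ∈ W` whenever `0 < x ≤ s`, `0 < y ≤ t`, `t ≤ im (G (x,y))` (monotonicity in `y`: `mono`, so `y_x ≤ y`).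
(5) For a general `q = (x, y)`, `0 < x ≤ s`, `0 < y ≤ t`: by `repos`, `impos` the iterates `G^[n] q` stay in
`{0 < re ≤ s, 0 < im}` as long as the imaginary part is `≤ t`, and the imaginary part grows by the factor `km > 1`; let `n` be
the first index with `t < im (G^[n+1] q)`; then `G^[n] q ∈ W` by (4), and `hWi` gives `G^[i] q ∈ W` for `i = n, ..., 0`.
-/

namespace DS
open Metric Set Filter Topology MeasureTheory

theorem fill_quad {W : Set ℂ} {φ u G Gi : ℂ → ℂ} {μ : Measure ℂ} {ζ : ℂ} {r₀ : ℝ}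
    (H : FixPE W φ u G Gi μ ζ r₀) {r lp km kp : ℝ} (HL : HypLoc G r lp km kp)
    (hWi : ∀ z ∈ Sq r, G z ∈ W → z ∈ W) (hax : ∀ x : ℝ, |x| ≤ r → (⟨x, 0⟩ : ℂ) ∉ W) {r₁ : ℝ}
    (hmeet : Meet W φ G ζ r₁) {a c s t xs ys : ℝ} (ha : a < 0) (hc : c < 0) (hs : 0 < s)
    (ht : 0 < t) (hR : Rect a s c t ⊆ closedBall 0 r₁) (hR' : Rect a s c t ⊆ Sq r)
    (h0 : φ 0 ∉ Rect a s c t) (h0t : (⟨0, t⟩ : ℂ) ∉ W) (hcor : Corner W s t xs ys)
    (hsep : Sep W φ ζ (Lset s t xs ys)) :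
    ∀ x y : ℝ, 0 < x → x ≤ s → 0 < y → y ≤ t → (⟨x, y⟩ : ℂ) ∈ W := by
  have hlp := HL.hlp
  have hlp1 := HL.hlp1
  have hkm := HL.hkm
  have hsub : ∀ {b : ℝ}, b ≤ s → Rect a b c t ⊆ Rect a s c t := fun hb z hz =>
    ⟨hz.1, hz.2.1.trans hb, hz.2.2⟩
  have hmemR : ∀ x y : ℝ, 0 < x → x ≤ s → 0 < y → y ≤ t → (⟨x, y⟩ : ℂ) ∈ Sq r := by
    intro x y hx hxs' hy hyt
    exact hR' ⟨(ha.trans hx).le, hxs', (hc.trans hy).le, hyt⟩
  have hsr : s ≤ r := (hmemR s t hs le_rfl ht le_rfl).2.1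
  -- step 1
  have claim1 : ∀ s₁ ys₁ : ℝ, 0 < s₁ → s₁ ≤ s → Corner W s₁ t xs ys₁ →
      Sep W φ ζ (Lset s₁ t xs ys₁) →
      xs < lp * s₁ ∧ ∃ y, ys₁ < y ∧ y ≤ t ∧ (G ⟨s₁, y⟩).im = t := by
    intro s₁ ys₁ hs₁ hs₁s hC hS
    have hcc := corner_cc hC ha hc
    have hw : (⟨s₁, t⟩ : ℂ) ∈ Bd a s₁ c t ∩ W :=
      ⟨⟨⟨(ha.trans hs₁).le, le_rfl, (hc.trans ht).le, le_rfl⟩, Or.inr (Or.inl rfl)⟩,
        hC.htop s₁ hC.hxs' le_rfl⟩
    have hm := hmeet a s₁ c t (ha.trans hs₁) (hc.trans ht) ((hsub hs₁s).trans hR) _ hw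
      (by rw [hcc]; exact hS)
    rw [hcc] at hm
    obtain ⟨q', hq', q, hq, rfl⟩ := hm
    rcases hq with ⟨h1, h2, h3⟩ | ⟨h1, h2, h3⟩
    · exfalso
      have hre : 0 < q.re := lt_of_le_of_lt hC.hxs h2
      have hqS : q ∈ Sq r := hR' ⟨(ha.trans hre).le, h3.trans hs₁s, by rw [h1]; exact (hc.trans ht).le,
        h1.le⟩
      have h4 := (HL.impos q hqS (by rw [h1]; exact ht)).1
      rw [h1] at h4
      have h5 : (G q).im ≤ t := by
        rcases hq' with ⟨h, -, -⟩ | ⟨-, -, h⟩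
        · exact h.le
        · exact h
      nlinarith
    · have hre : 0 < q.re := by rw [h1]; exact hs₁
      have him : 0 < q.im := lt_of_le_of_lt hC.hys h2
      have hqS : q ∈ Sq r := hR' ⟨(ha.trans hre).le, by rw [h1]; exact hs₁s, (hc.trans him).le, h3⟩
      have h4 := (HL.repos q hqS hre).2
      rw [h1] at h4
      have h5 : (G q).re < s₁ := by nlinarith
      have e : q = ⟨s₁, q.im⟩ := by
        apply Complex.ext
        · exact h1
        · rfl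
      rcases hq' with ⟨h6, h7, h8⟩ | ⟨h6, -, -⟩
      · refine ⟨lt_of_lt_of_le h7 h4, q.im, h2, h3, ?_⟩
        rw [← e]
        exact h6
      · exact absurd h6 (ne_of_lt h5)
  -- step 2
  have claim2 : ∀ s₁ ys₁ s₂ : ℝ, 0 < s₁ → s₁ ≤ s → Corner W s₁ t xs ys₁ →
      Sep W φ ζ (Lset s₁ t xs ys₁) → lp * s₁ < s₂ → s₂ < s₁ →
      ∃ ys₂, Corner W s₂ t xs ys₂ ∧ Sep W φ ζ (Lset s₂ t xs ys₂) := by
    intro s₁ ys₁ s₂ hs₁ hs₁s hC hS h1 h2
    obtain ⟨hx1, -⟩ := claim1 s₁ ys₁ hs₁ hs₁s hC hS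
    have hs₂ : 0 < s₂ := lt_trans (by positivity) h1
    have hW₂ : (⟨s₂, t⟩ : ℂ) ∈ W := hC.htop s₂ (hx1.trans h1) h2.le
    have hW₂' : (⟨s₂, 0⟩ : ℂ) ∉ W := hax s₂ (by rw [abs_of_pos hs₂]; linarith)
    obtain ⟨xs', ys₂, hC₂⟩ := corner_exists H.W_open hs₂ ht h0t hW₂' hW₂
    have hxx : xs' = xs := by
      rcases lt_trichotomy xs' xs with h | h | h
      · exact absurd (hC₂.htop xs h (hx1.trans h1).le) hC.hx
      · exact h
      · exact absurd (hC.htop xs' h (hC₂.hxs'.trans h2).le) hC₂.hx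
    subst hxx
    refine ⟨ys₂, hC₂, ?_⟩
    rcases sep_add H ha hc hC hC₂ h2 (fun h => h0 (hsub hs₁s h)) hS with h | h
    · exact h
    · exfalso
      have hcc := corner_cc' hC hC₂ h2 hc
      have hw : (⟨s₁, t⟩ : ℂ) ∈ Bd s₂ s₁ c t ∩ W :=
        ⟨⟨⟨h2.le, le_rfl, (hc.trans ht).le, le_rfl⟩, Or.inr (Or.inl rfl)⟩,
          hC.htop s₁ hC.hxs' le_rfl⟩
      have hsub' : Rect s₂ s₁ c t ⊆ Rect a s c t := fun z hz =>
        ⟨(ha.trans hs₂).le.trans hz.1, hz.2.1.trans hs₁s, hz.2.2⟩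
      have hm := hmeet s₂ s₁ c t h2 (hc.trans ht) (hsub'.trans hR) _ hw (by rw [hcc]; exact h)
      rw [hcc] at hm
      obtain ⟨q', hq', q, hq, rfl⟩ := hm
      have hqr : s₂ ≤ q.re ∧ q.re ≤ s₁ ∧ 0 < q.im ∧ q.im ≤ t := by
        rcases hq with ⟨h3, h4, h5⟩ | ⟨h3, h4, h5⟩ | ⟨h3, h4, h5⟩
        · exact ⟨h4, h5, by rw [h3]; exact ht, h3.le⟩
        · exact ⟨by rw [h3]; exact h2.le, h3.le, lt_of_le_of_lt hC.hys h4, h5⟩
        · exact ⟨h3.ge, by rw [h3]; exact h2.le, lt_of_le_of_lt hC₂.hys h4, h5⟩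
      obtain ⟨h3, h4, h5, h6⟩ := hqr
      have hre : 0 < q.re := lt_of_lt_of_le hs₂ h3
      have hqS : q ∈ Sq r := hR' ⟨(ha.trans hre).le, h4.trans hs₁s, (hc.trans h5).le, h6⟩
      have h7 := (HL.repos q hqS hre).2
      have h8 : s₂ ≤ (G q).re := by
        rcases hq' with ⟨-, h, -⟩ | ⟨h, -, -⟩ | ⟨h, -, -⟩
        · exact h
        · rw [h]; exact h2.le
        · exact h.ge
      nlinarith
  -- step 3
  have claim3 : ∀ s₂ : ℝ, 0 < s₂ → s₂ ≤ s →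
      ∃ ys₂, Corner W s₂ t xs ys₂ ∧ Sep W φ ζ (Lset s₂ t xs ys₂) := by
    have hk : lp < (1 + lp) / 2 := by linarith
    have hk1 : (1 + lp) / 2 < 1 := by linarith
    have hk0 : 0 < (1 + lp) / 2 := by linarith
    have key : ∀ n : ℕ, ∀ s₂ : ℝ, s * ((1 + lp) / 2) ^ n ≤ s₂ → s₂ ≤ s →
        ∃ ys₂, Corner W s₂ t xs ys₂ ∧ Sep W φ ζ (Lset s₂ t xs ys₂) := by
      intro n
      induction n with
      | zero =>
        intro s₂ h1 h2
        rw [pow_zero, mul_one] at h1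
        obtain rfl := le_antisymm h2 h1
        exact ⟨ys, hcor, hsep⟩
      | succ n ih =>
        intro s₂ h1 h2
        by_cases h3 : s * ((1 + lp) / 2) ^ n ≤ s₂
        · exact ih s₂ h3 h2
        · push Not at h3
          have hp : 0 < s * ((1 + lp) / 2) ^ n := by positivity
          have hle : s * ((1 + lp) / 2) ^ n ≤ s :=
            mul_le_of_le_one_right hs.le (pow_le_one₀ hk0.le hk1.le)
          obtain ⟨ys₁, hC, hS⟩ := ih _ le_rfl hle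
          refine claim2 _ ys₁ s₂ hp hle hC hS ?_ h3
          refine lt_of_lt_of_le ?_ h1
          rw [pow_succ]
          nlinarith
    intro s₂ h1 h2
    obtain ⟨n, hn⟩ := exists_pow_lt_of_lt_one (div_pos h1 hs) hk1
    refine key n s₂ ?_ h2
    rw [lt_div_iff₀ hs] at hn
    linarith
  have hxs0 : xs = 0 := by
    by_contra hne
    have hpos : 0 < xs := lt_of_le_of_ne hcor.hxs (Ne.symm hne)
    obtain ⟨_, hC, -⟩ := claim3 xs hpos hcor.hxs'.le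
    exact lt_irrefl _ hC.hxs'
  -- step 4
  have claim4 : ∀ x y : ℝ, 0 < x → x ≤ s → 0 < y → y ≤ t → t ≤ (G ⟨x, y⟩).im →
      (⟨x, y⟩ : ℂ) ∈ W := by
    intro x y hx hxs hy hyt hG
    obtain ⟨ys₁, hC, hS⟩ := claim3 x hx hxs
    obtain ⟨-, y', h1, h2, h3⟩ := claim1 x ys₁ hx hxs hC hS
    refine hC.hside y ?_ hyt
    by_contra hcon
    push Not at hcon
    have hlt : y < y' := lt_of_le_of_lt hcon h1
    have h4 := HL.mono ⟨x, y⟩ (hmemR x y hx hxs hy hyt) ⟨x, y'⟩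
      (hmemR x y' hx hxs (hy.trans hlt) h2) rfl hlt
    rw [h3] at h4
    linarith
  -- step 5
  have claim5 : ∀ n : ℕ, ∀ x y : ℝ, 0 < x → x ≤ s → 0 < y → y ≤ t → t < km ^ n * y →
      (⟨x, y⟩ : ℂ) ∈ W := by
    intro n
    induction n with
    | zero =>
      intro x y _ _ _ hyt h
      rw [pow_zero, one_mul] at h
      exact absurd h (not_lt.mpr hyt)
    | succ n ih =>
      intro x y hx hxs hy hyt h
      by_cases hG : t ≤ (G ⟨x, y⟩).im
      · exact claim4 x y hx hxs hy hyt hG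
      · push Not at hG
        have hS := hmemR x y hx hxs hy hyt
        have h1 := HL.repos ⟨x, y⟩ hS hx
        have h2 := HL.impos ⟨x, y⟩ hS hy
        simp only at h1 h2
        apply hWi ⟨x, y⟩ hS
        have h3 := ih (G ⟨x, y⟩).re (G ⟨x, y⟩).im h1.1 (by nlinarith [h1.2]) (by nlinarith [h2.1])
          hG.le (by
            have : km ^ n * (km * y) ≤ km ^ n * (G ⟨x, y⟩).im :=
              mul_le_mul_of_nonneg_left h2.1 (by positivity)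
            rw [pow_succ] at h
            nlinarith)
        exact h3
  intro x y hx hxs hy hyt
  obtain ⟨n, hn⟩ := pow_unbounded_of_one_lt (t / y) hkm
  refine claim5 n x y hx hxs hy hyt ?_
  rwa [div_lt_iff₀ hy] at hn

end DS
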