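import Pool.Agent.H36.DS.YBase

/-!
YC (a vertical half axis in `W` gives a half box in `W`).  Proof.  WLOG `t₀ ≤ r`.  The compact segment
`{(0, y) | t₀ / kp ≤ y ≤ t₀}` is contained in the open set `W`, so there is `η > 0` with `(x, y) ∈ W` for `|x| ≤ η`,
`t₀ / kp ≤ y ≤ t₀`.  Choose `n` with `lp ^ n * r ≤ η` and `δ ≤ r` with `kp ^ n * δ < t₀ / kp`.  Let `|x| ≤ δ`,
`0 < y ≤ δ`, `q = (x, y)`.  As long as the iterates stay in `im ≤ t₀` they stay in `Sq r`, the imaginary part is multiplied by a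
factor between `km > 1` and `kp`, and `|re|` by a factor at most `lp`.  Let `m` be the last index with `im (G^[m] q) ≤ t₀`
(all previous ones too); then `im (G^[m] q) ≥ t₀ / kp`, so `m ≥ n` and `|re (G^[m] q)| ≤ lp ^ n r ≤ η`: `G^[m] q ∈ W`.  By `hWi`,
going back, `q ∈ W`.
-/

namespace DS
open Metric Set Filter Topology

theorem YC_re_le {G : ℂ → ℂ} {r lp km kp : ℝ} (HL : HypLoc G r lp km kp) {z : ℂ} (hz : z ∈ Sq r) :
    |(G z).re| ≤ lp * |z.re| := by
  rcases lt_trichotomy z.re 0 with h | h | h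
  · have := HL.reneg z hz h
    rw [abs_of_neg this.1, abs_of_neg h]
    linarith [this.2]
  · rw [HL.re0 z hz h, h]
    simp
  · have := HL.repos z hz h
    rw [abs_of_pos this.1, abs_of_pos h]
    exact this.2

theorem YC_mem {r x y : ℝ} (hx : |x| ≤ r) (hy : 0 < y) (hy' : y ≤ r) : (⟨x, y⟩ : ℂ) ∈ Sq r := by
  have := abs_le.1 hx
  refine ⟨this.1, this.2, ?_, hy'⟩
  show -r ≤ y
  linarith

theorem YC_tube {W : Set ℂ} (hW : IsOpen W) {a t : ℝ}
    (hv : ∀ y : ℝ, a ≤ y → y ≤ t → (⟨0, y⟩ : ℂ) ∈ W) :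
    ∃ η > 0, ∀ x y : ℝ, |x| ≤ η → a ≤ y → y ≤ t → (⟨x, y⟩ : ℂ) ∈ W := by
  have hc : Continuous (fun y : ℝ => (⟨0, y⟩ : ℂ)) := by
    have : (fun y : ℝ => (⟨0, y⟩ : ℂ)) = fun y : ℝ => (y : ℂ) * Complex.I := by
      funext y
      apply Complex.ext <;> simp
    rw [this]
    fun_prop
  have hK : IsCompact ((fun y : ℝ => (⟨0, y⟩ : ℂ)) '' Icc a t) := isCompact_Icc.image hc
  have hKW : (fun y : ℝ => (⟨0, y⟩ : ℂ)) '' Icc a t ⊆ W := by
    rintro _ ⟨y, hy, rfl⟩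
    exact hv y hy.1 hy.2
  obtain ⟨δ, hδ, hδW⟩ := hK.exists_thickening_subset_open hW hKW
  refine ⟨δ / 2, by positivity, fun x y hx hy hy' => hδW ?_⟩
  rw [mem_thickening_iff]
  refine ⟨⟨0, y⟩, ⟨y, ⟨hy, hy'⟩, rfl⟩, ?_⟩
  rw [Complex.dist_eq]
  have : (⟨x, y⟩ : ℂ) - ⟨0, y⟩ = (x : ℂ) := by
    apply Complex.ext <;> simp
  rw [this, Complex.norm_real, Real.norm_eq_abs]
  linarith

theorem half_box {W : Set ℂ} (hW : IsOpen W) {G : ℂ → ℂ} {r lp km kp : ℝ}
    (HL : HypLoc G r lp km kp) (hWi : ∀ z ∈ Sq r, G z ∈ W → z ∈ W) {t₀ : ℝ} (ht₀ : 0 < t₀)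
    (hv : ∀ y : ℝ, 0 < y → y ≤ t₀ → (⟨0, y⟩ : ℂ) ∈ W) :
    ∃ δ > 0, ∀ x y : ℝ, |x| ≤ δ → 0 < y → y ≤ δ → (⟨x, y⟩ : ℂ) ∈ W := by
  have hr := HL.hr
  have hkp : 1 < kp := lt_of_lt_of_le HL.hkm HL.hkp
  have hkp0 : 0 < kp := by linarith
  obtain ⟨t, ht, htr, htt⟩ : ∃ t : ℝ, 0 < t ∧ t ≤ r ∧ t ≤ t₀ :=
    ⟨min t₀ r, lt_min ht₀ hr, min_le_right _ _, min_le_left _ _⟩
  obtain ⟨η₀, hη₀, hη₀W⟩ := YC_tube (a := t / kp) (t := t) hW
    (fun y hy hy' => hv y (lt_of_lt_of_le (by positivity) hy) (hy'.trans htt))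
  obtain ⟨η, hη, hηr, hηη⟩ : ∃ η : ℝ, 0 < η ∧ η ≤ r ∧ η ≤ η₀ :=
    ⟨min η₀ r, lt_min hη₀ hr, min_le_right _ _, min_le_left _ _⟩
  -- second stage
  have hS : ∀ M : ℕ, ∀ z : ℂ, |z.re| ≤ η → 0 < z.im → z.im ≤ t → t / kp ≤ km ^ M * z.im → z ∈ W := by
    intro M
    induction M with
    | zero =>
      intro z h1 h2 h3 h4
      exact hη₀W z.re z.im (h1.trans hηη) (by simpa using h4) h3
    | succ M ih =>
      intro z h1 h2 h3 h4
      by_cases h5 : t / kp ≤ z.im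
      · exact hη₀W z.re z.im (h1.trans hηη) h5 h3
      · push Not at h5
        have hz : z ∈ Sq r := YC_mem (h1.trans hηr) h2 (h3.trans htr)
        have him := HL.impos z hz h2
        apply hWi z hz
        apply ih
        · refine (YC_re_le HL hz).trans ?_
          have : lp * |z.re| ≤ 1 * |z.re| := mul_le_mul_of_nonneg_right HL.hlp1.le (abs_nonneg _)
          linarith
        · have : 0 < km * z.im := mul_pos (by linarith [HL.hkm]) h2
          linarith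
        · have : kp * z.im < kp * (t / kp) := mul_lt_mul_of_pos_left h5 hkp0
          rw [mul_div_cancel₀ _ hkp0.ne'] at this
          linarith
        · have hkmM : 0 < km ^ M := pow_pos (by linarith [HL.hkm]) M
          calc t / kp ≤ km ^ (M + 1) * z.im := h4
            _ = km ^ M * (km * z.im) := by ring
            _ ≤ km ^ M * (G z).im := mul_le_mul_of_nonneg_left him.1 hkmM.le
  have hS' : ∀ z : ℂ, |z.re| ≤ η → 0 < z.im → z.im ≤ t → z ∈ W := by
    intro z h1 h2 h3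
    obtain ⟨M, hM⟩ := pow_unbounded_of_one_lt (t / kp / z.im) HL.hkm
    refine hS M z h1 h2 h3 ?_
    rw [div_lt_iff₀ h2] at hM
    exact hM.le
  have hF : ∀ j : ℕ, ∀ z : ℂ, |z.re| ≤ r → |z.re| * lp ^ j ≤ η → 0 < z.im → kp ^ j * z.im ≤ t → z ∈ W := by
    intro j
    induction j with
    | zero =>
      intro z _ h1 h2 h3
      exact hS' z (by simpa using h1) h2 (by simpa using h3)
    | succ j ih =>
      intro z h0 h1 h2 h3
      have hkj : 1 ≤ kp ^ (j + 1) := one_le_pow₀ hkp.le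
      have hzt : z.im ≤ t := by
        have : 1 * z.im ≤ kp ^ (j + 1) * z.im := mul_le_mul_of_nonneg_right hkj h2.le
        linarith
      have hz : z ∈ Sq r := YC_mem h0 h2 (hzt.trans htr)
      have him := HL.impos z hz h2
      have hre := YC_re_le HL hz
      have hre' : lp * |z.re| ≤ 1 * |z.re| := mul_le_mul_of_nonneg_right HL.hlp1.le (abs_nonneg _)
      apply hWi z hz
      apply ih
      · linarith
      · have hlj : 0 < lp ^ j := pow_pos HL.hlp j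
        calc |(G z).re| * lp ^ j ≤ (lp * |z.re|) * lp ^ j := mul_le_mul_of_nonneg_right hre hlj.le
          _ = |z.re| * lp ^ (j + 1) := by ring
          _ ≤ η := h1
      · have : 0 < km * z.im := mul_pos (by linarith [HL.hkm]) h2
        linarith
      · have hkj' : 0 < kp ^ j := pow_pos hkp0 j
        calc kp ^ j * (G z).im ≤ kp ^ j * (kp * z.im) := mul_le_mul_of_nonneg_left him.2 hkj'.le
          _ = kp ^ (j + 1) * z.im := by ring
          _ ≤ t := h3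
  obtain ⟨n, hn⟩ := exists_pow_lt_of_lt_one (div_pos hη hr) HL.hlp1
  have hkn : 0 < kp ^ n := pow_pos hkp0 n
  refine ⟨min r (t / kp ^ n), lt_min hr (by positivity), fun x y hx hy hy' => ?_⟩
  have hx' : |x| ≤ r := hx.trans (min_le_left _ _)
  apply hF n
  · exact hx'
  · have hln : 0 < lp ^ n := pow_pos HL.hlp n
    rw [lt_div_iff₀ hr] at hn
    calc |x| * lp ^ n ≤ r * lp ^ n := mul_le_mul_of_nonneg_right hx' hln.le
      _ = lp ^ n * r := by ring
      _ ≤ η := hn.le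
  · exact hy
  · have : y ≤ t / kp ^ n := hy'.trans (min_le_right _ _)
    rw [le_div_iff₀ hkn] at this
    show kp ^ n * y ≤ t
    linarith

end DS
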