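import Pool.Agent.H36.DS.PG
import Pool.Agent.H36.DS.YB
import Pool.Agent.H36.DS.YC

/-!
YD (normalized local analysis).  `hNP`: arbitrarily small rectangles with a separating component containing the
corner `(b,d)`, and `(0,d) ∉ W` unless a piece `(0, t₀]` of the vertical half axis is in `W`.
Proof.  Let `r₁` be from `area_meet` (so `Meet W φ G ζ r₁`).
Case A: there is `t₀ > 0` with `(0, y) ∈ W` for `0 < y ≤ t₀`.  `half_box` gives `δ`; shrink it below `r₀ / 2`.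
Case B: otherwise for every `ε` there is `y ∈ (0, ε)` with `(0, y) ∉ W`; take one small rectangle from `hNP` (contained in
`closedBall 0 r₁ ∩ Sq r`, not containing `φ 0`; the point `(0,d)` is not in `W`); `corner_exists`, `corner_cc`, `fill_quad` give
the box `(0, b] × (0, d] ⊆ W`; `δ = min b d` (and `< r₀/2`).
Limit.  In both cases let `B` be the box (`B = (0,δ]×(0,δ]` or `[-δ,δ]×(0,δ]`), convex, contained in `W ∩ closedBall 0 r₀`.
Given `ε`, let `δ₁` be from `L0` for `ε/2`, and `η` small with diameter of `B ∩ {|re| < η, |im| < η}` `< δ₁`; by `hNP` and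
`sep_close` there is a rectangle with size `< η` whose corner `(b,d)` satisfies `dist (u (b,d)) ζ < ε/2` (it is in the
separating component); so `dist (u z) ζ < ε` for all `z` in `B ∩ {|re| < η, |im| < η}`.
-/

namespace DS
open Metric Set Filter Topology MeasureTheory

private theorem YD_norm {z : ℂ} {e : ℝ} (h1 : |z.re| < e) (h2 : |z.im| < e) : ‖z‖ < 2 * e := by
  have := Complex.norm_le_abs_re_add_abs_im z
  linarith

private theorem YD_rect {a b c d e : ℝ} (ha : -e < a) (hb : b < e) (hc : -e < c) (hd : d < e) {z : ℂ}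
    (hz : z ∈ Rect a b c d) : |z.re| < e ∧ |z.im| < e := by
  obtain ⟨h1, h2, h3, h4⟩ := hz
  exact ⟨abs_lt.2 ⟨by linarith, by linarith⟩, abs_lt.2 ⟨by linarith, by linarith⟩⟩

private theorem YD_lim {W : Set ℂ} {φ u G Gi : ℂ → ℂ} {μ : Measure ℂ} {ζ : ℂ} {r₀ : ℝ}
    (H : FixPE W φ u G Gi μ ζ r₀)
    (hNP : ∀ ε > 0, ∃ a b c d : ℝ, -ε < a ∧ a < 0 ∧ 0 < b ∧ b < ε ∧ -ε < c ∧ c < 0 ∧ 0 < d ∧ d < ε ∧
      (⟨b, d⟩ : ℂ) ∈ W ∧ Sep W φ ζ (cc W a b c d ⟨b, d⟩) ∧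
      ((⟨0, d⟩ : ℂ) ∉ W ∨ ∃ t₀ > 0, ∀ y : ℝ, 0 < y → y ≤ t₀ → (⟨0, y⟩ : ℂ) ∈ W))
    {δ : ℝ} (hδ : 0 < δ) {B : Set ℂ} (hBc : Convex ℝ B) (hBW : B ⊆ W) (hBr : B ⊆ closedBall 0 r₀)
    (hBq : ∀ x y : ℝ, 0 < x → x ≤ δ → 0 < y → y ≤ δ → (⟨x, y⟩ : ℂ) ∈ B) :
    ∀ ε > 0, ∃ η > 0, ∀ z ∈ B, |z.re| < η → |z.im| < η → dist (u z) ζ < ε := by
  intro ε hε
  obtain ⟨δ₁, hδ₁, hL⟩ := H.L0 (ε / 2) (by positivity)
  obtain ⟨r₂, hr₂, hclose⟩ := sep_close H (ε / 2) (by positivity)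
  set η := min δ (δ₁ / 4) with hη
  have hη0 : 0 < η := lt_min hδ (by positivity)
  have hηδ : η ≤ δ := min_le_left _ _
  have hηδ₁ : η ≤ δ₁ / 4 := min_le_right _ _
  refine ⟨η, hη0, ?_⟩
  intro z hz hz1 hz2
  set e := min η (r₂ / 2) with he
  have he0 : 0 < e := lt_min hη0 (by positivity)
  have heη : e ≤ η := min_le_left _ _
  have her : e ≤ r₂ / 2 := min_le_right _ _
  obtain ⟨a, b, c, d, ha, ha0, hb0, hb, hc, hc0, hd0, hd, hbd, hsep, -⟩ := hNP e he0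
  have hmem : (⟨b, d⟩ : ℂ) ∈ cc W a b c d ⟨b, d⟩ := by
    apply mem_connectedComponentIn
    exact ⟨⟨⟨(ha0.trans hb0).le, le_rfl, (hc0.trans hd0).le, le_rfl⟩, Or.inr (Or.inl rfl)⟩, hbd⟩
  have hsub : cc W a b c d ⟨b, d⟩ ⊆ W ∩ closedBall 0 r₂ := by
    intro w hw
    have h1 := connectedComponentIn_subset _ _ hw
    refine ⟨h1.2, ?_⟩
    obtain ⟨h2, h3⟩ := YD_rect ha hb hc hd h1.1.1
    have h4 := YD_norm h2 h3
    rw [mem_closedBall_zero_iff]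
    linarith
  have h1 := (hclose _ hsub isPreconnected_connectedComponentIn hsep).1 _ hmem
  -- compare with the corner
  set γ : Set ℂ := B ∩ {w | |w.re| < η ∧ |w.im| < η} with hγ
  have hconv : Convex ℝ {w : ℂ | |w.re| < η ∧ |w.im| < η} := by
    have h2 : {w : ℂ | |w.re| < η ∧ |w.im| < η} = ({w : ℂ | w.re < η} ∩ {w : ℂ | -η < w.re}) ∩
        ({w : ℂ | w.im < η} ∩ {w : ℂ | -η < w.im}) := by
      ext w
      simp only [mem_inter_iff, abs_lt]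
      constructor
      · rintro ⟨⟨h1, h2⟩, h3, h4⟩
        exact ⟨⟨h2, h1⟩, h4, h3⟩
      · rintro ⟨⟨h1, h2⟩, h3, h4⟩
        exact ⟨⟨h2, h1⟩, h4, h3⟩
    rw [h2]
    exact ((convex_halfSpace_re_lt η).inter (convex_halfSpace_re_gt (-η))).inter
      ((convex_halfSpace_im_lt η).inter (convex_halfSpace_im_gt (-η)))
  have hγc : IsPreconnected γ := (hBc.inter hconv).isPreconnected
  have hγs : γ ⊆ W ∩ closedBall 0 r₀ := fun w hw => ⟨hBW hw.1, hBr hw.1⟩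
  have hγd : ∀ z ∈ γ, ∀ w ∈ γ, dist z w < δ₁ := by
    rintro z ⟨-, h2, h3⟩ w ⟨-, h4, h5⟩
    rw [dist_eq_norm]
    have h6 := Complex.norm_le_abs_re_add_abs_im (z - w)
    rw [Complex.sub_re, Complex.sub_im] at h6
    have h7 := abs_sub (z.re) (w.re)
    have h8 := abs_sub (z.im) (w.im)
    linarith
  have hcor : (⟨b, d⟩ : ℂ) ∈ γ := by
    refine ⟨hBq b d hb0 (by linarith) hd0 (by linarith), ?_, ?_⟩
    · show |b| < η
      rw [abs_of_pos hb0]; linarith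
    · show |d| < η
      rw [abs_of_pos hd0]; linarith
  have h2 := hL γ hγs hγc hγd z ⟨hz, hz1, hz2⟩ _ hcor
  calc dist (u z) ζ ≤ dist (u z) (u ⟨b, d⟩) + dist (u ⟨b, d⟩) ζ := dist_triangle _ _ _
    _ < ε / 2 + ε / 2 := add_lt_add h2 h1
    _ = ε := by ring

theorem good_quad {W : Set ℂ} {φ u G Gi : ℂ → ℂ} {μ : Measure ℂ} {ζ : ℂ} {r₀ : ℝ}
    (H : FixPE W φ u G Gi μ ζ r₀) {r lp km kp : ℝ} (HL : HypLoc G r lp km kp)
    (hWi : ∀ z ∈ Sq r, G z ∈ W → z ∈ W) (hax : ∀ x : ℝ, |x| ≤ r → (⟨x, 0⟩ : ℂ) ∉ W)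
    (hNP : ∀ ε > 0, ∃ a b c d : ℝ, -ε < a ∧ a < 0 ∧ 0 < b ∧ b < ε ∧ -ε < c ∧ c < 0 ∧ 0 < d ∧ d < ε ∧
      (⟨b, d⟩ : ℂ) ∈ W ∧ Sep W φ ζ (cc W a b c d ⟨b, d⟩) ∧
      ((⟨0, d⟩ : ℂ) ∉ W ∨ ∃ t₀ > 0, ∀ y : ℝ, 0 < y → y ≤ t₀ → (⟨0, y⟩ : ℂ) ∈ W)) :
    ∃ δ, GoodQuad W u ζ δ := by
  have hr₀ := H.hr₀
  have hr := HL.hr
  by_cases hA : ∃ t₀ > 0, ∀ y : ℝ, 0 < y → y ≤ t₀ → (⟨0, y⟩ : ℂ) ∈ W
  · -- case A
    obtain ⟨t₀, ht₀, hv⟩ := hA
    obtain ⟨δ₀, hδ₀, hbox⟩ := half_box H.W_open HL hWi ht₀ hv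
    set δ := min δ₀ (r₀ / 2) with hδ
    have hδ0 : 0 < δ := lt_min hδ₀ (by positivity)
    have hδ₀' : δ ≤ δ₀ := min_le_left _ _
    have hδr : δ ≤ r₀ / 2 := min_le_right _ _
    have hsub : ∀ x y : ℝ, |x| ≤ δ → 0 < y → y ≤ δ → (⟨x, y⟩ : ℂ) ∈ W := fun x y h1 h2 h3 =>
      hbox x y (h1.trans hδ₀') h2 (h3.trans hδ₀')
    have hlim := YD_lim H hNP hδ0 (B := {z : ℂ | |z.re| ≤ δ ∧ 0 < z.im ∧ z.im ≤ δ})
      (by
        have h2 : {z : ℂ | |z.re| ≤ δ ∧ 0 < z.im ∧ z.im ≤ δ} =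
            ({w : ℂ | w.re ≤ δ} ∩ {w : ℂ | -δ ≤ w.re}) ∩
            ({w : ℂ | w.im ≤ δ} ∩ {w : ℂ | 0 < w.im}) := by
          ext w
          simp only [mem_inter_iff, abs_le]
          constructor
          · rintro ⟨⟨h1, h2⟩, h3, h4⟩
            exact ⟨⟨h2, h1⟩, h4, h3⟩
          · rintro ⟨⟨h1, h2⟩, h3, h4⟩
            exact ⟨⟨h2, h1⟩, h4, h3⟩
        rw [h2]
        exact ((convex_halfSpace_re_le δ).inter (convex_halfSpace_re_ge (-δ))).inter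
          ((convex_halfSpace_im_le δ).inter (convex_halfSpace_im_gt 0)))
      (fun z hz => hsub z.re z.im hz.1 hz.2.1 hz.2.2)
      (by
        intro z hz
        rw [mem_closedBall_zero_iff]
        have h1 := Complex.norm_le_abs_re_add_abs_im z
        rw [abs_of_pos hz.2.1] at h1
        have h2 := hz.1
        have h3 := hz.2.2
        linarith)
      (fun x y h1 h2 h3 h4 => ⟨by show |x| ≤ δ; rw [abs_of_pos h1]; exact h2, h3, h4⟩)
    have hlim' : ∀ ε > 0, ∃ η > 0, ∀ x y : ℝ, |x| < η → 0 < y → y < η → dist (u ⟨x, y⟩) ζ < ε := by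
      intro ε hε
      obtain ⟨η, hη, h⟩ := hlim ε hε
      refine ⟨min η δ, lt_min hη hδ0, fun x y h1 h2 h3 => ?_⟩
      refine h ⟨x, y⟩ ⟨?_, h2, (h3.trans_le (min_le_right _ _)).le⟩ (h1.trans_le (min_le_left _ _)) ?_
      · exact (h1.trans_le (min_le_right _ _)).le
      · show |y| < η
        rw [abs_of_pos h2]
        exact h3.trans_le (min_le_left _ _)
    refine ⟨δ, hδ0, ?_, ?_, Or.inr ⟨hsub, hlim'⟩⟩
    · intro x y h1 h2 h3 h4
      exact hsub x y (by rw [abs_of_pos h1]; exact h2) h3 h4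
    · intro ε hε
      obtain ⟨η, hη, h⟩ := hlim' ε hε
      exact ⟨η, hη, fun x y h1 h2 h3 h4 => h x y (by rw [abs_of_pos h1]; exact h2) h3 h4⟩
  · -- case B
    have hA' : ∀ ε > 0, ∃ y : ℝ, 0 < y ∧ y < ε ∧ (⟨0, y⟩ : ℂ) ∉ W := by
      intro ε hε
      by_contra hcon
      push Not at hcon
      exact hA ⟨ε / 2, by positivity, fun y h1 h2 => hcon y h1 (by linarith)⟩
    obtain ⟨r₁, hr₁, hmeet⟩ := area_meet H
    have hφ0 : φ 0 ∈ W := H.φ_maps (by simp)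
    have hφ0' : 0 < ‖φ 0‖ := by
      rw [norm_pos_iff]
      intro h
      exact H.zero_notin (h ▸ hφ0)
    set e := min (min (r₁ / 2) r) (‖φ 0‖ / 2) with he
    have he0 : 0 < e := lt_min (lt_min (by positivity) hr) (by positivity)
    have he1 : e ≤ r₁ / 2 := (min_le_left _ _).trans (min_le_left _ _)
    have he2 : e ≤ r := (min_le_left _ _).trans (min_le_right _ _)
    have he3 : e ≤ ‖φ 0‖ / 2 := min_le_right _ _
    obtain ⟨a, b, c, d, ha, ha0, hb0, hb, hc, hc0, hd0, hd, hbd, hsep, halt⟩ := hNP e he0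
    have h0d : (⟨0, d⟩ : ℂ) ∉ W := by
      rcases halt with h | h
      · exact h
      · exact absurd h hA
    obtain ⟨xs, ys, hcor⟩ := corner_exists H.W_open hb0 hd0 h0d
      (hax b (by rw [abs_of_pos hb0]; linarith)) hbd
    rw [corner_cc hcor ha0 hc0] at hsep
    have hquad := fill_quad H HL hWi hax (r₁ := r₁) hmeet ha0 hc0 hb0 hd0
      (fun z hz => by
        obtain ⟨h2, h3⟩ := YD_rect ha hb hc hd hz
        have h4 := YD_norm h2 h3
        rw [mem_closedBall_zero_iff]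
        linarith)
      (fun z hz => by
        obtain ⟨h2, h3⟩ := YD_rect ha hb hc hd hz
        rw [abs_lt] at h2 h3
        exact ⟨by linarith, by linarith, by linarith, by linarith⟩)
      (fun hz => by
        obtain ⟨h2, h3⟩ := YD_rect ha hb hc hd hz
        have h4 := YD_norm h2 h3
        linarith)
      h0d hcor hsep
    set δ := min (min b d) (r₀ / 2) with hδ
    have hδ0 : 0 < δ := lt_min (lt_min hb0 hd0) (by positivity)
    have hδb : δ ≤ b := (min_le_left _ _).trans (min_le_left _ _)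
    have hδd : δ ≤ d := (min_le_left _ _).trans (min_le_right _ _)
    have hδr : δ ≤ r₀ / 2 := min_le_right _ _
    have hsub : ∀ x y : ℝ, 0 < x → x ≤ δ → 0 < y → y ≤ δ → (⟨x, y⟩ : ℂ) ∈ W :=
      fun x y h1 h2 h3 h4 => hquad x y h1 (h2.trans hδb) h3 (h4.trans hδd)
    have hlim := YD_lim H hNP hδ0 (B := {z : ℂ | 0 < z.re ∧ z.re ≤ δ ∧ 0 < z.im ∧ z.im ≤ δ})
      (by
        have h2 : {z : ℂ | 0 < z.re ∧ z.re ≤ δ ∧ 0 < z.im ∧ z.im ≤ δ} =
            ({w : ℂ | 0 < w.re} ∩ {w : ℂ | w.re ≤ δ}) ∩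
            ({w : ℂ | 0 < w.im} ∩ {w : ℂ | w.im ≤ δ}) := by
          ext w
          constructor
          · rintro ⟨h1, h2, h3, h4⟩
            exact ⟨⟨h1, h2⟩, h3, h4⟩
          · rintro ⟨⟨h1, h2⟩, h3, h4⟩
            exact ⟨h1, h2, h3, h4⟩
        rw [h2]
        exact ((convex_halfSpace_re_gt 0).inter (convex_halfSpace_re_le δ)).inter
          ((convex_halfSpace_im_gt 0).inter (convex_halfSpace_im_le δ)))
      (fun z hz => hsub z.re z.im hz.1 hz.2.1 hz.2.2.1 hz.2.2.2)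
      (by
        intro z hz
        rw [mem_closedBall_zero_iff]
        have h1 := Complex.norm_le_abs_re_add_abs_im z
        rw [abs_of_pos hz.1, abs_of_pos hz.2.2.1] at h1
        have h2 := hz.2.1
        have h3 := hz.2.2.2
        linarith)
      (fun x y h1 h2 h3 h4 => ⟨h1, h2, h3, h4⟩)
    refine ⟨δ, hδ0, hsub, ?_, Or.inl hA'⟩
    intro ε hε
    obtain ⟨η, hη, h⟩ := hlim ε hε
    refine ⟨min η δ, lt_min hη hδ0, fun x y h1 h2 h3 h4 => ?_⟩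
    refine h ⟨x, y⟩ ⟨h1, (h2.trans_le (min_le_right _ _)).le, h3, (h4.trans_le (min_le_right _ _)).le⟩
      ?_ ?_
    · show |x| < η
      rw [abs_of_pos h1]
      exact h2.trans_le (min_le_left _ _)
    · show |y| < η
      rw [abs_of_pos h3]
      exact h4.trans_le (min_le_left _ _)

end DS
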