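import Pool.Agent.H36.DS.YBase

/-!
YR (reflections).  `refl σ₁ σ₂` with `σ₁, σ₂ ∈ {1, -1}` is an isometric linear involution of the plane
which maps `Sq r` to itself and rectangles to rectangles.  All statements are direct verifications.
`refl_fixPE`: the measure is `Measure.map (refl σ₁ σ₂) μ` (`refl` is a measurable equivalence, `refl ∘ refl = id`).
`refl_cc`: the image of a component under a homeomorphism is a component; `refl_sep`: transport connected components.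
-/

namespace DS
open Metric Set Filter Topology MeasureTheory

theorem refl_refl {σ₁ σ₂ : ℝ} (h1 : σ₁ = 1 ∨ σ₁ = -1) (h2 : σ₂ = 1 ∨ σ₂ = -1) (z : ℂ) :
    refl σ₁ σ₂ (refl σ₁ σ₂ z) = z := by
  rcases h1 with rfl | rfl <;> rcases h2 with rfl | rfl <;> apply Complex.ext <;> simp [refl]

theorem YR_cont (σ₁ σ₂ : ℝ) : Continuous (refl σ₁ σ₂) := by
  have h : refl σ₁ σ₂ = fun z : ℂ => ((σ₁ * z.re : ℝ) : ℂ) + ((σ₂ * z.im : ℝ) : ℂ) * Complex.I := by
    funext z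
    apply Complex.ext <;> simp [refl]
  rw [h]
  have h1 : Continuous fun z : ℂ => σ₁ * z.re := continuous_const.mul Complex.continuous_re
  have h2 : Continuous fun z : ℂ => σ₂ * z.im := continuous_const.mul Complex.continuous_im
  exact (Complex.continuous_ofReal.comp h1).add
    ((Complex.continuous_ofReal.comp h2).mul continuous_const)

/-- the reflection as a homeomorphism -/
def YR_h (σ₁ σ₂ : ℝ) (h1 : σ₁ = 1 ∨ σ₁ = -1) (h2 : σ₂ = 1 ∨ σ₂ = -1) : ℂ ≃ₜ ℂ where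
  toFun := refl σ₁ σ₂
  invFun := refl σ₁ σ₂
  left_inv := refl_refl h1 h2
  right_inv := refl_refl h1 h2
  continuous_toFun := YR_cont σ₁ σ₂
  continuous_invFun := YR_cont σ₁ σ₂

theorem YR_norm {σ₁ σ₂ : ℝ} (h1 : σ₁ = 1 ∨ σ₁ = -1) (h2 : σ₂ = 1 ∨ σ₂ = -1) (z : ℂ) :
    ‖refl σ₁ σ₂ z‖ = ‖z‖ := by
  have h : Complex.normSq (refl σ₁ σ₂ z) = Complex.normSq z := by
    rcases h1 with rfl | rfl <;> rcases h2 with rfl | rfl <;> simp [refl, Complex.normSq_apply]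
  rw [Complex.norm_def, Complex.norm_def, h]

theorem YR_sub (σ₁ σ₂ : ℝ) (z w : ℂ) :
    refl σ₁ σ₂ z - refl σ₁ σ₂ w = refl σ₁ σ₂ (z - w) := by
  apply Complex.ext <;> simp [refl] <;> ring

theorem YR_dist {σ₁ σ₂ : ℝ} (h1 : σ₁ = 1 ∨ σ₁ = -1) (h2 : σ₂ = 1 ∨ σ₂ = -1) (z w : ℂ) :
    dist (refl σ₁ σ₂ z) (refl σ₁ σ₂ w) = dist z w := by
  rw [dist_eq_norm, dist_eq_norm, YR_sub, YR_norm h1 h2]

theorem YR_image {σ₁ σ₂ : ℝ} (h1 : σ₁ = 1 ∨ σ₁ = -1) (h2 : σ₂ = 1 ∨ σ₂ = -1) (S : Set ℂ) :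
    refl σ₁ σ₂ '' S = refl σ₁ σ₂ ⁻¹' S :=
  congrFun (image_eq_preimage_of_inverse (refl_refl h1 h2) (refl_refl h1 h2)) S

theorem YR_map {σ₁ σ₂ : ℝ} (h1 : σ₁ = 1 ∨ σ₁ = -1) (h2 : σ₂ = 1 ∨ σ₂ = -1) (μ : Measure ℂ)
    (S : Set ℂ) : Measure.map (refl σ₁ σ₂) μ S = μ (refl σ₁ σ₂ ⁻¹' S) :=
  (YR_h σ₁ σ₂ h1 h2).toMeasurableEquiv.map_apply S

theorem YR_zero (σ₁ σ₂ : ℝ) : refl σ₁ σ₂ 0 = 0 := by
  apply Complex.ext <;> simp [refl]

theorem refl_fixPE {W : Set ℂ} {φ u G Gi : ℂ → ℂ} {μ : Measure ℂ} {ζ : ℂ} {r₀ : ℝ}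
    (H : FixPE W φ u G Gi μ ζ r₀) {σ₁ σ₂ : ℝ} (h1 : σ₁ = 1 ∨ σ₁ = -1) (h2 : σ₂ = 1 ∨ σ₂ = -1) :
    FixPE (refl σ₁ σ₂ ⁻¹' W) (fun z => refl σ₁ σ₂ (φ z)) (fun w => u (refl σ₁ σ₂ w))
      (fun w => refl σ₁ σ₂ (G (refl σ₁ σ₂ w))) (fun w => refl σ₁ σ₂ (Gi (refl σ₁ σ₂ w)))
      (Measure.map (refl σ₁ σ₂) μ) ζ r₀ := by
  have hc := YR_cont σ₁ σ₂
  have hm : MapsTo (refl σ₁ σ₂) (refl σ₁ σ₂ ⁻¹' W) W := fun z hz => hz
  have hr := refl_refl h1 h2
  refine {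
    hr₀ := H.hr₀, hζ := H.hζ, W_open := H.W_open.preimage hc, zero_notin := ?_,
    φ_cont := hc.comp_continuousOn H.φ_cont, φ_maps := ?_,
    u_cont := H.u_cont.comp hc.continuousOn hm,
    u_maps := fun w hw => H.u_maps hw, uφ := ?_, φu := ?_,
    G_cont := hc.comp_continuousOn (H.G_cont.comp hc.continuousOn hm), G_maps := ?_,
    Gi_cont := hc.comp_continuousOn (H.Gi_cont.comp hc.continuousOn hm), Gi_maps := ?_,
    GiG := ?_, GGi := ?_, fixζ := ?_, μ_inv := ?_, μ_pos := ?_, μ_small := ?_, L0 := ?_, L1 := ?_ }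
  · intro h
    rw [mem_preimage, YR_zero] at h
    exact H.zero_notin h
  · intro z hz
    show refl σ₁ σ₂ (refl σ₁ σ₂ (φ z)) ∈ W
    rw [hr]
    exact H.φ_maps hz
  · intro z hz
    show u (refl σ₁ σ₂ (refl σ₁ σ₂ (φ z))) = z
    rw [hr]
    exact H.uφ z hz
  · intro w hw
    show refl σ₁ σ₂ (φ (u (refl σ₁ σ₂ w))) = w
    rw [H.φu _ hw, hr]
  · intro w hw
    show refl σ₁ σ₂ (refl σ₁ σ₂ (G (refl σ₁ σ₂ w))) ∈ W
    rw [hr]
    exact H.G_maps hw
  · intro w hw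
    show refl σ₁ σ₂ (refl σ₁ σ₂ (Gi (refl σ₁ σ₂ w))) ∈ W
    rw [hr]
    exact H.Gi_maps hw
  · intro w hw
    show refl σ₁ σ₂ (Gi (refl σ₁ σ₂ (refl σ₁ σ₂ (G (refl σ₁ σ₂ w))))) = w
    rw [hr, H.GiG _ hw, hr]
  · intro w hw
    show refl σ₁ σ₂ (G (refl σ₁ σ₂ (refl σ₁ σ₂ (Gi (refl σ₁ σ₂ w))))) = w
    rw [hr, H.GGi _ hw, hr]
  · have h : (fun z => u (refl σ₁ σ₂ (refl σ₁ σ₂ (G (refl σ₁ σ₂ (refl σ₁ σ₂ (φ z))))))) =
        fun z => u (G (φ z)) := by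
      funext z
      rw [hr, hr]
    show Tendsto (fun z => u (refl σ₁ σ₂ (refl σ₁ σ₂ (G (refl σ₁ σ₂ (refl σ₁ σ₂ (φ z)))))))
      (𝓝[ball 0 1] ζ) (𝓝 ζ)
    rw [h]
    exact H.fixζ
  · intro B hB hBm
    rw [YR_map h1 h2, YR_map h1 h2]
    have e : refl σ₁ σ₂ ⁻¹' ((fun w => refl σ₁ σ₂ (G (refl σ₁ σ₂ w))) '' B) =
        G '' (refl σ₁ σ₂ ⁻¹' B) := by
      rw [← YR_image h1 h2, ← YR_image h1 h2, image_image, image_image]
      apply image_congr
      intro w hw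
      exact hr _
    rw [e]
    apply H.μ_inv
    · intro w hw
      have h3 := hB hw
      rw [mem_preimage, hr] at h3
      exact h3
    · exact hc.measurable hBm
  · intro O hO hOo hOn
    rw [YR_map h1 h2]
    apply H.μ_pos
    · intro w hw
      have h3 := hO hw
      rw [mem_preimage, hr] at h3
      exact h3
    · exact hOo.preimage hc
    · obtain ⟨w, hw⟩ := hOn
      exact ⟨refl σ₁ σ₂ w, by rw [mem_preimage, hr]; exact hw⟩
  · intro ε hε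
    obtain ⟨ρ, hρ, h⟩ := H.μ_small ε hε
    refine ⟨ρ, hρ, ?_⟩
    rw [YR_map h1 h2, ← YR_image h1 h2, image_image]
    have e : (fun x => refl σ₁ σ₂ (refl σ₁ σ₂ (φ x))) '' (ball 0 1 ∩ ball ζ ρ) =
        φ '' (ball 0 1 ∩ ball ζ ρ) := image_congr fun w _ => hr _
    rw [e]
    exact h
  · intro ε hε
    obtain ⟨δ, hδ, h⟩ := H.L0 ε hε
    refine ⟨δ, hδ, ?_⟩
    intro γ hγ hp hd z hz w hw
    apply h (refl σ₁ σ₂ '' γ) _ (hp.image _ hc.continuousOn) _ _ (mem_image_of_mem _ hz) _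
      (mem_image_of_mem _ hw)
    · rintro _ ⟨z, hz, rfl⟩
      refine ⟨(hγ hz).1, ?_⟩
      rw [mem_closedBall_zero_iff, YR_norm h1 h2, ← mem_closedBall_zero_iff]
      exact (hγ hz).2
    · rintro _ ⟨z, hz, rfl⟩ _ ⟨w, hw, rfl⟩
      rw [YR_dist h1 h2]
      exact hd z hz w hw
  · intro ε hε
    obtain ⟨ρ, hρ, hρ', h⟩ := H.L1 ε hε
    refine ⟨ρ, hρ, hρ', ?_⟩
    intro z hz hd
    rw [YR_norm h1 h2]
    exact h z hz hd

theorem YR_sq {σ₁ σ₂ r : ℝ} (h1 : σ₁ = 1 ∨ σ₁ = -1) (h2 : σ₂ = 1 ∨ σ₂ = -1) {z : ℂ}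
    (hz : z ∈ Sq r) : refl σ₁ σ₂ z ∈ Sq r := by
  obtain ⟨a, b, c, d⟩ := hz
  rcases h1 with rfl | rfl <;> rcases h2 with rfl | rfl <;>
    (simp only [Sq, Rect, refl, mem_ofPred_eq]; refine ⟨?_, ?_, ?_, ?_⟩ <;> linarith)

theorem YR_hyp_re {G : ℂ → ℂ} {r lp km kp : ℝ} (HL : HypLoc G r lp km kp) {σ₁ σ₂ : ℝ}
    (h1 : σ₁ = 1 ∨ σ₁ = -1) (h2 : σ₂ = 1 ∨ σ₂ = -1) {z : ℂ} (hz : z ∈ Sq r) :
    (z.re = 0 → σ₁ * (G (refl σ₁ σ₂ z)).re = 0) ∧
    (0 < z.re → 0 < σ₁ * (G (refl σ₁ σ₂ z)).re ∧ σ₁ * (G (refl σ₁ σ₂ z)).re ≤ lp * z.re) ∧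
    (z.re < 0 → σ₁ * (G (refl σ₁ σ₂ z)).re < 0 ∧ lp * z.re ≤ σ₁ * (G (refl σ₁ σ₂ z)).re) := by
  have hw := YR_sq h1 h2 hz
  have e : (refl σ₁ σ₂ z).re = σ₁ * z.re := rfl
  refine ⟨fun h => ?_, fun h => ?_, fun h => ?_⟩
  · rw [HL.re0 _ hw (by rw [e, h, mul_zero]), mul_zero]
  · rcases h1 with rfl | rfl
    · have := HL.repos _ hw (by rw [e]; linarith)
      rw [e] at this
      constructor <;> linarith
    · have := HL.reneg _ hw (by rw [e]; linarith)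
      rw [e] at this
      constructor <;> linarith
  · rcases h1 with rfl | rfl
    · have := HL.reneg _ hw (by rw [e]; linarith)
      rw [e] at this
      constructor <;> linarith
    · have := HL.repos _ hw (by rw [e]; linarith)
      rw [e] at this
      constructor <;> linarith

theorem YR_hyp_im {G : ℂ → ℂ} {r lp km kp : ℝ} (HL : HypLoc G r lp km kp) {σ₁ σ₂ : ℝ}
    (h1 : σ₁ = 1 ∨ σ₁ = -1) (h2 : σ₂ = 1 ∨ σ₂ = -1) {z : ℂ} (hz : z ∈ Sq r) :
    (z.im = 0 → σ₂ * (G (refl σ₁ σ₂ z)).im = 0) ∧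
    (0 < z.im → km * z.im ≤ σ₂ * (G (refl σ₁ σ₂ z)).im ∧
      σ₂ * (G (refl σ₁ σ₂ z)).im ≤ kp * z.im) ∧
    (z.im < 0 → σ₂ * (G (refl σ₁ σ₂ z)).im ≤ km * z.im ∧
      kp * z.im ≤ σ₂ * (G (refl σ₁ σ₂ z)).im) := by
  have hw := YR_sq h1 h2 hz
  have e : (refl σ₁ σ₂ z).im = σ₂ * z.im := rfl
  refine ⟨fun h => ?_, fun h => ?_, fun h => ?_⟩
  · rw [HL.im0 _ hw (by rw [e, h, mul_zero]), mul_zero]
  · rcases h2 with rfl | rfl
    · have := HL.impos _ hw (by rw [e]; linarith)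
      rw [e] at this
      constructor <;> linarith
    · have := HL.imneg _ hw (by rw [e]; linarith)
      rw [e] at this
      constructor <;> linarith
  · rcases h2 with rfl | rfl
    · have := HL.imneg _ hw (by rw [e]; linarith)
      rw [e] at this
      constructor <;> linarith
    · have := HL.impos _ hw (by rw [e]; linarith)
      rw [e] at this
      constructor <;> linarith

theorem refl_hypLoc {G : ℂ → ℂ} {r lp km kp : ℝ} (HL : HypLoc G r lp km kp) {σ₁ σ₂ : ℝ}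
    (h1 : σ₁ = 1 ∨ σ₁ = -1) (h2 : σ₂ = 1 ∨ σ₂ = -1) :
    HypLoc (fun w => refl σ₁ σ₂ (G (refl σ₁ σ₂ w))) r lp km kp where
  hr := HL.hr
  hlp := HL.hlp
  hlp1 := HL.hlp1
  hkm := HL.hkm
  hkp := HL.hkp
  cont := (YR_cont σ₁ σ₂).comp_continuousOn
    (HL.cont.comp (YR_cont σ₁ σ₂).continuousOn fun z hz => YR_sq h1 h2 hz)
  re0 := fun z hz => (YR_hyp_re HL h1 h2 hz).1
  repos := fun z hz => (YR_hyp_re HL h1 h2 hz).2.1
  reneg := fun z hz => (YR_hyp_re HL h1 h2 hz).2.2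
  im0 := fun z hz => (YR_hyp_im HL h1 h2 hz).1
  impos := fun z hz => (YR_hyp_im HL h1 h2 hz).2.1
  imneg := fun z hz => (YR_hyp_im HL h1 h2 hz).2.2
  mono := by
    intro z hz w hw hre him
    show σ₂ * (G (refl σ₁ σ₂ z)).im < σ₂ * (G (refl σ₁ σ₂ w)).im
    have hz' := YR_sq h1 h2 hz
    have hw' := YR_sq h1 h2 hw
    have hre' : (refl σ₁ σ₂ z).re = (refl σ₁ σ₂ w).re := by
      show σ₁ * z.re = σ₁ * w.re
      rw [hre]
    rcases h2 with rfl | rfl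
    · have := HL.mono _ hz' _ hw' hre' (by show 1 * z.im < 1 * w.im; linarith)
      linarith
    · have := HL.mono _ hw' _ hz' hre'.symm (by show -1 * w.im < -1 * z.im; linarith)
      linarith

/-- components are transported by reflections -/
theorem refl_cc {σ₁ σ₂ : ℝ} (h1 : σ₁ = 1 ∨ σ₁ = -1) (h2 : σ₂ = 1 ∨ σ₂ = -1) (F : Set ℂ) (w : ℂ) :
    refl σ₁ σ₂ '' connectedComponentIn F w =
      connectedComponentIn (refl σ₁ σ₂ '' F) (refl σ₁ σ₂ w) := by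
  by_cases hw : w ∈ F
  · exact (YR_h σ₁ σ₂ h1 h2).image_connectedComponentIn hw
  · rw [connectedComponentIn_eq_empty hw, connectedComponentIn_eq_empty, image_empty]
    rintro ⟨v, hv, hvw⟩
    have : v = w := by rw [← refl_refl h1 h2 v, hvw, refl_refl h1 h2]
    exact hw (this ▸ hv)

theorem refl_sep {W : Set ℂ} {φ : ℂ → ℂ} {ζ : ℂ} {A : Set ℂ} {σ₁ σ₂ : ℝ}
    (h1 : σ₁ = 1 ∨ σ₁ = -1) (h2 : σ₂ = 1 ∨ σ₂ = -1) (h : Sep W φ ζ A) :
    Sep (refl σ₁ σ₂ ⁻¹' W) (fun z => refl σ₁ σ₂ (φ z)) ζ (refl σ₁ σ₂ '' A) := by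
  have hr := refl_refl h1 h2
  have hinj : Function.Injective (refl σ₁ σ₂) := Function.LeftInverse.injective hr
  have hset : refl σ₁ σ₂ ⁻¹' W \ refl σ₁ σ₂ '' A = refl σ₁ σ₂ '' (W \ A) := by
    rw [← YR_image h1 h2, image_sdiff hinj]
  obtain ⟨h0, ρ, hρ, hd⟩ := h
  refine ⟨?_, ρ, hρ, ?_⟩
  · rw [hset]
    exact mem_image_of_mem _ h0
  · intro z hz hzρ
    obtain ⟨ha, hb⟩ := hd z hz hzρ
    refine ⟨?_, ?_⟩
    · intro h
      exact ha ((hinj.mem_set_image).1 h)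
    · intro h
      rw [hset] at h
      have h' : refl σ₁ σ₂ (φ z) ∈ connectedComponentIn (refl σ₁ σ₂ '' (W \ A))
        (refl σ₁ σ₂ (φ 0)) := h
      rw [← refl_cc h1 h2] at h'
      exact hb ((hinj.mem_set_image).1 h')

/-- reflected rectangle in the horizontal direction -/
theorem refl_sep_h {W : Set ℂ} {φ : ℂ → ℂ} {ζ : ℂ} {a b c d : ℝ} {w : ℂ}
    (h : Sep W φ ζ (cc W a b c d w)) :
    Sep (refl (-1) 1 ⁻¹' W) (fun z => refl (-1) 1 (φ z)) ζ
      (cc (refl (-1) 1 ⁻¹' W) (-b) (-a) c d (refl (-1) 1 w)) := by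
  have h' := refl_sep (σ₁ := -1) (σ₂ := 1) (Or.inr rfl) (Or.inl rfl) h
  have e : refl (-1) 1 '' cc W a b c d w =
      cc (refl (-1) 1 ⁻¹' W) (-b) (-a) c d (refl (-1) 1 w) := by
    unfold cc
    rw [refl_cc (Or.inr rfl) (Or.inl rfl)]
    congr 1
    rw [YR_image (Or.inr rfl) (Or.inl rfl), preimage_inter]
    congr 1
    ext z
    simp only [Bd, Rect, refl, mem_preimage, mem_ofPred_eq]
    constructor
    · rintro ⟨⟨p, q, r, s⟩, t⟩
      refine ⟨⟨by linarith, by linarith, by linarith, by linarith⟩, ?_⟩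
      rcases t with t | t | t | t
      · right; left; linarith
      · left; linarith
      · right; right; left; linarith
      · right; right; right; linarith
    · rintro ⟨⟨p, q, r, s⟩, t⟩
      refine ⟨⟨by linarith, by linarith, by linarith, by linarith⟩, ?_⟩
      rcases t with t | t | t | t
      · right; left; linarith
      · left; linarith
      · right; right; left; linarith
      · right; right; right; linarith
  rw [e] at h'
  exact h'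

/-- reflected rectangle in the vertical direction -/
theorem refl_sep_v {W : Set ℂ} {φ : ℂ → ℂ} {ζ : ℂ} {a b c d : ℝ} {w : ℂ}
    (h : Sep W φ ζ (cc W a b c d w)) :
    Sep (refl 1 (-1) ⁻¹' W) (fun z => refl 1 (-1) (φ z)) ζ
      (cc (refl 1 (-1) ⁻¹' W) a b (-d) (-c) (refl 1 (-1) w)) := by
  have h' := refl_sep (σ₁ := 1) (σ₂ := -1) (Or.inl rfl) (Or.inr rfl) h
  have e : refl 1 (-1) '' cc W a b c d w =
      cc (refl 1 (-1) ⁻¹' W) a b (-d) (-c) (refl 1 (-1) w) := by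
    unfold cc
    rw [refl_cc (Or.inl rfl) (Or.inr rfl)]
    congr 1
    rw [YR_image (Or.inl rfl) (Or.inr rfl), preimage_inter]
    congr 1
    ext z
    simp only [Bd, Rect, refl, mem_preimage, mem_ofPred_eq]
    constructor
    · rintro ⟨⟨p, q, r, s⟩, t⟩
      refine ⟨⟨by linarith, by linarith, by linarith, by linarith⟩, ?_⟩
      rcases t with t | t | t | t
      · left; linarith
      · right; left; linarith
      · right; right; right; linarith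
      · right; right; left; linarith
    · rintro ⟨⟨p, q, r, s⟩, t⟩
      refine ⟨⟨by linarith, by linarith, by linarith, by linarith⟩, ?_⟩
      rcases t with t | t | t | t
      · left; linarith
      · right; left; linarith
      · right; right; right; linarith
      · right; right; left; linarith
  rw [e] at h'
  exact h'

theorem refl_sep_hv {W : Set ℂ} {φ : ℂ → ℂ} {ζ : ℂ} {a b c d : ℝ} {w : ℂ}
    (h : Sep W φ ζ (cc W a b c d w)) :
    Sep (refl (-1) (-1) ⁻¹' W) (fun z => refl (-1) (-1) (φ z)) ζ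
      (cc (refl (-1) (-1) ⁻¹' W) (-b) (-a) (-d) (-c) (refl (-1) (-1) w)) := by
  have h' := refl_sep (σ₁ := -1) (σ₂ := -1) (Or.inr rfl) (Or.inr rfl) h
  have e : refl (-1) (-1) '' cc W a b c d w =
      cc (refl (-1) (-1) ⁻¹' W) (-b) (-a) (-d) (-c) (refl (-1) (-1) w) := by
    unfold cc
    rw [refl_cc (Or.inr rfl) (Or.inr rfl)]
    congr 1
    rw [YR_image (Or.inr rfl) (Or.inr rfl), preimage_inter]
    congr 1
    ext z
    simp only [Bd, Rect, refl, mem_preimage, mem_ofPred_eq]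
    constructor
    · rintro ⟨⟨p, q, r, s⟩, t⟩
      refine ⟨⟨by linarith, by linarith, by linarith, by linarith⟩, ?_⟩
      rcases t with t | t | t | t
      · right; left; linarith
      · left; linarith
      · right; right; right; linarith
      · right; right; left; linarith
    · rintro ⟨⟨p, q, r, s⟩, t⟩
      refine ⟨⟨by linarith, by linarith, by linarith, by linarith⟩, ?_⟩
      rcases t with t | t | t | t
      · right; left; linarith
      · left; linarith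
      · right; right; right; linarith
      · right; right; left; linarith
  rw [e] at h'
  exact h'

end DS
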