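import Pool.Agent.H36.DS.PD
import Pool.Agent.H36.DS.PG
import Pool.Agent.H36.DS.YA
import Pool.Agent.H36.DS.YD
import Pool.Agent.H36.DS.YR

/-!
YE (local analysis at a hyperbolic principal point).  Proof.  Let `r₁` be from `area_meet`.
For every `n` choose a rectangle `a < 0 < b`, `c < 0 < d` of size `< 1/(n+1)`, contained in `closedBall 0 r₁ ∩ Sq r`, not
containing `φ 0` (possible as `φ 0 ≠ 0`), such that `(0,d) ∉ W` unless a piece of the upper vertical half axis is in `W`, and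
`(0,c) ∉ W` unless a piece of the lower vertical half axis is in `W`.  By `exists_sep` there is `w` with
`Sep (cc W a b c d w)`; by `area_meet` and `corner_in` this component contains one of the four corners `v`, and
`cc W a b c d w = cc W a b c d v`.  Some type of corner occurs for infinitely many `n`.  Apply `good_quad` to the reflected system
(`refl_fixPE`, `refl_hypLoc`, `refl_sep_h`, `refl_sep_v`, `refl_sep_hv`; the hypothesis `hNP` in the reflected coordinates).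
-/

namespace DS
open Metric Set Filter Topology MeasureTheory

/-- small rectangles with the given corner in a separating component -/
def YE_Q (W : Set ℂ) (φ : ℂ → ℂ) (ζ : ℂ) (k : Fin 4) (ε : ℝ) : Prop :=
  ∃ a b c d : ℝ, -ε < a ∧ a < 0 ∧ 0 < b ∧ b < ε ∧ -ε < c ∧ c < 0 ∧ 0 < d ∧ d < ε ∧
    (((⟨0, d⟩ : ℂ) ∉ W ∨ ∃ t₀ > 0, ∀ y : ℝ, 0 < y → y ≤ t₀ → (⟨0, y⟩ : ℂ) ∈ W) ∧
     ((⟨0, c⟩ : ℂ) ∉ W ∨ ∃ t₀ > 0, ∀ y : ℝ, 0 < y → y ≤ t₀ → (⟨0, -y⟩ : ℂ) ∈ W)) ∧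
    (![(⟨b, d⟩ : ℂ), ⟨a, d⟩, ⟨b, c⟩, ⟨a, c⟩] k ∈ W ∧
      Sep W φ ζ (cc W a b c d (![(⟨b, d⟩ : ℂ), ⟨a, d⟩, ⟨b, c⟩, ⟨a, c⟩] k)))

theorem YE_mono {W : Set ℂ} {φ : ℂ → ℂ} {ζ : ℂ} {k : Fin 4} {ε ε' : ℝ} (h : ε ≤ ε')
    (hQ : YE_Q W φ ζ k ε) : YE_Q W φ ζ k ε' := by
  obtain ⟨a, b, c, d, h1, h2, h3, h4, h5, h6, h7, h8, h9⟩ := hQ
  exact ⟨a, b, c, d, by linarith, h2, h3, by linarith, by linarith, h6, h7, by linarith, h9⟩

theorem YE_choose (W : Set ℂ) (s : ℝ) {ε : ℝ} (hε : 0 < ε) :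
    ∃ d, 0 < d ∧ d < ε ∧ ((⟨0, s * d⟩ : ℂ) ∉ W ∨
      ∃ t₀ > 0, ∀ y : ℝ, 0 < y → y ≤ t₀ → (⟨0, s * y⟩ : ℂ) ∈ W) := by
  by_cases h : ∃ t₀ > 0, ∀ y : ℝ, 0 < y → y ≤ t₀ → (⟨0, s * y⟩ : ℂ) ∈ W
  · exact ⟨ε / 2, by linarith, by linarith, Or.inr h⟩
  · push Not at h
    obtain ⟨y, hy0, hy1, hy2⟩ := h (ε / 2) (by linarith)
    exact ⟨y, hy0, by linarith, Or.inl hy2⟩

theorem YE_pigeon {W : Set ℂ} {φ : ℂ → ℂ} {ζ : ℂ} (h : ∀ ε > 0, ∃ k, YE_Q W φ ζ k ε) :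
    ∃ k, ∀ ε > 0, YE_Q W φ ζ k ε := by
  by_contra hcon
  push Not at hcon
  choose e he hQ using hcon
  obtain ⟨m, hm, hmin⟩ : ∃ m > 0, ∀ k, m ≤ e k := by
    refine ⟨min (min (e 0) (e 1)) (min (e 2) (e 3)), ?_, ?_⟩
    · exact lt_min (lt_min (he 0) (he 1)) (lt_min (he 2) (he 3))
    · intro k
      fin_cases k
      · exact (min_le_left _ _).trans (min_le_left _ _)
      · exact (min_le_left _ _).trans (min_le_right _ _)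
      · exact (min_le_right _ _).trans (min_le_left _ _)
      · exact (min_le_right _ _).trans (min_le_right _ _)
  obtain ⟨k, hk⟩ := h m hm
  exact hQ k (YE_mono (hmin k) hk)

theorem YE_exists {W : Set ℂ} {φ u G Gi : ℂ → ℂ} {μ : Measure ℂ} {ζ : ℂ} {r₀ : ℝ}
    (H : FixPE W φ u G Gi μ ζ r₀) {r lp km kp : ℝ} (HL : HypLoc G r lp km kp)
    (hax : ∀ x : ℝ, |x| ≤ r → (⟨x, 0⟩ : ℂ) ∉ W) (ε : ℝ) (hε : 0 < ε) :
    ∃ k, YE_Q W φ ζ k ε := by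
  obtain ⟨r₁, hr₁, hmeet⟩ := area_meet H
  have h0W : φ 0 ∈ W := H.φ_maps (mem_ball_self one_pos)
  have h0 : 0 < ‖φ 0‖ := by
    rw [norm_pos_iff]
    intro h
    exact H.zero_notin (h ▸ h0W)
  set e : ℝ := min (min ε r) (min (r₁ / 2) (‖φ 0‖ / 2)) with he
  have hr : 0 < r := HL.hr
  have hepos : 0 < e := lt_min (lt_min hε hr) (lt_min (by linarith) (by linarith))
  have he1 : e ≤ ε := (min_le_left _ _).trans (min_le_left _ _)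
  have he2 : e ≤ r := (min_le_left _ _).trans (min_le_right _ _)
  have he3 : e ≤ r₁ / 2 := (min_le_right _ _).trans (min_le_left _ _)
  have he4 : e ≤ ‖φ 0‖ / 2 := (min_le_right _ _).trans (min_le_right _ _)
  obtain ⟨d, hd0, hde, hdW⟩ := YE_choose W 1 hepos
  obtain ⟨c', hc0, hce, hcW⟩ := YE_choose W (-1) hepos
  simp only [one_mul] at hdW
  simp only [neg_mul, one_mul] at hcW
  have ha : -(e / 2) < 0 := by linarith
  have hb : 0 < e / 2 := by linarith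
  have hc : -c' < 0 := by linarith
  have hnorm : ∀ z ∈ Rect (-(e / 2)) (e / 2) (-c') d, |z.re| < e ∧ |z.im| < e := by
    rintro z ⟨h1, h2, h3, h4⟩
    constructor
    · rw [abs_lt]; constructor <;> linarith
    · rw [abs_lt]; constructor <;> linarith
  have hnorm2 : ∀ z ∈ Rect (-(e / 2)) (e / 2) (-c') d, ‖z‖ < 2 * e := by
    intro z hz
    have h1 := hnorm z hz
    have h2 := Complex.norm_le_abs_re_add_abs_im z
    linarith [h1.1, h1.2]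
  have hR1 : Rect (-(e / 2)) (e / 2) (-c') d ⊆ closedBall 0 r₁ := by
    intro z hz
    rw [mem_closedBall_zero_iff]
    have := hnorm2 z hz
    linarith
  have hR2 : Rect (-(e / 2)) (e / 2) (-c') d ⊆ Sq r := by
    intro z hz
    obtain ⟨h1, h2⟩ := hnorm z hz
    rw [abs_lt] at h1 h2
    exact ⟨by linarith, by linarith, by linarith, by linarith⟩
  have hR3 : φ 0 ∉ Rect (-(e / 2)) (e / 2) (-c') d := by
    intro h
    have := hnorm2 _ h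
    linarith
  obtain ⟨w, hw, hsep⟩ := exists_sep H ha hb hc hd0 hR3
  have hm := hmeet _ _ _ _ (ha.trans hb) (hc.trans hd0) hR1 w hw hsep
  have hcor := corner_in HL hax ha hb hc hd0 hR2 hm
  have hcc : ∀ v ∈ cc W (-(e / 2)) (e / 2) (-c') d w,
      v ∈ W ∧ Sep W φ ζ (cc W (-(e / 2)) (e / 2) (-c') d v) := by
    intro v hv
    have h1 : v ∈ Bd (-(e / 2)) (e / 2) (-c') d ∩ W := connectedComponentIn_subset _ _ hv
    have h2 : cc W (-(e / 2)) (e / 2) (-c') d w = cc W (-(e / 2)) (e / 2) (-c') d v :=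
      connectedComponentIn_eq hv
    exact ⟨h1.2, h2 ▸ hsep⟩
  rcases hcor with h | h | h | h
  · exact ⟨0, _, _, _, _, by linarith, ha, hb, by linarith, by linarith, hc, hd0, by linarith,
      ⟨hdW, hcW⟩, hcc _ h⟩
  · exact ⟨1, _, _, _, _, by linarith, ha, hb, by linarith, by linarith, hc, hd0, by linarith,
      ⟨hdW, hcW⟩, hcc _ h⟩
  · exact ⟨2, _, _, _, _, by linarith, ha, hb, by linarith, by linarith, hc, hd0, by linarith,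
      ⟨hdW, hcW⟩, hcc _ h⟩
  · exact ⟨3, _, _, _, _, by linarith, ha, hb, by linarith, by linarith, hc, hd0, by linarith,
      ⟨hdW, hcW⟩, hcc _ h⟩

theorem YE_apply {W : Set ℂ} {φ u G Gi : ℂ → ℂ} {μ : Measure ℂ} {ζ : ℂ} {r₀ : ℝ}
    (H : FixPE W φ u G Gi μ ζ r₀) {r lp km kp : ℝ} (HL : HypLoc G r lp km kp)
    (hWi : ∀ z ∈ Sq r, G z ∈ W → z ∈ W) (hax : ∀ x : ℝ, |x| ≤ r → (⟨x, 0⟩ : ℂ) ∉ W)
    {σ₁ σ₂ : ℝ} (h1 : σ₁ = 1 ∨ σ₁ = -1) (h2 : σ₂ = 1 ∨ σ₂ = -1)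
    (hNP : ∀ ε > 0, ∃ a b c d : ℝ, -ε < a ∧ a < 0 ∧ 0 < b ∧ b < ε ∧ -ε < c ∧ c < 0 ∧ 0 < d ∧ d < ε ∧
      (⟨b, d⟩ : ℂ) ∈ refl σ₁ σ₂ ⁻¹' W ∧
      Sep (refl σ₁ σ₂ ⁻¹' W) (fun z => refl σ₁ σ₂ (φ z)) ζ
        (cc (refl σ₁ σ₂ ⁻¹' W) a b c d ⟨b, d⟩) ∧
      ((⟨0, d⟩ : ℂ) ∉ refl σ₁ σ₂ ⁻¹' W ∨
        ∃ t₀ > 0, ∀ y : ℝ, 0 < y → y ≤ t₀ → (⟨0, y⟩ : ℂ) ∈ refl σ₁ σ₂ ⁻¹' W)) :
    ∃ σ₁ σ₂ δ : ℝ, (σ₁ = 1 ∨ σ₁ = -1) ∧ (σ₂ = 1 ∨ σ₂ = -1) ∧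
      GoodQuad (refl σ₁ σ₂ ⁻¹' W) (fun w => u (refl σ₁ σ₂ w)) ζ δ := by
  have hSq : ∀ z ∈ Sq r, refl σ₁ σ₂ z ∈ Sq r := by
    rintro z ⟨z1, z2, z3, z4⟩
    rcases h1 with rfl | rfl <;> rcases h2 with rfl | rfl <;>
      refine ⟨?_, ?_, ?_, ?_⟩ <;> simp only [refl, one_mul, neg_mul] <;> linarith
  obtain ⟨δ, hδ⟩ := good_quad (refl_fixPE H h1 h2) (refl_hypLoc HL h1 h2)
    (by
      intro z hz hG
      have hG' : refl σ₁ σ₂ (refl σ₁ σ₂ (G (refl σ₁ σ₂ z))) ∈ W := hG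
      rw [refl_refl h1 h2] at hG'
      exact hWi _ (hSq z hz) hG')
    (by
      intro x hx hmem
      have hmem' : (⟨σ₁ * x, σ₂ * 0⟩ : ℂ) ∈ W := hmem
      rw [mul_zero] at hmem'
      refine hax (σ₁ * x) ?_ hmem'
      rcases h1 with rfl | rfl
      · rwa [one_mul]
      · rwa [neg_one_mul, abs_neg]) hNP
  exact ⟨σ₁, σ₂, δ, h1, h2, hδ⟩

theorem local_hyp {W : Set ℂ} {φ u G Gi : ℂ → ℂ} {μ : Measure ℂ} {ζ : ℂ} {r₀ : ℝ}
    (H : FixPE W φ u G Gi μ ζ r₀) {r lp km kp : ℝ} (HL : HypLoc G r lp km kp)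
    (hWi : ∀ z ∈ Sq r, G z ∈ W → z ∈ W) (hax : ∀ x : ℝ, |x| ≤ r → (⟨x, 0⟩ : ℂ) ∉ W) :
    ∃ σ₁ σ₂ δ : ℝ, (σ₁ = 1 ∨ σ₁ = -1) ∧ (σ₂ = 1 ∨ σ₂ = -1) ∧
      GoodQuad (refl σ₁ σ₂ ⁻¹' W) (fun w => u (refl σ₁ σ₂ w)) ζ δ := by
  obtain ⟨k, hk⟩ := YE_pigeon (YE_exists H HL hax)
  fin_cases k
  · refine YE_apply H HL hWi hax (Or.inl rfl) (Or.inl rfl) ?_
    have hid : refl 1 1 = id := by
      funext z
      simp [refl]
    intro ε hε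
    obtain ⟨a, b, c, d, k1, k2, k3, k4, k5, k6, k7, k8, ⟨k9, -⟩, k10, k11⟩ := hk ε hε
    refine ⟨a, b, c, d, k1, k2, k3, k4, k5, k6, k7, k8, ?_⟩
    rw [hid]
    exact ⟨k10, k11, k9⟩
  · refine YE_apply H HL hWi hax (Or.inr rfl) (Or.inl rfl) ?_
    intro ε hε
    obtain ⟨a, b, c, d, k1, k2, k3, k4, k5, k6, k7, k8, ⟨k9, -⟩, k10, k11⟩ := hk ε hε
    refine ⟨-b, -a, c, d, by linarith, by linarith, by linarith, by linarith, k5, k6, k7, k8,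
      ?_, ?_, ?_⟩
    · change (⟨-1 * -a, 1 * d⟩ : ℂ) ∈ W
      have : (⟨-1 * -a, 1 * d⟩ : ℂ) = ⟨a, d⟩ := by congr 1 <;> ring
      rw [this]
      exact k10
    · have h3 := refl_sep_h (W := W) (φ := φ) (ζ := ζ) (a := a) (b := b) (c := c) (d := d)
        (w := ⟨a, d⟩) k11
      have : refl (-1) 1 (⟨a, d⟩ : ℂ) = ⟨-a, d⟩ := by
        simp [refl]
      rw [this] at h3
      exact h3
    · have h4 : ∀ y : ℝ, (⟨0, y⟩ : ℂ) ∈ refl (-1) 1 ⁻¹' W ↔ (⟨0, y⟩ : ℂ) ∈ W := by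
        intro y
        have : refl (-1) 1 (⟨0, y⟩ : ℂ) = ⟨0, y⟩ := by simp [refl]
        rw [Set.mem_preimage, this]
      simp only [h4]
      exact k9
  · refine YE_apply H HL hWi hax (Or.inl rfl) (Or.inr rfl) ?_
    intro ε hε
    obtain ⟨a, b, c, d, k1, k2, k3, k4, k5, k6, k7, k8, ⟨-, k9⟩, k10, k11⟩ := hk ε hε
    refine ⟨a, b, -d, -c, k1, k2, k3, k4, by linarith, by linarith, by linarith, by linarith,
      ?_, ?_, ?_⟩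
    · change (⟨1 * b, -1 * -c⟩ : ℂ) ∈ W
      have : (⟨1 * b, -1 * -c⟩ : ℂ) = ⟨b, c⟩ := by congr 1 <;> ring
      rw [this]
      exact k10
    · have h3 := refl_sep_v (W := W) (φ := φ) (ζ := ζ) (a := a) (b := b) (c := c) (d := d)
        (w := ⟨b, c⟩) k11
      have : refl 1 (-1) (⟨b, c⟩ : ℂ) = ⟨b, -c⟩ := by
        simp [refl]
      rw [this] at h3
      exact h3
    · have h4 : ∀ y : ℝ, (⟨0, y⟩ : ℂ) ∈ refl 1 (-1) ⁻¹' W ↔ (⟨0, -y⟩ : ℂ) ∈ W := by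
        intro y
        have : refl 1 (-1) (⟨0, y⟩ : ℂ) = ⟨0, -y⟩ := by simp [refl]
        rw [Set.mem_preimage, this]
      simp only [h4, neg_neg]
      exact k9
  · refine YE_apply H HL hWi hax (Or.inr rfl) (Or.inr rfl) ?_
    intro ε hε
    obtain ⟨a, b, c, d, k1, k2, k3, k4, k5, k6, k7, k8, ⟨-, k9⟩, k10, k11⟩ := hk ε hε
    refine ⟨-b, -a, -d, -c, by linarith, by linarith, by linarith, by linarith, by linarith,
      by linarith, by linarith, by linarith, ?_, ?_, ?_⟩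
    · change (⟨-1 * -a, -1 * -c⟩ : ℂ) ∈ W
      have : (⟨-1 * -a, -1 * -c⟩ : ℂ) = ⟨a, c⟩ := by congr 1 <;> ring
      rw [this]
      exact k10
    · have h3 := refl_sep_hv (W := W) (φ := φ) (ζ := ζ) (a := a) (b := b) (c := c) (d := d)
        (w := ⟨a, c⟩) k11
      have : refl (-1) (-1) (⟨a, c⟩ : ℂ) = ⟨-a, -c⟩ := by
        simp [refl]
      rw [this] at h3
      exact h3
    · have h4 : ∀ y : ℝ, (⟨0, y⟩ : ℂ) ∈ refl (-1) (-1) ⁻¹' W ↔ (⟨0, -y⟩ : ℂ) ∈ W := by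
        intro y
        have : refl (-1) (-1) (⟨0, y⟩ : ℂ) = ⟨0, -y⟩ := by simp [refl]
        rw [Set.mem_preimage, this]
      simp only [h4, neg_neg]
      exact k9

end DS
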