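import Pool.Agent.H36.DS.JBase
import Pool.Agent.H36.DS.XD
import Pool.Agent.H36.DS.YE
import Pool.Agent.H36.DS.EA
import Pool.Agent.H36.DS.HB

/-!
JD (elliptic principal points are impossible; good charts at hyperbolic ones).
`fixes_end`: `hb` is continuous on the closed disc, `hb ζ = ζ`, and `hb = u ∘ g ∘ φ` on the open disc.
`no_ell_end`: let `P', χ, κ, w₁` be from `EllPt`, `W = κ ⁻¹' Kᶜ`, `G = χ ∘ g ∘ κ`.  For `j > 0` the homeomorphism `g^[j]` has the boundary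
map `hb^[j]` (`endMap_iter`), which fixes `ζ`; `fixPE_of` gives a `FixPE` structure with `Gj = χ ∘ g^[j] ∘ κ`, and `Gj = G^[j]` on
`W` by induction (`κ (G w) = g (κ w)` for `w ∈ W`, because `g (κ w) ∉ K`, so it is `≠ P'`).  The measure `ν` is invariant under
`g^[j]` for subsets of `Kᶜ`.  Apply `elliptic_false`.
`exists_good`: from `HypChart` for `g`; `fixPE_of` gives `FixPE` for any `r₀`, say `r₀ = 1`; `hWi`: if `z ∈ Sq r` and
`G z ∈ W` then `g (κ z) = κ (G z) ∉ K` (`g (κ z) ≠ P'`), so `κ z ∉ K`; `local_hyp` gives `σ₁, σ₂, δ` with `GoodQuad` for the reflected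
system; put `χ' = refl σ₁ σ₂ ∘ χ`, `κ' = κ ∘ refl σ₁ σ₂` (`refl_refl`), `refl_fixPE`, `refl_hypLoc`; `HypChart` for `χ', κ'`: the axis, `sp` and
`cross` are symmetric under reflections.  `GoodQuad` is monotone in `δ`: shrink `δ` below `r / 2` and `r₀ / 8`.
-/

namespace DS
open Metric Set Filter Topology MeasureTheory

private theorem JD_image_iter {X : Type*} {K : Set X} {g : X → X} (hgK : g '' K = K) (j : ℕ) :
    g^[j] '' K = K := by
  induction j with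
  | zero => simp
  | succ n ih => rw [Function.iterate_succ', image_comp, ih, hgK]

private theorem JD_inv_iter {X : Type*} {g gi : X → X} (h : ∀ x, g (gi x) = x) (j : ℕ) (x : X) :
    g^[j] (gi^[j] x) = x :=
  Function.LeftInverse.iterate h j x

private theorem JD_maps {X : Type*} {K : Set X} {g gi : X → X} (hgig : ∀ x, gi (g x) = x)
    (hgK : g '' K = K) : MapsTo g Kᶜ Kᶜ := by
  intro x hx hgx
  rw [← hgK] at hgx
  obtain ⟨y, hy, hyx⟩ := hgx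
  have : y = x := by rw [← hgig y, hyx, hgig]
  exact hx (this ▸ hy)

private theorem JD_maps' {X : Type*} {K : Set X} {g gi : X → X} (hggi : ∀ x, g (gi x) = x)
    (hgK : g '' K = K) : MapsTo gi Kᶜ Kᶜ := by
  intro x hx hgx
  apply hx
  rw [← hggi x, ← hgK]
  exact ⟨_, hgx, rfl⟩

private theorem JD_nu_iter {X : Type*} [MetricSpace X] [MeasurableSpace X] [BorelSpace X] {K : Set X}
    {g gi : X → X} (hg : Continuous g) (hgi : Continuous gi) (hggi : ∀ x, g (gi x) = x)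
    (hgig : ∀ x, gi (g x) = x) (hgK : g '' K = K) (ν : Measure X)
    (hν : ∀ B ⊆ Kᶜ, MeasurableSet B → ν (g '' B) = ν B) (j : ℕ) :
    ∀ B ⊆ Kᶜ, MeasurableSet B → ν (g^[j] '' B) = ν B := by
  induction j with
  | zero => intro B _ _; simp
  | succ n ih =>
    intro B hB hBm
    rw [Function.iterate_succ, image_comp]
    have h1 : g '' B = gi ⁻¹' B := by
      ext y
      constructor
      · rintro ⟨x, hx, rfl⟩
        simpa [hgig] using hx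
      · intro hy
        exact ⟨gi y, hy, hggi y⟩
    rw [ih, hν B hB hBm]
    · exact (mapsTo_iff_image_subset.1 ((JD_maps hgig hgK).mono_left hB))
    · rw [h1]; exact hgi.measurable hBm

private theorem JD_abs {σ : ℝ} (h : σ = 1 ∨ σ = -1) (x : ℝ) : |σ * x| = |x| := by
  rcases h with rfl | rfl <;> simp

private theorem JD_refl_sq {σ₁ σ₂ : ℝ} (h1 : σ₁ = 1 ∨ σ₁ = -1) (h2 : σ₂ = 1 ∨ σ₂ = -1) {r : ℝ}
    {z : ℂ} (hz : z ∈ Sq r) : refl σ₁ σ₂ z ∈ Sq r := by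
  obtain ⟨a, b, c, d⟩ := hz
  rcases h1 with rfl | rfl <;> rcases h2 with rfl | rfl <;>
    refine ⟨?_, ?_, ?_, ?_⟩ <;> simp only [refl] <;> linarith

private theorem JD_refl_cont {σ₁ σ₂ : ℝ} : Continuous (refl σ₁ σ₂) := by
  have : refl σ₁ σ₂ = fun z : ℂ => ((σ₁ * z.re : ℝ) : ℂ) + ((σ₂ * z.im : ℝ) : ℂ) * Complex.I := by
    funext z
    apply Complex.ext <;> simp [refl]
  rw [this]
  fun_prop

private theorem JD_refl_dist {σ₁ σ₂ : ℝ} (h1 : σ₁ = 1 ∨ σ₁ = -1) (h2 : σ₂ = 1 ∨ σ₂ = -1) (z w : ℂ) :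
    dist (refl σ₁ σ₂ z) (refl σ₁ σ₂ w) = dist z w := by
  rw [Complex.dist_eq_re_im, Complex.dist_eq_re_im]
  rcases h1 with rfl | rfl <;> rcases h2 with rfl | rfl <;> simp only [refl] <;> congr 1 <;> ring

private theorem JD_quad_mono {W : Set ℂ} {u : ℂ → ℂ} {ζ : ℂ} {δ δ' : ℝ} (h : GoodQuad W u ζ δ)
    (h0 : 0 < δ') (hle : δ' ≤ δ) : GoodQuad W u ζ δ' := by
  refine ⟨h0, fun x y hx hx' hy hy' => h.sub x y hx (hx'.trans hle) hy (hy'.trans hle), h.lim, ?_⟩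
  rcases h.alt with h1 | ⟨h1, h2⟩
  · exact Or.inl h1
  · exact Or.inr ⟨fun x y hx hy hy' => h1 x y (hx.trans hle) hy (hy'.trans hle), h2⟩

private theorem JD_chart {X : Type*} [TopologicalSpace X] {K : Set X} {SP : X → Prop} {g : X → X}
    {P P' : X} {χ : X → ℂ} {κ : ℂ → X} {r lp km kp : ℝ} (hH : HypChart K SP g P P' χ κ r lp km kp)
    {σ₁ σ₂ : ℝ} (h1 : σ₁ = 1 ∨ σ₁ = -1) (h2 : σ₂ = 1 ∨ σ₂ = -1) :
    HypChart K SP g P P' (fun x => refl σ₁ σ₂ (χ x)) (fun w => κ (refl σ₁ σ₂ w)) r lp km kp := by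
  have hre : ∀ x : ℝ, refl σ₁ σ₂ ⟨x, 0⟩ = ⟨σ₁ * x, 0⟩ := by
    intro x; apply Complex.ext <;> simp [refl]
  have him : ∀ x : ℝ, refl σ₁ σ₂ ⟨0, x⟩ = ⟨0, σ₂ * x⟩ := by
    intro x; apply Complex.ext <;> simp [refl]
  refine ⟨⟨hH.ch.hP', hH.ch.κ_cont.comp JD_refl_cont, fun z => hH.ch.κ_ne _, ?_, ?_, ?_, ?_⟩,
    refl_hypLoc hH.loc h1 h2, fun w hw => hH.ne _ (JD_refl_sq h1 h2 hw), ?_, ?_, ?_⟩
  · intro z
    simp only [hH.ch.χκ, refl_refl h1 h2]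
  · intro x hx
    simp only [refl_refl h1 h2]
    exact hH.ch.κχ x hx
  · exact JD_refl_cont.comp_continuousOn hH.ch.χ_cont
  · have : refl σ₁ σ₂ 0 = 0 := by apply Complex.ext <;> simp [refl]
    simp only [this]
    exact hH.ch.κ0
  · intro x hx
    simp only [hre]
    apply hH.axis
    rw [JD_abs h1]; exact hx
  · intro x hx hx'
    simp only [hre]
    apply hH.sp
    · rw [JD_abs h1]; exact hx
    · rw [JD_abs h1]; exact hx'
  · intro y hy hy' hK hSP ε hε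
    simp only [him] at hK hSP
    obtain ⟨⟨z, hz, hz0, hzK⟩, ⟨w, hw, hw0, hwK⟩⟩ := hH.cross (σ₂ * y) (by rw [JD_abs h2]; exact hy)
      (by rw [JD_abs h2]; exact hy') hK hSP ε hε
    have e1 : ∀ z : ℂ, z ∈ ball (⟨0, σ₂ * y⟩ : ℂ) ε → refl σ₁ σ₂ z ∈ ball (⟨0, y⟩ : ℂ) ε := by
      intro z hz
      have : refl σ₁ σ₂ (⟨0, σ₂ * y⟩ : ℂ) = ⟨0, y⟩ := by
        rw [← him, refl_refl h1 h2]
      rw [mem_ball, ← this, JD_refl_dist h1 h2]
      exact hz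
    rcases h1 with rfl | rfl
    · refine ⟨⟨_, e1 z hz, ?_, ?_⟩, ⟨_, e1 w hw, ?_, ?_⟩⟩
      · simpa [refl] using hz0
      · simpa [refl_refl (Or.inl rfl) h2] using hzK
      · simpa [refl] using hw0
      · simpa [refl_refl (Or.inl rfl) h2] using hwK
    · refine ⟨⟨_, e1 w hw, ?_, ?_⟩, ⟨_, e1 z hz, ?_, ?_⟩⟩
      · simpa [refl] using hw0
      · simpa [refl_refl (Or.inr rfl) h2] using hwK
      · simpa [refl] using hz0
      · simpa [refl_refl (Or.inr rfl) h2] using hzK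

theorem fixes_end {X : Type*} {φ : ℂ → X} {u : X → ℂ} {g gi : X → X} {hb hbi : ℂ → ℂ}
    (hE : EndMap φ u g gi hb hbi) {ζ : ℂ} (hζ : ‖ζ‖ = 1) (hfix : hb ζ = ζ) :
    Tendsto (fun z => u (g (φ z))) (𝓝[ball 0 1] ζ) (𝓝 ζ) := by
  have h1 : Tendsto hb (𝓝[closedBall 0 1] ζ) (𝓝 (hb ζ)) :=
    hE.bc ζ (by rw [mem_closedBall_zero_iff, hζ])
  rw [hfix] at h1
  have h2 := h1.mono_left (nhdsWithin_mono ζ (ball_subset_closedBall (x := (0:ℂ)) (ε := 1)))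
  refine h2.congr' ?_
  filter_upwards [self_mem_nhdsWithin] with z hz
  exact hE.be z hz

theorem no_ell_end {X : Type*} [MetricSpace X] [MeasurableSpace X] [BorelSpace X] {K : Set X}
    (hK : IsClosed K) {φ : ℂ → X} {u : X → ℂ} (hD : DiscMap K φ u) {g gi : X → X}
    (hg : Continuous g) (hgi : Continuous gi) (hggi : ∀ x, g (gi x) = x)
    (hgig : ∀ x, gi (g x) = x) (hgK : g '' K = K) {hb hbi : ℂ → ℂ}
    (hE : EndMap φ u g gi hb hbi) (ν : Measure X)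
    (hν : ∀ B ⊆ Kᶜ, MeasurableSet B → ν (g '' B) = ν B)
    (hpos : ∀ O ⊆ Kᶜ, IsOpen O → O.Nonempty → 0 < ν O) {ζ : ℂ} (hζ : ‖ζ‖ = 1)
    (hfin : ∃ ρ > 0, ν (φ '' (ball 0 1 ∩ ball ζ ρ)) < ⊤) (hfix : hb ζ = ζ) {P : X} (hP : P ∈ K)
    (hPr : Principal φ ζ P) (hell : EllPt K g P) : False := by
  obtain ⟨P', χ, κ, w₁, hχ, hw, hw1, hlim⟩ := hell
  have hm := JD_maps hgig hgK
  have hmi := JD_maps' hggi hgK
  have hne : ∀ x ∈ Kᶜ, x ≠ P' := fun x hx h => hx (h ▸ hχ.hP')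
  refine elliptic_false (W := κ ⁻¹' Kᶜ) (φ := fun z => χ (φ z)) (u := fun w => u (κ w))
    (G := fun w => χ (g (κ w))) (ζ := ζ) ?_ hw hw1 hlim
  intro j hj
  have hEj := endMap_iter hD hm hmi hE j
  have hfj : hb^[j] ζ = ζ := Function.iterate_fixed hfix j
  obtain ⟨μ, hμ⟩ := fixPE_of hK hD (hg.iterate j) (hgi.iterate j) (JD_inv_iter hggi j)
    (JD_inv_iter hgig j) (JD_image_iter hgK j) ν
    (JD_nu_iter hg hgi hggi hgig hgK ν hν j) hpos hχ hP hζ hfin (fixes_end hEj hζ hfj) hPr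
    (one_pos : (0:ℝ) < 1)
  refine ⟨_, _, μ, 1, hμ, ?_⟩
  have hit : ∀ (n : ℕ) (w : ℂ), κ w ∈ Kᶜ → κ ((fun w => χ (g (κ w)))^[n] w) = g^[n] (κ w) := by
    intro n
    induction n with
    | zero => intro w _; rfl
    | succ n ih =>
      intro w hw
      rw [Function.iterate_succ, Function.iterate_succ, Function.comp, Function.comp]
      have h1 : κ (χ (g (κ w))) = g (κ w) := hχ.κχ _ (hne _ (hm hw))
      have h2 : κ (χ (g (κ w))) ∈ Kᶜ := by rw [h1]; exact hm hw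
      rw [ih _ h2, h1]
  intro w hw
  show χ (g^[j] (κ w)) = _
  rw [← hit j w hw, hχ.χκ]

theorem exists_good {X : Type*} [MetricSpace X] [MeasurableSpace X] [BorelSpace X] {K : Set X}
    (hK : IsClosed K) {φ : ℂ → X} {u : X → ℂ} (hD : DiscMap K φ u) {g gi : X → X}
    (hg : Continuous g) (hgi : Continuous gi) (hggi : ∀ x, g (gi x) = x)
    (hgig : ∀ x, gi (g x) = x) (hgK : g '' K = K) {hb hbi : ℂ → ℂ}
    (hE : EndMap φ u g gi hb hbi) (ν : Measure X)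
    (hν : ∀ B ⊆ Kᶜ, MeasurableSet B → ν (g '' B) = ν B)
    (hpos : ∀ O ⊆ Kᶜ, IsOpen O → O.Nonempty → 0 < ν O) {SP : X → Prop} {ζ : ℂ} (hζ : ‖ζ‖ = 1)
    (hfin : ∃ ρ > 0, ν (φ '' (ball 0 1 ∩ ball ζ ρ)) < ⊤) (hfix : hb ζ = ζ) {P P' : X} (hP : P ∈ K)
    (hPr : Principal φ ζ P) {χ : X → ℂ} {κ : ℂ → X} {r lp km kp : ℝ}
    (hH : HypChart K SP g P P' χ κ r lp km kp) :
    ∃ (χ' : X → ℂ) (κ' : ℂ → X) (μ : Measure ℂ) (r₀ δ : ℝ),
      GoodChart K SP φ u g gi ζ P P' χ' κ' μ r r₀ lp km kp δ := by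
  obtain ⟨μ, hμ⟩ := fixPE_of hK hD hg hgi hggi hgig hgK ν hν hpos hH.ch hP hζ hfin
    (fixes_end hE hζ hfix) hPr (one_pos : (0:ℝ) < 1)
  have hWi : ∀ z ∈ Sq r, χ (g (κ z)) ∈ κ ⁻¹' Kᶜ → z ∈ κ ⁻¹' Kᶜ := by
    intro z hz hGz hzK
    apply hGz
    have h1 : κ (χ (g (κ z))) = g (κ z) := hH.ch.κχ _ (hH.ne z hz)
    rw [h1, ← hgK]
    exact ⟨_, hzK, rfl⟩
  have hax : ∀ x : ℝ, |x| ≤ r → (⟨x, 0⟩ : ℂ) ∉ κ ⁻¹' Kᶜ := fun x hx h => h (hH.axis x hx)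
  obtain ⟨σ₁, σ₂, δ, h1, h2, hq⟩ := local_hyp hμ hH.loc hWi hax
  have hr : 0 < r := hH.loc.hr
  have hδ : 0 < min δ (min (r / 2) (1 / 8)) := lt_min hq.hδ (lt_min (by linarith) (by norm_num))
  refine ⟨fun x => refl σ₁ σ₂ (χ x), fun w => κ (refl σ₁ σ₂ w), Measure.map (refl σ₁ σ₂) μ, 1,
    min δ (min (r / 2) (1 / 8)), ⟨JD_chart hH h1 h2, hPr, refl_fixPE hμ h1 h2,
      JD_quad_mono hq hδ (min_le_left _ _), ?_, ?_⟩⟩
  · calc min δ (min (r / 2) (1 / 8)) ≤ r / 2 := (min_le_right _ _).trans (min_le_left _ _)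
      _ < r := by linarith
  · have : min δ (min (r / 2) (1 / 8)) ≤ 1 / 8 := (min_le_right _ _).trans (min_le_right _ _)
    linarith

end DS
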