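import Pool.Agent.H36.DS.PBase

/-!
JA (accessible points).  The arcs `C ρ = {z ∈ ball 0 1 | dist z ξ = ρ}` separate `ξ` from `0` in the disc.
`acc_principal`: let `c` be a curve landing at `ζ` with `φ (c t) → x`, and `ρ n → 0` with
`dist (φ z) P < 1/(n+1)` on `C (ρ n)`.  For large `n` the curve meets `C (ρ n)` (intermediate value theorem for
`t ↦ dist (c t) ζ`, which tends to `0` and is positive), at a parameter `t n`; `t n → 0` (on `[t', 1]` the distance is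
bounded below) so `φ (c (t n)) → x` and `→ P`.
`acc_unique`: two curves landing at the same `ξ` with limits `x`, `y`: `L1` gives `ρ n → 0` with
`dist (φ z) (φ w) < 1/(n+1)` on `C (ρ n)`, both curves meet `C (ρ n)`; so `dist x y = 0`.
`acc_mem`: if `x ∉ K` then `c t = u (φ (c t)) → u x ∈ ball 0 1`, but `c t → ξ`.
`acc_map`: the curve `hb ∘ c` (values in the disc, where `hb = u ∘ g ∘ φ`, so `φ (hb z) = g (φ z)`).
`acc_curve`: a curve `α : (0,1] → Kᶜ` in `X` with `α t → x` and `u (α t) → ξ`: take `c = u ∘ α`.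
-/

namespace DS
open Metric Set Filter Topology

theorem JA_pos {z ξ : ℂ} (hz : z ∈ ball (0:ℂ) 1) (hξ : ‖ξ‖ = 1) : 0 < dist z ξ := by
  rw [dist_pos]
  rintro rfl
  rw [mem_ball_zero_iff] at hz
  linarith

/-- the curve meets all small circles about its landing point, for small parameters -/
theorem JA_hit {c : ℝ → ℂ} {ξ : ℂ} (hc : ContinuousOn c (Ioc 0 1))
    (ht : Tendsto c (𝓝[>] 0) (𝓝 ξ)) {δ : ℝ} (hδ : 0 < δ) (hδ1 : δ ≤ 1) {ρ : ℝ} (hρ : 0 < ρ)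
    (hρ' : ρ < dist (c δ) ξ) : ∃ t ∈ Ioc (0:ℝ) δ, dist (c t) ξ = ρ := by
  have h1 : ∀ᶠ t in 𝓝[>] (0:ℝ), dist (c t) ξ < ρ := ht (ball_mem_nhds ξ hρ)
  have h2 : ∀ᶠ t in 𝓝[>] (0:ℝ), t ∈ Ioc (0:ℝ) δ := Ioc_mem_nhdsGT hδ
  obtain ⟨t', ⟨ht'0, ht'δ⟩, ht'⟩ := (h2.and h1).exists
  have hcont : ContinuousOn (fun t => dist (c t) ξ) (Icc t' δ) := by
    have hcd : Continuous (fun z : ℂ => dist z ξ) := continuous_id.dist continuous_const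
    apply hcd.comp_continuousOn
    apply hc.mono
    intro s hs
    exact ⟨lt_of_lt_of_le ht'0 hs.1, hs.2.trans hδ1⟩
  obtain ⟨s, hs, hs'⟩ := intermediate_value_Icc ht'δ hcont ⟨ht'.le, hρ'.le⟩
  exact ⟨s, ⟨lt_of_lt_of_le ht'0 hs.1, hs.2⟩, hs'⟩

theorem JA_small {X : Type*} [MetricSpace X] {f : ℝ → X} {x : X}
    (h : Tendsto f (𝓝[>] 0) (𝓝 x)) {ε : ℝ} (hε : 0 < ε) :
    ∃ δ : ℝ, 0 < δ ∧ δ ≤ 1 ∧ ∀ t ∈ Ioc (0:ℝ) δ, dist (f t) x < ε := by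
  have h1 : ∀ᶠ t in 𝓝[>] (0:ℝ), dist (f t) x < ε := h (ball_mem_nhds x hε)
  obtain ⟨u, hu, hu'⟩ := (mem_nhdsGT_iff_exists_Ioc_subset).1 h1
  refine ⟨min u 1, lt_min hu one_pos, min_le_right _ _, ?_⟩
  intro t ht
  exact hu' ⟨ht.1, ht.2.trans (min_le_left _ _)⟩

theorem acc_principal {X : Type*} [MetricSpace X] {φ : ℂ → X} {ζ : ℂ} (hζ : ‖ζ‖ = 1) {x P : X}
    (h : Acc φ ζ x) (hP : Principal φ ζ P) : x = P := by
  obtain ⟨c, hc, hcb, hct, hcx⟩ := h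
  by_contra hne
  have hd : 0 < dist x P := dist_pos.2 hne
  obtain ⟨δ, hδ, hδ1, hδt⟩ := JA_small hcx (half_pos hd)
  have hρ0 := JA_pos (hcb δ ⟨hδ, hδ1⟩) hζ
  obtain ⟨ρ, hρ, hρε, hρz⟩ := hP (min (dist x P / 2) (dist (c δ) ζ)) (lt_min (half_pos hd) hρ0)
  obtain ⟨t, ht, hdt⟩ := JA_hit hc hct hδ hδ1 hρ (lt_of_lt_of_le hρε (min_le_right _ _))
  have h1 := hρz (c t) (hcb t ⟨ht.1, ht.2.trans hδ1⟩) hdt
  have h2 := lt_of_lt_of_le h1 (min_le_left _ _)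
  have h3 := hδt t ht
  have h4 := dist_triangle_left x P (φ (c t))
  linarith

theorem acc_unique {X : Type*} [MetricSpace X] {K : Set X} {φ : ℂ → X} {u : X → ℂ}
    (H : DiscMap K φ u) {ξ : ℂ} (hξ : ‖ξ‖ = 1) {x y : X} (hx : Acc φ ξ x) (hy : Acc φ ξ y) :
    x = y := by
  obtain ⟨c, hc, hcb, hct, hcx⟩ := hx
  obtain ⟨e, he, heb, het, hey⟩ := hy
  by_contra hne
  have hd : 0 < dist x y / 3 := by
    have := dist_pos.2 hne
    linarith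
  obtain ⟨δ, hδ, hδ1, hδt⟩ := JA_small hcx hd
  obtain ⟨η, hη, hη1, hηt⟩ := JA_small hey hd
  have hρ0 := JA_pos (hcb δ ⟨hδ, hδ1⟩) hξ
  have hρ1 := JA_pos (heb η ⟨hη, hη1⟩) hξ
  obtain ⟨ρ, hρ, hρε, hρz⟩ := H.L1 ξ hξ (min (dist x y / 3) (min (dist (c δ) ξ) (dist (e η) ξ)))
    (lt_min hd (lt_min hρ0 hρ1))
  obtain ⟨t, ht, hdt⟩ := JA_hit hc hct hδ hδ1 hρ
    (lt_of_lt_of_le hρε ((min_le_right _ _).trans (min_le_left _ _)))
  obtain ⟨s, hs, hds⟩ := JA_hit he het hη hη1 hρ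
    (lt_of_lt_of_le hρε ((min_le_right _ _).trans (min_le_right _ _)))
  have h1 := hρz (c t) (hcb t ⟨ht.1, ht.2.trans hδ1⟩) (e s) (heb s ⟨hs.1, hs.2.trans hη1⟩) hdt hds
  have h2 := lt_of_lt_of_le h1 (min_le_left _ _)
  have h3 := hδt t ht
  have h4 := hηt s hs
  have h5 := dist_triangle_left x y (φ (c t))
  have h6 := dist_triangle (φ (c t)) (φ (e s)) y
  linarith

theorem acc_mem {X : Type*} [MetricSpace X] {K : Set X} (hK : IsClosed K) {φ : ℂ → X} {u : X → ℂ}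
    (H : DiscMap K φ u) {ξ : ℂ} (hξ : ‖ξ‖ = 1) {x : X} (hx : Acc φ ξ x) : x ∈ K := by
  obtain ⟨c, hc, hcb, hct, hcx⟩ := hx
  by_contra hxK
  have hev : ∀ᶠ t in 𝓝[>] (0:ℝ), t ∈ Ioc (0:ℝ) 1 := Ioc_mem_nhdsGT one_pos
  have h1 : Tendsto (fun t => φ (c t)) (𝓝[>] 0) (𝓝[Kᶜ] x) := by
    apply tendsto_nhdsWithin_of_tendsto_nhds_of_eventually_within _ hcx
    filter_upwards [hev] with t ht
    exact H.φ_maps (hcb t ht)
  have h2 : Tendsto (fun t => u (φ (c t))) (𝓝[>] 0) (𝓝 (u x)) :=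
    Tendsto.comp (H.u_cont x hxK) h1
  have h3 : Tendsto (fun t => u (φ (c t))) (𝓝[>] 0) (𝓝 ξ) := by
    apply hct.congr'
    filter_upwards [hev] with t ht
    exact (H.uφ _ (hcb t ht)).symm
  have h4 : u x = ξ := tendsto_nhds_unique h2 h3
  have h5 := H.u_maps (show x ∈ Kᶜ from hxK)
  rw [h4, mem_ball_zero_iff] at h5
  linarith

theorem acc_map {X : Type*} [MetricSpace X] {K : Set X} {φ : ℂ → X} {u : X → ℂ}
    (H : DiscMap K φ u) {g : X → X} (hg : Continuous g) (hgK : MapsTo g Kᶜ Kᶜ) {hb : ℂ → ℂ}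
    (hbc : ContinuousOn hb (closedBall 0 1)) (hbm : MapsTo hb (ball 0 1) (ball 0 1))
    (hbe : ∀ z ∈ ball (0:ℂ) 1, hb z = u (g (φ z))) {ξ : ℂ} (hξ : ‖ξ‖ = 1) {x : X}
    (hx : Acc φ ξ x) : Acc φ (hb ξ) (g x) := by
  obtain ⟨c, hc, hcb, hct, hcx⟩ := hx
  have hev : ∀ᶠ t in 𝓝[>] (0:ℝ), t ∈ Ioc (0:ℝ) 1 := Ioc_mem_nhdsGT one_pos
  refine ⟨fun t => hb (c t), ?_, fun t ht => hbm (hcb t ht), ?_, ?_⟩
  · exact hbc.comp hc (fun t ht => ball_subset_closedBall (hcb t ht))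
  · have h1 : Tendsto c (𝓝[>] 0) (𝓝[closedBall 0 1] ξ) := by
      apply tendsto_nhdsWithin_of_tendsto_nhds_of_eventually_within _ hct
      filter_upwards [hev] with t ht
      exact ball_subset_closedBall (hcb t ht)
    have h2 : ξ ∈ closedBall (0:ℂ) 1 := by rw [mem_closedBall_zero_iff, hξ]
    exact Tendsto.comp (hbc ξ h2) h1
  · have h1 : Tendsto (fun t => g (φ (c t))) (𝓝[>] 0) (𝓝 (g x)) :=
      (hg.tendsto x).comp hcx
    apply h1.congr'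
    filter_upwards [hev] with t ht
    rw [hbe _ (hcb t ht), H.φu _ (hgK (H.φ_maps (hcb t ht)))]

theorem acc_curve {X : Type*} [MetricSpace X] {K : Set X} {φ : ℂ → X} {u : X → ℂ}
    (H : DiscMap K φ u) {α : ℝ → X} (hα : ContinuousOn α (Ioc 0 1))
    (hαK : ∀ t ∈ Ioc (0:ℝ) 1, α t ∉ K) {x : X} (hx : Tendsto α (𝓝[>] 0) (𝓝 x)) {ξ : ℂ}
    (hξ : Tendsto (fun t => u (α t)) (𝓝[>] 0) (𝓝 ξ)) : Acc φ ξ x := by
  refine ⟨fun t => u (α t), H.u_cont.comp hα (fun t ht => hαK t ht),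
    fun t ht => H.u_maps (hαK t ht), hξ, ?_⟩
  apply hx.congr'
  filter_upwards [(Ioc_mem_nhdsGT one_pos : ∀ᶠ t in 𝓝[>] (0:ℝ), t ∈ Ioc (0:ℝ) 1)] with t ht
  exact (H.φu _ (hαK t ht)).symm

end DS
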