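import Pool.Agent.H36.DS.JBase
import Pool.Agent.H36.DS.JA

/-!
JG (the invariant arc of prime ends of a stable half axis).  Here `k` is the boundary map of `g` (`EndMap`), `a x` the boundary
values, `pt x ∈ X` the points of the half axis.  `J = ⋃ n, ki^[n] '' (a '' Ioc 0 δ)`.
Shrink `δ` first so that `a x ∈ E` for `x ∈ (0, δ]` (`a x → ζ ∈ E`, `E` is relatively open in the circle, `‖a x‖ = 1`);
the shrunk interval is still mapped into itself by `x ↦ s x`, `s x ≤ lp x < x`.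
`k` maps `a '' Ioc 0 δ` into itself (`k (a x) = a (s x)`), so the sets `ki^[n] '' (a '' Ioc 0 δ)` increase with `n`; each is
connected (continuous image of an interval), so `J` is connected; `k '' J = J` (`k (ki b) = b` on the circle).
`lim`: for `b = ki^[n] (a x)`: `k^[n + m] b = k^[m] (a x) = a (s^[m] x) → ζ` as `s^[m] x ≤ lp^m x → 0`.
`sub`: `J ⊆ E` because `E` is invariant under `ki` (from `k '' E = E` and injectivity on the circle), `ζ ∉ J` because `k ζ = ζ` and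
`a x ≠ ζ`.
`acc`: `Acc φ (a x) (pt x)` is given; `acc_map` for the inverse homeomorphism `gi` (boundary map `ki`) gives
`Acc φ (ki^[n] (a x)) (gi^[n] (pt x))`, and `SP` is preserved by `gi`.
The last claim is by definition of `J`.
-/

namespace DS
open Metric Set Filter Topology

theorem stab_arc {X : Type*} [MetricSpace X] {K : Set X} {φ : ℂ → X} {u : X → ℂ}
    (hD : DiscMap K φ u) {g gi : X → X} (hg : Continuous g) (hgi : Continuous gi)
    (hgK : MapsTo g Kᶜ Kᶜ) (hgiK : MapsTo gi Kᶜ Kᶜ) {k ki : ℂ → ℂ} (hE : EndMap φ u g gi k ki)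
    {SP : X → Prop} (hSP : ∀ x, SP x → SP (gi x)) {E : Set ℂ} (hEs : E ⊆ sphere 0 1)
    (hEo : ∀ ζ ∈ E, ∃ ρ > 0, sphere 0 1 ∩ ball ζ ρ ⊆ E) (hEk : k '' E = E) {ζ : ℂ} (hζ : ζ ∈ E)
    (hkζ : k ζ = ζ) {δ lp : ℝ} (hδ : 0 < δ) (hlp : 0 < lp) (hlp1 : lp < 1) {a : ℝ → ℂ} {s : ℝ → ℝ}
    {pt : ℝ → X} (ha : ContinuousOn a (Ioc 0 δ))
    (ha1 : ∀ x ∈ Ioc (0:ℝ) δ, ‖a x‖ = 1 ∧ a x ≠ ζ) (ha0 : Tendsto a (𝓝[>] 0) (𝓝 ζ))
    (hs : ∀ x ∈ Ioc (0:ℝ) δ, 0 < s x ∧ s x ≤ lp * x) (hk : ∀ x ∈ Ioc (0:ℝ) δ, k (a x) = a (s x))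
    (hacc : ∀ x ∈ Ioc (0:ℝ) δ, Acc φ (a x) (pt x)) (hsp : ∀ x ∈ Ioc (0:ℝ) δ, SP (pt x)) :
    ∃ J : Set ℂ, StabArc k φ SP E ζ J ∧
      ∀ b ∈ J, ∃ (n : ℕ) (x : ℝ), x ∈ Ioc (0:ℝ) δ ∧ k^[n] b = a x := by
  obtain ⟨ρ, hρ, hρE⟩ := hEo ζ hζ
  have hev : {x : ℝ | a x ∈ ball ζ ρ} ∈ 𝓝[>] (0:ℝ) := ha0 (ball_mem_nhds ζ hρ)
  obtain ⟨d0, hd0, hd0s⟩ := mem_nhdsGT_iff_exists_Ioc_subset.mp hev
  have hd0' : (0:ℝ) < d0 := hd0
  set d : ℝ := min δ d0 with hd
  have hdpos : 0 < d := lt_min hδ hd0'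
  have hdδ : d ≤ δ := min_le_left _ _
  have hsub : Ioc (0:ℝ) d ⊆ Ioc (0:ℝ) δ := Ioc_subset_Ioc_right hdδ
  have hsub0 : Ioc (0:ℝ) d ⊆ Ioc (0:ℝ) d0 := Ioc_subset_Ioc_right (min_le_right _ _)
  have haE : ∀ x ∈ Ioc (0:ℝ) d, a x ∈ E := fun x hx =>
    hρE ⟨mem_sphere_zero_iff_norm.mpr (ha1 x (hsub hx)).1, hd0s (hsub0 hx)⟩
  have hsd : ∀ x ∈ Ioc (0:ℝ) d, s x ∈ Ioc (0:ℝ) d := fun x hx => by
    have h1 := hs x (hsub hx)
    refine ⟨h1.1, h1.2.trans ?_⟩
    have h2 := hx.1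
    have h3 := hx.2
    nlinarith
  -- facts on the circle
  have hball : sphere (0:ℂ) 1 ⊆ closedBall 0 1 := sphere_subset_closedBall
  have hkik : ∀ b ∈ sphere (0:ℂ) 1, ki (k b) = b := fun b hb => hE.bib b (hball hb)
  have hkki : ∀ b ∈ sphere (0:ℂ) 1, k (ki b) = b := fun b hb => hE.bbi b (hball hb)
  have hkis : ∀ (n : ℕ), ∀ b ∈ sphere (0:ℂ) 1, ki^[n] b ∈ sphere (0:ℂ) 1 := by
    intro n
    induction n with
    | zero => exact fun b hb => hb
    | succ n ih =>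
      intro b hb
      rw [Function.iterate_succ_apply']
      exact hE.bis (ih b hb)
  have hkn : ∀ (n : ℕ), ∀ b ∈ sphere (0:ℂ) 1, k^[n] (ki^[n] b) = b := by
    intro n
    induction n with
    | zero => exact fun b _ => rfl
    | succ n ih =>
      intro b hb
      rw [Function.iterate_succ_apply, Function.iterate_succ_apply' ki, hkki _ (hkis n b hb)]
      exact ih b hb
  set A : Set ℂ := a '' Ioc 0 d with hA
  have hAs : A ⊆ sphere (0:ℂ) 1 := by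
    rintro _ ⟨x, hx, rfl⟩
    exact mem_sphere_zero_iff_norm.mpr (ha1 x (hsub hx)).1
  have hkA : ∀ b ∈ A, k b ∈ A := by
    rintro _ ⟨x, hx, rfl⟩
    exact ⟨s x, hsd x hx, (hk x (hsub hx)).symm⟩
  have hmono : ∀ n : ℕ, A ⊆ ki^[n] '' A := by
    intro n
    induction n with
    | zero => exact fun b hb => ⟨b, hb, rfl⟩
    | succ n ih =>
      intro b hb
      obtain ⟨c, hc, hcb⟩ := ih hb
      refine ⟨k c, hkA c hc, ?_⟩
      rw [Function.iterate_succ_apply, hkik c (hAs hc)]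
      exact hcb
  have hconnA : IsPreconnected A := isPreconnected_Ioc.image a (ha.mono hsub)
  have hconn : ∀ n : ℕ, IsPreconnected (ki^[n] '' A) := by
    intro n
    induction n with
    | zero => simpa using hconnA
    | succ n ih =>
      have e : ki^[n + 1] '' A = ki '' (ki^[n] '' A) := by
        rw [Function.iterate_succ', image_comp]
      rw [e]
      refine ih.image ki (hE.bic.mono ?_)
      rintro _ ⟨c, hc, rfl⟩
      exact hball (hkis n c (hAs hc))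
  have hiter : ∀ m : ℕ, ∀ x ∈ Ioc (0:ℝ) d, s^[m] x ∈ Ioc (0:ℝ) d ∧ s^[m] x ≤ lp ^ m * x ∧
      k^[m] (a x) = a (s^[m] x) := by
    intro m
    induction m with
    | zero => exact fun x hx => ⟨hx, by simp, rfl⟩
    | succ m ih =>
      intro x hx
      obtain ⟨h1, h2, h3⟩ := ih x hx
      rw [Function.iterate_succ_apply', Function.iterate_succ_apply' k, h3]
      refine ⟨hsd _ h1, ?_, hk _ (hsub h1)⟩
      refine (hs _ (hsub h1)).2.trans ?_
      rw [pow_succ', mul_assoc]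
      exact mul_le_mul_of_nonneg_left h2 hlp.le
  have hEki : ∀ b ∈ E, ki b ∈ E := by
    intro b hb
    rw [← hEk] at hb
    obtain ⟨e, he, rfl⟩ := hb
    rw [hkik e (hEs he)]
    exact he
  have hEkin : ∀ n : ℕ, ∀ b ∈ E, ki^[n] b ∈ E := by
    intro n
    induction n with
    | zero => exact fun b hb => hb
    | succ n ih =>
      intro b hb
      rw [Function.iterate_succ_apply']
      exact hEki _ (ih b hb)
  have hkζn : ∀ n : ℕ, k^[n] ζ = ζ := fun n => Function.iterate_fixed hkζ n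
  refine ⟨⋃ n : ℕ, ki^[n] '' A, ⟨?_, ?_, ?_, ?_, ?_⟩, ?_⟩
  · -- connected
    have hd1 : a d ∈ A := ⟨d, ⟨hdpos, le_refl d⟩, rfl⟩
    refine ⟨⟨a d, mem_iUnion.mpr ⟨0, hmono 0 hd1⟩⟩, ?_⟩
    exact isPreconnected_iUnion ⟨a d, mem_iInter.mpr fun n => hmono n hd1⟩ hconn
  · -- in E
    intro b hb
    obtain ⟨n, hn⟩ := mem_iUnion.mp hb
    obtain ⟨c, hc, rfl⟩ := hn
    have hc' := hc
    obtain ⟨x, hx, rfl⟩ := hc'
    refine ⟨hEkin n _ (haE x hx), ?_⟩
    intro h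
    have h' : ki^[n] (a x) = ζ := h
    have h1 := hkn n (a x) (hAs hc)
    rw [h', hkζn n] at h1
    exact (ha1 x (hsub hx)).2 h1.symm
  · -- invariant
    apply Subset.antisymm
    · rintro _ ⟨b, hb, rfl⟩
      obtain ⟨n, hn⟩ := mem_iUnion.mp hb
      obtain ⟨c, hc, rfl⟩ := hn
      cases n with
      | zero => exact mem_iUnion.mpr ⟨0, k c, hkA c hc, rfl⟩
      | succ m =>
        refine mem_iUnion.mpr ⟨m, c, hc, ?_⟩
        rw [Function.iterate_succ_apply', hkki _ (hkis m c (hAs hc))]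
    · intro b hb
      obtain ⟨n, hn⟩ := mem_iUnion.mp hb
      obtain ⟨c, hc, rfl⟩ := hn
      refine ⟨ki (ki^[n] c), mem_iUnion.mpr ⟨n + 1, c, hc, ?_⟩, hkki _ (hkis n c (hAs hc))⟩
      rw [Function.iterate_succ_apply']
  · -- limit
    intro b hb
    obtain ⟨n, hn⟩ := mem_iUnion.mp hb
    obtain ⟨c, hc, rfl⟩ := hn
    have hc' := hc
    obtain ⟨x, hx, rfl⟩ := hc'
    rw [← tendsto_add_atTop_iff_nat n]
    have e : (fun m : ℕ => k^[m + n] (ki^[n] (a x))) = fun m : ℕ => a (s^[m] x) := by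
      funext m
      rw [Function.iterate_add_apply, hkn n _ (hAs hc)]
      exact (hiter m x hx).2.2
    rw [e]
    refine ha0.comp (tendsto_nhdsWithin_iff.mpr ⟨?_, Eventually.of_forall fun m =>
      (hiter m x hx).1.1⟩)
    refine squeeze_zero (fun m => (hiter m x hx).1.1.le) (fun m => (hiter m x hx).2.1) ?_
    have h1 := (tendsto_pow_atTop_nhds_zero_of_lt_one hlp.le hlp1).mul_const x
    rwa [zero_mul] at h1
  · -- accessible
    intro b hb
    obtain ⟨n, hn⟩ := mem_iUnion.mp hb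
    obtain ⟨c, hc, rfl⟩ := hn
    have hc' := hc
    obtain ⟨x, hx, rfl⟩ := hc'
    have key : ∀ m : ℕ, Acc φ (ki^[m] (a x)) (gi^[m] (pt x)) ∧ SP (gi^[m] (pt x)) := by
      intro m
      induction m with
      | zero => exact ⟨hacc x (hsub hx), hsp x (hsub hx)⟩
      | succ m ih =>
        rw [Function.iterate_succ_apply', Function.iterate_succ_apply']
        exact ⟨acc_map hD hgi hgiK hE.bic hE.bio hE.bie
          (mem_sphere_zero_iff_norm.mp (hkis m _ (hAs hc))) ih.1, hSP _ ih.2⟩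
    exact ⟨_, key n⟩
  · intro b hb
    obtain ⟨n, hn⟩ := mem_iUnion.mp hb
    obtain ⟨c, hc, rfl⟩ := hn
    have hc' := hc
    obtain ⟨x, hx, rfl⟩ := hc'
    exact ⟨n, x, hsub hx, hkn n _ (hAs hc)⟩

end DS
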