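import Pool.Agent.H36.DS.PBase

/-!
Definitions for the local analysis at a hyperbolic principal point (project MP_8a27c0_DS).
-/

namespace DS

open Metric Set Filter Topology MeasureTheory

/-- the L-shaped set with corner `(s,t)` from `(xs,t)` to `(s,ys)` (end points excluded) -/
def Lset (s t xs ys : ℝ) : Set ℂ :=
  {z | (z.im = t ∧ xs < z.re ∧ z.re ≤ s) ∨ (z.re = s ∧ ys < z.im ∧ z.im ≤ t)}

/-- the U-shaped set: from `(s',ys')` up to `(s',t)`, right to `(s,t)`, down to `(s,ys)`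
(end points excluded) -/
def Uset (s' s t ys' ys : ℝ) : Set ℂ :=
  {z | (z.im = t ∧ s' ≤ z.re ∧ z.re ≤ s) ∨ (z.re = s ∧ ys < z.im ∧ z.im ≤ t) ∨
    (z.re = s' ∧ ys' < z.im ∧ z.im ≤ t)}

/-- the L-shaped set is contained in `W` and its two end points are not in `W` -/
structure Corner (W : Set ℂ) (s t xs ys : ℝ) : Prop where
  hxs : 0 ≤ xs
  hxs' : xs < s
  hys : 0 ≤ ys
  hys' : ys < t
  hx : (⟨xs, t⟩ : ℂ) ∉ W
  hy : (⟨s, ys⟩ : ℂ) ∉ W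
  htop : ∀ x, xs < x → x ≤ s → (⟨x, t⟩ : ℂ) ∈ W
  hside : ∀ y, ys < y → y ≤ t → (⟨s, y⟩ : ℂ) ∈ W

/-- separating components of boundaries of rectangles in the ball of radius `r₁` meet their images -/
def Meet (W : Set ℂ) (φ G : ℂ → ℂ) (ζ : ℂ) (r₁ : ℝ) : Prop :=
  ∀ a b c d : ℝ, a < b → c < d → Rect a b c d ⊆ closedBall 0 r₁ → ∀ w ∈ Bd a b c d ∩ W,
    Sep W φ ζ (cc W a b c d w) → (cc W a b c d w ∩ G '' cc W a b c d w).Nonempty

/-- the conclusion of the local analysis, in the first quadrant: the quadrant (near `0`) is contained in `W`,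
`u` tends to `ζ` at `0` in it, and either there are points of the vertical half axis arbitrarily close to `0`
not in `W`, or the upper half box is in `W` and `u` tends to `ζ` at `0` in it -/
structure GoodQuad (W : Set ℂ) (u : ℂ → ℂ) (ζ : ℂ) (δ : ℝ) : Prop where
  hδ : 0 < δ
  sub : ∀ x y : ℝ, 0 < x → x ≤ δ → 0 < y → y ≤ δ → (⟨x, y⟩ : ℂ) ∈ W
  lim : ∀ ε > 0, ∃ η > 0, ∀ x y : ℝ, 0 < x → x < η → 0 < y → y < η → dist (u ⟨x, y⟩) ζ < ε
  alt : (∀ ε > 0, ∃ y, 0 < y ∧ y < ε ∧ (⟨0, y⟩ : ℂ) ∉ W) ∨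
    ((∀ x y : ℝ, |x| ≤ δ → 0 < y → y ≤ δ → (⟨x, y⟩ : ℂ) ∈ W) ∧
      ∀ ε > 0, ∃ η > 0, ∀ x y : ℝ, |x| < η → 0 < y → y < η → dist (u ⟨x, y⟩) ζ < ε)

/-- multiplication of the coordinates by `σ₁`, `σ₂` -/
def refl (σ₁ σ₂ : ℝ) (z : ℂ) : ℂ := ⟨σ₁ * z.re, σ₂ * z.im⟩

end DS
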