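import Pool.Agent.H36.DS.PJ
import Pool.Agent.H36.DS.YBase

/-!
JV (boundary values along the unstable axis).  Setting as in JB.  Let `0 < y₀ < δ`, `⟨0, y₀⟩ ∉ W`.
For `0 < y < δ` with `⟨0, y⟩ ∉ W`: `seg_limit` (`z₁ = ⟨δ, y⟩`, `zs = ⟨0, y⟩`) gives the limit `b y` of `u ⟨x, y⟩` for `x → 0+`,
`‖b y‖ = 1`, `b y ≠ ζ`; and as in JB: `u z → b y` for `z → ⟨0, y⟩` inside the box (small boxes
`{z | 0 < z.re < η, |z.im - y| < η}` are connected with small image).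
`G` maps the vertical axis to itself with `(G ⟨0, y⟩).im` continuous and increasing in `y`, `≥ km y` (`re0`, `im0`, `impos`, `mono`), so there is
`y₁ ∈ (0, y₀ / km]` with `G ⟨0, y₁⟩ = ⟨0, y₀⟩`; `⟨0, y₁⟩ ∉ W` because `G` maps `W` to `W`.  For `w = ⟨x, y₁⟩`, `x → 0+`:
`hb (u w) = u (G w)`, and `G w → ⟨0, y₀⟩` inside the box (`repos`, `impos`), so `hb (b y₁) = b y₀`, i.e. `b y₁ = hbi (b y₀)`.
By induction there are `y_n → 0` with `hbi^[n] (b y₀) = b y_n`, and `b y_n → ζ` by `hlim`.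
-/

namespace DS
open Metric Set Filter Topology MeasureTheory

/-- `e` is the limit of `u` at `⟨0, y⟩` from the right -/
private def JV_Lim (u : ℂ → ℂ) (ζ : ℂ) (y : ℝ) (e : ℂ) : Prop :=
  ‖e‖ = 1 ∧ e ≠ ζ ∧ ∀ ε > 0, ∃ η > 0, ∀ z : ℂ, 0 < z.re → z.re < η → |z.im - y| < η →
    dist (u z) e ≤ ε

private theorem JV_lim {W : Set ℂ} {φ u G Gi : ℂ → ℂ} {μ : Measure ℂ} {ζ : ℂ} {r₀ : ℝ}
    (H : FixPE W φ u G Gi μ ζ r₀) {δ : ℝ} (hδ : 0 < δ) (hδr₀ : 4 * δ < r₀)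
    (hsub : ∀ x y : ℝ, 0 < x → x ≤ δ → 0 < y → y ≤ δ → (⟨x, y⟩ : ℂ) ∈ W) {y : ℝ} (hy : 0 < y)
    (hyδ : y < δ) (hyW : (⟨0, y⟩ : ℂ) ∉ W) : ∃ e, JV_Lim u ζ y e := by
  have hc : ∀ t : ℝ, (1 - (t:ℂ)) * (⟨δ, y⟩ : ℂ) + t * (⟨0, y⟩ : ℂ) = ⟨(1 - t) * δ, y⟩ := by
    intro t
    apply Complex.ext
    · simp
    · simp
      ring
  have hbox : ∀ z : ℂ, 0 < z.re → z.re ≤ δ → 0 < z.im → z.im ≤ δ → z ∈ W ∩ closedBall 0 r₀ := by
    intro z h1 h2 h3 h4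
    refine ⟨hsub z.re z.im h1 h2 h3 h4, ?_⟩
    rw [mem_closedBall_zero_iff]
    have h5 := Complex.norm_le_abs_re_add_abs_im z
    rw [abs_of_pos h1, abs_of_pos h3] at h5
    linarith
  obtain ⟨e, he1, he2, he3⟩ := seg_limit H (z₁ := ⟨δ, y⟩) (zs := ⟨0, y⟩) hyW
    (by
      intro h
      have := congrArg Complex.im h
      simp at this
      linarith)
    (by
      intro t ht
      rw [hc]
      refine hbox _ ?_ ?_ hy hyδ.le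
      · exact mul_pos (by linarith [ht.2]) hδ
      · change (1 - t) * δ ≤ δ
        nlinarith [ht.1])
  refine ⟨e, he1, he2, fun ε hε => ?_⟩
  obtain ⟨δ₁, hδ₁, hL⟩ := H.L0 ε hε
  obtain ⟨η, hη, h1, h2, h3, h4⟩ : ∃ η, 0 < η ∧ η ≤ δ ∧ η ≤ y ∧ η ≤ δ - y ∧ 3 * η ≤ δ₁ := by
    refine ⟨min δ (min y (min (δ - y) (δ₁ / 3))), ?_, min_le_left _ _, ?_, ?_, ?_⟩
    · exact lt_min hδ (lt_min hy (lt_min (by linarith) (by linarith)))
    · exact (min_le_right _ _).trans (min_le_left _ _)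
    · exact (min_le_right _ _).trans ((min_le_right _ _).trans (min_le_left _ _))
    · have := ((min_le_right δ (min y (min (δ - y) (δ₁ / 3)))).trans
        ((min_le_right _ _).trans (min_le_right _ _)))
      linarith
  refine ⟨η, hη, fun z hz1 hz2 hz3 => ?_⟩
  set B : Set ℂ := {w | 0 < w.re ∧ w.re < η ∧ |w.im - y| < η} with hB
  have hBc : IsPreconnected B := by
    have : B = Ioo 0 η ×ℂ Ioo (y - η) (y + η) := by
      ext w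
      simp only [hB, mem_ofPred_eq, Complex.mem_reProdIm, mem_Ioo, abs_lt]
      constructor
      · rintro ⟨g1, g2, g3, g4⟩
        exact ⟨⟨g1, g2⟩, by linarith, by linarith⟩
      · rintro ⟨⟨g1, g2⟩, g3, g4⟩
        exact ⟨g1, g2, by linarith, by linarith⟩
    rw [this]
    have hcv : Convex ℝ (Ioo 0 η ×ℂ Ioo (y - η) (y + η)) := by
      intro z hz w hw p q hp hq hpq
      refine ⟨?_, ?_⟩
      · have := convex_Ioo 0 η hz.1 hw.1 hp hq hpq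
        simpa using this
      · have := convex_Ioo (y - η) (y + η) hz.2 hw.2 hp hq hpq
        simpa using this
    exact hcv.isPreconnected
  have hBW : B ⊆ W ∩ closedBall 0 r₀ := by
    rintro w ⟨g1, g2, g3⟩
    rw [abs_lt] at g3
    exact hbox w g1 (by linarith) (by linarith [g3.1]) (by linarith [g3.2])
  have hBd : ∀ z ∈ B, ∀ w ∈ B, dist z w < δ₁ := by
    rintro z ⟨g1, g2, g3⟩ w ⟨g1', g2', g3'⟩
    rw [abs_lt] at g3 g3'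
    rw [Complex.dist_eq]
    have h5 := Complex.norm_le_abs_re_add_abs_im (z - w)
    have h6 : |(z - w).re| < η := by
      rw [Complex.sub_re, abs_lt]
      constructor <;> linarith
    have h7 : |(z - w).im| < 2 * η := by
      rw [Complex.sub_im, abs_lt]
      constructor <;> linarith [g3.1, g3.2, g3'.1, g3'.2]
    linarith
  have hu := hL B hBW hBc hBd
  have hev : ∀ᶠ t : ℝ in 𝓝[<] 1, (1 - (t:ℂ)) * (⟨δ, y⟩ : ℂ) + t * (⟨0, y⟩ : ℂ) ∈ B := by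
    have h5 : ∀ᶠ t : ℝ in 𝓝[<] 1, 1 - η / δ < t :=
      nhdsWithin_le_nhds (Ioi_mem_nhds (by have := div_pos hη hδ; linarith))
    filter_upwards [h5, self_mem_nhdsWithin] with t h6 h7
    rw [hc]
    have h7' : t < 1 := h7
    refine ⟨mul_pos (by linarith) hδ, ?_, ?_⟩
    · change (1 - t) * δ < η
      have h8 : 1 - t < η / δ := by linarith
      rwa [lt_div_iff₀ hδ] at h8
    · change |y - y| < η
      rw [sub_self, abs_zero]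
      exact hη
  have ht : Tendsto (fun t : ℝ => dist (u z) (u ((1 - (t:ℂ)) * (⟨δ, y⟩ : ℂ) + t * (⟨0, y⟩ : ℂ))))
      (𝓝[<] 1) (𝓝 (dist (u z) e)) := tendsto_const_nhds.dist he3
  exact le_of_tendsto ht (hev.mono fun t ht' => (hu z ⟨hz1, hz2, hz3⟩ _ ht').le)

private theorem JV_tendsto {u : ℂ → ℂ} {ζ : ℂ} {y : ℝ} {e : ℂ} (h : JV_Lim u ζ y e) :
    Tendsto (fun x : ℝ => u ⟨x, y⟩) (𝓝[>] 0) (𝓝 e) := by
  rw [Metric.tendsto_nhds]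
  intro ε hε
  obtain ⟨η, hη, h1⟩ := h.2.2 (ε / 2) (by linarith)
  have h5 : ∀ᶠ x : ℝ in 𝓝[>] 0, x < η := nhdsWithin_le_nhds (Iio_mem_nhds hη)
  filter_upwards [h5, self_mem_nhdsWithin] with x h6 h7
  have h7' : 0 < x := h7
  have := h1 ⟨x, y⟩ h7' h6 (by change |y - y| < η; rw [sub_self, abs_zero]; exact hη)
  linarith

private theorem JV_pre {G : ℂ → ℂ} {r lp km kp : ℝ} (HL : HypLoc G r lp km kp) {y : ℝ}
    (hy : 0 < y) (hyr : y < r) : ∃ y₁, 0 < y₁ ∧ y₁ ≤ y / km ∧ G ⟨0, y₁⟩ = ⟨0, y⟩ := by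
  have hkm := HL.hkm
  have hSq : ∀ t ∈ Icc (0:ℝ) y, (⟨0, t⟩ : ℂ) ∈ Sq r := by
    intro t ht
    have := HL.hr
    refine ⟨?_, ?_, ?_, ?_⟩
    · change -r ≤ 0; linarith
    · change 0 ≤ r; linarith
    · change -r ≤ t; linarith [ht.1]
    · change t ≤ r; linarith [ht.2]
  have hcont : ContinuousOn (fun t : ℝ => (G ⟨0, t⟩).im) (Icc 0 y) := by
    refine Complex.continuous_im.comp_continuousOn ?_
    refine HL.cont.comp ?_ hSq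
    have : Continuous (fun t : ℝ => (⟨0, t⟩ : ℂ)) := by
      have h2 : (fun t : ℝ => (⟨0, t⟩ : ℂ)) = fun t : ℝ => (t : ℂ) * Complex.I := by
        funext t
        apply Complex.ext <;> simp
      rw [h2]
      exact Complex.continuous_ofReal.mul continuous_const
    exact this.continuousOn
  have h0 : (G ⟨0, 0⟩).im = 0 := HL.im0 _ (hSq 0 ⟨le_rfl, hy.le⟩) rfl
  have h1 : y ≤ (G ⟨0, y⟩).im := by
    have h2 := (HL.impos ⟨0, y⟩ (hSq y ⟨hy.le, le_rfl⟩) hy).1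
    have h3 : km * y ≤ (G ⟨0, y⟩).im := h2
    nlinarith
  obtain ⟨y₁, hy₁, hy₁'⟩ := intermediate_value_Icc hy.le hcont
    (show y ∈ Icc ((G ⟨0, 0⟩).im) ((G ⟨0, y⟩).im) from ⟨by rw [h0]; exact hy.le, h1⟩)
  have hy₁'' : (G ⟨0, y₁⟩).im = y := hy₁'
  have hpos : 0 < y₁ := by
    rcases hy₁.1.lt_or_eq with h2 | h2
    · exact h2
    · rw [← h2, h0] at hy₁''
      linarith
  refine ⟨y₁, hpos, ?_, ?_⟩
  · rw [le_div_iff₀ (by linarith)]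
    have h2 := (HL.impos ⟨0, y₁⟩ (hSq y₁ hy₁) hpos).1
    have h3 : km * y₁ ≤ (G ⟨0, y₁⟩).im := h2
    linarith
  · apply Complex.ext
    · exact HL.re0 _ (hSq y₁ hy₁) rfl
    · exact hy₁''

private theorem JV_equi {W : Set ℂ} {φ u G Gi : ℂ → ℂ} {μ : Measure ℂ} {ζ : ℂ} {r₀ : ℝ}
    (H : FixPE W φ u G Gi μ ζ r₀) {r lp km kp : ℝ} (HL : HypLoc G r lp km kp) {δ : ℝ}
    (hδ : 0 < δ) (hδr : δ < r)
    (hsub : ∀ x y : ℝ, 0 < x → x ≤ δ → 0 < y → y ≤ δ → (⟨x, y⟩ : ℂ) ∈ W)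
    {hb : ℂ → ℂ} (hbc : ContinuousOn hb (closedBall 0 1))
    (hbe : ∀ z ∈ ball (0:ℂ) 1, hb z = u (G (φ z))) {y y₁ : ℝ} (hy₁ : 0 < y₁) (hy₁δ : y₁ < δ)
    (hG : G ⟨0, y₁⟩ = ⟨0, y⟩) {e e₁ : ℂ} (he : JV_Lim u ζ y e) (he₁ : JV_Lim u ζ y₁ e₁) :
    hb e₁ = e := by
  have hline : Tendsto (fun x : ℝ => (⟨x, y₁⟩ : ℂ)) (𝓝[>] 0) (𝓝 ⟨0, y₁⟩) := by
    have h2 : Continuous (fun x : ℝ => (⟨x, y₁⟩ : ℂ)) := by
      have h3 : (fun x : ℝ => (⟨x, y₁⟩ : ℂ)) = fun x : ℝ => (x : ℂ) + (y₁ : ℂ) * Complex.I := by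
        funext t
        apply Complex.ext <;> simp
      rw [h3]
      exact Complex.continuous_ofReal.add continuous_const
    exact (h2.tendsto 0).mono_left nhdsWithin_le_nhds
  have hsmall : ∀ᶠ x : ℝ in 𝓝[>] 0, 0 < x ∧ x < δ := by
    have h5 : ∀ᶠ x : ℝ in 𝓝[>] 0, x < δ := nhdsWithin_le_nhds (Iio_mem_nhds hδ)
    filter_upwards [h5, self_mem_nhdsWithin] with x h6 h7
    exact ⟨h7, h6⟩
  have hSq : ∀ x : ℝ, 0 ≤ x → x < δ → (⟨x, y₁⟩ : ℂ) ∈ Sq r := by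
    intro x h1 h2
    refine ⟨?_, ?_, ?_, ?_⟩
    · change -r ≤ x; linarith
    · change x ≤ r; linarith
    · change -r ≤ y₁; linarith
    · change y₁ ≤ r; linarith
  -- left side
  have hT1 : Tendsto (fun x : ℝ => hb (u ⟨x, y₁⟩)) (𝓝[>] 0) (𝓝 (hb e₁)) := by
    have h1 : ContinuousWithinAt hb (closedBall 0 1) e₁ :=
      hbc e₁ (by rw [mem_closedBall_zero_iff, he₁.1])
    refine h1.tendsto.comp ?_
    rw [tendsto_nhdsWithin_iff]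
    refine ⟨JV_tendsto he₁, ?_⟩
    filter_upwards [hsmall] with x hx
    exact ball_subset_closedBall (H.u_maps (hsub x y₁ hx.1 hx.2.le hy₁ hy₁δ.le))
  -- right side
  have hT2 : Tendsto (fun x : ℝ => u (G ⟨x, y₁⟩)) (𝓝[>] 0) (𝓝 e) := by
    have hGt : Tendsto (fun x : ℝ => G ⟨x, y₁⟩) (𝓝[>] 0) (𝓝 ⟨0, y⟩) := by
      rw [← hG]
      refine (HL.cont ⟨0, y₁⟩ (hSq 0 le_rfl hδ)).tendsto.comp ?_
      rw [tendsto_nhdsWithin_iff]
      refine ⟨hline, ?_⟩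
      filter_upwards [hsmall] with x hx
      exact hSq x hx.1.le hx.2
    rw [Metric.tendsto_nhds]
    intro ε hε
    obtain ⟨η, hη, h1⟩ := he.2.2 (ε / 2) (by linarith)
    have h2 := Metric.tendsto_nhds.1 hGt η hη
    filter_upwards [h2, hsmall] with x h3 hx
    have h4 := (HL.repos ⟨x, y₁⟩ (hSq x hx.1.le hx.2) hx.1).1
    rw [Complex.dist_eq] at h3
    have h5 := (Complex.abs_re_le_norm (G ⟨x, y₁⟩ - ⟨0, y⟩)).trans_lt h3
    have h6 := (Complex.abs_im_le_norm (G ⟨x, y₁⟩ - ⟨0, y⟩)).trans_lt h3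
    have h7 : (G ⟨x, y₁⟩ - ⟨0, y⟩).re = (G ⟨x, y₁⟩).re := by
      rw [Complex.sub_re]; simp
    have h8 : (G ⟨x, y₁⟩ - ⟨0, y⟩).im = (G ⟨x, y₁⟩).im - y := by
      rw [Complex.sub_im]
    rw [h7] at h5
    rw [h8] at h6
    have := h1 (G ⟨x, y₁⟩) h4 ((abs_lt.1 h5).2) h6
    linarith
  refine tendsto_nhds_unique (hT1.congr' ?_) hT2
  filter_upwards [hsmall] with x hx
  have hxW := hsub x y₁ hx.1 hx.2.le hy₁ hy₁δ.le
  rw [hbe _ (H.u_maps hxW), H.φu _ hxW]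

theorem vaxis_value {W : Set ℂ} {φ u G Gi : ℂ → ℂ} {μ : Measure ℂ} {ζ : ℂ} {r₀ : ℝ}
    (H : FixPE W φ u G Gi μ ζ r₀) {r lp km kp : ℝ} (HL : HypLoc G r lp km kp) {δ : ℝ}
    (hδ : 0 < δ) (hδr : δ < r) (hδr₀ : 4 * δ < r₀)
    (hsub : ∀ x y : ℝ, 0 < x → x ≤ δ → 0 < y → y ≤ δ → (⟨x, y⟩ : ℂ) ∈ W)
    (hlim : ∀ ε > 0, ∃ η > 0, ∀ x y : ℝ, 0 < x → x < η → 0 < y → y < η → dist (u ⟨x, y⟩) ζ < ε)
    {hb hbi : ℂ → ℂ} (hbc : ContinuousOn hb (closedBall 0 1))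
    (hbe : ∀ z ∈ ball (0:ℂ) 1, hb z = u (G (φ z)))
    (hbi1 : ∀ z ∈ closedBall (0:ℂ) 1, hbi (hb z) = z) {y₀ : ℝ} (hy₀ : 0 < y₀) (hy₀δ : y₀ < δ)
    (hy₀W : (⟨0, y₀⟩ : ℂ) ∉ W) :
    ∃ b : ℂ, ‖b‖ = 1 ∧ b ≠ ζ ∧ Tendsto (fun x : ℝ => u ⟨x, y₀⟩) (𝓝[>] 0) (𝓝 b) ∧
      Tendsto (fun n : ℕ => hbi^[n] b) atTop (𝓝 ζ) := by
  have hkm := HL.hkm
  have hkm0 : 0 < km := by linarith
  obtain ⟨b, hb0⟩ := JV_lim H hδ hδr₀ hsub hy₀ hy₀δ hy₀W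
  have key : ∀ n : ℕ, ∃ y, 0 < y ∧ y ≤ y₀ / km ^ n ∧ (⟨0, y⟩ : ℂ) ∉ W ∧
      JV_Lim u ζ y (hbi^[n] b) := by
    intro n
    induction n with
    | zero => exact ⟨y₀, hy₀, by simp, hy₀W, hb0⟩
    | succ n ih =>
      obtain ⟨y, hy, hyn, hyW, hyL⟩ := ih
      have hyy₀ : y ≤ y₀ := hyn.trans (div_le_self hy₀.le (one_le_pow₀ hkm.le))
      obtain ⟨y₁, hy₁, hy₁', hG⟩ := JV_pre HL hy (by linarith)
      have hy₁y : y₁ ≤ y := hy₁'.trans (div_le_self hy.le hkm.le)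
      have hy₁W : (⟨0, y₁⟩ : ℂ) ∉ W := by
        intro hcon
        apply hyW
        rw [← hG]
        exact H.G_maps hcon
      obtain ⟨e₁, he₁⟩ := JV_lim H hδ hδr₀ hsub hy₁ (by linarith) hy₁W
      have h1 := JV_equi H HL hδ hδr hsub hbc hbe hy₁ (by linarith) hG hyL he₁
      refine ⟨y₁, hy₁, ?_, hy₁W, ?_⟩
      · calc y₁ ≤ y / km := hy₁'
          _ ≤ (y₀ / km ^ n) / km := by gcongr
          _ = y₀ / km ^ (n + 1) := by rw [div_div, pow_succ]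
      · rw [Function.iterate_succ_apply', ← h1,
          hbi1 e₁ (by rw [mem_closedBall_zero_iff, he₁.1])]
        exact he₁
  refine ⟨b, hb0.1, hb0.2.1, JV_tendsto hb0, ?_⟩
  rw [Metric.tendsto_atTop]
  intro ε hε
  obtain ⟨η, hη, h1⟩ := hlim (ε / 2) (by linarith)
  have h2 : Tendsto (fun n : ℕ => y₀ / km ^ n) atTop (𝓝 0) :=
    tendsto_const_nhds.div_atTop (tendsto_pow_atTop_atTop_of_one_lt hkm)
  obtain ⟨n₀, hn₀⟩ := (h2.eventually (Iio_mem_nhds hη)).exists_forall_of_atTop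
  refine ⟨n₀, fun n hn => ?_⟩
  obtain ⟨y, hy, hyn, -, hyL⟩ := key n
  have hyη : y < η := lt_of_le_of_lt hyn (hn₀ n hn)
  have h3 : Tendsto (fun x : ℝ => dist (u ⟨x, y⟩) ζ) (𝓝[>] 0) (𝓝 (dist (hbi^[n] b) ζ)) :=
    (JV_tendsto hyL).dist tendsto_const_nhds
  have h4 : dist (hbi^[n] b) ζ ≤ ε / 2 := by
    refine le_of_tendsto h3 ?_
    have h5 : ∀ᶠ x : ℝ in 𝓝[>] 0, x < η := nhdsWithin_le_nhds (Iio_mem_nhds hη)
    filter_upwards [h5, self_mem_nhdsWithin] with x h6 h7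
    exact (h1 x y h7 h6 hy hyη).le
  linarith

end DS
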