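import Pool.Agent.H36.DS.JB
import Pool.Agent.H36.DS.JV
import Pool.Agent.H36.DS.JG
import Pool.Agent.H36.DS.YR

/-!
JE (the arcs at a fixed prime end with a good chart).  Write `W = κ ⁻¹' Kᶜ`, `G = χ ∘ g ∘ κ`, `uu = u ∘ κ`, `pp = χ ∘ φ`; `k = u ∘ g ∘ φ` on
the disc, i.e. `k z = uu (G (pp z))` (`κ (χ x) = x` off `P'`, in particular on `Kᶜ`).
First arc: `axis_values` (hypotheses from `GoodChart`; the horizontal axis is not in `W` by `hyp.axis`) gives `a` on `(0, δ']`;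
`pt x = κ ⟨x, 0⟩`; `Acc φ (a x) (pt x)` by `acc_curve` with the curve `t ↦ κ ⟨x, t δ'⟩`; `s x = (G ⟨x, 0⟩).re`; `hyp.sp`.  `stab_arc`
gives `J`.
Alternative 2 of `GoodQuad` (the half box): the reflected system (`refl (-1) 1`: chart `refl ∘ χ`, `κ ∘ refl`; `refl_fixPE`,
`refl_hypLoc`) satisfies the same hypotheses, so there are `a'` on `(0, δ'']`, `pt' x = κ ⟨-x, 0⟩`, and an arc `J'`.  Disjoint: if
`b ∈ J ∩ J'` then `k^[n] b = a x`, `k^[m] b = a' x'`; applying `k` further to both (`k (a x) = a (s x)`) we may assume `n = m`, so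
`a x = a' x'` and `acc_unique` gives `κ ⟨x, 0⟩ = κ ⟨-x', 0⟩`, so `x = -x'` (`κ` is injective), impossible.
(For this also use `ExistsUnique`-free form: `Acc φ (a x) (pt x)` for all `x` in the interval and `s x` stays in the interval.)
Alternative 1: there is `y₀ ∈ (0, δ)` with `⟨0, y₀⟩ ∉ W`; `vaxis_value` gives `b`; `z = κ ⟨0, y₀⟩ ∈ K`;
`Acc φ b z` by `acc_curve` with `t ↦ κ ⟨t δ, y₀⟩`.  `¬ SP z`: otherwise `hyp.cross` with `ε` smaller than `y₀` and `δ - y₀` gives a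
point `w` with `0 < w.re < δ`, `0 < w.im < δ`, `κ w ∈ K`, but `w ∈ W` by `quad.sub`.  `b ∈ E`: `ki^[n] b → ζ ∈ E`, so
`ki^[n] b ∈ E` for some `n`, and `b = k^[n] (ki^[n] b) ∈ E`.
-/

namespace DS
open Metric Set Filter Topology MeasureTheory

/-- `k^[n] (ki^[n] b) = b` -/
theorem JE_iter {k ki : ℂ → ℂ} {S : Set ℂ} (him : MapsTo ki S S) (h : ∀ z ∈ S, k (ki z) = z)
    (n : ℕ) : ∀ b ∈ S, k^[n] (ki^[n] b) = b := by
  have hm : ∀ n : ℕ, ∀ b ∈ S, ki^[n] b ∈ S := fun n b hb => him.iterate n hb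
  induction n with
  | zero => intro b _; rfl
  | succ n ih =>
    intro b hb
    rw [Function.iterate_succ_apply, Function.iterate_succ_apply', h _ (hm n b hb)]
    exact ih b hb

theorem JE_gK {X : Type*} {K : Set X} {g gi : X → X} (hgig : ∀ x, gi (g x) = x)
    (hgK : g '' K = K) : MapsTo g Kᶜ Kᶜ := by
  intro x hx hgx
  rw [← hgK] at hgx
  obtain ⟨y, hy, hyx⟩ := hgx
  apply hx
  rw [← hgig x, ← hyx, hgig y]
  exact hy

theorem JE_giK {X : Type*} {K : Set X} {g gi : X → X} (hggi : ∀ x, g (gi x) = x)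
    (hgK : g '' K = K) : MapsTo gi Kᶜ Kᶜ := by
  intro x hx hgx
  apply hx
  rw [← hggi x, ← hgK]
  exact ⟨_, hgx, rfl⟩

/-- the formula of the boundary map in the chart -/
theorem JE_be {X : Type*} [MetricSpace X] {K : Set X} {φ : ℂ → X} {u : X → ℂ}
    (hD : DiscMap K φ u) {g gi : X → X} (hgig : ∀ x, gi (g x) = x) (hgK : g '' K = K)
    {k ki : ℂ → ℂ} (hE : EndMap φ u g gi k ki) {P P' : X} {χ : X → ℂ} {κ : ℂ → X}
    (hch : PChart K P P' χ κ) :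
    ∀ z ∈ ball (0:ℂ) 1, k z = u (κ (χ (g (κ (χ (φ z)))))) := by
  intro z hz
  have h1 : φ z ∉ K := hD.φ_maps hz
  have h2 : φ z ≠ P' := fun h => h1 (h ▸ hch.hP')
  rw [hch.κχ _ h2]
  have h3 : g (φ z) ∉ K := JE_gK hgig hgK h1
  have h4 : g (φ z) ≠ P' := fun h => h3 (h ▸ hch.hP')
  rw [hch.κχ _ h4]
  exact hE.be z hz

/-- the arc of one half axis -/
theorem JE_arc {X : Type*} [MetricSpace X] {K : Set X} {φ : ℂ → X}
    {u : X → ℂ} (hD : DiscMap K φ u) {g gi : X → X} (hg : Continuous g) (hgi : Continuous gi)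
    (hggi : ∀ x, g (gi x) = x) (hgig : ∀ x, gi (g x) = x) (hgK : g '' K = K) {k ki : ℂ → ℂ}
    (hE : EndMap φ u g gi k ki) {SP : X → Prop} (hSP : ∀ x, SP x → SP (gi x)) {E : Set ℂ}
    (hEs : E ⊆ sphere 0 1) (hEo : ∀ ζ ∈ E, ∃ ρ > 0, sphere 0 1 ∩ ball ζ ρ ⊆ E) (hEk : k '' E = E)
    {ζ : ℂ} (hζ : ζ ∈ E) (hkζ : k ζ = ζ) {P P' : X} {χ : X → ℂ} {κ : ℂ → X} {μ : Measure ℂ}
    {r r₀ lp km kp δ : ℝ} (hch : PChart K P P' χ κ)
    (hloc : HypLoc (fun w => χ (g (κ w))) r lp km kp)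
    (hpe : FixPE (κ ⁻¹' Kᶜ) (fun z => χ (φ z)) (fun w => u (κ w)) (fun w => χ (g (κ w)))
      (fun w => χ (gi (κ w))) μ ζ r₀)
    (haxis : ∀ x : ℝ, |x| ≤ r → κ ⟨x, 0⟩ ∈ K)
    (hsp : ∀ x : ℝ, 0 < |x| → |x| < r → SP (κ ⟨x, 0⟩))
    (hδ : 0 < δ) (hδr : δ < r) (hδr₀ : 4 * δ < r₀)
    (hsub : ∀ x y : ℝ, 0 < x → x ≤ δ → 0 < y → y ≤ δ → (⟨x, y⟩ : ℂ) ∈ κ ⁻¹' Kᶜ)
    (hlim : ∀ ε > 0, ∃ η > 0, ∀ x y : ℝ, 0 < x → x < η → 0 < y → y < η →
      dist (u (κ ⟨x, y⟩)) ζ < ε) :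
    ∃ J : Set ℂ, StabArc k φ SP E ζ J ∧
      ∀ b ∈ J, ∃ n : ℕ, ∀ m : ℕ, n ≤ m → ∃ x : ℝ, 0 < x ∧ Acc φ (k^[m] b) (κ ⟨x, 0⟩) := by
  obtain ⟨δ', hδ', hδδ, a, hac, ha1, ha0, hau, hak, has⟩ := axis_values hpe hloc
    (fun x hx h => h (haxis x hx)) hδ hδr hδr₀ hsub hlim (hb := k) hE.bc
    (JE_be hD hgig hgK hE hch)
  have hacc : ∀ x ∈ Ioc (0:ℝ) δ', Acc φ (a x) (κ ⟨x, 0⟩) := by
    intro x hx
    have hcont : Continuous (fun t : ℝ => κ ⟨x, t * δ⟩) := by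
      apply hch.κ_cont.comp
      exact (continuous_const.prodMk (continuous_id.mul continuous_const)).comp' continuous_id
        |> fun h => Complex.equivRealProdCLM.symm.continuous.comp h
    apply acc_curve hD (α := fun t : ℝ => κ ⟨x, t * δ⟩)
    · exact hcont.continuousOn
    · intro t ht
      exact hsub x (t * δ) hx.1 (hx.2.trans hδδ) (mul_pos ht.1 hδ)
        (by nlinarith [ht.2])
    · have h1 : Tendsto (fun t : ℝ => κ ⟨x, t * δ⟩) (𝓝 0) (𝓝 (κ ⟨x, 0 * δ⟩)) := hcont.tendsto 0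
      rw [zero_mul] at h1
      exact h1.mono_left nhdsWithin_le_nhds
    · have h1 : Tendsto (fun t : ℝ => t * δ) (𝓝[>] 0) (𝓝[>] 0) := by
        apply tendsto_nhdsWithin_iff.2
        constructor
        · have h2 : Tendsto (fun t : ℝ => t * δ) (𝓝 0) (𝓝 (0 * δ)) :=
            (continuous_id.mul continuous_const).tendsto 0
          rw [zero_mul] at h2
          exact h2.mono_left nhdsWithin_le_nhds
        · filter_upwards [self_mem_nhdsWithin] with t ht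
          exact mul_pos ht hδ
      exact (hau x hx).comp h1
  obtain ⟨J, hJ, hJa⟩ := stab_arc hD hg hgi (JE_gK hgig hgK) (JE_giK hggi hgK) hE hSP hEs hEo hEk
    hζ hkζ hδ' hloc.hlp hloc.hlp1 (a := a) (s := fun x => (χ (g (κ ⟨x, 0⟩))).re)
    (pt := fun x => κ ⟨x, 0⟩) hac ha1 ha0 has hak hacc
    (fun x hx => hsp x (by rw [abs_of_pos hx.1]; exact hx.1) (by
      rw [abs_of_pos hx.1]; exact (hx.2.trans hδδ).trans_lt hδr))
  refine ⟨J, hJ, fun b hb => ?_⟩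
  obtain ⟨n, x, hx, hnx⟩ := hJa b hb
  have hiter : ∀ j : ℕ, ∃ y ∈ Ioc (0:ℝ) δ', k^[n + j] b = a y := by
    intro j
    induction j with
    | zero => exact ⟨x, hx, hnx⟩
    | succ j ih =>
      obtain ⟨y, hy, hyb⟩ := ih
      refine ⟨(χ (g (κ ⟨y, 0⟩))).re, ⟨(has y hy).1, ?_⟩, ?_⟩
      · have h1 := (has y hy).2
        have h2 := hloc.hlp1
        have h3 := hy.1
        have h4 := hy.2
        nlinarith
      · rw [← add_assoc, Function.iterate_succ_apply', hyb]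
        exact hak y hy
  refine ⟨n, fun m hm => ?_⟩
  obtain ⟨j, rfl⟩ := Nat.exists_eq_add_of_le hm
  obtain ⟨y, hy, hyb⟩ := hiter j
  exact ⟨y, hy.1, by rw [hyb]; exact hacc y hy⟩

theorem JE_refl_cont (σ₁ σ₂ : ℝ) : Continuous (refl σ₁ σ₂) := by
  have h : Continuous (fun z : ℂ => ((σ₁ * z.re, σ₂ * z.im) : ℝ × ℝ)) :=
    (continuous_const.mul Complex.continuous_re).prodMk
      (continuous_const.mul Complex.continuous_im)
  exact Complex.equivRealProdCLM.symm.continuous.comp h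

theorem local_end {X : Type*} [MetricSpace X] {K : Set X} (hK : IsClosed K) {φ : ℂ → X}
    {u : X → ℂ} (hD : DiscMap K φ u) {g gi : X → X} (hg : Continuous g) (hgi : Continuous gi)
    (hggi : ∀ x, g (gi x) = x) (hgig : ∀ x, gi (g x) = x) (hgK : g '' K = K) {k ki : ℂ → ℂ}
    (hE : EndMap φ u g gi k ki) {SP : X → Prop} (hSP : ∀ x, SP x → SP (gi x)) {E : Set ℂ}
    (hEs : E ⊆ sphere 0 1) (hEo : ∀ ζ ∈ E, ∃ ρ > 0, sphere 0 1 ∩ ball ζ ρ ⊆ E) (hEk : k '' E = E)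
    {ζ : ℂ} (hζ : ζ ∈ E) (hkζ : k ζ = ζ) {P P' : X} {χ : X → ℂ} {κ : ℂ → X} {μ : Measure ℂ}
    {r r₀ lp km kp δ : ℝ} (hG : GoodChart K SP φ u g gi ζ P P' χ κ μ r r₀ lp km kp δ) :
    ∃ J : Set ℂ, StabArc k φ SP E ζ J ∧
      ((∃ J' : Set ℂ, StabArc k φ SP E ζ J' ∧ Disjoint J J') ∨
        ∃ b ∈ E, b ≠ ζ ∧ Tendsto (fun n : ℕ => ki^[n] b) atTop (𝓝 ζ) ∧
          ∃ z, Acc φ b z ∧ ¬ SP z) := by
  have hch := hG.hyp.ch
  have hδ := hG.quad.hδ
  obtain ⟨J, hJ, hJa⟩ := JE_arc hD hg hgi hggi hgig hgK hE hSP hEs hEo hEk hζ hkζ hch hG.hyp.loc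
    hG.pe hG.hyp.axis hG.hyp.sp hδ hG.hδr hG.hδr₀ hG.quad.sub hG.quad.lim
  refine ⟨J, hJ, ?_⟩
  rcases hG.quad.alt with halt | ⟨halt1, halt2⟩
  · -- points of the vertical axis
    right
    obtain ⟨y₀, hy₀, hy₀δ, hy₀W⟩ := halt δ hδ
    obtain ⟨b, hb1, hbζ, hbt, hbn⟩ := vaxis_value hG.pe hG.hyp.loc hδ hG.hδr hG.hδr₀ hG.quad.sub
      hG.quad.lim (hb := k) (hbi := ki) hE.bc (JE_be hD hgig hgK hE hch) hE.bib hy₀ hy₀δ hy₀W
    have hbs : b ∈ sphere (0:ℂ) 1 := by simpa using hb1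
    have hzK : κ ⟨0, y₀⟩ ∈ K := by
      by_contra h
      exact hy₀W h
    refine ⟨b, ?_, hbζ, hbn, κ ⟨0, y₀⟩, ?_, ?_⟩
    · obtain ⟨ρ, hρ, hρE⟩ := hEo ζ hζ
      have h1 : ∀ᶠ n : ℕ in atTop, ki^[n] b ∈ ball ζ ρ := hbn (ball_mem_nhds ζ hρ)
      obtain ⟨n, hn⟩ := h1.exists
      have h2 : ki^[n] b ∈ E := hρE ⟨hE.bis.iterate n hbs, hn⟩
      have h3 : MapsTo k E E := fun z hz => hEk ▸ ⟨z, hz, rfl⟩
      have h4 := h3.iterate n h2
      rwa [JE_iter (S := closedBall 0 1) hE.bim hE.bbi n b (sphere_subset_closedBall hbs)] at h4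
    · have hcont : Continuous (fun t : ℝ => κ ⟨t * δ, y₀⟩) := by
        apply hch.κ_cont.comp
        have h : Continuous (fun t : ℝ => ((t * δ, y₀) : ℝ × ℝ)) :=
          (continuous_id.mul continuous_const).prodMk continuous_const
        exact Complex.equivRealProdCLM.symm.continuous.comp h
      apply acc_curve hD (α := fun t : ℝ => κ ⟨t * δ, y₀⟩)
      · exact hcont.continuousOn
      · intro t ht
        exact hG.quad.sub (t * δ) y₀ (mul_pos ht.1 hδ) (by nlinarith [ht.2]) hy₀ hy₀δ.le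
      · have h1 : Tendsto (fun t : ℝ => κ ⟨t * δ, y₀⟩) (𝓝 0) (𝓝 (κ ⟨0 * δ, y₀⟩)) :=
          hcont.tendsto 0
        rw [zero_mul] at h1
        exact h1.mono_left nhdsWithin_le_nhds
      · have h1 : Tendsto (fun t : ℝ => t * δ) (𝓝[>] 0) (𝓝[>] 0) := by
          apply tendsto_nhdsWithin_iff.2
          constructor
          · have h2 : Tendsto (fun t : ℝ => t * δ) (𝓝 0) (𝓝 (0 * δ)) :=
              (continuous_id.mul continuous_const).tendsto 0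
            rw [zero_mul] at h2
            exact h2.mono_left nhdsWithin_le_nhds
          · filter_upwards [self_mem_nhdsWithin] with t ht
            exact mul_pos ht hδ
        exact hbt.comp h1
    · intro hSPz
      obtain ⟨⟨z, hz, hzre, hzK'⟩, -⟩ := hG.hyp.cross y₀ (by rw [abs_of_pos hy₀]; exact hy₀)
        (by rw [abs_of_pos hy₀]; exact hy₀δ.trans hG.hδr) hzK hSPz (min y₀ (δ - y₀))
        (lt_min hy₀ (by linarith))
      rw [mem_ball, Complex.dist_eq] at hz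
      have h1 : |(z - ⟨0, y₀⟩ : ℂ).re| < min y₀ (δ - y₀) := (Complex.abs_re_le_norm _).trans_lt hz
      have h2 : |(z - ⟨0, y₀⟩ : ℂ).im| < min y₀ (δ - y₀) := (Complex.abs_im_le_norm _).trans_lt hz
      rw [Complex.sub_re, abs_lt] at h1
      rw [Complex.sub_im, abs_lt] at h2
      simp only at h1 h2
      have h3 := min_le_left y₀ (δ - y₀)
      have h4 := min_le_right y₀ (δ - y₀)
      have h5 := hG.quad.sub z.re z.im hzre (by linarith [h1.2]) (by linarith [h2.1])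
        (by linarith [h2.2])
      exact h5 hzK'
  · -- the reflected arc
    left
    have hs1 : (-1 : ℝ) = 1 ∨ (-1 : ℝ) = -1 := Or.inr rfl
    have hs2 : (1 : ℝ) = 1 ∨ (1 : ℝ) = -1 := Or.inl rfl
    have hrr : ∀ z, refl (-1) 1 (refl (-1) 1 z) = z := refl_refl hs1 hs2
    have hr0 : ∀ x y : ℝ, refl (-1) 1 ⟨x, y⟩ = ⟨-x, y⟩ := by
      intro x y
      apply Complex.ext <;> simp [refl]
    have hch' : PChart K P P' (fun x => refl (-1) 1 (χ x)) (fun w => κ (refl (-1) 1 w)) := by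
      refine ⟨hch.hP', hch.κ_cont.comp (JE_refl_cont _ _), fun z => hch.κ_ne _, fun z => ?_,
        fun x hx => ?_, ?_, ?_⟩
      · rw [hch.χκ, hrr]
      · rw [hrr, hch.κχ x hx]
      · exact (JE_refl_cont _ _).comp_continuousOn hch.χ_cont
      · have h1 : refl (-1) 1 (0 : ℂ) = 0 := by
          apply Complex.ext <;> simp [refl]
        rw [h1]
        exact hch.κ0
    obtain ⟨J', hJ', hJa'⟩ := JE_arc hD hg hgi hggi hgig hgK hE hSP hEs hEo hEk hζ hkζ hch'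
      (r := r) (r₀ := r₀) (lp := lp) (km := km) (kp := kp) (δ := δ)
      (μ := Measure.map (refl (-1) 1) μ)
      (refl_hypLoc hG.hyp.loc hs1 hs2) (refl_fixPE hG.pe hs1 hs2)
      (fun x hx => by
        rw [hr0]
        exact hG.hyp.axis (-x) (by rwa [abs_neg]))
      (fun x hx hxr => by
        rw [hr0]
        exact hG.hyp.sp (-x) (by rwa [abs_neg]) (by rwa [abs_neg]))
      hδ hG.hδr hG.hδr₀
      (fun x y hx hxδ hy hyδ => by
        have h1 := halt1 (-x) y (by rw [abs_neg, abs_of_pos hx]; exact hxδ) hy hyδ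
        show κ (refl (-1) 1 ⟨x, y⟩) ∉ K
        rw [hr0]
        exact h1)
      (fun ε hε => by
        obtain ⟨η, hη, h⟩ := halt2 ε hε
        refine ⟨η, hη, fun x y hx hxη hy hyη => ?_⟩
        rw [hr0]
        exact h (-x) y (by rw [abs_neg, abs_of_pos hx]; exact hxη) hy hyη)
    refine ⟨J', hJ', ?_⟩
    rw [Set.disjoint_left]
    intro b hb hb'
    obtain ⟨n, hn⟩ := hJa b hb
    obtain ⟨n', hn'⟩ := hJa' b hb'
    obtain ⟨x, hx, hxA⟩ := hn (max n n') (le_max_left _ _)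
    obtain ⟨x', hx', hxA'⟩ := hn' (max n n') (le_max_right _ _)
    have hbs : b ∈ sphere (0:ℂ) 1 := hEs (hJ.sub hb).1
    have hks : k^[max n n'] b ∈ sphere (0:ℂ) 1 := hE.bs.iterate _ hbs
    have h1 := acc_unique hD (by simpa using hks) hxA hxA'
    rw [hr0] at h1
    have h2 := congrArg χ h1
    rw [hch.χκ, hch.χκ] at h2
    have h3 := congrArg Complex.re h2
    simp only at h3
    linarith

end DS
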