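import Pool.Agent.H36.DS.JC
import Pool.Agent.H36.DS.JD
import Pool.Agent.H36.DS.JE

/-!
JF (the theorem on fixed prime ends).  Proof.  Suppose `ζ ∈ E`, `hb ζ = ζ`.
(1) `hloc` for `m = 1` gives `P`; the elliptic alternative is impossible (`no_ell_end`).  So there is a `HypChart` for
`g^[2]`; its boundary map is `k = hb^[2]` (`endMap_iter`), `ν` and `K` are invariant under `g^[2]`; `exists_good` and `local_end` (with
`SP` invariant under `gi^[2]`) give `J` with `StabArc k φ SP E ζ J`.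
(2) `circle_CD1` for the circle homeomorphism `hb` (`J ⊆ E \ {ζ} ⊆ sphere \ {ζ}`) gives `e` with `k e = e`, `e ∉ J`, and
`(hbi^[2])^[n] b → e` for `b ∈ J`.  By `hnext` (`m = 2`: `hb^[2] ζ = ζ`) `e ∈ E`.
(3) `hloc` for `m = 2` at `e`: elliptic is impossible (`no_ell_end` for `g^[2]`), so there is a `HypChart` for `g^[4]`
(`(g^[2])^[2]`), with boundary map `k^[2]`; `exists_good` and `local_end` give `J₁` with `StabArc (k^[2]) φ SP E e J₁` and one of the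
alternatives.  `J` is also invariant under `k^[2]`, `J ⊆ sphere \ {e}`, connected, and `(ki^[2])^[n] b → e` on `J`
(`ki = hbi^[2]`; a subsequence of the sequence in (2)).
Alternative 1: `J₁` and a disjoint `J₂`: contradiction by `circle_CD2b` for the circle homeomorphism `k` (which fixes `e`).
Alternative 2: `b ∈ E`, `b ≠ e`, `(ki^[2])^[n] b → e`, `Acc φ b z`, `¬ SP z`: `circle_CD2a` gives `b ∈ J`, so `Acc φ b x` with `SP x`
(`StabArc.acc` for `J`), and `acc_unique` gives `x = z`, contradiction.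
-/

namespace DS
open Metric Set Filter Topology MeasureTheory

theorem JF_compl {X : Type*} {K : Set X} {g gi : X → X} (hggi : ∀ x, g (gi x) = x)
    (hgig : ∀ x, gi (g x) = x) (hgK : g '' K = K) : MapsTo g Kᶜ Kᶜ ∧ MapsTo gi Kᶜ Kᶜ := by
  constructor
  · intro x hx hgx
    rw [← hgK] at hgx
    obtain ⟨y, hy, hyx⟩ := hgx
    have h1 : y = x := by rw [← hgig y, hyx, hgig]
    exact hx (h1 ▸ hy)
  · intro x hx hgx
    apply hx
    rw [← hgK]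
    exact ⟨gi x, hgx, hggi x⟩

theorem JF_meas {X : Type*} [MetricSpace X] [MeasurableSpace X] [BorelSpace X] {K : Set X}
    {g gi : X → X} (hgi : Continuous gi) (hggi : ∀ x, g (gi x) = x)
    (hgig : ∀ x, gi (g x) = x) (hgK : g '' K = K) (ν : Measure X)
    (hν : ∀ B ⊆ Kᶜ, MeasurableSet B → ν (g '' B) = ν B) (m : ℕ) :
    ∀ B ⊆ Kᶜ, MeasurableSet B →
      (g^[m] '' B ⊆ Kᶜ ∧ MeasurableSet (g^[m] '' B)) ∧ ν (g^[m] '' B) = ν B := by
  intro B hB hBm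
  induction m with
  | zero => simpa using ⟨hB, hBm⟩
  | succ m ih =>
    obtain ⟨⟨h1, h2⟩, h3⟩ := ih
    rw [Function.iterate_succ', image_comp]
    refine ⟨⟨?_, ?_⟩, ?_⟩
    · rintro _ ⟨x, hx, rfl⟩
      exact (JF_compl hggi hgig hgK).1 (h1 hx)
    · have h4 : g '' (g^[m] '' B) = gi ⁻¹' (g^[m] '' B) := by
        ext x
        constructor
        · rintro ⟨y, hy, rfl⟩
          rw [mem_preimage, hgig]
          exact hy
        · intro hx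
          exact ⟨gi x, hx, hggi x⟩
      rw [h4]
      exact hgi.measurable h2
    · rw [hν _ h1 h2, h3]

theorem JF_image {α : Type*} {f : α → α} {S : Set α} (h : f '' S = S) (m : ℕ) :
    f^[m] '' S = S := by
  induction m with
  | zero => simp
  | succ m ih => rw [Function.iterate_succ', image_comp, ih, h]

theorem JF_SP {X : Type*} {gi : X → X} {SP : X → Prop} (hSP : ∀ x, SP x → SP (gi x)) (m : ℕ) :
    ∀ x, SP x → SP (gi^[m] x) := by
  induction m with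
  | zero => intro x hx; exact hx
  | succ m ih =>
    intro x hx
    rw [Function.iterate_succ_apply']
    exact hSP _ (ih x hx)

theorem JF_step {X : Type*} [MetricSpace X] [MeasurableSpace X] [BorelSpace X] {K : Set X}
    (hK : IsClosed K) {φ : ℂ → X} {u : X → ℂ} (hD : DiscMap K φ u) {g gi : X → X}
    (hg : Continuous g) (hgi : Continuous gi) (hggi : ∀ x, g (gi x) = x)
    (hgig : ∀ x, gi (g x) = x) (hgK : g '' K = K) {hb hbi : ℂ → ℂ}
    (hE : EndMap φ u g gi hb hbi) (ν : Measure X)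
    (hν : ∀ B ⊆ Kᶜ, MeasurableSet B → ν (g '' B) = ν B)
    (hpos : ∀ O ⊆ Kᶜ, IsOpen O → O.Nonempty → 0 < ν O) {SP : X → Prop}
    (hSP : ∀ x, SP x → SP (gi x)) {E : Set ℂ} (hEs : E ⊆ sphere 0 1)
    (hEo : ∀ ζ ∈ E, ∃ ρ > 0, sphere 0 1 ∩ ball ζ ρ ⊆ E) (hEb : hb '' E = E)
    (hfin : ∀ ζ ∈ E, ∃ ρ > 0, ν (φ '' (ball 0 1 ∩ ball ζ ρ)) < ⊤)
    (hloc : ∀ ζ ∈ E, ∀ m : ℕ, 0 < m → hb^[m] ζ = ζ → ∃ P ∈ K, Principal φ ζ P ∧
      (EllPt K (g^[m]) P ∨ ∃ (P' : X) (χ : X → ℂ) (κ : ℂ → X) (r lp km kp : ℝ),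
        HypChart K SP (g^[2 * m]) P P' χ κ r lp km kp))
    {e : ℂ} (he : e ∈ E) {m : ℕ} (hm : 0 < m) (hfix : hb^[m] e = e) :
    ∃ J : Set ℂ, StabArc (hb^[2 * m]) φ SP E e J ∧
      ((∃ J' : Set ℂ, StabArc (hb^[2 * m]) φ SP E e J' ∧ Disjoint J J') ∨
        ∃ b ∈ E, b ≠ e ∧ Tendsto (fun n : ℕ => (hbi^[2 * m])^[n] b) atTop (𝓝 e) ∧
          ∃ z, Acc φ b z ∧ ¬ SP z) := by
  have hc := JF_compl hggi hgig hgK
  have hgg : ∀ n : ℕ, ∀ x, g^[n] (gi^[n] x) = x := fun n x =>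
    Function.LeftInverse.iterate (f := gi) (g := g) hggi n x
  have hgg' : ∀ n : ℕ, ∀ x, gi^[n] (g^[n] x) = x := fun n x =>
    Function.LeftInverse.iterate (f := g) (g := gi) hgig n x
  have hmeas := fun n : ℕ => fun B (hB : B ⊆ Kᶜ) (hBm : MeasurableSet B) =>
    (JF_meas hgi hggi hgig hgK ν hν n B hB hBm).2
  have hEn := fun n : ℕ => endMap_iter hD hc.1 hc.2 hE n
  have hζ : ‖e‖ = 1 := mem_sphere_zero_iff_norm.1 (hEs he)
  obtain ⟨P, hPK, hPr, hell | ⟨P', χ, κ, r, lp, km, kp, hH⟩⟩ := hloc e he m hm hfix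
  · exact (no_ell_end hK hD (hg.iterate m) (hgi.iterate m) (hgg m) (hgg' m) (JF_image hgK m)
      (hEn m) ν (hmeas m) hpos hζ (hfin e he) hfix hPK hPr hell).elim
  · have hfix2 : hb^[2 * m] e = e := by
      rw [mul_comm, Function.iterate_mul]
      exact Function.iterate_fixed hfix 2
    obtain ⟨χ', κ', μ, r₀, δ, hG⟩ := exists_good hK hD (hg.iterate (2 * m)) (hgi.iterate (2 * m))
      (hgg (2 * m)) (hgg' (2 * m)) (JF_image hgK (2 * m)) (hEn (2 * m)) ν (hmeas (2 * m)) hpos hζ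
      (hfin e he) hfix2 hPK hPr hH
    exact local_end hK hD (hg.iterate (2 * m)) (hgi.iterate (2 * m))
      (hgg (2 * m)) (hgg' (2 * m)) (JF_image hgK (2 * m)) (hEn (2 * m)) (JF_SP hSP (2 * m)) hEs hEo
      (JF_image hEb (2 * m)) he hfix2 hG

theorem no_fixed_end {X : Type*} [MetricSpace X] [MeasurableSpace X] [BorelSpace X] {K : Set X}
    (hK : IsClosed K) {φ : ℂ → X} {u : X → ℂ} (hD : DiscMap K φ u) {g gi : X → X}
    (hg : Continuous g) (hgi : Continuous gi) (hggi : ∀ x, g (gi x) = x)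
    (hgig : ∀ x, gi (g x) = x) (hgK : g '' K = K) {hb hbi : ℂ → ℂ}
    (hE : EndMap φ u g gi hb hbi) (ν : Measure X)
    (hν : ∀ B ⊆ Kᶜ, MeasurableSet B → ν (g '' B) = ν B)
    (hpos : ∀ O ⊆ Kᶜ, IsOpen O → O.Nonempty → 0 < ν O) {SP : X → Prop}
    (hSP : ∀ x, SP x → SP (gi x)) {E : Set ℂ} (hEs : E ⊆ sphere 0 1)
    (hEo : ∀ ζ ∈ E, ∃ ρ > 0, sphere 0 1 ∩ ball ζ ρ ⊆ E) (hEb : hb '' E = E)
    (hfin : ∀ ζ ∈ E, ∃ ρ > 0, ν (φ '' (ball 0 1 ∩ ball ζ ρ)) < ⊤)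
    (hloc : ∀ ζ ∈ E, ∀ m : ℕ, 0 < m → hb^[m] ζ = ζ → ∃ P ∈ K, Principal φ ζ P ∧
      (EllPt K (g^[m]) P ∨ ∃ (P' : X) (χ : X → ℂ) (κ : ℂ → X) (r lp km kp : ℝ),
        HypChart K SP (g^[2 * m]) P P' χ κ r lp km kp))
    (hnext : ∀ ζ ∈ E, ∀ m : ℕ, 0 < m → hb^[m] ζ = ζ → ∀ J ⊆ E \ {ζ}, IsConnected J →
      (hb^[m]) '' J = J → (∀ b ∈ J, Tendsto (fun n : ℕ => (hb^[m])^[n] b) atTop (𝓝 ζ)) →
      ∀ e ∈ sphere (0:ℂ) 1, (∀ b ∈ J, Tendsto (fun n : ℕ => (hbi^[m])^[n] b) atTop (𝓝 e)) →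
      e ∈ E) :
    ∀ ζ ∈ E, hb ζ ≠ ζ := by
  intro ζ hζ hfix
  have step := fun {e : ℂ} (he : e ∈ E) {m : ℕ} (hm : 0 < m) (hfix : hb^[m] e = e) =>
    JF_step hK hD hg hgi hggi hgig hgK hE ν hν hpos hSP hEs hEo hEb hfin hloc he hm hfix
  obtain ⟨J, hJ, -⟩ := step hζ one_pos (by simpa using hfix)
  rw [mul_one] at hJ
  have hcirc : CircHomeo hb hbi :=
    ⟨hE.bc.mono sphere_subset_closedBall, hE.bic.mono sphere_subset_closedBall, hE.bs, hE.bis,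
      fun z hz => hE.bbi z (sphere_subset_closedBall hz),
      fun z hz => hE.bib z (sphere_subset_closedBall hz)⟩
  have hJs : J ⊆ sphere 0 1 \ {ζ} := fun x hx => ⟨hEs (hJ.sub hx).1, (hJ.sub hx).2⟩
  obtain ⟨e, he1, he2, he3, he4⟩ := circle_CD1 hcirc (hEs hζ) hfix hJ.conn hJs hJ.inv hJ.lim
  have heE : e ∈ E := hnext ζ hζ 2 two_pos (Function.iterate_fixed hfix 2) J hJ.sub hJ.conn hJ.inv
    hJ.lim e he1 he4
  obtain ⟨J₁, hJ₁, halt⟩ := step heE two_pos he2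
  have hc := JF_compl hggi hgig hgK
  have hE2 := endMap_iter hD hc.1 hc.2 hE 2
  have hcirc2 : CircHomeo (hb^[2]) (hbi^[2]) :=
    ⟨hE2.bc.mono sphere_subset_closedBall, hE2.bic.mono sphere_subset_closedBall, hE2.bs, hE2.bis,
      fun z hz => hE2.bbi z (sphere_subset_closedBall hz),
      fun z hz => hE2.bib z (sphere_subset_closedBall hz)⟩
  rw [Function.iterate_mul] at hJ₁ halt
  have hJe : J ⊆ sphere 0 1 \ {e} := fun x hx => ⟨(hJs hx).1, fun h => he3 (h ▸ hx)⟩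
  have hJ2 : ((hb^[2])^[2]) '' J = J := JF_image hJ.inv 2
  have hJt : ∀ b ∈ J, Tendsto (fun n : ℕ => ((hbi^[2])^[2])^[n] b) atTop (𝓝 e) := by
    intro b hb
    have h1 : Tendsto (fun n : ℕ => 2 * n) atTop atTop :=
      tendsto_id.const_mul_atTop' two_pos
    refine ((he4 b hb).comp h1).congr fun n => ?_
    rw [Function.comp_apply, Function.iterate_mul]
  have hsub : ∀ {J' : Set ℂ}, StabArc ((hb^[2])^[2]) φ SP E e J' → J' ⊆ sphere 0 1 \ {e} :=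
    fun h x hx => ⟨hEs (h.sub hx).1, (h.sub hx).2⟩
  rcases halt with ⟨J₂, hJ₂, hdis⟩ | ⟨b, hbE, hbe, hbt, z, hz, hSz⟩
  · exact circle_CD2b hcirc2 he1 he2 hJ.conn hJe hJ2 hJt hJ₁.conn (hsub hJ₁) hJ₁.inv hJ₁.lim
      hJ₂.conn (hsub hJ₂) hJ₂.inv hJ₂.lim hdis
  · rw [Function.iterate_mul] at hbt
    have hbJ : b ∈ J := circle_CD2a hcirc2 he1 he2 hJ.conn hJe hJ2 hJt hJ₁.conn (hsub hJ₁)
      hJ₁.inv hJ₁.lim (hEs hbE) hbe hbt
    obtain ⟨x, hx1, hx2⟩ := hJ.acc b hbJ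
    have h1 := acc_unique hD (mem_sphere_zero_iff_norm.1 (hEs hbE)) hx1 hz
    exact hSz (h1 ▸ hx2)

end DS
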