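import Pool.Agent.H36.DS.XBase

/-!
XA (stereographic charts).  Proof.  Mathlib: `stereographic' 2 O : OpenPartialHomeomorph S2 E2` has source `{O}ᶜ` and
target `univ`; the chart at the point `x` of the manifold structure is `stereographic' 2 (-x)`, so `stereographic' 2 O` is
the chart at `-O` (in the atlas), hence smooth with smooth inverse (`contMDiffOn_chart`, `contMDiffOn_chart_symm`).  Compose with the
linear isometry `E2 ≃ₗᵢ[ℝ] ℂ` (`Complex.orthonormalBasisOneI.repr`).  `q_lim`: `q` is a homeomorphism from the plane onto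
the complement of `O` in a compact space: for an open neighbourhood `U` of `O` the set `p '' Uᶜ` is compact, and outside of
it `q` is in `U`.  `p_lim`: for a compact `C` of the plane `q '' C` is compact, so closed, and does not contain `O`.
-/

namespace DS
open Metric Set Filter Topology Function
open scoped Manifold ContDiff

theorem exists_SC (O : S2) : ∃ (p : S2 → ℂ) (q : ℂ → S2), SC O p q := by
  set e : ℂ ≃ₗᵢ[ℝ] E2 := Complex.orthonormalBasisOneI.repr with he
  set s : OpenPartialHomeomorph S2 E2 := stereographic' 2 O with hs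
  have hsrc : s.source = {O}ᶜ := stereographic'_source O
  have htgt : s.target = univ := stereographic'_target O
  have hchart : chartAt E2 (-O) = s := by
    change stereographic' 2 (- -O) = _
    rw [neg_neg]
  have hs1 : ContMDiffOn (𝓡 2) (𝓡 2) 1 s {O}ᶜ := by
    have := contMDiffOn_chart (I := 𝓡 2) (n := 1) (H := E2) (x := -O)
    rw [hchart, hsrc] at this
    exact this
  have hs2 : ContMDiff (𝓡 2) (𝓡 2) 1 s.symm := by
    have := contMDiffOn_chart_symm (I := 𝓡 2) (n := 1) (H := E2) (x := -O)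
    rw [hchart, htgt] at this
    exact contMDiffOn_univ.mp this
  have he1 : ContMDiff (𝓡 2) 𝓘(ℝ, ℂ) 1 (e.symm : E2 → ℂ) :=
    (e.symm.toContinuousLinearEquiv : E2 →L[ℝ] ℂ).contMDiff
  have he2 : ContMDiff 𝓘(ℝ, ℂ) (𝓡 2) 1 (e : ℂ → E2) :=
    (e.toContinuousLinearEquiv : ℂ →L[ℝ] E2).contMDiff
  have hps : ContMDiffOn (𝓡 2) 𝓘(ℝ, ℂ) 1 (fun x => e.symm (s x)) {O}ᶜ := he1.comp_contMDiffOn hs1
  have hqs : ContMDiff 𝓘(ℝ, ℂ) (𝓡 2) 1 (fun z => s.symm (e z)) := hs2.comp he2
  have hqne : ∀ z, s.symm (e z) ≠ O := by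
    intro z h
    have h1 : s.symm (e z) ∈ s.source := s.map_target (by rw [htgt]; trivial)
    rw [hsrc] at h1
    exact h1 h
  have hpq : ∀ z, e.symm (s (s.symm (e z))) = z := by
    intro z
    rw [s.right_inv (by rw [htgt]; trivial), e.symm_apply_apply]
  have hqp : ∀ x, x ≠ O → s.symm (e (e.symm (s x))) = x := by
    intro x hx
    rw [e.apply_symm_apply, s.left_inv (by rw [hsrc]; exact hx)]
  refine ⟨fun x => e.symm (s x), fun z => s.symm (e z), hqs, hps, hqne, hpq, hqp, ?_, ?_⟩
  · intro U hU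
    rw [mem_map]
    obtain ⟨U', hU'U, hU'o, hOU'⟩ := _root_.mem_nhds_iff.mp hU
    have hK : IsCompact U'ᶜ := hU'o.isClosed_compl.isCompact
    have hKs : U'ᶜ ⊆ {O}ᶜ := by
      intro x hx h
      rw [mem_singleton_iff] at h
      exact hx (h ▸ hOU')
    have hpK : IsCompact ((fun x => e.symm (s x)) '' U'ᶜ) :=
      hK.image_of_continuousOn (hps.continuousOn.mono hKs)
    refine mem_of_superset hpK.compl_mem_cocompact ?_
    intro z hz
    apply hU'U
    by_contra hcon
    exact hz ⟨s.symm (e z), hcon, hpq z⟩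
  · intro U hU
    rw [mem_map]
    obtain ⟨C, hC, hCU⟩ := mem_cocompact.mp hU
    have hqC : IsCompact ((fun z => s.symm (e z)) '' C) := hC.image hqs.continuous
    have hO : O ∉ (fun z => s.symm (e z)) '' C := by
      rintro ⟨z, _, hz⟩
      exact hqne z hz
    have h1 : ((fun z => s.symm (e z)) '' C)ᶜ ∈ 𝓝 O := hqC.isClosed.isOpen_compl.mem_nhds hO
    rw [mem_nhdsWithin_iff_eventually]
    filter_upwards [h1] with x hx hxO
    apply hCU
    intro hxC
    exact hx ⟨e.symm (s x), hxC, hqp x hxO⟩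

theorem pc1_of_SC {O : S2} {p : S2 → ℂ} {q : ℂ → S2} (h : SC O p q) : PC1 O p q :=
  ⟨h.q_smooth, h.p_smooth, h.q_ne, h.pq, h.qp⟩

end DS
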