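import Pool.Agent.H36.DS.IA

/-!
ID (the index of a nondegenerate fixed point with positive determinants).  Proof.  Let
`g z = P + B (z - P) + R z` with `‖R z‖ ≤ ε ‖z - P‖` on `closedBall P ρ₁`.  A real linear map `A` of `ℂ` is
`A v = α v + β conj v` with `det A = ‖α‖² - ‖β‖²`; if `det A > 0` then
`A v / v = α + β (conj v / v)` lies in the ball about `α` of radius `‖β‖ < ‖α‖`.  With `A = B - 1`, on the circle
`sphere P ρ` the function `(g z - z) / (z - P) = A v / v + R z / v` (`v = z - P`) stays in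
`ball α ‖α‖` when `ε < ‖α‖ - ‖β‖`, so division by `α` puts it in `ball 1 1 ⊆ slitPlane` and `Complex.log` gives the
logarithm.  The same with `A = B` for `(g z - P) / (z - P)`.  Take `O = ball P ρ` with `ρ` small (`closedBall P ρ ⊆ N`,
`g` continuous on the ball, `‖(B - 1) v‖ ≥ (‖α‖ - ‖β‖) ‖v‖` gives `g z ≠ z` for `z ≠ P`).  frontier = sphere.
-/

namespace DS
open Metric Set Filter Topology

private theorem ID_lin (A : ℂ →L[ℝ] ℂ) (h : 0 < A.det) : ∃ α : ℂ, ∃ m : ℝ, 0 < m ∧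
    ∀ v, ‖A v - α * v‖ ≤ (‖α‖ - m) * ‖v‖ := by
  set a : ℂ := A 1 with ha
  set b : ℂ := A Complex.I with hb
  have hdet : A.det = a.re * b.im - b.re * a.im := by
    have h1 : A.det = LinearMap.det (A : ℂ →ₗ[ℝ] ℂ) := rfl
    rw [h1, ← LinearMap.det_toMatrix Complex.basisOneI, Matrix.det_fin_two]
    simp only [LinearMap.toMatrix_apply, Complex.coe_basisOneI_repr, Complex.coe_basisOneI,
      Matrix.cons_val_zero, Matrix.cons_val_one, ContinuousLinearMap.coe_coe]
    rfl
  set α : ℂ := (a - Complex.I * b) / 2 with hα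
  set β : ℂ := (a + Complex.I * b) / 2 with hβ
  have hAv : ∀ v : ℂ, A v - α * v = β * (starRingEnd ℂ) v := by
    intro v
    have h1 : A v = v.re * a + v.im * b := by
      have h2 : v = v.re • (1 : ℂ) + v.im • Complex.I := by
        simp [Complex.re_add_im]
      conv_lhs => rw [h2]
      rw [map_add, map_smul, map_smul]
      simp [ha, hb]
    rw [h1, hα, hβ]
    apply Complex.ext
    · simp; ring
    · simp; ring
  have hn : ‖β‖ < ‖α‖ := by
    have h1 : ‖α‖ ^ 2 - ‖β‖ ^ 2 = A.det := by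
      rw [hdet, Complex.sq_norm, Complex.sq_norm, Complex.normSq_apply, Complex.normSq_apply, hα,
        hβ]
      simp
      ring
    have h2 : ‖β‖ ^ 2 < ‖α‖ ^ 2 := by linarith
    exact lt_of_pow_lt_pow_left₀ 2 (norm_nonneg _) h2
  refine ⟨α, ‖α‖ - ‖β‖, by linarith, fun v => ?_⟩
  rw [hAv v, norm_mul, RCLike.norm_conj]
  apply le_of_eq
  ring

private theorem ID_log {f : ℂ → ℂ} {S : Set ℂ} {α : ℂ} (hf : ContinuousOn f S)
    (h : ∀ z ∈ S, ‖f z - α‖ < ‖α‖) : HasLog f S := by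
  rcases S.eq_empty_or_nonempty with he | ⟨z₀, hz₀⟩
  · subst he
    exact ⟨fun _ => 0, continuousOn_const, fun z hz => absurd hz (notMem_empty z)⟩
  have hα : α ≠ 0 := norm_pos_iff.1 ((norm_nonneg _).trans_lt (h z₀ hz₀))
  have hslit : ∀ z ∈ S, f z / α ∈ Complex.slitPlane := by
    intro z hz
    refine Complex.ball_one_subset_slitPlane ?_
    rw [mem_ball, dist_eq_norm]
    have h1 : f z / α - 1 = (f z - α) / α := by field_simp
    rw [h1, norm_div, div_lt_one (norm_pos_iff.2 hα)]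
    exact h z hz
  refine ⟨fun z => Complex.log (f z / α) + Complex.log α,
    ((hf.div_const α).clog hslit).add continuousOn_const, fun z hz => ?_⟩
  rw [Complex.exp_add, Complex.exp_log (Complex.slitPlane_ne_zero (hslit z hz)),
    Complex.exp_log hα, div_mul_cancel₀ _ hα]

/-- the quotient is close to the conformal part -/
private theorem ID_near {g : ℂ → ℂ} {P : ℂ} {B : ℂ →L[ℝ] ℂ} (hg : HasFDerivAt g B P)
    (hgP : g P = P) {A : ℂ →L[ℝ] ℂ} {F : ℂ → ℂ} (hA : 0 < A.det)
    (hF : ∀ z, F z = g z - P - B (z - P) + A (z - P)) :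
    ∃ α : ℂ, ∀ᶠ z in 𝓝 P, z ≠ P → ‖F z / (z - P) - α‖ < ‖α‖ := by
  obtain ⟨α, m, hm, hα⟩ := ID_lin A hA
  refine ⟨α, ?_⟩
  have h1 := hg.isLittleO.def (half_pos hm)
  filter_upwards [h1] with z hz hzP
  rw [hgP] at hz
  have hv : z - P ≠ 0 := sub_ne_zero.2 hzP
  have hv' : 0 < ‖z - P‖ := norm_pos_iff.2 hv
  have h2 : F z / (z - P) - α = ((g z - P - B (z - P)) + (A (z - P) - α * (z - P))) / (z - P) := by
    rw [hF z]; field_simp; ring
  rw [h2, norm_div, div_lt_iff₀ hv']
  refine (norm_add_le _ _).trans_lt ?_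
  have h3 := hα (z - P)
  nlinarith

theorem star_point {g : ℂ → ℂ} {P : ℂ} {B : ℂ →L[ℝ] ℂ} (hg : HasFDerivAt g B P) (hgP : g P = P)
    (hdet : 0 < (B - ContinuousLinearMap.id ℝ ℂ).det) (hdet2 : 0 < B.det)
    (hcont : ∀ᶠ z in 𝓝 P, ContinuousAt g z) {N : Set ℂ} (hN : IsOpen N) (hPN : P ∈ N) :
    ∃ O : Set ℂ, IsOpen O ∧ P ∈ O ∧ closure O ⊆ N ∧ Bornology.IsBounded O ∧
      HasLog (fun x => (g x - x) / (x - P)) (frontier O) ∧
      HasLog (fun x => (g x - P) / (x - P)) (frontier O) ∧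
      ∀ x ∈ closure O, x ≠ P → g x ≠ x := by
  obtain ⟨α, hα⟩ := ID_near hg hgP (F := fun z => g z - z) hdet (by
    intro z
    simp only [sub_apply, ContinuousLinearMap.id_apply]
    ring)
  obtain ⟨β, hβ⟩ := ID_near hg hgP (F := fun z => g z - P) hdet2 (by
    intro z
    ring)
  obtain ⟨ρ, hρ, hball⟩ := Metric.nhds_basis_closedBall.mem_iff.1
    (((hα.and hβ).and hcont).and (hN.mem_nhds hPN))
  have hfr : frontier (ball P ρ) = sphere P ρ := frontier_ball P hρ.ne'
  have hcl : closure (ball P ρ) = closedBall P ρ := closure_ball P hρ.ne'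
  have hsub : sphere P ρ ⊆ closedBall P ρ := sphere_subset_closedBall
  have hne : ∀ z ∈ sphere P ρ, z ≠ P := by
    intro z hz h
    rw [h, mem_sphere, dist_self] at hz
    exact hρ.ne hz
  have hgc : ContinuousOn g (sphere P ρ) := fun z hz =>
    (hball (hsub hz)).1.2.continuousWithinAt
  have hden : ContinuousOn (fun z : ℂ => z - P) (sphere P ρ) := by fun_prop
  have hden0 : ∀ z ∈ sphere P ρ, z - P ≠ 0 := fun z hz => sub_ne_zero.2 (hne z hz)
  refine ⟨ball P ρ, isOpen_ball, mem_ball_self hρ, ?_, isBounded_ball, ?_, ?_, ?_⟩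
  · rw [hcl]
    exact fun z hz => (hball hz).2
  · rw [hfr]
    exact ID_log ((hgc.sub continuousOn_id).div hden hden0)
      (fun z hz => (hball (hsub hz)).1.1.1 (hne z hz))
  · rw [hfr]
    exact ID_log ((hgc.sub continuousOn_const).div hden hden0)
      (fun z hz => (hball (hsub hz)).1.1.2 (hne z hz))
  · rw [hcl]
    intro x hx hxP hgx
    have := (hball hx).1.1.1 hxP
    rw [hgx, sub_self, zero_div, zero_sub, norm_neg] at this
    exact lt_irrefl _ this

end DS
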