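import Pool.Agent.H36.DS.XA
import Pool.Agent.H36.DS.RX
import Pool.Agent.H36.DS.XB

/-!
NA (complements of two continua of the sphere are annuli).
`plane_annulus`: `K` compact connected nonempty in the plane with connected complement.  If `K = {k}`: translate `k` to `0`;
`z ↦ (z / ‖z‖) * (1 + ‖z‖ / (1 + ‖z‖))` is a homeomorphism from `ℂ \ {0}` to the annulus.  If `K` is nontrivial: translate so that
`0 ∈ K`; `ext_map` gives `ψ, v`; `w ↦ v w⁻¹` is a homeomorphism from `Kᶜ` onto `ball 0 1 \ {0}` (inverse `z ↦ (ψ z)⁻¹`; `ψ z = 0` only for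
`z = 0`), and `z ↦ (z / ‖z‖) * (1 + ‖z‖)` maps the punctured disc onto the annulus.
`sphere_plane`: `K ⊆ S2` closed connected nonempty with connected complement, `Kᶜ` nonempty: there are `h : ℂ → S2`, `hi : S2 → ℂ`, `h` a homeomorphism
of the plane onto `Kᶜ`.  Take a stereographic chart `(p, q)` with pole `O ∉ K` if `K` is nontrivial: `K' = p '' K` is compact, connected,
nontrivial, its complement in the plane is connected (`p '' (Kᶜ \ {O})`: a connected open subset of the sphere minus a point is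
connected; see below), `ext_map` for `K' - k₀` and then the disc is homeomorphic to the plane (`z ↦ z / (1 - ‖z‖)`); the map
`z ↦ q (k₀ + (ψ z)⁻¹)`, `0 ↦ O`, as in XB (`discMap_ext` gives the continuity statements).  If `K = {O}`: `q, p`.
Connectedness of `Kᶜ \ {O}`: `Kᶜ` open connected in the sphere, minus a point: near `O` (in a chart) a punctured disc is
connected; the standard argument: if `Kᶜ \ {O} ⊆ A ∪ B` disjoint open, a small punctured disc `D'` about `O` is contained in one of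
them, say `A`; then `Kᶜ = (A ∪ D) ∪ B` disconnects `Kᶜ`.
`two_annulus`: `h, hi` from `sphere_plane` for `K₁`; `K₂' = hi '' K₂` is compact connected nonempty in the plane with complement
`hi '' (K₁ ∪ K₂)ᶜ`, connected; `plane_annulus`; compose with `h`.
-/

namespace DS
open Metric Set Filter Topology

private def NA_homeo {X Y : Type*} [TopologicalSpace X] [TopologicalSpace Y] {A : Set X} {B : Set Y}
    (f : X → Y) (g : Y → X) (hf : ContinuousOn f A) (hg : ContinuousOn g B) (mf : MapsTo f A B)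
    (mg : MapsTo g B A) (gf : ∀ x ∈ A, g (f x) = x) (fg : ∀ y ∈ B, f (g y) = y) : A ≃ₜ B where
  toFun x := ⟨f x, mf x.2⟩
  invFun y := ⟨g y, mg y.2⟩
  left_inv x := Subtype.ext (gf x x.2)
  right_inv y := Subtype.ext (fg y y.2)
  continuous_toFun := Continuous.subtype_mk hf.domRestrict _
  continuous_invFun := Continuous.subtype_mk hg.domRestrict _

private theorem NA_disc_annulus :
    Nonempty (({z : ℂ | z ≠ 0 ∧ ‖z‖ < 1} : Set ℂ) ≃ₜ {z : ℂ | 1 < ‖z‖ ∧ ‖z‖ < 2}) := by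
  refine ⟨NA_homeo (fun z => (1 + ‖z‖⁻¹) • z) (fun y => (1 - ‖y‖⁻¹) • y) ?_ ?_ ?_ ?_ ?_ ?_⟩
  · intro z hz
    have h1 : ‖z‖ ≠ 0 := norm_ne_zero_iff.mpr hz.1
    exact ((continuousAt_const.add (continuous_norm.continuousAt.inv₀ h1)).smul
      continuousAt_id).continuousWithinAt
  · intro z hz
    have h1 : ‖z‖ ≠ 0 := by have := hz.1; intro h; rw [h] at this; linarith
    exact ((continuousAt_const.sub (continuous_norm.continuousAt.inv₀ h1)).smul
      continuousAt_id).continuousWithinAt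
  · intro z hz
    have h1 : 0 < ‖z‖ := norm_pos_iff.mpr hz.1
    have h2 : ‖(1 + ‖z‖⁻¹) • z‖ = ‖z‖ + 1 := by
      rw [norm_smul, Real.norm_of_nonneg (by positivity)]
      field_simp
    refine ⟨?_, ?_⟩
    · show 1 < ‖(1 + ‖z‖⁻¹) • z‖
      rw [h2]; linarith
    · show ‖(1 + ‖z‖⁻¹) • z‖ < 2
      rw [h2]; linarith [hz.2]
  · intro y hy
    have h0 : 1 < ‖y‖ := hy.1
    have h1 : 0 < ‖y‖ := by linarith
    have h3 : ‖y‖⁻¹ < 1 := inv_lt_one_of_one_lt₀ h0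
    have h2 : ‖(1 - ‖y‖⁻¹) • y‖ = ‖y‖ - 1 := by
      rw [norm_smul, Real.norm_of_nonneg (by linarith)]
      field_simp
    refine ⟨?_, ?_⟩
    · show (1 - ‖y‖⁻¹) • y ≠ 0
      rw [← norm_ne_zero_iff, h2]
      linarith
    · show ‖(1 - ‖y‖⁻¹) • y‖ < 1
      rw [h2]; linarith [hy.2]
  · intro z hz
    have h1 : 0 < ‖z‖ := norm_pos_iff.mpr hz.1
    have h2 : ‖(1 + ‖z‖⁻¹) • z‖ = ‖z‖ + 1 := by
      rw [norm_smul, Real.norm_of_nonneg (by positivity)]
      field_simp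
    show (1 - ‖(1 + ‖z‖⁻¹) • z‖⁻¹) • ((1 + ‖z‖⁻¹) • z) = z
    rw [h2, smul_smul]
    have : (1 - (‖z‖ + 1)⁻¹) * (1 + ‖z‖⁻¹) = 1 := by field_simp; ring
    rw [this, one_smul]
  · intro y hy
    have h0 : 1 < ‖y‖ := hy.1
    have h1 : 0 < ‖y‖ := by linarith
    have h3 : ‖y‖⁻¹ < 1 := inv_lt_one_of_one_lt₀ h0
    have h2 : ‖(1 - ‖y‖⁻¹) • y‖ = ‖y‖ - 1 := by
      rw [norm_smul, Real.norm_of_nonneg (by linarith)]
      field_simp
    show (1 + ‖(1 - ‖y‖⁻¹) • y‖⁻¹) • ((1 - ‖y‖⁻¹) • y) = y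
    rw [h2, smul_smul]
    have h4 : ‖y‖ - 1 ≠ 0 := by linarith
    have : (1 + (‖y‖ - 1)⁻¹) * (1 - ‖y‖⁻¹) = 1 := by field_simp; ring
    rw [this, one_smul]

/-- the maps between the plane and the disc -/
private theorem NA_toDisc_norm (z : ℂ) : ‖(1 + ‖z‖)⁻¹ • z‖ = ‖z‖ / (1 + ‖z‖) := by
  rw [norm_smul, Real.norm_of_nonneg (by positivity)]
  field_simp

private theorem NA_toDisc_lt (z : ℂ) : ‖(1 + ‖z‖)⁻¹ • z‖ < 1 := by
  rw [NA_toDisc_norm, div_lt_one (by positivity)]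
  linarith

private theorem NA_toDisc_cont : Continuous (fun z : ℂ => (1 + ‖z‖)⁻¹ • z) := by
  have h1 : Continuous (fun z : ℂ => (1 + ‖z‖)⁻¹) :=
    Continuous.inv₀ (f := fun z : ℂ => 1 + ‖z‖) (continuous_const.add continuous_norm)
      fun z => (by positivity : (1 + ‖z‖ : ℝ) ≠ 0)
  exact h1.smul continuous_id

private theorem NA_toPlane_cont : ContinuousOn (fun z : ℂ => (1 - ‖z‖)⁻¹ • z) (ball 0 1) := by
  intro z hz
  rw [mem_ball_zero_iff] at hz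
  have h1 : ContinuousAt (fun z : ℂ => (1 - ‖z‖)⁻¹) z :=
    ContinuousAt.inv₀ (f := fun z : ℂ => 1 - ‖z‖)
      (continuousAt_const.sub continuous_norm.continuousAt) (by
        have : (1 - ‖z‖ : ℝ) ≠ 0 := by linarith
        exact this)
  exact (h1.smul continuousAt_id).continuousWithinAt

private theorem NA_pd (z : ℂ) :
    (1 - ‖(1 + ‖z‖)⁻¹ • z‖)⁻¹ • ((1 + ‖z‖)⁻¹ • z) = z := by
  rw [NA_toDisc_norm, smul_smul]
  have h1 : 0 < 1 + ‖z‖ := by positivity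
  have : (1 - ‖z‖ / (1 + ‖z‖))⁻¹ * (1 + ‖z‖)⁻¹ = 1 := by
    have h2 : 1 - ‖z‖ / (1 + ‖z‖) = (1 + ‖z‖)⁻¹ := by field_simp; ring
    rw [h2, inv_inv]
    field_simp
  rw [this, one_smul]

private theorem NA_dp (z : ℂ) (hz : ‖z‖ < 1) :
    (1 + ‖(1 - ‖z‖)⁻¹ • z‖)⁻¹ • ((1 - ‖z‖)⁻¹ • z) = z := by
  have h1 : 0 < 1 - ‖z‖ := by linarith
  have h2 : ‖(1 - ‖z‖)⁻¹ • z‖ = ‖z‖ / (1 - ‖z‖) := by
    rw [norm_smul, Real.norm_of_nonneg (by positivity)]
    field_simp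
  rw [h2, smul_smul]
  have : (1 + ‖z‖ / (1 - ‖z‖))⁻¹ * (1 - ‖z‖)⁻¹ = 1 := by
    have h3 : 1 + ‖z‖ / (1 - ‖z‖) = (1 - ‖z‖)⁻¹ := by field_simp; ring
    rw [h3, inv_inv]
    field_simp
  rw [this, one_smul]

private theorem NA_plane_disc (k : ℂ) :
    Nonempty (({k}ᶜ : Set ℂ) ≃ₜ ({z : ℂ | z ≠ 0 ∧ ‖z‖ < 1} : Set ℂ)) := by
  refine ⟨NA_homeo (fun z => (1 + ‖z - k‖)⁻¹ • (z - k)) (fun y => k + (1 - ‖y‖)⁻¹ • y)
    ?_ ?_ ?_ ?_ ?_ ?_⟩
  · exact (NA_toDisc_cont.comp (continuous_id.sub continuous_const)).continuousOn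
  · refine ContinuousOn.add continuousOn_const (NA_toPlane_cont.mono ?_)
    intro z hz
    rw [mem_ball_zero_iff]
    exact hz.2
  · intro z hz
    refine ⟨?_, NA_toDisc_lt _⟩
    have h1 : z - k ≠ 0 := sub_ne_zero.mpr hz
    exact smul_ne_zero (by positivity) h1
  · intro y hy h
    have h1 : k + (1 - ‖y‖)⁻¹ • y = k := h
    have h2 : (1 - ‖y‖)⁻¹ • y = 0 := by simpa using h1
    have h3 : (1 - ‖y‖)⁻¹ ≠ 0 := inv_ne_zero (by linarith [hy.2])
    exact (smul_ne_zero h3 hy.1) h2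
  · intro z hz
    show k + (1 - ‖(1 + ‖z - k‖)⁻¹ • (z - k)‖)⁻¹ • ((1 + ‖z - k‖)⁻¹ • (z - k)) = z
    rw [NA_pd]
    ring
  · intro y hy
    show (1 + ‖k + (1 - ‖y‖)⁻¹ • y - k‖)⁻¹ • (k + (1 - ‖y‖)⁻¹ • y - k) = y
    rw [add_sub_cancel_left]
    exact NA_dp y hy.2

private theorem NA_psi {K : Set ℂ} {ψ v : ℂ → ℂ} (hE : ExtMap K ψ v) {z : ℂ}
    (hz : z ∈ ball (0:ℂ) 1) (hz0 : z ≠ 0) : ψ z ≠ 0 ∧ (ψ z)⁻¹ ∉ K := by
  have h1 : ψ z ≠ 0 := by
    intro h
    have h2 := hE.vψ z hz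
    have h3 := hE.vψ 0 (by simp)
    rw [h] at h2
    rw [hE.ψ0] at h3
    exact hz0 (h2.symm.trans h3)
  refine ⟨h1, ?_⟩
  rcases hE.mψ hz with h | h
  · exact absurd h h1
  · exact h

/-- translate of `K` with `0` inside -/
private theorem NA_trans {K : Set ℂ} (hK : IsCompact K) (hc : IsConnected K) (hcc : IsConnected Kᶜ)
    (hn : K.Nontrivial) {k₀ : ℂ} (hk₀ : k₀ ∈ K) :
    ∃ K₀ : Set ℂ, IsCompact K₀ ∧ IsConnected K₀ ∧ IsConnected K₀ᶜ ∧ K₀.Nontrivial ∧ (0:ℂ) ∈ K₀ ∧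
      (∀ z, z ∈ K₀ ↔ k₀ + z ∈ K) ∧ (fun z => k₀ + z) '' K₀ = K := by
  have hiff : ∀ z, z ∈ (fun z => z - k₀) '' K ↔ k₀ + z ∈ K := by
    intro z
    constructor
    · rintro ⟨w, hw, rfl⟩
      simpa using hw
    · intro h
      exact ⟨k₀ + z, h, by simp⟩
  have hcont : Continuous (fun z : ℂ => z - k₀) := continuous_id.sub continuous_const
  refine ⟨(fun z => z - k₀) '' K, hK.image hcont, hc.image _ hcont.continuousOn, ?_, ?_, ?_, hiff, ?_⟩
  · have : ((fun z => z - k₀) '' K)ᶜ = (fun z => z - k₀) '' Kᶜ := by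
      ext z
      rw [mem_compl_iff, hiff]
      constructor
      · intro h
        exact ⟨k₀ + z, h, by simp⟩
      · rintro ⟨w, hw, rfl⟩
        simpa using hw
    rw [this]
    exact hcc.image _ hcont.continuousOn
  · exact hn.image (fun a b h => by simpa using h)
  · exact ⟨k₀, hk₀, by simp⟩
  · ext z
    constructor
    · rintro ⟨w, hw, rfl⟩
      exact (hiff w).mp hw
    · intro h
      exact ⟨z - k₀, ⟨z, h, rfl⟩, by simp⟩

private theorem NA_ext_disc {K : Set ℂ} (hK : IsCompact K) (h0 : (0:ℂ) ∈ K) {K' : Set ℂ} {k₀ : ℂ}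
    (hKK : ∀ z, z ∈ K ↔ k₀ + z ∈ K') {ψ v : ℂ → ℂ} (hE : ExtMap K ψ v) :
    Nonempty ((K'ᶜ : Set ℂ) ≃ₜ ({z : ℂ | z ≠ 0 ∧ ‖z‖ < 1} : Set ℂ)) := by
  have hopen := RX_isOpen hK
  have hvc : ∀ w ∈ extDom K, ContinuousAt v w := fun w hw =>
    (hE.dv.differentiableAt (hopen.mem_nhds hw)).continuousAt
  have hψc : ∀ z ∈ ball (0:ℂ) 1, ContinuousAt ψ z := fun z hz =>
    (hE.dψ.differentiableAt (isOpen_ball.mem_nhds hz)).continuousAt
  have hmem : ∀ z ∈ K'ᶜ, z - k₀ ∉ K := by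
    intro z hz h
    apply hz
    have := (hKK _).mp h
    simpa using this
  have hne : ∀ z ∈ K'ᶜ, z - k₀ ≠ 0 := fun z hz h => hmem z hz (h ▸ h0)
  have hdom : ∀ z ∈ K'ᶜ, (z - k₀)⁻¹ ∈ extDom K := fun z hz => Or.inr (by
    rw [inv_inv]; exact hmem z hz)
  have hball : ∀ z ∈ ({z : ℂ | z ≠ 0 ∧ ‖z‖ < 1} : Set ℂ), z ∈ ball (0:ℂ) 1 := fun z hz => by
    rw [mem_ball_zero_iff]; exact hz.2
  refine ⟨NA_homeo (fun z => v ((z - k₀)⁻¹)) (fun z => k₀ + (ψ z)⁻¹) ?_ ?_ ?_ ?_ ?_ ?_⟩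
  · intro z hz
    have h1 : ContinuousAt (fun z : ℂ => (z - k₀)⁻¹) z :=
      (continuousAt_id.sub continuousAt_const).inv₀ (hne z hz)
    exact ((hvc _ (hdom z hz)).comp_of_eq h1 rfl).continuousWithinAt
  · intro z hz
    exact (continuousAt_const.add ((hψc z (hball z hz)).inv₀
      (NA_psi hE (hball z hz) hz.1).1)).continuousWithinAt
  · intro z hz
    refine ⟨?_, ?_⟩
    · intro h
      have h1 := hE.ψv _ (hdom z hz)
      have h2 : v ((z - k₀)⁻¹) = 0 := h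
      rw [h2, hE.ψ0] at h1
      exact inv_ne_zero (hne z hz) h1.symm
    · have := hE.mv (hdom z hz)
      rwa [mem_ball_zero_iff] at this
  · intro z hz h
    exact (NA_psi hE (hball z hz) hz.1).2 ((hKK _).mpr h)
  · intro z hz
    show k₀ + (ψ (v ((z - k₀)⁻¹)))⁻¹ = z
    rw [hE.ψv _ (hdom z hz), inv_inv]
    ring
  · intro z hz
    show v ((k₀ + (ψ z)⁻¹ - k₀)⁻¹) = z
    rw [add_sub_cancel_left, inv_inv]
    exact hE.vψ z (hball z hz)

theorem plane_annulus {K : Set ℂ} (hK : IsCompact K) (hc : IsConnected K) (hcc : IsConnected Kᶜ) :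
    Nonempty ((Kᶜ : Set ℂ) ≃ₜ {z : ℂ | 1 < ‖z‖ ∧ ‖z‖ < 2}) := by
  obtain ⟨a⟩ := NA_disc_annulus
  obtain ⟨k₀, hk₀⟩ := hc.nonempty
  by_cases hn : K.Nontrivial
  · obtain ⟨K₀, h1, h2, h3, h4, h5, h6, -⟩ := NA_trans hK hc hcc hn hk₀
    obtain ⟨ψ, v, hE⟩ := ext_map h1 h2 h5 h4 h3
    obtain ⟨b⟩ := NA_ext_disc h1 h5 h6 hE
    exact ⟨b.trans a⟩
  · have hs : K = {k₀} := by
      rw [not_nontrivial_iff] at hn
      exact hn.eq_singleton_of_mem hk₀
    rw [hs]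
    obtain ⟨b⟩ := NA_plane_disc k₀
    exact ⟨b.trans a⟩

private theorem NA_ring (R : ℝ) (hR : 0 ≤ R) : IsConnected {z : ℂ | R < ‖z‖} := by
  have h1 : IsConnected (sphere (0:ℂ) 1) := by
    apply isConnected_sphere _ _ zero_le_one
    rw [Complex.rank_real_complex]
    norm_num
  have h2 : IsConnected (sphere (0:ℂ) 1 ×ˢ Ioi R) := h1.prod isConnected_Ioi
  have h3 : (fun p : ℂ × ℝ => p.2 • p.1) '' (sphere (0:ℂ) 1 ×ˢ Ioi R) = {z : ℂ | R < ‖z‖} := by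
    ext z
    constructor
    · rintro ⟨⟨u, r⟩, ⟨hu, hr⟩, rfl⟩
      have hu' : ‖u‖ = 1 := by simpa using hu
      have hr' : R < r := hr
      show R < ‖r • u‖
      rw [norm_smul, hu', Real.norm_of_nonneg (by linarith)]
      linarith
    · intro hz
      have hz' : R < ‖z‖ := hz
      have hzp : 0 < ‖z‖ := by linarith
      refine ⟨(‖z‖⁻¹ • z, ‖z‖), ⟨?_, hz'⟩, ?_⟩
      · rw [mem_sphere_zero_iff_norm]
        show ‖‖z‖⁻¹ • z‖ = 1
        rw [norm_smul, norm_inv, norm_norm]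
        field_simp
      · show ‖z‖ • (‖z‖⁻¹ • z) = z
        rw [smul_smul, mul_inv_cancel₀ hzp.ne', one_smul]
  rw [← h3]
  exact h2.image _ (continuous_snd.smul continuous_fst).continuousOn

private theorem NA_side {X : Type*} [TopologicalSpace X] {U D : Set X} {O : X}
    (hc : IsPreconnected U) (hO : O ∈ U) (hOD : O ∈ D) (hDo : IsOpen D)
    (hcl : IsClosed ({O} : Set X)) {A B : Set X} (hA : IsOpen A)
    (hB : IsOpen B) (hAB : U \ {O} ⊆ A ∪ B) (hDA : D \ {O} ⊆ A) (hb : ((U \ {O}) ∩ B).Nonempty) :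
    ((U \ {O}) ∩ (A ∩ B)).Nonempty := by
  have h1 : U ⊆ (A ∪ D) ∪ (B \ {O}) := by
    intro x hx
    by_cases hxO : x = O
    · exact Or.inl (Or.inr (hxO ▸ hOD))
    · rcases hAB ⟨hx, hxO⟩ with h | h
      · exact Or.inl (Or.inl h)
      · exact Or.inr ⟨h, hxO⟩
  have h2 : (U ∩ (A ∪ D)).Nonempty := ⟨O, hO, Or.inr hOD⟩
  have h3 : (U ∩ (B \ {O})).Nonempty := by
    obtain ⟨x, ⟨hx, hxO⟩, hxB⟩ := hb
    exact ⟨x, hx, hxB, hxO⟩
  obtain ⟨x, hxU, hx1, hxB, hxO⟩ := hc (A ∪ D) (B \ {O}) (hA.union hDo)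
    (hB.sdiff hcl) h1 h2 h3
  refine ⟨x, ⟨hxU, hxO⟩, ?_, hxB⟩
  rcases hx1 with h | h
  · exact h
  · exact hDA ⟨h, hxO⟩

theorem punctured_connected {O : S2} {p : S2 → ℂ} {q : ℂ → S2} (hS : SC O p q) {U : Set S2}
    (hU : IsOpen U) (hc : IsConnected U) (hO : O ∈ U) : IsConnected (U \ {O}) := by
  -- a radius
  obtain ⟨R, hR0, hR⟩ : ∃ R : ℝ, 0 ≤ R ∧ ∀ z : ℂ, R < ‖z‖ → q z ∈ U := by
    have h1 : q ⁻¹' U ∈ cocompact ℂ := hS.q_lim (hU.mem_nhds hO)
    rw [← Metric.cobounded_eq_cocompact] at h1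
    obtain ⟨R, -, hR⟩ := (hasBasis_cobounded_compl_closedBall (0:ℂ)).mem_iff.mp h1
    refine ⟨max R 0, le_max_right _ _, fun z hz => hR ?_⟩
    rw [mem_compl_iff, mem_closedBall_zero_iff, not_le]
    exact lt_of_le_of_lt (le_max_left _ _) hz
  set D' : Set S2 := q '' {z : ℂ | R < ‖z‖} with hD'
  have hD'c : IsConnected D' := (NA_ring R hR0).image _ hS.q_smooth.continuous.continuousOn
  have hD'U : D' ⊆ U \ {O} := by
    rintro _ ⟨z, hz, rfl⟩
    exact ⟨hR z hz, hS.q_ne z⟩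
  set D : Set S2 := D' ∪ {O} with hD
  have hmemD' : ∀ x, x ∈ D' ↔ x ≠ O ∧ R < ‖p x‖ := by
    intro x
    constructor
    · rintro ⟨z, hz, rfl⟩
      exact ⟨hS.q_ne z, by rw [hS.pq]; exact hz⟩
    · rintro ⟨h1, h2⟩
      exact ⟨p x, h2, hS.qp x h1⟩
  have hD'o : IsOpen D' := by
    have h1 : IsOpen ({O}ᶜ ∩ p ⁻¹' {z : ℂ | R < ‖z‖}) :=
      hS.p_smooth.continuousOn.isOpen_inter_preimage isOpen_compl_singleton
        (isOpen_lt continuous_const continuous_norm)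
    have h2 : D' = {O}ᶜ ∩ p ⁻¹' {z : ℂ | R < ‖z‖} := by
      ext x
      rw [hmemD']
      rfl
    rw [h2]
    exact h1
  have hDo : IsOpen D := by
    rw [isOpen_iff_mem_nhds]
    rintro x (hx | hx)
    · exact mem_of_superset (hD'o.mem_nhds hx) subset_union_left
    · rw [mem_singleton_iff] at hx
      subst hx
      have h1 := hS.p_lim
      rw [← Metric.cobounded_eq_cocompact] at h1
      have h2 : {z : ℂ | R < ‖z‖} ∈ Bornology.cobounded ℂ := by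
        refine (hasBasis_cobounded_compl_closedBall (0:ℂ)).mem_iff.mpr ⟨R, trivial, fun z hz => ?_⟩
        rw [mem_compl_iff, mem_closedBall_zero_iff, not_le] at hz
        exact hz
      have h3 := h1 h2
      rw [mem_map, mem_nhdsWithin_iff_eventually] at h3
      filter_upwards [h3] with y hy
      by_cases hyO : y = x
      · right; exact hyO
      · left
        exact (hmemD' y).mpr ⟨hyO, hy hyO⟩
  have hDA : D \ {O} ⊆ D' := by
    rintro x ⟨hx | hx, hxO⟩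
    · exact hx
    · exact absurd hx hxO
  have hOD : O ∈ D := Or.inr rfl
  refine ⟨hD'c.nonempty.mono hD'U, ?_⟩
  intro A B hA hB hAB ha hb
  by_contra hne
  have hdis : D' ⊆ A ∨ D' ⊆ B := by
    by_contra hcon
    push Not at hcon
    obtain ⟨h1, h2⟩ := hcon
    obtain ⟨x, hx, hxA⟩ := not_subset.mp h1
    obtain ⟨y, hy, hyB⟩ := not_subset.mp h2
    have hxB : x ∈ B := (hAB (hD'U hx)).resolve_left hxA
    have hyA : y ∈ A := (hAB (hD'U hy)).resolve_right hyB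
    obtain ⟨w, hw, hwA⟩ := hD'c.isPreconnected A B hA hB (hD'U.trans hAB) ⟨y, hy, hyA⟩ ⟨x, hx, hxB⟩
    exact hne ⟨w, hD'U hw, hwA⟩
  rcases hdis with h | h
  · exact hne (NA_side hc.isPreconnected hO hOD hDo isClosed_singleton hA hB hAB (hDA.trans h) hb)
  · apply hne
    rw [inter_comm A B]
    exact NA_side hc.isPreconnected hO hOD hDo isClosed_singleton hB hA (by rwa [union_comm])
      (hDA.trans h) ha

theorem sphere_plane {K : Set S2} (hK : IsClosed K) (hc : IsConnected K) (hcc : IsConnected Kᶜ) :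
    ∃ (h : ℂ → S2) (hi : S2 → ℂ), Continuous h ∧ ContinuousOn hi Kᶜ ∧ (∀ z, h z ∈ Kᶜ) ∧
      (∀ z, hi (h z) = z) ∧ ∀ x ∈ Kᶜ, h (hi x) = x := by
  by_cases hn : K.Nontrivial
  · obtain ⟨O, hO⟩ := hcc.nonempty
    obtain ⟨p, q, hS⟩ := exists_SC O
    have hKO : K ⊆ {O}ᶜ := fun x hx h => hO (by rw [mem_singleton_iff] at h; exact h ▸ hx)
    have hpK : ContinuousOn p K := hS.p_smooth.continuousOn.mono hKO
    have h1 : IsCompact (p '' K) := hK.isCompact.image_of_continuousOn hpK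
    have h2 : IsConnected (p '' K) := hc.image _ hpK
    have hiff : ∀ z, z ∈ p '' K ↔ q z ∈ K := by
      intro z
      constructor
      · rintro ⟨x, hx, rfl⟩
        rw [hS.qp x (hKO hx)]
        exact hx
      · intro h
        exact ⟨q z, h, hS.pq z⟩
    have h3 : IsConnected (p '' K)ᶜ := by
      have h4 : IsConnected (Kᶜ \ {O}) := punctured_connected hS hK.isOpen_compl hcc hO
      have h5 : (p '' K)ᶜ = p '' (Kᶜ \ {O}) := by
        ext z
        rw [mem_compl_iff, hiff]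
        constructor
        · intro h
          exact ⟨q z, ⟨h, hS.q_ne z⟩, hS.pq z⟩
        · rintro ⟨x, ⟨hx, hxO⟩, rfl⟩
          rw [hS.qp x hxO]
          exact hx
      rw [h5]
      exact h4.image _ (hS.p_smooth.continuousOn.mono fun x hx => hx.2)
    have h4 : (p '' K).Nontrivial := by
      obtain ⟨a, ha, b, hb, hab⟩ := hn
      refine ⟨p a, ⟨a, ha, rfl⟩, p b, ⟨b, hb, rfl⟩, fun h => hab ?_⟩
      rw [← hS.qp a (hKO ha), ← hS.qp b (hKO hb), h]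
    obtain ⟨k₀, hk₀⟩ := h2.nonempty
    obtain ⟨K₀, g1, g2, g3, g4, g5, g6, g7⟩ := NA_trans h1 h2 h3 h4 hk₀
    obtain ⟨ψ, v, hE⟩ := ext_map g1 g2 g5 g4 g3
    have hD := discMap_ext hS g1 g2 g5 g4 hE k₀
    rw [g7] at hD
    have hqK : q '' (p '' K) = K := by
      ext x
      constructor
      · rintro ⟨_, ⟨y, hy, rfl⟩, rfl⟩
        rw [hS.qp y (hKO hy)]
        exact hy
      · intro hx
        exact ⟨p x, ⟨x, hx, rfl⟩, hS.qp x (hKO hx)⟩
    rw [hqK] at hD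
    generalize (fun z => if z = 0 then O else q (k₀ + (ψ z)⁻¹)) = φ at hD
    generalize (fun x => if x = O then 0 else v ((p x - k₀)⁻¹)) = u at hD
    have hb : ∀ z : ℂ, (1 + ‖z‖)⁻¹ • z ∈ ball (0:ℂ) 1 := fun z => by
      rw [mem_ball_zero_iff]; exact NA_toDisc_lt z
    refine ⟨fun z => φ ((1 + ‖z‖)⁻¹ • z), fun x => (1 - ‖u x‖)⁻¹ • u x, ?_, ?_, ?_, ?_, ?_⟩
    · exact hD.φ_cont.comp_continuous NA_toDisc_cont hb
    · exact NA_toPlane_cont.comp hD.u_cont hD.u_maps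
    · exact fun z => hD.φ_maps (hb z)
    · intro z
      simp only
      rw [hD.uφ _ (hb z)]
      exact NA_pd z
    · intro x hx
      simp only
      have h5 := hD.u_maps hx
      rw [mem_ball_zero_iff] at h5
      rw [NA_dp _ h5]
      exact hD.φu x hx
  · obtain ⟨O, hO⟩ := hc.nonempty
    have hs : K = {O} := by
      rw [not_nontrivial_iff] at hn
      exact hn.eq_singleton_of_mem hO
    obtain ⟨p, q, hS⟩ := exists_SC O
    rw [hs]
    exact ⟨q, p, hS.q_smooth.continuous, hS.p_smooth.continuousOn, hS.q_ne, hS.pq, hS.qp⟩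

theorem two_annulus {K₁ K₂ : Set S2} (h1 : IsClosed K₁) (h2 : IsClosed K₂) (hc1 : IsConnected K₁)
    (hc2 : IsConnected K₂) (hd : Disjoint K₁ K₂) (hcc1 : IsConnected K₁ᶜ)
    (hcc : IsConnected (K₁ ∪ K₂)ᶜ) :
    Nonempty (((K₁ ∪ K₂)ᶜ : Set S2) ≃ₜ {z : ℂ | 1 < ‖z‖ ∧ ‖z‖ < 2}) := by
  obtain ⟨h, hi, hh, hhi, hm, hih, hhi'⟩ := sphere_plane h1 hc1 hcc1
  have h21 : K₂ ⊆ K₁ᶜ := fun x hx hx1 => disjoint_left.mp hd hx1 hx
  have hiK : ContinuousOn hi K₂ := hhi.mono h21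
  have g1 : IsCompact (hi '' K₂) := h2.isCompact.image_of_continuousOn hiK
  have g2 : IsConnected (hi '' K₂) := hc2.image _ hiK
  have hiff : ∀ z, z ∈ hi '' K₂ ↔ h z ∈ K₂ := by
    intro z
    constructor
    · rintro ⟨x, hx, rfl⟩
      rw [hhi' x (h21 hx)]
      exact hx
    · intro hz
      exact ⟨h z, hz, hih z⟩
  have hsub : (K₁ ∪ K₂)ᶜ ⊆ K₁ᶜ := compl_subset_compl.mpr subset_union_left
  have g3 : IsConnected (hi '' K₂)ᶜ := by
    have h5 : (hi '' K₂)ᶜ = hi '' (K₁ ∪ K₂)ᶜ := by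
      ext z
      rw [mem_compl_iff, hiff]
      constructor
      · intro hz
        refine ⟨h z, ?_, hih z⟩
        rintro (h6 | h6)
        · exact hm z h6
        · exact hz h6
      · rintro ⟨x, hx, rfl⟩
        rw [hhi' x (hsub hx)]
        exact fun h6 => hx (Or.inr h6)
    rw [h5]
    exact hcc.image _ (hhi.mono hsub)
  obtain ⟨a⟩ := plane_annulus g1 g2 g3
  refine ⟨Homeomorph.trans (NA_homeo hi h (hhi.mono hsub) hh.continuousOn ?_ ?_ ?_ ?_) a⟩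
  · intro x hx
    rw [mem_compl_iff, hiff, hhi' x (hsub hx)]
    exact fun h6 => hx (Or.inr h6)
  · intro z hz
    rintro (h6 | h6)
    · exact hm z h6
    · exact hz ((hiff z).mpr h6)
  · intro x hx
    exact hhi' x (hsub hx)
  · intro z _
    exact hih z

end DS
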