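import Pool.Agent.H36.DS.XBase
import Pool.Agent.H36.DS.XA
import Pool.Agent.H36.DS.TB
import Pool.Agent.H36.DS.NA

/-!
Definitions and simple facts for the topological assembly (project MP_8a27c0_DS, helper91).
-/

namespace DS
open Metric Set Filter Topology Function MeasureTheory
open scoped Manifold ContDiff

/-- `V` is an open connected set missing the stable sets of the periodic points, invariant under `f^[m]` -/
structure InvV (f : S2 → S2) (m : ℕ) (V : Set S2) : Prop where
  V_open : IsOpen V
  V_conn : IsConnected V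
  V_stab : ∀ P ∈ periodicPts f, Disjoint V (stableSet f P)
  hm : 0 < m
  inv : f^[m] '' V = V

/-- the connected components of `Vᶜ` invariant under `g` -/
def invComp (g : S2 → S2) (V : Set S2) : Set (Set S2) :=
  {K | (∃ x ∉ V, K = connectedComponentIn Vᶜ x) ∧ g '' K = K}

/-- Star property of the compact set `K'` of the plane for the planar map `g` with base point `k` -/
def Star (g : ℂ → ℂ) (k : ℂ) (K' : Set ℂ) : Prop :=
  ∀ N : Set ℂ, IsOpen N → K' ⊆ N → ∃ O : Set ℂ, IsOpen O ∧ K' ⊆ O ∧ closure O ⊆ N ∧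
    Bornology.IsBounded O ∧ HasLog (fun x => (g x - x) / (x - k)) (frontier O) ∧
    HasLog (fun x => (g x - k) / (x - k)) (frontier O) ∧ ∀ x ∈ closure O, x ∉ K' → g x ≠ x

instance TBase_conn : ConnectedSpace S2 := by
  have h : IsConnected (sphere (0 : E3) 1) := by
    apply isConnected_sphere _ _ zero_le_one
    rw [rank_eq_card_basis (EuclideanSpace.basisFun (Fin 3) ℝ).toBasis]
    simp only [Fintype.card_fin]
    norm_num
  exact isConnected_iff_connectedSpace.mp h

instance TBase_locconn : LocallyConnectedSpace S2 := ChartedSpace.locallyConnectedSpace E2 S2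

theorem per_stable {f : S2 → S2} (x : S2) : x ∈ stableSet f x := by
  show Tendsto (fun n : ℕ => dist (f^[n] x) (f^[n] x)) atTop (𝓝 0)
  simp

/-- periodic points are not in `V` -/
theorem InvV.not_per {f : S2 → S2} {m : ℕ} {V : Set S2} (hV : InvV f m V) {P : S2}
    (hP : P ∈ periodicPts f) : P ∉ V := fun h =>
  disjoint_left.mp (hV.V_stab P hP) h (per_stable P)

theorem iter_fif {f fi : S2 → S2} (h : ∀ x, fi (f x) = x) (m : ℕ) (x : S2) :
    fi^[m] (f^[m] x) = x := (Function.LeftInverse.iterate h m) x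

/-- `f^[m]` maps `V` to `V` and `Vᶜ` to `Vᶜ` -/
theorem InvV.mem_iff {f fi : S2 → S2} {ν : Measure S2} (hS : Sys f fi ν) {m : ℕ} {V : Set S2}
    (hV : InvV f m V) (x : S2) : f^[m] x ∈ V ↔ x ∈ V := by
  constructor
  · intro h
    rw [← hV.inv] at h
    obtain ⟨y, hy, hyx⟩ := h
    have : y = x := by
      rw [← iter_fif hS.fif m y, hyx, iter_fif hS.fif]
    rwa [← this]
  · intro h
    rw [← hV.inv]
    exact mem_image_of_mem _ h

/-- the homeomorphism `f^[m]` -/
def Sys.homeo {f fi : S2 → S2} {ν : Measure S2} (hS : Sys f fi ν) (m : ℕ) : S2 ≃ₜ S2 where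
  toFun := f^[m]
  invFun := fi^[m]
  left_inv := iter_fif hS.fif m
  right_inv := iter_fif hS.ffi m
  continuous_toFun := hS.cf.continuous.iterate m
  continuous_invFun := hS.cfi.continuous.iterate m

/-- the image of a component of `Vᶜ` is the component of the image -/
theorem InvV.image_comp {f fi : S2 → S2} {ν : Measure S2} (hS : Sys f fi ν) {m : ℕ} {V : Set S2}
    (hV : InvV f m V) {x : S2} (hx : x ∉ V) :
    f^[m] '' connectedComponentIn Vᶜ x = connectedComponentIn Vᶜ (f^[m] x) := by
  have h := (hS.homeo m).image_connectedComponentIn (s := Vᶜ) (x := x) hx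
  change f^[m] '' connectedComponentIn Vᶜ x = connectedComponentIn (f^[m] '' Vᶜ) (f^[m] x) at h
  rw [h]
  congr 1
  ext y
  constructor
  · rintro ⟨z, hz, rfl⟩ h
    exact hz ((hV.mem_iff hS z).mp h)
  · intro hy
    refine ⟨fi^[m] y, fun h => hy ?_, iter_fif hS.ffi m y⟩
    rw [← iter_fif hS.ffi m y]
    exact (hV.mem_iff hS _).mpr h

/-- the component of a fixed point is invariant -/
theorem InvV.comp_fix {f fi : S2 → S2} {ν : Measure S2} (hS : Sys f fi ν) {m : ℕ} {V : Set S2}
    (hV : InvV f m V) {x : S2} (hx : f^[m] x = x) :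
    connectedComponentIn Vᶜ x ∈ invComp (f^[m]) V := by
  have h1 : x ∉ V := hV.not_per ⟨m, hV.hm, hx⟩
  exact ⟨⟨x, h1, rfl⟩, by rw [hV.image_comp hS h1, hx]⟩

/-- a component of `Vᶜ` is a `CompK` -/
theorem InvV.compK {f : S2 → S2} {m : ℕ} {V : Set S2} (hV : InvV f m V) {x : S2} (hx : x ∉ V) :
    CompK f V (connectedComponentIn Vᶜ x) where
  V_open := hV.V_open
  V_conn := hV.V_conn
  V_stab := hV.V_stab
  K_closed := by
    have h1 : closure (connectedComponentIn Vᶜ x) ⊆ Vᶜ :=
      closure_minimal (connectedComponentIn_subset _ _) hV.V_open.isClosed_compl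
    have h2 : closure (connectedComponentIn Vᶜ x) ⊆ connectedComponentIn Vᶜ x :=
      auxTB_max x _ h1 isPreconnected_connectedComponentIn.closure
        ⟨x, subset_closure (mem_connectedComponentIn hx), mem_connectedComponentIn hx⟩
    exact isClosed_of_closure_subset h2
  K_conn := isConnected_connectedComponentIn_iff.mpr hx
  K_V := by
    rw [disjoint_left]
    intro z hz
    exact connectedComponentIn_subset _ _ hz
  K_max := by
    intro C hC hCV hCK
    exact auxTB_max x C (fun z hz => disjoint_left.mp hCV hz) hC hCK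

theorem InvV.compK' {f : S2 → S2} {m : ℕ} {V K : Set S2} (hV : InvV f m V)
    (hK : K ∈ invComp (f^[m]) V) : CompK f V K := by
  obtain ⟨⟨x, hx, rfl⟩, -⟩ := hK
  exact hV.compK hx

/-- the complement of a component is connected -/
theorem InvV.compl_conn {f : S2 → S2} {m : ℕ} {V : Set S2} (hV : InvV f m V) {x : S2}
    (hx : x ∉ V) : IsConnected (connectedComponentIn Vᶜ x)ᶜ := by
  obtain ⟨y, hy⟩ := hV.V_conn.nonempty
  exact ⟨⟨y, fun h => connectedComponentIn_subset _ _ h hy⟩,
    compl_comp hV.V_conn.isPreconnected hV.V_conn.nonempty x hx⟩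

/-- two different components are disjoint -/
theorem comp_disj {V : Set S2} {x y : S2}
    (h : connectedComponentIn Vᶜ x ≠ connectedComponentIn Vᶜ y) :
    Disjoint (connectedComponentIn Vᶜ x) (connectedComponentIn Vᶜ y) := by
  rw [disjoint_left]
  intro z hz hz'
  exact h (by rw [connectedComponentIn_eq hz, connectedComponentIn_eq hz'])

theorem invComp_disj {g : S2 → S2} {V K K' : Set S2} (hK : K ∈ invComp g V)
    (hK' : K' ∈ invComp g V) (h : K ≠ K') : Disjoint K K' := by
  obtain ⟨⟨x, hx, rfl⟩, -⟩ := hK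
  obtain ⟨⟨y, hy, rfl⟩, -⟩ := hK'
  exact comp_disj h

end DS
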