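import Pool.Agent.H36.DS.IA
import Pool.Agent.H36.DS.RI

/-!
IC (the index of an invariant continuum without fixed prime ends is one).
Proof.  Write `F z = k₀ + (ψ z)⁻¹` for `0 < ‖z‖ < 1`; it is a homeomorphism onto the complement of
`K' = (fun z => k₀ + z) '' K` with inverse `x ↦ v ((x - k₀)⁻¹)`.
For `ρ < 1` let `O ρ = K' ∪ {x | ρ < ‖v ((x - k₀)⁻¹)‖}` (equivalently the complement of
`F '' (closedBall 0 ρ \ {0})`).  For `0 < ρ < 1`: `O ρ` is open and bounded, its frontier is `F '' sphere 0 ρ`,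
its closure is `K' ∪ F '' {z | ρ ≤ ‖z‖ < 1}`; for `ρ → 1` the closures shrink to `K'`
(a compactness argument), so `closure (O ρ) ⊆ N` for `ρ` close to `1`.
Take also `ρ ≥ ρ₀` with `1 - ρ < c`, and, by `hlim`, `1 - c/2 < ‖h z‖` on `sphere 0 ρ`, and `ρ > 1 - c/2`.  On `sphere 0 ρ`:
(a) `z - h z` has winding number `1` (about `0`): the ratio to `z` is `1 - h z / z`, and it lies in the slit plane,
because `h z = t z` with `t ≥ 1` gives `‖h z - z‖ = (t - 1) ρ ≤ 1 - ρ < c`;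
(b) `h z` has winding number `1`: compare with `- z`; `h z = t z`, `t ≥ 0` gives `‖h z - z‖ = |‖h z‖ - ‖z‖| < c`;
(c) `ψ z = z * q z` with `q` continuous nowhere zero on the disc (`ψ 0 = 0`, `ψ` injective,
`deriv_ne_zero_of_injOn`), so `HasWind ψ 0 ρ 1`, and `q (h z)` has winding number `0` on the circle, since
`q = exp l` on the ball; so `ψ (h z)` has winding number `1`;
(d) `ψ z - ψ w = (z - w) * Q z w` with `Q` continuous nowhere zero on `ball × ball` (`dslope`), so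
`z ↦ Q z (h z)` has winding number `0`: `Q` has a continuous logarithm on the contractible `ball × ball`
(or: homotopy `Q z (h z) → Q (s z) (s h z)`, `s ∈ [0,1]`, to a constant; only values on the circle are used).
Then with `g (F z) = F (h z)`:
`g (F z) - F z = (ψ z - ψ (h z)) / (ψ z * ψ (h z))` has winding number `1 - 1 - 1 = -1`;
`F z - k = (1 - (k - k₀) ψ z) / ψ z` has winding number `-1` (the numerator is nowhere zero on the ball as
`F z ≠ k`, so it has a logarithm there), and `g (F z) - k = (1 - (k - k₀) ψ (h z)) / ψ (h z)` has winding number `-1`.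
Hence both quotients have winding number `0` on `sphere 0 ρ` as functions of `z`, so they have
continuous logarithms there; transport them to the frontier by `x ↦ v ((x - k₀)⁻¹)`.
`g x ≠ x` on `closure (O ρ) \ K'` since `F (h z) ≠ F z`.
-/

namespace DS
open Metric Set Filter Topology

theorem IC_log_mono {f : ℂ → ℂ} {S T : Set ℂ} (h : HasLog f T) (hST : S ⊆ T) : HasLog f S := by
  obtain ⟨L, h1, h2⟩ := h
  exact ⟨L, h1.mono hST, fun z hz => h2 z (hST hz)⟩

theorem IC_log_congr {f g : ℂ → ℂ} {S : Set ℂ} (h : HasLog f S) (hfg : ∀ z ∈ S, g z = f z) :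
    HasLog g S := by
  obtain ⟨L, h1, h2⟩ := h
  exact ⟨L, h1, fun z hz => (hfg z hz).trans (h2 z hz)⟩

theorem IC_log_mul {f g : ℂ → ℂ} {S : Set ℂ} (hf : HasLog f S) (hg : HasLog g S) :
    HasLog (fun z => f z * g z) S := by
  obtain ⟨L, h1, h2⟩ := hf
  obtain ⟨M, h3, h4⟩ := hg
  refine ⟨fun z => L z + M z, h1.add h3, fun z hz => ?_⟩
  simp only [h2 z hz, h4 z hz, Complex.exp_add]

theorem IC_log_div {f g : ℂ → ℂ} {S : Set ℂ} (hf : HasLog f S) (hg : HasLog g S) :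
    HasLog (fun z => f z / g z) S := by
  obtain ⟨L, h1, h2⟩ := hf
  obtain ⟨M, h3, h4⟩ := hg
  refine ⟨fun z => L z - M z, h1.sub h3, fun z hz => ?_⟩
  simp only [h2 z hz, h4 z hz, Complex.exp_sub]

theorem IC_log_comp {f h : ℂ → ℂ} {S T : Set ℂ} (hf : HasLog f T) (hh : ContinuousOn h S)
    (hm : MapsTo h S T) : HasLog (fun z => f (h z)) S := by
  obtain ⟨L, h1, h2⟩ := hf
  exact ⟨fun z => L (h z), h1.comp hh hm, fun z hz => h2 _ (hm hz)⟩

theorem IC_log_slit {f : ℂ → ℂ} {S : Set ℂ} (hf : ContinuousOn f S)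
    (h : ∀ z ∈ S, f z ∈ Complex.slitPlane) : HasLog f S := by
  refine ⟨fun z => Complex.log (f z), hf.clog h, fun z hz => ?_⟩
  exact (Complex.exp_log (Complex.slitPlane_ne_zero (h z hz))).symm

theorem IC_log_neg {f : ℂ → ℂ} {S : Set ℂ} (hf : HasLog (fun z => - f z) S) : HasLog f S := by
  obtain ⟨L, h1, h2⟩ := hf
  refine ⟨fun z => L z + Real.pi * Complex.I, h1.add continuousOn_const, fun z hz => ?_⟩
  have h3 : - f z = Complex.exp (L z) := h2 z hz
  show f z = Complex.exp (L z + Real.pi * Complex.I)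
  rw [Complex.exp_add, Complex.exp_pi_mul_I, ← h3]
  ring

section aux
variable {K : Set ℂ} {ψ v : ℂ → ℂ}

theorem IC_v0 (hE : ExtMap K ψ v) : v 0 = 0 := by
  have := hE.vψ 0 (mem_ball_self one_pos)
  rwa [hE.ψ0] at this

theorem IC_psi_ne (hE : ExtMap K ψ v) {z : ℂ} (hz : z ∈ ball (0:ℂ) 1) (h0 : z ≠ 0) : ψ z ≠ 0 := by
  intro h
  apply h0
  rw [← hE.vψ z hz, h, IC_v0 hE]

theorem IC_inv_notMem (hE : ExtMap K ψ v) {z : ℂ} (hz : z ∈ ball (0:ℂ) 1) (h0 : z ≠ 0) :
    (ψ z)⁻¹ ∉ K := by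
  rcases hE.mψ hz with h | h
  · exact absurd h (IC_psi_ne hE hz h0)
  · exact h

theorem IC_injOn (hE : ExtMap K ψ v) : InjOn ψ (ball 0 1) := by
  intro a ha b hb hab
  rw [← hE.vψ a ha, ← hE.vψ b hb, hab]

theorem IC_q (hE : ExtMap K ψ v) : ∃ q : ℂ → ℂ, HasLog q (ball 0 1) ∧
    ∀ z ∈ ball (0:ℂ) 1, ψ z = z * q z := by
  have hc : ContinuousOn (dslope ψ 0) (ball 0 1) :=
    ((Complex.differentiableOn_dslope
      (isOpen_ball.mem_nhds (mem_ball_self one_pos))).mpr hE.dψ).continuousOn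
  have hne : ∀ z ∈ ball (0:ℂ) 1, dslope ψ 0 z ≠ 0 := by
    intro z hz
    by_cases h : z = 0
    · subst h
      rw [dslope_same]
      exact deriv_ne_zero_of_injOn isOpen_ball hE.dψ (IC_injOn hE) hz
    · rw [dslope_of_ne _ h, slope_def_field, hE.ψ0, sub_zero, sub_zero]
      exact div_ne_zero (IC_psi_ne hE hz h) h
  refine ⟨dslope ψ 0, allLogs_ball 0 1 _ hc hne, fun z hz => ?_⟩
  by_cases h : z = 0
  · subst h
    simp [hE.ψ0]
  · rw [dslope_of_ne _ h, slope_def_field, hE.ψ0, sub_zero, sub_zero]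
    field_simp

theorem IC_m (hE : ExtMap K ψ v) {κ : ℂ} (hκ : κ ∈ K) :
    HasLog (fun z => 1 - κ * ψ z) (ball 0 1) := by
  apply allLogs_ball
  · exact continuousOn_const.sub (continuousOn_const.mul hE.dψ.continuousOn)
  · intro z hz h
    have h1 : κ * ψ z = 1 := by
      have := sub_eq_zero.mp h
      exact this.symm
    have h2 : ψ z ≠ 0 := right_ne_zero_of_mul_eq_one h1
    have h3 : z ≠ 0 := by
      rintro rfl
      exact h2 hE.ψ0
    apply IC_inv_notMem hE hz h3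
    rwa [← eq_inv_of_mul_eq_one_left h1]

theorem IC_Q (hE : ExtMap K ψ v) {h : ℂ → ℂ} {ρ c : ℝ} (hρ : 0 < ρ) (hρ1 : ρ < 1) (hc : 0 < c)
    (hh : ContinuousOn h (sphere 0 ρ))
    (hm : ∀ z ∈ sphere (0:ℂ) ρ, ‖h z‖ < 1 ∧ c ≤ ‖h z - z‖) :
    HasLog (fun z => (ψ z - ψ (h z)) / (z - h z)) (sphere 0 ρ) := by
  set n : ℂ → ℂ := fun w => ((ρ / ‖w‖ : ℝ) : ℂ) * w with hn
  set p : ℂ → ℂ := fun w => ((‖w‖ / ρ : ℝ) : ℂ) * h (n w) with hp
  have hns : ∀ w : ℂ, w ≠ 0 → n w ∈ sphere (0:ℂ) ρ := by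
    intro w hw
    have hw' : 0 < ‖w‖ := norm_pos_iff.mpr hw
    rw [mem_sphere_zero_iff_norm, hn]
    simp only [norm_mul, Complex.norm_real, Real.norm_eq_abs]
    rw [abs_of_pos (by positivity)]
    field_simp
  have hnc : ContinuousOn n {0}ᶜ := by
    intro w hw
    have hw' : ‖w‖ ≠ 0 := norm_ne_zero_iff.mpr hw
    apply ContinuousAt.continuousWithinAt
    refine ContinuousAt.mul ?_ continuousAt_id
    exact Complex.continuous_ofReal.continuousAt.comp
      (continuousAt_const.div continuous_norm.continuousAt hw')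
  have hpc : ContinuousOn p {0}ᶜ := by
    refine ContinuousOn.mul ?_ (hh.comp hnc fun w hw => hns w hw)
    exact (Complex.continuous_ofReal.comp (continuous_norm.div_const ρ)).continuousOn
  have hpn : ∀ w : ℂ, ‖p w‖ ≤ ‖w‖ / ρ := by
    intro w
    by_cases hw : w = 0
    · subst hw
      simp [hp]
    · rw [hp]
      simp only [norm_mul, Complex.norm_real, Real.norm_eq_abs]
      rw [abs_of_nonneg (by positivity)]
      have := (hm _ (hns w hw)).1
      have h0 : 0 ≤ ‖w‖ / ρ := by positivity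
      nlinarith
  have hpb : ∀ w ∈ closedBall (0:ℂ) ρ, p w ∈ ball (0:ℂ) 1 := by
    intro w hw
    rw [mem_closedBall_zero_iff] at hw
    rw [mem_ball_zero_iff]
    by_cases hw0 : w = 0
    · subst hw0
      simp [hp]
    · rw [hp]
      simp only [norm_mul, Complex.norm_real, Real.norm_eq_abs]
      rw [abs_of_nonneg (by positivity)]
      have h1 := (hm _ (hns w hw0)).1
      have h2 : ‖w‖ / ρ ≤ 1 := by rw [div_le_one hρ]; exact hw
      have h0 : 0 ≤ ‖w‖ / ρ := by positivity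
      have h3 := norm_nonneg (h (n w))
      nlinarith
  have hne : ∀ w : ℂ, w ≠ 0 → w - p w ≠ 0 := by
    intro w hw h0
    have hw' : 0 < ‖w‖ := norm_pos_iff.mpr hw
    have h1 := (hm _ (hns w hw)).2
    have h2 : w = ((‖w‖ / ρ : ℝ) : ℂ) * n w := by
      rw [hn]
      simp only
      rw [← mul_assoc, ← Complex.ofReal_mul]
      have : ‖w‖ / ρ * (ρ / ‖w‖) = 1 := by field_simp
      rw [this]
      simp
    have h3 : ((‖w‖ / ρ : ℝ) : ℂ) * (h (n w) - n w) = 0 := by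
      rw [mul_sub, ← h2]
      have : w = p w := sub_eq_zero.mp h0
      have h4 : p w = ((‖w‖ / ρ : ℝ) : ℂ) * h (n w) := rfl
      rw [← h4, ← this, sub_self]
    have h5 : ((‖w‖ / ρ : ℝ) : ℂ) ≠ 0 := by
      rw [Ne, Complex.ofReal_eq_zero]
      positivity
    rcases mul_eq_zero.mp h3 with h6 | h6
    · exact h5 h6
    · rw [h6, norm_zero] at h1
      linarith
  have hp0 : Tendsto p (𝓝 0) (𝓝 0) := by
    rw [tendsto_zero_iff_norm_tendsto_zero]
    refine squeeze_zero (fun w => norm_nonneg _) hpn ?_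
    have : Tendsto (fun w : ℂ => ‖w‖ / ρ) (𝓝 0) (𝓝 (‖(0:ℂ)‖ / ρ)) :=
      (continuous_norm.div_const ρ).tendsto 0
    simpa using this
  have hstrict : HasStrictDerivAt ψ (deriv ψ 0) 0 :=
    (hE.dψ.analyticAt (isOpen_ball.mem_nhds (mem_ball_self one_pos))).hasStrictDerivAt
  have hψc : ∀ z ∈ ball (0:ℂ) 1, ContinuousAt ψ z := fun z hz =>
    hE.dψ.continuousOn.continuousAt (isOpen_ball.mem_nhds hz)
  set f : ℂ → ℂ := fun w => if w = 0 then deriv ψ 0 else (ψ w - ψ (p w)) / (w - p w) with hf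
  have hballs : closedBall (0:ℂ) ρ ⊆ ball 0 1 := closedBall_subset_ball hρ1
  have hfc : ContinuousOn f (closedBall 0 ρ) := by
    intro w hw
    by_cases hw0 : w = 0
    · subst hw0
      apply ContinuousAt.continuousWithinAt
      rw [continuousAt_iff_punctured_nhds]
      have hf0 : f 0 = deriv ψ 0 := by simp [hf]
      rw [hf0]
      have h1 := hstrict.hasStrictFDerivAt.isLittleO
      have h2 : Tendsto (fun w : ℂ => (w, p w)) (𝓝[≠] 0) (𝓝 ((0:ℂ), (0:ℂ))) := by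
        rw [nhds_prod_eq]
        exact (tendsto_id.mono_left nhdsWithin_le_nhds).prodMk (hp0.mono_left nhdsWithin_le_nhds)
      have h3 := (h1.comp_tendsto h2).tendsto_div_nhds_zero
      have h4 := h3.add_const (deriv ψ 0)
      rw [zero_add] at h4
      refine h4.congr' ?_
      filter_upwards [self_mem_nhdsWithin] with w hw
      have hw1 : w ≠ 0 := hw
      have h5 := hne w hw1
      simp only [Function.comp, hf, if_neg hw1]
      rw [div_add' _ _ _ h5]
      congr 1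
      simp
      ring
    · apply ContinuousAt.continuousWithinAt
      have h1 : ContinuousAt (fun w => (ψ w - ψ (p w)) / (w - p w)) w := by
        have h2 : ContinuousAt p w := hpc.continuousAt (isOpen_compl_singleton.mem_nhds hw0)
        have h3 : ContinuousAt (fun w => ψ (p w)) w :=
          ContinuousAt.comp (g := ψ) (f := p) (hψc _ (hpb w hw)) h2
        exact ((hψc w (hballs hw)).sub h3).div (continuousAt_id.sub h2) (hne w hw0)
      refine h1.congr ?_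
      filter_upwards [isOpen_compl_singleton.mem_nhds hw0] with w' hw'
      have : w' ≠ 0 := hw'
      simp only [hf, if_neg this]
  have hfne : ∀ w ∈ closedBall (0:ℂ) ρ, f w ≠ 0 := by
    intro w hw
    by_cases hw0 : w = 0
    · simp only [hf, if_pos hw0]
      exact deriv_ne_zero_of_injOn isOpen_ball hE.dψ (IC_injOn hE) (mem_ball_self one_pos)
    · simp only [hf, if_neg hw0]
      refine div_ne_zero ?_ (hne w hw0)
      intro h1
      apply hne w hw0
      rw [sub_eq_zero]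
      exact IC_injOn hE (hballs hw) (hpb w hw) (sub_eq_zero.mp h1)
  have hlog := allLogs_closedBall 0 ρ f hfc hfne
  refine IC_log_congr (IC_log_mono hlog sphere_subset_closedBall) ?_
  intro z hz
  rw [mem_sphere_zero_iff_norm] at hz
  have hz0 : z ≠ 0 := by
    rintro rfl
    rw [norm_zero] at hz
    linarith
  have hnz : n z = z := by
    rw [hn]
    simp only
    rw [hz, div_self hρ.ne']
    simp
  have hpz : p z = h z := by
    rw [hp]
    simp only
    rw [hnz, hz, div_self hρ.ne']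
    simp
  simp only [hf, if_neg hz0, hpz]

/-- if `h z = t z` with `t ≥ 0` then `‖h z - z‖ = |‖h z‖ - ‖z‖|` -/
theorem IC_ray {z w : ℂ} (hz : z ≠ 0) (hw : -w / z ∉ Complex.slitPlane) :
    ‖w - z‖ = |‖w‖ - ‖z‖| := by
  rw [Complex.mem_slitPlane_iff] at hw
  push Not at hw
  obtain ⟨h1, h2⟩ := hw
  set t : ℝ := -(-w / z).re with ht
  have ht0 : 0 ≤ t := by linarith
  have h3 : -w / z = ((-t : ℝ) : ℂ) := by
    apply Complex.ext
    · simp [ht]
    · simp [h2]
  have h4 : w = (t : ℂ) * z := by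
    have h5 : -w = ((-t : ℝ) : ℂ) * z := by
      rw [← h3]
      field_simp
    have h6 : w = - (-w) := by ring
    rw [h6, h5]
    push_cast
    ring
  have h7 : w - z = ((t - 1 : ℝ) : ℂ) * z := by
    rw [h4]
    push_cast
    ring
  rw [h7, norm_mul, Complex.norm_real, Real.norm_eq_abs, h4, norm_mul, Complex.norm_real,
    Real.norm_eq_abs, abs_of_nonneg ht0]
  have h8 : t * ‖z‖ - ‖z‖ = (t - 1) * ‖z‖ := by ring
  rw [h8, abs_mul, abs_norm]

theorem IC_a {h : ℂ → ℂ} {ρ c : ℝ} (hρ : 0 < ρ) (hρc : 1 - ρ < c)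
    (hh : ContinuousOn h (sphere 0 ρ))
    (hm : ∀ z ∈ sphere (0:ℂ) ρ, ‖h z‖ < 1 ∧ c ≤ ‖h z - z‖) :
    HasLog (fun z => (z - h z) / z) (sphere 0 ρ) := by
  have hz0 : ∀ z ∈ sphere (0:ℂ) ρ, z ≠ 0 := by
    rintro z hz rfl
    rw [mem_sphere_zero_iff_norm, norm_zero] at hz
    linarith
  apply IC_log_slit
  · exact (continuousOn_id.sub hh).div continuousOn_id hz0
  · intro z hz
    have hz0' := hz0 z hz
    obtain ⟨h1, h2⟩ := hm z hz
    rw [mem_sphere_zero_iff_norm] at hz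
    by_contra hcon
    rw [Complex.mem_slitPlane_iff] at hcon
    push Not at hcon
    obtain ⟨h3, h4⟩ := hcon
    have h5 : (z - h z) / z = 1 + (- h z / z) := by
      field_simp
      ring
    rw [h5] at h3 h4
    simp only [Complex.add_re, Complex.one_re, Complex.add_im, Complex.one_im, zero_add] at h3 h4
    have h6 : -h z / z ∉ Complex.slitPlane := by
      rw [Complex.mem_slitPlane_iff]
      push Not
      exact ⟨by linarith, h4⟩
    have h7 := IC_ray hz0' h6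
    have h8 : ‖z‖ ≤ ‖h z‖ := by
      have h9 : -h z / z = (((-h z / z).re : ℝ) : ℂ) := by
        apply Complex.ext
        · simp
        · rw [h4]; simp
      have h10 : ‖-h z / z‖ = |(-h z / z).re| := by
        conv_lhs => rw [h9]
        rw [Complex.norm_real, Real.norm_eq_abs]
      have h11 : 1 ≤ ‖-h z / z‖ := by
        rw [h10, abs_of_nonpos (by linarith)]
        linarith
      rw [norm_div, norm_neg, le_div_iff₀ (norm_pos_iff.mpr hz0'), one_mul] at h11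
      exact h11
    rw [abs_of_nonneg (by linarith)] at h7
    linarith

theorem IC_b {h : ℂ → ℂ} {ρ c : ℝ} (hρ : 0 < ρ) (hρ1 : ρ < 1) (hρc : 1 - c / 2 < ρ)
    (hh : ContinuousOn h (sphere 0 ρ))
    (hm : ∀ z ∈ sphere (0:ℂ) ρ, ‖h z‖ < 1 ∧ c ≤ ‖h z - z‖ ∧ 1 - c / 2 < ‖h z‖) :
    HasLog (fun z => h z / z) (sphere 0 ρ) := by
  have hz0 : ∀ z ∈ sphere (0:ℂ) ρ, z ≠ 0 := by
    rintro z hz rfl
    rw [mem_sphere_zero_iff_norm, norm_zero] at hz
    linarith
  apply IC_log_neg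
  have : HasLog (fun z => (- h z) / z) (sphere 0 ρ) := by
    apply IC_log_slit
    · exact hh.neg.div continuousOn_id hz0
    · intro z hz
      obtain ⟨h1, h2, h3⟩ := hm z hz
      by_contra hcon
      have h4 := IC_ray (hz0 z hz) hcon
      rw [mem_sphere_zero_iff_norm] at hz
      rw [h4, hz] at h2
      have h5 : |‖h z‖ - ρ| < c := by
        rw [abs_lt]
        constructor <;> linarith
      linarith
  exact IC_log_congr this fun z _ => by ring

end aux

theorem star_nontrivial {K : Set ℂ} (hK : IsCompact K) (hKc : IsConnected K) (h0 : (0:ℂ) ∈ K)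
    {ψ v : ℂ → ℂ} (hE : ExtMap K ψ v) (k₀ : ℂ) {g h : ℂ → ℂ} {ρ₀ c : ℝ} (hρ₀ : 0 < ρ₀)
    (hρ₀' : ρ₀ < 1) (hc : 0 < c) (hh : ContinuousOn h {z | ρ₀ ≤ ‖z‖ ∧ ‖z‖ < 1})
    (hm : ∀ z : ℂ, ρ₀ ≤ ‖z‖ → ‖z‖ < 1 → ‖h z‖ < 1 ∧ h z ≠ 0 ∧ c ≤ ‖h z - z‖ ∧
      g (k₀ + (ψ z)⁻¹) = k₀ + (ψ (h z))⁻¹)
    (hlim : ∀ ε > 0, ∃ ρ < (1:ℝ), ∀ z : ℂ, ρ ≤ ‖z‖ → ‖z‖ < 1 → 1 - ε < ‖h z‖)
    {N : Set ℂ} (hN : IsOpen N) (hKN : (fun z => k₀ + z) '' K ⊆ N) {k : ℂ}
    (hk : k ∈ (fun z => k₀ + z) '' K) :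
    ∃ O : Set ℂ, IsOpen O ∧ (fun z => k₀ + z) '' K ⊆ O ∧ closure O ⊆ N ∧ Bornology.IsBounded O ∧
      HasLog (fun x => (g x - x) / (x - k)) (frontier O) ∧
      HasLog (fun x => (g x - k) / (x - k)) (frontier O) ∧
      ∀ x ∈ closure O, x ∉ (fun z => k₀ + z) '' K → g x ≠ x := by
  classical
  obtain ⟨κ, hκ, rfl⟩ := hk
  set K' : Set ℂ := (fun z => k₀ + z) '' K with hK'
  set F : ℂ → ℂ := fun z => k₀ + (ψ z)⁻¹ with hF
  set u : ℂ → ℂ := fun x => v ((x - k₀)⁻¹) with hu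
  have memK : ∀ x, x ∈ K' ↔ x - k₀ ∈ K := by
    intro x
    constructor
    · rintro ⟨y, hy, rfl⟩
      simpa using hy
    · intro hx
      exact ⟨x - k₀, hx, by ring⟩
  have hK'c : IsCompact K' := hK.image (continuous_const.add continuous_id)
  have hK'cl : IsClosed K' := hK'c.isClosed
  have F1 : ∀ z ∈ ball (0:ℂ) 1, z ≠ 0 → F z ∉ K' ∧ u (F z) = z := by
    intro z hz hz0
    constructor
    · rw [memK]
      simp only [hF, add_sub_cancel_left]
      exact IC_inv_notMem hE hz hz0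
    · simp only [hu, hF, add_sub_cancel_left, inv_inv]
      exact hE.vψ z hz
  have hx0 : ∀ x, x ∉ K' → x - k₀ ≠ 0 := by
    intro x hx h1
    rw [memK, h1] at hx
    exact hx h0
  have hxE : ∀ x, x ∉ K' → (x - k₀)⁻¹ ∈ extDom K := by
    intro x hx
    right
    rw [inv_inv]
    rwa [← memK]
  have F2a : ∀ x, x ∉ K' → u x ∈ ball (0:ℂ) 1 := fun x hx => hE.mv (hxE x hx)
  have F2b : ∀ x, x ∉ K' → ψ (u x) = (x - k₀)⁻¹ := fun x hx => hE.ψv _ (hxE x hx)
  have F2c : ∀ x, x ∉ K' → u x ≠ 0 := by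
    intro x hx h1
    have h2 := F2b x hx
    rw [h1, hE.ψ0] at h2
    exact hx0 x hx (inv_eq_zero.mp h2.symm)
  have F2d : ∀ x, x ∉ K' → F (u x) = x := by
    intro x hx
    simp only [hF]
    rw [F2b x hx, inv_inv]
    ring
  have F3 : ContinuousOn u K'ᶜ := by
    refine hE.dv.continuousOn.comp ?_ fun x hx => hxE x hx
    exact (continuousOn_id.sub continuousOn_const).inv₀ fun x hx => hx0 x hx
  -- the neighbourhoods
  set O : ℝ → Set ℂ := fun ρ => {x | x ∈ K' ∨ ρ < ‖u x‖} with hO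
  have hOmono : ∀ ρ ρ', ρ ≤ ρ' → O ρ' ⊆ O ρ := by
    rintro ρ ρ' h1 x (hx | hx)
    · exact Or.inl hx
    · exact Or.inr (lt_of_le_of_lt h1 hx)
  have G3o : ∀ ρ, IsOpen {x | x ∉ K' ∧ ‖u x‖ < ρ} := by
    intro ρ
    have := F3.norm.isOpen_inter_preimage hK'cl.isOpen_compl (isOpen_Iio (a := ρ))
    exact this
  have G3 : ∀ ρ, closure (O ρ) ⊆ {x | x ∈ K' ∨ ρ ≤ ‖u x‖} := by
    intro ρ
    have h1 : IsClosed {x | x ∈ K' ∨ ρ ≤ ‖u x‖} := by
      rw [← isOpen_compl_iff]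
      convert G3o ρ using 1
      ext x
      simp only [mem_compl_iff, mem_ofPred_eq, not_or, not_le]
    refine closure_minimal ?_ h1
    rintro x (hx | hx)
    · exact Or.inl hx
    · exact Or.inr hx.le
  have memS : ∀ ρ, ρ < 1 → ∀ x, (x ∉ O ρ ↔ x ≠ k₀ ∧ (x - k₀)⁻¹ ∈ ψ '' closedBall (0:ℂ) ρ) := by
    intro ρ hρ x
    simp only [hO, mem_ofPred_eq, not_or, not_lt]
    constructor
    · rintro ⟨h1, h2⟩
      refine ⟨fun h3 => hx0 x h1 (by rw [h3, sub_self]), u x, ?_, F2b x h1⟩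
      rwa [mem_closedBall_zero_iff]
    · rintro ⟨h1, z, hz, hz2⟩
      have hzb : z ∈ ball (0:ℂ) 1 := closedBall_subset_ball hρ hz
      have hz0 : z ≠ 0 := by
        rintro rfl
        rw [hE.ψ0] at hz2
        have := inv_eq_zero.mp hz2.symm
        exact h1 (sub_eq_zero.mp this)
      have h3 : F z = x := by
        simp only [hF]
        rw [hz2, inv_inv]
        ring
      obtain ⟨h4, h5⟩ := F1 z hzb hz0
      rw [h3] at h4 h5
      refine ⟨h4, ?_⟩
      rw [h5]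
      rwa [mem_closedBall_zero_iff] at hz
  have hPc : ∀ ρ, ρ < 1 → IsCompact (ψ '' closedBall (0:ℂ) ρ) := fun ρ hρ =>
    (isCompact_closedBall 0 ρ).image_of_continuousOn
      (hE.dψ.continuousOn.mono (closedBall_subset_ball hρ))
  have G1 : ∀ ρ, ρ < 1 → IsOpen (O ρ) := by
    intro ρ hρ
    rw [← isClosed_compl_iff]
    obtain ⟨M, hM⟩ := (hPc ρ hρ).isBounded.exists_norm_le
    have hM' : ∀ w ∈ ψ '' closedBall (0:ℂ) ρ, ‖w‖ ≤ max M 1 := fun w hw =>
      (hM w hw).trans (le_max_left _ _)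
    have hM1 : 0 < max M 1 := lt_of_lt_of_le one_pos (le_max_right _ _)
    have h1 : (O ρ)ᶜ = {x | 1 / max M 1 ≤ ‖x - k₀‖} ∩
        (fun x => (x - k₀)⁻¹) ⁻¹' (ψ '' closedBall (0:ℂ) ρ) := by
      ext x
      rw [mem_compl_iff, memS ρ hρ x]
      constructor
      · rintro ⟨h2, h3⟩
        refine ⟨?_, h3⟩
        have h4 := hM' _ h3
        have h5 : 0 < ‖x - k₀‖ := norm_pos_iff.mpr (sub_ne_zero.mpr h2)
        rw [norm_inv] at h4
        rw [mem_ofPred_eq, one_div]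
        exact inv_le_of_inv_le₀ h5 h4
      · rintro ⟨h2, h3⟩
        refine ⟨?_, h3⟩
        rintro rfl
        rw [mem_ofPred_eq, sub_self, norm_zero] at h2
        have : 0 < 1 / max M 1 := by positivity
        linarith
    rw [h1]
    refine ContinuousOn.preimage_isClosed_of_isClosed ?_
      (isClosed_le continuous_const (continuous_id.sub continuous_const).norm)
      (hPc ρ hρ).isClosed
    refine (continuousOn_id.sub continuousOn_const).inv₀ ?_
    intro x hx h2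
    rw [mem_ofPred_eq] at hx
    have h3 : x - k₀ = 0 := h2
    rw [h3, norm_zero] at hx
    have : 0 < 1 / max M 1 := by positivity
    linarith
  have hE0 : extDom K ∈ 𝓝 (0:ℂ) := by
    obtain ⟨M, hM⟩ := hK.isBounded.exists_norm_le
    have hM1 : 0 < max M 1 := lt_of_lt_of_le one_pos (le_max_right _ _)
    rw [Metric.mem_nhds_iff]
    refine ⟨1 / max M 1, by positivity, ?_⟩
    intro w hw
    rw [mem_ball_zero_iff] at hw
    by_cases hw0 : w = 0
    · exact Or.inl hw0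
    · refine Or.inr fun h1 => ?_
      have h2 := (hM _ h1).trans (le_max_left M 1)
      have h3 : 0 < ‖w‖ := norm_pos_iff.mpr hw0
      rw [norm_inv, inv_le_comm₀ h3 hM1] at h2
      rw [one_div] at hw
      linarith
  have G2 : ∀ ρ, 0 < ρ → ρ < 1 → Bornology.IsBounded (O ρ) := by
    intro ρ hρ hρ1
    have h1 : ContinuousAt v 0 := by
      have := hE.dv.continuousOn 0 (Or.inl rfl)
      exact this.continuousAt hE0
    have h2 : ∀ᶠ w in 𝓝 (0:ℂ), ‖v w‖ < ρ ∧ w ∈ extDom K := by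
      refine Filter.Eventually.and ?_ hE0
      have h3 : Tendsto (fun w => ‖v w‖) (𝓝 0) (𝓝 0) := by
        have := h1.norm
        rw [ContinuousAt, IC_v0 hE, norm_zero] at this
        exact this
      exact h3.eventually_lt_const hρ
    obtain ⟨δ, hδ, hδ2⟩ := Metric.eventually_nhds_iff.mp h2
    refine (isBounded_closedBall (x := k₀) (r := 1 / δ)).subset ?_
    intro x hx
    rw [mem_closedBall, dist_eq_norm]
    by_contra hcon
    push Not at hcon
    have hpos : 0 < ‖x - k₀‖ := lt_trans (by positivity) hcon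
    have hne : x - k₀ ≠ 0 := norm_pos_iff.mp hpos
    have h3 : dist (x - k₀)⁻¹ 0 < δ := by
      rw [dist_zero_right, norm_inv]
      rw [one_div] at hcon
      exact inv_lt_of_inv_lt₀ hδ hcon
    obtain ⟨h4, h5⟩ := hδ2 h3
    have h6 : x ∉ K' := by
      rw [memK]
      rcases h5 with h5 | h5
      · exact absurd (inv_eq_zero.mp h5) hne
      · rwa [inv_inv] at h5
    rcases hx with hx | hx
    · exact h6 hx
    · exact absurd (lt_trans hx h4) (lt_irrefl _)
  have G4 : ∀ ρ, ρ < 1 → ∀ x ∈ frontier (O ρ), x ∉ K' ∧ ‖u x‖ = ρ := by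
    intro ρ hρ x hx
    rw [frontier, (G1 ρ hρ).interior_eq] at hx
    obtain ⟨h1, h2⟩ := hx
    have h3 := G3 ρ h1
    simp only [hO, mem_ofPred_eq, not_or, not_lt] at h2
    rcases h3 with h3 | h3
    · exact absurd h3 h2.1
    · exact ⟨h2.1, le_antisymm h2.2 h3⟩
  have G5 : ∃ m < (1:ℝ), ∀ ρ, m < ρ → ρ < 1 → closure (O ρ) ⊆ N := by
    have hb : IsCompact (closure (O (1/2)) ∩ Nᶜ) := by
      have h1 : IsCompact (closure (O (1/2))) :=
        (G2 (1/2) (by norm_num) (by norm_num)).isCompact_closure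
      exact h1.inter_right hN.isClosed_compl
    have hbK : closure (O (1/2)) ∩ Nᶜ ⊆ K'ᶜ := by
      rintro x ⟨_, h2⟩ h3
      exact h2 (hKN h3)
    obtain ⟨m, hm1, hm2⟩ : ∃ m < (1:ℝ), ∀ x ∈ closure (O (1/2)) ∩ Nᶜ, ‖u x‖ ≤ m := by
      by_cases hne : (closure (O (1/2)) ∩ Nᶜ).Nonempty
      · obtain ⟨x₀, hx₀, hx₁⟩ := hb.exists_isMaxOn hne (F3.mono hbK).norm
        refine ⟨‖u x₀‖, ?_, fun x hx => hx₁ hx⟩
        have := F2a x₀ (hbK hx₀)
        rwa [mem_ball_zero_iff] at this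
      · refine ⟨0, one_pos, fun x hx => absurd ⟨x, hx⟩ hne⟩
    refine ⟨max m (1/2), max_lt hm1 (by norm_num), fun ρ h1 h2 x hx => ?_⟩
    by_contra hxN
    have h3 : x ∈ closure (O (1/2)) := closure_mono
      (hOmono _ _ ((le_max_right _ _).trans h1.le)) hx
    have h4 := hm2 x ⟨h3, hxN⟩
    have h5 : x ∉ K' := hbK ⟨h3, hxN⟩
    rcases G3 ρ hx with h6 | h6
    · exact h5 h6
    · have h7 := lt_of_le_of_lt (le_max_left m (1/2)) h1
      linarith
  obtain ⟨m, hm1, hmN⟩ := G5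
  obtain ⟨ρ₁, hρ₁, hlim₁⟩ := hlim (c / 2) (by positivity)
  obtain ⟨ρ, hρA, hρ1⟩ := exists_between
    (show max (max m ρ₀) (max ρ₁ (1 - c / 2)) < 1 from
      max_lt (max_lt hm1 hρ₀') (max_lt hρ₁ (by linarith)))
  have hρm : m < ρ := lt_of_le_of_lt ((le_max_left _ _).trans (le_max_left _ _)) hρA
  have hρρ₀ : ρ₀ < ρ := lt_of_le_of_lt ((le_max_right _ _).trans (le_max_left _ _)) hρA
  have hρρ₁ : ρ₁ < ρ := lt_of_le_of_lt ((le_max_left _ _).trans (le_max_right _ _)) hρA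
  have hρc : 1 - c / 2 < ρ := lt_of_le_of_lt ((le_max_right _ _).trans (le_max_right _ _)) hρA
  have hρ : 0 < ρ := hρ₀.trans hρρ₀
  -- the data on the circle
  have hsph : ∀ z ∈ sphere (0:ℂ) ρ, ‖z‖ = ρ := fun z hz => by
    rwa [mem_sphere_zero_iff_norm] at hz
  have hsb : ∀ z ∈ sphere (0:ℂ) ρ, z ∈ ball (0:ℂ) 1 := fun z hz => by
    rw [mem_ball_zero_iff, hsph z hz]
    exact hρ1
  have hs0 : ∀ z ∈ sphere (0:ℂ) ρ, z ≠ 0 := by
    rintro z hz rfl
    have := hsph _ hz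
    rw [norm_zero] at this
    linarith
  have hmS : ∀ z ∈ sphere (0:ℂ) ρ, ‖h z‖ < 1 ∧ h z ≠ 0 ∧ c ≤ ‖h z - z‖ ∧
      g (k₀ + (ψ z)⁻¹) = k₀ + (ψ (h z))⁻¹ := fun z hz =>
    hm z (by rw [hsph z hz]; exact hρρ₀.le) (by rw [hsph z hz]; exact hρ1)
  have hlS : ∀ z ∈ sphere (0:ℂ) ρ, 1 - c / 2 < ‖h z‖ := fun z hz =>
    hlim₁ z (by rw [hsph z hz]; exact hρρ₁.le) (by rw [hsph z hz]; exact hρ1)
  have hhS : ContinuousOn h (sphere 0 ρ) := hh.mono fun z hz =>
    ⟨by rw [hsph z hz]; exact hρρ₀.le, by rw [hsph z hz]; exact hρ1⟩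
  have hhB : MapsTo h (sphere 0 ρ) (ball 0 1) := fun z hz => by
    rw [mem_ball_zero_iff]
    exact (hmS z hz).1
  have La := IC_a hρ (by linarith : 1 - ρ < c) hhS fun z hz => ⟨(hmS z hz).1, (hmS z hz).2.2.1⟩
  have Lb := IC_b hρ hρ1 hρc hhS fun z hz =>
    ⟨(hmS z hz).1, (hmS z hz).2.2.1, hlS z hz⟩
  have LQ := IC_Q hE hρ hρ1 hc hhS fun z hz => ⟨(hmS z hz).1, (hmS z hz).2.2.1⟩
  obtain ⟨q, Lq, hq⟩ := IC_q hE
  have Lqs : HasLog q (sphere 0 ρ) := IC_log_mono Lq hsb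
  have Lqh : HasLog (fun z => q (h z)) (sphere 0 ρ) := IC_log_comp (f := q) Lq hhS hhB
  have Lm := IC_m hE hκ
  have Lms : HasLog (fun z => 1 - κ * ψ z) (sphere 0 ρ) := IC_log_mono Lm hsb
  have Lmh : HasLog (fun z => 1 - κ * ψ (h z)) (sphere 0 ρ) :=
    IC_log_comp (f := fun z => 1 - κ * ψ z) Lm hhS hhB
  have hψs : ∀ z ∈ sphere (0:ℂ) ρ, ψ z ≠ 0 := fun z hz => IC_psi_ne hE (hsb z hz) (hs0 z hz)
  have hψh : ∀ z ∈ sphere (0:ℂ) ρ, ψ (h z) ≠ 0 := fun z hz =>
    IC_psi_ne hE (hhB hz) (hmS z hz).2.1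
  have hlogne : ∀ {f : ℂ → ℂ} {S : Set ℂ}, HasLog f S → ∀ z ∈ S, f z ≠ 0 := by
    rintro f S ⟨L, _, h2⟩ z hz
    rw [h2 z hz]
    exact Complex.exp_ne_zero _
  have LA : HasLog (fun z => (g (F z) - F z) / (F z - (k₀ + κ))) (sphere 0 ρ) := by
    refine IC_log_congr (IC_log_div (IC_log_mul La LQ) (IC_log_mul (IC_log_mul Lb Lqh) Lms)) ?_
    intro z hz
    obtain ⟨h1, h2, h3, h4⟩ := hmS z hz
    have hz0 := hs0 z hz
    have hzψ := hψs z hz
    have hzh := hψh z hz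
    have hq1 := hq z (hsb z hz)
    have hq2 := hq (h z) (hhB hz)
    have hmz := hlogne Lms z hz
    have hqz := hlogne Lqh z hz
    have hzw : z - h z ≠ 0 := by
      intro h5
      have h6 : h z - z = 0 := by
        rw [← neg_sub, h5, neg_zero]
      rw [h6, norm_zero] at h3
      linarith
    simp only [hF]
    rw [h4]
    have e1 : k₀ + (ψ (h z))⁻¹ - (k₀ + (ψ z)⁻¹) = (ψ z - ψ (h z)) / (ψ z * ψ (h z)) := by
      field_simp
      ring
    have e2 : k₀ + (ψ z)⁻¹ - (k₀ + κ) = (1 - κ * ψ z) / ψ z := by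
      field_simp
      ring
    rw [e1, e2]
    have e3 : (ψ z - ψ (h z)) / (ψ z * ψ (h z)) / ((1 - κ * ψ z) / ψ z) =
        (ψ z - ψ (h z)) / (ψ (h z) * (1 - κ * ψ z)) := by
      field_simp
    have e4 : (z - h z) / z * ((ψ z - ψ (h z)) / (z - h z)) /
        (h z / z * q (h z) * (1 - κ * ψ z)) =
        (ψ z - ψ (h z)) / ((h z * q (h z)) * (1 - κ * ψ z)) := by
      field_simp
    rw [e3, e4, ← hq2]
  have LB : HasLog (fun z => (g (F z) - (k₀ + κ)) / (F z - (k₀ + κ))) (sphere 0 ρ) := by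
    refine IC_log_congr (IC_log_div (IC_log_mul Lmh Lqs) (IC_log_mul (IC_log_mul Lb Lqh) Lms)) ?_
    intro z hz
    obtain ⟨h1, h2, h3, h4⟩ := hmS z hz
    have hz0 := hs0 z hz
    have hzψ := hψs z hz
    have hzh := hψh z hz
    have hq1 := hq z (hsb z hz)
    have hq2 := hq (h z) (hhB hz)
    have hmz := hlogne Lms z hz
    have hqz := hlogne Lqh z hz
    simp only [hF]
    rw [h4]
    have e1 : k₀ + (ψ (h z))⁻¹ - (k₀ + κ) = (1 - κ * ψ (h z)) / ψ (h z) := by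
      field_simp
      ring
    have e2 : k₀ + (ψ z)⁻¹ - (k₀ + κ) = (1 - κ * ψ z) / ψ z := by
      field_simp
      ring
    rw [e1, e2]
    have e3 : (1 - κ * ψ (h z)) / ψ (h z) / ((1 - κ * ψ z) / ψ z) =
        (1 - κ * ψ (h z)) * ψ z / (ψ (h z) * (1 - κ * ψ z)) := by
      field_simp
    have e4 : (1 - κ * ψ (h z)) * q z / (h z / z * q (h z) * (1 - κ * ψ z)) =
        (1 - κ * ψ (h z)) * (z * q z) / ((h z * q (h z)) * (1 - κ * ψ z)) := by
      field_simp
    rw [e3, e4, ← hq2, ← hq1]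
  have hfr : ∀ x ∈ frontier (O ρ), u x ∈ sphere (0:ℂ) ρ := fun x hx => by
    rw [mem_sphere_zero_iff_norm]
    exact (G4 ρ hρ1 x hx).2
  have hufr : ContinuousOn u (frontier (O ρ)) := F3.mono fun x hx => (G4 ρ hρ1 x hx).1
  refine ⟨O ρ, G1 ρ hρ1, fun x hx => Or.inl hx, hmN ρ hρm hρ1, G2 ρ hρ hρ1, ?_, ?_, ?_⟩
  · refine IC_log_congr (IC_log_comp
      (f := fun z => (g (F z) - F z) / (F z - (k₀ + κ))) LA hufr hfr) fun x hx => ?_
    simp only
    rw [F2d x (G4 ρ hρ1 x hx).1]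
  · refine IC_log_congr (IC_log_comp
      (f := fun z => (g (F z) - (k₀ + κ)) / (F z - (k₀ + κ))) LB hufr hfr) fun x hx => ?_
    simp only
    rw [F2d x (G4 ρ hρ1 x hx).1]
  · intro x hx hxK hgx
    rcases G3 ρ hx with h1 | h1
    · exact hxK h1
    · have h2 := F2a x hxK
      rw [mem_ball_zero_iff] at h2
      obtain ⟨h3, h4, h5, h6⟩ := hm (u x) (hρρ₀.le.trans h1) h2
      have h7 : F (u x) = x := F2d x hxK
      have h8 : k₀ + (ψ (u x))⁻¹ = x := h7
      rw [h8, hgx] at h6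
      have h9 : (ψ (u x))⁻¹ = (ψ (h (u x)))⁻¹ := by
        have : k₀ + (ψ (u x))⁻¹ = k₀ + (ψ (h (u x)))⁻¹ := h8.trans h6
        exact add_left_cancel this
      have h10 : ψ (u x) = ψ (h (u x)) := inv_injective h9
      have h11 : u x = h (u x) := IC_injOn hE (F2a x hxK)
        (by rw [mem_ball_zero_iff]; exact h3) h10
      rw [← h11, sub_self, norm_zero] at h5
      linarith

end DS
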