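import Pool.Agent.H36.DS.IA

/-!
IE (a function of winding number one has a zero inside).  Proof.  Let `L` be a continuous logarithm of
`f z / (z - k)` on the closed set `frontier O`; extend it by Tietze to a continuous function `L : ℂ → ℂ`.
Define `G z = f z` on `closure O` and `G z = (z - k) * exp (L z)` on `Oᶜ`.  The definitions agree on
`frontier O = closure O ∩ Oᶜ`, so `G` is continuous on `ℂ`, nowhere zero (`k ∈ O`).  By `allLogs_univ` it has winding number
`0` on every circle; on a large circle `sphere k R` outside `closure O` it has winding number `1`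
(`hasWind_id`, `hasWind_mul`).  Contradiction with `hasWind_unique`.
-/

namespace DS
open Metric Set Filter Topology

theorem no_nonvanishing {O : Set ℂ} (hO : IsOpen O) (hb : Bornology.IsBounded O) {k : ℂ} (hk : k ∈ O)
    {f : ℂ → ℂ} (hf : ContinuousOn f (closure O)) (hf0 : ∀ z ∈ closure O, f z ≠ 0)
    (hlog : HasLog (fun z => f z / (z - k)) (frontier O)) : False := by
  classical
  obtain ⟨L0, hL0, hL0E⟩ := hlog
  have hfc : IsClosed (frontier O) := isClosed_frontier
  obtain ⟨L, hL⟩ := ContinuousMap.exists_restrict_eq hfc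
    (⟨(frontier O).domRestrict L0, continuousOn_iff_continuous_domRestrict.1 hL0⟩ : C(frontier O, ℂ))
  have hLE : ∀ z ∈ frontier O, L z = L0 z := by
    intro z hz
    have h1 := DFunLike.congr_fun hL ⟨z, hz⟩
    exact h1
  have hLc : Continuous L := L.continuous
  have hkf : ∀ z ∈ Oᶜ, z - k ≠ 0 := by
    intro z hz h0
    rw [sub_eq_zero] at h0
    rw [h0] at hz
    exact hz hk
  have hfE : ∀ z ∈ frontier O, f z = (z - k) * Complex.exp (L z) := by
    intro z hz
    have h1 := hL0E z hz
    simp only at h1
    have h2 : z ∈ Oᶜ := by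
      rw [hO.frontier_eq] at hz
      exact hz.2
    rw [hLE z hz, ← h1, mul_div_cancel₀ _ (hkf z h2)]
  set G : ℂ → ℂ := fun z => if z ∈ closure O then f z else (z - k) * Complex.exp (L z) with hG
  have hG1 : ∀ z ∈ closure O, G z = f z := fun z hz => by simp only [hG]; rw [if_pos hz]
  have hG2 : ∀ z ∈ Oᶜ, G z = (z - k) * Complex.exp (L z) := by
    intro z hz
    by_cases hz2 : z ∈ closure O
    · rw [hG1 z hz2]
      refine hfE z ?_
      rw [hO.frontier_eq]
      exact ⟨hz2, hz⟩
    · simp only [hG]
      rw [if_neg hz2]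
  have hGc : ContinuousOn G univ := by
    have h1 : ContinuousOn G (closure O) := hf.congr hG1
    have h2 : ContinuousOn G Oᶜ := by
      refine ContinuousOn.congr (f := fun z => (z - k) * Complex.exp (L z)) ?_ hG2
      exact ((continuous_id.sub continuous_const).mul (Complex.continuous_exp.comp hLc)).continuousOn
    have h3 := h1.union_of_isClosed h2 isClosed_closure hO.isClosed_compl
    refine h3.mono ?_
    intro z _
    by_cases hz : z ∈ O
    · exact Or.inl (subset_closure hz)
    · exact Or.inr hz
  have hG0 : ∀ z ∈ univ, G z ≠ 0 := by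
    intro z _
    by_cases hz : z ∈ O
    · rw [hG1 z (subset_closure hz)]
      exact hf0 z (subset_closure hz)
    · rw [hG2 z hz]
      exact mul_ne_zero (hkf z hz) (Complex.exp_ne_zero _)
  have hGL : HasLog G univ := allLogs_univ G hGc hG0
  obtain ⟨R, hR, hRb⟩ := hb.subset_closedBall_lt 0 k
  have hR1 : 0 < R + 1 := by linarith
  have hout : ∀ z ∈ sphere k (R + 1), z ∈ Oᶜ := by
    intro z hz hzO
    have h1 := hRb hzO
    rw [mem_closedBall] at h1
    rw [mem_sphere] at hz
    linarith
  have hw0 : HasWind G k (R + 1) 0 := hasWind_of_hasLog (subset_univ _) hGL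
  have hw1 : HasWind G k (R + 1) 1 := by
    have h1 : HasWind (fun z => (z - k) * Complex.exp (L z)) k (R + 1) (1 + 0) :=
      hasWind_mul hR1 (hasWind_id k (R + 1))
        (hasWind_of_hasLog (subset_univ _) ⟨L, hLc.continuousOn, fun z _ => rfl⟩)
    obtain ⟨M, hM, hME⟩ := h1
    exact ⟨M, hM, fun z hz => by rw [hG2 z (hout z hz)]; exact hME z hz⟩
  have := hasWind_unique hR1 hw0 hw1
  omega

end DS
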