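import Pool.Agent.H36.DS.HBase
import Pool.Agent.H36.DS.YBase

/-!
Definitions for the theorem on fixed prime ends (project MP_8a27c0_DS).
Here `X` is a compact metric space (the sphere), `K` a closed subset whose complement is a disc by `φ`.
-/

namespace DS

open Metric Set Filter Topology MeasureTheory

/-- elliptic local form of the homeomorphism `g` at the point `P` of `K` -/
def EllPt {X : Type*} [TopologicalSpace X] (K : Set X) (g : X → X) (P : X) : Prop :=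
  ∃ (P' : X) (χ : X → ℂ) (κ : ℂ → X) (w₁ : ℂ), PChart K P P' χ κ ∧ ‖w₁‖ = 1 ∧ w₁ ≠ 1 ∧
    Tendsto (fun z => χ (g (κ z)) / z) (𝓝[κ ⁻¹' Kᶜ] 0) (𝓝 w₁)

/-- hyperbolic local form of the homeomorphism `g` at the point `P` of `K`; the horizontal axis is contained in
`K`; `SP` is a predicate (a point lies on a regular curve contained in a stable set), satisfied on the horizontal
axis, and a point of `K` on the vertical axis with this predicate is accumulated by points of `K` from both sides -/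
structure HypChart {X : Type*} [TopologicalSpace X] (K : Set X) (SP : X → Prop) (g : X → X) (P P' : X)
    (χ : X → ℂ) (κ : ℂ → X) (r lp km kp : ℝ) : Prop where
  ch : PChart K P P' χ κ
  loc : HypLoc (fun w => χ (g (κ w))) r lp km kp
  ne : ∀ w ∈ Sq r, g (κ w) ≠ P'
  axis : ∀ x : ℝ, |x| ≤ r → κ ⟨x, 0⟩ ∈ K
  sp : ∀ x : ℝ, 0 < |x| → |x| < r → SP (κ ⟨x, 0⟩)
  cross : ∀ y : ℝ, 0 < |y| → |y| < r → κ ⟨0, y⟩ ∈ K → SP (κ ⟨0, y⟩) → ∀ ε > 0,
    (∃ z ∈ ball (⟨0, y⟩ : ℂ) ε, 0 < z.re ∧ κ z ∈ K) ∧ ∃ z ∈ ball (⟨0, y⟩ : ℂ) ε, z.re < 0 ∧ κ z ∈ K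

/-- an invariant arc of prime ends asymptotic to the prime end `ζ` and consisting of accessible prime ends
whose points satisfy `SP` -/
structure StabArc {X : Type*} [TopologicalSpace X] (k : ℂ → ℂ) (φ : ℂ → X) (SP : X → Prop)
    (E : Set ℂ) (ζ : ℂ) (J : Set ℂ) : Prop where
  conn : IsConnected J
  sub : J ⊆ E \ {ζ}
  inv : k '' J = J
  lim : ∀ b ∈ J, Tendsto (fun n : ℕ => k^[n] b) atTop (𝓝 ζ)
  acc : ∀ b ∈ J, ∃ x, Acc φ b x ∧ SP x

/-- the data of the local analysis at a fixed prime end `ζ` with hyperbolic principal point -/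
structure GoodChart {X : Type*} [MetricSpace X] (K : Set X) (SP : X → Prop) (φ : ℂ → X) (u : X → ℂ)
    (g gi : X → X) (ζ : ℂ) (P P' : X) (χ : X → ℂ) (κ : ℂ → X) (μ : Measure ℂ)
    (r r₀ lp km kp δ : ℝ) : Prop where
  hyp : HypChart K SP g P P' χ κ r lp km kp
  prin : Principal φ ζ P
  pe : FixPE (κ ⁻¹' Kᶜ) (fun z => χ (φ z)) (fun w => u (κ w)) (fun w => χ (g (κ w)))
    (fun w => χ (gi (κ w))) μ ζ r₀
  quad : GoodQuad (κ ⁻¹' Kᶜ) (fun w => u (κ w)) ζ δ
  hδr : δ < r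
  hδr₀ : 4 * δ < r₀

end DS
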