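import Pool.Agent.H36.DS.Sph
import Pool.Agent.H36.DS.HBase

/-!
Definitions for the sphere (project MP_8a27c0_DS): charts, the dynamical system, components.
-/

namespace DS

open Metric Set Filter Topology MeasureTheory Function
open scoped Manifold ContDiff

/-- a stereographic chart with pole `O` onto the plane (`p`), with inverse `q` -/
structure SC (O : S2) (p : S2 → ℂ) (q : ℂ → S2) : Prop where
  q_smooth : ContMDiff 𝓘(ℝ, ℂ) (𝓡 2) 1 q
  p_smooth : ContMDiffOn (𝓡 2) 𝓘(ℝ, ℂ) 1 p {O}ᶜ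
  q_ne : ∀ z, q z ≠ O
  pq : ∀ z, p (q z) = z
  qp : ∀ x, x ≠ O → q (p x) = x
  q_lim : Tendsto q (cocompact ℂ) (𝓝 O)
  p_lim : Tendsto p (𝓝[≠] O) (cocompact ℂ)

/-- a `C¹` chart of the sphere minus the point `O` onto the plane (`χ`), with inverse `κ` -/
structure PC1 (O : S2) (χ : S2 → ℂ) (κ : ℂ → S2) : Prop where
  κ_smooth : ContMDiff 𝓘(ℝ, ℂ) (𝓡 2) 1 κ
  χ_smooth : ContMDiffOn (𝓡 2) 𝓘(ℝ, ℂ) 1 χ {O}ᶜ
  κ_ne : ∀ z, κ z ≠ O
  χκ : ∀ z, χ (κ z) = z
  κχ : ∀ x, x ≠ O → κ (χ x) = x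

/-- the dynamical system: a `C¹` diffeomorphism `f` (inverse `fi`) of the sphere preserving a finite
measure positive on open sets, with derivatives of determinant one at periodic points and the conditions
1 and 2 -/
structure Sys (f fi : S2 → S2) (ν : Measure S2) : Prop where
  cf : ContMDiff (𝓡 2) (𝓡 2) 1 f
  cfi : ContMDiff (𝓡 2) (𝓡 2) 1 fi
  ffi : ∀ x, f (fi x) = x
  fif : ∀ x, fi (f x) = x
  fin : ν univ < ⊤
  inv : ∀ B, MeasurableSet B → ν (f '' B) = ν B
  pos : ∀ O, IsOpen O → O.Nonempty → 0 < ν O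
  det1 : ∀ P n, f^[n] P = P → (iterDeriv f n P).det = 1
  h1 : Cond1 f
  h2 : Cond2 f fi

/-- `K` is a connected component of the complement of the domain `V`, which misses the stable sets of the
periodic points -/
structure CompK (f : S2 → S2) (V K : Set S2) : Prop where
  V_open : IsOpen V
  V_conn : IsConnected V
  V_stab : ∀ P ∈ periodicPts f, Disjoint V (stableSet f P)
  K_closed : IsClosed K
  K_conn : IsConnected K
  K_V : Disjoint K V
  K_max : ∀ C : Set S2, IsPreconnected C → Disjoint C V → (C ∩ K).Nonempty → C ⊆ K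

/-- a regular curve in the stable set of a hyperbolic periodic point passes through `x` -/
def SPt (f : S2 → S2) (x : S2) : Prop :=
  ∃ (Q : S2) (v : E3), Hyperbolic f Q ∧ TangentTo (stableSet f Q) x v

/-- the trace of the derivative at `P` of the `n`-th iterate -/
noncomputable def tr (f : S2 → S2) (n : ℕ) (P : S2) : ℝ :=
  LinearMap.trace ℝ E2 (iterDeriv f n P : E2 →ₗ[ℝ] E2)

end DS
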