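import Pool.Agent.H36.DS.FE

/-!
FD (local form of a hyperbolic fixed point in the plane).
`diagonalize`: a real linear map `B` of the plane with determinant `1` and trace `t > 2` has the eigenvalues `l < 1 < m = l⁻¹`,
`l + m = t`, `l > 0`; a basis of eigenvectors gives `L : ℂ ≃L[ℝ] ℂ` with `L ∘ B ∘ L⁻¹ = diagL l m`.
`cutoff`: let `F` be `C¹` on the open set `U ∋ 0`, `F 0 = 0`, `fderiv F 0 = diagL l m`; `f = F - diagL l m` satisfies
`f 0 = 0`, `fderiv f 0 = 0`.  With a smooth bump function `b`, `b = 1` on `ball 0 1`, supported in `ball 0 2`, the function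
`F' z = diagL l m z + b (z / ρ) f z` (`0` times anything off the support) is `C¹` on the plane, equal to `F` on `ball 0 ρ`, and
`‖fderiv F' z - diagL l m‖ ≤ sup_{ball 0 (2ρ)} ‖fderiv f‖ + (C/ρ) sup_{ball 0 (2ρ)} ‖f‖ ≤ (1 + 2C) sup_{ball 0 (2ρ)} ‖fderiv f‖ → 0`
for `ρ → 0`.
`planar_hyp`: `L` from `diagonalize`, `ε` from `global_straight`, `F'` from `cutoff` for `L ∘ F ∘ L⁻¹`; `Φ = Ψ ∘ L`, `Φi = L⁻¹ ∘ Ψi`; `r`
small: `Ψi '' Sq r ⊆ ball 0 ρ` and `Φi '' Sq r ⊆ U`; on `Sq r` the two maps agree, and `HypLoc` on `Sq r` only depends on the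
values on `Sq r`.
-/

namespace DS
open Metric Set Filter Topology

theorem FD_apply (B : ℂ →L[ℝ] ℂ) (z : ℂ) :
    (B z).re = (B 1).re * z.re + (B Complex.I).re * z.im ∧
      (B z).im = (B 1).im * z.re + (B Complex.I).im * z.im := by
  have h : z = z.re • (1:ℂ) + z.im • Complex.I := by
    apply Complex.ext <;> simp
  have h2 : B z = z.re • B 1 + z.im • B Complex.I := by
    conv_lhs => rw [h]
    rw [map_add, map_smul, map_smul]
  rw [h2]
  constructor
  · simp; ring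
  · simp; ring

theorem FD_det (B : ℂ →L[ℝ] ℂ) :
    B.det = (B 1).re * (B Complex.I).im - (B Complex.I).re * (B 1).im := by
  rw [ContinuousLinearMap.det, ← LinearMap.det_toMatrix Complex.basisOneI, Matrix.det_fin_two]
  simp [LinearMap.toMatrix_apply, Complex.coe_basisOneI_repr]

theorem FD_tr (B : ℂ →L[ℝ] ℂ) :
    LinearMap.trace ℝ ℂ (B : ℂ →ₗ[ℝ] ℂ) = (B 1).re + (B Complex.I).im := by
  rw [LinearMap.trace_eq_matrix_trace ℝ Complex.basisOneI, Matrix.trace_fin_two]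
  simp [LinearMap.toMatrix_apply, Complex.coe_basisOneI_repr]

theorem FD_diagL (l m : ℝ) (z : ℂ) : diagL l m z = ⟨l * z.re, m * z.im⟩ := rfl

/-- eigenvectors -/
theorem FD_eig (B : ℂ →L[ℝ] ℂ) {x : ℝ}
    (hx : x ^ 2 - ((B 1).re + (B Complex.I).im) * x +
      ((B 1).re * (B Complex.I).im - (B Complex.I).re * (B 1).im) = 0) :
    ∃ v : ℂ, v ≠ 0 ∧ B v = x • v := by
  set a := (B 1).re with ha
  set b := (B Complex.I).re with hb
  set c := (B 1).im with hc
  set d := (B Complex.I).im with hd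
  have key : ∀ p q : ℝ, a * p + b * q = x * p → c * p + d * q = x * q →
      B (⟨p, q⟩ : ℂ) = x • (⟨p, q⟩ : ℂ) := by
    intro p q h1 h2
    have := FD_apply B ⟨p, q⟩
    apply Complex.ext
    · rw [this.1]; simpa using h1
    · rw [this.2]; simpa using h2
  by_cases h1 : b ≠ 0
  · refine ⟨⟨b, x - a⟩, ?_, key _ _ (by ring) (by linear_combination (-1) * hx)⟩
    intro h
    exact h1 (by simpa using congrArg Complex.re h)
  push Not at h1
  by_cases h2 : x - d ≠ 0
  · refine ⟨⟨x - d, c⟩, ?_, key _ _ (by linear_combination (-1) * hx) (by ring)⟩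
    intro h
    exact h2 (by simpa using congrArg Complex.re h)
  push Not at h2
  by_cases h3 : c ≠ 0
  · refine ⟨⟨x - d, c⟩, ?_, key _ _ (by linear_combination (-1) * hx) (by ring)⟩
    intro h
    exact h3 (by simpa using congrArg Complex.im h)
  push Not at h3
  refine ⟨⟨0, 1⟩, ?_, key _ _ (by rw [h1]; ring) (by linear_combination (-1) * h2)⟩
  intro h
  simpa using congrArg Complex.im h

/-- the linear isomorphism with `L.symm (x + i y) = x v + y w` -/
theorem FD_iso (v w : ℂ) (hD : v.re * w.im - v.im * w.re ≠ 0) :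
    ∃ L : ℂ ≃L[ℝ] ℂ, ∀ z : ℂ, L.symm z = z.re • v + z.im • w := by
  set D := v.re * w.im - v.im * w.re with hDdef
  let e : ℂ ≃ₗ[ℝ] ℂ :=
    { toFun := fun z => ⟨(z.re * w.im - z.im * w.re) / D, (v.re * z.im - v.im * z.re) / D⟩
      map_add' := by
        intro x y
        apply Complex.ext <;> simp <;> ring
      map_smul' := by
        intro c x
        apply Complex.ext <;> simp <;> ring
      invFun := fun z => z.re • v + z.im • w
      left_inv := by
        intro z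
        apply Complex.ext
        · simp only [Complex.add_re, Complex.smul_re, smul_eq_mul]
          field_simp
          rw [hDdef]; ring
        · simp only [Complex.add_im, Complex.smul_im, smul_eq_mul]
          field_simp
          rw [hDdef]; ring
      right_inv := by
        intro z
        apply Complex.ext
        · simp only [Complex.add_re, Complex.smul_re, smul_eq_mul, Complex.add_im, Complex.smul_im]
          field_simp
          rw [hDdef]; ring
        · simp only [Complex.add_re, Complex.smul_re, smul_eq_mul, Complex.add_im, Complex.smul_im]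
          field_simp
          rw [hDdef]; ring }
  exact ⟨e.toContinuousLinearEquiv, fun z => rfl⟩

theorem diagonalize {B : ℂ →L[ℝ] ℂ} (hdet : B.det = 1)
    (htr : 2 < LinearMap.trace ℝ ℂ (B : ℂ →ₗ[ℝ] ℂ)) :
    ∃ (L : ℂ ≃L[ℝ] ℂ) (l m : ℝ), 0 < l ∧ l < 1 ∧ 1 < m ∧
      ∀ z, L (B (L.symm z)) = diagL l m z := by
  rw [FD_det] at hdet
  rw [FD_tr] at htr
  set t := (B 1).re + (B Complex.I).im with ht
  have hs0 : 0 < t ^ 2 - 4 := by nlinarith
  set s := Real.sqrt (t ^ 2 - 4) with hs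
  have hs1 : 0 < s := Real.sqrt_pos.2 hs0
  have hs2 : s ^ 2 = t ^ 2 - 4 := Real.sq_sqrt hs0.le
  have hst : s < t := by nlinarith
  have hst2 : t - 2 < s := by
    by_contra hcon
    push Not at hcon
    nlinarith
  obtain ⟨v, hv0, hv⟩ := FD_eig B (x := (t - s) / 2) (by rw [hdet, ← ht]; nlinarith)
  obtain ⟨w, hw0, hw⟩ := FD_eig B (x := (t + s) / 2) (by rw [hdet, ← ht]; nlinarith)
  have hD : v.re * w.im - v.im * w.re ≠ 0 := by
    intro hD
    obtain ⟨r, hr⟩ : ∃ r : ℝ, w = r • v := by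
      by_cases h : v.re = 0
      · have h2 : v.im ≠ 0 := fun h2 => hv0 (Complex.ext h h2)
        refine ⟨w.im / v.im, ?_⟩
        have h3 : w.re = 0 := by
          rw [h] at hD
          have : v.im * w.re = 0 := by linarith
          exact (mul_eq_zero.1 this).resolve_left h2
        apply Complex.ext
        · simp [h, h3]
        · simp only [Complex.smul_im, smul_eq_mul]; field_simp
      · refine ⟨w.re / v.re, ?_⟩
        apply Complex.ext
        · simp only [Complex.smul_re, smul_eq_mul]; field_simp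
        · simp only [Complex.smul_im, smul_eq_mul]
          field_simp
          linarith
    have h1 : B w = ((t - s) / 2) • w := by
      rw [hr, map_smul, hv, smul_comm]
    rw [hw, ← sub_eq_zero, ← sub_smul] at h1
    have h2 : (t + s) / 2 - (t - s) / 2 = s := by ring
    rw [h2] at h1
    rcases smul_eq_zero.1 h1 with h | h
    · exact hs1.ne' h
    · exact hw0 h
  obtain ⟨L, hL⟩ := FD_iso v w hD
  refine ⟨L, (t - s) / 2, (t + s) / 2, by linarith, ?_, by linarith, ?_⟩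
  · linarith
  · intro z
    apply L.symm.injective
    rw [L.symm_apply_apply, hL z, map_add, map_smul, map_smul, hv, hw, hL, FD_diagL]
    simp only [smul_smul, mul_comm]

theorem cutoff {U : Set ℂ} (hU : IsOpen U) (h0 : (0:ℂ) ∈ U) {F : ℂ → ℂ} (hF : ContDiffOn ℝ 1 F U)
    (hF0 : F 0 = 0) {l m : ℝ} (hd : fderiv ℝ F 0 = diagL l m) {ε : ℝ} (hε : 0 < ε) :
    ∃ F' : ℂ → ℂ, NearDiag F' l m ε ∧ ∀ᶠ z in 𝓝 0, F' z = F z := by
  -- a fixed bump function
  let b : ContDiffBump (0:ℂ) := ⟨1, 2, one_pos, one_lt_two⟩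
  have hb1 : ContDiff ℝ 1 b := b.contDiff
  obtain ⟨C, hC⟩ : ∃ C, ∀ z, ‖fderiv ℝ b z‖ ≤ C :=
    (b.hasCompactSupport.fderiv (𝕜 := ℝ)).exists_bound_of_continuous (hb1.continuous_fderiv one_ne_zero)
  have hC0 : 0 ≤ C := (norm_nonneg _).trans (hC 0)
  set ε' := ε / (1 + 2 * C) with hε'
  have hε'0 : 0 < ε' := by positivity
  -- the remainder
  set f : ℂ → ℂ := fun z => F z - diagL l m z with hf
  have hfc : ContDiffOn ℝ 1 f U := hF.sub (diagL l m).contDiff.contDiffOn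
  have hFd : ∀ z ∈ U, DifferentiableAt ℝ F z := fun z hz =>
    (hF.differentiableOn one_ne_zero).differentiableAt (hU.mem_nhds hz)
  have hfd : ∀ z ∈ U, HasFDerivAt f (fderiv ℝ F z - diagL l m) z := fun z hz =>
    (hFd z hz).hasFDerivAt.sub (diagL l m).hasFDerivAt
  have hcd : ContinuousOn (fun z => fderiv ℝ F z - diagL l m) U :=
    (hF.continuousOn_fderiv_of_isOpen hU le_rfl).sub continuousOn_const
  have hev : ∀ᶠ z in 𝓝 (0:ℂ), z ∈ U ∧ ‖fderiv ℝ F z - diagL l m‖ < ε' := by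
    have h1 : ContinuousAt (fun z => fderiv ℝ F z - diagL l m) 0 := hcd.continuousAt (hU.mem_nhds h0)
    have h2 : ContinuousAt (fun z => ‖fderiv ℝ F z - diagL l m‖) 0 := h1.norm
    have h3 : ‖fderiv ℝ F 0 - diagL l m‖ < ε' := by rw [hd, sub_self, norm_zero]; exact hε'0
    have h4 : ∀ᶠ z in 𝓝 (0:ℂ), z ∈ U := hU.mem_nhds h0
    exact h4.and (h2.eventually_lt continuousAt_const h3)
  obtain ⟨R, hR, hRb⟩ := Metric.eventually_nhds_iff_ball.1 hev
  set ρ := R / 4 with hρ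
  have hρ0 : 0 < ρ := by positivity
  have hball : ∀ z, ‖z‖ ≤ 2 * ρ → z ∈ ball (0:ℂ) R := by
    intro z hz
    rw [mem_ball_zero_iff]
    rw [hρ] at hz
    linarith
  have hfz : ∀ z, ‖z‖ ≤ 2 * ρ → ‖f z‖ ≤ ε' * (2 * ρ) := by
    intro z hz
    have h1 := (convex_ball (0:ℂ) R).norm_image_sub_le_of_norm_hasFDerivWithin_le
      (f := f) (f' := fun z => fderiv ℝ F z - diagL l m) (C := ε') (x := 0) (y := z)
      (fun x hx => (hfd x (hRb x hx).1).hasFDerivWithinAt) (fun x hx => (hRb x hx).2.le)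
      (mem_ball_self hR) (hball z hz)
    have h2 : f 0 = 0 := by simp [hf, hF0]
    rw [h2, sub_zero, sub_zero] at h1
    exact h1.trans (mul_le_mul_of_nonneg_left hz hε'0.le)
  -- the scaled bump function
  set g : ℂ → ℝ := fun z => b (ρ⁻¹ • z) with hg
  have hgc : ContDiff ℝ 1 g := hb1.comp (contDiff_const_smul ρ⁻¹)
  have hgd : ∀ z, ‖fderiv ℝ g z‖ ≤ ρ⁻¹ * C := by
    intro z
    have h1 : fderiv ℝ g z = ρ⁻¹ • fderiv ℝ b (ρ⁻¹ • z) := by
      rw [hg]
      exact fderiv_comp_smul ρ⁻¹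
    rw [h1, norm_smul, Real.norm_of_nonneg (inv_pos.2 hρ0).le]
    exact mul_le_mul_of_nonneg_left (hC _) (inv_pos.2 hρ0).le
  have hg01 : ∀ z, |g z| ≤ 1 := fun z => by
    rw [abs_of_nonneg b.nonneg]; exact b.le_one
  have hgz : ∀ z, 2 * ρ ≤ ‖z‖ → g z = 0 := by
    intro z hz
    apply b.zero_of_le_dist
    rw [dist_zero_right, norm_smul, Real.norm_of_nonneg (inv_pos.2 hρ0).le]
    change (2:ℝ) ≤ ρ⁻¹ * ‖z‖
    rw [inv_mul_eq_div, le_div_iff₀ hρ0]
    exact hz
  have hg1 : ∀ z, ‖z‖ ≤ ρ → g z = 1 := by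
    intro z hz
    apply b.one_of_mem_closedBall
    rw [mem_closedBall_zero_iff, norm_smul, Real.norm_of_nonneg (inv_pos.2 hρ0).le]
    change ρ⁻¹ * ‖z‖ ≤ (1:ℝ)
    rw [inv_mul_le_iff₀ hρ0, mul_one]
    exact hz
  have hout : ∀ z, 2 * ρ < ‖z‖ → (fun z => diagL l m z + g z • f z) =ᶠ[𝓝 z] diagL l m := by
    intro z hz
    have : ∀ᶠ y in 𝓝 z, 2 * ρ < ‖y‖ := (continuous_norm.tendsto z).eventually_const_lt hz
    filter_upwards [this] with y hy
    rw [hgz y hy.le, zero_smul, add_zero]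
  refine ⟨fun z => diagL l m z + g z • f z, ⟨?_, ?_, ?_, ?_⟩, ?_⟩
  · rw [contDiff_iff_contDiffAt]
    intro z
    by_cases hz : ‖z‖ ≤ 2 * ρ
    · have hzU : z ∈ U := (hRb z (hball z hz)).1
      exact (diagL l m).contDiff.contDiffAt.add
        (hgc.contDiffAt.smul (hfc.contDiffAt (hU.mem_nhds hzU)))
    · push Not at hz
      exact (diagL l m).contDiff.contDiffAt.congr_of_eventuallyEq (hout z hz)
  · simp [hf, hF0]
  · intro z
    by_cases hz : ‖z‖ ≤ 2 * ρ
    · have hzB := hRb z (hball z hz)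
      have h1 : HasFDerivAt (fun z => diagL l m z + g z • f z)
          (diagL l m + (g z • (fderiv ℝ F z - diagL l m) + (fderiv ℝ g z).smulRight (f z))) z :=
        (diagL l m).hasFDerivAt.add
          (((hgc.differentiable one_ne_zero) z).hasFDerivAt.smul (hfd z hzB.1))
      rw [h1.fderiv, add_sub_cancel_left]
      calc ‖g z • (fderiv ℝ F z - diagL l m) + (fderiv ℝ g z).smulRight (f z)‖
          ≤ ‖g z • (fderiv ℝ F z - diagL l m)‖ + ‖(fderiv ℝ g z).smulRight (f z)‖ := norm_add_le _ _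
        _ ≤ 1 * ε' + (ρ⁻¹ * C) * (ε' * (2 * ρ)) := by
            rw [norm_smul, ContinuousLinearMap.norm_smulRight_apply]
            refine add_le_add (mul_le_mul (hg01 z) hzB.2.le (norm_nonneg _) zero_le_one)
              (mul_le_mul (hgd z) (hfz z hz) (norm_nonneg _) (by positivity))
        _ = ε := by
            rw [hε']
            have : 1 + 2 * C ≠ 0 := by positivity
            field_simp
    · push Not at hz
      rw [(hout z hz).fderiv_eq, ContinuousLinearMap.fderiv, sub_self, norm_zero]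
      exact hε.le
  · refine ⟨ε' * (2 * ρ), fun z => ?_⟩
    simp only [add_sub_cancel_left]
    by_cases hz : ‖z‖ ≤ 2 * ρ
    · rw [norm_smul]
      calc ‖g z‖ * ‖f z‖ ≤ 1 * (ε' * (2 * ρ)) :=
            mul_le_mul (hg01 z) (hfz z hz) (norm_nonneg _) zero_le_one
        _ = ε' * (2 * ρ) := one_mul _
    · push Not at hz
      rw [hgz z hz.le, zero_smul, norm_zero]
      positivity
  · have : ∀ᶠ z in 𝓝 (0:ℂ), ‖z‖ < ρ := by
      have := ball_mem_nhds (0:ℂ) hρ0
      filter_upwards [this] with z hz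
      simpa using hz
    filter_upwards [this] with z hz
    rw [hg1 z hz.le, one_smul, hf]
    simp

theorem FD_congr {G G' : ℂ → ℂ} {r lp km kp : ℝ} (h : HypLoc G r lp km kp)
    (he : ∀ z ∈ Sq r, G' z = G z) : HypLoc G' r lp km kp where
  hr := h.hr
  hlp := h.hlp
  hlp1 := h.hlp1
  hkm := h.hkm
  hkp := h.hkp
  cont := h.cont.congr he
  re0 := fun z hz hz0 => by rw [he z hz]; exact h.re0 z hz hz0
  repos := fun z hz hz0 => by rw [he z hz]; exact h.repos z hz hz0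
  reneg := fun z hz hz0 => by rw [he z hz]; exact h.reneg z hz hz0
  im0 := fun z hz hz0 => by rw [he z hz]; exact h.im0 z hz hz0
  impos := fun z hz hz0 => by rw [he z hz]; exact h.impos z hz hz0
  imneg := fun z hz hz0 => by rw [he z hz]; exact h.imneg z hz hz0
  mono := fun z hz w hw h1 h2 => by rw [he z hz, he w hw]; exact h.mono z hz w hw h1 h2

theorem FD_sq {r : ℝ} {z : ℂ} (hz : z ∈ Sq r) : ‖z‖ ≤ 2 * r := by
  obtain ⟨h1, h2, h3, h4⟩ := hz
  calc ‖z‖ ≤ |z.re| + |z.im| := Complex.norm_le_abs_re_add_abs_im z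
    _ ≤ r + r := add_le_add (abs_le.2 ⟨h1, h2⟩) (abs_le.2 ⟨h3, h4⟩)
    _ = 2 * r := by ring

theorem planar_hyp {U : Set ℂ} (hU : IsOpen U) (h0 : (0:ℂ) ∈ U) {F : ℂ → ℂ}
    (hF : ContDiffOn ℝ 1 F U) (hF0 : F 0 = 0) (hdet : (fderiv ℝ F 0).det = 1)
    (htr : 2 < LinearMap.trace ℝ ℂ (fderiv ℝ F 0 : ℂ →ₗ[ℝ] ℂ)) :
    ∃ (Φ Φi : ℂ → ℂ) (r lp km kp : ℝ), ContDiff ℝ 1 Φ ∧ ContDiff ℝ 1 Φi ∧ (∀ z, Φi (Φ z) = z) ∧
      (∀ z, Φ (Φi z) = z) ∧ Φ 0 = 0 ∧ HypLoc (fun w => Φ (F (Φi w))) r lp km kp ∧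
      ∀ w ∈ Sq r, Φi w ∈ U := by
  obtain ⟨L, l, m, hl, hl1, hm, hL⟩ := diagonalize hdet htr
  obtain ⟨ε, hε, hgs⟩ := global_straight hl hl1 hm
  set U₁ : Set ℂ := L.symm ⁻¹' U with hU₁
  have hU₁o : IsOpen U₁ := hU.preimage L.symm.continuous
  have h0₁ : (0:ℂ) ∈ U₁ := by rw [hU₁, mem_preimage, map_zero]; exact h0
  set F₁ : ℂ → ℂ := fun z => L (F (L.symm z)) with hF₁
  have hF₁c : ContDiffOn ℝ 1 F₁ U₁ :=
    L.contDiff.comp_contDiffOn (hF.comp L.symm.contDiff.contDiffOn (fun z hz => hz))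
  have hF₁0 : F₁ 0 = 0 := by rw [hF₁]; simp [hF0]
  have hF₁d : fderiv ℝ F₁ 0 = diagL l m := by
    have h1 : HasFDerivAt F (fderiv ℝ F 0) (L.symm 0) := by
      rw [map_zero]
      exact ((hF.differentiableOn one_ne_zero).differentiableAt (hU.mem_nhds h0)).hasFDerivAt
    have h2 : HasFDerivAt F₁ ((L : ℂ →L[ℝ] ℂ).comp ((fderiv ℝ F 0).comp (L.symm : ℂ →L[ℝ] ℂ))) 0 :=
      L.hasFDerivAt.comp 0 (h1.comp 0 L.symm.hasFDerivAt)
    rw [h2.fderiv]
    ext z : 1
    · exact hL z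
  obtain ⟨F', hF', hFF'⟩ := cutoff hU₁o h0₁ hF₁c hF₁0 hF₁d hε
  obtain ⟨Ψ, Ψi, lp, km, kp, hΨ, hΨi, hi1, hi2, hΨ0, hH⟩ := hgs F' hF'
  have hΨi0 : Ψi 0 = 0 := by
    have := hi1 0
    rwa [hΨ0] at this
  have hev : ∀ᶠ z in 𝓝 (0:ℂ), F' z = F₁ z ∧ z ∈ U₁ :=
    hFF'.and (hU₁o.mem_nhds h0₁)
  have hev2 : ∀ᶠ w in 𝓝 (0:ℂ), F' (Ψi w) = F₁ (Ψi w) ∧ Ψi w ∈ U₁ := by
    have : Tendsto Ψi (𝓝 0) (𝓝 0) := by
      have := hΨi.continuous.tendsto 0
      rwa [hΨi0] at this
    exact this.eventually hev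
  obtain ⟨R, hR, hRb⟩ := Metric.eventually_nhds_iff_ball.1 hev2
  have hr : 0 < R / 4 := by positivity
  have hsq : ∀ w ∈ Sq (R / 4), w ∈ ball (0:ℂ) R := by
    intro w hw
    have := FD_sq hw
    rw [mem_ball_zero_iff]
    linarith
  refine ⟨fun z => Ψ (L z), fun w => L.symm (Ψi w), R / 4, lp, km, kp, hΨ.comp L.contDiff,
    L.symm.contDiff.comp hΨi, fun z => ?_, fun z => ?_, ?_, ?_, ?_⟩
  · simp only [hi1, L.symm_apply_apply]
  · simp only [L.apply_symm_apply, hi2]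
  · simp only [map_zero, hΨ0]
  · refine FD_congr (hH (R / 4) hr) (fun w hw => ?_)
    rw [(hRb w (hsq w hw)).1]
  · intro w hw
    exact (hRb w (hsq w hw)).2

end DS
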