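import Pool.Agent.H36.DS.XA
import Pool.Agent.H36.DS.SV
import Pool.Agent.H36.DS.FD

/-!
SH (normal charts at fixed points of a `C¹` diffeomorphism of the sphere).
`hyp_chart`: take a stereographic chart `(p, q)` with pole `O` (`exists_SC`), compose with the translation to get
`χ₀ = p - p P`, `κ₀ z = q (z + p P)` (a `PC1` chart, `pc1_plane`), `κ₀ 0 = P`.  `F z = χ₀ (g (κ₀ z))` is `C¹` on the open set
`U = {z | g (κ₀ z) ≠ O} ∋ 0` (`chart_c1`), `F 0 = 0`; by `chart_deriv` its derivative at `0` has determinant one and trace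
`tr g 1 P > 2`.  Apply `planar_hyp`; `χ = Φ ∘ χ₀`, `κ = κ₀ ∘ Φi` (`pc1_plane`), `κ 0 = P` as `Φi 0 = 0`.
`ell_chart`: the derivative `B` of `F` at `0` satisfies `B² - t B + 1 = 0`, `|t| < 2`; put `cos θ = t/2`, `θ ∈ (0, π)`,
`J = (B - cos θ)/ sin θ`, `J² = -1`; let `L : ℂ ≃L[ℝ] ℂ` be the map with `L (x + y J 1) = x + y i`
(`1` and `J 1` are linearly independent over `ℝ`); then `L B L⁻¹ = cos θ + i sin θ =: ω` (multiplication); `ω ≠ 1`, `‖ω‖ = 1`.
`χ = L ∘ χ₀`, `κ = κ₀ ∘ L⁻¹`; `χ (g (κ z)) / z → ω` from differentiability at `0`.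
-/

namespace DS
open Metric Set Filter Topology Function
open scoped Manifold ContDiff

/-- a chart with `κ 0 = P` -/
theorem SH_chart0 {P O : S2} (hO : P ≠ O) :
    ∃ (χ : S2 → ℂ) (κ : ℂ → S2), PC1 O χ κ ∧ κ 0 = P ∧ χ P = 0 := by
  obtain ⟨p, q, h⟩ := exists_SC O
  have h1 := pc1_plane (pc1_of_SC h) (Φ := fun z => z - p P) (Φi := fun z => z + p P)
    (contDiff_id.sub contDiff_const) (contDiff_id.add contDiff_const)
    (fun z => by simp) (fun z => by simp)
  refine ⟨_, _, h1, ?_, ?_⟩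
  · simp only [zero_add]
    exact h.qp P hO
  · simp

theorem hyp_chart {g : S2 → S2} (hg : ContMDiff (𝓡 2) (𝓡 2) 1 g) {P O : S2} (hP : g P = P)
    (hO : P ≠ O) (hdet : (iterDeriv g 1 P).det = 1) (htr : 2 < tr g 1 P) :
    ∃ (χ : S2 → ℂ) (κ : ℂ → S2) (r lp km kp : ℝ), PC1 O χ κ ∧ κ 0 = P ∧
      HypLoc (fun w => χ (g (κ w))) r lp km kp ∧ ∀ w ∈ Sq r, g (κ w) ≠ O := by
  obtain ⟨χ, κ, h, hκ, hχ⟩ := SH_chart0 hO
  obtain ⟨hU, hF⟩ := chart_c1 h hg
  obtain ⟨B, hB, hB1, hB2⟩ := chart_deriv h hg hP hO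
  rw [hχ] at hB
  have h0 : (0 : ℂ) ∈ {z | g (κ z) ≠ O} := by
    show g (κ 0) ≠ O
    rw [hκ, hP]
    exact hO
  have hF0 : (fun z => χ (g (κ z))) 0 = 0 := by
    show χ (g (κ 0)) = 0
    rw [hκ, hP, hχ]
  have hfd := hB.fderiv
  obtain ⟨Φ, Φi, r, lp, km, kp, c1, c2, c3, c4, c5, c6, c7⟩ := planar_hyp hU h0 hF hF0
    (by rw [hfd, hB1, hdet]) (by rw [hfd, hB2]; exact htr)
  refine ⟨fun x => Φ (χ x), fun z => κ (Φi z), r, lp, km, kp, pc1_plane h c1 c2 c3 c4, ?_, c6, ?_⟩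
  · show κ (Φi 0) = P
    rw [← c5, c3, hκ]
  · intro w hw
    exact c7 w hw

/-- entries of a real linear map of the plane -/
theorem SH_entries (B : ℂ →L[ℝ] ℂ) : B.det = (B 1).re * (B Complex.I).im - (B Complex.I).re * (B 1).im ∧
    LinearMap.trace ℝ ℂ (B : ℂ →ₗ[ℝ] ℂ) = (B 1).re + (B Complex.I).im := by
  constructor
  · unfold ContinuousLinearMap.det
    rw [← LinearMap.det_toMatrix Complex.basisOneI, Matrix.det_fin_two]
    simp [LinearMap.toMatrix_apply]
  · rw [LinearMap.trace_eq_matrix_trace ℝ Complex.basisOneI, Matrix.trace_fin_two]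
    simp [LinearMap.toMatrix_apply]

theorem SH_apply (B : ℂ →L[ℝ] ℂ) (z : ℂ) : B z = (z.re : ℂ) * B 1 + (z.im : ℂ) * B Complex.I := by
  have h : z = z.re • (1 : ℂ) + z.im • Complex.I := by
    apply Complex.ext <;> simp
  conv_lhs => rw [h]
  rw [map_add, map_smul, map_smul, Complex.real_smul, Complex.real_smul]

/-- the linear map with `(x, y) ↦ (x + u y, v y)` -/
noncomputable def SH_lin (u v : ℝ) : ℂ →L[ℝ] ℂ :=
  LinearMap.toContinuousLinearMap
    { toFun := fun z => (⟨z.re + u * z.im, v * z.im⟩ : ℂ)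
      map_add' := by
        intro x y
        apply Complex.ext <;> simp <;> ring
      map_smul' := by
        intro c x
        apply Complex.ext <;> simp <;> ring }

theorem SH_lin_apply (u v : ℝ) (z : ℂ) : SH_lin u v z = ⟨z.re + u * z.im, v * z.im⟩ := rfl

theorem SH_conj {B : ℂ →L[ℝ] ℂ} (hdet : B.det = 1)
    (htr : |LinearMap.trace ℝ ℂ (B : ℂ →ₗ[ℝ] ℂ)| < 2) :
    ∃ (L M : ℂ →L[ℝ] ℂ) (w₁ : ℂ), (∀ z, L (M z) = z) ∧ (∀ z, M (L z) = z) ∧ ‖w₁‖ = 1 ∧ w₁ ≠ 1 ∧
      ∀ z, L (B (M z)) = w₁ * z := by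
  obtain ⟨e1, e2⟩ := SH_entries B
  rw [e1] at hdet
  rw [e2] at htr
  have hBz := SH_apply B
  set a := (B 1).re with ha
  set c := (B 1).im with hc
  set b := (B Complex.I).re with hb
  set d := (B Complex.I).im with hd
  have hB1 : B 1 = ⟨a, c⟩ := rfl
  have hBI : B Complex.I = ⟨b, d⟩ := rfl
  obtain ⟨ht1, ht2⟩ := abs_lt.1 htr
  have hc0 : c ≠ 0 := by
    intro h
    rw [h, mul_zero, sub_zero] at hdet
    nlinarith [sq_nonneg (a - d), sq_nonneg (a + d)]
  set t : ℝ := (a + d) / 2 with ht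
  have hts : t ^ 2 < 1 := by
    have h1 : -1 < t := by rw [ht]; linarith
    have h2 : t < 1 := by rw [ht]; linarith
    nlinarith
  set s : ℝ := Real.sqrt (1 - t ^ 2) with hs
  have hs0 : 0 < s := Real.sqrt_pos.2 (by linarith)
  have hs2 : s ^ 2 = 1 - t ^ 2 := Real.sq_sqrt (by linarith)
  refine ⟨SH_lin (-((a - t) / c)) (s / c), SH_lin ((a - t) / s) (c / s), ⟨t, s⟩, ?_, ?_, ?_, ?_, ?_⟩
  · intro z
    rw [SH_lin_apply, SH_lin_apply]
    apply Complex.ext
    · simp only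
      field_simp
      ring
    · simp only
      field_simp
  · intro z
    rw [SH_lin_apply, SH_lin_apply]
    apply Complex.ext
    · simp only
      field_simp
      ring
    · simp only
      field_simp
  · have h1 : ‖(⟨t, s⟩ : ℂ)‖ ^ 2 = 1 := by
      rw [Complex.sq_norm, Complex.normSq_mk]
      nlinarith
    have h2 := norm_nonneg (⟨t, s⟩ : ℂ)
    nlinarith
  · intro h
    have := congrArg Complex.im h
    simp at this
    exact hs0.ne' this
  · intro z
    rw [SH_lin_apply, SH_lin_apply, hBz, hB1, hBI]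
    have hd2 : d = 2 * t - a := by rw [ht]; ring
    have hbc : b * c = a * d - 1 := by linarith
    have hb' : b = (a * d - 1) / c := by rw [← hbc]; field_simp
    apply Complex.ext
    · simp only [Complex.mul_re, Complex.add_re, Complex.add_im, Complex.mul_im, Complex.ofReal_re,
        Complex.ofReal_im, zero_mul, sub_zero, add_zero]
      rw [hb', hd2]
      field_simp
      linear_combination (z.im) * hs2
    · simp only [Complex.add_im, Complex.mul_im, Complex.ofReal_re,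
        Complex.ofReal_im, zero_mul, add_zero]
      rw [hd2]
      field_simp
      ring

theorem ell_chart {g : S2 → S2} (hg : ContMDiff (𝓡 2) (𝓡 2) 1 g) {P O : S2} (hP : g P = P)
    (hO : P ≠ O) (hdet : (iterDeriv g 1 P).det = 1) (htr : |tr g 1 P| < 2) :
    ∃ (χ : S2 → ℂ) (κ : ℂ → S2) (w₁ : ℂ), PC1 O χ κ ∧ κ 0 = P ∧ ‖w₁‖ = 1 ∧ w₁ ≠ 1 ∧
      Tendsto (fun z => χ (g (κ z)) / z) (𝓝[≠] 0) (𝓝 w₁) := by
  obtain ⟨χ, κ, h, hκ, hχ⟩ := SH_chart0 hO
  obtain ⟨B, hB, hB1, hB2⟩ := chart_deriv h hg hP hO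
  rw [hχ] at hB
  obtain ⟨L, M, w₁, hLM, hML, hw1, hw2, hconj⟩ := SH_conj (B := B) (by rw [hB1, hdet])
    (by rw [hB2]; exact htr)
  refine ⟨fun x => L (χ x), fun z => κ (M z), w₁, pc1_plane h L.contDiff M.contDiff hML hLM, ?_,
    hw1, hw2, ?_⟩
  · show κ (M 0) = P
    rw [map_zero, hκ]
  · have hB' : HasFDerivAt (fun z => χ (g (κ z))) B (M 0) := by rw [map_zero]; exact hB
    have h1 : HasFDerivAt (fun z => χ (g (κ (M z)))) (B.comp M) 0 := hB'.comp 0 M.hasFDerivAt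
    have h2 : HasFDerivAt (fun z => L (χ (g (κ (M z))))) (L.comp (B.comp M)) 0 :=
      L.hasFDerivAt.comp 0 h1
    have h3 : HasFDerivAt (𝕜 := ℂ) (fun z => L (χ (g (κ (M z)))))
        (ContinuousLinearMap.toSpanSingleton ℂ w₁) 0 := by
      apply hasFDerivAt_of_restrictScalars ℝ h2
      ext z
      · simp only [ContinuousLinearMap.coe_restrictScalars', ContinuousLinearMap.toSpanSingleton_apply,
          ContinuousLinearMap.comp_apply, smul_eq_mul]
        rw [hconj, mul_comm]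
    have h4 := h3.hasDerivAt
    rw [ContinuousLinearMap.toSpanSingleton_apply, one_smul] at h4
    rw [hasDerivAt_iff_tendsto_slope_zero] at h4
    have h5 : L (χ (g (κ (M 0)))) = 0 := by
      rw [map_zero, hκ, hP, hχ, map_zero]
    refine h4.congr fun z => ?_
    rw [zero_add, h5, sub_zero, smul_eq_mul, div_eq_inv_mul]

end DS
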