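import Pool.Agent.H36.DS.PD
import Pool.Agent.H36.DS.PG

/-!
PL.  Proof.  Take a square `Rect (-s) s (-s) s` contained in `closedBall 0 r₁` (`area_meet`), not containing `φ 0`, with
`2 s < ε`; `exists_sep` gives a separating component `A`; by `area_meet` there is `z ∈ A` with `G z ∈ A`.
-/

namespace DS
open Metric Set Filter Topology MeasureTheory

theorem PL_norm {s : ℝ} {z : ℂ} (hz : z ∈ Rect (-s) s (-s) s) : ‖z‖ ≤ 2 * s := by
  obtain ⟨h1, h2, h3, h4⟩ := hz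
  have h5 : |z.re| ≤ s := abs_le.2 ⟨h1, h2⟩
  have h6 : |z.im| ≤ s := abs_le.2 ⟨h3, h4⟩
  have h7 := Complex.norm_le_abs_re_add_abs_im z
  linarith

theorem near_fixed {W : Set ℂ} {φ u G Gi : ℂ → ℂ} {μ : Measure ℂ} {ζ : ℂ} {r₀ : ℝ}
    (H : FixPE W φ u G Gi μ ζ r₀) : ∀ ε > 0, ∃ z ∈ W, ‖z‖ < ε ∧ ‖G z‖ < ε := by
  intro ε hε
  obtain ⟨r₁, hr₁, h⟩ := area_meet H
  have hφ0 : φ 0 ∈ W := H.φ_maps (mem_ball_self one_pos)
  have hne : φ 0 ≠ 0 := fun h0 => H.zero_notin (h0 ▸ hφ0)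
  have hn : 0 < ‖φ 0‖ := norm_pos_iff.2 hne
  obtain ⟨s, hs, hsε, hsr, hsn⟩ : ∃ s : ℝ, 0 < s ∧ 2 * s < ε ∧ 2 * s < r₁ ∧ 2 * s < ‖φ 0‖ := by
    refine ⟨min (min ε r₁) ‖φ 0‖ / 3, by positivity, ?_, ?_, ?_⟩
    · have := (min_le_left (min ε r₁) ‖φ 0‖).trans (min_le_left ε r₁)
      linarith
    · have := (min_le_left (min ε r₁) ‖φ 0‖).trans (min_le_right ε r₁)
      linarith
    · have := min_le_right (min ε r₁) ‖φ 0‖
      linarith
  have h0 : φ 0 ∉ Rect (-s) s (-s) s := fun hin => by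
    have := PL_norm hin
    linarith
  obtain ⟨w, hw, hsep⟩ := exists_sep H (neg_lt_zero.2 hs) hs (neg_lt_zero.2 hs) hs h0
  have hsub : Rect (-s) s (-s) s ⊆ closedBall 0 r₁ := fun z hz => by
    rw [mem_closedBall_zero_iff]
    have := PL_norm hz
    linarith
  obtain ⟨x, hx, z, hz, rfl⟩ := h (-s) s (-s) s (by linarith) (by linarith) hsub w hw hsep
  have hzs := connectedComponentIn_subset _ _ hz
  have hxs := connectedComponentIn_subset _ _ hx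
  refine ⟨z, hzs.2, ?_, ?_⟩
  · have := PL_norm hzs.1.1
    linarith
  · have := PL_norm hxs.1.1
    linarith

end DS
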