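import Pool.Agent.H36.DS.XBase

/-!
SM (multipliers of iterates).
`iterDeriv_iter`: `(f^[m])^[1] = f^[m]`.  `iterDeriv_pow`: chain rule `mfderiv_comp` at the fixed point of `f^[m]`, induction.
`tr_two`: for a linear map `A` of a two dimensional space with determinant one `A² - (tr A) A + 1 = 0`
(Cayley-Hamilton), so `tr (A²) = (tr A)² - 2`.
`trichotomy`: let `q = minimalPeriod f P`, `n = q k`, `A = iterDeriv f q P`, `det A = 1`; its characteristic polynomial is
`X² - t X + 1`, `t = tr A`, with complex roots `λ`, `λ⁻¹`; `Cond1` says that `λ^j ≠ 1` for all `j > 0`.  `tr (A^k) = λ^k + λ^{-k}`.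
If `|t| < 2`: `λ = e^{iθ}`, `tr (A^k) = 2 cos (kθ)`, and `λ^{2k} ≠ 1` gives `|2 cos (kθ)| < 2`.  `|t| = 2` is impossible
(`λ = ±1`, `λ² = 1`).  If `|t| > 2`: `λ` is real, `|λ| ≠ 1`, `P` is hyperbolic and `|λ^k + λ^{-k}| > 2`.
-/

namespace DS
open Metric Set Filter Topology Function MeasureTheory
open scoped Manifold ContDiff

theorem iterDeriv_iter (f : S2 → S2) (m : ℕ) (P : S2) :
    iterDeriv (f^[m]) 1 P = iterDeriv f m P := by
  unfold iterDeriv
  rw [Function.iterate_one]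

private theorem SM_iter {f : S2 → S2} (cf : ContMDiff (𝓡 2) (𝓡 2) 1 f) (k : ℕ) :
    ContMDiff (𝓡 2) (𝓡 2) 1 (f^[k]) := by
  induction k with
  | zero => exact contMDiff_id
  | succ k ih =>
    rw [Function.iterate_succ']
    exact cf.comp ih

private theorem SM_add {f : S2 → S2} (cf : ContMDiff (𝓡 2) (𝓡 2) 1 f) (a b : ℕ) (P : S2) :
    iterDeriv f (a + b) P = (iterDeriv f a (f^[b] P)).comp (iterDeriv f b P) := by
  unfold iterDeriv
  rw [Function.iterate_add]
  exact mfderiv_comp P ((SM_iter cf a).mdifferentiable (by norm_num) (f^[b] P))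
    ((SM_iter cf b).mdifferentiable (by norm_num) P)

theorem iterDeriv_pow {f : S2 → S2} (cf : ContMDiff (𝓡 2) (𝓡 2) 1 f) {m : ℕ} {P : S2}
    (hP : f^[m] P = P) (k : ℕ) :
    (iterDeriv f (m * k) P : E2 →ₗ[ℝ] E2) = (iterDeriv f m P : E2 →ₗ[ℝ] E2) ^ k := by
  induction k with
  | zero =>
    rw [Nat.mul_zero, pow_zero]
    unfold iterDeriv
    rw [Function.iterate_zero, mfderiv_id]
    rfl
  | succ k ih =>
    rw [Nat.mul_succ, SM_add cf, hP, pow_succ, ← ih]
    rfl

private theorem SM_charpoly (A : E2 →ₗ[ℝ] E2) (hA : LinearMap.det A = 1) :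
    A.charpoly = Polynomial.X ^ 2 - Polynomial.C (LinearMap.trace ℝ E2 A) * Polynomial.X + 1 := by
  have b : Module.Basis (Fin 2) ℝ E2 := (EuclideanSpace.basisFun (Fin 2) ℝ).toBasis
  rw [← LinearMap.charpoly_toMatrix A b, Matrix.charpoly_fin_two, LinearMap.trace_eq_matrix_trace ℝ b A,
    LinearMap.det_toMatrix, hA, map_one]

private theorem SM_sq (A : E2 →ₗ[ℝ] E2) (hA : LinearMap.det A = 1) :
    A ^ 2 = (LinearMap.trace ℝ E2 A) • A - 1 := by
  have h := LinearMap.aeval_self_charpoly A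
  rw [SM_charpoly A hA] at h
  simp only [map_add, map_sub, map_mul, map_pow, Polynomial.aeval_X, Polynomial.aeval_C, map_one,
    Module.algebraMap_end_eq_smul_id] at h
  have h2 : (LinearMap.trace ℝ E2 A • LinearMap.id) * A = LinearMap.trace ℝ E2 A • A := by
    ext x
    rfl
  rw [h2] at h
  have h3 : A ^ 2 = (A ^ 2 - (LinearMap.trace ℝ E2 A) • A + 1) + ((LinearMap.trace ℝ E2 A) • A - 1) := by
    abel
  rw [h, zero_add] at h3
  exact h3

private theorem SM_tr_one : LinearMap.trace ℝ E2 (1 : E2 →ₗ[ℝ] E2) = 2 := by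
  rw [LinearMap.trace_one]
  simp

private theorem SM_rec (A : E2 →ₗ[ℝ] E2) (hA : LinearMap.det A = 1) (k : ℕ) :
    LinearMap.trace ℝ E2 (A ^ (k + 2)) =
      LinearMap.trace ℝ E2 A * LinearMap.trace ℝ E2 (A ^ (k + 1)) - LinearMap.trace ℝ E2 (A ^ k) := by
  have h : A ^ (k + 2) = (LinearMap.trace ℝ E2 A) • A ^ (k + 1) - A ^ k := by
    rw [pow_add, SM_sq A hA, mul_sub, mul_one, mul_smul_comm, ← pow_succ]
  rw [h, map_sub, map_smul, smul_eq_mul]

private theorem SM_complex (A : E2 →ₗ[ℝ] E2) (hA : LinearMap.det A = 1) (z : ℂ) (hz0 : z ≠ 0)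
    (hz : z + z⁻¹ = ((LinearMap.trace ℝ E2 A : ℝ) : ℂ)) (k : ℕ) :
    ((LinearMap.trace ℝ E2 (A ^ k) : ℝ) : ℂ) = z ^ k + z⁻¹ ^ k ∧
    ((LinearMap.trace ℝ E2 (A ^ (k + 1)) : ℝ) : ℂ) = z ^ (k + 1) + z⁻¹ ^ (k + 1) := by
  induction k with
  | zero =>
    refine ⟨?_, ?_⟩
    · rw [pow_zero, SM_tr_one]
      norm_num
    · rw [zero_add, pow_one, pow_one, pow_one, hz]
  | succ k ih =>
    refine ⟨ih.2, ?_⟩
    rw [show k + 1 + 1 = k + 2 by ring, SM_rec A hA k]
    push_cast
    rw [ih.1, ih.2, ← hz]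
    have h1 : z * z⁻¹ = 1 := mul_inv_cancel₀ hz0
    have e1 : z * z⁻¹ ^ (k + 1) = z⁻¹ ^ k := by
      rw [pow_succ', ← mul_assoc, h1, one_mul]
    have e2 : z⁻¹ * z ^ (k + 1) = z ^ k := by
      rw [pow_succ', ← mul_assoc, inv_mul_cancel₀ hz0, one_mul]
    have e3 : z * z ^ (k + 1) = z ^ (k + 2) := (pow_succ' z (k + 1)).symm
    have e4 : z⁻¹ * z⁻¹ ^ (k + 1) = z⁻¹ ^ (k + 2) := (pow_succ' z⁻¹ (k + 1)).symm
    linear_combination e1 + e2 + e3 + e4

theorem tr_two {f fi : S2 → S2} {ν : Measure S2} (hS : Sys f fi ν) {m : ℕ} {P : S2}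
    (hP : f^[m] P = P) : tr f (2 * m) P = tr f m P ^ 2 - 2 := by
  have hA : LinearMap.det (iterDeriv f m P : E2 →ₗ[ℝ] E2) = 1 := hS.det1 P m hP
  unfold tr
  rw [Nat.mul_comm, iterDeriv_pow hS.cf hP 2]
  have h := SM_rec _ hA 0
  rw [zero_add, zero_add, pow_one, pow_zero, SM_tr_one] at h
  rw [h]
  ring

private theorem SM_root (A : E2 →ₗ[ℝ] E2) (hA : LinearMap.det A = 1) (μ : ℂ) :
    μ ∈ (A.charpoly.map (algebraMap ℝ ℂ)).roots ↔
      μ ^ 2 - ((LinearMap.trace ℝ E2 A : ℝ) : ℂ) * μ + 1 = 0 := by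
  have hne : A.charpoly.map (algebraMap ℝ ℂ) ≠ 0 :=
    ((LinearMap.charpoly_monic A).map _).ne_zero
  rw [Polynomial.mem_roots hne, Polynomial.IsRoot, SM_charpoly A hA]
  simp

/-- real trace at most `2` forces modulus one -/
private theorem SM_norm (w : ℂ) (T : ℝ) (hT : |T| ≤ 2) (hw : w ^ 2 - (T : ℂ) * w + 1 = 0) : ‖w‖ = 1 := by
  have hre := congrArg Complex.re hw
  have him := congrArg Complex.im hw
  simp only [Complex.add_re, Complex.sub_re, Complex.mul_re, Complex.ofReal_re, Complex.ofReal_im,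
    Complex.one_re, Complex.zero_re, pow_two, zero_mul, sub_zero] at hre
  simp only [Complex.add_im, Complex.sub_im, Complex.mul_im, Complex.ofReal_re, Complex.ofReal_im,
    Complex.one_im, Complex.zero_im, pow_two, zero_mul, add_zero] at him
  have hT2 : T ^ 2 ≤ 4 := by
    have := sq_le_sq' (abs_le.mp hT).1 (abs_le.mp hT).2
    linarith
  have hsq : w.re ^ 2 + w.im ^ 2 = 1 := by
    have h1 : w.im * (2 * w.re - T) = 0 := by linarith
    rcases mul_eq_zero.mp h1 with h2 | h2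
    · have h3 : (w.re - T / 2) ^ 2 = T ^ 2 / 4 - 1 := by
        rw [h2] at hre
        nlinarith
      have h4 : (w.re - T / 2) ^ 2 = 0 := le_antisymm (by linarith) (sq_nonneg _)
      have h5 : w.re = T / 2 := by
        have := pow_eq_zero_iff (n := 2) (by norm_num) |>.mp h4
        linarith
      rw [h2, h5]
      nlinarith
    · have h5 : T = 2 * w.re := by linarith
      rw [h5] at hre
      nlinarith
  have h6 : ‖w‖ ^ 2 = 1 := by
    rw [← Complex.normSq_eq_norm_sq, Complex.normSq_apply]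
    nlinarith
  exact (pow_eq_one_iff_of_nonneg (norm_nonneg w) (by norm_num)).mp h6

theorem trichotomy {f fi : S2 → S2} {ν : Measure S2} (hS : Sys f fi ν) {n : ℕ} (hn : 0 < n)
    {P : S2} (hP : f^[n] P = P) : |tr f n P| < 2 ∨ (Hyperbolic f P ∧ 2 < |tr f n P|) := by
  have hper : P ∈ periodicPts f := mk_mem_periodicPts hn hP
  obtain ⟨q, hq⟩ : ∃ q, q = minimalPeriod f P := ⟨_, rfl⟩
  have hqP : f^[q] P = P := by rw [hq]; exact iterate_minimalPeriod
  obtain ⟨k, hk⟩ : q ∣ n := by rw [hq]; exact IsPeriodicPt.minimalPeriod_dvd hP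
  have hk0 : 0 < k := by
    rcases Nat.eq_zero_or_pos k with h | h
    · rw [h, Nat.mul_zero] at hk; omega
    · exact h
  set A : E2 →ₗ[ℝ] E2 := (iterDeriv f q P : E2 →ₗ[ℝ] E2) with hAdef
  have hA : LinearMap.det A = 1 := hS.det1 P q hqP
  have htr : tr f n P = LinearMap.trace ℝ E2 (A ^ k) := by
    unfold tr
    rw [hk, iterDeriv_pow hS.cf hqP k]
  have hmult : ∀ μ : ℂ, IsMultiplier f P μ ↔ μ ^ 2 - ((LinearMap.trace ℝ E2 A : ℝ) : ℂ) * μ + 1 = 0 := by
    intro μ
    unfold IsMultiplier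
    rw [← hq]
    exact SM_root A hA μ
  -- a root
  obtain ⟨z, hz⟩ : ∃ z : ℂ, z ^ 2 - ((LinearMap.trace ℝ E2 A : ℝ) : ℂ) * z + 1 = 0 := by
    obtain ⟨s, hs⟩ := IsAlgClosed.exists_pow_nat_eq
      (((LinearMap.trace ℝ E2 A : ℝ) : ℂ) ^ 2 - 4) (n := 2) (by norm_num)
    refine ⟨(((LinearMap.trace ℝ E2 A : ℝ) : ℂ) + s) / 2, ?_⟩
    linear_combination (1 / 4) * hs
  have hz0 : z ≠ 0 := by
    rintro rfl
    norm_num at hz
  have hzz : z + z⁻¹ = ((LinearMap.trace ℝ E2 A : ℝ) : ℂ) := by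
    field_simp
    linear_combination hz
  have hT := (SM_complex A hA z hz0 hzz k).1
  rw [← htr] at hT
  by_cases hnorm : ‖z‖ = 1
  · left
    set w := z ^ k with hw
    have hwn : ‖w‖ = 1 := by rw [hw, norm_pow, hnorm, one_pow]
    have hwinv : z⁻¹ ^ k = (starRingEnd ℂ) w := by
      rw [inv_pow, ← hw, Complex.inv_def, Complex.normSq_eq_norm_sq, hwn]
      simp
    rw [hwinv, Complex.add_conj] at hT
    have hT' : tr f n P = 2 * w.re := by exact_mod_cast hT
    have hre : |w.re| ≤ 1 := by rw [← hwn]; exact Complex.abs_re_le_norm w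
    have hne : |w.re| ≠ 1 := by
      intro h1
      have h2 : w.re ^ 2 = 1 := by rw [← sq_abs, h1, one_pow]
      have h3 : w.re ^ 2 + w.im ^ 2 = 1 := by
        have : ‖w‖ ^ 2 = 1 := by rw [hwn, one_pow]
        rw [← Complex.normSq_eq_norm_sq, Complex.normSq_apply] at this
        nlinarith
      have h4 : w.im = 0 := by
        have : w.im ^ 2 = 0 := by linarith
        exact pow_eq_zero_iff (n := 2) (by norm_num) |>.mp this
      have h5 : w ^ 2 = 1 := by
        apply Complex.ext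
        · rw [pow_two, Complex.mul_re, h4]
          simp only [mul_zero, sub_zero, Complex.one_re]
          nlinarith
        · rw [pow_two, Complex.mul_im, h4]
          simp
      have h6 : z ^ (k * 2) = 1 := by rw [pow_mul, ← hw]; exact h5
      exact hS.h1 P hper z ((hmult z).2 hz) (k * 2) (by omega) h6
    rw [hT', abs_mul, abs_two]
    have := lt_of_le_of_ne hre hne
    linarith
  · right
    constructor
    · refine ⟨hper, fun μ hμ => ?_⟩
      have h1 := (hmult μ).1 hμ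
      have h2 : (μ - z) * (μ - z⁻¹) = 0 := by
        have h3 : z * z⁻¹ = 1 := mul_inv_cancel₀ hz0
        rw [← hzz] at h1
        linear_combination h1 + h3
      rcases mul_eq_zero.mp h2 with h3 | h3
      · rw [sub_eq_zero.mp h3]; exact hnorm
      · rw [sub_eq_zero.mp h3, norm_inv]
        intro h4
        exact hnorm (inv_eq_one.mp h4)
    · by_contra hcon
      push Not at hcon
      set w := z ^ k with hw
      have hw0 : w ≠ 0 := pow_ne_zero _ hz0
      have hroot : w ^ 2 - ((tr f n P : ℝ) : ℂ) * w + 1 = 0 := by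
        rw [hT, inv_pow, ← hw]
        field_simp
        ring
      have h1 := SM_norm w (tr f n P) hcon hroot
      rw [hw, norm_pow] at h1
      exact hnorm ((pow_eq_one_iff_of_nonneg (norm_nonneg z) hk0.ne').mp h1)

end DS
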