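import Pool.Agent.H36.DS.SV
import Pool.Agent.H36.DS.SM

/-!
SW (local stable and unstable sets).
`stable_iter`: with `g = f^[M]`, `g P = P`: if `g^[n] x → P` then `dist (f^[n] x) (f^[n] P) → 0`
(write `n = M k + j`, `j < M`; the finitely many maps `f^[j]` are uniformly continuous on the compact sphere).
`axis_stable`: for `|x| ≤ r` the iterates under `G = χ ∘ g ∘ κ` of `(x, 0)` stay on the horizontal axis in `Sq r`
(`im0`, `repos`, `reneg`, `re0`) and tend to `0`; as `g (κ w) ≠ O` for `w ∈ Sq r`, `κ (G w) = g (κ w)`; so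
`g^[n] (κ ⟨x, 0⟩) → κ 0 = P`.
`axis_unstable`: for `0 < y ≤ r` there is `y' ∈ (0, y / km]` with `G ⟨0, y'⟩ = ⟨0, y⟩` (`re0`, intermediate value theorem,
`im0`, `impos`), so `gi (κ ⟨0, y⟩) = κ ⟨0, y'⟩`; iterate: `gi^[n] (κ ⟨0,y⟩) → P`; then `stable_iter` for `fi`.
`stable_back`: if `x ∈ stableSet f P`, `f^[M] P = P`, then `fi^[M * n] x ∈ stableSet f P`.
`hyp_of_tr`: from `trichotomy`.
-/

namespace DS
open Metric Set Filter Topology Function MeasureTheory
open scoped Manifold ContDiff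

theorem stable_iter {f : S2 → S2} (hf : Continuous f) {M : ℕ} (hM : 0 < M) {P x : S2}
    (hP : f^[M] P = P) (h : Tendsto (fun n : ℕ => (f^[M])^[n] x) atTop (𝓝 P)) :
    x ∈ stableSet f P := by
  show Tendsto (fun n : ℕ => dist (f^[n] x) (f^[n] P)) atTop (𝓝 0)
  rw [Metric.tendsto_nhds]
  intro ε hε
  have hj : ∀ j : ℕ, ∀ᶠ k : ℕ in atTop, dist (f^[j] ((f^[M])^[k] x)) (f^[j] P) < ε := by
    intro j
    have h1 : Tendsto (fun k : ℕ => f^[j] ((f^[M])^[k] x)) atTop (𝓝 (f^[j] P)) :=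
      ((hf.iterate j).tendsto P).comp h
    exact (Metric.tendsto_nhds.1 h1) ε hε
  have hall : ∀ᶠ k : ℕ in atTop, ∀ j ∈ Finset.range M,
      dist (f^[j] ((f^[M])^[k] x)) (f^[j] P) < ε := by
    rw [Filter.eventually_all_finset]
    intro j _
    exact hj j
  obtain ⟨K, hK⟩ := Filter.eventually_atTop.1 hall
  filter_upwards [Filter.eventually_ge_atTop (M * K)] with n hn
  have hk : K ≤ n / M := by
    rw [Nat.le_div_iff_mul_le hM]
    linarith [Nat.mul_comm M K]
  have hfix : ∀ k : ℕ, (f^[M])^[k] P = P := fun k => Function.iterate_fixed hP k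
  have e : ∀ z, f^[n] z = f^[n % M] ((f^[M])^[n / M] z) := by
    intro z
    rw [← Function.iterate_mul, ← Function.iterate_add_apply, Nat.mod_add_div]
  rw [Real.dist_eq, sub_zero, abs_of_nonneg dist_nonneg, e x, e P, hfix]
  exact hK _ hk _ (Finset.mem_range.2 (Nat.mod_lt _ hM))

theorem stable_back {f fi : S2 → S2} (hffi : ∀ x, f (fi x) = x) {M : ℕ} {P x : S2}
    (hP : f^[M] P = P) (h : x ∈ stableSet f P) (n : ℕ) : (fi^[M])^[n] x ∈ stableSet f P := by
  have h' : Tendsto (fun n : ℕ => dist (f^[n] x) (f^[n] P)) atTop (𝓝 0) := h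
  show Tendsto (fun k : ℕ => dist (f^[k] ((fi^[M])^[n] x)) (f^[k] P)) atTop (𝓝 0)
  rw [← tendsto_add_atTop_iff_nat (M * n)]
  refine h'.congr fun k => ?_
  have e1 : f^[M * n] P = P := by
    rw [Function.iterate_mul]
    exact Function.iterate_fixed hP n
  have e2 : f^[M * n] ((fi^[M])^[n] x) = x := by
    rw [← Function.iterate_mul]
    exact (Function.LeftInverse.iterate hffi (M * n)) x
  rw [Function.iterate_add_apply, Function.iterate_add_apply, e1, e2]

private theorem SW_squeeze {κ : ℂ → S2} (hκ : Continuous κ) {q : ℝ} (hq0 : 0 ≤ q) (hq : q < 1)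
    {P : S2} (h0 : κ 0 = P) {c : ℝ} {z : ℕ → ℂ} (hz : ∀ n, ‖z n‖ ≤ q ^ n * c) :
    Tendsto (fun n => κ (z n)) atTop (𝓝 P) := by
  rw [← h0]
  apply (hκ.tendsto 0).comp
  rw [tendsto_zero_iff_norm_tendsto_zero]
  refine squeeze_zero (fun n => norm_nonneg _) hz ?_
  have := (tendsto_pow_atTop_nhds_zero_of_lt_one hq0 hq).mul_const c
  rwa [zero_mul] at this

theorem axis_stable {f : S2 → S2} (hf : Continuous f) {M : ℕ} (hM : 0 < M) {O P : S2}
    {χ : S2 → ℂ} {κ : ℂ → S2} (hχ : PC1 O χ κ) (h0 : κ 0 = P) (hP : f^[M] P = P)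
    {r lp km kp : ℝ} (HL : HypLoc (fun w => χ (f^[M] (κ w))) r lp km kp)
    (hO : ∀ w ∈ Sq r, f^[M] (κ w) ≠ O) {x : ℝ} (hx : |x| ≤ r) :
    κ ⟨x, 0⟩ ∈ stableSet f P := by
  have hr := HL.hr
  have hlp := HL.hlp
  have hlp1 := HL.hlp1
  have hstep : ∀ x : ℝ, |x| ≤ r → ∃ x' : ℝ, |x'| ≤ lp * |x| ∧ f^[M] (κ ⟨x, 0⟩) = κ ⟨x', 0⟩ := by
    intro x hx
    have hS : (⟨x, 0⟩ : ℂ) ∈ Sq r := by
      have := abs_le.1 hx
      exact ⟨this.1, this.2, by simp only; linarith, by simp only; linarith⟩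
    refine ⟨(χ (f^[M] (κ ⟨x, 0⟩))).re, ?_, ?_⟩
    · rcases lt_trichotomy x 0 with h | h | h
      · have := HL.reneg _ hS h
        simp only at this
        rw [abs_of_neg h, abs_of_neg this.1]
        linarith [this.2]
      · have := HL.re0 _ hS h
        rw [this, abs_zero]
        positivity
      · have := HL.repos _ hS h
        simp only at this
        rw [abs_of_pos h, abs_of_pos this.1]
        linarith [this.2]
    · have him := HL.im0 _ hS rfl
      have e : (⟨(χ (f^[M] (κ ⟨x, 0⟩))).re, 0⟩ : ℂ) = χ (f^[M] (κ ⟨x, 0⟩)) :=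
        Complex.ext rfl him.symm
      rw [e, hχ.κχ _ (hO _ hS)]
  have hall : ∀ n : ℕ, ∃ x' : ℝ, |x'| ≤ lp ^ n * |x| ∧ (f^[M])^[n] (κ ⟨x, 0⟩) = κ ⟨x', 0⟩ := by
    intro n
    induction n with
    | zero => exact ⟨x, by simp, rfl⟩
    | succ n ih =>
      obtain ⟨x₁, h1, h2⟩ := ih
      have h3 : lp ^ n * |x| ≤ |x| := by
        have := pow_le_one₀ (n := n) hlp.le hlp1.le
        nlinarith [abs_nonneg x]
      obtain ⟨x₂, h4, h5⟩ := hstep x₁ (h1.trans (h3.trans hx))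
      refine ⟨x₂, ?_, ?_⟩
      · rw [pow_succ]
        nlinarith
      · rw [Function.iterate_succ_apply', h2, h5]
  choose z hz1 hz2 using hall
  apply stable_iter hf hM hP
  have hlim := SW_squeeze (z := fun n => (⟨z n, 0⟩ : ℂ)) hχ.κ_smooth.continuous hlp.le hlp1 h0
    (c := |x|) (fun n => by
      refine le_trans ?_ (hz1 n)
      have := Complex.norm_le_abs_re_add_abs_im (⟨z n, 0⟩ : ℂ)
      simpa using this)
  refine hlim.congr fun n => ?_
  rw [hz2 n]

theorem axis_unstable {f fi : S2 → S2} (hf : Continuous f) (hfi : Continuous fi)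
    (hffi : ∀ x, f (fi x) = x) (hfif : ∀ x, fi (f x) = x) {M : ℕ} (hM : 0 < M) {O P : S2}
    {χ : S2 → ℂ} {κ : ℂ → S2} (hχ : PC1 O χ κ) (h0 : κ 0 = P) (hP : f^[M] P = P)
    {r lp km kp : ℝ} (HL : HypLoc (fun w => χ (f^[M] (κ w))) r lp km kp)
    (hO : ∀ w ∈ Sq r, f^[M] (κ w) ≠ O) {y : ℝ} (hy : |y| ≤ r) :
    κ ⟨0, y⟩ ∈ stableSet fi P := by
  have hr := HL.hr
  have hkm := HL.hkm
  have hkm0 : 0 < km := by linarith
  have hS : ∀ y : ℝ, |y| ≤ r → (⟨0, y⟩ : ℂ) ∈ Sq r := by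
    intro y hy
    have := abs_le.1 hy
    exact ⟨by simp only; linarith, by simp only; linarith, this.1, this.2⟩
  have hcont : ContinuousOn (fun y : ℝ => (χ (f^[M] (κ ⟨0, y⟩))).im) {y | |y| ≤ r} := by
    have h1 : ContinuousOn (fun y : ℝ => χ (f^[M] (κ ⟨0, y⟩))) {y | |y| ≤ r} := by
      refine HL.cont.comp (f := fun y : ℝ => (⟨0, y⟩ : ℂ)) ?_ (fun y hy => hS y hy)
      have : (fun y : ℝ => (⟨0, y⟩ : ℂ)) = fun y : ℝ => (y : ℂ) * Complex.I := by
        funext y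
        apply Complex.ext <;> simp
      rw [this]
      fun_prop
    exact Complex.continuous_im.comp_continuousOn h1
  have hival : ∀ y' : ℝ, |y'| ≤ r → ∀ y : ℝ, (χ (f^[M] (κ ⟨0, y'⟩))).im = y →
      fi^[M] (κ ⟨0, y⟩) = κ ⟨0, y'⟩ := by
    intro y' hy' y h
    have hre := HL.re0 _ (hS y' hy') rfl
    have e : (⟨0, y⟩ : ℂ) = χ (f^[M] (κ ⟨0, y'⟩)) := Complex.ext hre.symm h.symm
    rw [e, hχ.κχ _ (hO _ (hS y' hy'))]
    exact (Function.LeftInverse.iterate hfif M) _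
  have h00 : (χ (f^[M] (κ ⟨0, 0⟩))).im = 0 := HL.im0 _ (hS 0 (by simpa using hr.le)) rfl
  have hstep : ∀ y : ℝ, |y| ≤ r → ∃ y' : ℝ, |y'| ≤ km⁻¹ * |y| ∧
      fi^[M] (κ ⟨0, y⟩) = κ ⟨0, y'⟩ := by
    intro y hy
    rcases lt_trichotomy y 0 with h | h | h
    · have h1 := (HL.imneg _ (hS y hy) h).1
      simp only at h1
      have hsub : Icc y 0 ⊆ {y | |y| ≤ r} := by
        intro w hw
        have := abs_le.1 hy
        show |w| ≤ r
        exact abs_le.2 ⟨by linarith [hw.1, this.1], by linarith [hw.2, this.2]⟩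
      obtain ⟨y', hy', he⟩ := intermediate_value_Icc h.le (hcont.mono hsub)
        (show y ∈ Icc _ _ from ⟨by nlinarith, by rw [h00]; exact h.le⟩)
      have he' : (χ (f^[M] (κ ⟨0, y'⟩))).im = y := he
      refine ⟨y', ?_, hival y' (hsub hy') y he'⟩
      have hneg : y' < 0 := by
        refine lt_of_le_of_ne hy'.2 (fun e => ?_)
        rw [e, h00] at he'
        linarith
      have h2 := (HL.imneg _ (hS y' (hsub hy')) hneg).1
      simp only at h2
      rw [he'] at h2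
      rw [abs_of_neg hneg, abs_of_neg h, inv_mul_eq_div, le_div_iff₀ hkm0]
      linarith
    · subst h
      exact ⟨0, by simp, hival 0 hy 0 h00⟩
    · have h1 := (HL.impos _ (hS y hy) h).1
      simp only at h1
      have hsub : Icc 0 y ⊆ {y | |y| ≤ r} := by
        intro w hw
        have := abs_le.1 hy
        show |w| ≤ r
        exact abs_le.2 ⟨by linarith [hw.1, this.1], by linarith [hw.2, this.2]⟩
      obtain ⟨y', hy', he⟩ := intermediate_value_Icc h.le (hcont.mono hsub)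
        (show y ∈ Icc _ _ from ⟨by rw [h00]; exact h.le, by nlinarith⟩)
      have he' : (χ (f^[M] (κ ⟨0, y'⟩))).im = y := he
      refine ⟨y', ?_, hival y' (hsub hy') y he'⟩
      have hpos : 0 < y' := by
        refine lt_of_le_of_ne hy'.1 (fun e => ?_)
        rw [← e, h00] at he'
        linarith
      have h2 := (HL.impos _ (hS y' (hsub hy')) hpos).1
      simp only at h2
      rw [he'] at h2
      rw [abs_of_pos hpos, abs_of_pos h, inv_mul_eq_div, le_div_iff₀ hkm0]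
      linarith
  have hk0 : 0 ≤ km⁻¹ := (inv_pos.2 hkm0).le
  have hk1 : km⁻¹ < 1 := inv_lt_one_of_one_lt₀ hkm
  have hall : ∀ n : ℕ, ∃ y' : ℝ, |y'| ≤ km⁻¹ ^ n * |y| ∧
      (fi^[M])^[n] (κ ⟨0, y⟩) = κ ⟨0, y'⟩ := by
    intro n
    induction n with
    | zero => exact ⟨y, by simp, rfl⟩
    | succ n ih =>
      obtain ⟨y₁, h1, h2⟩ := ih
      have h3 : km⁻¹ ^ n * |y| ≤ |y| := by
        have := pow_le_one₀ (n := n) hk0 hk1.le
        nlinarith [abs_nonneg y]
      obtain ⟨y₂, h4, h5⟩ := hstep y₁ (h1.trans (h3.trans hy))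
      refine ⟨y₂, ?_, ?_⟩
      · rw [pow_succ]
        nlinarith [mul_le_mul_of_nonneg_left h1 hk0]
      · rw [Function.iterate_succ_apply', h2, h5]
  have hPi : fi^[M] P = P := by
    have := (Function.LeftInverse.iterate hfif M) P
    rwa [hP] at this
  choose z hz1 hz2 using hall
  apply stable_iter hfi hM hPi
  have hlim := SW_squeeze (z := fun n => (⟨0, z n⟩ : ℂ)) hχ.κ_smooth.continuous hk0 hk1 h0
    (c := |y|) (fun n => by
      refine le_trans ?_ (hz1 n)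
      have := Complex.norm_le_abs_re_add_abs_im (⟨0, z n⟩ : ℂ)
      simpa using this)
  refine hlim.congr fun n => ?_
  rw [hz2 n]

end DS
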