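import Pool.Agent.H36.DS.PBase

/-!
XC (principal points exist).  Proof.  By `L1` there are `ρ n < 1/(n+1)` with `dist (φ z) (φ w) < 1/(n+1)` on
`C n = {z ∈ ball 0 1 | dist z ζ = ρ n}`, nonempty (e.g. `(1 - ρ n) ζ`).  Pick `z n ∈ C n`; a subsequence of
`φ (z n)` converges to a point `P`; it is a principal point.  If `P ∉ K` then `u` is continuous at `P`, so
`z n = u (φ (z n)) → u P ∈ ball 0 1` along the subsequence; but `z n → ζ`.
-/

namespace DS
open Metric Set Filter Topology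

theorem exists_principal {X : Type*} [MetricSpace X] [CompactSpace X] {K : Set X}
    (hK : IsClosed K) {φ : ℂ → X} {u : X → ℂ} (H : DiscMap K φ u) {ζ : ℂ} (hζ : ‖ζ‖ = 1) :
    ∃ P ∈ K, Principal φ ζ P := by
  have hpos : ∀ n : ℕ, (0 : ℝ) < 1 / ((n : ℝ) + 1) := fun n => Nat.one_div_pos_of_nat
  choose ρ hρ0 hρ1 hρL using fun n : ℕ => H.L1 ζ hζ (1 / ((n : ℝ) + 1)) (hpos n)
  have hle1 : ∀ n : ℕ, 1 / ((n : ℝ) + 1) ≤ 1 := by
    intro n
    rw [div_le_one (by positivity)]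
    have : (0 : ℝ) ≤ n := Nat.cast_nonneg n
    linarith
  set z : ℕ → ℂ := fun n => ((1 - ρ n : ℝ) : ℂ) * ζ with hz
  have hzb : ∀ n, z n ∈ ball (0 : ℂ) 1 := by
    intro n
    have h1 := hρ1 n
    have h2 := hle1 n
    rw [mem_ball_zero_iff, hz]
    simp only
    rw [norm_mul, hζ, mul_one, Complex.norm_real, Real.norm_eq_abs, abs_of_nonneg (by linarith)]
    linarith [hρ0 n]
  have hzd : ∀ n, dist (z n) ζ = ρ n := by
    intro n
    have h1 : z n - ζ = ((-ρ n : ℝ) : ℂ) * ζ := by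
      rw [hz]
      push_cast
      ring
    rw [dist_eq_norm, h1, norm_mul, hζ, mul_one, Complex.norm_real, Real.norm_eq_abs, abs_neg,
      abs_of_pos (hρ0 n)]
  have hlim0 : Tendsto (fun n : ℕ => 1 / ((n : ℝ) + 1)) atTop (𝓝 0) :=
    tendsto_one_div_add_atTop_nhds_zero_nat
  obtain ⟨P, s, hs, hP⟩ := CompactSpace.tendsto_subseq (fun n => φ (z n))
  refine ⟨P, ?_, ?_⟩
  · by_contra hPK
    have h1 : ContinuousAt u P := H.u_cont.continuousAt (hK.isOpen_compl.mem_nhds hPK)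
    have h2 : Tendsto (fun n => u (φ (z (s n)))) atTop (𝓝 (u P)) := h1.tendsto.comp hP
    have h3 : Tendsto (fun n => z (s n)) atTop (𝓝 (u P)) :=
      h2.congr fun n => H.uφ _ (hzb _)
    have h4 : Tendsto z atTop (𝓝 ζ) := by
      rw [tendsto_iff_dist_tendsto_zero]
      refine squeeze_zero (fun n => dist_nonneg) (fun n => ?_) hlim0
      rw [hzd]
      exact (hρ1 n).le
    have h5 := tendsto_nhds_unique h3 (h4.comp hs.tendsto_atTop)
    have h6 := H.u_maps hPK
    rw [h5, mem_ball_zero_iff, hζ] at h6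
    exact lt_irrefl _ h6
  · intro ε hε
    have hε2 : 0 < ε / 2 := by linarith
    have e1 : ∀ᶠ n in atTop, 1 / (((s n : ℕ) : ℝ) + 1) < ε / 2 :=
      (hlim0.comp hs.tendsto_atTop).eventually (gt_mem_nhds hε2)
    have e2 : ∀ᶠ n in atTop, dist (φ (z (s n))) P < ε / 2 :=
      hP.eventually (ball_mem_nhds P hε2)
    obtain ⟨n, hn1, hn2⟩ := (e1.and e2).exists
    refine ⟨ρ (s n), hρ0 _, ?_, ?_⟩
    · have := hρ1 (s n)
      linarith
    · intro w hw hwd
      have h1 := hρL (s n) w hw (z (s n)) (hzb _) hwd (hzd _)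
      have h2 := dist_triangle (φ w) (φ (z (s n))) P
      linarith

end DS
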