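import Pool.Agent.H36.DS.XA
import Pool.Agent.H36.DS.XC
import Pool.Agent.H36.DS.XD
import Pool.Agent.H36.DS.PL
import Pool.Agent.H36.DS.SH
import Pool.Agent.H36.DS.SW
import Pool.Agent.H36.DS.JD

/-!
SL (local data at fixed prime ends, sphere case; helper60 is PI of this file).
`spt_back`: if `α` is a regular curve in `stableSet f Q` through `x`, then `fi ∘ α` is a regular curve in `stableSet f (fi Q)`
through `fi x`; `fi Q` is hyperbolic (same minimal period, the differential of the return map at `fi Q` is conjugate to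
the one at `Q` by the differential of `f`).
`sphere_loc`: see the message of helper36 / the header of JBase.
-/

namespace DS
open Metric Set Filter Topology Function MeasureTheory
open scoped Manifold ContDiff

/-- the differentials of `g` at `y` and of its inverse at `g y` are inverse to each other -/
theorem SL_equiv {g gi : S2 → S2} (hg : ContMDiff (𝓡 2) (𝓡 2) 1 g)
    (hgi : ContMDiff (𝓡 2) (𝓡 2) 1 gi) (hggi : ∀ x, g (gi x) = x) (hgig : ∀ x, gi (g x) = x)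
    (y : S2) : ∃ e : E2 ≃ₗ[ℝ] E2, ∀ v : E2, e v = mfderiv (𝓡 2) (𝓡 2) g y v := by
  let A : E2 →L[ℝ] E2 := mfderiv (𝓡 2) (𝓡 2) g y
  let B : E2 →L[ℝ] E2 := mfderiv (𝓡 2) (𝓡 2) gi (g y)
  have hA : HasMFDerivAt (𝓡 2) (𝓡 2) g y A := (hg.mdifferentiable (by norm_num) y).hasMFDerivAt
  have hB : HasMFDerivAt (𝓡 2) (𝓡 2) gi (g y) B :=
    (hgi.mdifferentiable (by norm_num) (g y)).hasMFDerivAt
  have hA' : HasMFDerivAt (𝓡 2) (𝓡 2) g (gi (g y)) A := by rw [hgig]; exact hA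
  have h1 : HasMFDerivAt (𝓡 2) (𝓡 2) (gi ∘ g) y (B.comp A) := hB.comp y hA
  have h2 : HasMFDerivAt (𝓡 2) (𝓡 2) (g ∘ gi) (g y) (A.comp B) := hA'.comp (g y) hB
  have e1 : gi ∘ g = id := funext hgig
  have e2 : g ∘ gi = id := funext hggi
  rw [e1] at h1
  rw [e2] at h2
  have h3 := hasMFDerivAt_unique h1 (hasMFDerivAt_id y)
  have h4 := hasMFDerivAt_unique h2 (hasMFDerivAt_id (g y))
  refine ⟨LinearEquiv.ofLinearMap (A : E2 →ₗ[ℝ] E2) (B : E2 →ₗ[ℝ] E2)
      (LinearMap.ext fun v => congrArg (fun L => L v) h4)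
      (LinearMap.ext fun v => congrArg (fun L => L v) h3), fun v => rfl⟩

theorem SL_iter {f : S2 → S2} (cf : ContMDiff (𝓡 2) (𝓡 2) 1 f) (k : ℕ) :
    ContMDiff (𝓡 2) (𝓡 2) 1 (f^[k]) := by
  induction k with
  | zero => exact contMDiff_id
  | succ k ih =>
    rw [Function.iterate_succ']
    exact cf.comp ih

theorem SL_comm {f fi : S2 → S2} (hffi : ∀ x, f (fi x) = x) (hfif : ∀ x, fi (f x) = x) (n : ℕ) :
    ∀ x : S2, f^[n] (fi x) = fi (f^[n] x) := by
  induction n with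
  | zero => intro x; rfl
  | succ n ih =>
    intro x
    rw [Function.iterate_succ_apply', ih, hffi, Function.iterate_succ_apply', hfif]

theorem SL_hyp {f fi : S2 → S2} {ν : Measure S2} (hS : Sys f fi ν) {Q : S2}
    (h : Hyperbolic f Q) : Hyperbolic f (fi Q) := by
  have hper : fi Q ∈ periodicPts f := by
    obtain ⟨n, hn, hnQ⟩ := h.1
    refine mk_mem_periodicPts hn ?_
    show f^[n] (fi Q) = fi Q
    rw [SL_comm hS.ffi hS.fif, hnQ]
  have hmin : minimalPeriod f (fi Q) = minimalPeriod f Q := by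
    have := minimalPeriod_apply hper
    rw [hS.ffi] at this
    exact this.symm
  refine ⟨hper, fun μ hμ => h.2 μ ?_⟩
  unfold IsMultiplier at hμ ⊢
  rw [hmin] at hμ
  obtain ⟨q, hq⟩ : ∃ q, q = minimalPeriod f Q := ⟨_, rfl⟩
  rw [← hq] at hμ ⊢
  have hqQ : f^[q] Q = Q := by rw [hq]; exact iterate_minimalPeriod
  obtain ⟨e, he⟩ := SL_equiv hS.cf hS.cfi hS.ffi hS.fif (fi Q)
  have key : (iterDeriv f q Q : E2 →ₗ[ℝ] E2) =
      e.conj (iterDeriv f q (fi Q) : E2 →ₗ[ℝ] E2) := by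
    have c1 : mfderiv (𝓡 2) (𝓡 2) (f^[q] ∘ f) (fi Q) =
        (mfderiv (𝓡 2) (𝓡 2) (f^[q]) (f (fi Q))).comp (mfderiv (𝓡 2) (𝓡 2) f (fi Q)) :=
      mfderiv_comp (fi Q) ((SL_iter hS.cf q).mdifferentiable (by norm_num) _)
        (hS.cf.mdifferentiable (by norm_num) _)
    have c2 : mfderiv (𝓡 2) (𝓡 2) (f ∘ f^[q]) (fi Q) =
        (mfderiv (𝓡 2) (𝓡 2) f (f^[q] (fi Q))).comp (mfderiv (𝓡 2) (𝓡 2) (f^[q]) (fi Q)) :=
      mfderiv_comp (fi Q) (hS.cf.mdifferentiable (by norm_num) _)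
        ((SL_iter hS.cf q).mdifferentiable (by norm_num) _)
    have c3 : f^[q] ∘ f = f ∘ f^[q] := by
      rw [← Function.iterate_succ, ← Function.iterate_succ']
    have hqf : f^[q] (fi Q) = fi Q := by rw [SL_comm hS.ffi hS.fif, hqQ]
    rw [c3, c2, hS.ffi, hqf] at c1
    apply LinearMap.ext
    intro v
    rw [LinearEquiv.conj_apply_apply]
    have h1 : ∀ w : E2, e (iterDeriv f q (fi Q) w) = iterDeriv f q Q (e w) := by
      intro w
      rw [he, he]
      exact congrArg (fun L => L w) c1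
    have h2 := h1 (e.symm v)
    rw [LinearEquiv.apply_symm_apply] at h2
    exact h2.symm
  rw [key, LinearEquiv.charpoly_conj]
  exact hμ

theorem SL_stab {f fi : S2 → S2} {ν : Measure S2} (hS : Sys f fi ν) {Q y : S2}
    (h : y ∈ stableSet f Q) : fi y ∈ stableSet f (fi Q) := by
  have hu : UniformContinuous fi := CompactSpace.uniformContinuous_of_continuous hS.cfi.continuous
  show Tendsto (fun n : ℕ => dist (f^[n] (fi y)) (f^[n] (fi Q))) atTop (𝓝 0)
  rw [Metric.tendsto_atTop]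
  intro ε hε
  obtain ⟨δ, hδ, hd⟩ := Metric.uniformContinuous_iff.1 hu ε hε
  have h' : Tendsto (fun n : ℕ => dist (f^[n] y) (f^[n] Q)) atTop (𝓝 0) := h
  rw [Metric.tendsto_atTop] at h'
  obtain ⟨N, hN⟩ := h' δ hδ
  refine ⟨N, fun n hn => ?_⟩
  have h1 := hN n hn
  rw [Real.dist_eq, sub_zero, abs_of_nonneg dist_nonneg] at h1 ⊢
  rw [SL_comm hS.ffi hS.fif, SL_comm hS.ffi hS.fif]
  exact hd h1

/-- the image of a regular curve -/
theorem SL_tangent {g gi : S2 → S2} (hg : ContMDiff (𝓡 2) (𝓡 2) 1 g)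
    (hgi : ContMDiff (𝓡 2) (𝓡 2) 1 gi) (hggi : ∀ x, g (gi x) = x) (hgig : ∀ x, gi (g x) = x)
    {W W' : Set S2} (hW : ∀ y ∈ W, g y ∈ W') {x : S2} {v : E3} (h : TangentTo W x v) :
    ∃ v' : E3, TangentTo W' (g x) v' := by
  obtain ⟨hv, α, hα, hαW, hα0, hαv⟩ := h
  set σ : ℝ → ℝ := fun t => 1 / 2 * Real.sin t with hσ
  have hσm : ∀ t, σ t ∈ Ioo (-1:ℝ) 1 := by
    intro t
    have h1 := Real.sin_le_one t
    have h2 := Real.neg_one_le_sin t
    constructor
    · show -1 < 1 / 2 * Real.sin t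
      linarith
    · show 1 / 2 * Real.sin t < 1
      linarith
  have hσ0 : σ 0 = 0 := by simp [hσ]
  have hσc : ContDiff ℝ 1 σ := contDiff_const.mul Real.contDiff_sin
  have hσd : HasDerivAt σ (1 / 2) 0 := by
    have h1 := (Real.hasDerivAt_sin 0).const_mul (1 / 2)
    rw [Real.cos_zero, mul_one] at h1
    exact h1
  have hb : ContDiff ℝ 1 (fun t => (α (σ t) : E3)) := by
    rw [← contDiffOn_univ]
    exact hα.comp hσc.contDiffOn (fun t _ => hσm t)
  -- the curve as a map to the sphere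
  have hbm : ContMDiff 𝓘(ℝ, ℝ) (𝓡 2) 1 (fun t => α (σ t)) := by
    have h1 := ContMDiff.codRestrict_sphere (n := 2) (m := 1) (hb.contMDiff)
      (fun t => (α (σ t)).2)
    exact h1
  have hgb : ContDiff ℝ 1 (fun t => (g (α (σ t)) : E3)) := by
    rw [← contMDiff_iff_contDiff]
    exact SV_coe.comp (hg.comp hbm)
  -- velocities
  have hα' : HasDerivAt (fun t => (α t : E3)) v 0 := by
    have h0 : (0:ℝ) ∈ Ioo (-1:ℝ) 1 := by constructor <;> norm_num
    have h1 : DifferentiableAt ℝ (fun t => (α t : E3)) 0 :=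
      (hα.differentiableOn (by norm_num)).differentiableAt (isOpen_Ioo.mem_nhds h0)
    rw [← hαv]
    exact h1.hasDerivAt
  have hb' : HasDerivAt (fun t => (α (σ t) : E3)) ((1 / 2 : ℝ) • v) 0 := by
    have h1 : HasDerivAt (fun t => (α t : E3)) v (σ 0) := by rw [hσ0]; exact hα'
    exact h1.scomp 0 hσd
  -- a chart
  obtain ⟨O, hO⟩ : ∃ O : S2, α (σ 0) ≠ O := by
    refine ⟨-(α (σ 0)), ?_⟩
    intro h
    have h1 : ((α (σ 0) : S2) : E3) = -((α (σ 0) : S2) : E3) := congrArg Subtype.val h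
    have h2 : ((α (σ 0) : S2) : E3) = 0 := by
      have h4 : (2:ℝ) • ((α (σ 0) : S2) : E3) = 0 := by
        rw [two_smul]
        nth_rewrite 2 [h1]
        exact add_neg_cancel _
      rcases smul_eq_zero.1 h4 with h5 | h5
      · norm_num at h5
      · exact h5
    have h3 : ‖((α (σ 0) : S2) : E3)‖ = 1 := by simp
    rw [h2] at h3
    simp at h3
  obtain ⟨p, q, hpq⟩ := exists_SC O
  have hPC : PC1 O p q := ⟨hpq.q_smooth, hpq.p_smooth, hpq.q_ne, hpq.pq, hpq.qp⟩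
  obtain ⟨V, hV, hvV⟩ := vel_chart hPC (α := fun t => α (σ t)) hb' hO
  have hV0 : V ≠ 0 := by
    rintro rfl
    rw [map_zero] at hvV
    rcases smul_eq_zero.1 hvV with h | h
    · norm_num at h
    · exact hv h
  have hPC' := pc1_comp hPC hg hgi hggi hgig
  obtain ⟨hc, hinj⟩ := vel_emb hPC'
  set v' : E3 := fderiv ℝ (fun z : ℂ => (g (q z) : E3)) (p (α (σ 0))) V with hv'
  have hv'0 : v' ≠ 0 := by
    intro h
    apply hV0
    apply hinj (p (α (σ 0)))
    rw [map_zero]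
    exact h
  have hd : HasDerivAt (fun t => (g (α (σ t)) : E3)) v' 0 := by
    have h2 : HasFDerivAt (fun z : ℂ => (g (q z) : E3))
        (fderiv ℝ (fun z : ℂ => (g (q z) : E3)) (p (α (σ 0)))) (p (α (σ 0))) :=
      (hc.differentiable (by norm_num)).differentiableAt.hasFDerivAt
    have h3 := h2.comp_hasDerivAt (0:ℝ) hV
    refine h3.congr_of_eventuallyEq ?_
    filter_upwards [hbm.continuous.continuousAt.eventually (isOpen_compl_singleton.mem_nhds hO)]
      with t ht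
    show (g (α (σ t)) : E3) = (g (q (p (α (σ t)))) : E3)
    rw [hpq.qp _ ht]
  refine ⟨v', hv'0, fun t => g (α (σ t)), hgb.contDiffOn, fun t _ => hW _ (hαW _ (hσm t)), ?_,
    hd.deriv⟩
  show g (α (σ 0)) = g x
  rw [hσ0, hα0]

theorem spt_back {f fi : S2 → S2} {ν : Measure S2} (hS : Sys f fi ν) {x : S2} (h : SPt f x) :
    SPt f (fi x) := by
  obtain ⟨Q, v, hQ, hv⟩ := h
  obtain ⟨v', hv'⟩ := SL_tangent hS.cfi hS.cf hS.fif hS.ffi
    (W := stableSet f Q) (W' := stableSet f (fi Q)) (fun y hy => SL_stab hS hy) hv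
  exact ⟨fi Q, v', SL_hyp hS hQ, hv'⟩

theorem SL_image {f fi : S2 → S2} {ν : Measure S2} (hS : Sys f fi ν) {B : Set S2}
    (hB : MeasurableSet B) (n : ℕ) :
    MeasurableSet (f^[n] '' B) ∧ ν (f^[n] '' B) = ν B := by
  induction n with
  | zero => simp [hB]
  | succ n ih =>
    have h1 : f^[n + 1] '' B = f '' (f^[n] '' B) := by
      rw [Function.iterate_succ', image_comp]
    have h2 : f '' (f^[n] '' B) = fi ⁻¹' (f^[n] '' B) := by
      ext y
      constructor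
      · rintro ⟨x, hx, rfl⟩
        show fi (f x) ∈ f^[n] '' B
        rw [hS.fif]; exact hx
      · intro hy
        exact ⟨fi y, hy, hS.ffi y⟩
    rw [h1]
    refine ⟨?_, (hS.inv _ ih.1).trans ih.2⟩
    rw [h2]
    exact hS.cfi.continuous.measurable ih.1

theorem SL_inv {f fi : S2 → S2} (hffi : ∀ x, f (fi x) = x) (n : ℕ) :
    ∀ x : S2, f^[n] (fi^[n] x) = x := by
  induction n with
  | zero => intro x; rfl
  | succ n ih =>
    intro x
    rw [Function.iterate_succ_apply, Function.iterate_succ_apply', hffi, ih]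

/-- a principal point of a fixed prime end is a fixed point -/
theorem SL_fix {f fi : S2 → S2} {ν : Measure S2} (hS : Sys f fi ν) {K : Set S2}
    (hK : IsClosed K) {φ : ℂ → S2} {u : S2 → ℂ} (hD : DiscMap K φ u) {m : ℕ}
    (hm : f^[m] '' K = K) {hb hbi : ℂ → ℂ}
    (hE : EndMap φ u (f^[m]) (fi^[m]) hb hbi) {ζ : ℂ} (hζ : ‖ζ‖ = 1) (hfix : hb ζ = ζ)
    {P P' : S2} (hP : P ∈ K) (hPr : Principal φ ζ P) {χ : S2 → ℂ} {κ : ℂ → S2}
    (hχ : PChart K P P' χ κ) : f^[m] P = P := by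
  have hg : Continuous (f^[m]) := (SL_iter hS.cf m).continuous
  have hgi : Continuous (fi^[m]) := (SL_iter hS.cfi m).continuous
  have hggi := SL_inv hS.ffi m
  have hgig := SL_inv hS.fif m
  have hfin : ∃ ρ > 0, ν (φ '' (ball 0 1 ∩ ball ζ ρ)) < ⊤ :=
    ⟨1, one_pos, lt_of_le_of_lt (measure_mono (subset_univ _)) hS.fin⟩
  obtain ⟨μ, H⟩ := fixPE_of hK hD hg hgi hggi hgig hm ν
    (fun B _ hB => (SL_image hS hB m).2) (fun O _ hO hne => hS.pos O hO hne) hχ hP hζ hfin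
    (fixes_end hE hζ hfix) hPr (r₀ := 1) one_pos
  have hnear := near_fixed H
  choose z hzW hz1 hz2 using fun n : ℕ => hnear (1 / ((n : ℝ) + 1)) (by positivity)
  have hlim : Tendsto (fun n : ℕ => 1 / ((n : ℝ) + 1)) atTop (𝓝 0) :=
    tendsto_one_div_add_atTop_nhds_zero_nat
  have t1 : Tendsto z atTop (𝓝 0) :=
    squeeze_zero_norm (fun n => (hz1 n).le) hlim
  have t2 : Tendsto (fun n => χ (f^[m] (κ (z n)))) atTop (𝓝 0) :=
    squeeze_zero_norm (fun n => (hz2 n).le) hlim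
  have t3 : Tendsto (fun n => f^[m] (κ (z n))) atTop (𝓝 (f^[m] P)) := by
    have := ((hg.comp hχ.κ_cont).tendsto 0).comp t1
    rw [comp_apply, hχ.κ0] at this
    exact this
  have t4 : Tendsto (fun n => κ (χ (f^[m] (κ (z n))))) atTop (𝓝 P) := by
    have := (hχ.κ_cont.tendsto 0).comp t2
    rw [hχ.κ0] at this
    exact this
  have e : (fun n => κ (χ (f^[m] (κ (z n))))) = fun n => f^[m] (κ (z n)) := by
    funext n
    apply hχ.κχ
    intro h
    have h1 : κ (z n) ∈ Kᶜ := hzW n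
    apply h1
    have h2 : f^[m] (κ (z n)) ∈ f^[m] '' K := by rw [hm, h]; exact hχ.hP'
    obtain ⟨k, hk, hke⟩ := h2
    have h3 := congrArg (fi^[m]) hke
    rw [hgig, hgig] at h3
    rw [← h3]; exact hk
  rw [e] at t4
  exact tendsto_nhds_unique t3 t4

/-- a curve along an axis -/
theorem SL_axis {O : S2} {χ : S2 → ℂ} {κ : ℂ → S2} (h : PC1 O χ κ) {W : Set S2} {z d : ℂ}
    (hd : d ≠ 0) (hW : ∀ t ∈ Ioo (-1:ℝ) 1, κ (z + (t : ℂ) * d) ∈ W) :
    TangentTo W (κ z) (fderiv ℝ (fun z : ℂ => (κ z : E3)) z d) := by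
  obtain ⟨hc, hinj⟩ := vel_emb h
  have hl : ContDiff ℝ 1 (fun t : ℝ => z + (t : ℂ) * d) := by
    have : ContDiff ℝ 1 (fun t : ℝ => (t : ℂ)) := Complex.ofRealCLM.contDiff
    exact contDiff_const.add (this.mul contDiff_const)
  have hld : HasDerivAt (fun t : ℝ => z + (t : ℂ) * d) d 0 := by
    have h1 : HasDerivAt (fun t : ℝ => (t : ℂ)) 1 (0:ℝ) := Complex.ofRealCLM.hasDerivAt
    have := (h1.mul_const d).const_add z
    simpa using this
  refine ⟨?_, fun t => κ (z + (t : ℂ) * d), (hc.comp hl).contDiffOn, hW, by simp, ?_⟩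
  · intro h0
    apply hd
    apply hinj z
    rw [h0, map_zero]
  · have h2 : HasFDerivAt (fun z : ℂ => (κ z : E3)) (fderiv ℝ (fun z : ℂ => (κ z : E3)) z)
        (z + ((0:ℝ) : ℂ) * d) := by
      have : z + ((0:ℝ) : ℂ) * d = z := by simp
      rw [this]
      exact (hc.differentiable (by norm_num)).differentiableAt.hasFDerivAt
    exact (h2.comp_hasDerivAt (0:ℝ) hld).deriv

/-- a continuous curve in a stable set through a point of `K` stays in `K` -/
theorem SL_inK {f : S2 → S2} {V K : Set S2} (hC : CompK f V K) {Q : S2}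
    (hQ : Q ∈ periodicPts f) {T : Set ℝ} (hT : IsPreconnected T) {α : ℝ → S2}
    (hα : ContinuousOn α T) (hs : ∀ t ∈ T, α t ∈ stableSet f Q) {t₀ : ℝ} (ht₀ : t₀ ∈ T)
    (hK : α t₀ ∈ K) : ∀ t ∈ T, α t ∈ K := by
  have h1 : α '' T ⊆ K := by
    refine hC.K_max _ (hT.image α hα) ?_ ⟨α t₀, ⟨t₀, ht₀, rfl⟩, hK⟩
    refine Disjoint.mono_left ?_ (hC.V_stab Q hQ).symm
    rintro _ ⟨t, ht, rfl⟩
    exact hs t ht
  intro t ht
  exact h1 ⟨t, ht, rfl⟩

/-- crossing -/
theorem SL_cross {f fi : S2 → S2} {ν : Measure S2} (hS : Sys f fi ν) {V K : Set S2}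
    (hC : CompK f V K) {O : S2} {χ : S2 → ℂ} {κ : ℂ → S2} (h : PC1 O χ κ) {P : S2}
    (hP : Hyperbolic f P) {y e : ℝ} (he : 0 < e)
    (hu : ∀ t ∈ Ioo (-1:ℝ) 1, κ ⟨0, y + t * e⟩ ∈ stableSet fi P)
    (hK : κ ⟨0, y⟩ ∈ K) (hSP : SPt f (κ ⟨0, y⟩)) {ε : ℝ} (hε : 0 < ε) :
    (∃ z ∈ ball (⟨0, y⟩ : ℂ) ε, 0 < z.re ∧ κ z ∈ K) ∧
      ∃ z ∈ ball (⟨0, y⟩ : ℂ) ε, z.re < 0 ∧ κ z ∈ K := by
  obtain ⟨Q, v, hQ, hT⟩ := hSP
  have hT' := hT
  obtain ⟨hv, α, hα, hαW, hα0, hαv⟩ := hT'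
  set D := fderiv ℝ (fun z : ℂ => (κ z : E3)) ⟨0, y⟩ with hD
  have hI0 : (0:ℝ) ∈ Ioo (-1:ℝ) 1 := by constructor <;> norm_num
  have hw : TangentTo (stableSet fi P) (κ ⟨0, y⟩) (D ((e : ℂ) * Complex.I)) := by
    refine SL_axis h ?_ ?_
    · simp [he.ne']
    · intro t ht
      have := hu t ht
      convert this using 2
      apply Complex.ext <;> simp
  have hx : κ ⟨0, y⟩ ∈ stableSet f Q ∩ stableSet fi P := by
    refine ⟨?_, ?_⟩
    · rw [← hα0]; exact hαW 0 hI0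
    · have := hu 0 hI0
      simpa using this
  have hli := hS.h2 Q P hQ hP _ hx v _ hT hw
  have hα' : HasDerivAt (fun t => (α t : E3)) v 0 := by
    have h1 : DifferentiableAt ℝ (fun t => (α t : E3)) 0 :=
      (hα.differentiableOn (by norm_num)).differentiableAt (isOpen_Ioo.mem_nhds hI0)
    rw [← hαv]
    exact h1.hasDerivAt
  have hO : α 0 ≠ O := by rw [hα0]; exact h.κ_ne _
  obtain ⟨V', hV', hvV⟩ := vel_chart h hα' hO
  have hχ0 : χ (α 0) = ⟨0, y⟩ := by rw [hα0, h.χκ]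
  rw [hχ0, ← hD] at hvV
  have hre : V'.re ≠ 0 := by
    intro h0
    have e1 : V' = (V'.im / e : ℝ) • ((e : ℂ) * Complex.I) := by
      apply Complex.ext
      · simp [h0]
      · simp
        field_simp
    have e2 : v = (V'.im / e : ℝ) • D ((e : ℂ) * Complex.I) := by
      rw [hvV, ← map_smul, ← e1]
    rw [LinearIndependent.pair_iff] at hli
    have := hli 1 (-(V'.im / e)) (by rw [e2]; module)
    exact one_ne_zero this.1
  -- the curve stays in `K`
  have hαc : ContinuousOn α (Ioo (-1:ℝ) 1) := by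
    have h1 : ContinuousOn (fun t => (α t : E3)) (Ioo (-1:ℝ) 1) := hα.continuousOn
    rw [continuousOn_iff_continuous_domRestrict] at h1 ⊢
    exact continuous_induced_rng.2 h1
  have hαK : ∀ t ∈ Ioo (-1:ℝ) 1, α t ∈ K :=
    SL_inK hC hQ.1 isPreconnected_Ioo hαc hαW hI0 (by rw [hα0]; exact hK)
  have hcont0 : ContinuousAt α 0 := hαc.continuousAt (isOpen_Ioo.mem_nhds hI0)
  have hev1 : ∀ᶠ t in 𝓝 (0:ℝ), α t ≠ O := hcont0.eventually (isOpen_compl_singleton.mem_nhds hO)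
  have hev2 : ∀ᶠ t in 𝓝 (0:ℝ), χ (α t) ∈ ball (⟨0, y⟩ : ℂ) ε := by
    have := hV'.continuousAt
    have h3 : Tendsto (fun t => χ (α t)) (𝓝 0) (𝓝 (⟨0, y⟩ : ℂ)) := by
      have h4 : Tendsto (fun t => χ (α t)) (𝓝 0) (𝓝 (χ (α 0))) := this
      rwa [hχ0] at h4
    exact h3 (ball_mem_nhds _ hε)
  have hev3 : ∀ᶠ t in 𝓝 (0:ℝ), t ∈ Ioo (-1:ℝ) 1 := isOpen_Ioo.mem_nhds hI0
  -- the sign of the real part
  have hR : HasDerivAt (fun t => (χ (α t)).re) V'.re 0 := by
    have := Complex.reCLM.hasFDerivAt.comp_hasDerivAt (0:ℝ) hV'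
    exact this
  have hR0 : (χ (α 0)).re = 0 := by rw [hχ0]
  have hsl : Tendsto (fun t => t⁻¹ * (χ (α t)).re) (𝓝[≠] 0) (𝓝 V'.re) := by
    have h5 := hasDerivAt_iff_tendsto_slope_zero.1 hR
    refine h5.congr ?_
    intro t
    rw [zero_add, hR0, sub_zero, smul_eq_mul]
  have hall : ∀ s : ℝ, s ≠ 0 → ∃ z ∈ ball (⟨0, y⟩ : ℂ) ε, 0 < s * z.re ∧ κ z ∈ K := by
    intro s hs
    have hpos : 0 < V'.re * V'.re := mul_self_pos.2 hre
    have h6 : ∀ᶠ t in 𝓝[≠] (0:ℝ), 0 < V'.re * (t⁻¹ * (χ (α t)).re) := by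
      have := (hsl.const_mul V'.re).eventually (lt_mem_nhds hpos)
      exact this
    have h7 : ∀ᶠ t in 𝓝[≠] (0:ℝ), 0 < V'.re * (t⁻¹ * (χ (α t)).re) ∧ α t ≠ O ∧
        χ (α t) ∈ ball (⟨0, y⟩ : ℂ) ε ∧ t ∈ Ioo (-1:ℝ) 1 :=
      h6.and ((hev1.filter_mono nhdsWithin_le_nhds).and
        ((hev2.filter_mono nhdsWithin_le_nhds).and (hev3.filter_mono nhdsWithin_le_nhds)))
    -- choose the sign of `t`
    have h8 : Tendsto (fun n : ℕ => (s * V'.re) * (1 / ((n : ℝ) + 1))) atTop (𝓝[≠] 0) := by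
      rw [tendsto_nhdsWithin_iff]
      constructor
      · have := tendsto_one_div_add_atTop_nhds_zero_nat (𝕜 := ℝ)
        simpa using this.const_mul (s * V'.re)
      · refine Eventually.of_forall fun n => ?_
        have : (0:ℝ) < 1 / ((n : ℝ) + 1) := by positivity
        exact mul_ne_zero (mul_ne_zero hs hre) this.ne'
    obtain ⟨n, hn⟩ := (h8.eventually h7).exists
    obtain ⟨h9, h10, h11, h12⟩ := hn
    set t := (s * V'.re) * (1 / ((n : ℝ) + 1)) with ht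
    refine ⟨χ (α t), h11, ?_, ?_⟩
    · have hc : (0:ℝ) < 1 / ((n : ℝ) + 1) := by positivity
      have ht0 : t ≠ 0 := mul_ne_zero (mul_ne_zero hs hre) hc.ne'
      have h13 : 0 < (V'.re * (t⁻¹ * (χ (α t)).re)) * t ^ 2 := by positivity
      have h14 : (V'.re * (t⁻¹ * (χ (α t)).re)) * t ^ 2 =
          (V'.re ^ 2 * (1 / ((n : ℝ) + 1))) * (s * (χ (α t)).re) := by
        have : (V'.re * (t⁻¹ * (χ (α t)).re)) * t ^ 2 = V'.re * (χ (α t)).re * t := by
          field_simp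
        rw [this, ht]; ring
      rw [h14] at h13
      exact (pos_iff_pos_of_mul_pos h13).1 (by positivity)
    · rw [h.κχ _ h10]
      exact hαK t h12
  constructor
  · obtain ⟨z, hz, h1, h2⟩ := hall 1 one_ne_zero
    exact ⟨z, hz, by linarith, h2⟩
  · obtain ⟨z, hz, h1, h2⟩ := hall (-1) (by norm_num)
    exact ⟨z, hz, by linarith, h2⟩

theorem SL_tr1 {f : S2 → S2} (m : ℕ) (P : S2) : tr (f^[m]) 1 P = tr f m P := by
  unfold tr
  rw [iterDeriv_iter]

theorem sphere_loc {f fi : S2 → S2} {ν : Measure S2} (hS : Sys f fi ν) {V K : Set S2}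
    (hC : CompK f V K) (hn : K.Nontrivial) {φ : ℂ → S2} {u : S2 → ℂ} (hD : DiscMap K φ u) {m : ℕ}
    (hm0 : 0 < m) (hm : f^[m] '' K = K) {hb hbi : ℂ → ℂ}
    (hE : EndMap φ u (f^[m]) (fi^[m]) hb hbi) {ζ : ℂ} (hζ : ‖ζ‖ = 1) (hfix : hb ζ = ζ) :
    ∃ P ∈ K, Principal φ ζ P ∧ (EllPt K (f^[m]) P ∨
      ∃ (P' : S2) (χ : S2 → ℂ) (κ : ℂ → S2) (r lp km kp : ℝ),
        HypChart K (SPt f) (f^[2 * m]) P P' χ κ r lp km kp) := by
  obtain ⟨P, hP, hPr⟩ := exists_principal hC.K_closed hD hζ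
  refine ⟨P, hP, hPr, ?_⟩
  obtain ⟨P', hP', hne⟩ := hn.exists_ne P
  have hne' : P ≠ P' := hne.symm
  obtain ⟨p, q, hpq⟩ := exists_SC P'
  have hPC : PC1 P' p q := ⟨hpq.q_smooth, hpq.p_smooth, hpq.q_ne, hpq.pq, hpq.qp⟩
  have hPC0 : PC1 P' (fun x => p x - p P) (fun z => q (z + p P)) :=
    pc1_plane hPC (Φ := fun z => z - p P) (Φi := fun z => z + p P)
      (contDiff_id.sub contDiff_const) (contDiff_id.add contDiff_const)
      (fun z => by ring) (fun z => by ring)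
  have hχ := pchart_of_pc1 (P := P) hPC0 hP' (by
    show q (0 + p P) = P
    rw [zero_add]; exact hpq.qp P hne')
  have hfixP : f^[m] P = P := SL_fix hS hC.K_closed hD hm hE hζ hfix hP hPr hχ
  have hper : P ∈ periodicPts f := mk_mem_periodicPts hm0 hfixP
  rcases trichotomy hS hm0 hfixP with htr | ⟨hyp, htr⟩
  · left
    obtain ⟨χ, κ, w₁, h1, h2, h3, h4, h5⟩ := ell_chart (SL_iter hS.cf m) hfixP hne'
      (by rw [iterDeriv_iter]; exact hS.det1 P m hfixP) (by rw [SL_tr1]; exact htr)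
    refine ⟨P', χ, κ, w₁, pchart_of_pc1 h1 hP' h2, h3, h4, ?_⟩
    refine h5.mono_left (nhdsWithin_mono _ ?_)
    intro z hz h0
    have h0' : z = 0 := h0
    rw [h0'] at hz
    apply hz
    rw [h2]; exact hP
  · right
    have hfix2 : f^[2 * m] P = P := by
      rw [two_mul, Function.iterate_add_apply, hfixP, hfixP]
    have htr2 : 2 < tr (f^[2 * m]) 1 P := by
      rw [SL_tr1, tr_two hS hfixP]
      have : (2:ℝ) ^ 2 < tr f m P ^ 2 := by
        rw [← sq_abs (tr f m P)]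
        exact pow_lt_pow_left₀ htr (by norm_num) (by norm_num)
      linarith
    obtain ⟨χ, κ, r, lp, km, kp, h1, h2, h3, h4⟩ := hyp_chart (SL_iter hS.cf (2 * m)) hfix2 hne'
      (by rw [iterDeriv_iter]; exact hS.det1 P _ hfix2) htr2
    have h2m : 0 < 2 * m := by omega
    have hr := h3.hr
    have hst : ∀ x : ℝ, |x| ≤ r → κ ⟨x, 0⟩ ∈ stableSet f P := fun x hx =>
      axis_stable hS.cf.continuous h2m h1 h2 hfix2 h3 h4 hx
    have hun : ∀ y : ℝ, |y| ≤ r → κ ⟨0, y⟩ ∈ stableSet fi P := fun y hy =>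
      axis_unstable hS.cf.continuous hS.cfi.continuous hS.ffi hS.fif h2m h1 h2 hfix2 h3 h4 hy
    refine ⟨P', χ, κ, r, lp, km, kp, pchart_of_pc1 h1 hP' h2, h3, h4, ?_, ?_, ?_⟩
    · intro x hx
      have hcont : Continuous (fun t : ℝ => κ ⟨t, 0⟩) := by
        have h5 : Continuous (fun t : ℝ => (⟨t, 0⟩ : ℂ)) := by
          have : (fun t : ℝ => (⟨t, 0⟩ : ℂ)) = fun t : ℝ => (t : ℂ) := rfl
          rw [this]; exact Complex.continuous_ofReal
        exact h1.κ_smooth.continuous.comp h5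
      refine SL_inK hC hper (T := Icc (-r) r) isPreconnected_Icc (α := fun t : ℝ => κ ⟨t, 0⟩)
        hcont.continuousOn (fun t ht => hst t (abs_le.2 ht)) (t₀ := 0)
        ⟨by linarith, hr.le⟩ ?_ x (abs_le.1 hx)
      show κ ⟨0, 0⟩ ∈ K
      have : (⟨0, 0⟩ : ℂ) = 0 := rfl
      rw [this, h2]; exact hP
    · intro x _ hx
      refine ⟨P, _, hyp, SL_axis h1 (z := ⟨x, 0⟩) (d := ((r - |x| : ℝ) : ℂ)) ?_ ?_⟩
      · have : r - |x| ≠ 0 := by linarith
        exact_mod_cast this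
      · intro t ht
        have h5 : (⟨x, 0⟩ : ℂ) + (t : ℂ) * ((r - |x| : ℝ) : ℂ) = ⟨x + t * (r - |x|), 0⟩ := by
          apply Complex.ext <;> simp
        rw [h5]
        apply hst
        have h6 : |t * (r - |x|)| ≤ r - |x| := by
          rw [abs_mul, abs_of_nonneg (by linarith : 0 ≤ r - |x|)]
          have : |t| ≤ 1 := abs_le.2 ⟨ht.1.le, ht.2.le⟩
          nlinarith [abs_nonneg t]
        calc |x + t * (r - |x|)| ≤ |x| + |t * (r - |x|)| := abs_add_le _ _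
          _ ≤ r := by linarith
    · intro y _ hy hyK hySP ε hε
      refine SL_cross hS hC h1 hyp (e := r - |y|) (by linarith) ?_ hyK hySP hε
      intro t ht
      apply hun
      have h6 : |t * (r - |y|)| ≤ r - |y| := by
        rw [abs_mul, abs_of_nonneg (by linarith : 0 ≤ r - |y|)]
        have : |t| ≤ 1 := abs_le.2 ⟨ht.1.le, ht.2.le⟩
        nlinarith [abs_nonneg t]
      calc |y + t * (r - |y|)| ≤ |y| + |t * (r - |y|)| := abs_add_le _ _
        _ ≤ r := by linarith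

end DS
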