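import Pool.Agent.H36.DS.TBase
import Pool.Agent.H36.DS.RX
import Pool.Agent.H36.DS.XB
import Pool.Agent.H36.DS.HB
import Pool.Agent.H36.DS.IC

/-!
TS (a continuum without fixed prime ends has the star property).  Proof.  Let `k₀ ∈ K`, `K₀ = {z - k₀ | z ∈ K}`: compact,
connected, contains `0`, nontrivial, connected complement; `ext_map` gives `ψ, v`; `discMap_ext` gives the `DiscMap` with
`φ z = O` for `z = 0`, `φ z = q (k₀ + (ψ z)⁻¹)` otherwise; `end_homeo` gives `hb, hbi`.  By `hno` `hb` has no fixed point on the circle; by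
compactness of the closed disc there are `c > 0`, `ρ₀ < 1` (and `0 < ρ₀`) with `‖hb z - z‖ ≥ c` and `hb z ≠ 0` for
`ρ₀ ≤ ‖z‖ ≤ 1` (`hb` maps the circle to itself); for every `ε > 0` `‖hb z‖ > 1 - ε` for `‖z‖` close to `1`.
For `ρ₀ ≤ ‖z‖ < 1`: `hb z` is in the open disc and `φ (hb z) = g (φ z)` (`φu`, `g (φ z) ∉ q '' K`), i.e.
`q (k₀ + (ψ (hb z))⁻¹) = g (q (k₀ + (ψ z)⁻¹))`; apply `p`.  `star_nontrivial` with `h = hb`, for every `N` and every `k ∈ K`.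
-/

namespace DS
open Metric Set Filter Topology

theorem TS_near {f : ℂ → ℝ} {a : ℝ} (hf : ContinuousOn f (closedBall (0:ℂ) 1))
    (h : ∀ z ∈ sphere (0:ℂ) 1, a < f z) :
    ∃ ρ < (1:ℝ), 0 < ρ ∧ ∀ z : ℂ, ρ ≤ ‖z‖ → ‖z‖ ≤ 1 → a < f z := by
  have hc : IsCompact (closedBall (0:ℂ) 1 ∩ f ⁻¹' Iic a) := by
    have h1 : IsClosed (closedBall (0:ℂ) 1 ∩ f ⁻¹' Iic a) :=
      hf.preimage_isClosed_of_isClosed isClosed_closedBall isClosed_Iic
    exact (isCompact_closedBall 0 1).of_isClosed_subset h1 inter_subset_left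
  by_cases hne : (closedBall (0:ℂ) 1 ∩ f ⁻¹' Iic a).Nonempty
  · obtain ⟨x, hx, hmax⟩ := hc.exists_isMaxOn hne continuous_norm.continuousOn
    have hx1 : ‖x‖ ≤ 1 := by
      have := hx.1
      rwa [mem_closedBall_zero_iff] at this
    have hx2 : ‖x‖ < 1 := by
      rcases hx1.lt_or_eq with h1 | h1
      · exact h1
      · exfalso
        have h2 := h x (by rw [mem_sphere_zero_iff_norm]; exact h1)
        have h3 : f x ≤ a := hx.2
        linarith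
    refine ⟨(1 + ‖x‖) / 2, by linarith, by positivity, fun z hz1 hz2 => ?_⟩
    by_contra hcon
    have h4 : ‖z‖ ≤ ‖x‖ := hmax (show z ∈ closedBall (0:ℂ) 1 ∩ f ⁻¹' Iic a from
      ⟨by rw [mem_closedBall_zero_iff]; exact hz2, not_lt.mp hcon⟩)
    linarith
  · refine ⟨1 / 2, by norm_num, by norm_num, fun z _ hz2 => ?_⟩
    by_contra hcon
    exact hne ⟨z, by rw [mem_closedBall_zero_iff]; exact hz2, not_lt.mp hcon⟩

theorem star_of_ends {O : S2} {p : S2 → ℂ} {q : ℂ → S2} (hS : SC O p q) {g gi : S2 → S2}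
    (hg : Continuous g) (hgi : Continuous gi) (hggi : ∀ x, g (gi x) = x)
    (hgig : ∀ x, gi (g x) = x) {K : Set ℂ} (hK : IsCompact K) (hc : IsConnected K)
    (hn : K.Nontrivial) (hcc : IsConnected Kᶜ) (hgK : g '' (q '' K) = q '' K)
    (hno : ∀ (φ : ℂ → S2) (u : S2 → ℂ) (hb hbi : ℂ → ℂ), DiscMap (q '' K) φ u →
      EndMap φ u g gi hb hbi → ∀ ζ ∈ sphere (0:ℂ) 1, hb ζ ≠ ζ) {k : ℂ} (hk : k ∈ K) :
    Star (fun z => p (g (q z))) k K := by
  set K₀ : Set ℂ := (fun z => z - k) '' K with hK₀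
  have hKK : (fun z => k + z) '' K₀ = K := by
    rw [hK₀, image_image]
    have : (fun x : ℂ => k + (x - k)) = id := by
      funext x
      simp
    rw [this, image_id]
  have hK₀c : IsCompact K₀ := hK.image (continuous_id.sub continuous_const)
  have hK₀conn : IsConnected K₀ :=
    hc.image _ (continuous_id.sub continuous_const).continuousOn
  have h0 : (0:ℂ) ∈ K₀ := ⟨k, hk, sub_self k⟩
  have hinj : Function.Injective (fun z : ℂ => z - k) := sub_left_injective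
  have hn₀ : K₀.Nontrivial := hn.image hinj
  have hsurj : Function.Surjective (fun z : ℂ => z - k) := fun z => ⟨z + k, by simp⟩
  have hcc₀ : IsConnected K₀ᶜ := by
    rw [hK₀, ← image_compl_eq ⟨hinj, hsurj⟩]
    exact hcc.image _ (continuous_id.sub continuous_const).continuousOn
  obtain ⟨ψ, v, hE⟩ := ext_map hK₀c hK₀conn h0 hn₀ hcc₀
  have hD := discMap_ext hS hK₀c hK₀conn h0 hn₀ hE k
  rw [hKK] at hD
  have hqK : IsClosed (q '' K) := (hK.image hS.q_smooth.continuous).isClosed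
  obtain ⟨hb, hbi, hEM⟩ := end_homeo hqK hD hg hgi hggi hgig hgK
  have hfix := hno _ _ hb hbi hD hEM
  have hsub : sphere (0:ℂ) 1 ⊆ closedBall (0:ℂ) 1 := sphere_subset_closedBall
  -- the function
  have hfc : ContinuousOn (fun z => min ‖hb z - z‖ ‖hb z‖) (closedBall (0:ℂ) 1) :=
    ContinuousOn.inf (hEM.bc.sub continuousOn_id).norm hEM.bc.norm
  obtain ⟨x, hx, hmin⟩ := (isCompact_sphere (0:ℂ) 1).exists_isMinOn
    ⟨1, by simp⟩ (hfc.mono hsub)
  have hsn : ∀ z ∈ sphere (0:ℂ) 1, ‖hb z‖ = 1 := by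
    intro z hz
    have := hEM.bs hz
    rwa [mem_sphere_zero_iff_norm] at this
  have hxpos : 0 < min ‖hb x - x‖ ‖hb x‖ := by
    refine lt_min (norm_pos_iff.mpr (sub_ne_zero.mpr (hfix x hx))) ?_
    rw [hsn x hx]
    exact one_pos
  set m : ℝ := min ‖hb x - x‖ ‖hb x‖ with hm
  obtain ⟨ρ₀, hρ1, hρ0, hρ⟩ := TS_near (a := m / 2) hfc fun z hz => by
    have h1 : m ≤ min ‖hb z - z‖ ‖hb z‖ := hmin hz
    show m / 2 < min ‖hb z - z‖ ‖hb z‖
    linarith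
  have hgcompl : ∀ y, y ∉ q '' K → g y ∉ q '' K := by
    intro y hy hgy
    rw [← hgK] at hgy
    obtain ⟨w, hw, hwy⟩ := hgy
    have h1 : w = y := by rw [← hgig w, hwy, hgig]
    exact hy (h1 ▸ hw)
  have hmain : ∀ z : ℂ, ρ₀ ≤ ‖z‖ → ‖z‖ < 1 → ‖hb z‖ < 1 ∧ hb z ≠ 0 ∧ m / 2 ≤ ‖hb z - z‖ ∧
      (fun z => p (g (q z))) (k + (ψ z)⁻¹) = k + (ψ (hb z))⁻¹ := by
    intro z hz1 hz2
    have hzb : z ∈ ball (0:ℂ) 1 := by rw [mem_ball_zero_iff]; exact hz2
    have h1 := hρ z hz1 hz2.le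
    have h2 : m / 2 < ‖hb z - z‖ := lt_of_lt_of_le h1 (min_le_left _ _)
    have h3 : m / 2 < ‖hb z‖ := lt_of_lt_of_le h1 (min_le_right _ _)
    have hb0 : hb z ≠ 0 := by
      intro h4
      rw [h4, norm_zero] at h3
      linarith
    have hz0 : z ≠ 0 := by
      rintro rfl
      rw [norm_zero] at hz1
      linarith
    have hbb : hb z ∈ ball (0:ℂ) 1 := hEM.bo hzb
    refine ⟨by rwa [mem_ball_zero_iff] at hbb, hb0, h2.le, ?_⟩
    have h5 := hD.φu _ (hgcompl _ (hD.φ_maps hzb))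
    rw [← hEM.be z hzb] at h5
    simp only [if_neg hb0, if_neg hz0] at h5
    show p (g (q (k + (ψ z)⁻¹))) = k + (ψ (hb z))⁻¹
    rw [← h5, hS.pq]
  have hlim : ∀ ε > 0, ∃ ρ < (1:ℝ), ∀ z : ℂ, ρ ≤ ‖z‖ → ‖z‖ < 1 → 1 - ε < ‖hb z‖ := by
    intro ε hε
    obtain ⟨ρ, h1, -, h2⟩ := TS_near (f := fun z => ‖hb z‖) (a := 1 - ε) hEM.bc.norm
      fun z hz => by
        show 1 - ε < ‖hb z‖
        rw [hsn z hz]
        linarith
    exact ⟨ρ, h1, fun z hz1 hz2 => h2 z hz1 hz2.le⟩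
  have hhc : ContinuousOn hb {z | ρ₀ ≤ ‖z‖ ∧ ‖z‖ < 1} := hEM.bc.mono fun z hz => by
    rw [mem_closedBall_zero_iff]
    exact hz.2.le
  intro N hN hKN
  have hKN' : (fun z => k + z) '' K₀ ⊆ N := by rw [hKK]; exact hKN
  have hk' : k ∈ (fun z => k + z) '' K₀ := by rw [hKK]; exact hk
  obtain ⟨U, h1, h2, h3, h4, h5, h6, h7⟩ := star_nontrivial hK₀c hK₀conn h0 hE k
    (g := fun z => p (g (q z))) (h := hb) hρ0 hρ1 (half_pos hxpos) hhc hmain hlim hN hKN' hk'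
  rw [hKK] at h2 h7
  exact ⟨U, h1, h2, h3, h4, h5, h6, h7⟩

end DS
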