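import Pool.Agent.H36.DS.Sph
import Pool.Agent.H36.DS.Surf

/-!
BA (transport of the topological conditions to the sphere).  `S` is a compact metric space homeomorphic to the sphere by
`Ψ : S2 → S` (inverse `Ψi`), `f' = Ψi ∘ f ∘ Ψ`.  `f'^[n] = Ψi ∘ f^[n] ∘ Ψ`.
`stable`: `dist (f^[n] (Ψ x)) (f^[n] (Ψ P)) → 0` iff `dist (f'^[n] x) (f'^[n] P) → 0`: `Ψ` and `Ψi` are uniformly continuous
(compactness).  `per`: clear.  `cond4`: an annulus `A` for `f'^[q]` gives the annulus `Ψ '' A` for `f^[q]` (homeomorphic to `A`).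
`dense`: `Ψ` maps the union for `f'` onto the union for `f`.
-/

namespace DS
open Metric Set Filter Topology Function

private theorem BA_semi {X S : Type*} [TopologicalSpace X] [TopologicalSpace S] (e : X ≃ₜ S) (f : S → S) :
    Semiconj e (fun y => e.symm (f (e y))) f := fun y => e.apply_symm_apply _

private theorem BA_uc {X Y : Type*} [PseudoMetricSpace X] [PseudoMetricSpace Y] {φ : X → Y}
    (h : UniformContinuous φ) {a b : ℕ → X}
    (hab : Tendsto (fun n => dist (a n) (b n)) atTop (𝓝 0)) :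
    Tendsto (fun n => dist (φ (a n)) (φ (b n))) atTop (𝓝 0) := by
  rw [Metric.tendsto_atTop] at hab ⊢
  intro ε hε
  obtain ⟨δ, hδ, H⟩ := Metric.uniformContinuous_iff.1 h ε hε
  obtain ⟨N, hN⟩ := hab δ hδ
  refine ⟨N, fun n hn => ?_⟩
  have h1 := hN n hn
  rw [Real.dist_0_eq_abs, abs_of_nonneg dist_nonneg] at h1 ⊢
  exact H h1

private theorem BA_pp {X S : Type*} {e : X → S} (he : Injective e) {g : X → X} {f : S → S}
    (h : Semiconj e g f) (n : ℕ) (P : X) : IsPeriodicPt g n P ↔ IsPeriodicPt f n (e P) := by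
  have h1 : e (g^[n] P) = f^[n] (e P) := h.iterate_right n P
  constructor
  · intro h2
    have h3 : g^[n] P = P := h2
    rw [h3] at h1
    exact h1.symm
  · intro h2
    have h3 : f^[n] (e P) = e P := h2
    rw [h3] at h1
    exact he h1

private theorem BA_pps {X S : Type*} {e : X → S} (he : Injective e) {g : X → X} {f : S → S}
    (h : Semiconj e g f) (P : X) : P ∈ periodicPts g ↔ e P ∈ periodicPts f := by
  constructor
  · rintro ⟨n, hn, h1⟩
    exact ⟨n, hn, (BA_pp he h n P).1 h1⟩
  · rintro ⟨n, hn, h1⟩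
    exact ⟨n, hn, (BA_pp he h n P).2 h1⟩

theorem BA_stable {S : Type*} [MetricSpace S] [CompactSpace S] (e : S2 ≃ₜ S) (f : S → S)
    (P x : S2) : x ∈ stableSet (fun y => e.symm (f (e y))) P ↔ e x ∈ Surf.stableSet f (e P) := by
  have hs := BA_semi e f
  have hu : UniformContinuous e := CompactSpace.uniformContinuous_of_continuous e.continuous
  have hu' : UniformContinuous e.symm := CompactSpace.uniformContinuous_of_continuous e.symm.continuous
  constructor
  · intro h
    have h1 := BA_uc hu h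
    refine h1.congr fun n => ?_
    rw [hs.iterate_right n x, hs.iterate_right n P]
  · intro h
    have h1 := BA_uc hu' h
    refine h1.congr fun n => ?_
    rw [← hs.iterate_right n x, ← hs.iterate_right n P, e.symm_apply_apply, e.symm_apply_apply]

theorem BA_per {S : Type*} [MetricSpace S] (e : S2 ≃ₜ S) (f : S → S) (P : S2) :
    (P ∈ periodicPts (fun y => e.symm (f (e y))) ↔ e P ∈ periodicPts f) ∧
      minimalPeriod (fun y => e.symm (f (e y))) P = minimalPeriod f (e P) :=
  ⟨BA_pps e.injective (BA_semi e f) P, minimalPeriod_eq_minimalPeriod_iff.2 fun n =>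
    BA_pp e.injective (BA_semi e f) n P⟩

theorem BA_cond4 {S : Type*} [MetricSpace S] (e : S2 ≃ₜ S) (f : S → S) (h : Surf.Cond4 f) :
    Cond4 (fun y => e.symm (f (e y))) := by
  rintro q hq A ⟨hA1, hA2, ⟨ψ⟩, hA4⟩
  have hs := (BA_semi e f).iterate_right q
  refine h q hq (e '' A) ⟨e.isOpenMap A hA1, ?_, ⟨(e.image A).symm.trans ψ⟩, ?_⟩
  · rw [← image_comp]
    have h1 : f^[q] ∘ e = e ∘ (fun y => e.symm (f (e y)))^[q] := by
      funext y
      exact (hs y).symm
    rw [h1, image_comp, hA2]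
  · rintro _ ⟨P, hP, rfl⟩ h1
    exact hA4 P hP ((BA_pps e.injective hs P).2 h1)

theorem BA_dense {S : Type*} [MetricSpace S] [CompactSpace S] (e : S2 ≃ₜ S) (f : S → S)
    (h : Dense (⋃ P ∈ periodicPts (fun y => e.symm (f (e y))),
      stableSet (fun y => e.symm (f (e y))) P)) :
    Dense (⋃ P ∈ periodicPts f, Surf.stableSet f P) := by
  have h1 := e.surjective.denseRange.dense_image e.continuous h
  refine h1.mono ?_
  rintro _ ⟨x, hx, rfl⟩
  simp only [mem_iUnion] at hx ⊢
  obtain ⟨P, hP, hx⟩ := hx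
  exact ⟨e P, (BA_per e f P).1.1 hP, (BA_stable e f P x).1 hx⟩

end DS
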