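import Pool.Agent.H36.DS.BA

/-!
BB (transport of the differentiable conditions to the sphere).  `Ψ : S2 → S` a diffeomorphism, `f' = Ψ.symm ∘ f ∘ Ψ`.
`BB_mult`: with `q = minimalPeriod` (the same, `BA_per`) `f'^[q] = Ψ.symm ∘ f^[q] ∘ Ψ`, so the differential at the fixed point
`P` is conjugate (`mfderiv_comp`, the differential of `Ψ` at `P` is a linear isomorphism `E2 → E2`) to the one of `f^[q]` at
`Ψ P`; characteristic polynomials of conjugate maps are equal (`LinearEquiv.charpoly_conj`).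
`BB_tangent`: let `α` be the curve of `DS.TangentTo W x v` (`coe ∘ α` is `C¹` on `Ioo (-1) 1` as a map into `E3`).  `α` is
`C¹` as a map into the sphere on `Ioo (-1) 1` (`ContMDiffOn.codRestrict_sphere` or the corresponding statement for `ContMDiff`;
a direct proof in a stereographic chart is also possible), so `Ψ ∘ α` is `C¹`.  `v₀ = mfderiv α 0 1`, `emb x v₀ = v` by the chain rule,
`v₀ ≠ 0`, and `mfderiv (Ψ ∘ α) 0 1 = mfderiv Ψ x v₀ ≠ 0`.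
`BB_cond2`: given `v, w` from `DS.TangentTo`, `v = emb x v₀`, `w = emb x w₀`; `Surf.Cond2` at `Ψ x` (the stable sets correspond by
`BA_stable`, hyperbolic points by `BB_mult`) gives that `DΨ v₀, DΨ w₀` are independent, so `v₀, w₀` are, and so `v, w`
(`emb x` is injective linear: `mfderiv_coe_sphere_injective`).
-/

namespace DS
open Metric Set Filter Topology Function
open scoped Manifold ContDiff

/-- the differential of a diffeomorphism and the one of its inverse are inverse to each other -/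
theorem BB_inv {S : Type*} [MetricSpace S] [ChartedSpace E2 S] [IsManifold (𝓡 2) ∞ S]
    (Ψ : Diffeomorph (𝓡 2) (𝓡 2) S2 S ∞) (P : S2) :
    (mfderiv (𝓡 2) (𝓡 2) Ψ.symm (Ψ P) : E2 →L[ℝ] E2).comp
      (mfderiv (𝓡 2) (𝓡 2) Ψ P : E2 →L[ℝ] E2) = ContinuousLinearMap.id ℝ E2 ∧
    (mfderiv (𝓡 2) (𝓡 2) Ψ P : E2 →L[ℝ] E2).comp
      (mfderiv (𝓡 2) (𝓡 2) Ψ.symm (Ψ P) : E2 →L[ℝ] E2) = ContinuousLinearMap.id ℝ E2 := by
  have h1 : MDifferentiableAt (𝓡 2) (𝓡 2) Ψ P :=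
    Ψ.contMDiff.mdifferentiableAt (by simp)
  have h2 : MDifferentiableAt (𝓡 2) (𝓡 2) Ψ.symm (Ψ P) :=
    Ψ.symm.contMDiff.mdifferentiableAt (by simp)
  constructor
  · have h3 := mfderiv_comp P h2 h1
    have h4 : (Ψ.symm ∘ Ψ : S2 → S2) = id := by
      funext y; simp
    rw [h4, mfderiv_id] at h3
    exact h3.symm
  · have h5 : MDifferentiableAt (𝓡 2) (𝓡 2) Ψ (Ψ.symm (Ψ P)) := by
      rw [Ψ.symm_apply_apply]; exact h1
    have h3 := mfderiv_comp (Ψ P) h5 h2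
    have h4 : (Ψ ∘ Ψ.symm : S → S) = id := by
      funext y; simp
    rw [h4, mfderiv_id] at h3
    rw [Ψ.symm_apply_apply] at h3
    exact h3.symm

theorem BB_iter {S : Type*} [MetricSpace S] [ChartedSpace E2 S] [IsManifold (𝓡 2) ∞ S]
    (Ψ : Diffeomorph (𝓡 2) (𝓡 2) S2 S ∞) (f : S → S) (q : ℕ) :
    (fun y => Ψ.symm (f (Ψ y)))^[q] = Ψ.symm ∘ (f^[q] ∘ Ψ) := by
  induction q with
  | zero => funext y; simp
  | succ n ih =>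
    funext y
    rw [iterate_succ_apply', ih]
    simp only [comp_apply]
    rw [Ψ.apply_symm_apply, iterate_succ_apply']

theorem BB_conj (A B G : E2 →L[ℝ] E2) (h1 : B.comp A = ContinuousLinearMap.id ℝ E2)
    (h2 : A.comp B = ContinuousLinearMap.id ℝ E2) :
    ((B.comp (G.comp A) : E2 →L[ℝ] E2) : E2 →ₗ[ℝ] E2).charpoly = (G : E2 →ₗ[ℝ] E2).charpoly := by
  have h1' : (B : E2 →ₗ[ℝ] E2) ∘ₗ (A : E2 →ₗ[ℝ] E2) = LinearMap.id := by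
    ext v i
    have := congrArg (fun L : E2 →L[ℝ] E2 => (L v) i) h1
    simpa using this
  have h2' : (A : E2 →ₗ[ℝ] E2) ∘ₗ (B : E2 →ₗ[ℝ] E2) = LinearMap.id := by
    ext v i
    have := congrArg (fun L : E2 →L[ℝ] E2 => (L v) i) h2
    simpa using this
  let e : E2 ≃ₗ[ℝ] E2 := LinearEquiv.ofLinearMap (B : E2 →ₗ[ℝ] E2) (A : E2 →ₗ[ℝ] E2) h1' h2'
  have h := LinearEquiv.charpoly_conj e (G : Module.End ℝ E2)
  rw [← h]
  congr 1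

theorem BB_zero (A B : E2 →L[ℝ] E2) (h1 : B.comp A = ContinuousLinearMap.id ℝ E2) (u : E2)
    (hu : A u = 0) : u = 0 := by
  have h2 := congrArg (fun L : E2 →L[ℝ] E2 => L u) h1
  simp only [ContinuousLinearMap.comp_apply, ContinuousLinearMap.id_apply] at h2
  rw [hu, map_zero] at h2
  exact h2.symm

theorem BB_li1 (A : E2 →L[ℝ] E2) (v w : E2) (h : LinearIndependent ℝ ![A v, A w]) :
    LinearIndependent ℝ ![v, w] := by
  refine LinearIndependent.of_comp (A : E2 →ₗ[ℝ] E2) ?_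
  convert h using 1
  funext i
  fin_cases i <;> rfl

theorem BB_li2 (A : E2 →L[ℝ] E3) (hA : Injective A) (v w : E2) (h : LinearIndependent ℝ ![v, w]) :
    LinearIndependent ℝ ![A v, A w] := by
  have h5 := h.map' (A : E2 →ₗ[ℝ] E3) (LinearMap.ker_eq_bot.mpr hA)
  have h6 : (⇑(A : E2 →ₗ[ℝ] E3) ∘ ![v, w] : Fin 2 → E3) = ![A v, A w] := by
    funext i
    fin_cases i <;> rfl
  exact h6 ▸ h5

theorem BB_mult {S : Type*} [MetricSpace S] [ChartedSpace E2 S] [IsManifold (𝓡 2) ∞ S]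
    (Ψ : Diffeomorph (𝓡 2) (𝓡 2) S2 S ∞) (f : Diffeomorph (𝓡 2) (𝓡 2) S S 1) (P : S2)
    (hP : P ∈ periodicPts (fun y => Ψ.symm (f (Ψ y)))) (μ : ℂ) :
    IsMultiplier (fun y => Ψ.symm (f (Ψ y))) P μ ↔ Surf.IsMultiplier f (Ψ P) μ := by
  have hq : minimalPeriod (fun y => Ψ.symm (f (Ψ y))) P = minimalPeriod f (Ψ P) :=
    (BA_per Ψ.toHomeomorph f P).2
  have key : ((iterDeriv (fun y => Ψ.symm (f (Ψ y)))
      (minimalPeriod (fun y => Ψ.symm (f (Ψ y))) P) P : E2 →L[ℝ] E2) : E2 →ₗ[ℝ] E2).charpoly =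
      ((Surf.iterDeriv f (minimalPeriod f (Ψ P)) (Ψ P) : E2 →L[ℝ] E2) :
        E2 →ₗ[ℝ] E2).charpoly := by
    rw [hq]
    set q := minimalPeriod f (Ψ P) with hqdef
    have hfix : f^[q] (Ψ P) = Ψ P := iterate_minimalPeriod
    have hfq : ContMDiff (𝓡 2) (𝓡 2) 1 (f^[q]) := by
      have : ∀ n : ℕ, ContMDiff (𝓡 2) (𝓡 2) 1 (f^[n]) := by
        intro n
        induction n with
        | zero => exact contMDiff_id
        | succ m ih =>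
          rw [iterate_succ']
          exact f.contMDiff.comp ih
      exact this q
    have h1 : MDifferentiableAt (𝓡 2) (𝓡 2) Ψ P :=
      Ψ.contMDiff.mdifferentiableAt (by simp)
    have h2 : MDifferentiableAt (𝓡 2) (𝓡 2) Ψ.symm (Ψ P) :=
      Ψ.symm.contMDiff.mdifferentiableAt (by simp)
    have h3 : MDifferentiableAt (𝓡 2) (𝓡 2) (f^[q]) (Ψ P) :=
      hfq.mdifferentiableAt (by simp)
    have h4 : MDifferentiableAt (𝓡 2) (𝓡 2) (f^[q] ∘ Ψ) P := h3.comp P h1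
    have h5 : (iterDeriv (fun y => Ψ.symm (f (Ψ y))) q P : E2 →L[ℝ] E2) =
        (mfderiv (𝓡 2) (𝓡 2) Ψ.symm (Ψ P) : E2 →L[ℝ] E2).comp
          ((mfderiv (𝓡 2) (𝓡 2) (f^[q]) (Ψ P) : E2 →L[ℝ] E2).comp
            (mfderiv (𝓡 2) (𝓡 2) Ψ P : E2 →L[ℝ] E2)) := by
      unfold iterDeriv
      rw [BB_iter Ψ f q]
      have h6 := mfderiv_comp_of_eq (x := P) (y := Ψ P) h2 h4 hfix
      have h7 := mfderiv_comp P h3 h1
      rw [h6, h7]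
      have h8 : (mfderiv (𝓡 2) (𝓡 2) Ψ.symm ((f^[q] ∘ Ψ) P) : E2 →L[ℝ] E2) =
          (mfderiv (𝓡 2) (𝓡 2) Ψ.symm (Ψ P) : E2 →L[ℝ] E2) := by
        simp only [comp_apply]
        rw [hfix]
      exact congrArg (fun L : E2 →L[ℝ] E2 => L.comp
        ((mfderiv (𝓡 2) (𝓡 2) (f^[q]) (Ψ P) : E2 →L[ℝ] E2).comp
            (mfderiv (𝓡 2) (𝓡 2) Ψ P : E2 →L[ℝ] E2))) h8
    rw [h5]
    exact BB_conj _ _ _ (BB_inv Ψ P).1 (BB_inv Ψ P).2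
  unfold IsMultiplier Surf.IsMultiplier
  rw [key]

theorem BB_curve {α : ℝ → S2}
    (hα : ContDiffOn ℝ 1 (fun t => (α t : E3)) (Ioo (-1) 1)) {t : ℝ} (ht : t ∈ Ioo (-1:ℝ) 1) :
    ContMDiffAt 𝓘(ℝ, ℝ) (𝓡 2) 1 α t := by
  let U : TopologicalSpace.Opens ℝ := ⟨Ioo (-1) 1, isOpen_Ioo⟩
  have h1 : ContMDiff 𝓘(ℝ, ℝ) 𝓘(ℝ, E3) 1 (fun s : U => (α s : E3)) := by
    intro s
    have h2 : ContMDiffAt 𝓘(ℝ, ℝ) 𝓘(ℝ, E3) 1 (fun t => (α t : E3)) (s : ℝ) :=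
      (hα.contDiffAt (isOpen_Ioo.mem_nhds s.2)).contMDiffAt
    exact (contMDiffAt_subtype_iff (U := U) (f := fun t => (α t : E3)) (x := s)).mpr h2
  have h3 := h1.codRestrict_sphere (n := 2) (fun s => (α s).2)
  have h4 : (Set.codRestrict _ _ (fun s : U => (α s).2) : U → sphere (0 : E3) 1) =
      fun s : U => α s := by
    funext s
    apply Subtype.ext
    rfl
  rw [h4] at h3
  exact (contMDiffAt_subtype_iff (U := U) (f := α) (x := ⟨t, ht⟩)).mp (h3 ⟨t, ht⟩)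

theorem BB_tangent {S : Type*} [MetricSpace S] [ChartedSpace E2 S] [IsManifold (𝓡 2) ∞ S]
    (Ψ : Diffeomorph (𝓡 2) (𝓡 2) S2 S ∞) {W : Set S2} {x : S2} {v : E3} (h : TangentTo W x v) :
    ∃ v₀ : E2, emb x v₀ = v ∧
      Surf.TangentTo (Ψ '' W) (Ψ x) ((mfderiv (𝓡 2) (𝓡 2) Ψ x : E2 →L[ℝ] E2) v₀) := by
  obtain ⟨hv, α, hα, hW, h0, hd⟩ := h
  subst h0
  have hm0 : (0:ℝ) ∈ Ioo (-1:ℝ) 1 := by constructor <;> norm_num
  have hα0 : MDifferentiableAt 𝓘(ℝ, ℝ) (𝓡 2) α 0 := (BB_curve hα hm0).mdifferentiableAt (by simp)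
  have hc0 : MDifferentiableAt (𝓡 2) 𝓘(ℝ, E3) (fun y : S2 => (y : E3)) (α 0) :=
    (contMDiff_coe_sphere (m := 1)).mdifferentiableAt (by simp)
  have hΨ0 : MDifferentiableAt (𝓡 2) (𝓡 2) Ψ (α 0) :=
    Ψ.contMDiff.mdifferentiableAt (by simp)
  have he : emb (α 0) ((mfderiv 𝓘(ℝ, ℝ) (𝓡 2) α 0 : ℝ →L[ℝ] E2) 1) = v := by
    have h1 := mfderiv_comp_apply (x := (0:ℝ)) hc0 hα0 (1:ℝ)
    unfold emb
    have h2 : (mfderiv 𝓘(ℝ, ℝ) 𝓘(ℝ, E3) ((fun y : S2 => (y : E3)) ∘ α) 0 : ℝ →L[ℝ] E3) 1 = v := by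
      rw [mfderiv_eq_fderiv]
      exact hd
    exact h1.symm.trans h2
  refine ⟨(mfderiv 𝓘(ℝ, ℝ) (𝓡 2) α 0 : ℝ →L[ℝ] E2) 1, he, ?_, fun t => Ψ (α t), ?_, ?_, rfl, ?_⟩
  · intro hz
    have h1 : (mfderiv 𝓘(ℝ, ℝ) (𝓡 2) α 0 : ℝ →L[ℝ] E2) 1 = 0 := by
      exact BB_zero _ _ (BB_inv Ψ (α 0)).1 _ hz
    apply hv
    rw [← he, h1]
    unfold emb
    exact map_zero (mfderiv (𝓡 2) 𝓘(ℝ, E3) (fun y : S2 => (y : E3)) (α 0))
  · intro t ht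
    exact ((Ψ.contMDiff.of_le (by exact_mod_cast le_top)).contMDiffAt.comp t
      (BB_curve hα ht)).contMDiffWithinAt
  · intro t ht
    exact ⟨α t, hW t ht, rfl⟩
  · exact mfderiv_comp_apply (x := (0:ℝ)) hΨ0 hα0 (1:ℝ)

theorem BB_per {S : Type*} [MetricSpace S] [ChartedSpace E2 S] [IsManifold (𝓡 2) ∞ S]
    (Ψ : Diffeomorph (𝓡 2) (𝓡 2) S2 S ∞) (f : S → S) (P : S2) :
    P ∈ periodicPts (fun y => Ψ.symm (f (Ψ y))) ↔ Ψ P ∈ periodicPts f :=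
  (BA_per Ψ.toHomeomorph f P).1

theorem BB_stable {S : Type*} [MetricSpace S] [CompactSpace S] [ChartedSpace E2 S]
    [IsManifold (𝓡 2) ∞ S] (Ψ : Diffeomorph (𝓡 2) (𝓡 2) S2 S ∞) (f : S → S) (P x : S2) :
    x ∈ stableSet (fun y => Ψ.symm (f (Ψ y))) P ↔ Ψ x ∈ Surf.stableSet f (Ψ P) :=
  BA_stable Ψ.toHomeomorph f P x

theorem BB_cond1 {S : Type*} [MetricSpace S] [ChartedSpace E2 S] [IsManifold (𝓡 2) ∞ S]
    (Ψ : Diffeomorph (𝓡 2) (𝓡 2) S2 S ∞) (f : Diffeomorph (𝓡 2) (𝓡 2) S S 1)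
    (h : Surf.Cond1 f) : Cond1 (fun y => Ψ.symm (f (Ψ y))) := by
  intro P hP μ hμ n hn
  exact h (Ψ P) ((BB_per Ψ f P).mp hP) μ ((BB_mult Ψ f P hP μ).mp hμ) n hn

theorem BB_hyp {S : Type*} [MetricSpace S] [ChartedSpace E2 S] [IsManifold (𝓡 2) ∞ S]
    (Ψ : Diffeomorph (𝓡 2) (𝓡 2) S2 S ∞) (f : Diffeomorph (𝓡 2) (𝓡 2) S S 1) {P : S2}
    (h : Hyperbolic (fun y => Ψ.symm (f (Ψ y))) P) : Surf.Hyperbolic f (Ψ P) :=
  ⟨(BB_per Ψ f P).mp h.1, fun μ hμ => h.2 μ ((BB_mult Ψ f P h.1 μ).mpr hμ)⟩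

theorem BB_mono {S : Type*} [MetricSpace S] [ChartedSpace E2 S] {W W' : Set S} (hW : W ⊆ W')
    {x : S} {v : E2} (h : Surf.TangentTo W x v) : Surf.TangentTo W' x v := by
  obtain ⟨hv, α, hα, h1, h2, h3⟩ := h
  exact ⟨hv, α, hα, fun t ht => hW (h1 t ht), h2, h3⟩

theorem BB_cond2 {S : Type*} [MetricSpace S] [CompactSpace S] [ChartedSpace E2 S]
    [IsManifold (𝓡 2) ∞ S] (Ψ : Diffeomorph (𝓡 2) (𝓡 2) S2 S ∞)
    (f : Diffeomorph (𝓡 2) (𝓡 2) S S 1) (h : Surf.Cond2 f f.symm) :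
    Cond2 (fun y => Ψ.symm (f (Ψ y))) (fun y => Ψ.symm (f.symm (Ψ y))) := by
  intro P Q hP hQ x hx v w hv hw
  obtain ⟨v₀, hv₀, hv₁⟩ := BB_tangent Ψ hv
  obtain ⟨w₀, hw₀, hw₁⟩ := BB_tangent Ψ hw
  have h1 : Ψ '' stableSet (fun y => Ψ.symm (f (Ψ y))) P ⊆ Surf.stableSet f (Ψ P) := by
    rintro _ ⟨y, hy, rfl⟩
    exact (BB_stable Ψ f P y).mp hy
  have h2 : Ψ '' stableSet (fun y => Ψ.symm (f.symm (Ψ y))) Q ⊆
      Surf.stableSet f.symm (Ψ Q) := by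
    rintro _ ⟨y, hy, rfl⟩
    exact (BB_stable Ψ f.symm Q y).mp hy
  have h3 := h (Ψ P) (Ψ Q) (BB_hyp Ψ f hP) (BB_hyp Ψ f hQ) (Ψ x)
    ⟨(BB_stable Ψ f P x).mp hx.1, (BB_stable Ψ f.symm Q x).mp hx.2⟩ _ _
    (BB_mono h1 hv₁) (BB_mono h2 hw₁)
  have h4 : LinearIndependent ℝ ![v₀, w₀] :=
    BB_li1 (mfderiv (𝓡 2) (𝓡 2) Ψ x : E2 →L[ℝ] E2) v₀ w₀ h3
  have hinj : Injective (mfderiv (𝓡 2) 𝓘(ℝ, E3) (fun y : S2 => (y : E3)) x : E2 →L[ℝ] E3) :=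
    injective_mvfderiv_subtypeVal_sphere (n := 2) x
  have h5 := BB_li2 (mfderiv (𝓡 2) 𝓘(ℝ, E3) (fun y : S2 => (y : E3)) x : E2 →L[ℝ] E3) hinj
    v₀ w₀ h4
  rw [← hv₀, ← hw₀]
  exact h5

end DS
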