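import Pool.Agent.H36.DS.Sph
import Pool.Agent.H36.DS.Surf
import Pool.Agent.H36.DS.XA

/-!
BD (area forms on the sphere).  Let `om` be an area form on `S` in the sense of `Surf`, `Ψ : S2 → S` a diffeomorphism, and
`om' x v w = om (Ψ x) (DΨ v) (DΨ w)` (alternating, nonzero, on the two dimensional tangent spaces of the sphere).
`A x v w = det3 x (emb x v) (emb x w)` is also a nonzero alternating form (`emb x` is injective with values orthogonal to
`x`).  So there is a unique `ρ x ≠ 0` with `om' x v w = ρ x * A x v w` for all `v, w`.  `ρ` is continuous: for the stereographic chart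
`q : ℂ → S2` with pole `O` (`exists_SC`, `C¹`), `ρ (q z) = om (Ψ (q z)) (D(Ψ∘q) 1) (D(Ψ∘q) I) / A (q z) (Dq 1) (Dq I)`; the numerator is
continuous by `IsAreaForm.cont` (chain rule for `mfderiv (Ψ ∘ q)`), the denominator is `det3 (q z) (∂₁ q) (∂₂ q)` with the continuous
partial derivatives of `q : ℂ → E3`.  `q` is an open embedding onto `{O}ᶜ`; two poles cover the sphere.
The sphere is connected, so `ρ` has constant sign; replace it by its absolute value (`|ρ|` also satisfies the invariance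
equation: if `ρ < 0` use `-ρ`).  `f' = Ψ.symm ∘ f ∘ Ψ` preserves `om'` (chain rule), i.e. `PreservesArea ρ f'`.
-/

namespace DS
open Metric Set Filter Topology Function
open scoped Manifold ContDiff

private theorem BD_basis (v : E2) : v = v 0 • (EuclideanSpace.single 0 1 : E2) +
    v 1 • (EuclideanSpace.single 1 1 : E2) := by
  ext i
  fin_cases i <;> simp

private theorem BD_form (B : E2 →ₗ[ℝ] E2 →ₗ[ℝ] ℝ) (hB : ∀ v, B v v = 0) (v w : E2) :
    B v w = (v 0 * w 1 - v 1 * w 0) *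
      B (EuclideanSpace.single 0 1) (EuclideanSpace.single 1 1) := by
  set x : E2 := EuclideanSpace.single 0 1 with hx
  set y : E2 := EuclideanSpace.single 1 1 with hy
  have h1 : B y x = - B x y := by
    have h := hB (x + y)
    simp only [map_add, LinearMap.add_apply, hB] at h
    linarith
  conv_lhs => rw [BD_basis v, BD_basis w]
  simp only [← hx, ← hy, map_add, map_smul, LinearMap.add_apply, LinearMap.smul_apply, hB, h1,
    smul_eq_mul]
  ring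

private theorem BD_det3 (p x y : E3) (a b c d : ℝ) :
    det3 p (a • x + b • y) (c • x + d • y) = (a * d - b * c) * det3 p x y := by
  simp [det3, Matrix.det_fin_three]
  ring

private theorem BD_detE (T : E2 →ₗ[ℝ] E3) (p : E3) (v w : E2) :
    det3 p (T v) (T w) = (v 0 * w 1 - v 1 * w 0) *
      det3 p (T (EuclideanSpace.single 0 1)) (T (EuclideanSpace.single 1 1)) := by
  conv_lhs => rw [BD_basis v, BD_basis w]
  rw [map_add, map_add, map_smul, map_smul, map_smul, map_smul, BD_det3]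

private theorem BD_detC (T : ℂ →ₗ[ℝ] E3) (p : E3) (v w : ℂ) :
    det3 p (T v) (T w) = (v.re * w.im - v.im * w.re) * det3 p (T 1) (T Complex.I) := by
  have h : ∀ v : ℂ, v = v.re • (1 : ℂ) + v.im • Complex.I := by
    intro v
    apply Complex.ext <;> simp
  conv_lhs => rw [h v, h w]
  rw [map_add, map_add, map_smul, map_smul, map_smul, map_smul, BD_det3]

/-- two vectors orthogonal to a vector with nonzero determinant -/
private theorem BD_vec (x : E3) (hx : x ≠ 0) : ∃ v w : E3, inner ℝ x v = 0 ∧ inner ℝ x w = 0 ∧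
    det3 x v w ≠ 0 := by
  have hx' : x 0 ≠ 0 ∨ x 1 ≠ 0 ∨ x 2 ≠ 0 := by
    by_contra hc
    push Not at hc
    apply hx
    ext i
    fin_cases i
    · exact hc.1
    · exact hc.2.1
    · exact hc.2.2
  by_cases h01 : x 0 = 0 ∧ x 1 = 0
  · have h2 : x 2 ≠ 0 := by tauto
    refine ⟨!₂[1, 0, 0], !₂[0, 1, 0], ?_, ?_, ?_⟩
    · simp [PiLp.inner_apply, Fin.sum_univ_three, h01.1, h01.2]
    · simp [PiLp.inner_apply, Fin.sum_univ_three, h01.1, h01.2]
    · simp [det3, Matrix.det_fin_three, h01.1, h01.2, h2]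
  · refine ⟨!₂[-x 1, x 0, 0], !₂[-(x 2 * x 0), -(x 2 * x 1), x 0 * x 0 + x 1 * x 1], ?_, ?_, ?_⟩
    · simp [PiLp.inner_apply, Fin.sum_univ_three]; ring
    · simp [PiLp.inner_apply, Fin.sum_univ_three]; ring
    · have : det3 x !₂[-x 1, x 0, 0] !₂[-(x 2 * x 0), -(x 2 * x 1), x 0 * x 0 + x 1 * x 1] =
          (x 0 ^ 2 + x 1 ^ 2) * (x 0 ^ 2 + x 1 ^ 2 + x 2 ^ 2) := by
        simp [det3, Matrix.det_fin_three]; ring
      rw [this]
      have h1 : 0 < x 0 ^ 2 + x 1 ^ 2 := by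
        rcases not_and_or.1 h01 with h | h
        · positivity
        · positivity
      have h2 : 0 < x 0 ^ 2 + x 1 ^ 2 + x 2 ^ 2 := by positivity
      positivity

/-- the derivative of the inclusion of the sphere -/
private noncomputable def BD_T (x : S2) : E2 →L[ℝ] E3 :=
  mfderiv (𝓡 2) 𝓘(ℝ, E3) (fun y : S2 => (y : E3)) x

private theorem BD_nonzero (P : S2) : ∃ a b : E2, det3 P (BD_T P a) (BD_T P b) ≠ 0 := by
  have hPn : ‖(P : E3)‖ = 1 := by simp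
  have hP0 : (P : E3) ≠ 0 := by
    intro h
    rw [h] at hPn
    simp at hPn
  obtain ⟨v, w, hv, hw, hD⟩ := BD_vec (P : E3) hP0
  have hrange := range_mfderiv_coe_sphere (n := 2) P
  have hmem : ∀ u : E3, inner ℝ (P : E3) u = 0 → ∃ e : E2, BD_T P e = u := by
    intro u hu
    have h3 : u ∈ (ℝ ∙ (P : E3))ᗮ := by
      rw [Submodule.mem_orthogonal_singleton_iff_inner_right]
      exact hu
    rw [← hrange] at h3
    obtain ⟨e, he⟩ := h3
    exact ⟨e, he⟩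
  obtain ⟨a, rfl⟩ := hmem v hv
  obtain ⟨b, rfl⟩ := hmem w hw
  exact ⟨a, b, hD⟩

private theorem BD_den0 (x : S2) : det3 x (BD_T x (EuclideanSpace.single 0 1))
    (BD_T x (EuclideanSpace.single 1 1)) ≠ 0 := by
  obtain ⟨a, b, h⟩ := BD_nonzero x
  have h1 := BD_detE (BD_T x : E2 →ₗ[ℝ] E3) x a b
  simp only [ContinuousLinearMap.coe_coe] at h1
  intro h2
  rw [h2, mul_zero] at h1
  exact h h1

section

variable {S : Type*} [MetricSpace S] [ChartedSpace E2 S] [IsManifold (𝓡 2) ∞ S]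

/-- the derivative of the diffeomorphism -/
private noncomputable def BD_D (Ψ : Diffeomorph (𝓡 2) (𝓡 2) S2 S ∞) (x : S2) : E2 →L[ℝ] E2 :=
  mfderiv (𝓡 2) (𝓡 2) Ψ x

/-- the pulled back form -/
private noncomputable def BD_om (Ψ : Diffeomorph (𝓡 2) (𝓡 2) S2 S ∞)
    (om : ∀ x : S, TangentSpace (𝓡 2) x →ₗ[ℝ] TangentSpace (𝓡 2) x →ₗ[ℝ] ℝ) (x : S2) :
    E2 →ₗ[ℝ] E2 →ₗ[ℝ] ℝ :=
  LinearMap.compl₁₂ (om (Ψ x)) (BD_D Ψ x : E2 →ₗ[ℝ] E2) (BD_D Ψ x : E2 →ₗ[ℝ] E2)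

omit [IsManifold (𝓡 2) ∞ S] in
private theorem BD_om_apply (Ψ : Diffeomorph (𝓡 2) (𝓡 2) S2 S ∞)
    (om : ∀ x : S, TangentSpace (𝓡 2) x →ₗ[ℝ] TangentSpace (𝓡 2) x →ₗ[ℝ] ℝ) (x : S2) (v w : E2) :
    BD_om Ψ om x v w = om (Ψ x) (mfderiv (𝓡 2) (𝓡 2) Ψ x v) (mfderiv (𝓡 2) (𝓡 2) Ψ x w) := rfl

private noncomputable def BD_rho (Ψ : Diffeomorph (𝓡 2) (𝓡 2) S2 S ∞)
    (om : ∀ x : S, TangentSpace (𝓡 2) x →ₗ[ℝ] TangentSpace (𝓡 2) x →ₗ[ℝ] ℝ) (x : S2) : ℝ :=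
  BD_om Ψ om x (EuclideanSpace.single 0 1) (EuclideanSpace.single 1 1) /
    det3 x (BD_T x (EuclideanSpace.single 0 1)) (BD_T x (EuclideanSpace.single 1 1))

omit [IsManifold (𝓡 2) ∞ S] in
private theorem BD_key (Ψ : Diffeomorph (𝓡 2) (𝓡 2) S2 S ∞)
    (om : ∀ x : S, TangentSpace (𝓡 2) x →ₗ[ℝ] TangentSpace (𝓡 2) x →ₗ[ℝ] ℝ)
    (hom : Surf.IsAreaForm om) (x : S2) (v w : E2) :
    BD_om Ψ om x v w = BD_rho Ψ om x * det3 x (BD_T x v) (BD_T x w) := by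
  have h1 := BD_form (BD_om Ψ om x) (fun v => hom.alt _ _) v w
  have h2 := BD_detE (BD_T x : E2 →ₗ[ℝ] E3) x v w
  simp only [ContinuousLinearMap.coe_coe] at h2
  rw [h1, h2, BD_rho]
  have := BD_den0 x
  field_simp

omit [IsManifold (𝓡 2) ∞ S] in
private theorem BD_surj (Ψ : Diffeomorph (𝓡 2) (𝓡 2) S2 S ∞) (x : S2) (u : E2) :
    ∃ v : E2, BD_D Ψ x v = u := by
  have h1 : MDifferentiableAt (𝓡 2) (𝓡 2) Ψ x :=
    (Ψ.contMDiff.contMDiffAt).mdifferentiableAt (by simp)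
  have h2 : MDifferentiableAt (𝓡 2) (𝓡 2) Ψ.symm (Ψ x) :=
    (Ψ.symm.contMDiff.contMDiffAt).mdifferentiableAt (by simp)
  have h3 : mfderiv (𝓡 2) (𝓡 2) (Ψ.symm ∘ Ψ) x =
      (mfderiv (𝓡 2) (𝓡 2) Ψ.symm (Ψ x)).comp (mfderiv (𝓡 2) (𝓡 2) Ψ x) := mfderiv_comp x h2 h1
  have h4 : (Ψ.symm ∘ Ψ : S2 → S2) = id := by
    funext y
    exact Ψ.symm_apply_apply y
  rw [h4, mfderiv_id] at h3
  have hinj : Function.Injective (BD_D Ψ x : E2 →ₗ[ℝ] E2) := by
    intro v w hvw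
    have e1 : ∀ v : E2, (mfderiv (𝓡 2) (𝓡 2) Ψ.symm (Ψ x) : E2 →L[ℝ] E2) (BD_D Ψ x v) = v := by
      intro v
      exact (DFunLike.congr_fun h3 v).symm
    rw [← e1 v, ← e1 w]
    exact congrArg _ hvw
  exact LinearMap.injective_iff_surjective.1 hinj u

omit [IsManifold (𝓡 2) ∞ S] in
private theorem BD_rho_ne (Ψ : Diffeomorph (𝓡 2) (𝓡 2) S2 S ∞)
    (om : ∀ x : S, TangentSpace (𝓡 2) x →ₗ[ℝ] TangentSpace (𝓡 2) x →ₗ[ℝ] ℝ)
    (hom : Surf.IsAreaForm om) (x : S2) : BD_rho Ψ om x ≠ 0 := by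
  intro h
  obtain ⟨v, w, hvw⟩ := hom.ne (Ψ x)
  obtain ⟨v', rfl⟩ := BD_surj Ψ x v
  obtain ⟨w', rfl⟩ := BD_surj Ψ x w
  apply hvw
  have := BD_key Ψ om hom x v' w'
  rw [h, zero_mul] at this
  exact this


omit [IsManifold (𝓡 2) ∞ S] in
/-- continuity in a stereographic chart -/
private theorem BD_cont_chart (Ψ : Diffeomorph (𝓡 2) (𝓡 2) S2 S ∞)
    (om : ∀ x : S, TangentSpace (𝓡 2) x →ₗ[ℝ] TangentSpace (𝓡 2) x →ₗ[ℝ] ℝ)
    (hom : Surf.IsAreaForm om) {O : S2} {p : S2 → ℂ} {q : ℂ → S2} (h : SC O p q) :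
    Continuous (fun z => BD_rho Ψ om (q z)) := by
  have hq : ∀ z, MDifferentiableAt 𝓘(ℝ, ℂ) (𝓡 2) q z := fun z =>
    (h.q_smooth.contMDiffAt).mdifferentiableAt (by norm_num)
  have hΨ : ∀ x, MDifferentiableAt (𝓡 2) (𝓡 2) Ψ x := fun x =>
    (Ψ.contMDiff.contMDiffAt).mdifferentiableAt (by simp)
  have hc : ∀ x : S2, MDifferentiableAt (𝓡 2) 𝓘(ℝ, E3) (fun y : S2 => (y : E3)) x := fun x =>
    ((contMDiff_coe_sphere (m := 1)).contMDiffAt).mdifferentiableAt (by norm_num)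
  let Q : ℂ → (ℂ →L[ℝ] E2) := fun z => mfderiv 𝓘(ℝ, ℂ) (𝓡 2) q z
  let N : ℂ → ℝ := fun z => BD_om Ψ om (q z) (Q z 1) (Q z Complex.I)
  have hN : Continuous N := by
    have h1 := hom.cont (Ψ ∘ q) ((Ψ.contMDiff.of_le (by simp)).comp h.q_smooth)
    have h2 : N = (fun z => om ((Ψ ∘ q) z) (mfderiv 𝓘(ℝ, ℂ) (𝓡 2) (Ψ ∘ q) z (1:ℂ))
      (mfderiv 𝓘(ℝ, ℂ) (𝓡 2) (Ψ ∘ q) z Complex.I)) := by
      funext z
      have h3 : mfderiv 𝓘(ℝ, ℂ) (𝓡 2) (Ψ ∘ q) z =
          (mfderiv (𝓡 2) (𝓡 2) Ψ (q z)).comp (mfderiv 𝓘(ℝ, ℂ) (𝓡 2) q z) :=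
        mfderiv_comp z (hΨ _) (hq z)
      rw [h3]
      rfl
    rw [h2]
    exact h1
  -- the chart as a map into the space
  have hqE : ContDiff ℝ 1 (fun z => (q z : E3)) := by
    rw [← contMDiff_iff_contDiff]
    exact (contMDiff_coe_sphere (m := 1)).comp h.q_smooth
  have hqE' : ∀ (z w : ℂ), BD_T (q z) (Q z w) = fderiv ℝ (fun z => (q z : E3)) z w := by
    intro z w
    have h3 : mfderiv 𝓘(ℝ, ℂ) 𝓘(ℝ, E3) ((fun y : S2 => (y : E3)) ∘ q) z =
        (mfderiv (𝓡 2) 𝓘(ℝ, E3) (fun y : S2 => (y : E3)) (q z)).comp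
          (mfderiv 𝓘(ℝ, ℂ) (𝓡 2) q z) := mfderiv_comp z (hc _) (hq z)
    rw [mfderiv_eq_fderiv] at h3
    exact (DFunLike.congr_fun h3 w).symm
  have hfd : Continuous (fderiv ℝ (fun z => (q z : E3))) := hqE.continuous_fderiv (by norm_num)
  let M : ℂ → ℝ := fun z => det3 (q z) (BD_T (q z) (Q z 1)) (BD_T (q z) (Q z Complex.I))
  have hM : Continuous M := by
    have e0 : Continuous (fun z => (q z : E3)) := hqE.continuous
    have e1 : Continuous (fun z => fderiv ℝ (fun z => (q z : E3)) z 1) :=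
      hfd.clm_apply continuous_const
    have e2 : Continuous (fun z => fderiv ℝ (fun z => (q z : E3)) z Complex.I) :=
      hfd.clm_apply continuous_const
    have h2 : M = fun z => det3 (q z) (fderiv ℝ (fun z => (q z : E3)) z 1)
        (fderiv ℝ (fun z => (q z : E3)) z Complex.I) := by
      funext z
      change det3 (q z) (BD_T (q z) (Q z 1)) (BD_T (q z) (Q z Complex.I)) = _
      rw [hqE', hqE']
    rw [h2]
    have f0 : ∀ i : Fin 3, Continuous (fun z => (q z : E3) i) := fun i =>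
      (EuclideanSpace.proj i : E3 →L[ℝ] ℝ).continuous.comp e0
    have f1 : ∀ i : Fin 3, Continuous (fun z => (fderiv ℝ (fun z => (q z : E3)) z 1) i) := fun i =>
      (EuclideanSpace.proj i : E3 →L[ℝ] ℝ).continuous.comp e1
    have f2 : ∀ i : Fin 3, Continuous (fun z => (fderiv ℝ (fun z => (q z : E3)) z Complex.I) i) :=
      fun i => (EuclideanSpace.proj i : E3 →L[ℝ] ℝ).continuous.comp e2
    simp only [det3, Matrix.det_fin_three, Matrix.of_apply, Matrix.cons_val', Matrix.cons_val_zero,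
      Matrix.cons_val_one, Matrix.cons_val]
    fun_prop (disch := assumption)
  have hM0 : ∀ z, M z ≠ 0 := by
    intro z hz
    obtain ⟨a, b, hab⟩ := BD_nonzero (q z)
    -- surjectivity of the derivative
    have hp : MDifferentiableAt (𝓡 2) 𝓘(ℝ, ℂ) p (q z) :=
      (h.p_smooth.contMDiffAt (isOpen_compl_singleton.mem_nhds (h.q_ne z))).mdifferentiableAt
        (by norm_num)
    have h3 : mfderiv 𝓘(ℝ, ℂ) 𝓘(ℝ, ℂ) (p ∘ q) z =
        (mfderiv (𝓡 2) 𝓘(ℝ, ℂ) p (q z)).comp (mfderiv 𝓘(ℝ, ℂ) (𝓡 2) q z) :=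
      mfderiv_comp z hp (hq z)
    have h4 : p ∘ q = id := by
      funext y
      exact h.pq y
    rw [h4, mfderiv_id] at h3
    have hinj : Function.Injective (Q z : ℂ →ₗ[ℝ] E2) := by
      intro v w hvw
      have e1 : ∀ v : ℂ, (mfderiv (𝓡 2) 𝓘(ℝ, ℂ) p (q z) : E2 →L[ℝ] ℂ) (Q z v) = v := by
        intro v
        exact (DFunLike.congr_fun h3 v).symm
      rw [← e1 v, ← e1 w]
      exact congrArg _ hvw
    have hsurj : Function.Surjective (Q z : ℂ →ₗ[ℝ] E2) := by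
      refine (LinearMap.injective_iff_surjective_of_finrank_eq_finrank ?_).1 hinj
      simp [Complex.finrank_real_complex]
    obtain ⟨s, rfl⟩ := hsurj a
    obtain ⟨s', rfl⟩ := hsurj b
    have h5 := BD_detC ((BD_T (q z) ∘L Q z : ℂ →L[ℝ] E3) : ℂ →ₗ[ℝ] E3) (q z) s s'
    simp only [ContinuousLinearMap.coe_coe, ContinuousLinearMap.comp_apply] at h5
    apply hab
    refine h5.trans ?_
    have h6 : det3 (q z) (BD_T (q z) (Q z 1)) (BD_T (q z) (Q z Complex.I)) = 0 := hz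
    rw [h6, mul_zero]
  have hfin : (fun z => BD_rho Ψ om (q z)) = fun z => N z / M z := by
    funext z
    have h1 := BD_key Ψ om hom (q z) (Q z 1) (Q z Complex.I)
    rw [eq_div_iff (hM0 z)]
    exact h1.symm
  rw [hfin]
  exact hN.div hM hM0

omit [IsManifold (𝓡 2) ∞ S] in
private theorem BD_cont (Ψ : Diffeomorph (𝓡 2) (𝓡 2) S2 S ∞)
    (om : ∀ x : S, TangentSpace (𝓡 2) x →ₗ[ℝ] TangentSpace (𝓡 2) x →ₗ[ℝ] ℝ)
    (hom : Surf.IsAreaForm om) : Continuous (BD_rho Ψ om) := by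
  rw [continuous_iff_continuousAt]
  intro x
  obtain ⟨p, q, h⟩ := exists_SC (-x)
  have hne : x ≠ -x := by
    intro hx
    have h1 : (x : E3) = -(x : E3) := congrArg Subtype.val hx
    have h2 : ‖(x : E3)‖ = 1 := by simp
    have h3 : (x : E3) = 0 := by
      ext i
      have h4 := congrArg (fun v : E3 => v i) h1
      simp only [PiLp.neg_apply] at h4
      simp only [PiLp.zero_apply]
      linarith
    rw [h3] at h2
    simp at h2
  have hx : {-x}ᶜ ∈ 𝓝 x := isOpen_compl_singleton.mem_nhds hne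
  have h1 : ContinuousAt (fun y => BD_rho Ψ om (q (p y))) x := by
    have h2 : ContinuousAt p x := (h.p_smooth.continuousOn).continuousAt hx
    exact ContinuousAt.comp (g := fun z => BD_rho Ψ om (q z)) (BD_cont_chart Ψ om hom h).continuousAt h2
  refine h1.congr ?_
  filter_upwards [hx] with y hy
  rw [h.qp y hy]

end

theorem BD_area {S : Type*} [MetricSpace S] [ChartedSpace E2 S] [IsManifold (𝓡 2) ∞ S]
    (Ψ : Diffeomorph (𝓡 2) (𝓡 2) S2 S ∞) (f : Diffeomorph (𝓡 2) (𝓡 2) S S 1)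
    (om : ∀ x : S, TangentSpace (𝓡 2) x →ₗ[ℝ] TangentSpace (𝓡 2) x →ₗ[ℝ] ℝ)
    (hom : Surf.IsAreaForm om) (hf : Surf.PreservesArea om f) :
    ∃ ρ : S2 → ℝ, Continuous ρ ∧ (∀ x, 0 < ρ x) ∧
      PreservesArea ρ (fun y => Ψ.symm (f (Ψ y))) := by
  have hcont := BD_cont Ψ om hom
  have hne := BD_rho_ne Ψ om hom
  -- invariance
  have hinv : PreservesArea (BD_rho Ψ om) (fun y => Ψ.symm (f (Ψ y))) := by
    intro x v w
    set g : S2 → S2 := fun y => Ψ.symm (f (Ψ y)) with hg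
    have hΨ : ∀ x, MDifferentiableAt (𝓡 2) (𝓡 2) Ψ x := fun x =>
      (Ψ.contMDiff.contMDiffAt).mdifferentiableAt (by simp)
    have hΨs : ∀ x, MDifferentiableAt (𝓡 2) (𝓡 2) Ψ.symm x := fun x =>
      (Ψ.symm.contMDiff.contMDiffAt).mdifferentiableAt (by simp)
    have hfd : ∀ x, MDifferentiableAt (𝓡 2) (𝓡 2) f x := fun x =>
      (f.contMDiff.contMDiffAt).mdifferentiableAt (by norm_num)
    have hgd : MDifferentiableAt (𝓡 2) (𝓡 2) g x :=
      (hΨs _).comp x ((hfd _).comp x (hΨ x))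
    have h1 : mfderiv (𝓡 2) (𝓡 2) (Ψ ∘ g) x =
        (mfderiv (𝓡 2) (𝓡 2) Ψ (g x)).comp (mfderiv (𝓡 2) (𝓡 2) g x) :=
      mfderiv_comp x (hΨ _) hgd
    have h2 : (Ψ ∘ g : S2 → S) = f ∘ Ψ := by
      funext y
      exact Ψ.apply_symm_apply _
    have h3 : mfderiv (𝓡 2) (𝓡 2) (f ∘ Ψ) x =
        (mfderiv (𝓡 2) (𝓡 2) f (Ψ x)).comp (mfderiv (𝓡 2) (𝓡 2) Ψ x) :=
      mfderiv_comp x (hfd _) (hΨ x)
    have h4 : ∀ (y : S), y = f (Ψ x) → ∀ (L : E2 →L[ℝ] E2),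
        L = (mfderiv (𝓡 2) (𝓡 2) f (Ψ x) : E2 →L[ℝ] E2).comp (mfderiv (𝓡 2) (𝓡 2) Ψ x : E2 →L[ℝ] E2) →
        om y (L v) (L w) = om (Ψ x) (mfderiv (𝓡 2) (𝓡 2) Ψ x v) (mfderiv (𝓡 2) (𝓡 2) Ψ x w) := by
      rintro y rfl L rfl
      exact hf (Ψ x) _ _
    have h5 := h4 (Ψ (g x)) (Ψ.apply_symm_apply _) ((mfderiv (𝓡 2) (𝓡 2) Ψ (g x) : E2 →L[ℝ] E2).comp
      (mfderiv (𝓡 2) (𝓡 2) g x : E2 →L[ℝ] E2)) (by
        have h6 : (mfderiv (𝓡 2) (𝓡 2) (Ψ ∘ g) x : E2 →L[ℝ] E2) = mfderiv (𝓡 2) (𝓡 2) (f ∘ Ψ) x := by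
          rw [h2]
        exact h1.symm.trans (h6.trans h3))
    have h7 := BD_key Ψ om hom (g x) (mfderiv (𝓡 2) (𝓡 2) g x v) (mfderiv (𝓡 2) (𝓡 2) g x w)
    have h8 := BD_key Ψ om hom x v w
    exact h7.symm.trans (h5.trans h8)
  -- the sign
  have hsign : (∀ x, 0 < BD_rho Ψ om x) ∨ (∀ x, BD_rho Ψ om x < 0) := by
    have hconn : PreconnectedSpace S2 := by
      have hr : 1 < Module.rank ℝ E3 := by
        rw [← Module.finrank_eq_rank, finrank_euclideanSpace_fin]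
        exact_mod_cast (by norm_num : 1 < 3)
      exact isPreconnected_iff_preconnectedSpace.1 (isPreconnected_sphere hr 0 1)
    by_contra hcon
    push Not at hcon
    obtain ⟨⟨a, ha⟩, ⟨b, hb⟩⟩ := hcon
    obtain ⟨z, hz⟩ := mem_range_of_exists_le_of_exists_ge hcont ⟨a, ha⟩ ⟨b, hb⟩
    exact hne z hz
  rcases hsign with h | h
  · exact ⟨BD_rho Ψ om, hcont, h, hinv⟩
  · refine ⟨fun x => - BD_rho Ψ om x, hcont.neg, fun x => neg_pos.2 (h x), ?_⟩
    intro x v w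
    have := hinv x v w
    unfold areaForm at this ⊢
    simp only [neg_mul]
    rw [this]

end DS
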