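import Pool.Agent.H36.DS.FIN
import Pool.Agent.H36.DS.BB
import Pool.Agent.H36.DS.BD

/-!
BE (the theorem for surfaces diffeomorphic to the sphere).  Proof.  Replace `f` by the same map regarded as a `C¹`
diffeomorphism (`1 ≤ r`).  `f' = (Ψ.trans f).trans Ψ.symm` as a `C¹` diffeomorphism of the sphere.  `BD_area`, `BB_cond1`,
`BB_cond2`, `BA_cond4`, `BA_per` give the hypotheses of `sphere_main` (`r = 1`); `BA_dense` gives the conclusion.
-/

namespace DS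
open Metric Set Filter Topology Function
open scoped Manifold ContDiff

theorem sphere_case (S : Type) [MetricSpace S] [ChartedSpace E2 S] [IsManifold (𝓡 2) ∞ S]
    [CompactSpace S] (Ψ : Diffeomorph (𝓡 2) (𝓡 2) S2 S ∞) (r : WithTop ℕ∞) (hr : 1 ≤ r)
    (f : Diffeomorph (𝓡 2) (𝓡 2) S S r)
    (om : ∀ x : S, TangentSpace (𝓡 2) x →ₗ[ℝ] TangentSpace (𝓡 2) x →ₗ[ℝ] ℝ)
    (hom : Surf.IsAreaForm om) (hf : Surf.PreservesArea om f) (hper : (periodicPts f).Nonempty)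
    (h1 : Surf.Cond1 f) (h2 : Surf.Cond2 f f.symm) (h4 : Surf.Cond4 f) :
    Dense (⋃ P ∈ periodicPts f, Surf.stableSet f P) := by
  let f1 : Diffeomorph (𝓡 2) (𝓡 2) S S 1 :=
    { toEquiv := f.toEquiv
      contMDiff_toFun := f.contMDiff.of_le hr
      contMDiff_invFun := f.symm.contMDiff.of_le hr }
  let Ψ1 : Diffeomorph (𝓡 2) (𝓡 2) S2 S 1 :=
    { toEquiv := Ψ.toEquiv
      contMDiff_toFun := Ψ.contMDiff.of_le (by exact_mod_cast le_top)
      contMDiff_invFun := Ψ.symm.contMDiff.of_le (by exact_mod_cast le_top) }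
  let f' : Diffeomorph (𝓡 2) (𝓡 2) S2 S2 1 := (Ψ1.trans f1).trans Ψ1.symm
  have e1 : (f' : S2 → S2) = fun y => Ψ.symm (f1 (Ψ y)) := rfl
  have e2 : (f'.symm : S2 → S2) = fun y => Ψ.symm (f1.symm (Ψ y)) := rfl
  have hf1 : Surf.PreservesArea om f1 := hf
  obtain ⟨ρ, hρ, hρ0, hρf⟩ := BD_area Ψ f1 om hom hf1
  have hper' : (periodicPts f').Nonempty := by
    obtain ⟨P, hP⟩ := hper
    refine ⟨Ψ.symm P, ?_⟩
    rw [e1]
    rw [BB_per Ψ f1, Ψ.apply_symm_apply]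
    exact hP
  have hd := sphere_main 1 le_rfl f' ρ hρ hρ0 hρf hper' (BB_cond1 Ψ f1 h1) (BB_cond2 Ψ f1 h2)
    (BA_cond4 Ψ.toHomeomorph f1 h4)
  exact BA_dense Ψ.toHomeomorph f1 hd

end DS
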