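import Pool.Agent.H36.DS.FBase

/-!
FA (Lipschitz invariant graph over the expanding direction, by the graph transform).
WLOG `η ≤ 1`.  Write `F z = diagL l m z + f z`; `f` is `ε`-Lipschitz (mean value), bounded by `C`, `f 0 = 0`.
Let `E` be the set of bounded continuous functions `w : ℝ → ℝ` with `w 0 = 0`, Lipschitz constant `≤ η`, and
`|w y| ≤ C / (1 - l)`: a closed subset of `BoundedContinuousFunction ℝ ℝ`, complete, nonempty.
For `w ∈ E` the map `g_w y = (F ⟨w y, y⟩).im = m y + f₂ (w y, y)` is strictly increasing and onto, with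
`|g_w y - g_w y'| ≥ (m - 2ε) |y - y'|` (continuous, tends to `± ∞`); let `Γ w y' = (F ⟨w y, y⟩).re` for the `y` with
`g_w y = y'`.  `Γ w 0 = 0`; `|Γ w y'| ≤ l sup |w| + C`, Lipschitz constant `≤ (l η + 2 ε) / (m - 2 ε) ≤ η` for
`ε` small (`ε` depends on `l, m, η`; `(m - l) η ≥ 2 ε (1 + η)` suffices).
Contraction: if `g_w y = y' = g_v z`, then `m |y - z| ≤ |f₂ (w y, y) - f₂ (v z, z)| ≤ ε (‖w - v‖ + 2 |y - z|)`
(`|w y - v z| ≤ ‖w - v‖ + η |y - z|`), so `|y - z| ≤ ε ‖w - v‖ / (m - 2 ε)` and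
`|Γ w y' - Γ v y'| ≤ l (‖w - v‖ + |y - z|) + ε (‖w - v‖ + 2 |y - z|) ≤ θ ‖w - v‖` with `θ < 1` for `ε` small.
The fixed point `w` satisfies the claims.
-/

namespace DS
open Metric Set Filter Topology

/-- admissible functions -/
def FA_E (η : ℝ) : Set (BoundedContinuousFunction ℝ ℝ) :=
  {w | w 0 = 0 ∧ ∀ y y', |w y - w y'| ≤ η * |y - y'|}

theorem FA_closed (η : ℝ) : IsClosed (FA_E η) := by
  have h1 : FA_E η = {w : BoundedContinuousFunction ℝ ℝ | w 0 = 0} ∩
      ⋂ y, ⋂ y', {w : BoundedContinuousFunction ℝ ℝ | |w y - w y'| ≤ η * |y - y'|} := by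
    ext w
    simp [FA_E]
  rw [h1]
  have hc : ∀ y : ℝ, Continuous fun w : BoundedContinuousFunction ℝ ℝ => w y :=
    fun y => continuous_eval_const y
  refine IsClosed.inter (isClosed_eq (hc 0) continuous_const) ?_
  refine isClosed_iInter fun y => isClosed_iInter fun y' => ?_
  exact isClosed_le ((hc y).sub (hc y')).abs continuous_const

/-- the data of the graph transform -/
structure FA_D (l m η ε C : ℝ) (f1 f2 : ℝ → ℝ → ℝ) : Prop where
  l0 : 0 < l
  l1 : l < 1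
  m1 : 1 < m
  η0 : 0 < η
  η1 : η ≤ 1
  ε0 : 0 < ε
  εm : 4 * ε ≤ η * (m - 1)
  εl : 8 * ε ≤ 1 - l
  h1 : ∀ x y x' y', |f1 x y - f1 x' y'| ≤ ε * (|x - x'| + |y - y'|)
  h2 : ∀ x y x' y', |f2 x y - f2 x' y'| ≤ ε * (|x - x'| + |y - y'|)
  z2 : f2 0 0 = 0
  z1 : f1 0 0 = 0
  hC : ∀ x y, |f1 x y| ≤ C

section
variable {l m η ε C : ℝ} {f1 f2 : ℝ → ℝ → ℝ} (D : FA_D l m η ε C f1 f2)
include D

theorem FA_D.εm' : 4 * ε ≤ m - 1 := by
  have h1 := D.εm
  have h2 := D.η1
  have h3 := D.m1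
  nlinarith

theorem FA_lip2 {w : BoundedContinuousFunction ℝ ℝ} (hw : w ∈ FA_E η) (y y' : ℝ) :
    |f2 (w y) y - f2 (w y') y'| ≤ 2 * ε * |y - y'| := by
  have h1 := D.h2 (w y) y (w y') y'
  have h2 := hw.2 y y'
  have h3 := D.η1
  have h4 := D.ε0
  have h5 := abs_nonneg (y - y')
  have h6 : |w y - w y'| ≤ |y - y'| := h2.trans (by nlinarith)
  nlinarith

theorem FA_lip1 {w : BoundedContinuousFunction ℝ ℝ} (hw : w ∈ FA_E η) (y y' : ℝ) :
    |(l * w y + f1 (w y) y) - (l * w y' + f1 (w y') y')| ≤ (l * η + 2 * ε) * |y - y'| := by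
  have h1 := D.h1 (w y) y (w y') y'
  have h2 := hw.2 y y'
  have h3 := D.η1
  have h4 := D.ε0
  have h5 := abs_nonneg (y - y')
  have h6 : |w y - w y'| ≤ |y - y'| := h2.trans (by nlinarith)
  have h7 : (l * w y + f1 (w y) y) - (l * w y' + f1 (w y') y')
      = l * (w y - w y') + (f1 (w y) y - f1 (w y') y') := by ring
  rw [h7]
  refine (abs_add_le _ _).trans ?_
  rw [abs_mul, abs_of_pos D.l0]
  have h8 : l * |w y - w y'| ≤ l * (η * |y - y'|) := mul_le_mul_of_nonneg_left h2 D.l0.le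
  nlinarith

theorem FA_mono {w : BoundedContinuousFunction ℝ ℝ} (hw : w ∈ FA_E η) {y y' : ℝ} (h : y ≤ y') :
    (m - 2 * ε) * (y' - y) ≤ (m * y' + f2 (w y') y') - (m * y + f2 (w y) y) := by
  have h1 := FA_lip2 D hw y' y
  rw [abs_of_nonneg (sub_nonneg.2 h)] at h1
  have h2 := (abs_le.1 h1).1
  linarith

theorem FA_abs {w : BoundedContinuousFunction ℝ ℝ} (hw : w ∈ FA_E η) (y y' : ℝ) :
    (m - 2 * ε) * |y' - y| ≤ |(m * y' + f2 (w y') y') - (m * y + f2 (w y) y)| := by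
  rcases le_total y y' with h | h
  · rw [abs_of_nonneg (sub_nonneg.2 h)]
    exact (FA_mono D hw h).trans (le_abs_self _)
  · rw [abs_sub_comm y' y, abs_of_nonneg (sub_nonneg.2 h), abs_sub_comm]
    exact (FA_mono D hw h).trans (le_abs_self _)

theorem FA_surj {w : BoundedContinuousFunction ℝ ℝ} (hw : w ∈ FA_E η) :
    Function.Surjective fun y => m * y + f2 (w y) y := by
  have h4 := D.εm'
  have h4' := D.m1
  have h4'' := D.ε0
  have hc : Continuous fun y => m * y + f2 (w y) y := by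
    have h1 : Continuous fun y => f2 (w y) y := by
      have h2 : LipschitzWith (Real.toNNReal (2 * ε)) fun y => f2 (w y) y := by
        refine LipschitzWith.of_dist_le_mul fun a b => ?_
        rw [Real.dist_eq, Real.dist_eq, Real.coe_toNNReal _ (by linarith)]
        exact FA_lip2 D hw a b
      exact h2.continuous
    exact (continuous_const.mul continuous_id).add h1
  have h0 : m * 0 + f2 (w 0) 0 = 0 := by rw [hw.1, D.z2]; ring
  refine hc.surjective ?_ ?_
  · have h5 : Tendsto (fun y : ℝ => (m - 2 * ε) * y) atTop atTop :=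
      Tendsto.const_mul_atTop (by linarith) tendsto_id
    refine tendsto_atTop_mono' _ ?_ h5
    filter_upwards [eventually_ge_atTop (0 : ℝ)] with y hy
    have := FA_mono D hw hy
    rw [h0] at this
    linarith
  · have h5 : Tendsto (fun y : ℝ => (m - 2 * ε) * y) atBot atBot :=
      Tendsto.const_mul_atBot (by linarith) tendsto_id
    refine tendsto_atBot_mono' _ ?_ h5
    filter_upwards [eventually_le_atBot (0 : ℝ)] with y hy
    have := FA_mono D hw hy
    rw [h0] at this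
    linarith

theorem FA_step {w : BoundedContinuousFunction ℝ ℝ} (hw : w ∈ FA_E η) :
    ∃ v ∈ FA_E η, ∀ y, v (m * y + f2 (w y) y) = l * w y + f1 (w y) y := by
  have h4 := D.εm'
  have h4' := D.m1
  have h4'' := D.ε0
  have hsurj := FA_surj D hw
  obtain ⟨h, hh⟩ : ∃ h : ℝ → ℝ, ∀ a, m * h a + f2 (w (h a)) (h a) = a :=
    ⟨Function.surjInv hsurj, fun a => Function.surjInv_eq hsurj a⟩
  have hinj : ∀ y y', m * y + f2 (w y) y = m * y' + f2 (w y') y' → y = y' := by
    intro y y' he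
    have h5 := FA_abs D hw y y'
    rw [he, sub_self, abs_zero] at h5
    have h6 := abs_nonneg (y' - y)
    have h7 : |y' - y| = 0 := by nlinarith
    have h8 := abs_eq_zero.1 h7
    linarith
  have hlip : ∀ a b, |(l * w (h a) + f1 (w (h a)) (h a)) - (l * w (h b) + f1 (w (h b)) (h b))|
      ≤ η * |a - b| := by
    intro a b
    have h5 := FA_lip1 D hw (h a) (h b)
    have h6 := FA_abs D hw (h b) (h a)
    rw [hh, hh] at h6
    have h7 := abs_nonneg (h a - h b)
    have h8 : l * η + 2 * ε ≤ η * (m - 2 * ε) := by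
      have := D.εm
      have := D.η1
      have := D.l1
      have := D.η0
      nlinarith
    calc _ ≤ (l * η + 2 * ε) * |h a - h b| := h5
      _ ≤ (η * (m - 2 * ε)) * |h a - h b| := mul_le_mul_of_nonneg_right h8 h7
      _ = η * ((m - 2 * ε) * |h a - h b|) := by ring
      _ ≤ η * |a - b| := mul_le_mul_of_nonneg_left h6 D.η0.le
  have hcont : Continuous fun a => l * w (h a) + f1 (w (h a)) (h a) := by
    have h2 : LipschitzWith (Real.toNNReal η) fun a => l * w (h a) + f1 (w (h a)) (h a) := by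
      refine LipschitzWith.of_dist_le_mul fun a b => ?_
      rw [Real.dist_eq, Real.dist_eq, Real.coe_toNNReal _ D.η0.le]
      exact hlip a b
    exact h2.continuous
  refine ⟨BoundedContinuousFunction.ofNormedAddCommGroup
    (fun a => l * w (h a) + f1 (w (h a)) (h a)) hcont (l * ‖w‖ + C) ?_, ⟨?_, ?_⟩, ?_⟩
  · intro a
    rw [Real.norm_eq_abs]
    refine (abs_add_le _ _).trans ?_
    rw [abs_mul, abs_of_pos D.l0]
    have h5 := w.norm_coe_le_norm (h a)
    rw [Real.norm_eq_abs] at h5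
    have h6 := D.hC (w (h a)) (h a)
    have h7 := D.l0
    nlinarith
  · show l * w (h 0) + f1 (w (h 0)) (h 0) = 0
    have h5 : h 0 = 0 := by
      apply hinj
      rw [hh, hw.1, D.z2]
      ring
    rw [h5, hw.1, D.z1]
    ring
  · intro a b
    exact hlip a b
  · intro y
    show l * w (h (m * y + f2 (w y) y)) + f1 (w (h (m * y + f2 (w y) y))) (h (m * y + f2 (w y) y)) = _
    rw [hinj _ _ (hh (m * y + f2 (w y) y))]

theorem FA_contr {w w' v v' : BoundedContinuousFunction ℝ ℝ} (hw : w ∈ FA_E η) (hw' : w' ∈ FA_E η)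
    (hv : ∀ y, v (m * y + f2 (w y) y) = l * w y + f1 (w y) y)
    (hv' : ∀ y, v' (m * y + f2 (w' y) y) = l * w' y + f1 (w' y) y) :
    dist v v' ≤ (1 + l) / 2 * dist w w' := by
  have hl0 := D.l0
  have hl1 := D.l1
  have h4 := D.εm'
  have h4' := D.m1
  have h4'' := D.ε0
  have hεl := D.εl
  have hη1 := D.η1
  have hη0 := D.η0
  rw [BoundedContinuousFunction.dist_le (by have := dist_nonneg (x := w) (y := w'); nlinarith)]
  intro a
  obtain ⟨y, hy⟩ := FA_surj D hw a
  obtain ⟨z, hz⟩ := FA_surj D hw' a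
  have hy' : m * y + f2 (w y) y = a := hy
  have hz' : m * z + f2 (w' z) z = a := hz
  obtain ⟨Δ, hΔ⟩ : ∃ Δ, Δ = dist w w' := ⟨_, rfl⟩
  have hΔ0 : 0 ≤ Δ := by rw [hΔ]; exact dist_nonneg
  have e1 : |w y - w' z| ≤ Δ + |y - z| := by
    have h5 : |w y - w' y| ≤ Δ := by
      rw [hΔ, ← Real.dist_eq]
      exact BoundedContinuousFunction.dist_coe_le_dist y
    have h6 := hw'.2 y z
    have h7 := abs_nonneg (y - z)
    have h8 : |w y - w' z| ≤ |w y - w' y| + |w' y - w' z| := abs_sub_le _ _ _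
    nlinarith
  have e2 : m * |y - z| ≤ ε * (Δ + 2 * |y - z|) := by
    have h5 : m * (y - z) = f2 (w' z) z - f2 (w y) y := by linarith
    have h6 : m * |y - z| = |f2 (w' z) z - f2 (w y) y| := by
      rw [← h5, abs_mul, abs_of_pos (show (0 : ℝ) < m by linarith)]
    rw [h6, abs_sub_comm]
    refine (D.h2 (w y) y (w' z) z).trans ?_
    apply mul_le_mul_of_nonneg_left _ h4''.le
    linarith
  have e3 : |y - z| ≤ ε * Δ := by
    have h7 := abs_nonneg (y - z)
    nlinarith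
  have e4 : v a - v' a = l * (w y - w' z) + (f1 (w y) y - f1 (w' z) z) := by
    have h5 := hv y
    have h6 := hv' z
    rw [hy'] at h5
    rw [hz'] at h6
    rw [h5, h6]
    ring
  rw [Real.dist_eq, e4, ← hΔ]
  refine (abs_add_le _ _).trans ?_
  rw [abs_mul, abs_of_pos hl0]
  have e5 := D.h1 (w y) y (w' z) z
  have e6 : l * |w y - w' z| ≤ l * (Δ + ε * Δ) :=
    mul_le_mul_of_nonneg_left (e1.trans (by linarith)) hl0.le
  have e7 : ε * (|w y - w' z| + |y - z|) ≤ ε * (Δ + 2 * (ε * Δ)) :=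
    mul_le_mul_of_nonneg_left (by linarith) h4''.le
  have e8 : l * (ε * Δ) ≤ ε * Δ := by
    have : 0 ≤ ε * Δ := by positivity
    nlinarith
  have e9 : ε * (ε * Δ) ≤ ε * Δ * (1 / 8) := by
    have h5 : 0 ≤ ε * Δ := by positivity
    nlinarith
  have e10 : 4 * (ε * Δ) ≤ (1 - l) / 2 * Δ := by nlinarith
  have e11 : 0 ≤ ε * Δ := by positivity
  calc l * |w y - w' z| + |f1 (w y) y - f1 (w' z) z|
      ≤ l * (Δ + ε * Δ) + ε * (Δ + 2 * (ε * Δ)) := add_le_add e6 (e5.trans e7)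
    _ = l * Δ + l * (ε * Δ) + ε * Δ + 2 * (ε * (ε * Δ)) := by ring
    _ ≤ (1 + l) / 2 * Δ := by linarith

theorem FA_fixed : ∃ w ∈ FA_E η, ∀ y, w (m * y + f2 (w y) y) = l * w y + f1 (w y) y := by
  have hl0 := D.l0
  have hl1 := D.l1
  choose! Γ hΓ1 hΓ2 using fun (w : BoundedContinuousFunction ℝ ℝ) (hw : w ∈ FA_E η) => FA_step D hw
  have : CompleteSpace (FA_E η) := (FA_closed η).completeSpace_coe
  have : Nonempty (FA_E η) := ⟨⟨0, by
    refine ⟨rfl, fun y y' => ?_⟩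
    have := D.η0
    simp only [BoundedContinuousFunction.coe_zero, Pi.zero_apply, sub_zero, abs_zero]
    positivity⟩⟩
  let T : FA_E η → FA_E η := fun w => ⟨Γ w.1, hΓ1 w.1 w.2⟩
  have hT : ContractingWith (Real.toNNReal ((1 + l) / 2)) T := by
    refine ⟨?_, ?_⟩
    · rw [← NNReal.coe_lt_coe, Real.coe_toNNReal _ (by linarith), NNReal.coe_one]
      linarith
    · refine LipschitzWith.of_dist_le_mul fun a b => ?_
      rw [Real.coe_toNNReal _ (by linarith)]
      exact FA_contr D a.2 b.2 (hΓ2 a.1 a.2) (hΓ2 b.1 b.2)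
  have hfix := hT.fixedPoint_isFixedPt
  obtain ⟨w, hw⟩ : ∃ w, w = ContractingWith.fixedPoint T hT := ⟨_, rfl⟩
  rw [← hw] at hfix
  have h1 : Γ w.1 = w.1 := congrArg Subtype.val hfix
  refine ⟨w.1, w.2, ?_⟩
  have h2 := hΓ2 w.1 w.2
  rw [h1] at h2
  exact h2

end

theorem lip_graph {l m η : ℝ} (hl : 0 < l) (hl1 : l < 1) (hm : 1 < m) (hη : 0 < η) :
    ∃ ε > 0, ∀ F : ℂ → ℂ, NearDiag F l m ε → ∃ w : ℝ → ℝ, w 0 = 0 ∧
      (∀ y y', |w y - w y'| ≤ η * |y - y'|) ∧
      (∀ y, (F ⟨w y, y⟩).re = w (F ⟨w y, y⟩).im) ∧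
      (∀ y y', y < y' → (m + 1) / 2 * (y' - y) ≤ (F ⟨w y', y'⟩).im - (F ⟨w y, y⟩).im) ∧
      ∀ y', ∃ y, (F ⟨w y, y⟩).im = y' := by
  obtain ⟨η', hη'⟩ : ∃ η', η' = min η 1 := ⟨_, rfl⟩
  have hη'0 : 0 < η' := by rw [hη']; exact lt_min hη one_pos
  have hη'1 : η' ≤ 1 := by rw [hη']; exact min_le_right _ _
  have hη'η : η' ≤ η := by rw [hη']; exact min_le_left _ _
  obtain ⟨ε, hε⟩ : ∃ ε, ε = min (η' * (m - 1) / 4) ((1 - l) / 8) := ⟨_, rfl⟩
  have hm0 : 0 < m - 1 := by linarith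
  have hε0 : 0 < ε := by
    rw [hε]
    exact lt_min (by positivity) (by linarith)
  have hε1 : 4 * ε ≤ η' * (m - 1) := by
    have := min_le_left (η' * (m - 1) / 4) ((1 - l) / 8)
    rw [← hε] at this
    linarith
  have hε2 : 8 * ε ≤ 1 - l := by
    have := min_le_right (η' * (m - 1) / 4) ((1 - l) / 8)
    rw [← hε] at this
    linarith
  refine ⟨ε, hε0, ?_⟩
  intro F hF
  obtain ⟨C, hC⟩ := hF.bdd
  obtain ⟨f, hf⟩ : ∃ f : ℂ → ℂ, ∀ z, f z = F z - diagL l m z := ⟨_, fun _ => rfl⟩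
  have hff : f = fun z => F z - diagL l m z := funext hf
  have hdF : Differentiable ℝ F := hF.c1.differentiable (by norm_num)
  have hlipf : ∀ z z' : ℂ, ‖f z - f z'‖ ≤ ε * ‖z - z'‖ := by
    intro z z'
    have hd : ∀ x ∈ (univ : Set ℂ), DifferentiableAt ℝ f x := by
      intro x _
      rw [hff]
      exact (hdF x).sub (diagL l m).differentiableAt
    have hb : ∀ x ∈ (univ : Set ℂ), ‖fderiv ℝ f x‖ ≤ ε := by
      intro x _
      have h1 : fderiv ℝ f x = fderiv ℝ F x - diagL l m := by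
        rw [hff, fderiv_fun_sub (hdF x) (diagL l m).differentiableAt,
          ContinuousLinearMap.fderiv]
      rw [h1]
      exact hF.near x
    exact convex_univ.norm_image_sub_le_of_norm_fderiv_le hd hb (mem_univ _) (mem_univ _)
  have hre : ∀ x y, (F ⟨x, y⟩).re = l * x + (f ⟨x, y⟩).re := by
    intro x y
    rw [hf]
    simp [diagL]
  have him : ∀ x y, (F ⟨x, y⟩).im = m * y + (f ⟨x, y⟩).im := by
    intro x y
    rw [hf]
    simp [diagL]
  have hnrm : ∀ x y x' y' : ℝ, ‖(⟨x, y⟩ : ℂ) - ⟨x', y'⟩‖ ≤ |x - x'| + |y - y'| := by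
    intro x y x' y'
    have := Complex.norm_le_abs_re_add_abs_im ((⟨x, y⟩ : ℂ) - ⟨x', y'⟩)
    simpa using this
  have hz : f ⟨0, 0⟩ = 0 := by
    have h0 : (⟨0, 0⟩ : ℂ) = 0 := rfl
    rw [h0, hf, hF.zero, map_zero, sub_zero]
  have D : FA_D l m η' ε C (fun x y => (f ⟨x, y⟩).re) (fun x y => (f ⟨x, y⟩).im) :=
    { l0 := hl
      l1 := hl1
      m1 := hm
      η0 := hη'0
      η1 := hη'1
      ε0 := hε0
      εm := hε1
      εl := hε2
      h1 := by
        intro x y x' y'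
        have h1 := Complex.abs_re_le_norm (f ⟨x, y⟩ - f ⟨x', y'⟩)
        rw [Complex.sub_re] at h1
        exact h1.trans ((hlipf _ _).trans (mul_le_mul_of_nonneg_left (hnrm _ _ _ _) hε0.le))
      h2 := by
        intro x y x' y'
        have h1 := Complex.abs_im_le_norm (f ⟨x, y⟩ - f ⟨x', y'⟩)
        rw [Complex.sub_im] at h1
        exact h1.trans ((hlipf _ _).trans (mul_le_mul_of_nonneg_left (hnrm _ _ _ _) hε0.le))
      z2 := by
        show (f ⟨0, 0⟩).im = 0
        rw [hz]; rfl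
      z1 := by
        show (f ⟨0, 0⟩).re = 0
        rw [hz]; rfl
      hC := by
        intro x y
        have h1 := hC ⟨x, y⟩
        rw [← hf] at h1
        exact (Complex.abs_re_le_norm _).trans h1 }
  obtain ⟨w, hw, hfix⟩ := FA_fixed D
  refine ⟨w, hw.1, ?_, ?_, ?_, ?_⟩
  · intro y y'
    exact (hw.2 y y').trans (mul_le_mul_of_nonneg_right hη'η (abs_nonneg _))
  · intro y
    rw [hre, him]
    exact (hfix y).symm
  · intro y y' hyy
    rw [him, him]
    refine le_trans ?_ (FA_mono D hw hyy.le)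
    have h1 := D.εm'
    exact mul_le_mul_of_nonneg_right (by linarith) (by linarith)
  · intro y'
    obtain ⟨y, hy⟩ := FA_surj D hw y'
    exact ⟨y, by rw [him]; exact hy⟩

end DS
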