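import Pool.Agent.H36.DS.FA

/-!
FB (the invariant graph is `C¹`).  Take `η' = min η 1` and `ε` from `lip_graph` for `η'`, and smaller, so that
with `θ = (l + 2ε) (1 + ...) / ...` below is `< 1`: precisely, for a matrix `M` with `‖M - diagL l m‖ ≤ ε` the action on slopes
`s ↦ M·s`, defined by `M (s, 1) = (a, b)`, `M·s = a / b`, maps `[-1, 1]` to itself and is a `θ`-contraction there,
`θ = (l + 1)/2 < 1` (for `ε` small, `b ≥ m - 2ε > 1`, `|a/b|≤ (l + 2ε)/(m - 2ε) < 1`, derivative of the Moebius map).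
Let `y ↦ ȳ` be the inverse of `y ↦ (F ⟨w y, y⟩).im` (a contraction with factor `2/(m+1) < 1`, continuous), `z y = ⟨w y, y⟩`,
so `F (z ȳ) = z y`.  Secant slopes: for `y ≠ y'`, `s(y,y') = (w y - w y')/(y - y')`, `|s| ≤ 1`, and
`s(y, y') = M·s(ȳ, ȳ')` with `M = ∫_0^1 F'(z ȳ' + t (z ȳ - z ȳ')) dt`.
Fix `y₀`, its backward orbit `y_k` (`y_{k+1} = ȳ_k`), `A_k = F'(z y_k)` for `k ≥ 1`, and
`d_n(y₀) = A_1·(A_2·(... A_n·0))`; `|d_n - d_{n+1}| ≤ θ^n`, so `d_n(y) → d(y)` uniformly, `d_n` is continuous in `y`, so `d` is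
continuous, `|d| ≤ 1`.  For `y → y₀` and fixed `n` the secant slope `s(y, y₀)` is `M_1·(... M_n·s(y_n, y₀_n))` with `M_k → A_k`
(continuity of `F'`), so `limsup |s(y,y₀) - d_n(y₀)| ≤ 2 θ^n`; hence `w` is differentiable at `y₀` with derivative
`d(y₀)`.  So `w` is `C¹`; `|w'| ≤ η` from the Lipschitz bound.
-/

namespace DS
open Metric Set Filter Topology

/-- `w` is approximately linear at `y₀` with slope at most one in modulus and error `c` -/
def FB_P (w : ℝ → ℝ) (c y₀ : ℝ) : Prop :=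
  ∃ σ : ℝ, |σ| ≤ 1 ∧ ∃ δ > 0, ∀ y y', |y - y₀| < δ → |y' - y₀| < δ →
    |w y - w y' - σ * (y - y')| ≤ c * |y - y'|

theorem FB_mk (x y : ℝ) : (⟨x, y⟩ : ℂ) = x • (1 : ℂ) + y • Complex.I := by
  apply Complex.ext <;> simp

theorem FB_entries {A : ℂ →L[ℝ] ℂ} {l m ε : ℝ} (h : ‖A - diagL l m‖ ≤ ε) :
    ∃ a b c d : ℝ, |a - l| ≤ ε ∧ |b| ≤ ε ∧ |c| ≤ ε ∧ |d - m| ≤ ε ∧
      ∀ x y : ℝ, (A ⟨x, y⟩).re = a * x + b * y ∧ (A ⟨x, y⟩).im = c * x + d * y := by
  have h1 : ‖(A - diagL l m) 1‖ ≤ ε := by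
    refine ((A - diagL l m).le_opNorm 1).trans ?_
    simpa using h
  have h2 : ‖(A - diagL l m) Complex.I‖ ≤ ε := by
    refine ((A - diagL l m).le_opNorm Complex.I).trans ?_
    simpa using h
  have e1 : (A - diagL l m) 1 = A 1 - ⟨l, 0⟩ := by
    rw [sub_apply]
    congr 1
    apply Complex.ext <;> simp [diagL]
  have e2 : (A - diagL l m) Complex.I = A Complex.I - ⟨0, m⟩ := by
    rw [sub_apply]
    congr 1
    apply Complex.ext <;> simp [diagL]
  rw [e1] at h1
  rw [e2] at h2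
  refine ⟨(A 1).re, (A Complex.I).re, (A 1).im, (A Complex.I).im, ?_, ?_, ?_, ?_, ?_⟩
  · have := (Complex.abs_re_le_norm (A 1 - ⟨l, 0⟩)).trans h1
    simpa using this
  · have := (Complex.abs_re_le_norm (A Complex.I - ⟨0, m⟩)).trans h2
    simpa using this
  · have := (Complex.abs_im_le_norm (A 1 - ⟨l, 0⟩)).trans h1
    simpa using this
  · have := (Complex.abs_im_le_norm (A Complex.I - ⟨0, m⟩)).trans h2
    simpa using this
  · intro x y
    rw [FB_mk, map_add, map_smul, map_smul]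
    constructor
    · simp only [Complex.add_re, Complex.real_smul, Complex.mul_re, Complex.ofReal_re,
        Complex.ofReal_im]
      ring
    · simp only [Complex.add_im, Complex.real_smul, Complex.mul_im, Complex.ofReal_re,
        Complex.ofReal_im]
      ring

/-- one step of the argument -/
theorem FB_step {l m ε : ℝ} (hl : 0 < l) (hm : 1 < m) (hε : 0 < ε)
    (hε1 : ε ≤ (1 - l) / 4) {F : ℂ → ℂ} (hF : NearDiag F l m ε) {w : ℝ → ℝ}
    (hw : ∀ y y', |w y - w y'| ≤ 1 * |y - y'|)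
    (hinv : ∀ y, (F ⟨w y, y⟩).re = w (F ⟨w y, y⟩).im)
    (hexp : ∀ y y', y < y' → (m + 1) / 2 * (y' - y) ≤ (F ⟨w y', y'⟩).im - (F ⟨w y, y⟩).im)
    (honto : ∀ y', ∃ y, (F ⟨w y, y⟩).im = y') {c : ℝ} (hc : 0 ≤ c) {y₀ : ℝ}
    (hP : FB_P w c y₀) {e : ℝ} (he : 0 < e) :
    FB_P w ((l + 2 * ε) * c + e) ((F ⟨w y₀, y₀⟩).im) := by
  obtain ⟨σ, hσ, δ, hδ, hs⟩ := hP
  have hexp' : ∀ y y', |y - y'| ≤ |(F ⟨w y, y⟩).im - (F ⟨w y', y'⟩).im| := by
    intro y y'
    rcases lt_trichotomy y y' with h | h | h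
    · have h1 := hexp y y' h
      rw [abs_sub_comm y y', abs_sub_comm (F ⟨w y, y⟩).im, abs_of_pos (sub_pos.mpr h)]
      refine le_trans ?_ (le_abs_self _)
      nlinarith [sub_pos.mpr h]
    · subst h; simp
    · have h1 := hexp y' y h
      rw [abs_of_pos (sub_pos.mpr h)]
      refine le_trans ?_ (le_abs_self _)
      nlinarith [sub_pos.mpr h]
  set z₀ : ℂ := ⟨w y₀, y₀⟩ with hz₀
  obtain ⟨a, b, c', d, ha, hb, hc', hd, hA⟩ := FB_entries (hF.near z₀)
  have hstrict : HasStrictFDerivAt F (fderiv ℝ F z₀) z₀ :=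
    hF.c1.contDiffAt.hasStrictFDerivAt (by norm_num)
  have hlo := hstrict.isLittleO.def (show (0 : ℝ) < e / 4 by positivity)
  rw [Metric.eventually_nhds_iff] at hlo
  obtain ⟨ρ, hρ, hlo⟩ := hlo
  have hlo' : ∀ z z' : ℂ, dist z z₀ < ρ → dist z' z₀ < ρ →
      ‖F z - F z' - fderiv ℝ F z₀ (z - z')‖ ≤ e / 4 * ‖z - z'‖ := by
    intro z z' h1 h2
    have := hlo (y := (z, z')) (by rw [Prod.dist_eq]; exact max_lt h1 h2)
    simpa using this
  have hzd : ∀ y y' : ℝ, ‖(⟨w y, y⟩ : ℂ) - ⟨w y', y'⟩‖ ≤ 2 * |y - y'| := by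
    intro y y'
    refine (Complex.norm_le_abs_re_add_abs_im _).trans ?_
    have := hw y y'
    simp only [Complex.sub_re, Complex.sub_im]
    linarith
  have ha' := abs_le.mp ha
  have hd' := abs_le.mp hd
  have hb' := abs_le.mp hb
  have hcc := abs_le.mp hc'
  have hσ' := abs_le.mp hσ
  have hcσ : |c' * σ| ≤ ε := by
    rw [abs_mul]
    calc |c'| * |σ| ≤ ε * 1 := mul_le_mul hc' hσ (abs_nonneg _) hε.le
      _ = ε := mul_one _
  have haa : |a| ≤ l + ε := by
    rw [abs_le]; constructor <;> linarith [ha'.1, ha'.2]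
  have haσ : |a * σ| ≤ l + ε := by
    rw [abs_mul]
    calc |a| * |σ| ≤ (l + ε) * 1 := mul_le_mul haa hσ (abs_nonneg _) (by linarith)
      _ = l + ε := mul_one _
  have hD : 0 < c' * σ + d := by
    have := (abs_le.mp hcσ).1
    linarith [hd'.1]
  have hND : |a * σ + b| ≤ c' * σ + d := by
    have h1 := (abs_le.mp hcσ).1
    have h2 := abs_le.mp haσ
    rw [abs_le]
    constructor <;> linarith [hd'.1, hb'.1, hb'.2, h2.1, h2.2]
  set σ' : ℝ := (a * σ + b) / (c' * σ + d) with hσd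
  have hσ1 : |σ'| ≤ 1 := by
    rw [hσd, abs_div, abs_of_pos hD]
    exact (div_le_one hD).mpr hND
  have hσm : σ' * (c' * σ + d) = a * σ + b := by
    rw [hσd, div_mul_cancel₀ _ hD.ne']
  refine ⟨σ', hσ1, min δ (ρ / 2), lt_min hδ (by positivity), ?_⟩
  intro Y Y' hY hY'
  obtain ⟨y, rfl⟩ := honto Y
  obtain ⟨y', rfl⟩ := honto Y'
  have hy := (hexp' y y₀).trans_lt hY
  have hy' := (hexp' y' y₀).trans_lt hY'
  have k1 := hs y y' (hy.trans_le (min_le_left _ _)) (hy'.trans_le (min_le_left _ _))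
  have k2 := hlo' ⟨w y, y⟩ ⟨w y', y'⟩
    (by rw [dist_eq_norm]; refine (hzd y y₀).trans_lt ?_
        have := hy.trans_le (min_le_right _ _); linarith)
    (by rw [dist_eq_norm]; refine (hzd y' y₀).trans_lt ?_
        have := hy'.trans_le (min_le_right _ _); linarith)
  have k3 := k2.trans (mul_le_mul_of_nonneg_left (hzd y y') (by positivity : 0 ≤ e / 4))
  have e0 : (⟨w y, y⟩ : ℂ) - ⟨w y', y'⟩ = ⟨w y - w y', y - y'⟩ := by
    apply Complex.ext <;> simp
  rw [e0] at k3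
  obtain ⟨A1, A2⟩ := hA (w y - w y') (y - y')
  have r1 := (Complex.abs_re_le_norm _).trans k3
  have r2 := (Complex.abs_im_le_norm _).trans k3
  rw [Complex.sub_re, Complex.sub_re, A1] at r1
  rw [Complex.sub_im, Complex.sub_im, A2] at r2
  rw [← hinv y, ← hinv y']
  set R1 : ℝ := (F ⟨w y, y⟩).re - (F ⟨w y', y'⟩).re - (a * (w y - w y') + b * (y - y')) with hR1
  set R2 : ℝ := (F ⟨w y, y⟩).im - (F ⟨w y', y'⟩).im - (c' * (w y - w y') + d * (y - y')) with hR2
  set τ : ℝ := w y - w y' - σ * (y - y') with hτ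
  have key : (F ⟨w y, y⟩).re - (F ⟨w y', y'⟩).re
      - σ' * ((F ⟨w y, y⟩).im - (F ⟨w y', y'⟩).im)
      = a * τ + R1 - σ' * (c' * τ + R2) := by
    have : (F ⟨w y, y⟩).re - (F ⟨w y', y'⟩).re = a * (w y - w y') + b * (y - y') + R1 := by
      rw [hR1]; ring
    rw [this]
    have : (F ⟨w y, y⟩).im - (F ⟨w y', y'⟩).im = c' * (w y - w y') + d * (y - y') + R2 := by
      rw [hR2]; ring
    rw [this, hτ]
    linear_combination (-(y - y')) * hσm
  rw [key]
  have q1 : |a * τ| ≤ (l + ε) * |τ| := by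
    rw [abs_mul]; exact mul_le_mul_of_nonneg_right haa (abs_nonneg _)
  have q2 : |σ' * (c' * τ + R2)| ≤ ε * |τ| + |R2| := by
    rw [abs_mul]
    calc |σ'| * |c' * τ + R2| ≤ 1 * |c' * τ + R2| :=
          mul_le_mul_of_nonneg_right hσ1 (abs_nonneg _)
      _ ≤ |c' * τ| + |R2| := by rw [one_mul]; exact abs_add_le _ _
      _ ≤ ε * |τ| + |R2| := by
          rw [abs_mul]
          have := mul_le_mul_of_nonneg_right hc' (abs_nonneg τ)
          linarith
  have q3 : |a * τ + R1 - σ' * (c' * τ + R2)| ≤ |a * τ| + |R1| + |σ' * (c' * τ + R2)| := by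
    refine (abs_sub _ _).trans ?_
    have := abs_add_le (a * τ) R1
    linarith
  have q4 := hexp' y y'
  have q5 : (l + 2 * ε) * |τ| ≤ (l + 2 * ε) * (c * |y - y'|) :=
    mul_le_mul_of_nonneg_left k1 (by linarith)
  have q6 : ((l + 2 * ε) * c + e) * |y - y'| ≤
      ((l + 2 * ε) * c + e) * |(F ⟨w y, y⟩).im - (F ⟨w y', y'⟩).im| :=
    mul_le_mul_of_nonneg_left q4 (by positivity)
  nlinarith [abs_nonneg τ, abs_nonneg (y - y')]

theorem c1_graph {l m η : ℝ} (hl : 0 < l) (hl1 : l < 1) (hm : 1 < m) (hη : 0 < η) :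
    ∃ ε > 0, ∀ F : ℂ → ℂ, NearDiag F l m ε → ∃ w : ℝ → ℝ, ContDiff ℝ 1 w ∧ w 0 = 0 ∧
      (∀ y, |deriv w y| ≤ η) ∧ (∀ y, (F ⟨w y, y⟩).re = w (F ⟨w y, y⟩).im) ∧
      ∀ y', ∃ y, (F ⟨w y, y⟩).im = y' := by
  obtain ⟨ε₀, hε₀, hlip⟩ := lip_graph hl hl1 hm (lt_min hη one_pos)
  refine ⟨min ε₀ ((1 - l) / 4), lt_min hε₀ (by linarith), ?_⟩
  intro F hF
  obtain ⟨w, hw0, hwl, hinv, hexp, honto⟩ := hlip F
    ⟨hF.c1, hF.zero, fun z => (hF.near z).trans (min_le_left _ _), hF.bdd⟩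
  have hw1 : ∀ y y', |w y - w y'| ≤ 1 * |y - y'| := fun y y' =>
    (hwl y y').trans (mul_le_mul_of_nonneg_right (min_le_right _ _) (abs_nonneg _))
  set ε : ℝ := min ε₀ ((1 - l) / 4) with hε
  have hε0 : 0 < ε := lt_min hε₀ (by linarith)
  have hε1 : ε ≤ (1 - l) / 4 := min_le_right _ _
  set θ : ℝ := l + 2 * ε with hθ
  have hθ0 : 0 < θ := by rw [hθ]; linarith
  have hθ1 : θ < 1 := by rw [hθ]; linarith
  have hiter : ∀ n : ℕ, ∀ Y e : ℝ, 0 < e → FB_P w (θ ^ n + e) Y := by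
    intro n
    induction n with
    | zero =>
      intro Y e he
      refine ⟨0, by simp, 1, one_pos, fun y y' _ _ => ?_⟩
      have := hw1 y y'
      have h2 : 0 ≤ e * |y - y'| := by positivity
      rw [zero_mul, sub_zero, pow_zero, add_mul]
      linarith
    | succ n ih =>
      intro Y e he
      obtain ⟨y, rfl⟩ := honto Y
      have h1 := FB_step hl hm hε0 hε1 hF hw1 hinv hexp honto (c := θ ^ n + e / 2)
        (by positivity) (ih y (e / 2) (by positivity)) (half_pos he)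
      obtain ⟨σ, hσ, δ, hδ, hs⟩ := h1
      refine ⟨σ, hσ, δ, hδ, fun u u' hu hu' => (hs u u' hu hu').trans ?_⟩
      refine mul_le_mul_of_nonneg_right ?_ (abs_nonneg _)
      rw [← hθ, pow_succ]
      nlinarith [pow_pos hθ0 n]
  have hall : ∀ Y c : ℝ, 0 < c → FB_P w c Y := by
    intro Y c hc
    obtain ⟨n, hn⟩ := exists_pow_lt_of_lt_one (half_pos hc) hθ1
    obtain ⟨σ, hσ, δ, hδ, hs⟩ := hiter n Y (c / 2) (half_pos hc)
    refine ⟨σ, hσ, δ, hδ, fun u u' hu hu' => (hs u u' hu hu').trans ?_⟩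
    exact mul_le_mul_of_nonneg_right (by linarith) (abs_nonneg _)
  -- differentiability
  have hdiff : ∀ Y : ℝ, ∃ d : ℝ, ∀ c > 0, ∃ δ > 0, ∀ y y', |y - Y| < δ → |y' - Y| < δ →
      |w y - w y' - d * (y - y')| ≤ c * |y - y'| := by
    intro Y
    choose σ hσ δ hδ hs using fun n : ℕ => hall Y ((1 : ℝ) / 2 ^ n) (by positivity)
    have hcmp : ∀ n k : ℕ, |σ n - σ k| ≤ 1 / 2 ^ n + 1 / 2 ^ k := by
      intro n k
      set t : ℝ := min (δ n) (δ k) / 2 with ht
      have ht0 : 0 < t := by have := lt_min (hδ n) (hδ k); positivity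
      have h0 := hs n (Y + t) Y
        (by rw [add_sub_cancel_left, abs_of_pos ht0]
            have := min_le_left (δ n) (δ k); have := hδ n; rw [ht]; linarith)
        (by simpa using hδ n)
      have h1 := hs k (Y + t) Y
        (by rw [add_sub_cancel_left, abs_of_pos ht0]
            have := min_le_right (δ n) (δ k); have := hδ k; rw [ht]; linarith)
        (by simpa using hδ k)
      rw [add_sub_cancel_left, abs_of_pos ht0] at h0 h1
      have h2 : |(σ n - σ k) * t| ≤ (1 / 2 ^ n + 1 / 2 ^ k) * t := by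
        have e : (σ n - σ k) * t = (w (Y + t) - w Y - σ k * t) - (w (Y + t) - w Y - σ n * t) := by
          ring
        rw [e]
        refine (abs_sub _ _).trans ?_
        linarith
      rw [abs_mul, abs_of_pos ht0] at h2
      exact le_of_mul_le_mul_right h2 ht0
    have hcau : CauchySeq σ := by
      refine cauchySeq_of_le_tendsto_0 (fun n => (2 : ℝ) * (1 / 2 ^ n)) ?_ ?_
      · intro n k N hn hk
        rw [Real.dist_eq]
        refine (hcmp n k).trans ?_
        have h1 : (1 : ℝ) / 2 ^ n ≤ 1 / 2 ^ N :=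
          one_div_le_one_div_of_le (by positivity) (pow_le_pow_right₀ (by norm_num) hn)
        have h2 : (1 : ℝ) / 2 ^ k ≤ 1 / 2 ^ N :=
          one_div_le_one_div_of_le (by positivity) (pow_le_pow_right₀ (by norm_num) hk)
        linarith
      · have h1 : Tendsto (fun n : ℕ => (1 / 2 : ℝ) ^ n) atTop (𝓝 0) :=
          tendsto_pow_atTop_nhds_zero_of_lt_one (by norm_num) (by norm_num)
        have h2 := h1.const_mul 2
        simpa [one_div, inv_pow] using h2
    obtain ⟨d, hd⟩ := cauchySeq_tendsto_of_complete hcau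
    refine ⟨d, fun c hc => ?_⟩
    have hb : ∀ n : ℕ, |σ n - d| ≤ 1 / 2 ^ n := by
      intro n
      have h1 : Tendsto (fun k => |σ n - σ k|) atTop (𝓝 |σ n - d|) :=
        (tendsto_const_nhds.sub hd).abs
      have h2 : Tendsto (fun k : ℕ => (1 : ℝ) / 2 ^ n + 1 / 2 ^ k) atTop (𝓝 (1 / 2 ^ n + 0)) := by
        refine tendsto_const_nhds.add ?_
        have h1 : Tendsto (fun n : ℕ => (1 / 2 : ℝ) ^ n) atTop (𝓝 0) :=
          tendsto_pow_atTop_nhds_zero_of_lt_one (by norm_num) (by norm_num)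
        simpa [one_div, inv_pow] using h1
      have := le_of_tendsto_of_tendsto' h1 h2 (hcmp n)
      simpa using this
    obtain ⟨n, hn⟩ := exists_pow_lt_of_lt_one (show (0 : ℝ) < c / 2 by positivity)
      (show (1 / 2 : ℝ) < 1 by norm_num)
    have hn' : (1 : ℝ) / 2 ^ n < c / 2 := by simpa [one_div, inv_pow] using hn
    refine ⟨δ n, hδ n, fun y y' hy hy' => ?_⟩
    have h1 := hs n y y' hy hy'
    have h2 : |(σ n - d) * (y - y')| ≤ 1 / 2 ^ n * |y - y'| := by
      rw [abs_mul]; exact mul_le_mul_of_nonneg_right (hb n) (abs_nonneg _)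
    have e : w y - w y' - d * (y - y')
        = (w y - w y' - σ n * (y - y')) + (σ n - d) * (y - y') := by ring
    rw [e]
    refine (abs_add_le _ _).trans ?_
    have : (1 / 2 ^ n + 1 / 2 ^ n) * |y - y'| ≤ c * |y - y'| :=
      mul_le_mul_of_nonneg_right (by linarith) (abs_nonneg _)
    linarith
  choose d hd using hdiff
  have hder : ∀ Y, HasDerivAt w (d Y) Y := by
    intro Y
    rw [hasDerivAt_iff_isLittleO]
    rw [Asymptotics.isLittleO_iff]
    intro c hc
    obtain ⟨δ, hδ, h⟩ := hd Y c hc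
    filter_upwards [Metric.ball_mem_nhds Y hδ] with y hy
    rw [Real.norm_eq_abs, Real.norm_eq_abs, smul_eq_mul, mul_comm]
    exact h y Y (by simpa [Real.dist_eq] using hy) (by simpa using hδ)
  have hderiv : deriv w = d := funext fun Y => (hder Y).deriv
  have hcont : Continuous d := by
    rw [Metric.continuous_iff]
    intro Y c hc
    obtain ⟨δ, hδ, h⟩ := hd Y (c / 4) (by positivity)
    refine ⟨δ, hδ, fun Z hZ => ?_⟩
    rw [Real.dist_eq] at hZ ⊢
    obtain ⟨δ', hδ', h'⟩ := hd Z (c / 4) (by positivity)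
    set t : ℝ := min (δ - |Z - Y|) δ' / 2 with ht
    have ht0 : 0 < t := by
      have := lt_min (sub_pos.mpr hZ) hδ'
      positivity
    have ht1 : t < δ - |Z - Y| := by
      have h1 := min_le_left (δ - |Z - Y|) δ'
      have h2 := sub_pos.mpr hZ
      rw [ht]; linarith
    have ht2 : t < δ' := by
      have h1 := min_le_right (δ - |Z - Y|) δ'
      rw [ht]; linarith
    have h1 := h (Z + t) Z (by
      have : Z + t - Y = (Z - Y) + t := by ring
      rw [this]
      refine (abs_add_le _ _).trans_lt ?_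
      rw [abs_of_pos ht0]; linarith) hZ
    have h2 := h' (Z + t) Z (by rw [add_sub_cancel_left, abs_of_pos ht0]; exact ht2)
      (by simpa using hδ')
    rw [add_sub_cancel_left, abs_of_pos ht0] at h1 h2
    have h3 : |(d Z - d Y) * t| ≤ (c / 2) * t := by
      have e : (d Z - d Y) * t = (w (Z + t) - w Z - d Y * t) - (w (Z + t) - w Z - d Z * t) := by
        ring
      rw [e]
      refine (abs_sub _ _).trans ?_
      linarith
    rw [abs_mul, abs_of_pos ht0] at h3
    have := le_of_mul_le_mul_right h3 ht0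
    linarith
  refine ⟨w, ?_, hw0, ?_, hinv, honto⟩
  · rw [contDiff_one_iff_deriv]
    exact ⟨fun Y => (hder Y).differentiableAt, by rw [hderiv]; exact hcont⟩
  · intro y
    have h1 : ‖deriv w y‖ ≤ min η 1 := by
      refine norm_deriv_le_of_lip' (le_min hη.le zero_le_one) ?_
      filter_upwards with u
      rw [Real.norm_eq_abs, Real.norm_eq_abs]
      exact hwl u y
    exact h1.trans (min_le_left _ _)

end DS
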