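import Mathlib

/-!
Definitions for hyperbolic fixed points in the plane (project MP_8a27c0_DS).
-/

namespace DS
open Metric Set Filter Topology

/-- the diagonal linear map `(x, y) ↦ (l x, m y)` -/
noncomputable def diagL (l m : ℝ) : ℂ →L[ℝ] ℂ :=
  LinearMap.toContinuousLinearMap
    { toFun := fun z => (⟨l * z.re, m * z.im⟩ : ℂ)
      map_add' := by
        intro x y
        apply Complex.ext <;> simp <;> ring
      map_smul' := by
        intro c x
        apply Complex.ext <;> simp <;> ring }

/-- a `C¹` map of the plane fixing `0`, at bounded distance from the diagonal map, with derivative close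
to it -/
structure NearDiag (F : ℂ → ℂ) (l m ε : ℝ) : Prop where
  c1 : ContDiff ℝ 1 F
  zero : F 0 = 0
  near : ∀ z, ‖fderiv ℝ F z - diagL l m‖ ≤ ε
  bdd : ∃ C, ∀ z, ‖F z - diagL l m z‖ ≤ C

end DS
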