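import Pool.Agent.H36.DS.FBase

/-!
FC (global diffeomorphisms).
`near_diffeo`: `F = diagL l m + f` with `f` Lipschitz of constant `ε < 1/2 ≤ ` (lower bound of the diagonal map): `F` is injective
and onto (for `w` the map `z ↦ (diagL l m)⁻¹ (w - f z)` is a contraction; or `ApproximatesLinearOn.toHomeomorph`);
the inverse is `C¹` by the inverse function theorem (`ContDiffAt.to_localInverse`, the derivative is invertible,
`ε < min l m`), `fderiv Fi w = (fderiv F (Fi w))⁻¹` is within `ε'` of `diagL l⁻¹ m⁻¹` (`‖A⁻¹ - B⁻¹‖ ≤ ‖A⁻¹‖ ‖B⁻¹‖ ‖A - B‖`), and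
`‖Fi w - diagL l⁻¹ m⁻¹ w‖ ≤ l⁻¹ ‖f (Fi w)‖`.
`straighten`: `Ψ z = ⟨z.re - w z.im, z.im - v z.re⟩` is the identity minus a map with Lipschitz constant `≤ 1/2`.
-/

namespace DS
open Metric Set Filter Topology

theorem FC_gen {A B : ℂ →L[ℝ] ℂ} (hAB : ∀ z, A (B z) = z) (hBA : ∀ z, B (A z) = z) {N c : ℝ}
    (hN : ∀ z, ‖B z‖ ≤ N * ‖z‖) (hN0 : 0 < N) (hc0 : 0 ≤ c) (hc : N * c < 1) {F : ℂ → ℂ}
    (hF : ContDiff ℝ 1 F) (hnear : ∀ z, ‖fderiv ℝ F z - A‖ ≤ c) :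
    ∃ Fi : ℂ → ℂ, ContDiff ℝ 1 Fi ∧ (∀ z, Fi (F z) = z) ∧ (∀ z, F (Fi z) = z) ∧
      ∀ w, ‖fderiv ℝ Fi w - B‖ ≤ N ^ 2 * c / (1 - N * c) := by
  have hFd : Differentiable ℝ F := hF.differentiable (by simp)
  set e : ℂ ≃L[ℝ] ℂ := ContinuousLinearEquiv.equivOfInverse A B hBA hAB with he
  have heA : (e : ℂ →L[ℝ] ℂ) = A := rfl
  have heB : (e.symm : ℂ →L[ℝ] ℂ) = B := rfl
  have hA : ApproximatesLinearOn F (e : ℂ →L[ℝ] ℂ) univ ⟨c, hc0⟩ := by
    intro x _ y _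
    exact convex_univ.norm_image_sub_le_of_norm_fderiv_le' (𝕜 := ℝ) (φ := A)
      (fun z _ => hFd z) (fun z _ => hnear z) (mem_univ y) (mem_univ x)
  have hBN : ‖B‖ ≤ N := B.opNorm_le_bound hN0.le hN
  have hB0 : 0 < ‖B‖ := by
    rw [norm_pos_iff]
    intro h0
    have := hBA 1
    rw [h0] at this
    simp at this
  have hc' : (⟨c, hc0⟩ : NNReal) < ‖(e.symm : ℂ →L[ℝ] ℂ)‖₊⁻¹ := by
    rw [heB]
    have h1 : c < N⁻¹ := by
      rw [← one_div, lt_div_iff₀ hN0]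
      linarith
    exact NNReal.coe_lt_coe.1 (show c < ‖B‖⁻¹ from lt_of_lt_of_le h1 (inv_anti₀ hB0 hBN))
  set H := hA.toHomeomorph F (Or.inr hc') with hH
  have hHF : ∀ z, H z = F z := fun z => rfl
  have key : ∀ z v, ‖v‖ * (1 - N * c) ≤ N * ‖fderiv ℝ F z v‖ ∧
      ‖v - B (fderiv ℝ F z v)‖ ≤ N * c * ‖v‖ := by
    intro z v
    have h1 : ‖v - B (fderiv ℝ F z v)‖ ≤ N * c * ‖v‖ := by
      have h2 : v - B (fderiv ℝ F z v) = - B ((fderiv ℝ F z - A) v) := by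
        rw [sub_apply, map_sub, hBA]
        ring
      rw [h2, norm_neg]
      refine (hN _).trans ?_
      rw [mul_assoc]
      exact mul_le_mul_of_nonneg_left (((fderiv ℝ F z - A).le_opNorm v).trans
        (mul_le_mul_of_nonneg_right (hnear z) (norm_nonneg _))) hN0.le
    refine ⟨?_, h1⟩
    have h3 : ‖v‖ ≤ ‖v - B (fderiv ℝ F z v)‖ + ‖B (fderiv ℝ F z v)‖ := by
      calc ‖v‖ = ‖(v - B (fderiv ℝ F z v)) + B (fderiv ℝ F z v)‖ := by rw [sub_add_cancel]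
        _ ≤ _ := norm_add_le _ _
    have h4 := hN (fderiv ℝ F z v)
    nlinarith
  have hex : ∀ z, ∃ f' : ℂ ≃L[ℝ] ℂ, (f' : ℂ →L[ℝ] ℂ) = fderiv ℝ F z := by
    intro z
    have hinj : Function.Injective (fderiv ℝ F z).toLinearMap := by
      rw [← LinearMap.ker_eq_bot, LinearMap.ker_eq_bot']
      intro v hv
      have h1 := (key z v).1
      have h2 : fderiv ℝ F z v = 0 := hv
      rw [h2, norm_zero, mul_zero] at h1
      have h3 : ‖v‖ ≤ 0 := by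
        by_contra hcon
        push Not at hcon
        have := mul_pos hcon (sub_pos.2 hc)
        linarith
      exact norm_le_zero_iff.1 h3
    refine ⟨(LinearEquiv.ofInjectiveEndo (fderiv ℝ F z).toLinearMap hinj).toContinuousLinearEquiv, ?_⟩
    ext v
    rfl
  choose f' hf' using hex
  have hHd : ∀ z, HasFDerivAt H (f' z : ℂ →L[ℝ] ℂ) z := by
    intro z
    rw [hf']
    exact (hFd z).hasFDerivAt
  have hcd : ContDiff ℝ 1 (H.symm : ℂ → ℂ) := H.contDiff_symm hHd hF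
  have hl : ∀ z, H.symm (F z) = z := fun z => H.symm_apply_apply z
  have hr : ∀ z, F (H.symm z) = z := fun z => H.apply_symm_apply z
  refine ⟨H.symm, hcd, hl, hr, fun w => ?_⟩
  have hpos : 0 < 1 - N * c := sub_pos.2 hc
  refine ContinuousLinearMap.opNorm_le_bound _ (by positivity) fun u => ?_
  have h1 : fderiv ℝ F (H.symm w) (fderiv ℝ H.symm w u) = u := by
    have h2 : HasFDerivAt (fun z => F (H.symm z)) ((fderiv ℝ F (H.symm w)).comp
        (fderiv ℝ H.symm w)) w :=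
      (hFd _).hasFDerivAt.comp w (hcd.differentiable (by simp) w).hasFDerivAt
    have h3 : HasFDerivAt (fun z => F (H.symm z)) (ContinuousLinearMap.id ℝ ℂ) w := by
      have : (fun z => F (H.symm z)) = id := funext hr
      rw [this]
      exact hasFDerivAt_id w
    have h4 := h2.unique h3
    have h5 := congrArg (fun L => L u) h4
    simpa using h5
  obtain ⟨k1, k2⟩ := key (H.symm w) (fderiv ℝ H.symm w u)
  rw [h1] at k1 k2
  rw [sub_apply]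
  refine k2.trans ?_
  rw [div_mul_eq_mul_div, le_div_iff₀ hpos]
  have h6 : 0 ≤ N * c := by positivity
  nlinarith [mul_le_mul_of_nonneg_left k1 h6]

theorem FC_norm {x y a b N : ℝ} (hN : 0 ≤ N) (ha : |a| ≤ N * |x|) (hb : |b| ≤ N * |y|) :
    ‖(⟨a, b⟩ : ℂ)‖ ≤ N * ‖(⟨x, y⟩ : ℂ)‖ := by
  rw [← pow_le_pow_iff_left₀ (norm_nonneg _) (by positivity) two_ne_zero, mul_pow,
    Complex.sq_norm, Complex.sq_norm, Complex.normSq_apply, Complex.normSq_apply]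
  simp only
  have h1 : a ^ 2 ≤ (N * x) ^ 2 := by
    rw [sq_le_sq, abs_mul, abs_of_nonneg hN]; exact ha
  have h2 : b ^ 2 ≤ (N * y) ^ 2 := by
    rw [sq_le_sq, abs_mul, abs_of_nonneg hN]; exact hb
  nlinarith

theorem FC_diag (l m : ℝ) (z : ℂ) : diagL l m z = ⟨l * z.re, m * z.im⟩ := rfl

theorem near_diffeo {l m : ℝ} (hl : 0 < l) (hl1 : l < 1) (hm : 1 < m) {ε' : ℝ} (hε' : 0 < ε') :
    ∃ ε > 0, ∀ F : ℂ → ℂ, NearDiag F l m ε → ∃ Fi : ℂ → ℂ, NearDiag Fi l⁻¹ m⁻¹ ε' ∧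
      (∀ z, Fi (F z) = z) ∧ ∀ z, F (Fi z) = z := by
  have hm0 : 0 < m := by linarith
  have hAB : ∀ z, diagL l m (diagL l⁻¹ m⁻¹ z) = z := by
    intro z
    rw [FC_diag, FC_diag]
    apply Complex.ext
    · simp only; field_simp
    · simp only; field_simp
  have hBA : ∀ z, diagL l⁻¹ m⁻¹ (diagL l m z) = z := by
    intro z
    rw [FC_diag, FC_diag]
    apply Complex.ext
    · simp only; field_simp
    · simp only; field_simp
  have hli : 0 < l⁻¹ := inv_pos.2 hl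
  have hN : ∀ z, ‖diagL l⁻¹ m⁻¹ z‖ ≤ l⁻¹ * ‖z‖ := by
    intro z
    rw [FC_diag]
    refine FC_norm (x := z.re) (y := z.im) hli.le ?_ ?_
    · rw [abs_mul, abs_of_pos hli]
    · rw [abs_mul, abs_of_pos (inv_pos.2 hm0)]
      refine mul_le_mul_of_nonneg_right ?_ (abs_nonneg _)
      exact inv_anti₀ hl (by linarith)
  set ε : ℝ := min (l / 2) (l ^ 2 * ε' / 2) with hε
  have hε0 : 0 < ε := by rw [hε]; positivity
  have hε1 : l⁻¹ * ε ≤ 1 / 2 := by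
    rw [inv_mul_le_iff₀ hl]
    have := min_le_left (l / 2) (l ^ 2 * ε' / 2)
    rw [← hε] at this
    linarith
  have hε2 : l⁻¹ ^ 2 * ε ≤ ε' / 2 := by
    rw [inv_pow, inv_mul_le_iff₀ (by positivity)]
    have := min_le_right (l / 2) (l ^ 2 * ε' / 2)
    rw [← hε] at this
    linarith
  refine ⟨ε, hε0, fun F hF => ?_⟩
  obtain ⟨C, hC⟩ := hF.bdd
  obtain ⟨Fi, h1, h2, h3, h4⟩ := FC_gen hAB hBA hN hli hε0.le (by linarith) hF.c1 hF.near
  refine ⟨Fi, ⟨h1, ?_, fun z => (h4 z).trans ?_, ⟨l⁻¹ * C, fun z => ?_⟩⟩, h2, h3⟩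
  · have := h2 0
    rwa [hF.zero] at this
  · rw [div_le_iff₀ (by linarith)]
    nlinarith
  · have h5 : Fi z - diagL l⁻¹ m⁻¹ z = - diagL l⁻¹ m⁻¹ (F (Fi z) - diagL l m (Fi z)) := by
      rw [map_sub, hBA, h3]
      ring
    rw [h5, norm_neg]
    exact (hN _).trans (mul_le_mul_of_nonneg_left (hC _) hli.le)

theorem FC_fderiv {v w : ℝ → ℝ} (hv : ContDiff ℝ 1 v) (hw : ContDiff ℝ 1 w) {η : ℝ} (hη : 0 < η)
    (hv' : ∀ x, |deriv v x| ≤ η) (hw' : ∀ x, |deriv w x| ≤ η) (z : ℂ) :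
    ‖fderiv ℝ (fun z : ℂ => (⟨z.re - w z.im, z.im - v z.re⟩ : ℂ)) z -
      ContinuousLinearMap.id ℝ ℂ‖ ≤ η := by
  have h1 : HasFDerivAt (fun z : ℂ => w z.im) (deriv w z.im • Complex.imCLM) z :=
    ((hw.differentiable (by simp) z.im).hasDerivAt).comp_hasFDerivAt z
      Complex.imCLM.hasFDerivAt
  have h2 : HasFDerivAt (fun z : ℂ => v z.re) (deriv v z.re • Complex.reCLM) z :=
    ((hv.differentiable (by simp) z.re).hasDerivAt).comp_hasFDerivAt z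
      Complex.reCLM.hasFDerivAt
  have h3 : HasFDerivAt (fun z : ℂ => (⟨z.re - w z.im, z.im - v z.re⟩ : ℂ))
      ((Complex.equivRealProdCLM.symm : (ℝ × ℝ) →L[ℝ] ℂ).comp
        ((Complex.reCLM - deriv w z.im • Complex.imCLM).prod
          (Complex.imCLM - deriv v z.re • Complex.reCLM))) z := by
    have h4 := ((Complex.reCLM.hasFDerivAt (x := z)).sub h1).prodMk
      ((Complex.imCLM.hasFDerivAt (x := z)).sub h2)
    exact (Complex.equivRealProdCLM.symm : (ℝ × ℝ) →L[ℝ] ℂ).hasFDerivAt.comp z h4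
  rw [h3.fderiv]
  refine ContinuousLinearMap.opNorm_le_bound _ hη.le fun u => ?_
  have h5 : (((Complex.equivRealProdCLM.symm : (ℝ × ℝ) →L[ℝ] ℂ).comp
        ((Complex.reCLM - deriv w z.im • Complex.imCLM).prod
          (Complex.imCLM - deriv v z.re • Complex.reCLM))) - ContinuousLinearMap.id ℝ ℂ) u =
      (⟨- (deriv w z.im * u.im), - (deriv v z.re * u.re)⟩ : ℂ) := by
    apply Complex.ext <;> simp
  rw [h5]
  have h6 : ‖u‖ = ‖(⟨u.im, u.re⟩ : ℂ)‖ := by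
    rw [← pow_left_inj₀ (norm_nonneg _) (norm_nonneg _) two_ne_zero, Complex.sq_norm,
      Complex.sq_norm, Complex.normSq_apply, Complex.normSq_apply]
    ring
  rw [h6]
  refine FC_norm hη.le ?_ ?_
  · rw [abs_neg, abs_mul]
    exact mul_le_mul_of_nonneg_right (hw' _) (abs_nonneg _)
  · rw [abs_neg, abs_mul]
    exact mul_le_mul_of_nonneg_right (hv' _) (abs_nonneg _)

theorem FC_contDiff {v w : ℝ → ℝ} (hv : ContDiff ℝ 1 v) (hw : ContDiff ℝ 1 w) :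
    ContDiff ℝ 1 (fun z : ℂ => (⟨z.re - w z.im, z.im - v z.re⟩ : ℂ)) := by
  have h1 : ContDiff ℝ 1 (fun z : ℂ => (z.re - w z.im, z.im - v z.re)) :=
    (Complex.reCLM.contDiff.sub (hw.comp Complex.imCLM.contDiff)).prodMk
      (Complex.imCLM.contDiff.sub (hv.comp Complex.reCLM.contDiff))
  exact (Complex.equivRealProdCLM.symm : (ℝ × ℝ) →L[ℝ] ℂ).contDiff.comp h1

theorem straighten {v w : ℝ → ℝ} (hv : ContDiff ℝ 1 v) (hw : ContDiff ℝ 1 w) (hv0 : v 0 = 0)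
    (hw0 : w 0 = 0) {η : ℝ} (hη : 0 < η) (hη2 : η ≤ 1 / 2) (hv' : ∀ x, |deriv v x| ≤ η)
    (hw' : ∀ x, |deriv w x| ≤ η) :
    ∃ Ψ Ψi : ℂ → ℂ, (∀ z : ℂ, Ψ z = ⟨z.re - w z.im, z.im - v z.re⟩) ∧ ContDiff ℝ 1 Ψ ∧
      ContDiff ℝ 1 Ψi ∧ (∀ z, Ψi (Ψ z) = z) ∧ (∀ z, Ψ (Ψi z) = z) ∧ Ψ 0 = 0 ∧
      (∀ z, ‖fderiv ℝ Ψ z - ContinuousLinearMap.id ℝ ℂ‖ ≤ 2 * η) ∧
      ∀ z, ‖fderiv ℝ Ψi z - ContinuousLinearMap.id ℝ ℂ‖ ≤ 4 * η := by
  obtain ⟨Fi, h1, h2, h3, h4⟩ := FC_gen (A := ContinuousLinearMap.id ℝ ℂ)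
    (B := ContinuousLinearMap.id ℝ ℂ) (fun z => rfl) (fun z => rfl) (N := 1) (c := η)
    (fun z => by simp) one_pos hη.le (by linarith) (FC_contDiff hv hw)
    (FC_fderiv hv hw hη hv' hw')
  refine ⟨_, Fi, fun z => rfl, FC_contDiff hv hw, h1, h2, h3, ?_,
    fun z => (FC_fderiv hv hw hη hv' hw' z).trans (by linarith), fun z => (h4 z).trans ?_⟩
  · apply Complex.ext <;> simp [hv0, hw0]
  · rw [one_mul, one_pow, one_mul, div_le_iff₀ (by linarith)]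
    nlinarith

end DS
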