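import Pool.Agent.H36.DS.Base

/-!
Definitions for the local analysis at a fixed prime end (project MP_8a27c0_DS).
-/

namespace DS

open Metric Set Filter Topology MeasureTheory

/-- closed rectangle -/
def Rect (a b c d : ℝ) : Set ℂ := {z | a ≤ z.re ∧ z.re ≤ b ∧ c ≤ z.im ∧ z.im ≤ d}

/-- boundary of the rectangle -/
def Bd (a b c d : ℝ) : Set ℂ :=
  {z | z ∈ Rect a b c d ∧ (z.re = a ∨ z.re = b ∨ z.im = c ∨ z.im = d)}

/-- the component of `Bd ∩ W` containing `w` (empty if `w` is not in it) -/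
def cc (W : Set ℂ) (a b c d : ℝ) (w : ℂ) : Set ℂ := connectedComponentIn (Bd a b c d ∩ W) w

/-- closed square -/
def Sq (r : ℝ) : Set ℂ := Rect (-r) r (-r) r

/-- `A` separates the base point `φ 0` from the boundary point `ζ` (in the domain `W`, a disc by `φ`) -/
def Sep (W : Set ℂ) (φ : ℂ → ℂ) (ζ : ℂ) (A : Set ℂ) : Prop :=
  φ 0 ∈ W \ A ∧ ∃ ρ > 0, ∀ z ∈ ball (0:ℂ) 1, dist z ζ < ρ →
    φ z ∉ A ∧ φ z ∉ connectedComponentIn (W \ A) (φ 0)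

/-- the two sides `Δ`, `M` of a cross-cut `A` of the domain `W` -/
structure Sides (W A Δ M : Set ℂ) : Prop where
  oΔ : IsOpen Δ
  oM : IsOpen M
  cΔ : IsConnected Δ
  cM : IsConnected M
  disj : Disjoint Δ M
  union : Δ ∪ M = W \ A
  clΔ : A ⊆ closure Δ
  clM : A ⊆ closure M

/-- A domain `W` of the plane, a disc by `φ` (inverse `u`), a homeomorphism `G` of `W` (inverse `Gi`)
preserving a measure `μ`, fixing the prime end `ζ`, of which the point `0` (not in `W`) is a principal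
point; `L0` is a metric property of conformal maps on `W ∩ closedBall 0 r₀`. -/
structure FixPE (W : Set ℂ) (φ u G Gi : ℂ → ℂ) (μ : Measure ℂ) (ζ : ℂ) (r₀ : ℝ) : Prop where
  hr₀ : 0 < r₀
  hζ : ‖ζ‖ = 1
  W_open : IsOpen W
  zero_notin : (0:ℂ) ∉ W
  φ_cont : ContinuousOn φ (ball 0 1)
  φ_maps : MapsTo φ (ball 0 1) W
  u_cont : ContinuousOn u W
  u_maps : MapsTo u W (ball 0 1)
  uφ : ∀ z ∈ ball (0:ℂ) 1, u (φ z) = z
  φu : ∀ w ∈ W, φ (u w) = w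
  G_cont : ContinuousOn G W
  G_maps : MapsTo G W W
  Gi_cont : ContinuousOn Gi W
  Gi_maps : MapsTo Gi W W
  GiG : ∀ w ∈ W, Gi (G w) = w
  GGi : ∀ w ∈ W, G (Gi w) = w
  fixζ : Tendsto (fun z => u (G (φ z))) (𝓝[ball 0 1] ζ) (𝓝 ζ)
  μ_inv : ∀ B ⊆ W, MeasurableSet B → μ (G '' B) = μ B
  μ_pos : ∀ O ⊆ W, IsOpen O → O.Nonempty → 0 < μ O
  μ_small : ∀ ε : ENNReal, 0 < ε → ∃ ρ > 0, μ (φ '' (ball 0 1 ∩ ball ζ ρ)) < ε
  L0 : ∀ ε > 0, ∃ δ > 0, ∀ γ ⊆ W ∩ closedBall 0 r₀, IsPreconnected γ →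
    (∀ z ∈ γ, ∀ w ∈ γ, dist z w < δ) → ∀ z ∈ γ, ∀ w ∈ γ, dist (u z) (u w) < ε
  L1 : ∀ ε > 0, ∃ ρ, 0 < ρ ∧ ρ < ε ∧ ∀ z ∈ ball (0:ℂ) 1, dist z ζ = ρ → ‖φ z‖ < ε

/-- hyperbolic local form on the square of half side `r`: the horizontal axis is contracted (factor at most
`lp < 1`), the vertical axis expanded (factor between `km > 1` and `kp`), both axes are invariant and the signs
of both coordinates are preserved -/
structure HypLoc (G : ℂ → ℂ) (r lp km kp : ℝ) : Prop where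
  hr : 0 < r
  hlp : 0 < lp
  hlp1 : lp < 1
  hkm : 1 < km
  hkp : km ≤ kp
  cont : ContinuousOn G (Sq r)
  re0 : ∀ z ∈ Sq r, z.re = 0 → (G z).re = 0
  repos : ∀ z ∈ Sq r, 0 < z.re → 0 < (G z).re ∧ (G z).re ≤ lp * z.re
  reneg : ∀ z ∈ Sq r, z.re < 0 → (G z).re < 0 ∧ lp * z.re ≤ (G z).re
  im0 : ∀ z ∈ Sq r, z.im = 0 → (G z).im = 0
  impos : ∀ z ∈ Sq r, 0 < z.im → km * z.im ≤ (G z).im ∧ (G z).im ≤ kp * z.im
  imneg : ∀ z ∈ Sq r, z.im < 0 → (G z).im ≤ km * z.im ∧ kp * z.im ≤ (G z).im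
  mono : ∀ z ∈ Sq r, ∀ w ∈ Sq r, z.re = w.re → z.im < w.im → (G z).im < (G w).im

/-- a chart `χ` of `X` minus a point `P'` of `K` onto the plane (inverse `κ`) with `χ P = 0` -/
structure PChart {X : Type*} [TopologicalSpace X] (K : Set X) (P P' : X) (χ : X → ℂ) (κ : ℂ → X) :
    Prop where
  hP' : P' ∈ K
  κ_cont : Continuous κ
  κ_ne : ∀ z, κ z ≠ P'
  χκ : ∀ z, χ (κ z) = z
  κχ : ∀ x, x ≠ P' → κ (χ x) = x
  χ_cont : ContinuousOn χ {P'}ᶜ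
  κ0 : κ 0 = P

/-- `x` is the limit along `φ` of a curve in the disc that lands at the boundary point `ξ` -/
def Acc {X : Type*} [TopologicalSpace X] (φ : ℂ → X) (ξ : ℂ) (x : X) : Prop :=
  ∃ c : ℝ → ℂ, ContinuousOn c (Ioc 0 1) ∧ (∀ t ∈ Ioc (0:ℝ) 1, c t ∈ ball (0:ℂ) 1) ∧
    Tendsto c (𝓝[>] 0) (𝓝 ξ) ∧ Tendsto (fun t => φ (c t)) (𝓝[>] 0) (𝓝 x)

/-- `P` is a principal point of the prime end `ζ` -/
def Principal {X : Type*} [MetricSpace X] (φ : ℂ → X) (ζ : ℂ) (P : X) : Prop :=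
  ∀ ε > 0, ∃ ρ, 0 < ρ ∧ ρ < ε ∧ ∀ z ∈ ball (0:ℂ) 1, dist z ζ = ρ → dist (φ z) P < ε

end DS
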