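import Pool.Agent.H36.DS.FB
import Pool.Agent.H36.DS.FC
import Pool.Agent.H36.DS.PBase

/-!
FE (global straightening of a map close to a diagonal map).  Proof.  Fix `η > 0` small (depending on `l`, `m`; see
the end).  Unstable graph: `c1_graph` for `F` gives `w`.  Stable graph: let `τ z = ⟨z.im, z.re⟩` and let `Fi` be the inverse
(`near_diffeo`); `τ ∘ Fi ∘ τ` is `NearDiag` for `(m⁻¹, l⁻¹)` (`m⁻¹ < 1 < l⁻¹`), so `c1_graph` gives `v` with
`(Fi ⟨x, v x⟩).im = v (Fi ⟨x, v x⟩).re`, and every `x'` is `(Fi ⟨x, v x⟩).re` for some `x`.  So `Fi` maps the graph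
`{(x, v x)}` onto itself, hence also `F`.  `F` maps `{(w y, y)}` onto itself.
Take `Ψ`, `Ψi` from `straighten`.  `Ψ` maps the graph of `v` to the horizontal axis (onto) and the graph of `w` to the vertical
axis.  `G = Ψ ∘ F ∘ Ψi` is `C¹`, maps each axis to itself, and `‖fderiv G z - diagL l m‖ ≤ κ` everywhere, where
`κ ≤ (1 + 2η)(ε + m·...)...` can be made `≤ min ((1 - l)/2) ((m - 1)/2) (l/2)` by the choice of `η` and `ε`.
With `lp = (1 + l)/2`, `km = (1 + m)/2`, `kp = 2 m`: for `z` with `z.re > 0`, `(G z).re = (G z).re - (G ⟨0, z.im⟩).re` is an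
integral of the entry `∂₁ G₁ ∈ [l/2, (1+l)/2]` over `[0, z.re]` (mean value theorem); the same for the other inequalities;
`mono`: `∂₂ G₂ > 0`.
-/

namespace DS
open Metric Set Filter Topology

theorem FE_mono {F : ℂ → ℂ} {l m ε ε' : ℝ} (h : NearDiag F l m ε) (hε : ε ≤ ε') :
    NearDiag F l m ε' :=
  ⟨h.c1, h.zero, fun z => (h.near z).trans hε, h.bdd⟩

/-- the swap of the coordinates -/
noncomputable def FE_t : ℂ →L[ℝ] ℂ :=
  (ContinuousLinearMap.mul ℝ ℂ Complex.I).comp (Complex.conjCLE : ℂ →L[ℝ] ℂ)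

theorem FE_t_apply (z : ℂ) : FE_t z = ⟨z.im, z.re⟩ := by
  apply Complex.ext <;> simp [FE_t]

theorem FE_t_norm (z : ℂ) : ‖FE_t z‖ = ‖z‖ := by
  have h : FE_t z = Complex.I * (starRingEnd ℂ) z := by simp [FE_t]
  rw [h, norm_mul, Complex.norm_I, one_mul, Complex.norm_conj]

theorem FE_t_op : ‖FE_t‖ ≤ 1 := by
  apply ContinuousLinearMap.opNorm_le_bound _ zero_le_one
  intro z
  rw [FE_t_norm, one_mul]

theorem FE_t_t (z : ℂ) : FE_t (FE_t z) = z := by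
  rw [FE_t_apply, FE_t_apply]

theorem FE_t_diag (l m : ℝ) (z : ℂ) : FE_t (diagL l m (FE_t z)) = diagL m l z := by
  rw [FE_t_apply, FE_t_apply]
  rfl

theorem FE_swap {F : ℂ → ℂ} {l m ε : ℝ} (h : NearDiag F l m ε) :
    NearDiag (fun z => FE_t (F (FE_t z))) m l ε := by
  refine ⟨?_, ?_, ?_, ?_⟩
  · exact FE_t.contDiff.comp (h.c1.comp FE_t.contDiff)
  · simp only [map_zero, h.zero]
  · intro z
    have hd : DifferentiableAt ℝ F (FE_t z) := h.c1.differentiable (by norm_num) _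
    have h1 : HasFDerivAt (fun z => FE_t (F (FE_t z)))
        (FE_t.comp ((fderiv ℝ F (FE_t z)).comp FE_t)) z :=
      FE_t.hasFDerivAt.comp z (hd.hasFDerivAt.comp z FE_t.hasFDerivAt)
    rw [h1.fderiv]
    have h2 : FE_t.comp ((fderiv ℝ F (FE_t z)).comp FE_t) - diagL m l
        = FE_t.comp ((fderiv ℝ F (FE_t z) - diagL l m).comp FE_t) := by
      ext1 w
      simp only [_root_.sub_apply, ContinuousLinearMap.comp_apply, map_sub, FE_t_diag]
    rw [h2]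
    have h3 := h.near (FE_t z)
    have h4 := FE_t_op
    calc ‖FE_t.comp ((fderiv ℝ F (FE_t z) - diagL l m).comp FE_t)‖
        ≤ ‖FE_t‖ * ‖(fderiv ℝ F (FE_t z) - diagL l m).comp FE_t‖ :=
          ContinuousLinearMap.opNorm_comp_le _ _
      _ ≤ 1 * (‖fderiv ℝ F (FE_t z) - diagL l m‖ * ‖FE_t‖) := by
          apply mul_le_mul h4 (ContinuousLinearMap.opNorm_comp_le _ _) (norm_nonneg _) zero_le_one
      _ ≤ 1 * (ε * 1) := by
          apply mul_le_mul_of_nonneg_left _ zero_le_one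
          apply mul_le_mul h3 h4 (norm_nonneg _) (le_trans (norm_nonneg _) h3)
      _ = ε := by ring
  · obtain ⟨C, hC⟩ := h.bdd
    refine ⟨C, fun z => ?_⟩
    rw [← FE_t_diag, ← map_sub, FE_t_norm]
    exact hC _

/-- mean value inequalities for the entries of a map close to a diagonal map -/
theorem FE_re {G : ℂ → ℂ} (hG : ContDiff ℝ 1 G) {l m κ : ℝ}
    (h : ∀ z, ‖fderiv ℝ G z - diagL l m‖ ≤ κ) (y : ℝ) {s t : ℝ} (hst : s ≤ t) :
    (l - κ) * (t - s) ≤ (G ⟨t, y⟩).re - (G ⟨s, y⟩).re ∧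
      (G ⟨t, y⟩).re - (G ⟨s, y⟩).re ≤ (l + κ) * (t - s) := by
  have hder : ∀ x : ℝ, HasDerivAt (fun x : ℝ => (G ⟨x, y⟩).re) ((fderiv ℝ G ⟨x, y⟩ 1).re) x := by
    intro x
    have h1 : HasDerivAt (fun x : ℝ => (⟨x, y⟩ : ℂ)) 1 x := by
      have h2 : (fun x : ℝ => (⟨x, y⟩ : ℂ)) = fun x : ℝ => (x : ℂ) + (y : ℂ) * Complex.I := by
        funext x
        apply Complex.ext <;> simp
      rw [h2]
      exact (Complex.ofRealCLM.hasDerivAt (x := x)).add_const _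
    have h3 : HasDerivAt (fun x : ℝ => G ⟨x, y⟩) (fderiv ℝ G ⟨x, y⟩ 1) x :=
      (hG.differentiable (by norm_num) _).hasFDerivAt.comp_hasDerivAt x h1
    exact Complex.reCLM.hasFDerivAt.comp_hasDerivAt x h3
  have hb : ∀ x : ℝ, |(fderiv ℝ G ⟨x, y⟩ 1).re - l| ≤ κ := by
    intro x
    have h1 : (fderiv ℝ G ⟨x, y⟩ 1).re - l = ((fderiv ℝ G ⟨x, y⟩ - diagL l m) 1).re := by
      rw [_root_.sub_apply, Complex.sub_re]
      congr 1
      change l = l * (1 : ℂ).re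
      simp
    rw [h1]
    calc |((fderiv ℝ G ⟨x, y⟩ - diagL l m) 1).re| ≤ ‖(fderiv ℝ G ⟨x, y⟩ - diagL l m) 1‖ :=
          Complex.abs_re_le_norm _
      _ ≤ ‖fderiv ℝ G ⟨x, y⟩ - diagL l m‖ * ‖(1 : ℂ)‖ := ContinuousLinearMap.le_opNorm _ _
      _ ≤ κ := by rw [norm_one, mul_one]; exact h _
  have hdiff : Differentiable ℝ (fun x : ℝ => (G ⟨x, y⟩).re) := fun x => (hder x).differentiableAt
  constructor
  · apply mul_sub_le_image_sub_of_le_deriv hdiff _ hst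
    intro x
    rw [(hder x).deriv]
    have := (abs_le.1 (hb x)).1
    linarith
  · apply image_sub_le_mul_sub_of_deriv_le hdiff _ hst
    intro x
    rw [(hder x).deriv]
    have := (abs_le.1 (hb x)).2
    linarith

theorem FE_im {G : ℂ → ℂ} (hG : ContDiff ℝ 1 G) {l m κ : ℝ}
    (h : ∀ z, ‖fderiv ℝ G z - diagL l m‖ ≤ κ) (y : ℝ) {s t : ℝ} (hst : s ≤ t) :
    (m - κ) * (t - s) ≤ (G ⟨y, t⟩).im - (G ⟨y, s⟩).im ∧
      (G ⟨y, t⟩).im - (G ⟨y, s⟩).im ≤ (m + κ) * (t - s) := by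
  have hder : ∀ x : ℝ, HasDerivAt (fun x : ℝ => (G ⟨y, x⟩).im)
      ((fderiv ℝ G ⟨y, x⟩ Complex.I).im) x := by
    intro x
    have h1 : HasDerivAt (fun x : ℝ => (⟨y, x⟩ : ℂ)) Complex.I x := by
      have h2 : (fun x : ℝ => (⟨y, x⟩ : ℂ)) = fun x : ℝ => (y : ℂ) + (x : ℂ) * Complex.I := by
        funext x
        apply Complex.ext <;> simp
      rw [h2]
      have h3 := ((Complex.ofRealCLM.hasDerivAt (x := x)).mul_const Complex.I).const_add (y : ℂ)
      simpa using h3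
    have h3 : HasDerivAt (fun x : ℝ => G ⟨y, x⟩) (fderiv ℝ G ⟨y, x⟩ Complex.I) x :=
      (hG.differentiable (by norm_num) _).hasFDerivAt.comp_hasDerivAt x h1
    exact Complex.imCLM.hasFDerivAt.comp_hasDerivAt x h3
  have hb : ∀ x : ℝ, |(fderiv ℝ G ⟨y, x⟩ Complex.I).im - m| ≤ κ := by
    intro x
    have h1 : (fderiv ℝ G ⟨y, x⟩ Complex.I).im - m
        = ((fderiv ℝ G ⟨y, x⟩ - diagL l m) Complex.I).im := by
      rw [_root_.sub_apply, Complex.sub_im]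
      congr 1
      change m = m * (Complex.I).im
      simp
    rw [h1]
    calc |((fderiv ℝ G ⟨y, x⟩ - diagL l m) Complex.I).im|
        ≤ ‖(fderiv ℝ G ⟨y, x⟩ - diagL l m) Complex.I‖ := Complex.abs_im_le_norm _
      _ ≤ ‖fderiv ℝ G ⟨y, x⟩ - diagL l m‖ * ‖Complex.I‖ := ContinuousLinearMap.le_opNorm _ _
      _ ≤ κ := by rw [Complex.norm_I, mul_one]; exact h _
  have hdiff : Differentiable ℝ (fun x : ℝ => (G ⟨y, x⟩).im) := fun x => (hder x).differentiableAt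
  constructor
  · apply mul_sub_le_image_sub_of_le_deriv hdiff _ hst
    intro x
    rw [(hder x).deriv]
    have := (abs_le.1 (hb x)).1
    linarith
  · apply image_sub_le_mul_sub_of_deriv_le hdiff _ hst
    intro x
    rw [(hder x).deriv]
    have := (abs_le.1 (hb x)).2
    linarith

/-- a map close to a diagonal map, which preserves both axes, is hyperbolic -/
theorem FE_hyp {G : ℂ → ℂ} (hG : ContDiff ℝ 1 G) {l m κ : ℝ} (hl : 0 < l) (hl1 : l < 1)
    (hm : 1 < m) (h : ∀ z, ‖fderiv ℝ G z - diagL l m‖ ≤ κ) (k1 : κ ≤ (1 - l) / 2)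
    (k2 : κ ≤ l / 2) (k3 : κ ≤ (m - 1) / 2) (hre : ∀ z : ℂ, z.re = 0 → (G z).re = 0)
    (him : ∀ z : ℂ, z.im = 0 → (G z).im = 0) {r : ℝ} (hr : 0 < r) :
    HypLoc G r ((1 + l) / 2) ((1 + m) / 2) (2 * m) := by
  have eta : ∀ z : ℂ, (⟨z.re, z.im⟩ : ℂ) = z := fun z => rfl
  refine ⟨hr, by linarith, by linarith, by linarith, by linarith, hG.continuous.continuousOn,
    fun z _ => hre z, ?_, ?_, fun z _ => him z, ?_, ?_, ?_⟩
  · intro z _ hz
    obtain ⟨h1, h2⟩ := FE_re hG h z.im hz.le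
    rw [eta, hre ⟨0, z.im⟩ rfl, sub_zero, sub_zero] at h1 h2
    constructor
    · have : 0 < (l - κ) * z.re := mul_pos (by linarith) hz
      linarith
    · have : (l + κ) * z.re ≤ (1 + l) / 2 * z.re := mul_le_mul_of_nonneg_right (by linarith) hz.le
      linarith
  · intro z _ hz
    obtain ⟨h1, h2⟩ := FE_re hG h z.im hz.le
    rw [eta, hre ⟨0, z.im⟩ rfl, zero_sub, zero_sub] at h1 h2
    constructor
    · have : 0 < (l - κ) * (-z.re) := mul_pos (by linarith) (by linarith)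
      linarith
    · have : (l + κ) * (-z.re) ≤ (1 + l) / 2 * (-z.re) :=
        mul_le_mul_of_nonneg_right (by linarith) (by linarith)
      linarith
  · intro z _ hz
    obtain ⟨h1, h2⟩ := FE_im hG h z.re hz.le
    rw [eta, him ⟨z.re, 0⟩ rfl, sub_zero, sub_zero] at h1 h2
    constructor
    · have : (1 + m) / 2 * z.im ≤ (m - κ) * z.im := mul_le_mul_of_nonneg_right (by linarith) hz.le
      linarith
    · have : (m + κ) * z.im ≤ 2 * m * z.im := mul_le_mul_of_nonneg_right (by linarith) hz.le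
      linarith
  · intro z _ hz
    obtain ⟨h1, h2⟩ := FE_im hG h z.re hz.le
    rw [eta, him ⟨z.re, 0⟩ rfl, zero_sub, zero_sub] at h1 h2
    constructor
    · have : (1 + m) / 2 * (-z.im) ≤ (m - κ) * (-z.im) :=
        mul_le_mul_of_nonneg_right (by linarith) (by linarith)
      linarith
    · have : (m + κ) * (-z.im) ≤ 2 * m * (-z.im) :=
        mul_le_mul_of_nonneg_right (by linarith) (by linarith)
      linarith
  · intro z _ w _ hzw hlt
    obtain ⟨h1, -⟩ := FE_im hG h z.re hlt.le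
    rw [eta] at h1
    rw [hzw, eta] at h1
    have : 0 < (m - κ) * (w.im - z.im) := mul_pos (by linarith) (by linarith)
    linarith

/-- the norm estimate for the conjugated derivative -/
theorem FE_norm {P Q R D : ℂ →L[ℝ] ℂ} {η ε : ℝ} (hη : 0 ≤ η) (hη2 : η ≤ 1 / 2) (hε1 : ε ≤ 1)
    (hP : ‖P - ContinuousLinearMap.id ℝ ℂ‖ ≤ 2 * η) (hQ : ‖Q - D‖ ≤ ε)
    (hR : ‖R - ContinuousLinearMap.id ℝ ℂ‖ ≤ 4 * η) :
    ‖P.comp (Q.comp R) - D‖ ≤ 10 * η * (‖D‖ + 1) + 3 * ε := by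
  have hε0 : 0 ≤ ε := (norm_nonneg _).trans hQ
  have hRn : ‖R‖ ≤ 3 := by
    have h1 : R = (R - ContinuousLinearMap.id ℝ ℂ) + ContinuousLinearMap.id ℝ ℂ := by abel
    rw [h1]
    refine (norm_add_le _ _).trans ?_
    have : ‖ContinuousLinearMap.id ℝ ℂ‖ ≤ 1 := ContinuousLinearMap.norm_id_le
    linarith
  have hQn : ‖Q‖ ≤ ‖D‖ + 1 := by
    have h1 : Q = (Q - D) + D := by abel
    rw [h1]
    refine (norm_add_le _ _).trans ?_
    linarith
  have hD0 := norm_nonneg D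
  have e : P.comp (Q.comp R) - D = (P - ContinuousLinearMap.id ℝ ℂ).comp (Q.comp R)
      + (Q - D).comp R + D.comp (R - ContinuousLinearMap.id ℝ ℂ) := by
    ext1 w
    simp only [_root_.sub_apply, _root_.add_apply, ContinuousLinearMap.comp_apply,
      ContinuousLinearMap.id_apply, map_sub]
    abel
  rw [e]
  have n1 : ‖(P - ContinuousLinearMap.id ℝ ℂ).comp (Q.comp R)‖ ≤ 2 * η * ((‖D‖ + 1) * 3) := by
    refine (ContinuousLinearMap.opNorm_comp_le _ _).trans ?_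
    apply mul_le_mul hP _ (norm_nonneg _) (by linarith)
    refine (ContinuousLinearMap.opNorm_comp_le _ _).trans ?_
    exact mul_le_mul hQn hRn (norm_nonneg _) (by linarith)
  have n2 : ‖(Q - D).comp R‖ ≤ ε * 3 := by
    refine (ContinuousLinearMap.opNorm_comp_le _ _).trans ?_
    exact mul_le_mul hQ hRn (norm_nonneg _) hε0
  have n3 : ‖D.comp (R - ContinuousLinearMap.id ℝ ℂ)‖ ≤ ‖D‖ * (4 * η) := by
    refine (ContinuousLinearMap.opNorm_comp_le _ _).trans ?_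
    exact mul_le_mul_of_nonneg_left hR hD0
  have n4 := norm_add_le ((P - ContinuousLinearMap.id ℝ ℂ).comp (Q.comp R)
      + (Q - D).comp R) (D.comp (R - ContinuousLinearMap.id ℝ ℂ))
  have n5 := norm_add_le ((P - ContinuousLinearMap.id ℝ ℂ).comp (Q.comp R)) ((Q - D).comp R)
  have n6 : 0 ≤ η * ‖D‖ := by positivity
  linarith

theorem global_straight {l m : ℝ} (hl : 0 < l) (hl1 : l < 1) (hm : 1 < m) :
    ∃ ε > 0, ∀ F : ℂ → ℂ, NearDiag F l m ε → ∃ (Ψ Ψi : ℂ → ℂ) (lp km kp : ℝ),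
      ContDiff ℝ 1 Ψ ∧ ContDiff ℝ 1 Ψi ∧ (∀ z, Ψi (Ψ z) = z) ∧ (∀ z, Ψ (Ψi z) = z) ∧ Ψ 0 = 0 ∧
      ∀ r, 0 < r → HypLoc (fun z => Ψ (F (Ψi z))) r lp km kp := by
  have hm0 : 0 < m := by linarith
  obtain ⟨κ, hκ, k1, k2, k3⟩ : ∃ κ : ℝ, 0 < κ ∧ κ ≤ (1 - l) / 2 ∧ κ ≤ l / 2 ∧ κ ≤ (m - 1) / 2 :=
    ⟨min ((1 - l) / 2) (min (l / 2) ((m - 1) / 2)),
      lt_min (by linarith) (lt_min (by linarith) (by linarith)), min_le_left _ _,
      (min_le_right _ _).trans (min_le_left _ _), (min_le_right _ _).trans (min_le_right _ _)⟩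
  have hM : 0 < ‖diagL l m‖ + 1 := by positivity
  obtain ⟨η, hη, hη2, hηκ⟩ : ∃ η : ℝ, 0 < η ∧ η ≤ 1 / 2 ∧ 20 * (‖diagL l m‖ + 1) * η ≤ κ := by
    refine ⟨min (1 / 2) (κ / (20 * (‖diagL l m‖ + 1))), lt_min (by norm_num) (by positivity),
      min_le_left _ _, ?_⟩
    have : min (1 / 2) (κ / (20 * (‖diagL l m‖ + 1))) ≤ κ / (20 * (‖diagL l m‖ + 1)) :=
      min_le_right _ _
    rw [le_div_iff₀ (by positivity)] at this
    linarith
  obtain ⟨ε₁, hε₁, h1⟩ := c1_graph hl hl1 hm hη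
  obtain ⟨ε₂, hε₂, h2⟩ := c1_graph (inv_pos.2 hm0) (inv_lt_one_of_one_lt₀ hm)
    ((one_lt_inv₀ hl).2 hl1) hη
  obtain ⟨ε₃, hε₃, h3⟩ := near_diffeo hl hl1 hm hε₂
  refine ⟨min (min ε₁ ε₃) (min 1 (κ / 6)),
    lt_min (lt_min hε₁ hε₃) (lt_min one_pos (by linarith)), fun F hF => ?_⟩
  obtain ⟨w, hw1, hw0, hw', hwinv, -⟩ :=
    h1 F (FE_mono hF ((min_le_left _ _).trans (min_le_left _ _)))
  obtain ⟨Fi, hFi, hFiF, hFFi⟩ :=
    h3 F (FE_mono hF ((min_le_left _ _).trans (min_le_right _ _)))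
  obtain ⟨v, hv1, hv0, hv', hvinv, hvsurj⟩ := h2 _ (FE_swap hFi)
  obtain ⟨Ψ, Ψi, hΨ, hΨ1, hΨi1, hiΨ, hΨi, hΨ0, hΨd, hΨid⟩ :=
    straighten hv1 hw1 hv0 hw0 hη hη2 hv' hw'
  refine ⟨Ψ, Ψi, (1 + l) / 2, (1 + m) / 2, 2 * m, hΨ1, hΨi1, hiΨ, hΨi, hΨ0, fun r hr => ?_⟩
  have hFε := hF.near
  refine FE_hyp (hΨ1.comp (hF.c1.comp hΨi1)) hl hl1 hm ?_ k1 k2 k3 ?_ ?_ hr
  · intro z
    have hd1 : HasFDerivAt Ψi (fderiv ℝ Ψi z) z :=
      (hΨi1.differentiable (by norm_num) z).hasFDerivAt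
    have hd2 : HasFDerivAt F (fderiv ℝ F (Ψi z)) (Ψi z) :=
      (hF.c1.differentiable (by norm_num) _).hasFDerivAt
    have hd3 : HasFDerivAt Ψ (fderiv ℝ Ψ (F (Ψi z))) (F (Ψi z)) :=
      (hΨ1.differentiable (by norm_num) _).hasFDerivAt
    have hd : HasFDerivAt (fun z => Ψ (F (Ψi z)))
        ((fderiv ℝ Ψ (F (Ψi z))).comp ((fderiv ℝ F (Ψi z)).comp (fderiv ℝ Ψi z))) z :=
      hd3.comp z (hd2.comp z hd1)
    change ‖fderiv ℝ (fun z => Ψ (F (Ψi z))) z - diagL l m‖ ≤ κ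
    rw [hd.fderiv]
    have := FE_norm (ε := κ / 6) hη.le hη2 (by linarith) (hΨd (F (Ψi z)))
      ((hFε (Ψi z)).trans ((min_le_right _ _).trans (min_le_right _ _))) (hΨid z)
    linarith
  · intro z hz
    change (Ψ (F (Ψi z))).re = 0
    set p := Ψi z with hp
    have hpz : Ψ p = z := hΨi z
    have h4 : p.re = w p.im := by
      have h5 := congrArg Complex.re hpz
      rw [hΨ, hz] at h5
      simp only at h5
      linarith
    rw [hΨ]
    simp only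
    have h6 := hwinv p.im
    rw [← h4] at h6
    change (F p).re - w (F p).im = 0
    have h7 : (⟨p.re, p.im⟩ : ℂ) = p := rfl
    rw [h7] at h6
    rw [h6]; ring
  · intro z hz
    change (Ψ (F (Ψi z))).im = 0
    set p := Ψi z with hp
    have hpz : Ψ p = z := hΨi z
    have h4 : p.im = v p.re := by
      have h5 := congrArg Complex.im hpz
      rw [hΨ, hz] at h5
      simp only at h5
      linarith
    obtain ⟨x, hx⟩ := hvsurj p.re
    have h8 := hvinv x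
    simp only [FE_t_apply] at hx h8
    rw [hx, ← h4] at h8
    have h9 : Fi ⟨x, v x⟩ = p := Complex.ext hx h8
    have h10 : F p = ⟨x, v x⟩ := by rw [← h9, hFFi]
    rw [hΨ, h10]
    simp

end DS
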