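import Mathlib

/-!
TA (components of an invariant open set are periodic).  Proof.  `f` maps connected components of `U` onto connected
components of `U` (`f '' U = U`, homeomorphism): `f^[n] '' (connectedComponentIn U x) = connectedComponentIn U (f^[n] x)`.
All these sets are open (`IsOpen.connectedComponentIn`, locally connected) and have the same measure, positive and finite.
If they were pairwise disjoint for different `n` the total measure would be infinite (`tsum` of a positive constant); so
`f^[n] '' V ∩ f^[m] '' V ≠ ∅` for some `n < m`; then the two components are equal, and applying the inverse `n` times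
`f^[m - n] '' V = V`.
-/

namespace DS
open Metric Set Filter Topology Function MeasureTheory

theorem auxTA_iter {X : Type*} [TopologicalSpace X] {f fi : X → X} (hf : Continuous f)
    (hfi : Continuous fi) (hffi : ∀ x, f (fi x) = x) (hfif : ∀ x, fi (f x) = x) {U : Set X}
    (hfU : f '' U = U) {x : X} (hx : x ∈ U) (n : ℕ) :
    f^[n] x ∈ U ∧ f^[n] '' connectedComponentIn U x = connectedComponentIn U (f^[n] x) := by
  let h : X ≃ₜ X := { toFun := f, invFun := fi, left_inv := hfif, right_inv := hffi,
                      continuous_toFun := hf, continuous_invFun := hfi }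
  induction n with
  | zero => simpa using hx
  | succ n ih =>
    obtain ⟨ih1, ih2⟩ := ih
    constructor
    · rw [iterate_succ', comp_apply, ← hfU]
      exact mem_image_of_mem f ih1
    · rw [iterate_succ', image_comp, ih2, comp_apply]
      have := h.image_connectedComponentIn ih1
      change f '' connectedComponentIn U (f^[n] x) = connectedComponentIn (f '' U) (f (f^[n] x))
        at this
      rw [this, hfU]

theorem component_periodic {X : Type*} [TopologicalSpace X] [LocallyConnectedSpace X]
    [MeasurableSpace X] [BorelSpace X] (ν : Measure X) (hfin : ν univ < ⊤)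
    (hpos : ∀ O : Set X, IsOpen O → O.Nonempty → 0 < ν O) {f fi : X → X} (hf : Continuous f)
    (hfi : Continuous fi) (hffi : ∀ x, f (fi x) = x) (hfif : ∀ x, fi (f x) = x)
    (hν : ∀ B, MeasurableSet B → ν (f '' B) = ν B) {U : Set X} (hU : IsOpen U)
    (hfU : f '' U = U) {x : X} (hx : x ∈ U) :
    ∃ q, 0 < q ∧ f^[q] '' connectedComponentIn U x = connectedComponentIn U x := by
  set V := connectedComponentIn U x with hV
  have hit := auxTA_iter hf hfi hffi hfif hfU hx
  have hopen : ∀ n, IsOpen (f^[n] '' V) := by
    intro n
    rw [(hit n).2]
    exact hU.connectedComponentIn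
  have hmeas : ∀ n, ν (f^[n] '' V) = ν V := by
    intro n
    induction n with
    | zero => simp
    | succ n ih =>
      rw [iterate_succ', image_comp, hν _ (hopen n).measurableSet, ih]
  have hVpos : 0 < ν V := by
    apply hpos V hU.connectedComponentIn
    exact ⟨x, mem_connectedComponentIn hx⟩
  have htsum : ν univ < ∑' n, ν (f^[n] '' V) := by
    simp only [hmeas]
    rw [ENNReal.tsum_const_eq_top_of_ne_zero hVpos.ne']
    exact hfin
  obtain ⟨n, m, hnm, z, hz1, hz2⟩ := exists_nonempty_inter_of_measure_univ_lt_tsum_measure ν
    (fun n => (hopen n).measurableSet.nullMeasurableSet) htsum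
  have hinj : Injective f := fun a b hab => by rw [← hfif a, ← hfif b, hab]
  have key : ∀ n m : ℕ, n < m → z ∈ f^[n] '' V → z ∈ f^[m] '' V →
      ∃ q, 0 < q ∧ f^[q] '' V = V := by
    intro n m hlt h1 h2
    refine ⟨m - n, by omega, ?_⟩
    have h3 : f^[n] '' V = f^[m] '' V := by
      rw [(hit n).2] at h1 ⊢
      rw [(hit m).2] at h2 ⊢
      rw [connectedComponentIn_eq h1, connectedComponentIn_eq h2]
    have h4 : f^[n] '' (f^[m - n] '' V) = f^[n] '' V := by
      rw [← image_comp, ← iterate_add, h3]
      congr 2
      omega
    exact (hinj.iterate n).image_injective h4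
  rcases lt_or_gt_of_ne hnm with h | h
  · exact key n m h hz1 hz2
  · exact key m n h hz2 hz1

end DS
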