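import Pool.Agent.H36.DS.TDD

/-!
TE (the two components contain all the periodic points).
-/

namespace DS
open Metric Set Filter Topology Function MeasureTheory
open scoped Manifold ContDiff

theorem image_iter_mul {X : Type*} {f : X → X} {q : ℕ} {A : Set X} (h : f^[q] '' A = A) (l : ℕ) :
    f^[q * l] '' A = A := by
  induction l with
  | zero => simp
  | succ l ih =>
    rw [Nat.mul_succ, iterate_add, image_comp, h, ih]

theorem two_for_all {f fi : S2 → S2} {ν : Measure S2} (hS : Sys f fi ν) {q : ℕ}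
    {V : Set S2} (hV : InvV f q V) (hper : (periodicPts f).Nonempty) :
    ∃ M > 0, f^[M] '' V = V ∧ ∃ x ∉ V, ∃ y ∉ V,
      connectedComponentIn Vᶜ x ≠ connectedComponentIn Vᶜ y ∧
      f^[M] '' connectedComponentIn Vᶜ x = connectedComponentIn Vᶜ x ∧
      f^[M] '' connectedComponentIn Vᶜ y = connectedComponentIn Vᶜ y ∧
      periodicPts f ⊆ connectedComponentIn Vᶜ x ∪ connectedComponentIn Vᶜ y := by
  obtain ⟨P, n, hn, hP⟩ := hper
  have hInv : ∀ l > 0, InvV f (q * l) V := fun l hl =>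
    ⟨hV.V_open, hV.V_conn, hV.V_stab, Nat.mul_pos hV.hm hl, image_iter_mul hV.inv l⟩
  have hM := hInv n hn
  have hPM : f^[q * n] P = P := hP.const_mul q
  have hT := invComp_two hS hM ⟨_, hM.comp_fix hS hPM⟩
  obtain ⟨K₁, K₂, hK, hTe⟩ := Set.ncard_eq_two.mp hT
  have h1 : K₁ ∈ invComp (f^[q * n]) V := by rw [hTe]; simp
  have h2 : K₂ ∈ invComp (f^[q * n]) V := by rw [hTe]; simp
  have hall : ∀ Q ∈ periodicPts f, Q ∈ K₁ ∪ K₂ := by
    rintro Q ⟨s, hs, hQ⟩
    have hM' : InvV f (q * n * s) V := by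
      have := hInv (n * s) (Nat.mul_pos hn hs)
      rwa [← mul_assoc] at this
    have hQM : f^[q * n * s] Q = Q := hQ.const_mul (q * n)
    have hsub : invComp (f^[q * n]) V ⊆ invComp (f^[q * n * s]) V := by
      rintro K ⟨hK1, hK2⟩
      exact ⟨hK1, image_iter_mul hK2 s⟩
    have hQT := hM'.comp_fix hS hQM
    have hT' := invComp_two hS hM' ⟨_, hQT⟩
    have heq := Set.eq_of_subset_of_ncard_le hsub (by rw [hT, hT']) (invComp_finite hS hM')
    rw [← heq, hTe] at hQT
    have hQV : Q ∈ Vᶜ := hV.not_per ⟨s, hs, hQ⟩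
    have hQc : Q ∈ connectedComponentIn Vᶜ Q := mem_connectedComponentIn hQV
    rcases hQT with h | h
    · left; rw [← h]; exact hQc
    · right; rw [mem_singleton_iff] at h; rw [← h]; exact hQc
  obtain ⟨⟨x, hx, rfl⟩, hx1⟩ := h1
  obtain ⟨⟨y, hy, rfl⟩, hy1⟩ := h2
  exact ⟨q * n, hM.hm, hM.inv, x, hx, y, hy, hK, hx1, hy1, hall⟩

end DS
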