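import Pool.Agent.H36.DS.SB
import Pool.Agent.H36.DS.TA
import Pool.Agent.H36.DS.TE

/-!
FIN (the theorem for the sphere).  Assembly: let `S` be the union of the stable sets of the periodic points and suppose
that the complement `U` of its closure is not empty.  A component `V` of `U` is periodic (`component_periodic`), `f^[q] '' V = V`;
two components `K₁`, `K₂` of `Vᶜ` contain all the periodic points and are invariant under some `f^[M]` (`two_for_all`); the
complement of `K₁ ∪ K₂` is an annulus (`two_annulus`) without periodic points, contradicting condition 4.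
-/

namespace DS
open Metric Set Filter Topology Function MeasureTheory
open scoped Manifold ContDiff

theorem stable_image {f fi : S2 → S2} (hffi : ∀ x, f (fi x) = x) (hfif : ∀ x, fi (f x) = x) :
    f '' (⋃ P ∈ periodicPts f, stableSet f P) = ⋃ P ∈ periodicPts f, stableSet f P := by
  apply Subset.antisymm
  · rintro _ ⟨x, hx, rfl⟩
    simp only [mem_iUnion] at hx ⊢
    obtain ⟨P, hP, hx⟩ := hx
    refine ⟨f P, ?_, ?_⟩
    · obtain ⟨n, hn, h⟩ := hP
      exact ⟨n, hn, h.apply⟩
    · have h1 : Tendsto (fun n : ℕ => dist (f^[n] x) (f^[n] P)) atTop (𝓝 0) := hx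
      show Tendsto (fun n : ℕ => dist (f^[n] (f x)) (f^[n] (f P))) atTop (𝓝 0)
      have h2 := h1.comp (tendsto_add_atTop_nat 1)
      refine h2.congr fun n => ?_
      simp only [comp_apply, iterate_succ_apply]
  · intro x hx
    simp only [mem_iUnion] at hx
    obtain ⟨P, hP, hx⟩ := hx
    refine ⟨fi x, ?_, hffi x⟩
    simp only [mem_iUnion]
    refine ⟨fi P, ?_, ?_⟩
    · obtain ⟨n, hn, h⟩ := hP
      refine ⟨n, hn, ?_⟩
      have h1 : f (f^[n] (fi P)) = f (fi P) := by
        rw [← iterate_succ_apply' f n, iterate_succ_apply, hffi]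
        exact h
      have h2 := congrArg fi h1
      rwa [hfif, hfif] at h2
    · show Tendsto (fun n : ℕ => dist (f^[n] (fi x)) (f^[n] (fi P))) atTop (𝓝 0)
      have h1 : Tendsto (fun n : ℕ => dist (f^[n] x) (f^[n] P)) atTop (𝓝 0) := hx
      rw [← tendsto_add_atTop_iff_nat 1]
      refine h1.congr fun n => ?_
      simp only [iterate_succ_apply, hffi]

theorem sphere_main (r : WithTop ℕ∞) (hr : 1 ≤ r) (f : Diffeomorph (𝓡 2) (𝓡 2) S2 S2 r)
    (ρ : S2 → ℝ) (hρ : Continuous ρ) (hρ0 : ∀ x, 0 < ρ x) (hf : PreservesArea ρ f)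
    (hper : (periodicPts f).Nonempty) (h1 : Cond1 f) (h2 : Cond2 f f.symm) (h4 : Cond4 f) :
    Dense (⋃ P ∈ periodicPts f, stableSet f P) := by
  obtain ⟨ν, hS⟩ := sys_of r hr f ρ hρ hρ0 hf h1 h2
  set S : Set S2 := ⋃ P ∈ periodicPts f, stableSet f P with hSdef
  by_contra hden
  rw [dense_iff_closure_eq] at hden
  obtain ⟨x, hx⟩ : ∃ x, x ∉ closure S := by
    by_contra h
    push Not at h
    exact hden (eq_univ_of_forall h)
  have hSf : f '' S = S := stable_image hS.ffi hS.fif
  have hcf : Continuous f := hS.cf.continuous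
  have hcfi : Continuous f.symm := hS.cfi.continuous
  let H : S2 ≃ₜ S2 := { toFun := f, invFun := f.symm, left_inv := hS.fif, right_inv := hS.ffi,
                        continuous_toFun := hcf, continuous_invFun := hcfi }
  have hclf : f '' closure S = closure S := by
    have h := H.image_closure S
    change f '' closure S = closure (f '' S) at h
    rw [h, hSf]
  set U : Set S2 := (closure S)ᶜ with hU
  have hUo : IsOpen U := isClosed_closure.isOpen_compl
  have hUf : f '' U = U := by
    have h : H '' (closure S)ᶜ = (H '' closure S)ᶜ := image_compl_eq H.bijective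
    change f '' U = (f '' closure S)ᶜ at h
    rw [h, hclf]
  obtain ⟨q, hq, hqV⟩ := component_periodic ν hS.fin hS.pos hcf hcfi hS.ffi hS.fif hS.inv hUo hUf
    (x := x) hx
  set V := connectedComponentIn U x with hVdef
  have hV : InvV f q V := by
    refine ⟨hUo.connectedComponentIn, isConnected_connectedComponentIn_iff.mpr hx, ?_, hq, hqV⟩
    intro P hP
    rw [disjoint_left]
    intro z hz hzP
    have h3 : z ∈ S := by
      simp only [hSdef, mem_iUnion]
      exact ⟨P, hP, hzP⟩
    exact connectedComponentIn_subset _ _ hz (subset_closure h3)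
  obtain ⟨M, hM, hMV, a, ha, b, hb, hab, hMa, hMb, hall⟩ := two_for_all hS hV hper
  have hCa := hV.compK ha
  have hCb := hV.compK hb
  have hann := two_annulus hCa.K_closed hCb.K_closed hCa.K_conn hCb.K_conn (comp_disj hab)
    (hV.compl_conn ha) ⟨by
      obtain ⟨y, hy⟩ := hV.V_conn.nonempty
      refine ⟨y, ?_⟩
      rintro (h | h)
      · exact connectedComponentIn_subset _ _ h hy
      · exact connectedComponentIn_subset _ _ h hy,
      compl_two hV.V_conn.isPreconnected hV.V_conn.nonempty a b ha hb hab⟩
  refine h4 M hM _ ⟨(hCa.K_closed.union hCb.K_closed).isOpen_compl, ?_, hann, ?_⟩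
  · have h : (hS.homeo M) '' (connectedComponentIn Vᶜ a ∪ connectedComponentIn Vᶜ b)ᶜ
        = ((hS.homeo M) '' (connectedComponentIn Vᶜ a ∪ connectedComponentIn Vᶜ b))ᶜ :=
      image_compl_eq (hS.homeo M).bijective
    change (f : S2 → S2)^[M] '' _ = ((f : S2 → S2)^[M] '' _)ᶜ at h
    rw [h, image_union, hMa, hMb]
  · intro P hP hPper
    apply hP
    apply hall
    obtain ⟨n, hn, h⟩ := hPper
    refine ⟨M * n, Nat.mul_pos hM hn, ?_⟩
    show (f : S2 → S2)^[M * n] P = P
    rw [iterate_mul]
    exact h

end DS
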