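import Pool.Agent.H36.DS.IA

/-!
IB (additivity).  Proof.  Let `X = (⋃ i, O i)ᶜ`, `G z = f z * ∏ i, (z - k i) ^ (- n i)` on `X`: continuous and
nowhere zero.  For each `i` let `L i` be a continuous logarithm of `f z / (z - k i) ^ n i` on the closed set
`frontier (O i) ⊆ X` (closures of different `O j` are disjoint, `O i` open); extend it by Tietze
(`ContinuousMap.exists_extension` / real and imaginary parts) to a continuous `L i : ℂ → ℂ`, and on
`closure (O i)` put `G z = exp (L i z) * ∏ j ≠ i, (z - k j) ^ (- n j)` (no zero or pole there: `k j ∉ closure (O i)`).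
The two definitions agree on `frontier (O i)`, so `G` is a continuous nowhere zero function on `ℂ`
(finitely many closed pieces).  Hence `G = exp` of a continuous function (`allLogs_univ`) and `HasWind G 0 R 0`.
For `R` large the circle `sphere 0 R` lies in `X` and `G z / (c * z ^ (N - ∑ n i)) → 1`
(`(z - k)/z → 1`), so by `hasWind_of_ratio` `HasWind G 0 R (N - ∑ n i)`; by uniqueness `N = ∑ n i`.
-/

namespace DS
open Metric Set Filter Topology

theorem IB_tietze {S : Set ℂ} (hS : IsClosed S) {L : ℂ → ℂ} (hL : ContinuousOn L S) :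
    ∃ L' : ℂ → ℂ, Continuous L' ∧ ∀ z ∈ S, L' z = L z := by
  obtain ⟨g, hg⟩ := ContinuousMap.exists_restrict_eq hS
    (⟨fun x : S => L x, hL.comp_continuous continuous_subtype_val fun x => x.2⟩ : C(S, ℂ))
  refine ⟨g, g.continuous, fun z hz => ?_⟩
  exact congrArg (fun h : C(S, ℂ) => h ⟨z, hz⟩) hg

theorem IB_ne_cobounded : ∀ᶠ z : ℂ in Bornology.cobounded ℂ, z ≠ 0 := by
  rw [← comap_norm_atTop, eventually_comap, eventually_atTop]
  refine ⟨1, fun b hb z hz h0 => ?_⟩
  rw [h0, norm_zero] at hz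
  linarith

theorem IB_frontier {m : ℕ} {O : Fin m → Set ℂ}
    (hd : ∀ i j, i ≠ j → Disjoint (closure (O i)) (closure (O j))) {i : Fin m} {z : ℂ}
    (hz : z ∈ closure (O i)) (hz' : z ∉ O i) : z ∈ (⋃ i, O i)ᶜ := by
  intro h
  rw [mem_iUnion] at h
  obtain ⟨j, hj⟩ := h
  by_cases hij : i = j
  · subst hij
    exact hz' hj
  · exact Set.disjoint_left.mp (hd i j hij) hz (subset_closure hj)

theorem IB_tendsto_factor (k : ℂ) (n : ℤ) :
    Tendsto (fun z : ℂ => (z - k) ^ (-n) * z ^ n) (cocompact ℂ) (𝓝 1) := by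
  rw [← Metric.cobounded_eq_cocompact]
  have h1 : Tendsto (fun z : ℂ => 1 - k * z⁻¹) (Bornology.cobounded ℂ) (𝓝 1) := by
    have := (tendsto_inv₀_cobounded (α := ℂ)).const_mul k
    have h2 := this.const_sub 1
    simpa using h2
  have h3 := h1.zpow₀ (-n) (Or.inl one_ne_zero)
  rw [one_zpow] at h3
  refine h3.congr' ?_
  have h0 : ∀ᶠ z : ℂ in Bornology.cobounded ℂ, z ≠ 0 := IB_ne_cobounded
  filter_upwards [h0] with z hz
  have e : (1 : ℂ) - k * z⁻¹ = (z - k) * z⁻¹ := by
    field_simp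
  rw [e, mul_zpow, inv_zpow, zpow_neg z, inv_inv]

theorem add_index {m : ℕ} (O : Fin m → Set ℂ) (k : Fin m → ℂ) (n : Fin m → ℤ)
    (hO : ∀ i, IsOpen (O i)) (hb : ∀ i, Bornology.IsBounded (O i)) (hk : ∀ i, k i ∈ O i)
    (hd : ∀ i j, i ≠ j → Disjoint (closure (O i)) (closure (O j))) (f : ℂ → ℂ)
    (hf : ContinuousOn f (⋃ i, O i)ᶜ) (hf0 : ∀ z ∈ (⋃ i, O i)ᶜ, f z ≠ 0)
    (hlog : ∀ i, HasLog (fun z => f z / (z - k i) ^ (n i)) (frontier (O i)))
    (N : ℤ) {c : ℂ} (hc : c ≠ 0) (hinf : Tendsto (fun z => f z / z ^ N) (cocompact ℂ) (𝓝 c)) :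
    N = ∑ i, n i := by
  classical
  choose Lf hLf hLf' using hlog
  choose L hLc hLe using fun i => IB_tietze (isClosed_frontier (s := O i)) (hLf i)
  have huniq : ∀ i j z, z ∈ O i → z ∈ O j → i = j := by
    intro i j z hi hj
    by_contra hij
    exact Set.disjoint_left.mp (hd i j hij) (subset_closure hi) (subset_closure hj)
  have hkj : ∀ i j, j ≠ i → ∀ z ∈ closure (O i), z - k j ≠ 0 := by
    intro i j hij z hz h0
    have : z = k j := sub_eq_zero.mp h0
    rw [this] at hz
    exact Set.disjoint_left.mp (hd i j (Ne.symm hij)) hz (subset_closure (hk j))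
  have hkX : ∀ j, ∀ z ∈ (⋃ i, O i)ᶜ, z - k j ≠ 0 := by
    intro j z hz h0
    have : z = k j := sub_eq_zero.mp h0
    rw [this] at hz
    exact hz (mem_iUnion.mpr ⟨j, hk j⟩)
  set E : Fin m → ℂ → ℂ := fun i z =>
    Complex.exp (L i z) * ∏ j ∈ Finset.univ.erase i, (z - k j) ^ (-n j) with hE
  set F : ℂ → ℂ := fun z => f z * ∏ j, (z - k j) ^ (-n j) with hF
  set G : ℂ → ℂ := fun z => if h : ∃ i, z ∈ O i then E h.choose z else F z with hG
  have hGO : ∀ i z, z ∈ O i → G z = E i z := by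
    intro i z hz
    have h : ∃ i, z ∈ O i := ⟨i, hz⟩
    have h2 : h.choose = i := huniq _ _ z h.choose_spec hz
    rw [hG]
    simp only
    rw [dif_pos h, h2]
  have hGX : ∀ z ∈ (⋃ i, O i)ᶜ, G z = F z := by
    intro z hz
    have h : ¬ ∃ i, z ∈ O i := fun ⟨i, hi⟩ => hz (mem_iUnion.mpr ⟨i, hi⟩)
    rw [hG]
    simp only
    rw [dif_neg h]
  have hGcl : ∀ i, ∀ z ∈ closure (O i), G z = E i z := by
    intro i z hz
    by_cases hzO : z ∈ O i
    · exact hGO i z hzO
    · have hzX := IB_frontier hd hz hzO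
      rw [hGX z hzX, hF, hE]
      simp only
      have hfr : z ∈ frontier (O i) := by
        rw [(hO i).frontier_eq]
        exact ⟨hz, hzO⟩
      rw [hLe i z hfr, ← hLf' i z hfr,
        ← Finset.mul_prod_erase Finset.univ (fun j => (z - k j) ^ (-n j)) (Finset.mem_univ i)]
      simp only
      rw [zpow_neg, ← mul_assoc, div_eq_mul_inv]
  have hEcont : ∀ i, ContinuousOn (E i) (closure (O i)) := by
    intro i
    refine ContinuousOn.mul (Complex.continuous_exp.comp (hLc i)).continuousOn ?_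
    refine continuousOn_finsetProd _ fun j hj => ?_
    refine ContinuousOn.zpow₀ (by fun_prop) _ fun z hz => Or.inl ?_
    exact hkj i j (Finset.ne_of_mem_erase hj) z hz
  have hFcont : ContinuousOn F (⋃ i, O i)ᶜ := by
    refine hf.mul ?_
    refine continuousOn_finsetProd _ fun j _ => ?_
    exact ContinuousOn.zpow₀ (by fun_prop) _ fun z hz => Or.inl (hkX j z hz)
  have hGcont : Continuous G := by
    refine LocallyFinite.continuous (f := fun o : Option (Fin m) =>
      Option.elim o (⋃ i, O i)ᶜ (fun i => closure (O i))) (locallyFinite_of_finite _) ?_ ?_ ?_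
    · rw [eq_univ_iff_forall]
      intro z
      rw [mem_iUnion]
      by_cases h : ∃ i, z ∈ O i
      · obtain ⟨i, hi⟩ := h
        exact ⟨some i, subset_closure hi⟩
      · refine ⟨none, fun hz => h ?_⟩
        exact mem_iUnion.mp hz
    · rintro (_ | i)
      · exact (isOpen_iUnion hO).isClosed_compl
      · exact isClosed_closure
    · rintro (_ | i)
      · exact hFcont.congr hGX
      · exact (hEcont i).congr (hGcl i)
  have hG0 : ∀ z ∈ (univ : Set ℂ), G z ≠ 0 := by
    intro z _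
    by_cases h : ∃ i, z ∈ O i
    · obtain ⟨i, hi⟩ := h
      rw [hGO i z hi]
      refine mul_ne_zero (Complex.exp_ne_zero _) (Finset.prod_ne_zero_iff.mpr fun j hj => ?_)
      exact zpow_ne_zero _ (hkj i j (Finset.ne_of_mem_erase hj) z (subset_closure hi))
    · have hzX : z ∈ (⋃ i, O i)ᶜ := fun hz => h (mem_iUnion.mp hz)
      rw [hGX z hzX]
      refine mul_ne_zero (hf0 z hzX) (Finset.prod_ne_zero_iff.mpr fun j _ => ?_)
      exact zpow_ne_zero _ (hkX j z hzX)
  have hlogG := allLogs_univ G hGcont.continuousOn hG0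
  -- behaviour at infinity
  set M : ℤ := N - ∑ i, n i with hM
  have hlim : Tendsto (fun z => F z / (c * z ^ M)) (cocompact ℂ) (𝓝 1) := by
    have h1 : Tendsto (fun z => (f z / z ^ N) * ∏ j, ((z - k j) ^ (-n j) * z ^ (n j)))
        (cocompact ℂ) (𝓝 (c * ∏ _j : Fin m, (1 : ℂ))) :=
      hinf.mul (tendsto_finsetProd _ fun j _ => IB_tendsto_factor (k j) (n j))
    have h2 := h1.const_mul c⁻¹
    rw [Finset.prod_const_one, mul_one, inv_mul_cancel₀ hc] at h2
    refine h2.congr' ?_
    have h0 : ∀ᶠ z : ℂ in cocompact ℂ, z ≠ 0 := by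
      rw [← Metric.cobounded_eq_cocompact]
      exact IB_ne_cobounded
    filter_upwards [h0] with z hz
    rw [Finset.prod_mul_distrib, hM, zpow_sub₀ hz, hF]
    have e : ∏ j, z ^ (n j) = z ^ (∑ i, n i) := by
      clear * - hz
      induction (Finset.univ : Finset (Fin m)) using Finset.induction_on with
      | empty => simp
      | insert a s ha ih => rw [Finset.prod_insert ha, Finset.sum_insert ha, zpow_add₀ hz, ih]
    rw [e]
    have hzN : z ^ N ≠ 0 := zpow_ne_zero _ hz
    have hzS : z ^ (∑ i, n i) ≠ 0 := zpow_ne_zero _ hz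
    field_simp
  have hev1 : ∀ᶠ z : ℂ in cocompact ℂ, ‖F z / (c * z ^ M) - 1‖ < 1 := by
    have := hlim.sub_const 1
    rw [sub_self] at this
    have h3 := this.norm
    rw [norm_zero] at h3
    exact h3.eventually (gt_mem_nhds one_pos)
  have hev2 : ∀ᶠ z : ℂ in cocompact ℂ, z ∈ (⋃ i, O i)ᶜ := by
    have hbU : Bornology.IsBounded (⋃ i, O i) := Bornology.isBounded_iUnion.mpr hb
    rw [← Metric.cobounded_eq_cocompact]
    exact hbU
  have hev := hev1.and hev2
  rw [← Metric.cobounded_eq_cocompact, ← comap_norm_atTop, eventually_comap,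
    eventually_atTop] at hev
  obtain ⟨R0, hR0⟩ := hev
  set R : ℝ := max R0 1 with hR
  have hRpos : 0 < R := lt_of_lt_of_le one_pos (le_max_right _ _)
  have hRz : ∀ z ∈ sphere (0 : ℂ) R, ‖F z / (c * z ^ M) - 1‖ < 1 ∧ z ∈ (⋃ i, O i)ᶜ := by
    intro z hz
    refine hR0 R (le_max_left _ _) z ?_
    simpa using hz
  have hz0 : ∀ z ∈ sphere (0 : ℂ) R, z ≠ 0 := by
    intro z hz h0
    rw [h0] at hz
    simp at hz
    exact hRpos.ne hz
  have hw1 : HasWind G 0 R 0 := hasWind_of_hasLog (subset_univ _) hlogG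
  have hw2 : HasWind G 0 R M := by
    refine hasWind_of_ratio (g := fun z => c * z ^ M) hGcont.continuousOn ?_ ?_ ?_ ?_
    · refine continuousOn_const.mul (continuousOn_id.zpow₀ _ fun z hz => Or.inl (hz0 z hz))
    · intro z hz
      exact mul_ne_zero hc (zpow_ne_zero _ (hz0 z hz))
    · intro z hz
      obtain ⟨h1, h2⟩ := hRz z hz
      rw [hGX z h2]
      have := Complex.mem_slitPlane_of_norm_lt_one h1
      simpa using this
    · refine ⟨fun _ => Complex.log c, continuousOn_const, fun z _ => ?_⟩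
      rw [sub_zero, Complex.exp_log hc, mul_comm]
  have := hasWind_unique hRpos hw1 hw2
  omega

end DS
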