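import Pool.Agent.H36.DS.IB

/-!
IF (exactly two holes).  Here `g` is a homeomorphism of the sphere in a planar chart: continuous off the point `a`
(the preimage of infinity), `g z → ∞` for `z → a`, `g z → b` for `z → ∞`.
Proof.  Choose a small disc `D = ball a s` whose closure misses all `closure (O i)`, on which (off `a`)
`‖g z‖` is large.  On its frontier `f z = g z - k i₀` is continuous and nowhere zero, so
`HasWind f a s n` for some `n` (`hasWind_exists`), i.e. `f z / (z - a) ^ n` has a logarithm on `frontier D`.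
(1) `add_index` for `f z = g z - k i₀` with the holes `O i₀` (exponent `1`, `hlog2`) and `D` (exponent `n`), `N = 0`,
`c = b - k i₀`: `0 = 1 + n`, so `n = -1`.  (`f` has no zero outside `O i₀ ∪ D` by `hk`.)
(2) on `frontier D` (for `s` small) `(g z - z) / (g z - k i₀)` is close to `1`, so `g z - z` also has winding number `-1` there.
`add_index` for `f z = g z - z` with the holes `O i` (exponent `1`, `hlog1`) and `D` (exponent `-1`), `N = 1`, `c = -1`
(`(g z - z)/z → -1`): `1 = m - 1`.
-/

namespace DS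
open Metric Set Filter Topology

theorem two_holes {m : ℕ} (O : Fin m → Set ℂ) (k : Fin m → ℂ)
    (hO : ∀ i, IsOpen (O i)) (hb : ∀ i, Bornology.IsBounded (O i)) (hk : ∀ i, k i ∈ O i)
    (hd : ∀ i j, i ≠ j → Disjoint (closure (O i)) (closure (O j))) {g : ℂ → ℂ} {a b : ℂ}
    (ha : ∀ i, a ∉ closure (O i)) (hg : ContinuousOn g {a}ᶜ)
    (hfix : ∀ z, z ≠ a → g z = z → ∃ i, z ∈ O i) (hpole : Tendsto g (𝓝[≠] a) (cocompact ℂ))
    (hinf : Tendsto g (cocompact ℂ) (𝓝 b))
    (hlog1 : ∀ i, HasLog (fun z => (g z - z) / (z - k i)) (frontier (O i))) (i₀ : Fin m)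
    (hk₀ : ∀ z, z ≠ a → g z = k i₀ → z ∈ O i₀) (hbk : b ≠ k i₀)
    (hlog2 : HasLog (fun z => (g z - k i₀) / (z - k i₀)) (frontier (O i₀))) : m = 2 := by
  -- the radius
  set C : ℝ := 2 * ‖k i₀‖ + ‖a‖ + 1 with hC
  have hev : ∀ᶠ z in 𝓝 a, (z ≠ a → C < ‖g z‖) ∧ ∀ i, z ∉ closure (O i) := by
    refine Filter.Eventually.and ?_ ?_
    · have h1 : ∀ᶠ z in 𝓝[≠] a, C < ‖g z‖ :=
        hpole.eventually ((tendsto_norm_cocompact_atTop (E := ℂ)).eventually (eventually_gt_atTop C))
      rw [eventually_nhdsWithin_iff] at h1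
      exact h1
    · rw [eventually_all]
      exact fun i => isClosed_closure.isOpen_compl.mem_nhds (ha i)
  obtain ⟨ε, hε, hball⟩ := Metric.eventually_nhds_iff.1 hev
  set s : ℝ := min 1 (ε / 2) with hs
  have hs0 : 0 < s := lt_min one_pos (half_pos hε)
  have hs1 : s ≤ 1 := min_le_left _ _
  have hsε : s < ε := lt_of_le_of_lt (min_le_right _ _) (half_lt_self hε)
  have hcl : ∀ z, dist z a ≤ s → (z ≠ a → C < ‖g z‖) ∧ ∀ i, z ∉ closure (O i) := fun z hz =>
    hball (lt_of_le_of_lt hz hsε)
  have hfr : frontier (ball a s) = sphere a s := frontier_ball a hs0.ne'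
  have hclD : closure (ball a s) = closedBall a s := closure_ball a hs0.ne'
  have haD : a ∈ ball a s := mem_ball_self hs0
  have hsph : ∀ z ∈ sphere a s, z ≠ a ∧ C < ‖g z‖ ∧ ‖z‖ ≤ ‖a‖ + 1 := by
    intro z hz
    have h1 : dist z a = s := hz
    have h2 : z ≠ a := by
      rintro rfl
      rw [dist_self] at h1
      exact hs0.ne h1
    refine ⟨h2, (hcl z h1.le).1 h2, ?_⟩
    have h3 : ‖z‖ ≤ ‖a‖ + ‖z - a‖ := by
      calc ‖z‖ = ‖a + (z - a)‖ := by rw [add_sub_cancel]
        _ ≤ ‖a‖ + ‖z - a‖ := norm_add_le _ _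
    rw [← dist_eq_norm, h1] at h3
    linarith
  have hsph2 : ∀ z ∈ sphere a s, ‖k i₀ - z‖ < ‖g z - k i₀‖ := by
    intro z hz
    obtain ⟨-, h2, h3⟩ := hsph z hz
    have h4 : ‖k i₀ - z‖ ≤ ‖k i₀‖ + ‖z‖ := norm_sub_le _ _
    have h5 : ‖g z‖ ≤ ‖g z - k i₀‖ + ‖k i₀‖ := by
      calc ‖g z‖ = ‖(g z - k i₀) + k i₀‖ := by rw [sub_add_cancel]
        _ ≤ _ := norm_add_le _ _
    rw [hC] at h2
    linarith
  have hgs : ContinuousOn g (sphere a s) := hg.mono fun z hz => (hsph z hz).1
  have hne : ∀ z ∈ sphere a s, g z - k i₀ ≠ 0 := by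
    intro z hz h0
    have h1 := hsph2 z hz
    rw [h0, norm_zero] at h1
    exact absurd h1 (not_lt.2 (norm_nonneg _))
  have hlogD : ∀ (f : ℂ → ℂ) (n : ℤ), HasWind f a s n →
      HasLog (fun z => f z / (z - a) ^ n) (frontier (ball a s)) := by
    rintro f n ⟨L, hL, hLz⟩
    rw [hfr]
    refine ⟨L, hL, fun z hz => ?_⟩
    have h1 : z - a ≠ 0 := sub_ne_zero.2 (hsph z hz).1
    show f z / (z - a) ^ n = _
    rw [hLz z hz, mul_div_cancel_left₀ _ (zpow_ne_zero n h1)]
  obtain ⟨n, hn⟩ := hasWind_exists (f := fun z => g z - k i₀) hs0 (hgs.sub continuousOn_const) hne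
  -- step 1
  have hn1 : n = -1 := by
    have key := add_index (m := 2) (![O i₀, ball a s]) (![k i₀, a]) (![1, n]) ?_ ?_ ?_ ?_
      (fun z => g z - k i₀) ?_ ?_ ?_ 0 (sub_ne_zero.2 hbk) ?_
    · rw [Fin.sum_univ_two] at key
      simp only [Matrix.cons_val_zero, Matrix.cons_val_one] at key
      omega
    · intro i
      fin_cases i
      · exact hO i₀
      · exact isOpen_ball
    · intro i
      fin_cases i
      · exact hb i₀
      · exact isBounded_ball
    · intro i
      fin_cases i
      · exact hk i₀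
      · exact haD
    · have h01 : Disjoint (closure (O i₀)) (closure (ball a s)) := by
        rw [hclD, Set.disjoint_left]
        intro z hz hz'
        exact (hcl z hz').2 i₀ hz
      intro i j hij
      fin_cases i <;> fin_cases j
      · exact absurd rfl hij
      · exact h01
      · exact h01.symm
      · exact absurd rfl hij
    · refine (hg.mono ?_).sub continuousOn_const
      rintro z hz rfl
      exact hz (mem_iUnion.2 ⟨1, haD⟩)
    · intro z hz h0
      have hza : z ≠ a := by
        rintro rfl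
        exact hz (mem_iUnion.2 ⟨1, haD⟩)
      exact hz (mem_iUnion.2 ⟨0, hk₀ z hza (sub_eq_zero.1 h0)⟩)
    · intro i
      fin_cases i
      · show HasLog (fun z => (g z - k i₀) / (z - k i₀) ^ (1 : ℤ)) (frontier (O i₀))
        simpa only [zpow_one] using hlog2
      · exact hlogD _ n hn
    · simp only [zpow_zero, div_one]
      exact hinf.sub_const _
  -- step 2
  have hwind : HasWind (fun z => g z - z) a s (-1) := by
    refine hasWind_of_ratio (hgs.sub continuousOn_id) (hgs.sub continuousOn_const) hne ?_ (hn1 ▸ hn)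
    intro z hz
    have h1 : (g z - z) / (g z - k i₀) = 1 + (k i₀ - z) / (g z - k i₀) := by
      have := hne z hz
      field_simp
      ring
    show (g z - z) / (g z - k i₀) ∈ Complex.slitPlane
    rw [h1]
    refine Complex.mem_slitPlane_of_norm_lt_one ?_
    rw [norm_div, div_lt_one (norm_pos_iff.2 (hne z hz))]
    exact hsph2 z hz
  have hlim : Tendsto (fun z => (g z - z) / z ^ (1 : ℤ)) (cocompact ℂ) (𝓝 (-1)) := by
    have h1 : Tendsto (fun z : ℂ => z⁻¹) (cocompact ℂ) (𝓝 0) := by
      rw [← Metric.cobounded_eq_cocompact]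
      exact tendsto_inv₀_cobounded
    have h2 : Tendsto (fun z => g z * z⁻¹ - 1) (cocompact ℂ) (𝓝 (b * 0 - 1)) :=
      (hinf.mul h1).sub_const 1
    rw [mul_zero, zero_sub] at h2
    refine h2.congr' ?_
    have h3 : ∀ᶠ z : ℂ in cocompact ℂ, (0 : ℝ) < ‖z‖ :=
      (tendsto_norm_cocompact_atTop (E := ℂ)).eventually (eventually_gt_atTop 0)
    filter_upwards [h3] with z hz
    have hz0 : z ≠ 0 := norm_pos_iff.1 hz
    rw [zpow_one, sub_div, div_self hz0, div_eq_mul_inv]
  have key := add_index (m := m + 1) (Fin.cons (ball a s) O) (Fin.cons a k)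
    (Fin.cons (-1) (fun _ : Fin m => (1 : ℤ))) ?_ ?_ ?_ ?_
    (fun z => g z - z) ?_ ?_ ?_ 1 (neg_ne_zero.2 one_ne_zero) hlim
  · rw [Fin.sum_univ_succ] at key
    simp only [Fin.cons_zero, Fin.cons_succ, Finset.sum_const, Finset.card_univ, Fintype.card_fin,
      nsmul_eq_mul, mul_one] at key
    omega
  · intro i
    refine Fin.cases ?_ (fun i => ?_) i
    · exact isOpen_ball
    · exact hO i
  · intro i
    refine Fin.cases ?_ (fun i => ?_) i
    · exact isBounded_ball
    · exact hb i
  · intro i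
    refine Fin.cases ?_ (fun i => ?_) i
    · exact haD
    · exact hk i
  · have h01 : ∀ i, Disjoint (closure (O i)) (closure (ball a s)) := by
      intro i
      rw [hclD, Set.disjoint_left]
      intro z hz hz'
      exact (hcl z hz').2 i hz
    intro i j
    refine Fin.cases ?_ (fun i => ?_) i <;> refine Fin.cases ?_ (fun j => ?_) j
    · intro hij; exact absurd rfl hij
    · intro _; exact (h01 j).symm
    · intro _; exact h01 i
    · intro hij
      exact hd i j fun h => hij (congrArg Fin.succ h)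
  · refine (hg.mono ?_).sub continuousOn_id
    rintro z hz rfl
    exact hz (mem_iUnion.2 ⟨0, haD⟩)
  · intro z hz h0
    have hza : z ≠ a := by
      rintro rfl
      exact hz (mem_iUnion.2 ⟨0, haD⟩)
    obtain ⟨i, hi⟩ := hfix z hza (sub_eq_zero.1 h0)
    exact hz (mem_iUnion.2 ⟨i.succ, hi⟩)
  · intro i
    refine Fin.cases ?_ (fun i => ?_) i
    · exact hlogD _ (-1) hwind
    · show HasLog (fun z => (g z - z) / (z - k i) ^ (1 : ℤ)) (frontier (O i))
      simpa only [zpow_one] using hlog1 i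

end DS
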