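import Pool.Agent.H36.DS.PJ
import Pool.Agent.H36.DS.YBase

/-!
JB (boundary values along the stable axis).  Setting: `FixPE`, the horizontal axis near `0` is not in `W`, the box
`(0,δ] × (0,δ]` is in `W` and `u → ζ` at `0` in it.
`axis_values`: for `0 < x ≤ δ` `seg_limit` (`z₁ = ⟨x, δ⟩`, `zs = ⟨x, 0⟩ ≠ 0`; the segment is in `W ∩ closedBall 0 r₀`,
because `2 δ < r₀`) gives the limit `a x` of `u ⟨x, y⟩` for `y → 0+` (reparametrize), `‖a x‖ = 1`, `a x ≠ ζ`.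
`lim2` (the limit inside the box): for `0 < x < δ` and `ε > 0` take `δ₁` from `L0`; the box
`B = {z | |z.re - x| < η, 0 < z.im < η}` is connected, contained in `W`, of diameter `< δ₁` for `η` small; so `u '' B` has diameter
`≤ ε`, and `dist (u z) (a x) ≤ ε` for `z ∈ B` (for every point of `B` on the vertical line through `x` and then all).
Continuity of `a` on `(0, δ)`: `a x'` is a limit of points of `u '' B` for `x'` near `x`.  For the right end point shrink: take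
`δ' = δ / 2`.  `a x → ζ` for `x → 0`: `hlim`.
`equi`: let `w = ⟨x, y⟩`, `y → 0+`: `hb (u w) = u (G (φ (u w))) = u (G w)` (`u w` in the disc).  The left side tends to `hb (a x)`
(continuity on the closed disc).  `G w → G ⟨x, 0⟩ = ⟨x', 0⟩` with `0 < x' ≤ lp x < δ` (`im0`, `repos`) and `G w` has positive real and imaginary
parts (`repos`, `impos`), so by `lim2` `u (G w) → a x'`.
-/

namespace DS
open Metric Set Filter Topology MeasureTheory

private theorem JB_norm_le (x y : ℝ) : ‖(⟨x, y⟩ : ℂ)‖ ≤ |x| + |y| := by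
  have := Complex.norm_le_abs_re_add_abs_im (⟨x, y⟩ : ℂ)
  exact this

private theorem JB_dist_le (z w : ℂ) : dist z w ≤ |z.re - w.re| + |z.im - w.im| := by
  rw [Complex.dist_eq]
  have := Complex.norm_le_abs_re_add_abs_im (z - w)
  rwa [Complex.sub_re, Complex.sub_im] at this

private theorem JB_convex_box (x η : ℝ) :
    Convex ℝ {z : ℂ | |z.re - x| < η ∧ 0 < z.im ∧ z.im < η} := by
  intro z hz w hw p q hp hq hpq
  obtain ⟨h1, h2, h3⟩ := hz
  obtain ⟨h4, h5, h6⟩ := hw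
  rw [abs_lt] at h1 h4
  have hre : (p • z + q • w).re = p * z.re + q * w.re := by simp
  have him : (p • z + q • w).im = p * z.im + q * w.im := by simp
  refine ⟨?_, ?_, ?_⟩
  · rw [hre, abs_lt]
    have hx : p * z.re + q * w.re - x = p * (z.re - x) + q * (w.re - x) := by
      have : x = (p + q) * x := by rw [hpq, one_mul]
      linear_combination (-1) * this
    rw [hx]
    rcases hp.eq_or_lt with rfl | hp'
    · have : q = 1 := by linarith
      subst this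
      constructor <;> linarith [h4.1, h4.2]
    · constructor
      · nlinarith [mul_lt_mul_of_pos_left h1.1 hp', mul_le_mul_of_nonneg_left h4.1.le hq]
      · nlinarith [mul_lt_mul_of_pos_left h1.2 hp', mul_le_mul_of_nonneg_left h4.2.le hq]
  · rw [him]
    rcases hp.eq_or_lt with rfl | hp'
    · have : q = 1 := by linarith
      subst this
      linarith
    · have := mul_pos hp' h2
      have := mul_nonneg hq h5.le
      linarith
  · rw [him]
    rcases hp.eq_or_lt with rfl | hp'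
    · have : q = 1 := by linarith
      subst this
      linarith
    · nlinarith [mul_lt_mul_of_pos_left h3 hp', mul_le_mul_of_nonneg_left h6.le hq]

theorem axis_values {W : Set ℂ} {φ u G Gi : ℂ → ℂ} {μ : Measure ℂ} {ζ : ℂ} {r₀ : ℝ}
    (H : FixPE W φ u G Gi μ ζ r₀) {r lp km kp : ℝ} (HL : HypLoc G r lp km kp)
    (hax : ∀ x : ℝ, |x| ≤ r → (⟨x, 0⟩ : ℂ) ∉ W) {δ : ℝ} (hδ : 0 < δ) (hδr : δ < r)
    (hδr₀ : 4 * δ < r₀)
    (hsub : ∀ x y : ℝ, 0 < x → x ≤ δ → 0 < y → y ≤ δ → (⟨x, y⟩ : ℂ) ∈ W)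
    (hlim : ∀ ε > 0, ∃ η > 0, ∀ x y : ℝ, 0 < x → x < η → 0 < y → y < η → dist (u ⟨x, y⟩) ζ < ε)
    {hb : ℂ → ℂ} (hbc : ContinuousOn hb (closedBall 0 1))
    (hbe : ∀ z ∈ ball (0:ℂ) 1, hb z = u (G (φ z))) :
    ∃ δ' > 0, δ' ≤ δ ∧ ∃ a : ℝ → ℂ, ContinuousOn a (Ioc 0 δ') ∧
      (∀ x ∈ Ioc (0:ℝ) δ', ‖a x‖ = 1 ∧ a x ≠ ζ) ∧ Tendsto a (𝓝[>] 0) (𝓝 ζ) ∧
      (∀ x ∈ Ioc (0:ℝ) δ', Tendsto (fun y : ℝ => u ⟨x, y⟩) (𝓝[>] 0) (𝓝 (a x))) ∧
      (∀ x ∈ Ioc (0:ℝ) δ', hb (a x) = a (G ⟨x, 0⟩).re) ∧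
      ∀ x ∈ Ioc (0:ℝ) δ', 0 < (G ⟨x, 0⟩).re ∧ (G ⟨x, 0⟩).re ≤ lp * x := by
  have hlp := HL.hlp
  have hlp1 := HL.hlp1
  -- the values
  have hval : ∀ x : ℝ, 0 < x → x ≤ δ → ∃ e : ℂ, ‖e‖ = 1 ∧ e ≠ ζ ∧
      Tendsto (fun y : ℝ => u ⟨x, y⟩) (𝓝[>] 0) (𝓝 e) := by
    intro x hx hxδ
    have hzs : (⟨x, 0⟩ : ℂ) ∉ W := hax x (by rw [abs_of_pos hx]; linarith)
    have hzs0 : (⟨x, 0⟩ : ℂ) ≠ 0 := fun h => hx.ne' (by simpa using congrArg Complex.re h)
    have hpt : ∀ t : ℝ, (1 - (t : ℂ)) * (⟨x, δ⟩ : ℂ) + (t : ℂ) * (⟨x, 0⟩ : ℂ) =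
        ⟨x, (1 - t) * δ⟩ := by
      intro t
      apply Complex.ext
      · simp
        ring
      · simp
    have hseg : ∀ t ∈ Ico (0:ℝ) 1, (1 - (t : ℂ)) * (⟨x, δ⟩ : ℂ) + (t : ℂ) * (⟨x, 0⟩ : ℂ) ∈
        W ∩ closedBall 0 r₀ := by
      intro t ht
      rw [hpt]
      have h1 : 0 < (1 - t) * δ := mul_pos (by linarith [ht.2]) hδ
      have h2 : (1 - t) * δ ≤ δ := by nlinarith [ht.1]
      refine ⟨hsub x _ hx hxδ h1 h2, ?_⟩
      rw [mem_closedBall_zero_iff]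
      refine (JB_norm_le _ _).trans ?_
      rw [abs_of_pos hx, abs_of_pos h1]
      linarith
    obtain ⟨e, he1, he2, he3⟩ := seg_limit H hzs hzs0 hseg
    refine ⟨e, he1, he2, ?_⟩
    have hrep : Tendsto (fun y : ℝ => 1 - y / δ) (𝓝[>] 0) (𝓝[<] 1) := by
      apply tendsto_nhdsWithin_of_tendsto_nhds_of_eventually_within
      · have : Tendsto (fun y : ℝ => 1 - y / δ) (𝓝 0) (𝓝 (1 - 0 / δ)) :=
          (continuous_const.sub (continuous_id.div_const δ)).tendsto 0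
        rw [zero_div, sub_zero] at this
        exact this.mono_left nhdsWithin_le_nhds
      · filter_upwards [self_mem_nhdsWithin] with y hy
        have : 0 < y / δ := div_pos hy hδ
        simp only [mem_Iio]
        linarith
    have := he3.comp hrep
    refine this.congr ?_
    intro y
    simp only [Function.comp_apply]
    rw [hpt]
    congr 2
    field_simp
    ring
  choose! a ha1 ha2 ha3 using hval
  -- the limit inside the box
  have lim2 : ∀ x : ℝ, 0 < x → x < δ → ∀ ε > 0, ∃ η > 0, η ≤ x ∧ η ≤ δ - x ∧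
      ∀ x' y' : ℝ, |x' - x| < η → 0 < y' → y' < η → dist (u ⟨x', y'⟩) (a x) ≤ ε := by
    intro x hx hxδ ε hε
    obtain ⟨δ₁, hδ₁, hL⟩ := H.L0 ε hε
    have hη : 0 < min (min x (δ - x)) (δ₁ / 4) :=
      lt_min (lt_min hx (by linarith)) (by linarith)
    have hη1 : min (min x (δ - x)) (δ₁ / 4) ≤ x := (min_le_left _ _).trans (min_le_left _ _)
    have hη2 : min (min x (δ - x)) (δ₁ / 4) ≤ δ - x := (min_le_left _ _).trans (min_le_right _ _)
    have hη3 : min (min x (δ - x)) (δ₁ / 4) ≤ δ₁ / 4 := min_le_right _ _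
    generalize min (min x (δ - x)) (δ₁ / 4) = η at hη hη1 hη2 hη3
    refine ⟨η, hη, hη1, hη2, ?_⟩
    have hB : {z : ℂ | |z.re - x| < η ∧ 0 < z.im ∧ z.im < η} ⊆ W ∩ closedBall 0 r₀ := by
      rintro z ⟨h1, h2, h3⟩
      rw [abs_lt] at h1
      have h4 : 0 < z.re := by linarith [h1.1]
      have h5 : z.re ≤ δ := by linarith [h1.2]
      have h6 : z.im ≤ δ := by linarith
      refine ⟨hsub z.re z.im h4 h5 h2 h6, ?_⟩
      rw [mem_closedBall_zero_iff]
      refine (JB_norm_le z.re z.im).trans ?_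
      rw [abs_of_pos h4, abs_of_pos h2]
      linarith
    have hd := hL _ hB (JB_convex_box x η).isPreconnected (by
      rintro z ⟨h1, h2, h3⟩ w ⟨h4, h5, h6⟩
      refine lt_of_le_of_lt (JB_dist_le z w) ?_
      have e1 : |z.re - w.re| < 2 * η := by
        rw [abs_lt] at h1 h4 ⊢
        constructor <;> linarith [h1.1, h1.2, h4.1, h4.2]
      have e2 : |z.im - w.im| < η := by
        rw [abs_lt]
        constructor <;> linarith
      linarith)
    intro x' y' h1 h2 h3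
    have hin : (⟨x', y'⟩ : ℂ) ∈ {z : ℂ | |z.re - x| < η ∧ 0 < z.im ∧ z.im < η} := ⟨h1, h2, h3⟩
    have ht : Tendsto (fun y : ℝ => dist (u ⟨x', y'⟩) (u ⟨x, y⟩)) (𝓝[>] 0)
        (𝓝 (dist (u ⟨x', y'⟩) (a x))) := tendsto_const_nhds.dist (ha3 x hx hxδ.le)
    refine le_of_tendsto ht ?_
    filter_upwards [Ioo_mem_nhdsGT hη] with y hy
    exact (hd _ hin ⟨x, y⟩ ⟨by simpa using hη, hy.1, hy.2⟩).le
  have lim3 : ∀ x : ℝ, 0 < x → x < δ → ∀ ε > 0, ∃ η > 0,
      ∀ x' : ℝ, |x' - x| < η → dist (a x') (a x) ≤ ε := by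
    intro x hx hxδ ε hε
    obtain ⟨η, hη, hη1, hη2, h⟩ := lim2 x hx hxδ ε hε
    refine ⟨η, hη, fun x' hx' => ?_⟩
    have hx'' := abs_lt.1 hx'
    have ht : Tendsto (fun y : ℝ => dist (u ⟨x', y⟩) (a x)) (𝓝[>] 0)
        (𝓝 (dist (a x') (a x))) :=
      (ha3 x' (by linarith [hx''.1]) (by linarith [hx''.2])).dist tendsto_const_nhds
    refine le_of_tendsto ht ?_
    filter_upwards [Ioo_mem_nhdsGT hη] with y hy
    exact h x' y hx' hy.1 hy.2
  have hG0 : ∀ x : ℝ, 0 < x → x ≤ δ → 0 < (G ⟨x, 0⟩).re ∧ (G ⟨x, 0⟩).re ≤ lp * x ∧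
      (G ⟨x, 0⟩).im = 0 := by
    intro x hx hxδ
    have hS : (⟨x, 0⟩ : ℂ) ∈ Sq r := by
      refine ⟨?_, ?_, ?_, ?_⟩ <;> simp only <;> linarith
    have h1 := HL.repos _ hS hx
    exact ⟨h1.1, h1.2, HL.im0 _ hS rfl⟩
  refine ⟨δ / 2, by linarith, by linarith, a, ?_, ?_, ?_, ?_, ?_, ?_⟩
  · rw [Metric.continuousOn_iff]
    intro x hx ε hε
    obtain ⟨η, hη, h⟩ := lim3 x hx.1 (by linarith [hx.2]) (ε / 2) (by linarith)
    refine ⟨η, hη, fun x' _ hx'' => ?_⟩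
    rw [Real.dist_eq] at hx''
    have := h x' hx''
    linarith
  · intro x hx
    exact ⟨ha1 x hx.1 (by linarith [hx.2]), ha2 x hx.1 (by linarith [hx.2])⟩
  · rw [Metric.tendsto_nhds]
    intro ε hε
    obtain ⟨η, hη, h⟩ := hlim (ε / 2) (by linarith)
    filter_upwards [Ioo_mem_nhdsGT (lt_min hη hδ)] with x hx
    have hxη : x < η := lt_of_lt_of_le hx.2 (min_le_left _ _)
    have hxδ : x < δ := lt_of_lt_of_le hx.2 (min_le_right _ _)
    have ht : Tendsto (fun y : ℝ => dist (u ⟨x, y⟩) ζ) (𝓝[>] 0) (𝓝 (dist (a x) ζ)) :=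
      (ha3 x hx.1 hxδ.le).dist tendsto_const_nhds
    have : dist (a x) ζ ≤ ε / 2 := by
      refine le_of_tendsto ht ?_
      filter_upwards [Ioo_mem_nhdsGT hη] with y hy
      exact (h x y hx.1 hxη hy.1 hy.2).le
    linarith
  · intro x hx
    exact ha3 x hx.1 (by linarith [hx.2])
  · intro x hx
    have hxδ : x ≤ δ := by linarith [hx.2]
    obtain ⟨h1, h2, h3⟩ := hG0 x hx.1 hxδ
    have hx'δ : (G ⟨x, 0⟩).re < δ := by nlinarith [hx.1]
    have hinS : ∀ y : ℝ, 0 ≤ y → y ≤ δ → (⟨x, y⟩ : ℂ) ∈ Sq r := by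
      intro y hy hyδ
      have := hx.1
      refine ⟨?_, ?_, ?_, ?_⟩ <;> simp only <;> linarith
    -- left side
    have hu : Tendsto (fun y : ℝ => u ⟨x, y⟩) (𝓝[>] 0) (𝓝[closedBall 0 1] (a x)) := by
      apply tendsto_nhdsWithin_of_tendsto_nhds_of_eventually_within _ (ha3 x hx.1 hxδ)
      filter_upwards [Ioo_mem_nhdsGT hδ] with y hy
      exact ball_subset_closedBall (H.u_maps (hsub x y hx.1 hxδ hy.1 hy.2.le))
    have hl : Tendsto (fun y : ℝ => hb (u ⟨x, y⟩)) (𝓝[>] 0) (𝓝 (hb (a x))) :=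
      (hbc (a x) (by rw [mem_closedBall_zero_iff, ha1 x hx.1 hxδ])).tendsto.comp hu
    -- right side
    have hpt : Tendsto (fun y : ℝ => (⟨x, y⟩ : ℂ)) (𝓝[>] 0) (𝓝[Sq r] ⟨x, 0⟩) := by
      apply tendsto_nhdsWithin_of_tendsto_nhds_of_eventually_within
      · have hc : Continuous (fun y : ℝ => (⟨x, y⟩ : ℂ)) := by
          have : (fun y : ℝ => (⟨x, y⟩ : ℂ)) = fun y : ℝ => (x : ℂ) + y * Complex.I := by
            funext y
            apply Complex.ext <;> simp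
          rw [this]
          fun_prop
        exact (hc.tendsto 0).mono_left nhdsWithin_le_nhds
      · filter_upwards [Ioo_mem_nhdsGT hδ] with y hy
        exact hinS y hy.1.le hy.2.le
    have hGt : Tendsto (fun y : ℝ => G ⟨x, y⟩) (𝓝[>] 0) (𝓝 (G ⟨x, 0⟩)) :=
      (HL.cont _ (hinS 0 le_rfl hδ.le)).tendsto.comp hpt
    have hr : Tendsto (fun y : ℝ => u (G ⟨x, y⟩)) (𝓝[>] 0) (𝓝 (a (G ⟨x, 0⟩).re)) := by
      rw [Metric.tendsto_nhds]
      intro ε hε
      obtain ⟨η, hη, -, -, h⟩ := lim2 _ h1 hx'δ (ε / 2) (by linarith)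
      have hclose := Metric.tendsto_nhds.1 hGt η hη
      filter_upwards [hclose, Ioo_mem_nhdsGT hδ] with y hy hyδ
      have e1 : |(G ⟨x, y⟩).re - (G ⟨x, 0⟩).re| < η := by
        refine lt_of_le_of_lt ?_ hy
        rw [Complex.dist_eq, ← Complex.sub_re]
        exact Complex.abs_re_le_norm _
      have e2 : (G ⟨x, y⟩).im < η := by
        refine lt_of_le_of_lt ?_ hy
        rw [Complex.dist_eq]
        have := Complex.abs_im_le_norm (G ⟨x, y⟩ - G ⟨x, 0⟩)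
        rw [Complex.sub_im, h3, sub_zero] at this
        exact (le_abs_self _).trans this
      have e3 : 0 < (G ⟨x, y⟩).im := by
        have := (HL.impos ⟨x, y⟩ (hinS y hyδ.1.le hyδ.2.le) hyδ.1).1
        have h5 : 0 < km * y := mul_pos (by linarith [HL.hkm]) hyδ.1
        exact lt_of_lt_of_le h5 this
      have := h (G ⟨x, y⟩).re (G ⟨x, y⟩).im e1 e3 e2
      have h6 : dist (u (G ⟨x, y⟩)) (a (G ⟨x, 0⟩).re) ≤ ε / 2 := this
      linarith
    refine tendsto_nhds_unique hl (hr.congr' ?_)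
    filter_upwards [Ioo_mem_nhdsGT hδ] with y hy
    have hW := hsub x y hx.1 hxδ hy.1 hy.2.le
    rw [hbe _ (H.u_maps hW), H.φu _ hW]
  · intro x hx
    obtain ⟨h1, h2, -⟩ := hG0 x hx.1 (by linarith [hx.2])
    exact ⟨h1, h2⟩

end DS
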