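import Mathlib

/-!
JC (dynamics of circle homeomorphisms with a fixed point; the circle is `sphere (0:ℂ) 1`).
Common setting: `k₀`, `k₀i` are mutually inverse homeomorphisms of the circle, `k₀ ζ = ζ`, and `k = k₀ ∘ k₀`, `ki = k₀i ∘ k₀i`.
Parametrize `sphere 0 1 \ {ζ}` by `ℝ` (homeomorphism `e`, e.g. `t ↦ ζ * exp (i (π + 2 arctan t))`; `|t| → ∞` corresponds to the
points tending to `ζ`).  The conjugate of `k₀` is a homeomorphism of `ℝ`, hence strictly monotone or antitone, and the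
conjugate `κ` of `k` is a strictly increasing homeomorphism.  Connected subsets of `sphere 0 1 \ {ζ}` correspond to
order connected sets.
CD1: `J` corresponds to a nonempty interval `I` with `κ '' I = I`, and `|κ^[n] x| → ∞` for `x ∈ I`.  If `κ y = y` for some `y ∈ I`,
contradiction.  So `κ y > y` on all of `I` (or `<`; symmetric) by the intermediate value theorem; then `κ^[n] y` is increasing
and tends to `+∞`, so `I` is not bounded above; the sequence `κ⁻ⁿ y` is decreasing; if it is bounded below it tends to a fixed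
point `α` of `κ`; `α ∉ I`, `α` is a lower bound of `I` (fixed points below an orbit are below the whole of `I`: if `y' ∈ I`,
`y' ≤ α`, then `α ∈ I` as `I` is order connected), so `I = (α, ∞)`; all backward orbits in `I` tend to `α` (they are
decreasing, bounded below by `α`, and the limit is a fixed point in `[α, y)`, not in `I`).  `e' =` the point of `α`.  If it is
not bounded below then `I = ℝ`, all backward orbits tend to `-∞`, and `e' = ζ`.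
CD2a: `J` corresponds to `I` with `|κ⁻ⁿ x| → ∞` on `I`, so `I` is a half line (or `ℝ`): by the symmetry `t ↦ -t` we may assume
`κ y > y` on `I` (so `κ⁻ⁿ y → -∞`, `(-∞, y] ⊆ I`).  `J₁` corresponds to `I₁` with `|κ^n x| → ∞` on `I₁`; if `κ y < y` on `I₁` then
`I₁` contains a half line `(-∞, y]`, which meets `I`, contradiction with `κ y > y` on `I`; so `κ y > y` on `I₁` and `[y, ∞) ⊆ I₁`
for some `y`.  If `κ⁻ⁿ b → ±∞` in absolute value: for large `n` `κ⁻ⁿ b` is in `I` or in `I₁`; the backward orbit is monotone, and if it tends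
to `+∞` then eventually in `I₁` it would have to decrease, contradiction; so it tends to `-∞`, is eventually in `I`, and
`b ∈ I` by invariance.
CD2b: as in CD2a both `I₁` and `I₂` contain half lines `[y, ∞)`, so they meet.
-/

namespace DS
open Metric Set Filter Topology Function

/-- mutually inverse homeomorphisms of the unit circle -/
structure CircHomeo (k ki : ℂ → ℂ) : Prop where
  kc : ContinuousOn k (sphere 0 1)
  kic : ContinuousOn ki (sphere 0 1)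
  km : MapsTo k (sphere 0 1) (sphere 0 1)
  kim : MapsTo ki (sphere 0 1) (sphere 0 1)
  kki : ∀ z ∈ sphere (0:ℂ) 1, k (ki z) = z
  kik : ∀ z ∈ sphere (0:ℂ) 1, ki (k z) = z

/-! ### Real dynamics -/

/-- mutually inverse increasing homeomorphisms of the line -/
structure JC_RD (κ l : ℝ → ℝ) : Prop where
  kc : Continuous κ
  lc : Continuous l
  km : StrictMono κ
  lm : StrictMono l
  kl : ∀ t, κ (l t) = t
  lk : ∀ t, l (κ t) = t

/-- an invariant interval -/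
structure JC_Inv (κ l : ℝ → ℝ) (I : Set ℝ) : Prop where
  oc : OrdConnected I
  hk : ∀ y ∈ I, κ y ∈ I
  hl : ∀ y ∈ I, l y ∈ I

private theorem JC_iter_mem {f : ℝ → ℝ} {I : Set ℝ} (h : ∀ y ∈ I, f y ∈ I) (n : ℕ) :
    ∀ y ∈ I, f^[n] y ∈ I := by
  induction n with
  | zero => intro y hy; exact hy
  | succ n ih =>
    intro y hy
    rw [iterate_succ_apply']
    exact h _ (ih y hy)

private theorem JC_dir {κ l : ℝ → ℝ} {I : Set ℝ} (R : JC_RD κ l) (hI : JC_Inv κ l I)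
    (hf : ∀ y ∈ I, κ y ≠ y) : (∀ y ∈ I, y < κ y) ∨ (∀ y ∈ I, κ y < y) := by
  by_contra hcon
  push Not at hcon
  obtain ⟨⟨y1, hy1, h1⟩, y2, hy2, h2⟩ := hcon
  obtain ⟨x, hx, hxe⟩ := hI.oc.isPreconnected.intermediate_value₂ hy1 hy2 R.kc.continuousOn
    continuousOn_id h1 h2
  exact hf x hx hxe

private theorem JC_top {x : ℕ → ℝ} (hm : Monotone x)
    (h : Tendsto (fun n => |x n|) atTop atTop) : Tendsto x atTop atTop := by
  refine tendsto_atTop_atTop_of_monotone hm fun b => ?_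
  obtain ⟨n, hn⟩ := (h.eventually (eventually_ge_atTop (max b (|x 0| + 1)))).exists
  refine ⟨n, ?_⟩
  have h0 : x 0 ≤ x n := hm (Nat.zero_le n)
  have h1 := neg_abs_le (x 0)
  rcases le_or_gt 0 (x n) with h2 | h2
  · rw [abs_of_nonneg h2] at hn
    exact (le_max_left _ _).trans hn
  · rw [abs_of_neg h2] at hn
    have h3 := (le_max_right b (|x 0| + 1)).trans hn
    linarith

private theorem JC_bot {x : ℕ → ℝ} (hm : Antitone x)
    (h : Tendsto (fun n => |x n|) atTop atTop) : Tendsto x atTop atBot := by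
  have h1 : Tendsto (fun n => -x n) atTop atTop := by
    refine JC_top (fun a b hab => neg_le_neg (hm hab)) ?_
    simpa only [abs_neg] using h
  have h2 := tendsto_neg_atTop_atBot.comp h1
  exact h2.congr fun n => neg_neg _

private theorem JC_const {c : ℝ} (h : Tendsto (fun _ : ℕ => |c|) atTop atTop) : False := by
  obtain ⟨n, hn⟩ := (h.eventually (eventually_gt_atTop |c|)).exists
  exact lt_irrefl _ hn

private theorem JC_refl_iter (f : ℝ → ℝ) (n : ℕ) :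
    ∀ t, (fun t => -f (-t))^[n] t = -(f^[n] (-t)) := by
  induction n with
  | zero => intro t; simp
  | succ n ih =>
    intro t
    rw [iterate_succ_apply, ih, iterate_succ_apply, neg_neg]

private theorem JC_RD.refl {κ l : ℝ → ℝ} (R : JC_RD κ l) :
    JC_RD (fun t => -κ (-t)) (fun t => -l (-t)) where
  kc := (R.kc.comp continuous_neg).neg
  lc := (R.lc.comp continuous_neg).neg
  km := fun a b hab => neg_lt_neg (R.km (neg_lt_neg hab))
  lm := fun a b hab => neg_lt_neg (R.lm (neg_lt_neg hab))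
  kl := fun t => by simp [R.kl]
  lk := fun t => by simp [R.lk]

private theorem JC_Inv.refl {κ l : ℝ → ℝ} {I : Set ℝ} (hI : JC_Inv κ l I) :
    JC_Inv (fun t => -κ (-t)) (fun t => -l (-t)) {t | -t ∈ I} where
  oc := by
    constructor
    intro a ha b hb c hc
    exact hI.oc.out hb ha ⟨neg_le_neg hc.2, neg_le_neg hc.1⟩
  hk := fun y hy => by
    change -(-κ (-y)) ∈ I
    rw [neg_neg]; exact hI.hk _ hy
  hl := fun y hy => by
    change -(-l (-y)) ∈ I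
    rw [neg_neg]; exact hI.hl _ hy

private theorem JC_l_lt {κ l : ℝ → ℝ} (R : JC_RD κ l) {y : ℝ} (h : l y < κ (l y)) : l y < y := by
  rwa [R.kl] at h

private theorem JC_fix_iter {f : ℝ → ℝ} {a : ℝ} (h : f a = a) (n : ℕ) : f^[n] a = a :=
  iterate_fixed h n

/-- CD1, increasing -/
private theorem JC_r1 {κ l : ℝ → ℝ} {I : Set ℝ} (R : JC_RD κ l) (hI : JC_Inv κ l I)
    (hup : ∀ y ∈ I, y < κ y) :
    (∃ α, κ α = α ∧ α ∉ I ∧ ∀ y ∈ I, Tendsto (fun n => l^[n] y) atTop (𝓝 α)) ∨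
      (∀ y ∈ I, Tendsto (fun n => |l^[n] y|) atTop atTop) := by
  have hanti : ∀ y ∈ I, Antitone (fun n => l^[n] y) := fun y hy =>
    R.lm.monotone.antitone_iterate_of_map_le (JC_l_lt R (hup _ (hI.hl y hy))).le
  have hlim : ∀ y β, Tendsto (fun n => l^[n] y) atTop (𝓝 β) → κ β = β := by
    intro y β hβ
    have h1 : Tendsto (fun n => l^[n + 1] y) atTop (𝓝 β) := hβ.comp (tendsto_add_atTop_nat 1)
    have h2 : Tendsto (fun n => l^[n + 1] y) atTop (𝓝 (l β)) := by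
      simp only [iterate_succ_apply']
      exact (R.lc.tendsto β).comp hβ
    have h3 := tendsto_nhds_unique h1 h2
    calc κ β = κ (l β) := by rw [← h3]
      _ = β := R.kl β
  have hnotI : ∀ β, κ β = β → β ∉ I := fun β hβ hm => absurd (hup β hm) (by rw [hβ]; exact lt_irrefl _)
  by_cases hb : ∃ y ∈ I, BddBelow (range (fun n => l^[n] y))
  · obtain ⟨y0, hy0, hbdd⟩ := hb
    left
    set α := ⨅ n, l^[n] y0 with hα
    have ht : Tendsto (fun n => l^[n] y0) atTop (𝓝 α) := tendsto_atTop_ciInf (hanti y0 hy0) hbdd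
    have hfix := hlim y0 α ht
    have hαI := hnotI α hfix
    have hαle : α ≤ y0 := by
      have := ciInf_le hbdd 0
      simpa using this
    have hlow : ∀ y ∈ I, α < y := by
      intro y hy
      by_contra hcon
      push Not at hcon
      exact hαI (hI.oc.out hy hy0 ⟨hcon, hαle⟩)
    have hlα : l α = α := by
      calc l α = l (κ α) := by rw [hfix]
        _ = α := R.lk α
    refine ⟨α, hfix, hαI, fun y hy => ?_⟩
    have hge : ∀ n, α ≤ l^[n] y := by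
      intro n
      have h1 := (R.lm.monotone.iterate n) (hlow y hy).le
      rwa [JC_fix_iter hlα n] at h1
    have hbd : BddBelow (range (fun n => l^[n] y)) := ⟨α, by rintro _ ⟨n, rfl⟩; exact hge n⟩
    have ht2 : Tendsto (fun n => l^[n] y) atTop (𝓝 (⨅ n, l^[n] y)) :=
      tendsto_atTop_ciInf (hanti y hy) hbd
    set β := ⨅ n, l^[n] y with hβ
    have hβfix := hlim y β ht2
    have hβI := hnotI β hβfix
    have hαβ : α ≤ β := le_ciInf hge
    rcases hαβ.eq_or_lt with h | h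
    · rw [h]; exact ht2
    · exfalso
      obtain ⟨n, hn⟩ := (ht.eventually (gt_mem_nhds h)).exists
      have h2 : β ≤ y := by
        have := ciInf_le hbd 0
        simpa using this
      exact hβI (hI.oc.out (JC_iter_mem hI.hl n y0 hy0) hy ⟨hn.le, h2⟩)
  · right
    intro y hy
    have h1 : Tendsto (fun n => l^[n] y) atTop atBot := by
      refine tendsto_atTop_atBot_of_antitone (hanti y hy) fun b => ?_
      by_contra hcon
      push Not at hcon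
      exact hb ⟨y, hy, b, by rintro _ ⟨n, rfl⟩; exact (hcon n).le⟩
    exact tendsto_abs_atBot_atTop.comp h1

private theorem JC_r1' {κ l : ℝ → ℝ} {I : Set ℝ} (R : JC_RD κ l) (hI : JC_Inv κ l I)
    (hf : ∀ y ∈ I, κ y ≠ y) :
    (∃ α, κ α = α ∧ α ∉ I ∧ ∀ y ∈ I, Tendsto (fun n => l^[n] y) atTop (𝓝 α)) ∨
      (∀ y ∈ I, Tendsto (fun n => |l^[n] y|) atTop atTop) := by
  rcases JC_dir R hI hf with h | h
  · exact JC_r1 R hI h
  · have h' : ∀ y ∈ {t : ℝ | -t ∈ I}, y < (fun t => -κ (-t)) y := by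
      intro y hy
      have h1 := h (-y) hy
      change y < -κ (-y)
      linarith
    rcases JC_r1 R.refl hI.refl h' with ⟨α, h1, h2, h3⟩ | h3
    · left
      refine ⟨-α, ?_, h2, fun y hy => ?_⟩
      · have h4 : -κ (-α) = α := h1
        linarith
      · have h4 := h3 (-y) (by change - -y ∈ I; rwa [neg_neg])
        simp only [JC_refl_iter, neg_neg] at h4
        simpa using h4.neg
    · right
      intro y hy
      have h4 := h3 (-y) (by change - -y ∈ I; rwa [neg_neg])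
      simp only [JC_refl_iter, neg_neg, abs_neg] at h4
      exact h4

/-- the direction on `I₁` -/
private theorem JC_r2 {κ l : ℝ → ℝ} {I I₁ : Set ℝ} (R : JC_RD κ l) (hI : JC_Inv κ l I)
    (hI₁ : JC_Inv κ l I₁) (hne : I.Nonempty) (hup : ∀ y ∈ I, y < κ y)
    (hl : ∀ y ∈ I, Tendsto (fun n => |l^[n] y|) atTop atTop)
    (hk : ∀ y ∈ I₁, Tendsto (fun n => |κ^[n] y|) atTop atTop) :
    (∀ y ∈ I, Tendsto (fun n => l^[n] y) atTop atBot) ∧
    (∀ y ∈ I₁, y < κ y) ∧ (∀ y ∈ I₁, Tendsto (fun n => κ^[n] y) atTop atTop) := by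
  have hbot : ∀ y ∈ I, Tendsto (fun n => l^[n] y) atTop atBot := fun y hy =>
    JC_bot (R.lm.monotone.antitone_iterate_of_map_le (JC_l_lt R (hup _ (hI.hl y hy))).le) (hl y hy)
  have hf : ∀ y ∈ I₁, κ y ≠ y := by
    intro y hy h
    have h1 := hk y hy
    simp only [JC_fix_iter h] at h1
    exact JC_const h1
  rcases JC_dir R hI₁ hf with h | h
  · exact ⟨hbot, h, fun y hy => JC_top (R.km.monotone.monotone_iterate_of_le_map (h y hy).le)
      (hk y hy)⟩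
  · refine ⟨hbot, ?_⟩
    have key : ∀ y ∈ I₁, False := by
      intro y₁ hy₁
      obtain ⟨y, hy⟩ := hne
      have h1 : Tendsto (fun n => κ^[n] y₁) atTop atBot :=
        JC_bot (R.km.monotone.antitone_iterate_of_map_le (h y₁ hy₁).le) (hk y₁ hy₁)
      obtain ⟨n, hn⟩ := (h1.eventually (eventually_le_atBot y)).exists
      obtain ⟨m, hm⟩ := ((hbot y hy).eventually (eventually_le_atBot (κ^[n] y₁))).exists
      have h2 : κ^[n] y₁ ∈ I := hI.oc.out (JC_iter_mem hI.hl m y hy) hy ⟨hm, hn⟩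
      have h3 := h _ (JC_iter_mem hI₁.hk n y₁ hy₁)
      have h4 := hup _ h2
      exact absurd h3 (not_lt.2 h4.le)
    exact ⟨fun y hy => (key y hy).elim, fun y hy => (key y hy).elim⟩

private theorem JC_k_l_iter {κ l : ℝ → ℝ} (R : JC_RD κ l) (n : ℕ) : ∀ t, κ^[n] (l^[n] t) = t :=
  (show Function.RightInverse l κ from R.kl).iterate n

private theorem JC_r2a_up {κ l : ℝ → ℝ} {I I₁ : Set ℝ} (R : JC_RD κ l) (hI : JC_Inv κ l I)
    (hI₁ : JC_Inv κ l I₁) (hne : I.Nonempty) (hne₁ : I₁.Nonempty) (hup : ∀ y ∈ I, y < κ y)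
    (hl : ∀ y ∈ I, Tendsto (fun n => |l^[n] y|) atTop atTop)
    (hk : ∀ y ∈ I₁, Tendsto (fun n => |κ^[n] y|) atTop atTop) {b : ℝ}
    (hb : Tendsto (fun n => |l^[n] b|) atTop atTop) : b ∈ I := by
  obtain ⟨hbot, h1, htop⟩ := JC_r2 R hI hI₁ hne hup hl hk
  obtain ⟨y, hy⟩ := hne
  obtain ⟨y₁, hy₁⟩ := hne₁
  rcases lt_trichotomy (l b) b with h | h | h
  · have hbb : Tendsto (fun n => l^[n] b) atTop atBot :=
      JC_bot (R.lm.monotone.antitone_iterate_of_map_le h.le) hb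
    obtain ⟨n, hn⟩ := (hbb.eventually (eventually_le_atBot y)).exists
    obtain ⟨m, hm⟩ := ((hbot y hy).eventually (eventually_le_atBot (l^[n] b))).exists
    have h2 : l^[n] b ∈ I := hI.oc.out (JC_iter_mem hI.hl m y hy) hy ⟨hm, hn⟩
    have h3 := JC_iter_mem hI.hk n _ h2
    rwa [JC_k_l_iter R] at h3
  · exfalso
    simp only [JC_fix_iter h] at hb
    exact JC_const hb
  · exfalso
    have hmono := R.lm.strictMono_iterate_of_lt_map h
    have hbb : Tendsto (fun n => l^[n] b) atTop atTop := JC_top hmono.monotone hb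
    obtain ⟨n, hn⟩ := (hbb.eventually (eventually_ge_atTop y₁)).exists
    obtain ⟨m, hm⟩ := ((htop y₁ hy₁).eventually (eventually_ge_atTop (l^[n] b))).exists
    have h2 : l^[n] b ∈ I₁ := hI₁.oc.out hy₁ (JC_iter_mem hI₁.hk m y₁ hy₁) ⟨hn, hm⟩
    have h3 : l^[n] b < l^[n + 1] b := hmono (Nat.lt_succ_self n)
    rw [iterate_succ_apply'] at h3
    have h4 := R.km h3
    rw [R.kl] at h4
    exact absurd (h1 _ h2) (not_lt.2 h4.le)

private theorem JC_r2b_up {κ l : ℝ → ℝ} {I I₁ I₂ : Set ℝ} (R : JC_RD κ l) (hI : JC_Inv κ l I)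
    (hI₁ : JC_Inv κ l I₁) (hI₂ : JC_Inv κ l I₂) (hne : I.Nonempty) (hne₁ : I₁.Nonempty)
    (hne₂ : I₂.Nonempty) (hup : ∀ y ∈ I, y < κ y)
    (hl : ∀ y ∈ I, Tendsto (fun n => |l^[n] y|) atTop atTop)
    (hk : ∀ y ∈ I₁, Tendsto (fun n => |κ^[n] y|) atTop atTop)
    (hk₂ : ∀ y ∈ I₂, Tendsto (fun n => |κ^[n] y|) atTop atTop) : ∃ z, z ∈ I₁ ∧ z ∈ I₂ := by
  obtain ⟨-, -, htop⟩ := JC_r2 R hI hI₁ hne hup hl hk
  obtain ⟨-, -, htop₂⟩ := JC_r2 R hI hI₂ hne hup hl hk₂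
  obtain ⟨y₁, hy₁⟩ := hne₁
  obtain ⟨y₂, hy₂⟩ := hne₂
  obtain ⟨n, hn⟩ := ((htop₂ y₂ hy₂).eventually (eventually_ge_atTop y₁)).exists
  obtain ⟨m, hm⟩ := ((htop y₁ hy₁).eventually (eventually_ge_atTop (κ^[n] y₂))).exists
  exact ⟨κ^[n] y₂, hI₁.oc.out hy₁ (JC_iter_mem hI₁.hk m y₁ hy₁) ⟨hn, hm⟩,
    JC_iter_mem hI₂.hk n y₂ hy₂⟩

private theorem JC_refl_abs {f : ℝ → ℝ} {I : Set ℝ}
    (h : ∀ y ∈ I, Tendsto (fun n => |f^[n] y|) atTop atTop) :
    ∀ y ∈ {t : ℝ | -t ∈ I}, Tendsto (fun n => |(fun t => -f (-t))^[n] y|) atTop atTop := by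
  intro y hy
  simp only [JC_refl_iter, abs_neg]
  exact h _ hy

private theorem JC_refl_ne {I : Set ℝ} (h : I.Nonempty) : {t : ℝ | -t ∈ I}.Nonempty := by
  obtain ⟨y, hy⟩ := h
  exact ⟨-y, by change - -y ∈ I; rwa [neg_neg]⟩

private theorem JC_nofix {κ l : ℝ → ℝ} {I : Set ℝ} (R : JC_RD κ l)
    (hl : ∀ y ∈ I, Tendsto (fun n => |l^[n] y|) atTop atTop) : ∀ y ∈ I, κ y ≠ y := by
  intro y hy h
  have h1 := hl y hy
  have h2 : l y = y := by
    calc l y = l (κ y) := by rw [h]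
      _ = y := R.lk y
  simp only [JC_fix_iter h2] at h1
  exact JC_const h1

private theorem JC_refl_up {κ : ℝ → ℝ} {I : Set ℝ} (h : ∀ y ∈ I, κ y < y) :
    ∀ y ∈ {t : ℝ | -t ∈ I}, y < (fun t => -κ (-t)) y := by
  intro y hy
  have h1 := h (-y) hy
  change y < -κ (-y)
  linarith

private theorem JC_r2a {κ l : ℝ → ℝ} {I I₁ : Set ℝ} (R : JC_RD κ l) (hI : JC_Inv κ l I)
    (hI₁ : JC_Inv κ l I₁) (hne : I.Nonempty) (hne₁ : I₁.Nonempty)
    (hl : ∀ y ∈ I, Tendsto (fun n => |l^[n] y|) atTop atTop)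
    (hk : ∀ y ∈ I₁, Tendsto (fun n => |κ^[n] y|) atTop atTop) {b : ℝ}
    (hb : Tendsto (fun n => |l^[n] b|) atTop atTop) : b ∈ I := by
  rcases JC_dir R hI (JC_nofix R hl) with h | h
  · exact JC_r2a_up R hI hI₁ hne hne₁ h hl hk hb
  · have h1 := JC_r2a_up R.refl hI.refl hI₁.refl (JC_refl_ne hne) (JC_refl_ne hne₁)
      (JC_refl_up h) (JC_refl_abs hl) (JC_refl_abs hk) (b := -b)
      (by simp only [JC_refl_iter, abs_neg, neg_neg]; exact hb)
    have h2 : - -b ∈ I := h1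
    rwa [neg_neg] at h2

private theorem JC_r2b {κ l : ℝ → ℝ} {I I₁ I₂ : Set ℝ} (R : JC_RD κ l) (hI : JC_Inv κ l I)
    (hI₁ : JC_Inv κ l I₁) (hI₂ : JC_Inv κ l I₂) (hne : I.Nonempty) (hne₁ : I₁.Nonempty)
    (hne₂ : I₂.Nonempty)
    (hl : ∀ y ∈ I, Tendsto (fun n => |l^[n] y|) atTop atTop)
    (hk : ∀ y ∈ I₁, Tendsto (fun n => |κ^[n] y|) atTop atTop)
    (hk₂ : ∀ y ∈ I₂, Tendsto (fun n => |κ^[n] y|) atTop atTop) : ∃ z, z ∈ I₁ ∧ z ∈ I₂ := by
  rcases JC_dir R hI (JC_nofix R hl) with h | h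
  · exact JC_r2b_up R hI hI₁ hI₂ hne hne₁ hne₂ h hl hk hk₂
  · obtain ⟨z, hz1, hz2⟩ := JC_r2b_up R.refl hI.refl hI₁.refl hI₂.refl (JC_refl_ne hne)
      (JC_refl_ne hne₁) (JC_refl_ne hne₂) (JC_refl_up h) (JC_refl_abs hl) (JC_refl_abs hk)
      (JC_refl_abs hk₂)
    exact ⟨-z, hz1, hz2⟩

/-! ### The parametrization of the circle without a point -/

open Complex in
/-- the parametrization of the circle minus `ζ` -/
noncomputable def JC_P (ζ : ℂ) (t : ℝ) : ℂ := ζ * (((t : ℂ) - I) / ((t : ℂ) + I))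

open Complex in
/-- the inverse of `JC_P` -/
noncomputable def JC_Q (ζ : ℂ) (z : ℂ) : ℝ :=
  (I * (1 + z * (starRingEnd ℂ) ζ) / (1 - z * (starRingEnd ℂ) ζ)).re

section
open Complex

private theorem JC_tI (t : ℝ) : (t : ℂ) + I ≠ 0 := by
  intro h
  have := congrArg Complex.im h
  simp at this

private theorem JC_zz {ζ : ℂ} (hζ : ζ ∈ sphere (0:ℂ) 1) : ζ * (starRingEnd ℂ) ζ = 1 := by
  rw [mem_sphere_zero_iff_norm] at hζ
  rw [Complex.mul_conj, Complex.normSq_eq_norm_sq, hζ]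
  norm_num

private theorem JC_P_mem {ζ : ℂ} (hζ : ζ ∈ sphere (0:ℂ) 1) (t : ℝ) :
    JC_P ζ t ∈ sphere (0:ℂ) 1 \ {ζ} := by
  have hz : ‖ζ‖ = 1 := by rwa [mem_sphere_zero_iff_norm] at hζ
  have hz0 : ζ ≠ 0 := by intro h; rw [h, norm_zero] at hz; norm_num at hz
  refine ⟨?_, ?_⟩
  · rw [mem_sphere_zero_iff_norm, JC_P, norm_mul, hz, one_mul, norm_div]
    have h1 : (t : ℂ) - I = (starRingEnd ℂ) ((t : ℂ) + I) := by
      rw [map_add, Complex.conj_ofReal, Complex.conj_I]; ring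
    rw [h1, RCLike.norm_conj]
    exact div_self (norm_ne_zero_iff.2 (JC_tI t))
  · rw [mem_singleton_iff, JC_P]
    intro h
    have h1 : ((t : ℂ) - I) / ((t : ℂ) + I) = 1 := by
      have h2 : ζ * (((t : ℂ) - I) / ((t : ℂ) + I)) = ζ * 1 := by rw [h, mul_one]
      exact mul_left_cancel₀ hz0 h2
    rw [div_eq_one_iff_eq (JC_tI t)] at h1
    have h2 := congrArg Complex.im h1
    norm_num at h2

private theorem JC_QP {ζ : ℂ} (hζ : ζ ∈ sphere (0:ℂ) 1) (t : ℝ) : JC_Q ζ (JC_P ζ t) = t := by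
  have h1 : JC_P ζ t * (starRingEnd ℂ) ζ = ((t : ℂ) - I) / ((t : ℂ) + I) := by
    rw [JC_P]
    linear_combination (((t : ℂ) - I) / ((t : ℂ) + I)) * JC_zz hζ
  rw [JC_Q, h1]
  have h2 := JC_tI t
  have h3 : I * (1 + ((t : ℂ) - I) / ((t : ℂ) + I)) / (1 - ((t : ℂ) - I) / ((t : ℂ) + I)) =
      (t : ℂ) := by
    have h4 : 1 - ((t : ℂ) - I) / ((t : ℂ) + I) = 2 * I / ((t : ℂ) + I) := by
      field_simp
      ring
    have h5 : 1 + ((t : ℂ) - I) / ((t : ℂ) + I) = 2 * t / ((t : ℂ) + I) := by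
      field_simp
      ring
    rw [h4, h5]
    have h6 : I ≠ 0 := Complex.I_ne_zero
    field_simp
  rw [h3, Complex.ofReal_re]

private theorem JC_w_ne {ζ z : ℂ} (hζ : ζ ∈ sphere (0:ℂ) 1) (hz : z ≠ ζ) :
    1 - z * (starRingEnd ℂ) ζ ≠ 0 := by
  intro h
  apply hz
  have h1 := JC_zz hζ
  linear_combination (-z) * h1 - ζ * h

private theorem JC_PQ {ζ z : ℂ} (hζ : ζ ∈ sphere (0:ℂ) 1) (hz : z ∈ sphere (0:ℂ) 1 \ {ζ}) :
    JC_P ζ (JC_Q ζ z) = z := by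
  have hzζ : z ≠ ζ := hz.2
  have h0 := JC_w_ne hζ hzζ
  have h1 := JC_zz hζ
  have h2 := JC_zz hz.1
  set w := z * (starRingEnd ℂ) ζ with hw
  have hww : w * (starRingEnd ℂ) w = 1 := by
    rw [hw, map_mul, Complex.conj_conj]
    calc z * (starRingEnd ℂ) ζ * ((starRingEnd ℂ) z * ζ)
        = (z * (starRingEnd ℂ) z) * (ζ * (starRingEnd ℂ) ζ) := by ring
      _ = 1 := by rw [h1, h2, mul_one]
  have h0' : 1 - (starRingEnd ℂ) w ≠ 0 := by
    intro h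
    apply h0
    have h3 := congrArg (starRingEnd ℂ) h
    rw [map_sub, map_one, Complex.conj_conj, map_zero] at h3
    exact h3
  have hre : ((JC_Q ζ z : ℝ) : ℂ) = I * (1 + w) / (1 - w) := by
    rw [JC_Q, ← hw]
    rw [← Complex.conj_eq_iff_re]
    rw [map_div₀, map_mul, map_add, map_sub, map_one, Complex.conj_I, div_eq_div_iff h0' h0]
    linear_combination (2 * I) * hww
  have hI : I ≠ 0 := Complex.I_ne_zero
  rw [JC_P, hre]
  have h3 : I * (1 + w) / (1 - w) - I = 2 * I * w / (1 - w) := by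
    field_simp
    ring
  have h4 : I * (1 + w) / (1 - w) + I = 2 * I / (1 - w) := by
    field_simp
    ring
  rw [h3, h4, div_div_div_cancel_right₀ h0]
  have h5 : 2 * I * w / (2 * I) = w := by
    field_simp
  rw [h5, hw]
  linear_combination z * h1

private theorem JC_P_cont (ζ : ℂ) : Continuous (JC_P ζ) := by
  refine continuous_const.mul (Continuous.div ?_ ?_ JC_tI)
  · exact Complex.continuous_ofReal.sub continuous_const
  · exact Complex.continuous_ofReal.add continuous_const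

private theorem JC_Q_cont {ζ : ℂ} (hζ : ζ ∈ sphere (0:ℂ) 1) :
    ContinuousOn (JC_Q ζ) (sphere (0:ℂ) 1 \ {ζ}) := by
  refine Complex.continuous_re.comp_continuousOn (ContinuousOn.div ?_ ?_ ?_)
  · fun_prop
  · fun_prop
  · intro z hz
    exact JC_w_ne hζ hz.2

private theorem JC_P_dist {ζ : ℂ} (hζ : ζ ∈ sphere (0:ℂ) 1) (t : ℝ) :
    ‖JC_P ζ t - ζ‖ = 2 / ‖(t : ℂ) + I‖ := by
  have hz : ‖ζ‖ = 1 := by rwa [mem_sphere_zero_iff_norm] at hζ
  have h1 : JC_P ζ t - ζ = ζ * (-(2 * I) / ((t : ℂ) + I)) := by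
    rw [JC_P]
    have := JC_tI t
    field_simp
    ring
  rw [h1, norm_mul, hz, one_mul, norm_div, norm_neg, norm_mul, Complex.norm_I]
  norm_num

private theorem JC_P_tendsto {ζ : ℂ} (hζ : ζ ∈ sphere (0:ℂ) 1) (x : ℕ → ℝ) :
    Tendsto (fun n => JC_P ζ (x n)) atTop (𝓝 ζ) ↔ Tendsto (fun n => |x n|) atTop atTop := by
  have hlow : ∀ t : ℝ, |t| ≤ ‖(t : ℂ) + I‖ := by
    intro t
    have := Complex.abs_re_le_norm ((t : ℂ) + I)
    simpa using this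
  have hupp : ∀ t : ℝ, ‖(t : ℂ) + I‖ ≤ |t| + 1 := by
    intro t
    have := norm_add_le (t : ℂ) I
    rwa [Complex.norm_real, Complex.norm_I] at this
  have hpos : ∀ t : ℝ, 0 < ‖(t : ℂ) + I‖ := fun t => norm_pos_iff.2 (JC_tI t)
  rw [tendsto_iff_norm_sub_tendsto_zero]
  simp only [JC_P_dist hζ]
  constructor
  · intro h
    rw [Filter.tendsto_atTop]
    intro b
    have h1 : (0 : ℝ) < 2 / (|b| + 2) := by positivity
    filter_upwards [h.eventually (gt_mem_nhds h1)] with n hn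
    rw [div_lt_div_iff₀ (hpos _) (by positivity)] at hn
    have h2 := hupp (x n)
    have h3 := le_abs_self b
    linarith
  · intro h
    have h1 : Tendsto (fun n => ‖((x n : ℝ) : ℂ) + I‖) atTop atTop :=
      tendsto_atTop_mono (fun n => hlow (x n)) h
    exact h1.const_div_atTop 2

end

/-! ### Transfer -/

private theorem JC_symm {k ki : ℂ → ℂ} (h : CircHomeo k ki) : CircHomeo ki k where
  kc := h.kic
  kic := h.kc
  km := h.kim
  kim := h.km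
  kki := h.kik
  kik := h.kki

private theorem JC_ki_fix {k ki : ℂ → ℂ} (h : CircHomeo k ki) {ζ : ℂ}
    (hζ : ζ ∈ sphere (0:ℂ) 1) (hkζ : k ζ = ζ) : ki ζ = ζ := by
  have h1 := h.kik ζ hζ
  rwa [hkζ] at h1

private theorem JC_k_mem {k ki : ℂ → ℂ} (h : CircHomeo k ki) {ζ : ℂ}
    (hζ : ζ ∈ sphere (0:ℂ) 1) (hkζ : k ζ = ζ) {z : ℂ} (hz : z ∈ sphere (0:ℂ) 1 \ {ζ}) :
    k z ∈ sphere (0:ℂ) 1 \ {ζ} := by
  refine ⟨h.km hz.1, ?_⟩
  intro h1
  rw [mem_singleton_iff] at h1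
  have h2 := h.kik z hz.1
  rw [h1, JC_ki_fix h hζ hkζ] at h2
  exact hz.2 h2.symm

/-- the conjugate of `k` -/
noncomputable def JC_K (ζ : ℂ) (k : ℂ → ℂ) (t : ℝ) : ℝ := JC_Q ζ (k (JC_P ζ t))

private theorem JC_PK {k ki : ℂ → ℂ} (h : CircHomeo k ki) {ζ : ℂ}
    (hζ : ζ ∈ sphere (0:ℂ) 1) (hkζ : k ζ = ζ) (t : ℝ) : JC_P ζ (JC_K ζ k t) = k (JC_P ζ t) := by
  rw [JC_K, JC_PQ hζ (JC_k_mem h hζ hkζ (JC_P_mem hζ t))]

private theorem JC_KL {k ki : ℂ → ℂ} (h : CircHomeo k ki) {ζ : ℂ}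
    (hζ : ζ ∈ sphere (0:ℂ) 1) (hkζ : k ζ = ζ) (t : ℝ) : JC_K ζ k (JC_K ζ ki t) = t := by
  rw [JC_K, JC_PK (JC_symm h) hζ (JC_ki_fix h hζ hkζ), h.kki _ (JC_P_mem hζ t).1, JC_QP hζ]

private theorem JC_K_cont {k ki : ℂ → ℂ} (h : CircHomeo k ki) {ζ : ℂ}
    (hζ : ζ ∈ sphere (0:ℂ) 1) (hkζ : k ζ = ζ) : Continuous (JC_K ζ k) := by
  have h1 : Continuous (fun t => k (JC_P ζ t)) :=
    h.kc.comp_continuous (JC_P_cont ζ) (fun t => (JC_P_mem hζ t).1)
  exact (JC_Q_cont hζ).comp_continuous h1 (fun t => JC_k_mem h hζ hkζ (JC_P_mem hζ t))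

private theorem JC_KK_mono {k ki : ℂ → ℂ} (h : CircHomeo k ki) {ζ : ℂ}
    (hζ : ζ ∈ sphere (0:ℂ) 1) (hkζ : k ζ = ζ) : StrictMono (fun t => JC_K ζ k (JC_K ζ k t)) := by
  have hinj : Function.Injective (JC_K ζ k) := by
    intro a b hab
    have h1 := JC_KL (JC_symm h) hζ (JC_ki_fix h hζ hkζ) a
    have h2 := JC_KL (JC_symm h) hζ (JC_ki_fix h hζ hkζ) b
    rw [← h1, ← h2, hab]
  rcases (JC_K_cont h hζ hkζ).strictMono_of_inj hinj with h1 | h1
  · exact h1.comp h1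
  · exact h1.comp h1

private theorem JC_RD_of {k ki : ℂ → ℂ} (h : CircHomeo k ki) {ζ : ℂ}
    (hζ : ζ ∈ sphere (0:ℂ) 1) (hkζ : k ζ = ζ) :
    JC_RD (fun t => JC_K ζ k (JC_K ζ k t)) (fun t => JC_K ζ ki (JC_K ζ ki t)) where
  kc := (JC_K_cont h hζ hkζ).comp (JC_K_cont h hζ hkζ)
  lc := (JC_K_cont (JC_symm h) hζ (JC_ki_fix h hζ hkζ)).comp
    (JC_K_cont (JC_symm h) hζ (JC_ki_fix h hζ hkζ))
  km := JC_KK_mono h hζ hkζ
  lm := JC_KK_mono (JC_symm h) hζ (JC_ki_fix h hζ hkζ)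
  kl := fun t => by
    simp only [JC_KL h hζ hkζ]
  lk := fun t => by
    simp only [JC_KL (JC_symm h) hζ (JC_ki_fix h hζ hkζ)]

private theorem JC_semi {k ki : ℂ → ℂ} (h : CircHomeo k ki) {ζ : ℂ}
    (hζ : ζ ∈ sphere (0:ℂ) 1) (hkζ : k ζ = ζ) (n : ℕ) (t : ℝ) :
    JC_P ζ ((fun t => JC_K ζ k (JC_K ζ k t))^[n] t) = (k^[2])^[n] (JC_P ζ t) := by
  have h1 : Function.Semiconj (JC_P ζ) (fun t => JC_K ζ k (JC_K ζ k t)) (k^[2]) := by
    intro t
    rw [JC_PK h hζ hkζ, JC_PK h hζ hkζ]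
    rfl
  exact (h1.iterate_right n) t

private theorem JC_Inv_of {k ki : ℂ → ℂ} (h : CircHomeo k ki) {ζ : ℂ}
    (hζ : ζ ∈ sphere (0:ℂ) 1) (hkζ : k ζ = ζ) {J : Set ℂ} (hJ : IsConnected J)
    (hJs : J ⊆ sphere 0 1 \ {ζ}) (hJk : (k^[2]) '' J = J) :
    JC_Inv (fun t => JC_K ζ k (JC_K ζ k t)) (fun t => JC_K ζ ki (JC_K ζ ki t))
      {t | JC_P ζ t ∈ J} where
  oc := by
    have h1 : {t | JC_P ζ t ∈ J} = JC_Q ζ '' J := by
      ext t
      constructor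
      · intro ht
        exact ⟨JC_P ζ t, ht, JC_QP hζ t⟩
      · rintro ⟨z, hz, rfl⟩
        change JC_P ζ (JC_Q ζ z) ∈ J
        rwa [JC_PQ hζ (hJs hz)]
    rw [h1]
    exact (hJ.isPreconnected.image _ ((JC_Q_cont hζ).mono hJs)).ordConnected
  hk := fun y hy => by
    change JC_P ζ (JC_K ζ k (JC_K ζ k y)) ∈ J
    rw [JC_PK h hζ hkζ, JC_PK h hζ hkζ, ← hJk]
    exact ⟨JC_P ζ y, hy, rfl⟩
  hl := fun y hy => by
    change JC_P ζ (JC_K ζ ki (JC_K ζ ki y)) ∈ J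
    have hki := JC_ki_fix h hζ hkζ
    rw [JC_PK (JC_symm h) hζ hki, JC_PK (JC_symm h) hζ hki]
    have h1 : JC_P ζ y ∈ (k^[2]) '' J := by rw [hJk]; exact hy
    obtain ⟨z, hz, hzy⟩ := h1
    rw [← hzy]
    have h2 : ki (ki (k^[2] z)) = z := by
      change ki (ki (k (k z))) = z
      have hz1 := (hJs hz).1
      rw [h.kik _ (h.km hz1), h.kik _ hz1]
    rw [h2]
    exact hz

private theorem JC_abs {k ki : ℂ → ℂ} (h : CircHomeo k ki) {ζ : ℂ}
    (hζ : ζ ∈ sphere (0:ℂ) 1) (hkζ : k ζ = ζ) {J : Set ℂ}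
    (hJt : ∀ b ∈ J, Tendsto (fun n : ℕ => (k^[2])^[n] b) atTop (𝓝 ζ)) :
    ∀ y ∈ {t | JC_P ζ t ∈ J},
      Tendsto (fun n => |(fun t => JC_K ζ k (JC_K ζ k t))^[n] y|) atTop atTop := by
  intro y hy
  rw [← JC_P_tendsto hζ]
  simp only [JC_semi h hζ hkζ]
  exact hJt _ hy

private theorem JC_nonempty {ζ : ℂ} (hζ : ζ ∈ sphere (0:ℂ) 1) {J : Set ℂ} (hJ : IsConnected J)
    (hJs : J ⊆ sphere 0 1 \ {ζ}) : {t | JC_P ζ t ∈ J}.Nonempty := by
  obtain ⟨z, hz⟩ := hJ.nonempty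
  refine ⟨JC_Q ζ z, ?_⟩
  change JC_P ζ (JC_Q ζ z) ∈ J
  rwa [JC_PQ hζ (hJs hz)]

theorem circle_CD1 {k ki : ℂ → ℂ} (h : CircHomeo k ki) {ζ : ℂ} (hζ : ζ ∈ sphere (0:ℂ) 1)
    (hkζ : k ζ = ζ) {J : Set ℂ} (hJ : IsConnected J) (hJs : J ⊆ sphere 0 1 \ {ζ})
    (hJk : (k^[2]) '' J = J) (hJt : ∀ b ∈ J, Tendsto (fun n : ℕ => (k^[2])^[n] b) atTop (𝓝 ζ)) :
    ∃ e ∈ sphere (0:ℂ) 1, (k^[2]) e = e ∧ e ∉ J ∧
      ∀ b ∈ J, Tendsto (fun n : ℕ => (ki^[2])^[n] b) atTop (𝓝 e) := by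
  have R := JC_RD_of h hζ hkζ
  have hI := JC_Inv_of h hζ hkζ hJ hJs hJk
  have hki := JC_ki_fix h hζ hkζ
  have habs := JC_abs h hζ hkζ hJt
  have hf : ∀ y ∈ {t | JC_P ζ t ∈ J}, (fun t => JC_K ζ k (JC_K ζ k t)) y ≠ y := by
    intro y hy h1
    have h2 := habs y hy
    refine JC_const (c := y) (h2.congr fun n => ?_)
    rw [iterate_fixed h1 n]
  rcases JC_r1' R hI hf with ⟨α, h1, h2, h3⟩ | h3
  · refine ⟨JC_P ζ α, (JC_P_mem hζ α).1, ?_, h2, ?_⟩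
    · have h4 := JC_semi h hζ hkζ 1 α
      rw [iterate_one, iterate_one] at h4
      rw [← h4, h1]
    · intro b hb
      have hb1 : JC_Q ζ b ∈ {t | JC_P ζ t ∈ J} := by
        change JC_P ζ (JC_Q ζ b) ∈ J
        rwa [JC_PQ hζ (hJs hb)]
      have h4 := ((JC_P_cont ζ).tendsto α).comp (h3 _ hb1)
      refine h4.congr fun n => ?_
      rw [comp_apply, JC_semi (JC_symm h) hζ hki, JC_PQ hζ (hJs hb)]
  · refine ⟨ζ, hζ, ?_, fun h4 => (hJs h4).2 rfl, ?_⟩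
    · change k (k ζ) = ζ
      rw [hkζ, hkζ]
    · intro b hb
      have hb1 : JC_Q ζ b ∈ {t | JC_P ζ t ∈ J} := by
        change JC_P ζ (JC_Q ζ b) ∈ J
        rwa [JC_PQ hζ (hJs hb)]
      have h4 := (JC_P_tendsto hζ _).2 (h3 _ hb1)
      refine h4.congr fun n => ?_
      rw [JC_semi (JC_symm h) hζ hki, JC_PQ hζ (hJs hb)]

theorem circle_CD2a {k ki : ℂ → ℂ} (h : CircHomeo k ki) {ζ : ℂ} (hζ : ζ ∈ sphere (0:ℂ) 1)
    (hkζ : k ζ = ζ) {J : Set ℂ} (hJ : IsConnected J) (hJs : J ⊆ sphere 0 1 \ {ζ})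
    (hJk : (k^[2]) '' J = J) (hJt : ∀ b ∈ J, Tendsto (fun n : ℕ => (ki^[2])^[n] b) atTop (𝓝 ζ))
    {J₁ : Set ℂ} (hJ₁ : IsConnected J₁) (hJ₁s : J₁ ⊆ sphere 0 1 \ {ζ})
    (hJ₁k : (k^[2]) '' J₁ = J₁)
    (hJ₁t : ∀ b ∈ J₁, Tendsto (fun n : ℕ => (k^[2])^[n] b) atTop (𝓝 ζ))
    {b : ℂ} (hb : b ∈ sphere (0:ℂ) 1) (hbζ : b ≠ ζ)
    (hbt : Tendsto (fun n : ℕ => (ki^[2])^[n] b) atTop (𝓝 ζ)) : b ∈ J := by
  have R := JC_RD_of h hζ hkζ
  have hki := JC_ki_fix h hζ hkζ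
  have hI := JC_Inv_of h hζ hkζ hJ hJs hJk
  have hI₁ := JC_Inv_of h hζ hkζ hJ₁ hJ₁s hJ₁k
  have hb' : b ∈ sphere (0:ℂ) 1 \ {ζ} := ⟨hb, hbζ⟩
  have h1 : JC_Q ζ b ∈ {t | JC_P ζ t ∈ J} := by
    refine JC_r2a R hI hI₁ (JC_nonempty hζ hJ hJs) (JC_nonempty hζ hJ₁ hJ₁s)
      (JC_abs (JC_symm h) hζ hki hJt) (JC_abs h hζ hkζ hJ₁t) ?_
    rw [← JC_P_tendsto hζ]
    simp only [JC_semi (JC_symm h) hζ hki, JC_PQ hζ hb']
    exact hbt
  have h2 : JC_P ζ (JC_Q ζ b) ∈ J := h1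
  rwa [JC_PQ hζ hb'] at h2

theorem circle_CD2b {k ki : ℂ → ℂ} (h : CircHomeo k ki) {ζ : ℂ} (hζ : ζ ∈ sphere (0:ℂ) 1)
    (hkζ : k ζ = ζ) {J : Set ℂ} (hJ : IsConnected J) (hJs : J ⊆ sphere 0 1 \ {ζ})
    (hJk : (k^[2]) '' J = J) (hJt : ∀ b ∈ J, Tendsto (fun n : ℕ => (ki^[2])^[n] b) atTop (𝓝 ζ))
    {J₁ J₂ : Set ℂ} (hJ₁ : IsConnected J₁) (hJ₁s : J₁ ⊆ sphere 0 1 \ {ζ})
    (hJ₁k : (k^[2]) '' J₁ = J₁)
    (hJ₁t : ∀ b ∈ J₁, Tendsto (fun n : ℕ => (k^[2])^[n] b) atTop (𝓝 ζ))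
    (hJ₂ : IsConnected J₂) (hJ₂s : J₂ ⊆ sphere 0 1 \ {ζ}) (hJ₂k : (k^[2]) '' J₂ = J₂)
    (hJ₂t : ∀ b ∈ J₂, Tendsto (fun n : ℕ => (k^[2])^[n] b) atTop (𝓝 ζ))
    (hd : Disjoint J₁ J₂) : False := by
  have R := JC_RD_of h hζ hkζ
  have hki := JC_ki_fix h hζ hkζ
  have hI := JC_Inv_of h hζ hkζ hJ hJs hJk
  have hI₁ := JC_Inv_of h hζ hkζ hJ₁ hJ₁s hJ₁k
  have hI₂ := JC_Inv_of h hζ hkζ hJ₂ hJ₂s hJ₂k
  obtain ⟨z, hz1, hz2⟩ := JC_r2b R hI hI₁ hI₂ (JC_nonempty hζ hJ hJs) (JC_nonempty hζ hJ₁ hJ₁s)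
    (JC_nonempty hζ hJ₂ hJ₂s) (JC_abs (JC_symm h) hζ hki hJt) (JC_abs h hζ hkζ hJ₁t)
    (JC_abs h hζ hkζ hJ₂t)
  exact (Set.disjoint_left.1 hd) hz1 hz2

end DS
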