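import Pool.Agent.H36.DS.Base

/-!
LB (length-area, a circle with short image).  Proof.  For `0 < r < r₁` put
`T r = {t | t ∈ Ioo 0 (4π) ∧ circleMap w₀ r t ∈ Ω}`, `ℓ r = ∫ t in T r, r * ‖deriv u (circleMap w₀ r t)‖`.
Cauchy-Schwarz: `ℓ r ^ 2 ≤ 4π r ∫_{T r} r ‖u'‖²`, and polar coordinates about `w₀` (the angle runs twice
around) with the area formula for the injective `u` (values in the unit disc, area `≤ π`) give
`∫_0^{r₁} ℓ r ^ 2 / r dr ≤ 4π * 2 * π`.  Since `∫_0^{r₁} dr / r = ∞`, some `r < r₁` has `ℓ r ≤ η`.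
-/

namespace DS
open Metric Set Filter Topology MeasureTheory
open scoped ENNReal

/-- the squared modulus of `u'`, cut off outside `Ω` -/
noncomputable def LB_G (Ω : Set ℂ) (u : ℂ → ℂ) (z : ℂ) : ℝ≥0∞ :=
  Ω.indicator (fun z => ENNReal.ofReal (‖deriv u z‖ ^ 2)) z

theorem LB_G_meas {Ω : Set ℂ} (hΩ : IsOpen Ω) (u : ℂ → ℂ) : Measurable (LB_G Ω u) := by
  refine Measurable.indicator ?_ hΩ.measurableSet
  exact ((measurable_deriv u).norm.pow_const 2).ennreal_ofReal

theorem LB_det (c : ℂ) :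
    (((ContinuousLinearMap.toSpanSingleton ℂ c).restrictScalars ℝ : ℂ →L[ℝ] ℂ)).det = ‖c‖ ^ 2 := by
  have : (((ContinuousLinearMap.toSpanSingleton ℂ c).restrictScalars ℝ : ℂ →L[ℝ] ℂ)).det =
      Complex.normSq c := by
    simp [ContinuousLinearMap.det, LinearMap.det_restrictScalars, Algebra.norm_complex_apply]
  rw [this, Complex.normSq_eq_norm_sq]

/-- the area formula -/
theorem LB_area {Ω : Set ℂ} (hΩ : IsOpen Ω) {u : ℂ → ℂ} (hu : DifferentiableOn ℂ u Ω)
    (hi : InjOn u Ω) (hm : MapsTo u Ω (ball 0 1)) :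
    ∫⁻ z, LB_G Ω u z ≤ ENNReal.ofReal Real.pi := by
  have h1 : ∀ x ∈ Ω, HasFDerivWithinAt u
      ((ContinuousLinearMap.toSpanSingleton ℂ (deriv u x)).restrictScalars ℝ : ℂ →L[ℝ] ℂ) Ω x := by
    intro x hx
    have := ((hu.differentiableAt (hΩ.mem_nhds hx)).hasDerivAt).hasFDerivAt
    exact (this.restrictScalars ℝ).hasFDerivWithinAt
  have h2 := lintegral_abs_det_fderiv_eq_addHaar_image volume hΩ.measurableSet h1 hi
  simp only [LB_det] at h2
  unfold LB_G
  rw [lintegral_indicator hΩ.measurableSet]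
  calc (∫⁻ a in Ω, ENNReal.ofReal (‖deriv u a‖ ^ 2)) =
        ∫⁻ a in Ω, ENNReal.ofReal |‖deriv u a‖ ^ 2| := by
          refine lintegral_congr fun a => ?_
          rw [abs_of_nonneg (sq_nonneg ‖deriv u a‖)]
    _ = volume (u '' Ω) := h2
    _ ≤ volume (ball (0:ℂ) 1) := measure_mono (image_subset_iff.2 hm)
    _ = ENNReal.ofReal Real.pi := by
          rw [Complex.volume_ball]
          simp only [ENNReal.ofReal_one, one_pow, one_mul]
          rw [ENNReal.ofReal, Real.toNNReal_of_nonneg Real.pi_pos.le]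
          rfl

/-- polar coordinates about `w₀` -/
theorem LB_polar {Ω : Set ℂ} (hΩ : IsOpen Ω) (u : ℂ → ℂ) (w₀ : ℂ) :
    ∫⁻ r in Ioi (0:ℝ), ENNReal.ofReal r * ∫⁻ t in Ioo (-Real.pi) Real.pi,
      LB_G Ω u (circleMap w₀ r t) = ∫⁻ z, LB_G Ω u z := by
  have h0 : ∫⁻ z, LB_G Ω u z = ∫⁻ z, LB_G Ω u (w₀ + z) := by
    exact (lintegral_add_left_eq_self (μ := volume) (LB_G Ω u) w₀).symm
  rw [h0, ← Complex.lintegral_comp_polarCoord_symm]
  have h1 : polarCoord.target = Set.Ioi (0 : ℝ) ×ˢ Set.Ioo (-Real.pi) Real.pi := rfl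
  rw [h1, Measure.volume_eq_prod, ← Measure.prod_restrict]
  rw [lintegral_prod]
  · refine lintegral_congr fun r => ?_
    rw [← lintegral_const_mul]
    · refine lintegral_congr fun t => ?_
      simp only [smul_eq_mul]
      congr 2
      rw [circleMap, Complex.exp_mul_I]
      simp
    · exact (LB_G_meas hΩ u).comp (continuous_circleMap w₀ r).measurable
  · apply Measurable.aemeasurable
    refine Measurable.smul (f := fun a : ℝ × ℝ => ENNReal.ofReal a.1) (by fun_prop) ?_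
    refine (LB_G_meas hΩ u).comp ?_
    have : Continuous (fun a : ℝ × ℝ => w₀ + Complex.polarCoord.symm a) := by
      simp only [Complex.polarCoord_symm_apply]
      fun_prop
    exact this.measurable

/-- the angle runs twice around -/
theorem LB_twice {F : ℝ → ℝ≥0∞} (hF : Function.Periodic F (2 * Real.pi)) :
    ∫⁻ t in Ioo 0 (4 * Real.pi), F t ≤ 2 * ∫⁻ t in Ioo (-Real.pi) Real.pi, F t := by
  have hT : (0:ℝ) < 2 * Real.pi := Real.two_pi_pos
  have key : ∀ a b : ℝ, ∫⁻ t in Ioc a (a + 2 * Real.pi), F t =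
      ∫⁻ t in Ioc b (b + 2 * Real.pi), F t := by
    intro a b
    refine IsAddFundamentalDomain.setLIntegral_eq (isAddFundamentalDomain_Ioc hT a)
      (isAddFundamentalDomain_Ioc hT b) F ?_
    intro g x
    exact hF.map_vadd_zmultiples g x
  have hsub : Ioo 0 (4 * Real.pi) ⊆ Ioc 0 (0 + 2 * Real.pi) ∪
      Ioc (2 * Real.pi) (2 * Real.pi + 2 * Real.pi) := by
    intro t ht
    rcases le_or_gt t (2 * Real.pi) with h | h
    · left; exact ⟨ht.1, by linarith⟩
    · right; exact ⟨h, by linarith [ht.2]⟩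
  calc ∫⁻ t in Ioo 0 (4 * Real.pi), F t
      ≤ ∫⁻ t in Ioc 0 (0 + 2 * Real.pi) ∪ Ioc (2 * Real.pi) (2 * Real.pi + 2 * Real.pi), F t :=
        lintegral_mono_set hsub
    _ ≤ (∫⁻ t in Ioc 0 (0 + 2 * Real.pi), F t) +
        ∫⁻ t in Ioc (2 * Real.pi) (2 * Real.pi + 2 * Real.pi), F t := lintegral_union_le _ _ _
    _ = 2 * ∫⁻ t in Ioc (-Real.pi) (-Real.pi + 2 * Real.pi), F t := by
        rw [key 0 (-Real.pi), key (2 * Real.pi) (-Real.pi)]
        exact (two_mul _).symm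
    _ = 2 * ∫⁻ t in Ioo (-Real.pi) Real.pi, F t := by
        have : -Real.pi + 2 * Real.pi = Real.pi := by ring
        rw [this, restrict_Ioo_eq_restrict_Ioc]

/-- Cauchy-Schwarz on a set of finite measure -/
theorem LB_CS {s : Set ℝ} {f : ℝ → ℝ≥0∞} (hf : Measurable f) :
    (∫⁻ t in s, f t) ^ 2 ≤ volume s * ∫⁻ t in s, f t ^ 2 := by
  have h := ENNReal.lintegral_mul_le_Lp_mul_Lq (volume.restrict s)
    (Real.HolderConjugate.two_two) (f := fun _ => 1) (g := f) aemeasurable_const hf.aemeasurable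
  simp only [Pi.mul_apply, one_mul, lintegral_const, Measure.restrict_apply,
    MeasurableSet.univ, univ_inter, ENNReal.rpow_two, one_pow] at h
  calc (∫⁻ t in s, f t) ^ 2 ≤ (volume s ^ (1 / (2:ℝ)) * (∫⁻ t in s, f t ^ 2) ^ (1 / (2:ℝ))) ^ 2 :=
        pow_le_pow_left' h 2
    _ = volume s * ∫⁻ t in s, f t ^ 2 := by
        rw [mul_pow]
        congr 1 <;> rw [← ENNReal.rpow_natCast, ← ENNReal.rpow_mul] <;> norm_num

/-- the logarithmic integral diverges -/
theorem LB_log {c r₁ : ℝ} (hc : 0 < c) (hr₁ : 0 < r₁) :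
    ∫⁻ r in Ioo 0 r₁, ENNReal.ofReal (c * r⁻¹) = ∞ := by
  by_contra hne
  have h1 : IntegrableOn (fun r : ℝ => c * r⁻¹) (Ioo 0 r₁) := by
    refine ⟨by fun_prop, ?_⟩
    rw [hasFiniteIntegral_iff_norm]
    have : ∫⁻ r in Ioo 0 r₁, ENNReal.ofReal ‖c * r⁻¹‖ = ∫⁻ r in Ioo 0 r₁, ENNReal.ofReal (c * r⁻¹) := by
      refine setLIntegral_congr_fun measurableSet_Ioo (fun r hr => ?_)
      have : 0 < c * r⁻¹ := mul_pos hc (inv_pos.2 hr.1)
      simp only [Real.norm_of_nonneg this.le]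
    rw [this]
    exact lt_top_iff_ne_top.2 hne
  have h2 : IntegrableOn (fun r : ℝ => r⁻¹) (Ioo 0 r₁) := by
    have h2' : IntegrableOn (fun r : ℝ => c⁻¹ * (c * r⁻¹)) (Ioo 0 r₁) := h1.const_mul c⁻¹
    refine h2'.congr_fun (fun r _ => ?_) measurableSet_Ioo
    simp only
    rw [← mul_assoc, inv_mul_cancel₀ hc.ne', one_mul]
  have h3 : IntervalIntegrable (fun r : ℝ => r⁻¹) volume 0 r₁ := by
    rw [intervalIntegrable_iff_integrableOn_Ioo_of_le hr₁.le]
    exact h2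
  rw [intervalIntegrable_inv_iff] at h3
  rcases h3 with h3 | h3
  · exact hr₁.ne h3
  · exact h3 left_mem_uIcc

theorem short_circle {Ω : Set ℂ} (hΩ : IsOpen Ω) {u : ℂ → ℂ} (hu : DifferentiableOn ℂ u Ω)
    (hi : InjOn u Ω) (hm : MapsTo u Ω (ball 0 1)) (w₀ : ℂ) {η r₁ : ℝ} (hη : 0 < η) (hr₁ : 0 < r₁) :
    ∃ r, 0 < r ∧ r < r₁ ∧
      (∫⁻ t in {t : ℝ | t ∈ Ioo 0 (4 * Real.pi) ∧ circleMap w₀ r t ∈ Ω},
        ENNReal.ofReal (r * ‖deriv u (circleMap w₀ r t)‖)) ≤ ENNReal.ofReal η := by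
  by_contra hcon
  push Not at hcon
  have hpi := Real.pi_pos
  -- lower bound for the inner integral
  have key : ∀ r ∈ Ioo 0 r₁, ENNReal.ofReal (η ^ 2 / (8 * Real.pi) * r⁻¹) ≤
      ENNReal.ofReal r * ∫⁻ t in Ioo (-Real.pi) Real.pi, LB_G Ω u (circleMap w₀ r t) := by
    intro r hr
    have hr0 : 0 < r := hr.1
    have h1 := hcon r hr.1 hr.2
    set T : Set ℝ := {t : ℝ | t ∈ Ioo 0 (4 * Real.pi) ∧ circleMap w₀ r t ∈ Ω} with hT
    have hTm : MeasurableSet {t : ℝ | circleMap w₀ r t ∈ Ω} :=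
      (hΩ.preimage (continuous_circleMap w₀ r)).measurableSet
    set f : ℝ → ℝ≥0∞ := fun t => ENNReal.ofReal (r * ‖deriv u (circleMap w₀ r t)‖) with hf
    have hfm : Measurable f := by
      have := (measurable_deriv u).comp (continuous_circleMap w₀ r).measurable
      exact ((this.norm).const_mul r).ennreal_ofReal
    have h2 : ENNReal.ofReal (η ^ 2) ≤ (∫⁻ t in T, f t) ^ 2 := by
      rw [ENNReal.ofReal_pow hη.le]
      exact pow_le_pow_left' h1.le 2
    have h3 := LB_CS (s := T) hfm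
    have h4 : volume T ≤ ENNReal.ofReal (4 * Real.pi) := by
      refine (measure_mono (fun t ht => ht.1)).trans ?_
      rw [Real.volume_Ioo, sub_zero]
    have h5 : ∫⁻ t in T, f t ^ 2 = ENNReal.ofReal (r ^ 2) *
        ∫⁻ t in Ioo 0 (4 * Real.pi), LB_G Ω u (circleMap w₀ r t) := by
      have hTe : T = {t : ℝ | circleMap w₀ r t ∈ Ω} ∩ Ioo 0 (4 * Real.pi) := by
        ext t; simp [hT, and_comm]
      rw [← lintegral_const_mul]
      · rw [hTe, ← Measure.restrict_restrict hTm, ← lintegral_indicator hTm]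
        refine lintegral_congr fun t => ?_
        by_cases ht : circleMap w₀ r t ∈ Ω
        · have ht' : t ∈ {t : ℝ | circleMap w₀ r t ∈ Ω} := ht
          rw [indicator_of_mem ht', LB_G, indicator_of_mem ht, hf]
          simp only
          rw [← ENNReal.ofReal_pow (by positivity), mul_pow, ENNReal.ofReal_mul (by positivity)]
        · have ht' : t ∉ {t : ℝ | circleMap w₀ r t ∈ Ω} := ht
          rw [indicator_of_notMem ht', LB_G, indicator_of_notMem ht, mul_zero]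
      · exact (LB_G_meas hΩ u).comp (continuous_circleMap w₀ r).measurable
    have h6 : ∫⁻ t in Ioo 0 (4 * Real.pi), LB_G Ω u (circleMap w₀ r t) ≤
        2 * ∫⁻ t in Ioo (-Real.pi) Real.pi, LB_G Ω u (circleMap w₀ r t) := by
      refine LB_twice (F := fun t => LB_G Ω u (circleMap w₀ r t)) ?_
      intro t
      simp only [periodic_circleMap w₀ r t]
    set A := ∫⁻ t in Ioo (-Real.pi) Real.pi, LB_G Ω u (circleMap w₀ r t) with hA
    have h7 : ENNReal.ofReal (η ^ 2) ≤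
        ENNReal.ofReal (4 * Real.pi) * (ENNReal.ofReal (r ^ 2) * (2 * A)) := by
      refine h2.trans (h3.trans ?_)
      rw [h5]
      gcongr
    have h8 : ENNReal.ofReal (η ^ 2) ≤ ENNReal.ofReal (8 * Real.pi * r) * (ENNReal.ofReal r * A) := by
      refine h7.trans (le_of_eq ?_)
      have e1 : ENNReal.ofReal (8 * Real.pi * r) = ENNReal.ofReal (4 * Real.pi) * 2 * ENNReal.ofReal r := by
        rw [show (2:ℝ≥0∞) = ENNReal.ofReal 2 by simp, ← ENNReal.ofReal_mul (by positivity),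
          ← ENNReal.ofReal_mul (by positivity)]
        congr 1; ring
      have e2 : ENNReal.ofReal (r ^ 2) = ENNReal.ofReal r * ENNReal.ofReal r := by
        rw [sq, ENNReal.ofReal_mul hr0.le]
      rw [e1, e2]; ring
    have hpos : 0 < 8 * Real.pi * r := by positivity
    have e3 : η ^ 2 / (8 * Real.pi) * r⁻¹ = η ^ 2 / (8 * Real.pi * r) := by
      field_simp
    rw [e3, ENNReal.ofReal_div_of_pos hpos]
    refine ENNReal.div_le_of_le_mul ?_
    rw [mul_comm]
    exact h8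
  have h9 : ∫⁻ r in Ioo 0 r₁, ENNReal.ofReal (η ^ 2 / (8 * Real.pi) * r⁻¹) ≤ ENNReal.ofReal Real.pi := by
    calc ∫⁻ r in Ioo 0 r₁, ENNReal.ofReal (η ^ 2 / (8 * Real.pi) * r⁻¹)
        ≤ ∫⁻ r in Ioo 0 r₁, ENNReal.ofReal r *
            ∫⁻ t in Ioo (-Real.pi) Real.pi, LB_G Ω u (circleMap w₀ r t) :=
          setLIntegral_mono' measurableSet_Ioo key
      _ ≤ ∫⁻ r in Ioi 0, ENNReal.ofReal r *
            ∫⁻ t in Ioo (-Real.pi) Real.pi, LB_G Ω u (circleMap w₀ r t) :=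
          lintegral_mono_set (fun r hr => hr.1)
      _ = ∫⁻ z, LB_G Ω u z := LB_polar hΩ u w₀
      _ ≤ ENNReal.ofReal Real.pi := LB_area hΩ hu hi hm
  rw [LB_log (by positivity) hr₁] at h9
  exact absurd h9 (by simp)

end DS
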