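import Pool.Agent.H36.DS.PBase
import Pool.Agent.H36.DS.IA

/-!
PA (side function of a relatively clopen piece of a boundary).  Proof.  `A` and `A' = (frontier R ∩ W) \ A` are
disjoint and relatively closed in `W`; by Urysohn in the (normal) subspace `W` there is
`κ : ℂ → ℝ`, continuous on `W`, values in `[0,1]`, `κ = 1` on `A`, `κ = 0` on `A'`.  Put
`f z = exp (2 π I κ z)` for `z ∈ R` and `f z = 1` for `z ∉ R`.  `f` is continuous on `W`: off `frontier R` clear
(`R` is locally everything or nothing), at points of `A` both expressions tend to `1` (`exp (2πI) = 1`), at points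
of `A'` too (`exp 0 = 1`).  It is nowhere zero; let `L` be a continuous logarithm on `W` (`AllLogs W`).
`N z = round ((κ z * 1_R z - L z / (2πI)).re)`: the number inside is an integer for every `z ∈ W`
(`exp` of `2πI` times it is `1`).  At `z ∈ W \ A` the function `κ * 1_R` is continuous (at `A'` because `κ = 0` there), so
`N` is locally constant.  At `w ∈ A`, for `z` near `w` off the frontier:
`N z - 1_R z = (κ z - 1) * 1_R z - L z / (2πI)` is an integer and close to `- L w / (2πI)`, hence constant.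
-/

namespace DS
open Metric Set Filter Topology

/-- a continuous integer valued function is locally constant -/
lemma PA_locConst {s : Set ℂ} (hs : IsOpen s) {m : ℂ → ℂ} (hm : ContinuousOn m s)
    (hi : ∀ z ∈ s, ∃ n : ℤ, m z = n) {z : ℂ} (hz : z ∈ s) : ∀ᶠ z' in 𝓝 z, m z' = m z := by
  have hc : ContinuousAt m z := hm.continuousAt (hs.mem_nhds hz)
  have h1 : ∀ᶠ z' in 𝓝 z, dist (m z') (m z) < 1 := Metric.tendsto_nhds.1 hc 1 one_pos
  filter_upwards [h1, hs.mem_nhds hz] with z' h h'
  obtain ⟨n, hn⟩ := hi z hz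
  obtain ⟨n', hn'⟩ := hi z' h'
  rw [hn, hn'] at h ⊢
  rw [dist_eq_norm, ← Int.cast_sub, Complex.norm_intCast] at h
  have h2 : |n' - n| < 1 := by exact_mod_cast h
  have h3 : n' - n = 0 := Int.abs_lt_one_iff.1 h2
  have : n' = n := by omega
  rw [this]

open Classical in
theorem side_function {W : Set ℂ} (hW : IsOpen W) (hL : AllLogs W) {R : Set ℂ} (hR : IsClosed R)
    {A : Set ℂ} (hA : A ⊆ frontier R ∩ W) (h1 : ∃ F, IsClosed F ∧ A = F ∩ W)
    (h2 : ∃ F, IsClosed F ∧ (frontier R ∩ W) \ A = F ∩ W) :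
    ∃ N : ℂ → ℤ, (∀ z ∈ W \ A, ∀ᶠ z' in 𝓝 z, N z' = N z) ∧
      ∀ w ∈ A, ∃ c : ℤ, ∀ᶠ z in 𝓝 w, z ∉ frontier R → N z = c + (if z ∈ R then 1 else 0) := by
  obtain ⟨F₁, hF₁, hAF⟩ := h1
  obtain ⟨F₂, hF₂, hAF'⟩ := h2
  -- Urysohn function
  obtain ⟨κ, hκc, hκ1, hκ0⟩ : ∃ κ : ℂ → ℝ, ContinuousOn κ W ∧ (∀ z ∈ A, κ z = 1) ∧
      (∀ z ∈ (frontier R ∩ W) \ A, κ z = 0) := by
    have hd : Disjoint (((↑) : W → ℂ) ⁻¹' F₂) (((↑) : W → ℂ) ⁻¹' F₁) := by
      rw [Set.disjoint_left]
      intro x hx2 hx1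
      have h3 : (x : ℂ) ∈ (frontier R ∩ W) \ A := by rw [hAF']; exact ⟨hx2, x.2⟩
      exact h3.2 (by rw [hAF]; exact ⟨hx1, x.2⟩)
    obtain ⟨g, hg0, hg1, -⟩ := exists_continuous_zero_one_of_isClosed
      (hF₂.preimage continuous_subtype_val) (hF₁.preimage continuous_subtype_val) hd
    refine ⟨fun z => if h : z ∈ W then g ⟨z, h⟩ else 0, ?_, ?_, ?_⟩
    · rw [continuousOn_iff_continuous_domRestrict]
      have : (W.domRestrict fun z => if h : z ∈ W then g ⟨z, h⟩ else 0) = g := by
        funext x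
        simp [Set.domRestrict, x.2]
      rw [this]
      exact g.continuous
    · intro z hz
      have hzW : z ∈ W := (hA hz).2
      have hzF : z ∈ F₁ := by rw [hAF] at hz; exact hz.1
      simp only [hzW, dif_pos]
      exact hg1 (show (⟨z, hzW⟩ : W) ∈ ((↑) : W → ℂ) ⁻¹' F₁ from hzF)
    · intro z hz
      have hzW : z ∈ W := hz.1.2
      have hzF : z ∈ F₂ := by rw [hAF'] at hz; exact hz.1
      simp only [hzW, dif_pos]
      exact hg0 (show (⟨z, hzW⟩ : W) ∈ ((↑) : W → ℂ) ⁻¹' F₂ from hzF)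
  have hπ : (2 * Real.pi * Complex.I : ℂ) ≠ 0 := Complex.two_pi_I_ne_zero
  set f : ℂ → ℂ := R.piecewise (fun z => Complex.exp (2 * Real.pi * Complex.I * (κ z : ℂ))) (fun _ => 1)
    with hf
  have hfc : ContinuousOn f W := by
    refine ContinuousOn.piecewise ?_ ?_ continuousOn_const
    · intro a ha
      by_cases haA : a ∈ A
      · rw [hκ1 a haA]
        simp [Complex.exp_two_pi_mul_I]
      · rw [hκ0 a ⟨⟨ha.2, ha.1⟩, haA⟩]
        simp
    · refine ContinuousOn.cexp (ContinuousOn.mul continuousOn_const ?_)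
      exact Complex.continuous_ofReal.comp_continuousOn (hκc.mono inter_subset_left)
  have hf0 : ∀ z ∈ W, f z ≠ 0 := by
    intro z _
    by_cases hz : z ∈ R
    · simp [hf, Set.piecewise_eq_of_mem _ _ _ hz, Complex.exp_ne_zero]
    · simp [hf, Set.piecewise_eq_of_notMem _ _ _ hz]
  obtain ⟨L, hLc, hLf⟩ := hL f hfc hf0
  set m : ℂ → ℂ := fun z => R.piecewise (fun z => (κ z : ℂ)) (fun _ => 0) z
    - L z / (2 * Real.pi * Complex.I) with hm
  have hmint : ∀ z ∈ W, ∃ n : ℤ, m z = n := by
    intro z hz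
    have h3 : Complex.exp (2 * Real.pi * Complex.I * m z) = 1 := by
      have h4 := hLf z hz
      by_cases hzR : z ∈ R
      · simp only [hf, Set.piecewise_eq_of_mem _ _ _ hzR] at h4
        simp only [hm, Set.piecewise_eq_of_mem _ _ _ hzR]
        rw [mul_sub, mul_div_cancel₀ _ hπ, Complex.exp_sub, h4, div_self (Complex.exp_ne_zero _)]
      · simp only [hf, Set.piecewise_eq_of_notMem _ _ _ hzR] at h4
        simp only [hm, Set.piecewise_eq_of_notMem _ _ _ hzR]
        rw [mul_sub, mul_div_cancel₀ _ hπ, Complex.exp_sub, ← h4]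
        simp
    obtain ⟨n, hn⟩ := Complex.exp_eq_one_iff.1 h3
    refine ⟨n, ?_⟩
    have h5 : 2 * Real.pi * Complex.I * m z = 2 * Real.pi * Complex.I * (n : ℂ) := by
      rw [hn]; ring
    exact mul_left_cancel₀ hπ h5
  have hN : ∀ z ∈ W, ((round (m z).re : ℤ) : ℂ) = m z := by
    intro z hz
    obtain ⟨n, hn⟩ := hmint z hz
    rw [hn]
    simp
  refine ⟨fun z => round (m z).re, ?_, ?_⟩
  · intro z hz
    have hs : IsOpen (W \ A) := by
      have : W \ A = W \ F₁ := by
        rw [hAF]; ext x; simp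
      rw [this]
      exact hW.sdiff hF₁
    have hmc : ContinuousOn m (W \ A) := by
      refine ContinuousOn.sub ?_ (ContinuousOn.div_const (hLc.mono sdiff_subset) _)
      refine ContinuousOn.piecewise ?_ ?_ continuousOn_const
      · intro a ha
        rw [hκ0 a ⟨⟨ha.2, ha.1.1⟩, ha.1.2⟩]
        simp
      · exact Complex.continuous_ofReal.comp_continuousOn
          (hκc.mono (inter_subset_left.trans sdiff_subset))
    filter_upwards [PA_locConst hs hmc (fun z hz => hmint z hz.1) hz] with z' hz'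
    simp only [hz']
  · intro w hw
    have hs : IsOpen (W \ F₂) := hW.sdiff hF₂
    set m' : ℂ → ℂ := fun z => R.piecewise (fun z => (κ z : ℂ) - 1) (fun _ => 0) z
      - L z / (2 * Real.pi * Complex.I) with hm'
    have hmm : ∀ z, m z = m' z + (if z ∈ R then 1 else 0) := by
      intro z
      by_cases hz : z ∈ R
      · simp only [hm, hm', Set.piecewise_eq_of_mem _ _ _ hz, if_pos hz]
        ring
      · simp only [hm, hm', Set.piecewise_eq_of_notMem _ _ _ hz, if_neg hz]
        ring
    have hmc : ContinuousOn m' (W \ F₂) := by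
      refine ContinuousOn.sub ?_ (ContinuousOn.div_const (hLc.mono sdiff_subset) _)
      refine ContinuousOn.piecewise ?_ ?_ continuousOn_const
      · intro a ha
        have haA : a ∈ A := by
          by_contra h
          have : a ∈ (frontier R ∩ W) \ A := ⟨⟨ha.2, ha.1.1⟩, h⟩
          rw [hAF'] at this
          exact ha.1.2 this.1
        rw [hκ1 a haA]
        simp
      · exact (Complex.continuous_ofReal.comp_continuousOn
          (hκc.mono (inter_subset_left.trans sdiff_subset))).sub continuousOn_const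
    have hm'int : ∀ z ∈ W \ F₂, ∃ n : ℤ, m' z = n := by
      intro z hz
      obtain ⟨n, hn⟩ := hmint z hz.1
      have h3 := hmm z
      by_cases hzR : z ∈ R
      · refine ⟨n - 1, ?_⟩
        rw [if_pos hzR, hn] at h3
        push_cast
        rw [h3]; ring
      · refine ⟨n, ?_⟩
        rw [if_neg hzR, hn, add_zero] at h3
        exact h3.symm
    have hwW : w ∈ W \ F₂ := by
      refine ⟨(hA hw).2, fun h => ?_⟩
      have : w ∈ (frontier R ∩ W) \ A := by rw [hAF']; exact ⟨h, (hA hw).2⟩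
      exact this.2 hw
    obtain ⟨c, hc⟩ := hm'int w hwW
    refine ⟨c, ?_⟩
    filter_upwards [PA_locConst hs hmc hm'int hwW, hs.mem_nhds hwW] with z hz hzs _
    have h3 : ((round (m z).re : ℤ) : ℂ) = ((c + (if z ∈ R then 1 else 0) : ℤ) : ℂ) := by
      rw [hN z hzs.1, hmm z, hz, hc]
      push_cast
      rfl
    exact_mod_cast h3

end DS
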