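import Pool.Agent.H36.DS.PBase

/-!
PB.  `ess_const`: define `M z` (`z ∈ W`) as the constant `c` of the hypothesis (unique, because `Eᶜ` is dense);
`M` is locally constant on `W` (for `z'` near `z` the constant at `z'` is also `c`, by density of `Eᶜ`), hence constant
on the preconnected set `W`; and `M z = N z` for `z ∈ W \ E`... careful: for `z ∉ E` the eventual equality includes
`z' = z` itself.
Geometry of rectangles (`a < b`, `c < d`): `frontier_rect`, closedness, and the local structure at a boundary point.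
`local_rect`: take `V = {z | |z.re - w.re| < s ∧ |z.im - w.im| < s}` with `s ≤ ε / 2`, `s < (b-a)/2`, `s < (d-c)/2`
and smaller than the distance of `w` to the vertices of the rectangle if `w` is not a vertex: `V ∩ interior` is
convex; `V \ Rect` is one open half box or the union of two overlapping ones; `V ∩ Bd` is a segment or the union of two
segments with a common end.
-/

namespace DS
open Metric Set Filter Topology

theorem ess_const {W : Set ℂ} (hW : IsOpen W) (hc : IsPreconnected W) {E : Set ℂ} (hE : IsClosed E)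
    (hE' : interior E = ∅) (N : ℂ → ℤ)
    (h : ∀ z ∈ W, ∃ c : ℤ, ∀ᶠ z' in 𝓝 z, z' ∉ E → N z' = c) :
    ∀ z ∈ W \ E, ∀ z' ∈ W \ E, N z = N z' := by
  have hd : Dense Eᶜ := interior_eq_empty_iff_dense_compl.1 hE'
  have huniq : ∀ z : ℂ, ∀ c c' : ℤ, (∀ᶠ z' in 𝓝 z, z' ∉ E → N z' = c) →
      (∀ᶠ z' in 𝓝 z, z' ∉ E → N z' = c') → c = c' := by
    intro z c c' h1 h2
    have h3 : ∃ᶠ z' in 𝓝 z, z' ∈ Eᶜ := mem_closure_iff_frequently.1 (hd z)
    obtain ⟨z', h4, h5, h6⟩ := (h3.and_eventually (h1.and h2)).exists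
    rw [← h5 h4, ← h6 h4]
  choose! M hM using h
  have hcont : ContinuousOn M W := by
    intro z hz
    refine ContinuousAt.continuousWithinAt ?_
    have h1 := (hM z hz).eventually_nhds
    have h2 : ∀ᶠ z' in 𝓝 z, M z' = M z := by
      filter_upwards [h1, hW.mem_nhds hz] with z' h3 h4
      exact huniq z' _ _ (hM z' h4) h3
    exact (continuousAt_const (y := M z)).congr (h2.mono fun _ h => h.symm)
  have hNM : ∀ z ∈ W \ E, M z = N z := fun z hz => ((hM z hz.1).self_of_nhds hz.2).symm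
  intro z hz z' hz'
  rw [← hNM z hz, ← hNM z' hz']
  exact hc.constant hcont hz.1 hz'.1

private theorem rect_eq (a b c d : ℝ) : Rect a b c d = Icc a b ×ℂ Icc c d := by
  ext z
  simp only [Rect, mem_ofPred_eq, Complex.mem_reProdIm, mem_Icc, and_assoc]

private theorem bd_eq (a b c d : ℝ) : Bd a b c d =
    (({a, b} : Set ℝ) ∩ Icc a b) ×ℂ Icc c d ∪ Icc a b ×ℂ (({c, d} : Set ℝ) ∩ Icc c d) := by
  ext z
  simp only [Bd, rect_eq, mem_ofPred_eq, mem_union, Complex.mem_reProdIm, mem_inter_iff,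
    mem_insert_iff, mem_singleton_iff]
  tauto

theorem frontier_rect {a b c d : ℝ} (hab : a < b) (hcd : c < d) :
    frontier (Rect a b c d) = Bd a b c d := by
  rw [rect_eq, Complex.frontier_reProdIm, frontier_Icc hab.le, frontier_Icc hcd.le, closure_Icc,
    closure_Icc, bd_eq, union_comm]
  have h1 : ({a, b} : Set ℝ) ∩ Icc a b = {a, b} := by
    rw [inter_eq_left]
    rintro x (rfl | rfl)
    · exact left_mem_Icc.2 hab.le
    · exact right_mem_Icc.2 hab.le
  have h2 : ({c, d} : Set ℝ) ∩ Icc c d = {c, d} := by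
    rw [inter_eq_left]
    rintro x (rfl | rfl)
    · exact left_mem_Icc.2 hcd.le
    · exact right_mem_Icc.2 hcd.le
  rw [h1, h2]

theorem isClosed_rect (a b c d : ℝ) : IsClosed (Rect a b c d) := by
  rw [rect_eq]
  exact isClosed_Icc.reProdIm isClosed_Icc

private theorem isClosed_pair (a b : ℝ) : IsClosed (({a, b} : Set ℝ) ∩ Icc a b) :=
  (Set.toFinite {a, b}).isClosed.inter isClosed_Icc

theorem isCompact_bd (a b c d : ℝ) : IsCompact (Bd a b c d) := by
  have h1 : IsCompact (Rect a b c d) := by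
    rw [rect_eq]
    exact isCompact_Icc.reProdIm isCompact_Icc
  refine h1.of_isClosed_subset ?_ fun z hz => hz.1
  rw [bd_eq]
  exact ((isClosed_pair a b).reProdIm isClosed_Icc).union
    (isClosed_Icc.reProdIm (isClosed_pair c d))

theorem interior_bd (a b c d : ℝ) : interior (Bd a b c d) = ∅ := by
  have h0 : ∀ x y : ℝ, interior (({x, y} : Set ℝ) ∩ Icc x y) = ∅ := by
    intro x y
    rw [interior_eq_empty_iff_dense_compl]
    exact (((Set.toFinite {x, y}).inter_of_left _).countable).dense_compl ℝ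
  have h1 : interior ((({a, b} : Set ℝ) ∩ Icc a b) ×ℂ Icc c d) = ∅ := by
    rw [Complex.interior_reProdIm, h0]
    ext z
    simp [Complex.mem_reProdIm]
  have h2 : interior (Icc a b ×ℂ (({c, d} : Set ℝ) ∩ Icc c d)) = ∅ := by
    rw [Complex.interior_reProdIm, h0]
    ext z
    simp [Complex.mem_reProdIm]
  rw [bd_eq, interior_union_isClosed_of_interior_empty ((isClosed_pair a b).reProdIm isClosed_Icc) h2,
    h1]

/-- the one-dimensional local structure -/
private theorem one_dim {a b : ℝ} (hab : a < b) {x : ℝ} (hx : x ∈ Icc a b) :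
    ∃ s₀ > 0, ∀ s, 0 < s → s ≤ s₀ →
      ((x = a ∨ x = b) → Ioo (x - s) (x + s) ∩ (({a, b} : Set ℝ) ∩ Icc a b) = {x} ∧
        (Ioo (x - s) (x + s) \ Icc a b).Nonempty) ∧
      (¬ (x = a ∨ x = b) → Ioo (x - s) (x + s) ∩ (({a, b} : Set ℝ) ∩ Icc a b) = ∅ ∧
        Ioo (x - s) (x + s) \ Icc a b = ∅) ∧
      Convex ℝ (Ioo (x - s) (x + s) \ Icc a b) ∧
      (Ioo (x - s) (x + s) ∩ Ioo a b).Nonempty := by
  rcases eq_or_ne x a with rfl | hxa
  · refine ⟨b - x, by linarith, fun s hs hs' => ⟨fun _ => ⟨?_, ?_⟩, fun h => absurd (Or.inl rfl) h, ?_, ?_⟩⟩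
    · ext y
      simp only [mem_inter_iff, mem_Ioo, mem_insert_iff, mem_singleton_iff, mem_Icc]
      constructor
      · rintro ⟨⟨h1, h2⟩, h3 | h3, h4⟩
        · exact h3
        · linarith
      · rintro rfl
        exact ⟨⟨by linarith, by linarith⟩, Or.inl rfl, le_rfl, hab.le⟩
    · exact ⟨x - s / 2, ⟨by linarith, by linarith⟩, fun h => by linarith [h.1]⟩
    · have : Ioo (x - s) (x + s) \ Icc x b = Ioo (x - s) x := by
        ext y
        simp only [Set.mem_sdiff, mem_Ioo, mem_Icc, not_and_or, not_le]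
        constructor
        · rintro ⟨⟨h1, h2⟩, h3 | h3⟩
          · exact ⟨h1, h3⟩
          · linarith
        · rintro ⟨h1, h2⟩
          exact ⟨⟨h1, by linarith⟩, Or.inl h2⟩
      rw [this]
      exact convex_Ioo _ _
    · exact ⟨x + s / 2, ⟨by linarith, by linarith⟩, by linarith, by linarith⟩
  rcases eq_or_ne x b with rfl | hxb
  · refine ⟨x - a, by linarith, fun s hs hs' => ⟨fun _ => ⟨?_, ?_⟩, fun h => absurd (Or.inr rfl) h, ?_, ?_⟩⟩
    · ext y
      simp only [mem_inter_iff, mem_Ioo, mem_insert_iff, mem_singleton_iff, mem_Icc]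
      constructor
      · rintro ⟨⟨h1, h2⟩, h3 | h3, h4⟩
        · linarith
        · exact h3
      · rintro rfl
        exact ⟨⟨by linarith, by linarith⟩, Or.inr rfl, hab.le, le_rfl⟩
    · exact ⟨x + s / 2, ⟨by linarith, by linarith⟩, fun h => by linarith [h.2]⟩
    · have : Ioo (x - s) (x + s) \ Icc a x = Ioo x (x + s) := by
        ext y
        simp only [Set.mem_sdiff, mem_Ioo, mem_Icc, not_and_or, not_le]
        constructor
        · rintro ⟨⟨h1, h2⟩, h3 | h3⟩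
          · linarith
          · exact ⟨h3, h2⟩
        · rintro ⟨h1, h2⟩
          exact ⟨⟨by linarith, h2⟩, Or.inr h1⟩
      rw [this]
      exact convex_Ioo _ _
    · exact ⟨x - s / 2, ⟨by linarith, by linarith⟩, by linarith, by linarith⟩
  have h1 : a < x := lt_of_le_of_ne hx.1 hxa.symm
  have h2 : x < b := lt_of_le_of_ne hx.2 hxb
  refine ⟨min (x - a) (b - x), lt_min (by linarith) (by linarith), fun s hs hs' =>
    ⟨fun h => absurd h (by tauto), fun _ => ⟨?_, ?_⟩, ?_, ?_⟩⟩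
  · have h3 := (le_min_iff.1 hs').1
    have h4 := (le_min_iff.1 hs').2
    ext y
    simp only [mem_inter_iff, mem_Ioo, mem_insert_iff, mem_singleton_iff, mem_Icc, mem_empty_iff_false,
      iff_false]
    rintro ⟨⟨h5, h6⟩, h7 | h7, h8⟩
    · linarith
    · linarith
  · have h3 := (le_min_iff.1 hs').1
    have h4 := (le_min_iff.1 hs').2
    rw [sdiff_eq_empty]
    exact fun y hy => ⟨by linarith [hy.1], by linarith [hy.2]⟩
  · have h3 := (le_min_iff.1 hs').1
    have h4 := (le_min_iff.1 hs').2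
    have : Ioo (x - s) (x + s) \ Icc a b = ∅ := by
      rw [sdiff_eq_empty]
      exact fun y hy => ⟨by linarith [hy.1], by linarith [hy.2]⟩
    rw [this]
    exact convex_empty
  · exact ⟨x, ⟨by linarith, by linarith⟩, h1, h2⟩

private theorem convex_prod {s t : Set ℝ} (hs : Convex ℝ s) (ht : Convex ℝ t) :
    Convex ℝ (s ×ℂ t) := by
  intro z hz w hw p q hp hq hpq
  refine ⟨?_, ?_⟩
  · have := hs hz.1 hw.1 hp hq hpq
    simpa using this
  · have := ht hz.2 hw.2 hp hq hpq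
    simpa using this

/-- connectedness of `A₁ × B ∪ A × B₁` -/
private theorem cross_connected {A A₁ B B₁ : Set ℝ} (hA : Convex ℝ A) (hA₁ : Convex ℝ A₁)
    (hB : Convex ℝ B) (hB₁ : Convex ℝ B₁) (hsA : A₁ ⊆ A) (hsB : B₁ ⊆ B) (hAn : A.Nonempty)
    (hBn : B.Nonempty) (h : A₁.Nonempty ∨ B₁.Nonempty) : IsConnected (A₁ ×ℂ B ∪ A ×ℂ B₁) := by
  rcases A₁.eq_empty_or_nonempty with hA1 | ⟨p, hp⟩
  · have hB1 : B₁.Nonempty := by
      rcases h with h | h
      · rw [hA1] at h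
        exact absurd h not_nonempty_empty
      · exact h
    have h1 : A₁ ×ℂ B ∪ A ×ℂ B₁ = A ×ℂ B₁ := by
      rw [hA1]
      ext z
      simp [Complex.mem_reProdIm]
    rw [h1]
    exact (convex_prod hA hB₁).isConnected (Complex.reProdIm_nonempty.2 ⟨hAn, hB1⟩)
  · rcases B₁.eq_empty_or_nonempty with hB1 | ⟨q, hq⟩
    · have h1 : A₁ ×ℂ B ∪ A ×ℂ B₁ = A₁ ×ℂ B := by
        rw [hB1]
        ext z
        simp [Complex.mem_reProdIm]
      rw [h1]
      exact (convex_prod hA₁ hB).isConnected (Complex.reProdIm_nonempty.2 ⟨⟨p, hp⟩, hBn⟩)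
    · refine IsConnected.union ⟨⟨p, q⟩, ⟨hp, hsB hq⟩, ⟨hsA hp, hq⟩⟩ ?_ ?_
      · exact (convex_prod hA₁ hB).isConnected (Complex.reProdIm_nonempty.2 ⟨⟨p, hp⟩, hBn⟩)
      · exact (convex_prod hA hB₁).isConnected (Complex.reProdIm_nonempty.2 ⟨hAn, ⟨q, hq⟩⟩)

private theorem subset_box {w : ℂ} {s ε : ℝ} (hse : s ≤ ε / 2) :
    Ioo (w.re - s) (w.re + s) ×ℂ Ioo (w.im - s) (w.im + s) ⊆ ball w ε := by
  intro z hz
  rw [Complex.mem_reProdIm] at hz
  obtain ⟨⟨a1, a2⟩, a3, a4⟩ := hz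
  rw [mem_ball, Complex.dist_eq]
  have h3 : |(z - w).re| < s := by
    rw [Complex.sub_re, abs_lt]
    constructor <;> linarith
  have h4 : |(z - w).im| < s := by
    rw [Complex.sub_im, abs_lt]
    constructor <;> linarith
  have h5 := Complex.norm_le_abs_re_add_abs_im (z - w)
  linarith

private theorem box_bd (I J : Set ℝ) (a b c d : ℝ) : I ×ℂ J ∩ Bd a b c d =
    (I ∩ (({a, b} : Set ℝ) ∩ Icc a b)) ×ℂ (J ∩ Icc c d) ∪
    (I ∩ Icc a b) ×ℂ (J ∩ (({c, d} : Set ℝ) ∩ Icc c d)) := by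
  rw [bd_eq]
  ext z
  simp only [mem_inter_iff, mem_union, Complex.mem_reProdIm]
  tauto

private theorem box_int (I J : Set ℝ) (a b c d : ℝ) :
    I ×ℂ J ∩ (Rect a b c d \ Bd a b c d) = (I ∩ Ioo a b) ×ℂ (J ∩ Ioo c d) := by
  ext z
  simp only [Rect, Bd, mem_inter_iff, Set.mem_sdiff, mem_ofPred_eq, Complex.mem_reProdIm, mem_Ioo]
  constructor
  · rintro ⟨⟨h1, h2⟩, ⟨h3, h4, h5, h6⟩, h7⟩
    have h8 : ¬ (z.re = a ∨ z.re = b ∨ z.im = c ∨ z.im = d) := fun h => h7 ⟨⟨h3, h4, h5, h6⟩, h⟩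
    push Not at h8
    obtain ⟨h9, h10, h11, h12⟩ := h8
    exact ⟨⟨h1, lt_of_le_of_ne h3 (Ne.symm h9), lt_of_le_of_ne h4 h10⟩,
      h2, lt_of_le_of_ne h5 (Ne.symm h11), lt_of_le_of_ne h6 h12⟩
  · rintro ⟨⟨h1, h2, h3⟩, h4, h5, h6⟩
    refine ⟨⟨h1, h4⟩, ⟨h2.le, h3.le, h5.le, h6.le⟩, ?_⟩
    rintro ⟨_, h | h | h | h⟩ <;> linarith

private theorem box_ext (I J : Set ℝ) (a b c d : ℝ) :
    I ×ℂ J \ Rect a b c d = (I \ Icc a b) ×ℂ J ∪ I ×ℂ (J \ Icc c d) := by
  rw [rect_eq]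
  ext z
  simp only [Set.mem_sdiff, mem_union, Complex.mem_reProdIm]
  tauto

theorem local_rect {a b c d : ℝ} (hab : a < b) (hcd : c < d) {w : ℂ} (hw : w ∈ Bd a b c d)
    {ε : ℝ} (hε : 0 < ε) : ∃ V ⊆ ball w ε, IsOpen V ∧ w ∈ V ∧
      IsConnected (V ∩ Bd a b c d) ∧ IsConnected (V ∩ (Rect a b c d \ Bd a b c d)) ∧
      IsConnected (V \ Rect a b c d) := by
  obtain ⟨⟨hw1, hw2, hw3, hw4⟩, hw5⟩ := hw
  obtain ⟨s₁, hs₁, H1⟩ := one_dim hab (x := w.re) ⟨hw1, hw2⟩
  obtain ⟨s₂, hs₂, H2⟩ := one_dim hcd (x := w.im) ⟨hw3, hw4⟩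
  obtain ⟨s, hs0, hse, hs1, hs2⟩ : ∃ s, 0 < s ∧ s ≤ ε / 2 ∧ s ≤ s₁ ∧ s ≤ s₂ :=
    ⟨min (ε / 2) (min s₁ s₂), lt_min (by linarith) (lt_min hs₁ hs₂), min_le_left _ _,
      (min_le_right _ _).trans (min_le_left _ _), (min_le_right _ _).trans (min_le_right _ _)⟩
  obtain ⟨x1, x2, x3, x4⟩ := H1 s hs0 hs1
  obtain ⟨y1, y2, y3, y4⟩ := H2 s hs0 hs2
  have hwI : w.re ∈ Ioo (w.re - s) (w.re + s) := mem_Ioo.2 ⟨by linarith, by linarith⟩
  have hwJ : w.im ∈ Ioo (w.im - s) (w.im + s) := mem_Ioo.2 ⟨by linarith, by linarith⟩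
  have hwI2 : w.re ∈ Icc a b := ⟨hw1, hw2⟩
  have hwJ2 : w.im ∈ Icc c d := ⟨hw3, hw4⟩
  have hsub : ∀ (x : ℝ) (a b : ℝ), Convex ℝ (Ioo (x - s) (x + s) ∩ Icc a b) := fun x a b =>
    (convex_Ioo _ _).inter (convex_Icc _ _)
  have h2 : (w.re = a ∨ w.re = b) ∨ (w.im = c ∨ w.im = d) := by
    rcases hw5 with h | h | h | h
    · exact Or.inl (Or.inl h)
    · exact Or.inl (Or.inr h)
    · exact Or.inr (Or.inl h)
    · exact Or.inr (Or.inr h)
  have hcI : Convex ℝ (Ioo (w.re - s) (w.re + s)) := convex_Ioo _ _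
  have hcJ : Convex ℝ (Ioo (w.im - s) (w.im + s)) := convex_Ioo _ _
  have hcI1 : Convex ℝ (Ioo (w.re - s) (w.re + s) ∩ Icc a b) := hsub _ _ _
  have hcJ1 : Convex ℝ (Ioo (w.im - s) (w.im + s) ∩ Icc c d) := hsub _ _ _
  have hcI2 : Convex ℝ (Ioo (w.re - s) (w.re + s) ∩ Ioo a b) := hcI.inter (convex_Ioo _ _)
  have hcJ2 : Convex ℝ (Ioo (w.im - s) (w.im + s) ∩ Ioo c d) := hcJ.inter (convex_Ioo _ _)
  have hoI : IsOpen (Ioo (w.re - s) (w.re + s)) := isOpen_Ioo
  have hoJ : IsOpen (Ioo (w.im - s) (w.im + s)) := isOpen_Ioo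
  have hball := subset_box (w := w) hse
  generalize Ioo (w.re - s) (w.re + s) = I at *
  generalize Ioo (w.im - s) (w.im + s) = J at *
  refine ⟨I ×ℂ J, hball, hoI.reProdIm hoJ, Complex.mem_reProdIm.2 ⟨hwI, hwJ⟩, ?_, ?_, ?_⟩
  · -- the boundary
    rw [box_bd]
    refine cross_connected hcI1 ?_ hcJ1 ?_ ?_ ?_ ⟨w.re, hwI, hwI2⟩ ⟨w.im, hwJ, hwJ2⟩ ?_
    · by_cases h : w.re = a ∨ w.re = b
      · rw [(x1 h).1]; exact convex_singleton _
      · rw [(x2 h).1]; exact convex_empty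
    · by_cases h : w.im = c ∨ w.im = d
      · rw [(y1 h).1]; exact convex_singleton _
      · rw [(y2 h).1]; exact convex_empty
    · exact fun z hz => ⟨hz.1, hz.2.2⟩
    · exact fun z hz => ⟨hz.1, hz.2.2⟩
    · rcases h2 with h2 | h2
      · left; rw [(x1 h2).1]; exact singleton_nonempty _
      · right; rw [(y1 h2).1]; exact singleton_nonempty _
  · -- the interior
    rw [box_int]
    exact (convex_prod hcI2 hcJ2).isConnected (Complex.reProdIm_nonempty.2 ⟨x4, y4⟩)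
  · -- the exterior
    rw [box_ext]
    refine cross_connected hcI x3 hcJ y3 (fun z hz => hz.1) (fun z hz => hz.1) ⟨_, hwI⟩ ⟨_, hwJ⟩ ?_
    rcases h2 with h2 | h2
    · left; exact (x1 h2).2
    · right; exact (y1 h2).2

end DS
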