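import Pool.Agent.H36.DS.PA
import Pool.Agent.H36.DS.PB

/-!
PC (the two sides of a rectangular cross-cut).  Proof.  Let `A = cc W a b c d w`.  For `z ∈ A` let `V z` be a
neighbourhood from `local_rect` inside `W` (`W` open); `V z ∩ Bd` is connected, contained in `Bd ∩ W` and contains
`z`, so it is contained in `A`; in particular `A` is open in `Bd ∩ W`, and so are the other components: `A` and the rest
are relatively closed in `W` (`Bd` is closed).
Let `In = ⋃ z ∈ A, V z ∩ (Rect \ Bd)` and `Out = ⋃ z ∈ A, V z \ Rect`.  They are connected: for `z` fixed the sets for `z'`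
near `z` (`z' ∈ V z ∩ A`) meet the one for `z` (both contain points close to `z'`), and `A` is connected, so any two can
be joined by a chain (use: the relation -- the unions over `A` -- `IsPreconnected` of a union indexed by a connected
set with local overlaps; e.g. the set of `z' ∈ A` whose piece lies in the connected component of the piece of `z` is
open and closed in `A`).
Let `Cin`, `Cout` be the connected components of `W \ A` containing `In`, `Out` (`In`, `Out ⊆ W \ A`).  Open, connected.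
`A ⊆ closure Cin`, `closure Cout`.  Every component `C` of `W \ A` is `Cin` or `Cout`: `C` is open, `C ≠ W` and `W` is
connected, so `C` is not relatively closed in `W`, hence some `z ∈ A` is in `closure C`; `V z ∩ C ≠ ∅`,
`V z ⊆ In ∪ Out ∪ A` (on `V z`: points of `Bd` are in `A`), so `C` meets `Cin` or `Cout`.
Disjoint: take `N` from `side_function` (`R = Rect`, `frontier_rect`): it is locally constant on `W \ A`, hence constant on
`Cin` and on `Cout`, and near a point of `A` its values inside and outside differ by `1`.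
-/

namespace DS
open Metric Set Filter Topology

private theorem PC_near {a b c d : ℝ} (hab : a < b) (hcd : c < d) {z : ℂ} (hz : z ∈ Bd a b c d)
    {U : Set ℂ} (hU : U ∈ 𝓝 z) : (∃ y ∈ U, y ∈ Rect a b c d \ Bd a b c d) ∧
      ∃ y ∈ U, y ∉ Rect a b c d := by
  obtain ⟨ε, hε, hball⟩ := Metric.mem_nhds_iff.1 hU
  obtain ⟨V, hVb, -, -, -, h1, h2⟩ := local_rect hab hcd hz hε
  obtain ⟨y, hy⟩ := h1.nonempty
  obtain ⟨y', hy'⟩ := h2.nonempty
  exact ⟨⟨y, hball (hVb hy.1), hy.2⟩, ⟨y', hball (hVb hy'.1), hy'.2⟩⟩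

private theorem PC_const {N : ℂ → ℤ} {C : Set ℂ} (hC : IsPreconnected C)
    (hN : ∀ z ∈ C, ∀ᶠ z' in 𝓝 z, N z' = N z) {x y : ℂ} (hx : x ∈ C) (hy : y ∈ C) : N x = N y := by
  refine hC.induction₂ (fun a b => N a = N b) (fun z hz => ?_) (fun _ _ _ _ _ _ h1 h2 => h1.trans h2)
    (fun _ _ _ _ h => h.symm) hx hy
  exact (eventually_nhdsWithin_of_eventually_nhds (hN z hz)).mono fun _ h => h.symm

theorem crosscut_sides {W : Set ℂ} (hW : IsOpen W) (hc : IsConnected W) (hL : AllLogs W)
    {a b c d : ℝ} (hab : a < b) (hcd : c < d) {w : ℂ} (hw : w ∈ Bd a b c d ∩ W) :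
    ∃ Cin Cout : Set ℂ, Sides W (cc W a b c d w) Cin Cout ∧
      (∃ F, IsClosed F ∧ cc W a b c d w = F ∩ W) ∧
      (∃ F, IsClosed F ∧ (Bd a b c d ∩ W) \ cc W a b c d w = F ∩ W) ∧
      ∀ z ∈ cc W a b c d w, ∀ᶠ z' in 𝓝 z, z' ∉ Bd a b c d →
        (z' ∈ Rect a b c d → z' ∈ Cin) ∧ (z' ∉ Rect a b c d → z' ∈ Cout) := by
  classical
  set A := cc W a b c d w with hAdef
  have hBdR : Bd a b c d ⊆ Rect a b c d := fun z hz => hz.1
  have hBdc : IsClosed (Bd a b c d) := (isCompact_bd a b c d).isClosed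
  have hAsub : A ⊆ Bd a b c d ∩ W := connectedComponentIn_subset _ _
  have hwA : w ∈ A := mem_connectedComponentIn hw
  have hApre : IsPreconnected A := isPreconnected_connectedComponentIn
  -- local pieces
  have hV : ∀ z ∈ Bd a b c d ∩ W, ∃ V ⊆ W, IsOpen V ∧ z ∈ V ∧
      IsConnected (V ∩ Bd a b c d) ∧ IsConnected (V ∩ (Rect a b c d \ Bd a b c d)) ∧
      IsConnected (V \ Rect a b c d) := by
    intro z hz
    obtain ⟨ε, hε, hball⟩ := Metric.isOpen_iff.1 hW z hz.2
    obtain ⟨V, hVb, h⟩ := local_rect hab hcd hz.1 hε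
    exact ⟨V, hVb.trans hball, h⟩
  choose! V hVW hVo hVz hVB hVi hVe using hV
  have hVsub : ∀ z ∈ Bd a b c d ∩ W, V z ∩ Bd a b c d ⊆ cc W a b c d z := by
    intro z hz
    exact (hVB z hz).isPreconnected.subset_connectedComponentIn ⟨hVz z hz, hz.1⟩
      (fun y hy => ⟨hy.2, hVW z hz hy.1⟩)
  have hVA : ∀ z ∈ A, V z ∩ Bd a b c d ⊆ A := by
    intro z hz
    have h1 := hVsub z (hAsub hz)
    have h2 : A = cc W a b c d z := connectedComponentIn_eq hz
    rw [h2]
    exact h1
  have hVA' : ∀ z ∈ (Bd a b c d ∩ W) \ A, Disjoint (V z ∩ Bd a b c d) A := by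
    intro z hz
    rw [Set.disjoint_left]
    intro y hy hyA
    have h1 := hVsub z hz.1 hy
    have h2 : cc W a b c d z = cc W a b c d y := connectedComponentIn_eq h1
    have h3 : A = cc W a b c d y := connectedComponentIn_eq hyA
    apply hz.2
    rw [h3, ← h2]
    exact mem_connectedComponentIn hz.1
  -- relative closedness
  have hcl1 : A = closure A ∩ W := by
    refine Subset.antisymm (fun z hz => ⟨subset_closure hz, (hAsub hz).2⟩) ?_
    rintro z ⟨hz, hzW⟩
    by_contra hzA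
    have hzB : z ∈ Bd a b c d :=
      closure_minimal (fun y hy => (hAsub hy).1) hBdc hz
    have hz' : z ∈ (Bd a b c d ∩ W) \ A := ⟨⟨hzB, hzW⟩, hzA⟩
    obtain ⟨y, hy1, hy2⟩ := _root_.mem_closure_iff.1 hz (V z) (hVo z hz'.1) (hVz z hz'.1)
    exact Set.disjoint_left.1 (hVA' z hz') ⟨hy1, (hAsub hy2).1⟩ hy2
  have hcl2 : (Bd a b c d ∩ W) \ A = closure ((Bd a b c d ∩ W) \ A) ∩ W := by
    refine Subset.antisymm (fun z hz => ⟨subset_closure hz, hz.1.2⟩) ?_
    rintro z ⟨hz, hzW⟩
    have hzB : z ∈ Bd a b c d :=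
      closure_minimal (fun y hy => hy.1.1) hBdc hz
    refine ⟨⟨hzB, hzW⟩, fun hzA => ?_⟩
    obtain ⟨y, hy1, hy2⟩ := _root_.mem_closure_iff.1 hz (V z) (hVo z ⟨hzB, hzW⟩) (hVz z ⟨hzB, hzW⟩)
    exact hy2.2 (hVA z hzA ⟨hy1, hy2.1.1⟩)
  have hWA : IsOpen (W \ A) := by
    have : W \ A = W ∩ (closure A)ᶜ := by
      ext z
      constructor
      · rintro ⟨h1, h2⟩
        refine ⟨h1, fun h3 => h2 ?_⟩
        rw [hcl1]
        exact ⟨h3, h1⟩
      · rintro ⟨h1, h2⟩
        exact ⟨h1, fun h3 => h2 (subset_closure h3)⟩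
    rw [this]
    exact hW.inter isClosed_closure.isOpen_compl
  -- the pieces `In z`, `Out z`
  have hIn : ∀ z ∈ A, V z ∩ (Rect a b c d \ Bd a b c d) ⊆ W \ A := by
    intro z hz y hy
    exact ⟨hVW z (hAsub hz) hy.1, fun hyA => hy.2.2 (hAsub hyA).1⟩
  have hOut : ∀ z ∈ A, V z \ Rect a b c d ⊆ W \ A := by
    intro z hz y hy
    exact ⟨hVW z (hAsub hz) hy.1, fun hyA => hy.2 (hBdR (hAsub hyA).1)⟩
  have hVnhds : ∀ z ∈ A, V z ∈ 𝓝 z := fun z hz =>
    (hVo z (hAsub hz)).mem_nhds (hVz z (hAsub hz))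
  obtain ⟨p, hp⟩ := (hVi w (hAsub hwA)).nonempty
  obtain ⟨q, hq⟩ := (hVe w (hAsub hwA)).nonempty
  set Cin := connectedComponentIn (W \ A) p with hCin
  set Cout := connectedComponentIn (W \ A) q with hCout
  have hpC : p ∈ W \ A := hIn w hwA hp
  have hqC : q ∈ W \ A := hOut w hwA hq
  -- if a connected piece meets a component it is contained in it
  have hmeet : ∀ (x : ℂ) (S : Set ℂ), IsPreconnected S → S ⊆ W \ A →
      (S ∩ connectedComponentIn (W \ A) x).Nonempty → S ⊆ connectedComponentIn (W \ A) x := by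
    rintro x S hS hSW ⟨y, hyS, hyC⟩
    rw [connectedComponentIn_eq hyC]
    exact hS.subset_connectedComponentIn hyS hSW
  have hInC : ∀ z ∈ A, V z ∩ (Rect a b c d \ Bd a b c d) ⊆ Cin := by
    intro z hz
    have key : (V w ∩ (Rect a b c d \ Bd a b c d) ⊆ Cin ↔
        V z ∩ (Rect a b c d \ Bd a b c d) ⊆ Cin) := by
      refine hApre.induction₂ (fun x y => (V x ∩ (Rect a b c d \ Bd a b c d) ⊆ Cin ↔
        V y ∩ (Rect a b c d \ Bd a b c d) ⊆ Cin)) (fun x hx => ?_)
        (fun _ _ _ _ _ _ h1 h2 => h1.trans h2) (fun _ _ _ _ h => h.symm) hwA hz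
      have h1 : ∀ᶠ y in 𝓝[A] x, y ∈ V x := nhdsWithin_le_nhds (hVnhds x hx)
      have h2 : ∀ᶠ y in 𝓝[A] x, y ∈ A := self_mem_nhdsWithin
      filter_upwards [h1, h2] with y hy1 hy2
      obtain ⟨⟨t, ht1, ht2⟩, -⟩ := PC_near hab hcd (hAsub hy2).1
        (inter_mem ((hVo x (hAsub hx)).mem_nhds hy1) (hVnhds y hy2))
      constructor
      · intro h
        exact hmeet p _ (hVi y (hAsub hy2)).isPreconnected (hIn y hy2)
          ⟨t, ⟨ht1.2, ht2⟩, h ⟨ht1.1, ht2⟩⟩
      · intro h
        exact hmeet p _ (hVi x (hAsub hx)).isPreconnected (hIn x hx)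
          ⟨t, ⟨ht1.1, ht2⟩, h ⟨ht1.2, ht2⟩⟩
    exact key.1 (hmeet p _ (hVi w (hAsub hwA)).isPreconnected (hIn w hwA)
      ⟨p, hp, mem_connectedComponentIn hpC⟩)
  have hOutC : ∀ z ∈ A, V z \ Rect a b c d ⊆ Cout := by
    intro z hz
    have key : (V w \ Rect a b c d ⊆ Cout ↔ V z \ Rect a b c d ⊆ Cout) := by
      refine hApre.induction₂ (fun x y => (V x \ Rect a b c d ⊆ Cout ↔
        V y \ Rect a b c d ⊆ Cout)) (fun x hx => ?_)
        (fun _ _ _ _ _ _ h1 h2 => h1.trans h2) (fun _ _ _ _ h => h.symm) hwA hz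
      have h1 : ∀ᶠ y in 𝓝[A] x, y ∈ V x := nhdsWithin_le_nhds (hVnhds x hx)
      have h2 : ∀ᶠ y in 𝓝[A] x, y ∈ A := self_mem_nhdsWithin
      filter_upwards [h1, h2] with y hy1 hy2
      obtain ⟨-, ⟨t, ht1, ht2⟩⟩ := PC_near hab hcd (hAsub hy2).1
        (inter_mem ((hVo x (hAsub hx)).mem_nhds hy1) (hVnhds y hy2))
      constructor
      · intro h
        exact hmeet q _ (hVe y (hAsub hy2)).isPreconnected (hOut y hy2)
          ⟨t, ⟨ht1.2, ht2⟩, h ⟨ht1.1, ht2⟩⟩
      · intro h
        exact hmeet q _ (hVe x (hAsub hx)).isPreconnected (hOut x hx)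
          ⟨t, ⟨ht1.1, ht2⟩, h ⟨ht1.2, ht2⟩⟩
    exact key.1 (hmeet q _ (hVe w (hAsub hwA)).isPreconnected (hOut w hwA)
      ⟨q, hq, mem_connectedComponentIn hqC⟩)
  -- disjointness
  have hdisj : Disjoint Cin Cout := by
    rw [Set.disjoint_left]
    intro x hx1 hx2
    have hEq : Cin = Cout := by
      rw [hCin, hCout, connectedComponentIn_eq hx1, connectedComponentIn_eq hx2]
    have hfr : frontier (Rect a b c d) = Bd a b c d := frontier_rect hab hcd
    obtain ⟨N, hN1, hN2⟩ := side_function hW hL (isClosed_rect a b c d)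
      (A := A) (by rw [hfr]; exact hAsub) ⟨closure A, isClosed_closure, hcl1⟩
      (by rw [hfr]; exact ⟨_, isClosed_closure, hcl2⟩)
    obtain ⟨k, hk⟩ := hN2 w hwA
    rw [hfr] at hk
    obtain ⟨⟨y, hy1, hy2⟩, ⟨y', hy1', hy2'⟩⟩ := PC_near hab hcd (hAsub hwA).1
      (inter_mem hk (hVnhds w hwA))
    have e1 : N y = k + 1 := by
      have := hy1.1 hy2.2
      rwa [if_pos hy2.1] at this
    have e2 : N y' = k := by
      have := hy1'.1 (fun h => hy2' (hBdR h))
      rwa [if_neg hy2', add_zero] at this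
    have hyC : y ∈ Cin := hInC w hwA ⟨hy1.2, hy2⟩
    have hyC' : y' ∈ Cin := by
      rw [hEq]
      exact hOutC w hwA ⟨hy1'.2, hy2'⟩
    have := PC_const (isPreconnected_connectedComponentIn (F := W \ A) (x := p))
      (fun z hz => hN1 z (connectedComponentIn_subset _ _ hz)) hyC hyC'
    omega
  refine ⟨Cin, Cout, ?_, ⟨closure A, isClosed_closure, hcl1⟩, ⟨_, isClosed_closure, hcl2⟩, ?_⟩
  · refine ⟨hWA.connectedComponentIn, hWA.connectedComponentIn,
      isConnected_connectedComponentIn_iff.2 hpC, isConnected_connectedComponentIn_iff.2 hqC,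
      hdisj, ?_, ?_, ?_⟩
    · apply Subset.antisymm
      · exact union_subset (connectedComponentIn_subset _ _) (connectedComponentIn_subset _ _)
      · intro x hx
        set C := connectedComponentIn (W \ A) x with hC
        have hCo : IsOpen C := hWA.connectedComponentIn
        have hxC : x ∈ C := mem_connectedComponentIn hx
        obtain ⟨z, hzA, hzC⟩ : ∃ z ∈ A, z ∈ closure C := by
          by_contra hcon
          push Not at hcon
          have hsub : W ⊆ C := by
            refine hc.isPreconnected.subset_of_closure_inter_subset hCo ⟨x, hx.1, hxC⟩ ?_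
            rintro y ⟨hy1, hy2⟩
            have hyA : y ∉ A := fun h => hcon y h hy1
            have hyWA : y ∈ W \ A := ⟨hy2, hyA⟩
            obtain ⟨t, ht1, ht2⟩ := _root_.mem_closure_iff.1 hy1 (connectedComponentIn (W \ A) y)
              hWA.connectedComponentIn (mem_connectedComponentIn hyWA)
            rw [hC, connectedComponentIn_eq ht2, ← connectedComponentIn_eq ht1]
            exact mem_connectedComponentIn hyWA
          exact (connectedComponentIn_subset _ _ (hsub hw.2)).2 hwA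
        obtain ⟨y, hy1, hy2⟩ := _root_.mem_closure_iff.1 hzC (V z) (hVo z (hAsub hzA)) (hVz z (hAsub hzA))
        have hyWA : y ∈ W \ A := connectedComponentIn_subset _ _ hy2
        have hyB : y ∉ Bd a b c d := fun h => hyWA.2 (hVA z hzA ⟨hy1, h⟩)
        by_cases hyR : y ∈ Rect a b c d
        · left
          have h1 := hInC z hzA ⟨hy1, hyR, hyB⟩
          rw [hCin, connectedComponentIn_eq h1, ← connectedComponentIn_eq hy2]
          exact hxC
        · right
          have h1 := hOutC z hzA ⟨hy1, hyR⟩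
          rw [hCout, connectedComponentIn_eq h1, ← connectedComponentIn_eq hy2]
          exact hxC
    · intro z hz
      rw [_root_.mem_closure_iff]
      intro o ho hzo
      obtain ⟨⟨y, hy1, hy2⟩, -⟩ := PC_near hab hcd (hAsub hz).1
        (inter_mem (ho.mem_nhds hzo) (hVnhds z hz))
      exact ⟨y, hy1.1, hInC z hz ⟨hy1.2, hy2⟩⟩
    · intro z hz
      rw [_root_.mem_closure_iff]
      intro o ho hzo
      obtain ⟨-, ⟨y, hy1, hy2⟩⟩ := PC_near hab hcd (hAsub hz).1
        (inter_mem (ho.mem_nhds hzo) (hVnhds z hz))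
      exact ⟨y, hy1.1, hOutC z hz ⟨hy1.2, hy2⟩⟩
  · intro z hz
    filter_upwards [hVnhds z hz] with y hy hyB
    exact ⟨fun h => hInC z hz ⟨hy, h, hyB⟩, fun h => hOutC z hz ⟨hy, h⟩⟩

end DS
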