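import Pool.Agent.H36.DS.PC
import Pool.Agent.H36.DS.HA

/-!
PD (existence of a separating component).  Proof.  Notation: `W` is connected (homeomorphic to the disc), open,
`AllLogs W` (`allLogs_of_homeo`).  Choose `ρ` from `L1` with `ε` so small that `φ z ∈ Rect \ Bd` for all `z` in the
disc with `dist z ζ = ρ` (`0` is an interior point of the rectangle) and `ρ < 1`; let `T = {z ∈ ball 0 1 | dist z ζ = ρ}`
(connected, nonempty: an arc), `D = {z ∈ ball 0 1 | dist z ζ < ρ}` (convex).  Fix `z₁ ∈ T` and a path (compact connected set)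
`Γ ⊆ W` from `φ 0` to `φ z₁` (image of a segment).  `Γ ∩ Bd` is compact in `Bd ∩ W` and is covered by the relatively open
components, so it meets only finitely many of them, `A 1, ..., A k`; the rest `A 0 = (Bd ∩ W) \ ⋃ A i` is clopen.
For each `i = 0..k` take `N i` from `side_function`.  `N = ∑ N i - 1_Rect` satisfies the hypothesis of
`ess_const` with `E = Bd` (at a point of `A j` the jump of `N j` cancels that of `1_Rect`, the other `N i` are locally
constant; off `Bd` everything is locally constant).  So `N (φ 0) = N (φ z₁)` (both are off `Bd`), i.e.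
`∑ i, (N i (φ z₁) - N i (φ 0)) = 1`.  `N 0` is locally constant along the connected `Γ ⊆ W \ A 0`, so its term vanishes,
and some `i ≥ 1` has `N i (φ z₁) ≠ N i (φ 0)`; hence `φ z₁` and `φ 0` are in different components of `W \ A i`.
`A i = cc W a b c d w` for a point `w` of it.  It remains to see `Sep`:
`A i ∩ φ '' T = ∅`, so `u '' (A i)` is connected and misses `T`; if it is contained in `D`, then
`ball 0 1 \ D` is connected (see `disc_minus_ball` in HA), contains `0` and `T` and misses `u '' A i`, so `φ 0` and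
`φ z₁` would not be separated.  So `u '' (A i)` misses `D ∪ T`, which is connected; all of `φ '' D` is in the component of
`φ z₁`.
-/

namespace DS
open Metric Set Filter Topology MeasureTheory

/-- A locally constant integer valued function is constant on a preconnected set. -/
theorem PD_locconst {S : Set ℂ} (hS : IsPreconnected S) {f : ℂ → ℤ}
    (hf : ∀ z ∈ S, ∀ᶠ z' in 𝓝 z, f z' = f z) {x y : ℂ} (hx : x ∈ S) (hy : y ∈ S) : f x = f y := by
  refine hS.constant (f := f) (fun z hz => ?_) hx hy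
  have h : ContinuousAt f z := by
    refine (continuousAt_const (y := f z)).congr ?_
    filter_upwards [hf z hz] with z' h using h.symm
  exact h.continuousWithinAt

/-- If the relative boundary of a closed set `R` is a finite disjoint union of relatively closed
pieces, then one of the side functions of the pieces separates a point outside `R` from a point
inside. -/
theorem PD_sum {W : Set ℂ} (hW : IsOpen W) (hc : IsPreconnected W) (hL : AllLogs W)
    {R E : Set ℂ} (hR : IsClosed R) (hE : frontier R = E) (hE' : interior E = ∅)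
    (s : Finset (Set ℂ)) (hd : ∀ A ∈ s, ∀ B ∈ s, A ≠ B → Disjoint A B)
    (hU : ∀ z ∈ E ∩ W, ∃ A ∈ s, z ∈ A) (hsub : ∀ A ∈ s, A ⊆ E ∩ W)
    (hcl : ∀ A ∈ s, ∃ F, IsClosed F ∧ A = F ∩ W) {x y : ℂ} (hx : x ∈ W) (hxR : x ∉ R)
    (hy : y ∈ W) (hyR : y ∈ R) (hyE : y ∉ E) :
    ∃ A ∈ s, ∃ N : ℂ → ℤ, (∀ z ∈ W \ A, ∀ᶠ z' in 𝓝 z, N z' = N z) ∧ N x ≠ N y := by
  classical
  have hEc : IsClosed E := hE ▸ isClosed_frontier
  have key : ∀ A ∈ s, ∃ N : ℂ → ℤ, (∀ z ∈ W \ A, ∀ᶠ z' in 𝓝 z, N z' = N z) ∧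
      ∀ w ∈ A, ∃ c : ℤ, ∀ᶠ z in 𝓝 w, z ∉ frontier R → N z = c + (if z ∈ R then 1 else 0) := by
    intro A hA
    have h2 : ∃ F, IsClosed F ∧ (frontier R ∩ W) \ A = F ∩ W := by
      choose! F hF1 hF2 using hcl
      refine ⟨⋃ B ∈ s.erase A, F B, isClosed_biUnion_finset fun B hB =>
        hF1 B (Finset.mem_of_mem_erase hB), ?_⟩
      ext z
      simp only [hE, Set.mem_sdiff, Set.mem_inter_iff, Set.mem_iUnion, exists_prop]
      constructor
      · rintro ⟨⟨hz1, hz2⟩, hz3⟩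
        obtain ⟨B, hB, hzB⟩ := hU z ⟨hz1, hz2⟩
        refine ⟨⟨B, Finset.mem_erase.2 ⟨fun h => hz3 (h ▸ hzB), hB⟩, ?_⟩, hz2⟩
        rw [hF2 B hB] at hzB
        exact hzB.1
      · rintro ⟨⟨B, hB, hzB⟩, hz2⟩
        have hB' := Finset.mem_erase.1 hB
        have hzB' : z ∈ B := by
          rw [hF2 B hB'.2]
          exact ⟨hzB, hz2⟩
        refine ⟨hsub B hB'.2 hzB', fun hzA => ?_⟩
        exact Set.disjoint_left.1 (hd B hB'.2 A hA hB'.1) hzB' hzA
    have := side_function hW hL hR (A := A) (hE ▸ hsub A hA) (hcl A hA) h2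
    obtain ⟨N, h3, h4⟩ := this
    refine ⟨N, h3, fun w hw => ?_⟩
    obtain ⟨c, hc⟩ := h4 w hw
    refine ⟨c, hc.mono fun z hz hzf => ?_⟩
    rw [hz hzf]
  choose! N hN1 hN2 using key
  by_contra hcon
  push Not at hcon
  have h1 : ∀ A ∈ s, N A x = N A y := fun A hA => hcon A hA (N A) (hN1 A hA)
  have h2 := ess_const hW hc hEc hE' (fun z => ∑ A ∈ s, N A z - (if z ∈ R then 1 else 0)) (by
    intro z hz
    by_cases hzE : z ∈ E
    · obtain ⟨A, hA, hzA⟩ := hU z ⟨hzE, hz⟩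
      obtain ⟨c, hcz⟩ := hN2 A hA z hzA
      refine ⟨c + ∑ B ∈ s.erase A, N B z, ?_⟩
      have h3 : ∀ᶠ z' in 𝓝 z, ∀ B ∈ s.erase A, N B z' = N B z := by
        rw [Filter.eventually_all_finset]
        intro B hB
        have hB' := Finset.mem_erase.1 hB
        exact hN1 B hB'.2 z ⟨hz, fun hzB =>
          Set.disjoint_left.1 (hd B hB'.2 A hA hB'.1) hzB hzA⟩
      filter_upwards [h3, hcz] with z' h3 h4 hz'
      rw [← Finset.add_sum_erase s _ hA, h4 (by rw [hE]; exact hz'), Finset.sum_congr rfl h3]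
      ring
    · refine ⟨∑ A ∈ s, N A z - (if z ∈ R then 1 else 0), ?_⟩
      have h3 : ∀ᶠ z' in 𝓝 z, ∀ B ∈ s, N B z' = N B z := by
        rw [Filter.eventually_all_finset]
        intro B hB
        exact hN1 B hB z ⟨hz, fun hzB => hzE (hsub B hB hzB).1⟩
      have h4 : ∀ᶠ z' in 𝓝 z, (z' ∈ R ↔ z ∈ R) := by
        by_cases hzR : z ∈ R
        · have : z ∈ interior R := by
            by_contra h5
            apply hzE
            rw [← hE, hR.frontier_eq]
            exact ⟨hzR, h5⟩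
          filter_upwards [isOpen_interior.mem_nhds this] with z' hz'
          exact ⟨fun _ => hzR, fun _ => interior_subset hz'⟩
        · filter_upwards [hR.isOpen_compl.mem_nhds hzR] with z' hz'
          exact ⟨fun h => absurd h hz', fun h => absurd h hzR⟩
      filter_upwards [h3, h4] with z' h3 h4 _
      simp only [h4]
      rw [Finset.sum_congr rfl h3]) x ⟨hx, fun h => hxR (by
        rw [← hE, hR.frontier_eq] at h
        exact h.1)⟩ y ⟨hy, hyE⟩
  simp only [if_neg hxR, if_pos hyR] at h2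
  rw [Finset.sum_congr rfl h1] at h2
  omega

/-- A small ball about `0` is contained in the interior of the rectangle. -/
theorem PD_small {a b c d : ℝ} (ha : a < 0) (hb : 0 < b) (hc : c < 0) (hd : 0 < d) :
    ∃ ε > 0, ∀ z : ℂ, ‖z‖ < ε → z ∈ Rect a b c d ∧ z ∉ Bd a b c d := by
  refine ⟨min (min (-a) b) (min (-c) d), by simp [ha, hb, hc, hd], fun z hz => ?_⟩
  simp only [lt_min_iff] at hz
  have h1 := abs_le.1 (Complex.abs_re_le_norm z)
  have h2 := abs_le.1 (Complex.abs_im_le_norm z)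
  refine ⟨⟨by linarith, by linarith, by linarith, by linarith⟩, fun h => ?_⟩
  rcases h.2 with h3 | h3 | h3 | h3 <;> linarith

theorem exists_sep {W : Set ℂ} {φ u G Gi : ℂ → ℂ} {μ : Measure ℂ} {ζ : ℂ} {r₀ : ℝ}
    (H : FixPE W φ u G Gi μ ζ r₀) {a b c d : ℝ} (ha : a < 0) (hb : 0 < b) (hc : c < 0) (hd : 0 < d)
    (h0 : φ 0 ∉ Rect a b c d) :
    ∃ w ∈ Bd a b c d ∩ W, Sep W φ ζ (cc W a b c d w) := by
  classical
  have hWφ : φ '' ball 0 1 = W := by
    ext w
    constructor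
    · rintro ⟨z, hz, rfl⟩
      exact H.φ_maps hz
    · intro hw
      exact ⟨u w, H.u_maps hw, H.φu w hw⟩
  have hball : IsConnected (ball (0:ℂ) 1) :=
    (convex_ball (0:ℂ) 1).isConnected ⟨0, mem_ball_self one_pos⟩
  have hWc : IsConnected W := hWφ ▸ hball.image φ H.φ_cont
  have hL : AllLogs W := allLogs_of_homeo H.φ_cont H.φ_maps H.u_cont H.u_maps H.φu
  have hab : a < b := ha.trans hb
  have hcd : c < d := hc.trans hd
  have h0b : (0:ℂ) ∈ ball (0:ℂ) 1 := mem_ball_self one_pos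
  obtain ⟨ε, hε, hsmall⟩ := PD_small ha hb hc hd
  obtain ⟨ρ, hρ, hρε, hρL⟩ := H.L1 (min ε 1) (lt_min hε one_pos)
  have hρ1 : ρ < 1 := hρε.trans_le (min_le_right _ _)
  have hT : ∀ z ∈ ball (0:ℂ) 1, dist z ζ = ρ → φ z ∈ Rect a b c d ∧ φ z ∉ Bd a b c d :=
    fun z hz hzρ => hsmall _ ((hρL z hz hzρ).trans_le (min_le_left _ _))
  obtain ⟨z₁, hz₁, hz₁ρ⟩ := (arc_connected H.hζ hρ (by linarith)).nonempty
  have hz₁b : z₁ ∈ ball (0:ℂ) 1 := by simpa using hz₁
  obtain ⟨hz₁R, hz₁E⟩ := hT z₁ hz₁b hz₁ρ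
  -- the compact connected set `Γ`
  have hBsub : closedBall (0:ℂ) ‖z₁‖ ⊆ ball 0 1 := closedBall_subset_ball hz₁
  have hΓc : IsCompact (φ '' closedBall (0:ℂ) ‖z₁‖) :=
    (isCompact_closedBall _ _).image_of_continuousOn (H.φ_cont.mono hBsub)
  have hΓp : IsPreconnected (φ '' closedBall (0:ℂ) ‖z₁‖) :=
    (convex_closedBall (0:ℂ) ‖z₁‖).isPreconnected.image φ (H.φ_cont.mono hBsub)
  have hΓW : φ '' closedBall (0:ℂ) ‖z₁‖ ⊆ W := by
    rintro _ ⟨z, hz, rfl⟩
    exact H.φ_maps (hBsub hz)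
  set Γ := φ '' closedBall (0:ℂ) ‖z₁‖ with hΓ
  have h0Γ : φ 0 ∈ Γ := ⟨0, mem_closedBall_self (norm_nonneg _), rfl⟩
  have h1Γ : φ z₁ ∈ Γ := ⟨z₁, by simp, rfl⟩
  -- the components
  have key : ∀ w ∈ Bd a b c d ∩ W, (∃ F, IsClosed F ∧ cc W a b c d w = F ∩ W) ∧
      (∃ F, IsClosed F ∧ (Bd a b c d ∩ W) \ cc W a b c d w = F ∩ W) := by
    intro w hw
    obtain ⟨_, _, _, h1, h2, _⟩ := crosscut_sides H.W_open hWc hL hab hcd hw
    exact ⟨h1, h2⟩
  have key2 : ∀ w ∈ Bd a b c d ∩ W, ∃ F, IsClosed F ∧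
      (Bd a b c d ∩ W) \ cc W a b c d w = F ∩ W := fun w hw => (key w hw).2
  choose! F' hF'1 hF'2 using key2
  have hmem : ∀ w ∈ Bd a b c d ∩ W, w ∈ cc W a b c d w := fun w hw =>
    mem_connectedComponentIn hw
  have hccs : ∀ w, cc W a b c d w ⊆ Bd a b c d ∩ W := fun w => connectedComponentIn_subset _ _
  obtain ⟨t, ht1, ht2⟩ := (hΓc.inter_right (isCompact_bd a b c d).isClosed).elim_nhds_subcover
    (fun w => (F' w)ᶜ) (by
      intro w hw
      have hw' : w ∈ Bd a b c d ∩ W := ⟨hw.2, hΓW hw.1⟩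
      refine (hF'1 w hw').isOpen_compl.mem_nhds fun hwF => ?_
      have : w ∈ F' w ∩ W := ⟨hwF, hw'.2⟩
      rw [← hF'2 w hw'] at this
      exact this.2 (hmem w hw'))
  have ht1' : ∀ w ∈ t, w ∈ Bd a b c d ∩ W := fun w hw => ⟨(ht1 w hw).2, hΓW (ht1 w hw).1⟩
  have ht3 : ∀ x ∈ Γ ∩ Bd a b c d, ∃ w ∈ t, x ∈ cc W a b c d w := by
    intro x hx
    obtain ⟨w, hw, hxw⟩ := Set.mem_iUnion₂.1 (ht2 hx)
    refine ⟨w, hw, ?_⟩
    by_contra hcon
    have : x ∈ (Bd a b c d ∩ W) \ cc W a b c d w := ⟨⟨hx.2, hΓW hx.1⟩, hcon⟩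
    rw [hF'2 w (ht1' w hw)] at this
    exact hxw this.1
  -- the finite family
  set A₀ : Set ℂ := (Bd a b c d ∩ W) \ ⋃ w ∈ t, cc W a b c d w with hA₀
  have hsum := PD_sum H.W_open hWc.isPreconnected hL (isClosed_rect a b c d)
    (frontier_rect hab hcd) (interior_bd a b c d) (insert A₀ (t.image (cc W a b c d)))
    (by
      have hdis : ∀ w ∈ t, Disjoint A₀ (cc W a b c d w) := by
        intro w hw
        rw [Set.disjoint_left]
        intro x hx hxw
        exact hx.2 (Set.mem_biUnion hw hxw)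
      intro A hA B hB hAB
      rw [Finset.mem_insert, Finset.mem_image] at hA hB
      rcases hA with rfl | ⟨w, hw, rfl⟩
      · rcases hB with rfl | ⟨w', hw', rfl⟩
        · exact absurd rfl hAB
        · exact hdis w' hw'
      · rcases hB with rfl | ⟨w', hw', rfl⟩
        · exact (hdis w hw).symm
        · rw [Set.disjoint_left]
          intro x hx hx'
          exact hAB ((connectedComponentIn_eq hx).trans (connectedComponentIn_eq hx').symm))
    (by
      intro z hz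
      by_cases hz2 : z ∈ ⋃ w ∈ t, cc W a b c d w
      · obtain ⟨w, hw, hzw⟩ := Set.mem_iUnion₂.1 hz2
        exact ⟨_, Finset.mem_insert_of_mem (Finset.mem_image_of_mem _ hw), hzw⟩
      · exact ⟨_, Finset.mem_insert_self _ _, hz, hz2⟩)
    (by
      intro A hA
      rw [Finset.mem_insert, Finset.mem_image] at hA
      rcases hA with rfl | ⟨w, hw, rfl⟩
      · exact Set.sdiff_subset
      · exact hccs w)
    (by
      intro A hA
      rw [Finset.mem_insert, Finset.mem_image] at hA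
      rcases hA with rfl | ⟨w, hw, rfl⟩
      · refine ⟨Bd a b c d ∩ ⋂ w ∈ t, F' w, (isCompact_bd a b c d).isClosed.inter
          (isClosed_biInter fun w hw => hF'1 w (ht1' w hw)), ?_⟩
        ext x
        simp only [hA₀, Set.mem_sdiff, Set.mem_inter_iff, Set.mem_iUnion, Set.mem_iInter,
          exists_prop, not_exists, not_and]
        constructor
        · rintro ⟨⟨hx1, hx2⟩, hx3⟩
          refine ⟨⟨hx1, fun w hw => ?_⟩, hx2⟩
          have : x ∈ (Bd a b c d ∩ W) \ cc W a b c d w := ⟨⟨hx1, hx2⟩, hx3 w hw⟩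
          rw [hF'2 w (ht1' w hw)] at this
          exact this.1
        · rintro ⟨⟨hx1, hx3⟩, hx2⟩
          refine ⟨⟨hx1, hx2⟩, fun w hw hxw => ?_⟩
          have : x ∈ F' w ∩ W := ⟨hx3 w hw, hx2⟩
          rw [← hF'2 w (ht1' w hw)] at this
          exact this.2 hxw
      · exact (key w (ht1' w hw)).1)
    (H.φ_maps h0b) h0 (H.φ_maps hz₁b) hz₁R hz₁E
  obtain ⟨A, hA, N, hN, hne⟩ := hsum
  rw [Finset.mem_insert, Finset.mem_image] at hA
  rcases hA with rfl | ⟨w, hw, rfl⟩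
  · refine absurd (PD_locconst hΓp (fun z hz => hN z ⟨hΓW hz, fun hzA => ?_⟩) h0Γ h1Γ) hne
    obtain ⟨w, hw, hzw⟩ := ht3 z ⟨hz, hzA.1.1⟩
    exact hzA.2 (Set.mem_biUnion hw hzw)
  refine ⟨w, ht1' w hw, ?_⟩
  set A := cc W a b c d w with hAdef
  have hAs : A ⊆ Bd a b c d ∩ W := hccs w
  have h0A : φ 0 ∈ W \ A := ⟨H.φ_maps h0b, fun h => h0 (hAs h).1.1⟩
  have hsep : ∀ x ∈ W \ A, N x = N (φ z₁) → x ∉ connectedComponentIn (W \ A) (φ 0) := by
    intro x hx hxN hxc
    apply hne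
    rw [← hxN]
    exact PD_locconst isPreconnected_connectedComponentIn
      (fun z hz => hN z (connectedComponentIn_subset _ _ hz)) (mem_connectedComponentIn h0A) hxc
  have hAp : IsPreconnected (u '' A) :=
    (isPreconnected_connectedComponentIn).image u (H.u_cont.mono fun x hx => (hAs hx).2)
  have hAu : ∀ z ∈ ball (0:ℂ) 1, φ z ∈ A → z ∈ u '' A := fun z hz hzA =>
    ⟨φ z, hzA, H.uφ z hz⟩
  have hAT : ∀ x ∈ A, dist (u x) ζ ≠ ρ := by
    intro x hx hxρ
    have h1 := hT (u x) (H.u_maps (hAs hx).2) hxρ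
    rw [H.φu x (hAs hx).2] at h1
    exact h1.2 (hAs hx).1
  by_cases hcase : ∃ x ∈ A, dist (u x) ζ < ρ
  · -- the case of a component near the boundary point
    exfalso
    obtain ⟨x, hx, hxρ⟩ := hcase
    have hall : ∀ y ∈ A, dist (u y) ζ < ρ := by
      by_contra hcon
      push Not at hcon
      obtain ⟨y, hy, hyρ⟩ := hcon
      have hyρ' : ρ < dist (u y) ζ := lt_of_le_of_ne hyρ (hAT y hy).symm
      have := hAp (ball ζ ρ) (closedBall ζ ρ)ᶜ isOpen_ball isClosed_closedBall.isOpen_compl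
        (by
          rintro _ ⟨v, hv, rfl⟩
          rcases lt_or_gt_of_ne (hAT v hv) with h | h
          · exact Or.inl h
          · exact Or.inr (by simpa using h))
        ⟨u x, ⟨x, hx, rfl⟩, hxρ⟩ ⟨u y, ⟨y, hy, rfl⟩, by simpa using hyρ'⟩
      obtain ⟨v, _, hv1, hv2⟩ := this
      exact hv2 (ball_subset_closedBall hv1)
    have hC := (disc_minus_ball' (p := ζ) hρ.le (by rw [H.hζ]; exact hρ1)).isPreconnected
    have hCs : {z : ℂ | ‖z‖ < 1 ∧ ρ ≤ dist z ζ} ⊆ ball 0 1 := fun z hz => by simpa using hz.1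
    have hφC : IsPreconnected (φ '' {z : ℂ | ‖z‖ < 1 ∧ ρ ≤ dist z ζ}) :=
      hC.image φ (H.φ_cont.mono hCs)
    apply hne
    refine PD_locconst hφC ?_ ⟨0, ⟨by simp, ?_⟩, rfl⟩ ⟨z₁, ⟨hz₁, hz₁ρ.ge⟩, rfl⟩
    · rintro _ ⟨z, hz, rfl⟩
      refine hN _ ⟨H.φ_maps (hCs hz), fun hzA => ?_⟩
      have h1 := hall _ hzA
      rw [H.uφ z (hCs hz)] at h1
      exact absurd hz.2 (not_le.2 h1)
    · rw [dist_comm, dist_zero_right, H.hζ]
      exact hρ1.le
  · push Not at hcase
    refine ⟨h0A, ρ, hρ, fun z hz hzρ => ?_⟩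
    have hnot : ∀ v ∈ ball (0:ℂ) 1 ∩ closedBall ζ ρ, φ v ∉ A := by
      intro v hv hvA
      have h1 := hcase _ hvA
      have h2 := hAT _ hvA
      rw [H.uφ v hv.1] at h1 h2
      exact h2 (le_antisymm hv.2 h1)
    have hS : IsPreconnected (ball (0:ℂ) 1 ∩ closedBall ζ ρ) :=
      ((convex_ball (0:ℂ) 1).inter (convex_closedBall ζ ρ)).isPreconnected
    have hφS := hS.image φ (H.φ_cont.mono Set.inter_subset_left)
    have hzS : z ∈ ball (0:ℂ) 1 ∩ closedBall ζ ρ := ⟨hz, hzρ.le⟩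
    refine ⟨hnot z hzS, hsep _ ⟨H.φ_maps hz, hnot z hzS⟩ ?_⟩
    refine PD_locconst hφS ?_ ⟨z, hzS, rfl⟩ ⟨z₁, ⟨hz₁b, hz₁ρ.le⟩, rfl⟩
    rintro _ ⟨v, hv, rfl⟩
    exact hN _ ⟨H.φ_maps hv.1, hnot v hv⟩

end DS
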