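import Pool.Agent.H36.DS.PBase
import Pool.Agent.H36.DS.HA
import Pool.Agent.H36.DS.IA

/-!
PE.  General facts about `FixPE`.
`fix_conn`, `fix_logs`: `W = φ '' ball 0 1` (by `φu`), use `allLogs_of_homeo`.
`fix_escape`: if `w n ∈ W`, `w n → 0` and `‖u (w n)‖ ≤ 1 - ε`, a subsequence of `u (w n)` tends to some `z ∈ ball 0 1`, so
`w n = φ (u (w n)) → φ z ∈ W`, i.e. `0 ∈ W`, contradiction.
`sep_of_ne`: put `T = {z ∈ ball 0 1 | dist z ζ = ρ}`, `D = {z ∈ ball 0 1 | dist z ζ < ρ}`.  `u '' A` is connected and misses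
`T` (`A ∩ φ '' T = ∅`), so it is contained in `D` or in `{z | ‖z‖ < 1, ρ < dist z ζ}`.  If it is contained in `D`, then
`{z | ‖z‖ < 1 ∧ ρ ≤ dist z ζ}` is connected (`disc_minus_ball'`, `ρ < 1 = ‖ζ‖`), contains `0` and `z₁` and misses
`u '' A`, so its image under `φ` is connected, contained in `W \ A`, and `φ z₁` would be in the component of `φ 0`.
Otherwise `D ∪ T = {z | ‖z‖ < 1 ∧ dist z ζ ≤ ρ}` is convex, misses `u '' A`, and its image is contained in one component of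
`W \ A`, the one of `φ z₁`, which is not the one of `φ 0`.  If `A` is empty the statement is vacuous in the same way.
-/

namespace DS
open Metric Set Filter Topology MeasureTheory

theorem fix_conn {W : Set ℂ} {φ u G Gi : ℂ → ℂ} {μ : Measure ℂ} {ζ : ℂ} {r₀ : ℝ}
    (H : FixPE W φ u G Gi μ ζ r₀) : IsConnected W := by
  have hWφ : φ '' ball 0 1 = W := by
    ext w
    constructor
    · rintro ⟨z, hz, rfl⟩
      exact H.φ_maps hz
    · intro hw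
      exact ⟨u w, H.u_maps hw, H.φu w hw⟩
  have hball : IsConnected (ball (0:ℂ) 1) :=
    (convex_ball (0:ℂ) 1).isConnected ⟨0, mem_ball_self one_pos⟩
  exact hWφ ▸ hball.image φ H.φ_cont

theorem fix_logs {W : Set ℂ} {φ u G Gi : ℂ → ℂ} {μ : Measure ℂ} {ζ : ℂ} {r₀ : ℝ}
    (H : FixPE W φ u G Gi μ ζ r₀) : AllLogs W :=
  allLogs_of_homeo H.φ_cont H.φ_maps H.u_cont H.u_maps H.φu

theorem fix_escape {W : Set ℂ} {φ u G Gi : ℂ → ℂ} {μ : Measure ℂ} {ζ : ℂ} {r₀ : ℝ}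
    (H : FixPE W φ u G Gi μ ζ r₀) : ∀ ε > 0, ∃ r > 0, ∀ w ∈ W, ‖w‖ ≤ r → 1 - ε < ‖u w‖ := by
  intro ε hε
  have hB : closedBall (0:ℂ) (1 - ε) ⊆ ball 0 1 := closedBall_subset_ball (by linarith)
  have hK : IsCompact (φ '' closedBall (0:ℂ) (1 - ε)) :=
    (isCompact_closedBall _ _).image_of_continuousOn (H.φ_cont.mono hB)
  have h0 : (0:ℂ) ∉ φ '' closedBall (0:ℂ) (1 - ε) := by
    rintro ⟨z, hz, hz0⟩
    exact H.zero_notin (hz0 ▸ H.φ_maps (hB hz))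
  obtain ⟨r, hr, hrs⟩ := Metric.isOpen_iff.1 hK.isClosed.isOpen_compl 0 h0
  refine ⟨r / 2, by positivity, fun w hw hwr => ?_⟩
  by_contra hc
  push Not at hc
  have h1 : w ∈ φ '' closedBall (0:ℂ) (1 - ε) :=
    ⟨u w, mem_closedBall_zero_iff.2 hc, H.φu w hw⟩
  exact hrs (mem_ball_zero_iff.2 (by linarith)) h1

theorem sep_of_ne {W : Set ℂ} {φ u G Gi : ℂ → ℂ} {μ : Measure ℂ} {ζ : ℂ} {r₀ : ℝ}
    (H : FixPE W φ u G Gi μ ζ r₀) {A : Set ℂ} (hAW : A ⊆ W) (hA : IsPreconnected A) {ρ : ℝ}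
    (hρ : 0 < ρ) (hρ1 : ρ < 1) (hT : ∀ z ∈ ball (0:ℂ) 1, dist z ζ = ρ → φ z ∉ A) (h0 : φ 0 ∉ A)
    {z₁ : ℂ} (hz₁ : z₁ ∈ ball (0:ℂ) 1) (hz₁' : dist z₁ ζ = ρ)
    (hne : φ z₁ ∉ connectedComponentIn (W \ A) (φ 0)) : Sep W φ ζ A := by
  have h0b : (0:ℂ) ∈ ball (0:ℂ) 1 := mem_ball_self one_pos
  have h0A : φ 0 ∈ W \ A := ⟨H.φ_maps h0b, h0⟩
  have hAp : IsPreconnected (u '' A) := hA.image u (H.u_cont.mono hAW)
  have hAT : ∀ x ∈ A, dist (u x) ζ ≠ ρ := by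
    intro x hx hxρ
    have h1 := hT (u x) (H.u_maps (hAW hx)) hxρ
    rw [H.φu x (hAW hx)] at h1
    exact h1 hx
  by_cases hcase : ∃ x ∈ A, dist (u x) ζ < ρ
  · exfalso
    obtain ⟨x, hx, hxρ⟩ := hcase
    have hall : ∀ y ∈ A, dist (u y) ζ < ρ := by
      by_contra hcon
      push Not at hcon
      obtain ⟨y, hy, hyρ⟩ := hcon
      have hyρ' : ρ < dist (u y) ζ := lt_of_le_of_ne hyρ (hAT y hy).symm
      have := hAp (ball ζ ρ) (closedBall ζ ρ)ᶜ isOpen_ball isClosed_closedBall.isOpen_compl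
        (by
          rintro _ ⟨v, hv, rfl⟩
          rcases lt_or_gt_of_ne (hAT v hv) with h | h
          · exact Or.inl h
          · exact Or.inr (by simpa using h))
        ⟨u x, ⟨x, hx, rfl⟩, hxρ⟩ ⟨u y, ⟨y, hy, rfl⟩, by simpa using hyρ'⟩
      obtain ⟨v, _, hv1, hv2⟩ := this
      exact hv2 (ball_subset_closedBall hv1)
    have hC := (disc_minus_ball' (p := ζ) hρ.le (by rw [H.hζ]; exact hρ1)).isPreconnected
    have hCs : {z : ℂ | ‖z‖ < 1 ∧ ρ ≤ dist z ζ} ⊆ ball 0 1 := fun z hz => by simpa using hz.1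
    have hφC : IsPreconnected (φ '' {z : ℂ | ‖z‖ < 1 ∧ ρ ≤ dist z ζ}) :=
      hC.image φ (H.φ_cont.mono hCs)
    apply hne
    have hsub : φ '' {z : ℂ | ‖z‖ < 1 ∧ ρ ≤ dist z ζ} ⊆ W \ A := by
      rintro _ ⟨z, hz, rfl⟩
      refine ⟨H.φ_maps (hCs hz), fun hzA => ?_⟩
      have h1 := hall _ hzA
      rw [H.uφ z (hCs hz)] at h1
      exact absurd hz.2 (not_le.2 h1)
    refine hφC.subset_connectedComponentIn ⟨0, ⟨by simp, ?_⟩, rfl⟩ hsub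
      ⟨z₁, ⟨by simpa using hz₁, hz₁'.ge⟩, rfl⟩
    rw [dist_comm, dist_zero_right, H.hζ]
    exact hρ1.le
  · push Not at hcase
    refine ⟨h0A, ρ, hρ, fun z hz hzρ => ?_⟩
    have hnot : ∀ v ∈ ball (0:ℂ) 1 ∩ closedBall ζ ρ, φ v ∉ A := by
      intro v hv hvA
      have h1 := hcase _ hvA
      have h2 := hAT _ hvA
      rw [H.uφ v hv.1] at h1 h2
      exact h2 (le_antisymm hv.2 h1)
    have hS : IsPreconnected (ball (0:ℂ) 1 ∩ closedBall ζ ρ) :=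
      ((convex_ball (0:ℂ) 1).inter (convex_closedBall ζ ρ)).isPreconnected
    have hφS := hS.image φ (H.φ_cont.mono Set.inter_subset_left)
    have hzS : z ∈ ball (0:ℂ) 1 ∩ closedBall ζ ρ := ⟨hz, hzρ.le⟩
    have hsub : φ '' (ball (0:ℂ) 1 ∩ closedBall ζ ρ) ⊆ W \ A := by
      rintro _ ⟨v, hv, rfl⟩
      exact ⟨H.φ_maps hv.1, hnot v hv⟩
    refine ⟨hnot z hzS, fun hzc => hne ?_⟩
    rw [connectedComponentIn_eq hzc]
    exact hφS.subset_connectedComponentIn ⟨z, hzS, rfl⟩ hsub ⟨z₁, ⟨hz₁, hz₁'.le⟩, rfl⟩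

end DS
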