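import Pool.Agent.H36.DS.YBase

/-!
YL (explicit form of the corner components).  `corner_exists`: `xs` is the largest element of the compact set
`{x ∈ Icc 0 s | ⟨x, t⟩ ∉ W}` (contains `0`, not `s`), `ys` the largest element of `{y ∈ Icc 0 t | ⟨s, y⟩ ∉ W}`
(contains `0`, not `t`); `W` is open.
`corner_cc`: `Lset` is connected (two segments with the common point `(s,t)`), contained in `Bd a s c t ∩ W` and contains
`(s,t)`.  It is relatively clopen in `Bd a s c t ∩ W`: relatively open because every point of it has a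
neighbourhood in which the points of `Bd a s c t` belong to it; relatively closed because its closure adds only the two
end points, which are not in `W`.  A connected clopen subset containing the point is the component.
`corner_cc'`: the same for `Uset` and the rectangle `Rect s' s c t`.
`clopen_L`, `clopen_U`: the closed sets needed for `side_function` (closure of the set; and `Bd` minus a relatively open
neighbourhood).
-/

namespace DS
open Metric Set Filter Topology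

private theorem YL_cont_re (t : ℝ) : Continuous (fun x : ℝ => (⟨x, t⟩ : ℂ)) := by
  have : (fun x : ℝ => (⟨x, t⟩ : ℂ)) = fun x : ℝ => (x : ℂ) + t * Complex.I := by
    funext x
    apply Complex.ext <;> simp
  rw [this]
  fun_prop

private theorem YL_cont_im (s : ℝ) : Continuous (fun y : ℝ => (⟨s, y⟩ : ℂ)) := by
  have : (fun y : ℝ => (⟨s, y⟩ : ℂ)) = fun y : ℝ => (s : ℂ) + y * Complex.I := by
    funext x
    apply Complex.ext <;> simp
  rw [this]
  fun_prop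

private theorem YL_last {F : Set ℝ} (hF : IsClosed F) {s : ℝ} (hs : 0 < s) (h0 : 0 ∈ F)
    (hsF : s ∉ F) : ∃ x₀, 0 ≤ x₀ ∧ x₀ < s ∧ x₀ ∈ F ∧ ∀ x, x₀ < x → x ≤ s → x ∉ F := by
  have hK : IsCompact (F ∩ Icc 0 s) := isCompact_Icc.inter_left hF
  obtain ⟨x₀, hx₀, hmax⟩ := hK.exists_isGreatest ⟨0, h0, le_rfl, hs.le⟩
  refine ⟨x₀, hx₀.2.1, lt_of_le_of_ne hx₀.2.2 (fun e => hsF (e ▸ hx₀.1)), hx₀.1, ?_⟩
  intro x h1 h2 hx
  exact absurd (hmax ⟨hx, hx₀.2.1.trans h1.le, h2⟩) (not_le.mpr h1)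

theorem corner_exists {W : Set ℂ} (hW : IsOpen W) {s t : ℝ} (hs : 0 < s) (ht : 0 < t)
    (h0t : (⟨0, t⟩ : ℂ) ∉ W) (hs0 : (⟨s, 0⟩ : ℂ) ∉ W) (hst : (⟨s, t⟩ : ℂ) ∈ W) :
    ∃ xs ys, Corner W s t xs ys := by
  have hc1 : IsClosed {x : ℝ | (⟨x, t⟩ : ℂ) ∉ W} :=
    (hW.preimage (YL_cont_re t)).isClosed_compl
  have hc2 : IsClosed {y : ℝ | (⟨s, y⟩ : ℂ) ∉ W} :=
    (hW.preimage (YL_cont_im s)).isClosed_compl
  obtain ⟨xs, h1, h2, h3, h4⟩ := YL_last hc1 hs h0t (fun h => h hst)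
  obtain ⟨ys, h5, h6, h7, h8⟩ := YL_last hc2 ht hs0 (fun h => h hst)
  exact ⟨xs, ys, h1, h2, h5, h6, h3, h7, fun x hx hx' => not_not.mp (h4 x hx hx'),
    fun y hy hy' => not_not.mp (h8 y hy hy')⟩

private theorem YL_closed_rect (a b c d : ℝ) : IsClosed (Rect a b c d) := by
  have e : Rect a b c d = {z : ℂ | a ≤ z.re} ∩ ({z : ℂ | z.re ≤ b} ∩
      ({z : ℂ | c ≤ z.im} ∩ {z : ℂ | z.im ≤ d})) := by
    ext z
    simp [Rect]
  rw [e]
  exact (isClosed_le continuous_const Complex.continuous_re).inter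
    ((isClosed_le Complex.continuous_re continuous_const).inter
      ((isClosed_le continuous_const Complex.continuous_im).inter
        (isClosed_le Complex.continuous_im continuous_const)))

private theorem YL_closed_bd (a b c d : ℝ) : IsClosed (Bd a b c d) := by
  have e : Bd a b c d = Rect a b c d ∩ ({z : ℂ | z.re = a} ∪ ({z : ℂ | z.re = b} ∪
      ({z : ℂ | z.im = c} ∪ {z : ℂ | z.im = d}))) := by
    ext z
    exact Iff.rfl
  rw [e]
  exact (YL_closed_rect a b c d).inter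
    ((isClosed_eq Complex.continuous_re continuous_const).union
      ((isClosed_eq Complex.continuous_re continuous_const).union
        ((isClosed_eq Complex.continuous_im continuous_const).union
          (isClosed_eq Complex.continuous_im continuous_const))))

private theorem YL_closed_hseg (t x₁ x₂ : ℝ) :
    IsClosed {z : ℂ | z.im = t ∧ x₁ ≤ z.re ∧ z.re ≤ x₂} := by
  have e : {z : ℂ | z.im = t ∧ x₁ ≤ z.re ∧ z.re ≤ x₂} = {z : ℂ | z.im = t} ∩
      ({z : ℂ | x₁ ≤ z.re} ∩ {z : ℂ | z.re ≤ x₂}) := by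
    ext z
    simp
  rw [e]
  exact (isClosed_eq Complex.continuous_im continuous_const).inter
    ((isClosed_le continuous_const Complex.continuous_re).inter
      (isClosed_le Complex.continuous_re continuous_const))

private theorem YL_closed_vseg (s y₁ y₂ : ℝ) :
    IsClosed {z : ℂ | z.re = s ∧ y₁ ≤ z.im ∧ z.im ≤ y₂} := by
  have e : {z : ℂ | z.re = s ∧ y₁ ≤ z.im ∧ z.im ≤ y₂} = {z : ℂ | z.re = s} ∩
      ({z : ℂ | y₁ ≤ z.im} ∩ {z : ℂ | z.im ≤ y₂}) := by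
    ext z
    simp
  rw [e]
  exact (isClosed_eq Complex.continuous_re continuous_const).inter
    ((isClosed_le continuous_const Complex.continuous_im).inter
      (isClosed_le Complex.continuous_im continuous_const))

private theorem YL_L_sub {W : Set ℂ} {s t xs ys : ℝ} (h : Corner W s t xs ys) :
    Lset s t xs ys ⊆ W := by
  rintro z (⟨h1, h2, h3⟩ | ⟨h1, h2, h3⟩)
  · have e : z = ⟨z.re, t⟩ := Complex.ext rfl h1
    rw [e]
    exact h.htop _ h2 h3
  · have e : z = ⟨s, z.im⟩ := Complex.ext h1 rfl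
    rw [e]
    exact h.hside _ h2 h3

private theorem YL_U_sub {W : Set ℂ} {s s' t xs ys ys' : ℝ} (h : Corner W s t xs ys)
    (h' : Corner W s' t xs ys') : Uset s' s t ys' ys ⊆ W := by
  rintro z (⟨h1, h2, h3⟩ | ⟨h1, h2, h3⟩ | ⟨h1, h2, h3⟩)
  · have e : z = ⟨z.re, t⟩ := Complex.ext rfl h1
    rw [e]
    exact h.htop _ (lt_of_lt_of_le h'.hxs' h2) h3
  · have e : z = ⟨s, z.im⟩ := Complex.ext h1 rfl
    rw [e]
    exact h.hside _ h2 h3
  · have e : z = ⟨s', z.im⟩ := Complex.ext h1 rfl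
    rw [e]
    exact h'.hside _ h2 h3

private theorem YL_L_bd {W : Set ℂ} {s t xs ys : ℝ} (h : Corner W s t xs ys) {a c : ℝ} (ha : a < 0)
    (hc : c < 0) {z : ℂ} : z ∈ Lset s t xs ys ↔ z ∈ Bd a s c t ∧ xs < z.re ∧ ys < z.im := by
  have e1 := h.hxs
  have e2 := h.hxs'
  have e3 := h.hys
  have e4 := h.hys'
  constructor
  · rintro (⟨h1, h2, h3⟩ | ⟨h1, h2, h3⟩)
    · exact ⟨⟨⟨by linarith, h3, by linarith, h1.le⟩, Or.inr (Or.inr (Or.inr h1))⟩, h2, by linarith⟩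
    · exact ⟨⟨⟨by linarith, h1.le, by linarith, h3⟩, Or.inr (Or.inl h1)⟩, by linarith, h2⟩
  · rintro ⟨⟨⟨h1, h2, h3, h4⟩, h5⟩, h6, h7⟩
    rcases h5 with h5 | h5 | h5 | h5
    · exfalso; linarith
    · exact Or.inr ⟨h5, h7, h4⟩
    · exfalso; linarith
    · exact Or.inl ⟨h5, h6, h2⟩

private theorem YL_pre_h (t : ℝ) {S : Set ℝ} (hS : IsPreconnected S) :
    IsPreconnected {z : ℂ | z.im = t ∧ z.re ∈ S} := by
  have e : {z : ℂ | z.im = t ∧ z.re ∈ S} = (fun x : ℝ => (⟨x, t⟩ : ℂ)) '' S := by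
    ext z
    constructor
    · rintro ⟨h1, h2⟩
      exact ⟨z.re, h2, Complex.ext rfl h1.symm⟩
    · rintro ⟨x, hx, rfl⟩
      exact ⟨rfl, hx⟩
  rw [e]
  exact hS.image _ (YL_cont_re t).continuousOn

private theorem YL_pre_v (s : ℝ) {S : Set ℝ} (hS : IsPreconnected S) :
    IsPreconnected {z : ℂ | z.re = s ∧ z.im ∈ S} := by
  have e : {z : ℂ | z.re = s ∧ z.im ∈ S} = (fun y : ℝ => (⟨s, y⟩ : ℂ)) '' S := by
    ext z
    constructor
    · rintro ⟨h1, h2⟩
      exact ⟨z.im, h2, Complex.ext h1.symm rfl⟩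
    · rintro ⟨x, hx, rfl⟩
      exact ⟨rfl, hx⟩
  rw [e]
  exact hS.image _ (YL_cont_im s).continuousOn

private theorem YL_cc {B W A F₁ F₂ : Set ℂ} {w : ℂ} (hF₁ : IsClosed F₁) (hF₂ : IsClosed F₂)
    (h1 : A = F₁ ∩ W) (h2 : (B ∩ W) \ A = F₂ ∩ W) (hAB : A ⊆ B) (hA : IsPreconnected A)
    (hw : w ∈ A) : connectedComponentIn (B ∩ W) w = A := by
  have hAW : A ⊆ W := by rw [h1]; exact inter_subset_right
  have hABW : A ⊆ B ∩ W := fun z hz => ⟨hAB hz, hAW hz⟩
  apply Subset.antisymm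
  · have hpre : IsPreconnected (connectedComponentIn (B ∩ W) w) :=
      isPreconnected_connectedComponentIn
    have hsub : connectedComponentIn (B ∩ W) w ⊆ B ∩ W := connectedComponentIn_subset _ _
    have hwC : w ∈ connectedComponentIn (B ∩ W) w := mem_connectedComponentIn (hABW hw)
    intro z hz
    by_contra hzA
    have hcov : connectedComponentIn (B ∩ W) w ⊆ F₁ ∪ F₂ := by
      intro y hy
      by_cases hyA : y ∈ A
      · left
        rw [h1] at hyA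
        exact hyA.1
      · right
        have : y ∈ (B ∩ W) \ A := ⟨hsub hy, hyA⟩
        rw [h2] at this
        exact this.1
    have hw1 : w ∈ F₁ := by
      rw [h1] at hw
      exact hw.1
    have hz2 : z ∈ F₂ := by
      have : z ∈ (B ∩ W) \ A := ⟨hsub hz, hzA⟩
      rw [h2] at this
      exact this.1
    obtain ⟨y, hyC, hy1, hy2⟩ := isPreconnected_closed_iff.1 hpre F₁ F₂ hF₁ hF₂ hcov
      ⟨w, hwC, hw1⟩ ⟨z, hz, hz2⟩
    have hyW := (hsub hyC).2
    have hyA : y ∈ A := by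
      rw [h1]
      exact ⟨hy1, hyW⟩
    have hyA' : y ∈ (B ∩ W) \ A := by
      rw [h2]
      exact ⟨hy2, hyW⟩
    exact hyA'.2 hyA
  · exact hA.subset_connectedComponentIn hw hABW

theorem clopen_L {W : Set ℂ} {s t xs ys : ℝ} (h : Corner W s t xs ys) {a c : ℝ} (ha : a < 0)
    (hc : c < 0) : (∃ F, IsClosed F ∧ Lset s t xs ys = F ∩ W) ∧
      (∃ F, IsClosed F ∧ (Bd a s c t ∩ W) \ Lset s t xs ys = F ∩ W) := by
  constructor
  · refine ⟨{z : ℂ | z.im = t ∧ xs ≤ z.re ∧ z.re ≤ s} ∪ {z : ℂ | z.re = s ∧ ys ≤ z.im ∧ z.im ≤ t},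
      (YL_closed_hseg _ _ _).union (YL_closed_vseg _ _ _), ?_⟩
    apply Subset.antisymm
    · intro z hz
      refine ⟨?_, YL_L_sub h hz⟩
      rcases hz with ⟨h1, h2, h3⟩ | ⟨h1, h2, h3⟩
      · exact Or.inl ⟨h1, h2.le, h3⟩
      · exact Or.inr ⟨h1, h2.le, h3⟩
    · rintro z ⟨⟨h1, h2, h3⟩ | ⟨h1, h2, h3⟩, hzW⟩
      · rcases h2.lt_or_eq with h4 | h4
        · exact Or.inl ⟨h1, h4, h3⟩
        · exfalso
          have e : z = ⟨xs, t⟩ := Complex.ext h4.symm h1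
          rw [e] at hzW
          exact h.hx hzW
      · rcases h2.lt_or_eq with h4 | h4
        · exact Or.inr ⟨h1, h4, h3⟩
        · exfalso
          have e : z = ⟨s, ys⟩ := Complex.ext h1 h4.symm
          rw [e] at hzW
          exact h.hy hzW
  · refine ⟨Bd a s c t ∩ ({z : ℂ | z.re ≤ xs} ∪ {z : ℂ | z.im ≤ ys}),
      (YL_closed_bd _ _ _ _).inter ((isClosed_le Complex.continuous_re continuous_const).union
        (isClosed_le Complex.continuous_im continuous_const)), ?_⟩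
    ext z
    constructor
    · rintro ⟨⟨h1, h2⟩, h3⟩
      rw [YL_L_bd h ha hc] at h3
      refine ⟨⟨h1, ?_⟩, h2⟩
      by_contra hcon
      apply h3
      simp only [mem_union, mem_ofPred_eq, not_or, not_le] at hcon
      exact ⟨h1, hcon.1, hcon.2⟩
    · rintro ⟨⟨h1, h2⟩, h3⟩
      refine ⟨⟨h1, h3⟩, ?_⟩
      rw [YL_L_bd h ha hc]
      rintro ⟨-, h4, h5⟩
      rcases h2 with h2 | h2
      · exact absurd h4 (not_lt.mpr h2)
      · exact absurd h5 (not_lt.mpr h2)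

theorem clopen_U {W : Set ℂ} {s s' t xs ys ys' : ℝ} (h : Corner W s t xs ys)
    (h' : Corner W s' t xs ys') (hss : s' < s) {c : ℝ} (hc : c < 0) :
    (∃ F, IsClosed F ∧ Uset s' s t ys' ys = F ∩ W) ∧
      (∃ F, IsClosed F ∧ (Bd s' s c t ∩ W) \ Uset s' s t ys' ys = F ∩ W) := by
  have e3 := h.hys
  have e4 := h.hys'
  have e5 := h'.hys
  have e6 := h'.hys'
  constructor
  · refine ⟨{z : ℂ | z.im = t ∧ s' ≤ z.re ∧ z.re ≤ s} ∪ ({z : ℂ | z.re = s ∧ ys ≤ z.im ∧ z.im ≤ t} ∪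
      {z : ℂ | z.re = s' ∧ ys' ≤ z.im ∧ z.im ≤ t}),
      (YL_closed_hseg _ _ _).union ((YL_closed_vseg _ _ _).union (YL_closed_vseg _ _ _)), ?_⟩
    apply Subset.antisymm
    · intro z hz
      refine ⟨?_, YL_U_sub h h' hz⟩
      rcases hz with ⟨h1, h2, h3⟩ | ⟨h1, h2, h3⟩ | ⟨h1, h2, h3⟩
      · exact Or.inl ⟨h1, h2, h3⟩
      · exact Or.inr (Or.inl ⟨h1, h2.le, h3⟩)
      · exact Or.inr (Or.inr ⟨h1, h2.le, h3⟩)
    · rintro z ⟨⟨h1, h2, h3⟩ | ⟨h1, h2, h3⟩ | ⟨h1, h2, h3⟩, hzW⟩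
      · exact Or.inl ⟨h1, h2, h3⟩
      · rcases h2.lt_or_eq with h4 | h4
        · exact Or.inr (Or.inl ⟨h1, h4, h3⟩)
        · exfalso
          have e : z = ⟨s, ys⟩ := Complex.ext h1 h4.symm
          rw [e] at hzW
          exact h.hy hzW
      · rcases h2.lt_or_eq with h4 | h4
        · exact Or.inr (Or.inr ⟨h1, h4, h3⟩)
        · exfalso
          have e : z = ⟨s', ys'⟩ := Complex.ext h1 h4.symm
          rw [e] at hzW
          exact h'.hy hzW
  · refine ⟨Bd s' s c t ∩ ({z : ℂ | z.re = s ∧ z.im ≤ ys} ∪ ({z : ℂ | z.re = s' ∧ z.im ≤ ys'} ∪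
      {z : ℂ | z.im = c})), (YL_closed_bd _ _ _ _).inter ?_, ?_⟩
    · refine IsClosed.union ?_ (IsClosed.union ?_
        (isClosed_eq Complex.continuous_im continuous_const))
      · exact (isClosed_eq Complex.continuous_re continuous_const).inter
          (isClosed_le Complex.continuous_im continuous_const)
      · exact (isClosed_eq Complex.continuous_re continuous_const).inter
          (isClosed_le Complex.continuous_im continuous_const)
    · ext z
      constructor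
      · rintro ⟨⟨h1, h2⟩, h3⟩
        refine ⟨⟨h1, ?_⟩, h2⟩
        have hR := h1.1
        rcases h1.2 with h4 | h4 | h4 | h4
        · right; left
          refine ⟨h4, ?_⟩
          by_contra hcon
          exact h3 (Or.inr (Or.inr ⟨h4, not_le.mp hcon, hR.2.2.2⟩))
        · left
          refine ⟨h4, ?_⟩
          by_contra hcon
          exact h3 (Or.inr (Or.inl ⟨h4, not_le.mp hcon, hR.2.2.2⟩))
        · exact Or.inr (Or.inr h4)
        · exact absurd (Or.inl ⟨h4, hR.1, hR.2.1⟩) h3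
      · rintro ⟨⟨h1, h2⟩, h3⟩
        refine ⟨⟨h1, h3⟩, ?_⟩
        rintro (⟨h4, h5, h6⟩ | ⟨h4, h5, h6⟩ | ⟨h4, h5, h6⟩)
        · rcases h2 with ⟨h7, h8⟩ | ⟨h7, h8⟩ | h7
          · linarith
          · linarith
          · have h7' : z.im = c := h7
            linarith
        · rcases h2 with ⟨h7, h8⟩ | ⟨h7, h8⟩ | h7
          · linarith
          · linarith
          · have h7' : z.im = c := h7
            linarith
        · rcases h2 with ⟨h7, h8⟩ | ⟨h7, h8⟩ | h7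
          · linarith
          · linarith
          · have h7' : z.im = c := h7
            linarith

theorem corner_cc {W : Set ℂ} {s t xs ys : ℝ} (h : Corner W s t xs ys) {a c : ℝ} (ha : a < 0)
    (hc : c < 0) : cc W a s c t ⟨s, t⟩ = Lset s t xs ys := by
  obtain ⟨⟨F₁, hF₁, e₁⟩, ⟨F₂, hF₂, e₂⟩⟩ := clopen_L h ha hc
  refine YL_cc hF₁ hF₂ e₁ e₂ (fun z hz => ((YL_L_bd h ha hc).1 hz).1) ?_
    (Or.inl ⟨rfl, h.hxs', le_rfl⟩)
  exact IsPreconnected.union (s := {z : ℂ | z.im = t ∧ z.re ∈ Ioc xs s})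
    (t := {z : ℂ | z.re = s ∧ z.im ∈ Ioc ys t}) (⟨s, t⟩ : ℂ)
    ⟨rfl, h.hxs', le_rfl⟩ ⟨rfl, h.hys', le_rfl⟩ (YL_pre_h t isPreconnected_Ioc)
    (YL_pre_v s isPreconnected_Ioc)

theorem corner_cc' {W : Set ℂ} {s s' t xs ys ys' : ℝ} (h : Corner W s t xs ys)
    (h' : Corner W s' t xs ys') (hss : s' < s) {c : ℝ} (hc : c < 0) :
    cc W s' s c t ⟨s, t⟩ = Uset s' s t ys' ys := by
  obtain ⟨⟨F₁, hF₁, e₁⟩, ⟨F₂, hF₂, e₂⟩⟩ := clopen_U h h' hss hc
  have e3 := h.hys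
  have e4 := h.hys'
  have e5 := h'.hys
  have e6 := h'.hys'
  refine YL_cc hF₁ hF₂ e₁ e₂ ?_ ?_ (Or.inl ⟨rfl, hss.le, le_rfl⟩)
  · rintro z (⟨h1, h2, h3⟩ | ⟨h1, h2, h3⟩ | ⟨h1, h2, h3⟩)
    · exact ⟨⟨h2, h3, by linarith, h1.le⟩, Or.inr (Or.inr (Or.inr h1))⟩
    · exact ⟨⟨by linarith, h1.le, by linarith, h3⟩, Or.inr (Or.inl h1)⟩
    · exact ⟨⟨h1.ge, by linarith, by linarith, h3⟩, Or.inl h1⟩
  · have hp := (YL_pre_v s (isPreconnected_Ioc (a := ys) (b := t)))
    have hp' := (YL_pre_v s' (isPreconnected_Ioc (a := ys') (b := t)))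
    have hq := IsPreconnected.union (s := {z : ℂ | z.im = t ∧ z.re ∈ Icc s' s})
      (t := {z : ℂ | z.re = s ∧ z.im ∈ Ioc ys t}) (⟨s, t⟩ : ℂ)
      ⟨rfl, hss.le, le_rfl⟩ ⟨rfl, h.hys', le_rfl⟩ (YL_pre_h t isPreconnected_Icc) hp
    have hq' := IsPreconnected.union (s := {z : ℂ | z.im = t ∧ z.re ∈ Icc s' s} ∪
        {z : ℂ | z.re = s ∧ z.im ∈ Ioc ys t}) (t := {z : ℂ | z.re = s' ∧ z.im ∈ Ioc ys' t})
        (⟨s', t⟩ : ℂ) (Or.inl ⟨rfl, le_rfl, hss.le⟩) ⟨rfl, h'.hys', le_rfl⟩ hq hp'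
    have e : Uset s' s t ys' ys = ({z : ℂ | z.im = t ∧ z.re ∈ Icc s' s} ∪
        {z : ℂ | z.re = s ∧ z.im ∈ Ioc ys t}) ∪ {z : ℂ | z.re = s' ∧ z.im ∈ Ioc ys' t} := by
      ext z
      simp only [Uset, mem_union, mem_ofPred_eq, mem_Icc, mem_Ioc, or_assoc]
    rw [e]
    exact hq'

end DS
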