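import Pool.Agent.H36.DS.PC
import Pool.Agent.H36.DS.PE
import Pool.Agent.H36.DS.YL

/-!
PI (splitting a separating L-shaped set).  Proof.  Let `A = Lset s t xs ys`, `A' = Lset s' t xs ys'`,
`Y = Uset s' s t ys' ys`, `R = Rect a s c t`, `R' = Rect a s' c t`, `R'' = Rect s' s c t`; take the functions `N`, `N'`, `N''` of
`side_function` for `(R, A)`, `(R', A')`, `(R'', Y)` (`fix_logs`, `frontier_rect`, `clopen_L`, `clopen_U`).
The function `M = N' + N'' - N` satisfies the hypothesis of `ess_const` with `E = Bd a s c t ∪ Bd a s' c t ∪ Bd s' s c t`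
(closed, empty interior: contained in six lines).  Indeed for `z ∈ W`: if `z ∉ A ∪ A' ∪ Y` all three are constant near `z`.
For points of the three sets (explicit): `re z < s'`: `z ∈ A ↔ z ∈ A'`, `z ∉ Y`, and near `z` membership in `R` and in `R'` are
the same; `re z > s'`: `z ∈ A ↔ z ∈ Y`, `z ∉ A'`, near `z` membership in `R` and in `R''` are the same;
`re z = s'`, `im z < t`: `z ∉ A`, `z ∈ A' ↔ z ∈ Y`, and near `z`, off `E`, exactly one of `z ∈ R'`, `z ∈ R''` holds;
`z = (s', t)`: in all three sets, and near `z`, off `E`, `1_{R'} + 1_{R''} = 1_R`.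
Let `M₀` be the component of `φ 0` in `W \ A`.  Take `ρ < 1` from `L1` with `‖φ z‖ < ε` on
`T = {z ∈ ball 0 1 | dist z ζ = ρ}`, `ε` smaller than `-a`, `s'`, `-c`, `t` and `ρ` smaller than the number in `hsep`'s definition: so
`φ '' T` misses `E` and for `z₁ ∈ T` (`arc_connected`: nonempty) `φ z₁ ∉ A`, `φ z₁ ∉ M₀`.
`N (φ z₁) ≠ N (φ 0)`: by `crosscut_sides` (with `corner_cc`) the two sides of `A`: `φ 0` is in one and `φ z₁` in the other (each
side is a component of `W \ A`); `N` is constant on each side (locally constant on `W \ A`), and near a point of `A` the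
values on the two sides differ by `1`.
So `N' (φ z₁) ≠ N' (φ 0)` or `N'' (φ z₁) ≠ N'' (φ 0)`; as `N'` is locally constant on `W \ A'`, in the first case `φ z₁` is not
in the component of `φ 0` in `W \ A'` and `sep_of_ne` applies; similarly for `Y`.
-/

namespace DS
open Metric Set Filter Topology MeasureTheory

private theorem PI_const {N : ℂ → ℤ} {C : Set ℂ} (hC : IsPreconnected C)
    (hN : ∀ z ∈ C, ∀ᶠ z' in 𝓝 z, N z' = N z) {x y : ℂ} (hx : x ∈ C) (hy : y ∈ C) : N x = N y := by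
  refine hC.induction₂ (fun a b => N a = N b) (fun z hz => ?_) (fun _ _ _ _ _ _ h1 h2 => h1.trans h2)
    (fun _ _ _ _ h => h.symm) hx hy
  exact (eventually_nhdsWithin_of_eventually_nhds (hN z hz)).mono fun _ h => h.symm

private theorem PI_re_lt {z : ℂ} {b : ℝ} (h : z.re < b) : ∀ᶠ z' in 𝓝 z, z'.re < b :=
  (isOpen_Iio.preimage Complex.continuous_re).mem_nhds h

private theorem PI_lt_re {z : ℂ} {b : ℝ} (h : b < z.re) : ∀ᶠ z' in 𝓝 z, b < z'.re :=
  (isOpen_Ioi.preimage Complex.continuous_re).mem_nhds h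

private theorem PI_im_lt {z : ℂ} {b : ℝ} (h : z.im < b) : ∀ᶠ z' in 𝓝 z, z'.im < b :=
  (isOpen_Iio.preimage Complex.continuous_im).mem_nhds h

private theorem PI_lt_im {z : ℂ} {b : ℝ} (h : b < z.im) : ∀ᶠ z' in 𝓝 z, b < z'.im :=
  (isOpen_Ioi.preimage Complex.continuous_im).mem_nhds h

open Classical in
/-- the geometric part -/
private theorem PI_geo {a c s s' t xs ys ys' : ℝ} (ha : a < 0) (hc : c < 0) (hxs : 0 ≤ xs)
    (hxs' : xs < s') (hys' : 0 ≤ ys') (hss : s' < s) (hct : c < t) (z : ℂ) :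
    ∃ k : ℤ, ∀ᶠ z' in 𝓝 z, z' ∉ Bd a s c t → z' ∉ Bd a s' c t → z' ∉ Bd s' s c t →
      (if z ∈ Lset s' t xs ys' then (if z' ∈ Rect a s' c t then (1:ℤ) else 0) else 0) +
      (if z ∈ Uset s' s t ys' ys then (if z' ∈ Rect s' s c t then (1:ℤ) else 0) else 0) -
      (if z ∈ Lset s t xs ys then (if z' ∈ Rect a s c t then (1:ℤ) else 0) else 0) = k := by
  rcases lt_trichotomy z.re s' with hlt | heq | hgt
  · -- left of `s'`
    have hY : z ∉ Uset s' s t ys' ys := by
      rintro (⟨-, h1, -⟩ | ⟨h1, -⟩ | ⟨h1, -⟩) <;> linarith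
    have hA : z ∈ Lset s t xs ys ↔ z ∈ Lset s' t xs ys' := by
      constructor
      · rintro (⟨h1, h2, h3⟩ | ⟨h1, -⟩)
        · exact Or.inl ⟨h1, h2, hlt.le⟩
        · linarith
      · rintro (⟨h1, h2, h3⟩ | ⟨h1, -⟩)
        · exact Or.inl ⟨h1, h2, by linarith⟩
        · linarith
    refine ⟨0, ?_⟩
    filter_upwards [PI_re_lt hlt] with z' hz' _ _ _
    have hR : z' ∈ Rect a s c t ↔ z' ∈ Rect a s' c t := by
      constructor
      · rintro ⟨h1, h2, h3, h4⟩
        exact ⟨h1, hz'.le, h3, h4⟩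
      · rintro ⟨h1, h2, h3, h4⟩
        exact ⟨h1, by linarith, h3, h4⟩
    simp only [if_neg hY, hA, hR]
    ring
  · -- on the line
    have hA : z ∈ Lset s t xs ys ↔ z.im = t := by
      constructor
      · rintro (⟨h1, h2, h3⟩ | ⟨h1, -⟩)
        · exact h1
        · linarith
      · intro h1
        exact Or.inl ⟨h1, by linarith, by linarith⟩
    have hYA : z ∈ Uset s' s t ys' ys ↔ z ∈ Lset s' t xs ys' := by
      constructor
      · rintro (⟨h1, -, -⟩ | ⟨h1, -⟩ | ⟨h1, h2, h3⟩)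
        · exact Or.inl ⟨h1, by linarith, heq.le⟩
        · linarith
        · exact Or.inr ⟨h1, h2, h3⟩
      · rintro (⟨h1, -, -⟩ | ⟨h1, h2, h3⟩)
        · exact Or.inl ⟨h1, heq.ge, by linarith⟩
        · exact Or.inr (Or.inr ⟨h1, h2, h3⟩)
    by_cases hz : z ∈ Lset s' t xs ys'
    · have hzc : c < z.im := by
        rcases hz with ⟨h1, -, -⟩ | ⟨-, h2, -⟩
        · linarith
        · linarith
      have hzt : z.im ≤ t := by
        rcases hz with ⟨h1, -, -⟩ | ⟨-, -, h3⟩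
        · exact h1.le
        · exact h3
      rcases hzt.lt_or_eq with him | him
      · refine ⟨1, ?_⟩
        have hzA : z ∉ Lset s t xs ys := fun h => by linarith [hA.1 h]
        filter_upwards [PI_im_lt him, PI_lt_im hzc, PI_re_lt (show z.re < s by linarith),
          PI_lt_re (show a < z.re by linarith)] with z' g1 g2 g3 g4 e1 e2 e3
        have hne : z'.re ≠ s' := by
          intro h1
          exact e2 ⟨⟨g4.le, h1.le, g2.le, g1.le⟩, Or.inr (Or.inl h1)⟩
        rw [if_pos hz, if_pos (hYA.2 hz), if_neg hzA]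
        rcases lt_or_gt_of_ne hne with h1 | h1
        · rw [if_pos ⟨g4.le, h1.le, g2.le, g1.le⟩, if_neg (fun h => by linarith [h.1])]
          ring
        · rw [if_neg (fun h => by linarith [h.2.1]), if_pos ⟨h1.le, g3.le, g2.le, g1.le⟩]
          ring
      · refine ⟨0, ?_⟩
        filter_upwards [PI_lt_im hzc, PI_re_lt (show z.re < s by linarith),
          PI_lt_re (show a < z.re by linarith)] with z' g2 g3 g4 e1 e2 e3
        rw [if_pos hz, if_pos (hYA.2 hz), if_pos (hA.2 him)]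
        rcases le_or_gt z'.im t with g1 | g1
        · have hne : z'.re ≠ s' := by
            intro h1
            exact e2 ⟨⟨g4.le, h1.le, g2.le, g1⟩, Or.inr (Or.inl h1)⟩
          rcases lt_or_gt_of_ne hne with h1 | h1
          · rw [if_pos ⟨g4.le, h1.le, g2.le, g1⟩, if_neg (fun h => by linarith [h.1]),
              if_pos ⟨g4.le, g3.le, g2.le, g1⟩]
            ring
          · rw [if_neg (fun h => by linarith [h.2.1]), if_pos ⟨h1.le, g3.le, g2.le, g1⟩,
              if_pos ⟨g4.le, g3.le, g2.le, g1⟩]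
            ring
        · rw [if_neg (fun h => by linarith [h.2.2.2]), if_neg (fun h => by linarith [h.2.2.2]),
            if_neg (fun h => by linarith [h.2.2.2])]
          ring
    · refine ⟨0, Eventually.of_forall fun z' _ _ _ => ?_⟩
      have hzA : z ∉ Lset s t xs ys := by
        intro h1
        exact hz (Or.inl ⟨hA.1 h1, by linarith, heq.le⟩)
      rw [if_neg hz, if_neg (fun h1 => hz (hYA.1 h1)), if_neg hzA]
      ring
  · -- right of `s'`
    have hA' : z ∉ Lset s' t xs ys' := by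
      rintro (⟨-, -, h1⟩ | ⟨h1, -⟩) <;> linarith
    have hA : z ∈ Lset s t xs ys ↔ z ∈ Uset s' s t ys' ys := by
      constructor
      · rintro (⟨h1, h2, h3⟩ | ⟨h1, h2, h3⟩)
        · exact Or.inl ⟨h1, hgt.le, h3⟩
        · exact Or.inr (Or.inl ⟨h1, h2, h3⟩)
      · rintro (⟨h1, h2, h3⟩ | ⟨h1, h2, h3⟩ | ⟨h1, -⟩)
        · exact Or.inl ⟨h1, by linarith, h3⟩
        · exact Or.inr ⟨h1, h2, h3⟩
        · linarith
    refine ⟨0, ?_⟩
    filter_upwards [PI_lt_re hgt] with z' hz' _ _ _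
    have hR : z' ∈ Rect a s c t ↔ z' ∈ Rect s' s c t := by
      constructor
      · rintro ⟨h1, h2, h3, h4⟩
        exact ⟨hz'.le, h2, h3, h4⟩
      · rintro ⟨h1, h2, h3, h4⟩
        exact ⟨by linarith, h2, h3, h4⟩
    simp only [if_neg hA', hA, hR]
    ring

open Classical in
/-- the side function near an arbitrary point -/
private theorem PI_side {W A R B : Set ℂ} {N : ℂ → ℤ}
    (h1 : ∀ z ∈ W \ A, ∀ᶠ z' in 𝓝 z, N z' = N z)
    (h2 : ∀ w ∈ A, ∃ c : ℤ, ∀ᶠ z in 𝓝 w, z ∉ B → N z = c + (if z ∈ R then 1 else 0))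
    {z : ℂ} (hz : z ∈ W) : ∃ k : ℤ, ∀ᶠ z' in 𝓝 z, z' ∉ B →
      N z' = k + (if z ∈ A then (if z' ∈ R then (1:ℤ) else 0) else 0) := by
  by_cases hzA : z ∈ A
  · obtain ⟨k, hk⟩ := h2 z hzA
    refine ⟨k, hk.mono fun z' hz' hB => ?_⟩
    rw [if_pos hzA]
    exact hz' hB
  · refine ⟨N z, (h1 z ⟨hz, hzA⟩).mono fun z' hz' _ => ?_⟩
    rw [if_neg hzA, add_zero]
    exact hz'

theorem sep_add {W : Set ℂ} {φ u G Gi : ℂ → ℂ} {μ : Measure ℂ} {ζ : ℂ} {r₀ : ℝ}
    (H : FixPE W φ u G Gi μ ζ r₀) {a c s s' t xs ys ys' : ℝ} (ha : a < 0) (hc : c < 0)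
    (h : Corner W s t xs ys) (h' : Corner W s' t xs ys') (hss : s' < s)
    (h0 : φ 0 ∉ Rect a s c t) (hsep : Sep W φ ζ (Lset s t xs ys)) :
    Sep W φ ζ (Lset s' t xs ys') ∨ Sep W φ ζ (Uset s' s t ys' ys) := by
  classical
  have hWo := H.W_open
  have hWc := fix_conn H
  have hWL := fix_logs H
  have hxs := h.hxs
  have hxs' := h'.hxs'
  have hys := h.hys
  have hyt := h.hys'
  have hys' := h'.hys
  have hs'0 : 0 < s' := by linarith
  have has : a < s := by linarith
  have has' : a < s' := by linarith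
  have hct : c < t := by linarith
  have e1 := corner_cc h ha hc
  have e2 := corner_cc h' ha hc
  have e3 := corner_cc' h h' hss hc
  have s1 : Lset s t xs ys ⊆ Bd a s c t ∩ W := by
    rw [← e1]; exact connectedComponentIn_subset _ _
  have s2 : Lset s' t xs ys' ⊆ Bd a s' c t ∩ W := by
    rw [← e2]; exact connectedComponentIn_subset _ _
  have s3 : Uset s' s t ys' ys ⊆ Bd s' s c t ∩ W := by
    rw [← e3]; exact connectedComponentIn_subset _ _
  have f1 := frontier_rect has hct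
  have f2 := frontier_rect has' hct
  have f3 := frontier_rect hss hct
  obtain ⟨c1, c1'⟩ := clopen_L h ha hc
  obtain ⟨c2, c2'⟩ := clopen_L h' ha hc
  obtain ⟨c3, c3'⟩ := clopen_U h h' hss hc
  obtain ⟨N, hN1, hN2⟩ := side_function hWo hWL (isClosed_rect a s c t)
    (A := Lset s t xs ys) (by rw [f1]; exact s1) c1 (by rw [f1]; exact c1')
  obtain ⟨N', hN1', hN2'⟩ := side_function hWo hWL (isClosed_rect a s' c t)
    (A := Lset s' t xs ys') (by rw [f2]; exact s2) c2 (by rw [f2]; exact c2')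
  obtain ⟨N'', hN1'', hN2''⟩ := side_function hWo hWL (isClosed_rect s' s c t)
    (A := Uset s' s t ys' ys) (by rw [f3]; exact s3) c3 (by rw [f3]; exact c3')
  rw [f1] at hN2
  rw [f2] at hN2'
  rw [f3] at hN2''
  -- the exceptional set
  set E : Set ℂ := Bd a s c t ∪ (Bd a s' c t ∪ Bd s' s c t) with hE
  have hEc : IsClosed E := (isCompact_bd _ _ _ _).isClosed.union
    ((isCompact_bd _ _ _ _).isClosed.union (isCompact_bd _ _ _ _).isClosed)
  have hEi : interior E = ∅ := by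
    rw [hE, interior_union_isClosed_of_interior_empty (isCompact_bd _ _ _ _).isClosed,
      interior_bd]
    rw [interior_union_isClosed_of_interior_empty (isCompact_bd _ _ _ _).isClosed,
      interior_bd]
    exact interior_bd _ _ _ _
  have hess : ∀ z ∈ W, ∃ k : ℤ, ∀ᶠ z' in 𝓝 z, z' ∉ E → N' z' + N'' z' - N z' = k := by
    intro z hz
    obtain ⟨k1, hk1⟩ := PI_side hN1 hN2 hz
    obtain ⟨k2, hk2⟩ := PI_side hN1' hN2' hz
    obtain ⟨k3, hk3⟩ := PI_side hN1'' hN2'' hz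
    obtain ⟨k, hk⟩ := PI_geo (ys := ys) (t := t) ha hc hxs hxs' hys' hss hct z
    refine ⟨k2 + k3 - k1 + k, ?_⟩
    filter_upwards [hk1, hk2, hk3, hk] with z' g1 g2 g3 g4 hzE
    have n1 : z' ∉ Bd a s c t := fun hh => hzE (Or.inl hh)
    have n2 : z' ∉ Bd a s' c t := fun hh => hzE (Or.inr (Or.inl hh))
    have n3 : z' ∉ Bd s' s c t := fun hh => hzE (Or.inr (Or.inr hh))
    have g5 := g4 n1 n2 n3
    rw [g1 n1, g2 n2, g3 n3]
    linarith
  have hM := ess_const hWo hWc.isPreconnected hEc hEi (fun z => N' z + N'' z - N z) hess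
  -- the arc
  obtain ⟨h0W, ρ₀, hρ₀, hsep'⟩ := hsep
  obtain ⟨ε, hε0, hεa, hεs, hεc, hεt, hερ, hε1⟩ : ∃ ε, 0 < ε ∧ ε ≤ -a ∧ ε ≤ s' ∧ ε ≤ -c ∧ ε ≤ t ∧
      ε ≤ ρ₀ ∧ ε ≤ 1 := by
    refine ⟨min (-a) (min s' (min (-c) (min t (min ρ₀ 1)))), ?_, ?_, ?_, ?_, ?_, ?_, ?_⟩
    · refine lt_min (by linarith) (lt_min hs'0 (lt_min (by linarith) (lt_min (by linarith)
        (lt_min hρ₀ one_pos))))
    · exact min_le_left _ _
    · exact (min_le_right _ _).trans (min_le_left _ _)
    · exact (min_le_right _ _).trans ((min_le_right _ _).trans (min_le_left _ _))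
    · exact (min_le_right _ _).trans ((min_le_right _ _).trans ((min_le_right _ _).trans
        (min_le_left _ _)))
    · exact (min_le_right _ _).trans ((min_le_right _ _).trans ((min_le_right _ _).trans
        ((min_le_right _ _).trans (min_le_left _ _))))
    · exact (min_le_right _ _).trans ((min_le_right _ _).trans ((min_le_right _ _).trans
        ((min_le_right _ _).trans (min_le_right _ _))))
  obtain ⟨ρ, hρ, hρε, hρT⟩ := H.L1 ε hε0
  have hTbox : ∀ z ∈ ball (0:ℂ) 1, dist z ζ = ρ →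
      a < (φ z).re ∧ (φ z).re < s' ∧ c < (φ z).im ∧ (φ z).im < t := by
    intro z hz hzρ
    have g1 := hρT z hz hzρ
    have g2 := Complex.abs_re_le_norm (φ z)
    have g3 := Complex.abs_im_le_norm (φ z)
    have g4 := abs_le.1 g2
    have g5 := abs_le.1 g3
    refine ⟨?_, ?_, ?_, ?_⟩ <;> linarith [g4.1, g4.2, g5.1, g5.2]
  have hTE : ∀ z ∈ ball (0:ℂ) 1, dist z ζ = ρ → φ z ∉ E := by
    intro z hz hzρ hzE
    obtain ⟨g1, g2, g3, g4⟩ := hTbox z hz hzρ
    rcases hzE with ⟨-, k | k | k | k⟩ | ⟨-, k | k | k | k⟩ | ⟨k, -⟩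
    all_goals first
      | linarith
      | linarith [k.1]
  obtain ⟨z₁, hz₁, hz₁'⟩ : ∃ z₁ ∈ ball (0:ℂ) 1, dist z₁ ζ = ρ := by
    refine ⟨((1 - ρ : ℝ) : ℂ) * ζ, ?_, ?_⟩
    · rw [mem_ball_zero_iff, norm_mul, H.hζ, mul_one, Complex.norm_real, Real.norm_eq_abs,
        abs_of_nonneg (by linarith)]
      linarith
    · rw [Complex.dist_eq]
      have : ((1 - ρ : ℝ) : ℂ) * ζ - ζ = ((-ρ : ℝ) : ℂ) * ζ := by
        push_cast; ring
      rw [this, norm_mul, H.hζ, mul_one, Complex.norm_real, Real.norm_eq_abs, abs_neg,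
        abs_of_pos hρ]
  have hz1W : φ z₁ ∈ W := H.φ_maps hz₁
  have h0W' : φ 0 ∈ W := h0W.1
  obtain ⟨hz1A, hz1c⟩ := hsep' z₁ hz₁ (by rw [hz₁']; linarith)
  have h0E : φ 0 ∉ E := by
    rintro (k | k | k)
    · exact h0 k.1
    · exact h0 ⟨k.1.1, k.1.2.1.trans hss.le, k.1.2.2⟩
    · exact h0 ⟨has'.le.trans k.1.1, k.1.2⟩
  have hMeq := hM (φ 0) ⟨h0W', h0E⟩ (φ z₁) ⟨hz1W, hTE z₁ hz₁ hz₁'⟩
  -- the values of `N`
  have hstW : (⟨s, t⟩ : ℂ) ∈ Bd a s c t ∩ W :=
    ⟨⟨⟨has.le, le_rfl, hct.le, le_rfl⟩, Or.inr (Or.inl rfl)⟩, h.htop s h.hxs' le_rfl⟩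
  have hstA : (⟨s, t⟩ : ℂ) ∈ Lset s t xs ys := Or.inl ⟨rfl, h.hxs', le_rfl⟩
  obtain ⟨Cin, Cout, hS, -, -, hloc⟩ := crosscut_sides hWo hWc hWL has hct hstW
  rw [e1] at hS hloc
  have hNne : N (φ 0) ≠ N (φ z₁) := by
    obtain ⟨k, hk⟩ := hN2 _ hstA
    have hnear := hk.and (hloc _ hstA)
    obtain ⟨r, hr, hball⟩ := Metric.eventually_nhds_iff_ball.1 hnear
    obtain ⟨V, hVr, -, -, -, i1, i2⟩ := local_rect has hct hstW.1 hr
    obtain ⟨y, hyV, hyR, hyB⟩ := i1.nonempty
    obtain ⟨y', hyV', hyR'⟩ := i2.nonempty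
    have hyB' : y' ∉ Bd a s c t := fun hh => hyR' hh.1
    obtain ⟨p1, p2⟩ := hball y (hVr hyV)
    obtain ⟨p1', p2'⟩ := hball y' (hVr hyV')
    have q1 := p1 hyB
    rw [if_pos hyR] at q1
    have q1' := p1' hyB'
    rw [if_neg hyR'] at q1'
    have q2 : y ∈ Cin := (p2 hyB).1 hyR
    have q2' : y' ∈ Cout := (p2' hyB').2 hyR'
    have hin : Cin ⊆ W \ Lset s t xs ys := by
      rw [← hS.union]; exact subset_union_left
    have hout : Cout ⊆ W \ Lset s t xs ys := by
      rw [← hS.union]; exact subset_union_right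
    have kin : ∀ x ∈ Cin, N x = k + 1 := fun x hx => by
      rw [← q1]
      exact PI_const hS.cΔ.isPreconnected (fun z hz => hN1 z (hin hz)) hx q2
    have kout : ∀ x ∈ Cout, N x = k := fun x hx => by
      rw [add_zero] at q1'
      rw [← q1']
      exact PI_const hS.cM.isPreconnected (fun z hz => hN1 z (hout hz)) hx q2'
    have m0 : φ 0 ∈ Cin ∪ Cout := by rw [hS.union]; exact h0W
    have m1 : φ z₁ ∈ Cin ∪ Cout := by rw [hS.union]; exact ⟨hz1W, hz1A⟩
    rcases m0 with m0 | m0 <;> rcases m1 with m1 | m1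
    · exact absurd (hS.cΔ.isPreconnected.subset_connectedComponentIn m0 hin m1) hz1c
    · rw [kin _ m0, kout _ m1]; omega
    · rw [kout _ m0, kin _ m1]; omega
    · exact absurd (hS.cM.isPreconnected.subset_connectedComponentIn m0 hout m1) hz1c
  have hcase : N' (φ 0) ≠ N' (φ z₁) ∨ N'' (φ 0) ≠ N'' (φ z₁) := by
    by_contra hcon
    push Not at hcon
    obtain ⟨k1, k2⟩ := hcon
    apply hNne
    have hMeq' : N' (φ 0) + N'' (φ 0) - N (φ 0) = N' (φ z₁) + N'' (φ z₁) - N (φ z₁) := hMeq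
    omega
  rcases hcase with hcase | hcase
  · left
    refine sep_of_ne H (fun z hz => (s2 hz).2) ?_ hρ (by linarith) ?_ ?_ hz₁ hz₁' ?_
    · rw [← e2]; exact isPreconnected_connectedComponentIn
    · intro z hz hzρ hzA
      exact hTE z hz hzρ (Or.inr (Or.inl (s2 hzA).1))
    · intro hzA
      exact h0E (Or.inr (Or.inl (s2 hzA).1))
    · intro hcon
      apply hcase
      have hφ0 : φ 0 ∈ W \ Lset s' t xs ys' :=
        ⟨h0W', fun hzA => h0E (Or.inr (Or.inl (s2 hzA).1))⟩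
      exact PI_const isPreconnected_connectedComponentIn
        (fun z hz => hN1' z (connectedComponentIn_subset _ _ hz))
        (mem_connectedComponentIn hφ0) hcon
  · right
    refine sep_of_ne H (fun z hz => (s3 hz).2) ?_ hρ (by linarith) ?_ ?_ hz₁ hz₁' ?_
    · rw [← e3]; exact isPreconnected_connectedComponentIn
    · intro z hz hzρ hzA
      exact hTE z hz hzρ (Or.inr (Or.inr (s3 hzA).1))
    · intro hzA
      exact h0E (Or.inr (Or.inr (s3 hzA).1))
    · intro hcon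
      apply hcase
      have hφ0 : φ 0 ∈ W \ Uset s' s t ys' ys :=
        ⟨h0W', fun hzA => h0E (Or.inr (Or.inr (s3 hzA).1))⟩
      exact PI_const isPreconnected_connectedComponentIn
        (fun z hz => hN1'' z (connectedComponentIn_subset _ _ hz))
        (mem_connectedComponentIn hφ0) hcon

end DS
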