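import Pool.Agent.H36.DS.PE

/-!
PJ (segments landing at boundary points).
`seg_limit`: let `c t = (1 - t) z₁ + t zs`.  By `L0` the diameters of `u '' (c '' Ico t 1)` tend to `0` for `t → 1`, so
`u (c t)` has a limit `e` (Cauchy) in the closed disc; if `‖e‖ < 1` then `c t = φ (u (c t)) → φ e ∈ W`, but `c t → zs ∉ W`.
So `‖e‖ = 1`.  If `e = ζ`: for every `ε > 0` take `ρ < min ε (dist (u z₁) ζ)` from `L1`; the continuous function
`t ↦ dist (u (c t)) ζ` takes the value `ρ` at some `t`, and then `‖c t‖ = ‖φ (u (c t))‖ < ε`; for `ε → 0` also `ρ → 0`, so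
`t → 1` (the function is bounded below on `[0, t']`), so `‖zs‖ = 0`, contradiction.
-/

namespace DS
open Metric Set Filter Topology MeasureTheory

theorem seg_limit {W : Set ℂ} {φ u G Gi : ℂ → ℂ} {μ : Measure ℂ} {ζ : ℂ} {r₀ : ℝ}
    (H : FixPE W φ u G Gi μ ζ r₀) {z₁ zs : ℂ} (hzs : zs ∉ W) (hzs0 : zs ≠ 0)
    (hseg : ∀ t ∈ Ico (0:ℝ) 1, (1 - t) * z₁ + t * zs ∈ W ∩ closedBall 0 r₀) :
    ∃ e : ℂ, ‖e‖ = 1 ∧ e ≠ ζ ∧
      Tendsto (fun t : ℝ => u ((1 - t) * z₁ + t * zs)) (𝓝[<] 1) (𝓝 e) := by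
  let c : ℝ → ℂ := fun t => (1 - t) * z₁ + t * zs
  have hcc : Continuous c := by
    show Continuous (fun t : ℝ => (1 - (t : ℂ)) * z₁ + t * zs)
    fun_prop
  have hc : ∀ t ∈ Ico (0:ℝ) 1, c t ∈ W ∩ closedBall 0 r₀ := hseg
  have hc1 : c 1 = zs := by simp [c]
  have hdist : ∀ t s : ℝ, dist (c t) (c s) = |t - s| * ‖zs - z₁‖ := by
    intro t s
    have h1 : c t - c s = ((t - s : ℝ) : ℂ) * (zs - z₁) := by
      simp only [c]
      push_cast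
      ring
    rw [dist_eq_norm, h1, norm_mul, Complex.norm_real, Real.norm_eq_abs]
  have hlt1 : Tendsto c (𝓝[<] 1) (𝓝 zs) := by
    have h1 : Tendsto c (𝓝 1) (𝓝 (c 1)) := hcc.tendsto 1
    rw [hc1] at h1
    exact h1.mono_left nhdsWithin_le_nhds
  have hIco : ∀ a : ℝ, a < 1 → Ico a 1 ∈ 𝓝[<] (1:ℝ) := fun a ha => Ico_mem_nhdsLT ha
  -- the limit
  have hcau : Cauchy (Filter.map (fun t => u (c t)) (𝓝[<] (1:ℝ))) := by
    rw [Metric.cauchy_iff]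
    refine ⟨inferInstance, fun ε hε => ?_⟩
    obtain ⟨δ, hδ, hL⟩ := H.L0 ε hε
    have hM : 0 < ‖zs - z₁‖ + 1 := by positivity
    obtain ⟨η, hη0, hη1, hη⟩ : ∃ η : ℝ, 0 < η ∧ η ≤ 1 ∧ η * (‖zs - z₁‖ + 1) ≤ δ := by
      refine ⟨min 1 (δ / (‖zs - z₁‖ + 1)), lt_min one_pos (div_pos hδ hM), min_le_left _ _, ?_⟩
      calc min 1 (δ / (‖zs - z₁‖ + 1)) * (‖zs - z₁‖ + 1)
          ≤ δ / (‖zs - z₁‖ + 1) * (‖zs - z₁‖ + 1) :=
            mul_le_mul_of_nonneg_right (min_le_right _ _) hM.le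
        _ = δ := div_mul_cancel₀ _ hM.ne'
    have hsubI : Ico (1 - η) 1 ⊆ Ico (0:ℝ) 1 := Ico_subset_Ico_left (by linarith)
    have h1 := hL (c '' Ico (1 - η) 1) (by
        rintro _ ⟨t, ht, rfl⟩
        exact hc t (hsubI ht))
      (isPreconnected_Ico.image _ hcc.continuousOn) (by
        rintro _ ⟨t, ht, rfl⟩ _ ⟨s, hs, rfl⟩
        rw [hdist]
        have h2 : |t - s| ≤ η := by
          rw [abs_le]
          exact ⟨by linarith [ht.1, hs.2], by linarith [ht.2, hs.1]⟩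
        have h3 : |t - s| * ‖zs - z₁‖ ≤ η * ‖zs - z₁‖ :=
          mul_le_mul_of_nonneg_right h2 (norm_nonneg _)
        have h4 : η * (‖zs - z₁‖ + 1) = η * ‖zs - z₁‖ + η := by ring
        linarith)
    refine ⟨(fun t => u (c t)) '' Ico (1 - η) 1, Filter.image_mem_map (hIco _ (by linarith)), ?_⟩
    rintro _ ⟨t, ht, rfl⟩ _ ⟨s, hs, rfl⟩
    exact h1 _ ⟨t, ht, rfl⟩ _ ⟨s, hs, rfl⟩
  obtain ⟨e, he⟩ := cauchy_map_iff_exists_tendsto.1 hcau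
  have hev : ∀ᶠ t in 𝓝[<] (1:ℝ), t ∈ Ico (0:ℝ) 1 := hIco 0 one_pos
  have hle : ‖e‖ ≤ 1 := by
    have h1 : Tendsto (fun t => ‖u (c t)‖) (𝓝[<] (1:ℝ)) (𝓝 ‖e‖) := he.norm
    refine le_of_tendsto h1 ?_
    filter_upwards [hev] with t ht
    have := H.u_maps (hc t ht).1
    rw [mem_ball_zero_iff] at this
    exact this.le
  have hone : ‖e‖ = 1 := by
    refine le_antisymm hle ?_
    by_contra hlt
    push Not at hlt
    have heb : e ∈ ball (0:ℂ) 1 := by rwa [mem_ball_zero_iff]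
    have h1 : ContinuousAt φ e := H.φ_cont.continuousAt (isOpen_ball.mem_nhds heb)
    have h2 : Tendsto (fun t => φ (u (c t))) (𝓝[<] (1:ℝ)) (𝓝 (φ e)) := h1.tendsto.comp he
    have h3 : Tendsto (fun t => φ (u (c t))) (𝓝[<] (1:ℝ)) (𝓝 zs) := by
      refine hlt1.congr' ?_
      filter_upwards [hev] with t ht
      exact (H.φu _ (hc t ht).1).symm
    have h4 := tendsto_nhds_unique h2 h3
    exact hzs (h4 ▸ H.φ_maps heb)
  refine ⟨e, hone, ?_, he⟩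
  rintro rfl
  apply hzs0
  rw [← norm_eq_zero]
  refine le_antisymm ?_ (norm_nonneg _)
  refine le_of_forall_pos_le_add fun ε' hε' => ?_
  rw [zero_add]
  have hM : 0 < ‖zs - z₁‖ + 1 := by positivity
  obtain ⟨η, hη0, hη1, hη⟩ : ∃ η : ℝ, 0 < η ∧ η ≤ 1 ∧ η * (‖zs - z₁‖ + 1) ≤ ε' / 2 := by
    refine ⟨min 1 (ε' / 2 / (‖zs - z₁‖ + 1)), lt_min one_pos (div_pos (half_pos hε') hM),
      min_le_left _ _, ?_⟩
    calc min 1 (ε' / 2 / (‖zs - z₁‖ + 1)) * (‖zs - z₁‖ + 1)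
        ≤ ε' / 2 / (‖zs - z₁‖ + 1) * (‖zs - z₁‖ + 1) :=
          mul_le_mul_of_nonneg_right (min_le_right _ _) hM.le
      _ = ε' / 2 := div_mul_cancel₀ _ hM.ne'
  set t₀ : ℝ := 1 - η with ht₀
  have ht₀m : t₀ ∈ Ico (0:ℝ) 1 := ⟨by linarith, by linarith⟩
  have hpos : ∀ t ∈ Ico (0:ℝ) 1, 0 < dist (u (c t)) e := by
    intro t ht
    rw [dist_pos]
    intro h
    have h1 := H.u_maps (hc t ht).1
    rw [h, mem_ball_zero_iff] at h1
    linarith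
  have hfc : ContinuousOn (fun t => dist (u (c t)) e) (Ico (0:ℝ) 1) := by
    have h1 : ContinuousOn (fun t => u (c t)) (Ico (0:ℝ) 1) :=
      H.u_cont.comp hcc.continuousOn fun t ht => (hc t ht).1
    exact continuous_dist.comp_continuousOn (h1.prodMk continuousOn_const)
  have hf0 : Tendsto (fun t => dist (u (c t)) e) (𝓝[<] (1:ℝ)) (𝓝 0) := by
    have := he.dist (tendsto_const_nhds (x := e))
    rwa [dist_self] at this
  obtain ⟨ρ, hρ0, hρ, hρL⟩ := H.L1 (min (ε' / 2) (dist (u (c t₀)) e))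
    (lt_min (half_pos hε') (hpos t₀ ht₀m))
  obtain ⟨t₁, ht₁, ht₁m⟩ : ∃ t₁, dist (u (c t₁)) e < ρ ∧ t₁ ∈ Ico t₀ 1 := by
    have h1 : ∀ᶠ t in 𝓝[<] (1:ℝ), dist (u (c t)) e < ρ := hf0.eventually (Iio_mem_nhds hρ0)
    exact (h1.and (hIco t₀ ht₀m.2)).exists
  have hsubI : Icc t₀ t₁ ⊆ Ico (0:ℝ) 1 := fun t ht =>
    ⟨ht₀m.1.trans ht.1, ht.2.trans_lt ht₁m.2⟩
  obtain ⟨t, ht, htρ⟩ := intermediate_value_Icc' ht₁m.1 (hfc.mono hsubI)
    (show ρ ∈ Icc (dist (u (c t₁)) e) (dist (u (c t₀)) e) from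
      ⟨ht₁.le, (hρ.trans_le (min_le_right _ _)).le⟩)
  have htm := hsubI ht
  have h1 : ‖φ (u (c t))‖ < min (ε' / 2) (dist (u (c t₀)) e) :=
    hρL _ (H.u_maps (hc t htm).1) htρ
  rw [H.φu _ (hc t htm).1] at h1
  have h2 : ‖c t‖ < ε' / 2 := h1.trans_le (min_le_left _ _)
  have h3 : ‖zs - c t‖ ≤ ε' / 2 := by
    rw [← hc1, ← dist_eq_norm, hdist]
    have h4 : |1 - t| ≤ η := by
      rw [abs_of_nonneg (by linarith [htm.2])]
      linarith [ht.1]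
    have h5 : |1 - t| * ‖zs - z₁‖ ≤ η * ‖zs - z₁‖ :=
      mul_le_mul_of_nonneg_right h4 (norm_nonneg _)
    have h6 : η * (‖zs - z₁‖ + 1) = η * ‖zs - z₁‖ + η := by ring
    linarith
  calc ‖zs‖ = ‖(zs - c t) + c t‖ := by rw [sub_add_cancel]
    _ ≤ ‖zs - c t‖ + ‖c t‖ := norm_add_le _ _
    _ ≤ ε' := by linarith

end DS
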