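import Pool.Agent.H36.DS.Base

/-!
RA (Montel).  Proof.  Equicontinuity on compacta from the Cauchy estimate: if `closedBall z (2r) ⊆ U` then
`‖deriv (F n)‖ ≤ 1/r` on `ball z r`, so `F n` is `1/r`-Lipschitz there.  Take a countable dense subset
`D` of `U` (e.g. points with rational coordinates), a diagonal subsequence converging at all points of `D`
(bounded sequences in `ℂ`, `Mathlib`: `tendsto_subseq_of_bounded` / compactness of the countable product
`Pi` of closed balls: the sequence `n ↦ (F n restricted to D)` lives in a compact metrizable space, so it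
has a convergent subsequence).  Equi-Lipschitz + pointwise convergence on a dense set gives a uniform
Cauchy sequence on each small ball, hence local uniform convergence on `U` to the pointwise limit `f`;
`f` is holomorphic by `TendstoLocallyUniformlyOn.differentiableOn`.
-/

namespace DS
open Metric Set Filter Topology

theorem RA_lip {U : Set ℂ} {f : ℂ → ℂ} (hd : DifferentiableOn ℂ f U)
    (hb : ∀ z ∈ U, ‖f z‖ ≤ 1) {z : ℂ} {r : ℝ} (hr : 0 < r) (hz : closedBall z (2 * r) ⊆ U)
    {x : ℂ} (hx : x ∈ ball z r) : ‖f x - f z‖ ≤ 1 / r * ‖x - z‖ := by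
  have hsub : ∀ w ∈ ball z r, closedBall w r ⊆ U := by
    intro w hw y hy
    refine hz ?_
    rw [mem_closedBall] at hy ⊢
    rw [mem_ball] at hw
    calc dist y z ≤ dist y w + dist w z := dist_triangle _ _ _
      _ ≤ 2 * r := by linarith
  have hder : ∀ w ∈ ball z r, ‖deriv f w‖ ≤ 1 / r := by
    intro w hw
    refine Complex.norm_deriv_le_of_forall_mem_sphere_norm_le hr ?_ ?_
    · refine DifferentiableOn.diffContOnCl ?_
      rw [closure_ball w hr.ne']
      exact hd.mono (hsub w hw)
    · intro y hy
      exact hb y (hsub w hw (sphere_subset_closedBall hy))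
  have hdiff : ∀ w ∈ ball z r, DifferentiableAt ℂ f w := by
    intro w hw
    refine hd.differentiableAt ?_
    exact mem_of_superset (closedBall_mem_nhds w hr) (hsub w hw)
  exact (convex_ball z r).norm_image_sub_le_of_norm_deriv_le hdiff hder (mem_ball_self hr) hx

theorem montel {U : Set ℂ} (hU : IsOpen U) (F : ℕ → ℂ → ℂ) (hd : ∀ n, DifferentiableOn ℂ (F n) U)
    (hb : ∀ n, ∀ z ∈ U, ‖F n z‖ ≤ 1) :
    ∃ (k : ℕ → ℕ) (f : ℂ → ℂ), StrictMono k ∧ DifferentiableOn ℂ f U ∧
      TendstoLocallyUniformlyOn (fun n => F (k n)) f atTop U := by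
  classical
  set d : ℕ → ℂ := TopologicalSpace.denseSeq ℂ with hdd
  set G : ℕ → ℕ → ℂ := fun n i => if d i ∈ U then F n (d i) else 0 with hG
  have hK : IsCompact (Set.univ.pi fun _ : ℕ => closedBall (0 : ℂ) 1) :=
    isCompact_univ_pi fun _ => isCompact_closedBall _ _
  have hGK : ∀ n, G n ∈ Set.univ.pi fun _ : ℕ => closedBall (0 : ℂ) 1 := by
    intro n i _
    rw [mem_closedBall, dist_zero_right]
    simp only [hG]
    split_ifs with h
    · exact hb n _ h
    · simp
  obtain ⟨g, -, k, hk, hlim⟩ := hK.tendsto_subseq hGK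
  have hlimD : ∀ i, d i ∈ U → Tendsto (fun n => F (k n) (d i)) atTop (𝓝 (g i)) := by
    intro i hi
    have := (tendsto_pi_nhds.1 hlim) i
    refine this.congr fun n => ?_
    simp only [hG, Function.comp, if_pos hi]
  have hrad : ∀ z ∈ U, ∃ r > 0, closedBall z (2 * r) ⊆ U := by
    intro z hz
    obtain ⟨r, hr, h⟩ := Metric.nhds_basis_closedBall.mem_iff.1 (hU.mem_nhds hz)
    refine ⟨r / 2, by positivity, ?_⟩
    rwa [mul_div_cancel₀ r (two_ne_zero)]
  have hcau : ∀ z ∈ U, ∃ l, Tendsto (fun n => F (k n) z) atTop (𝓝 l) := by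
    intro z hz
    refine cauchySeq_tendsto_of_complete ?_
    obtain ⟨r, hr, hball⟩ := hrad z hz
    refine Metric.cauchySeq_iff'.2 fun ε hε => ?_
    have hδ : 0 < min r (ε * r / 4) := lt_min hr (by positivity)
    obtain ⟨x, hx, i, rfl⟩ := (TopologicalSpace.denseRange_denseSeq ℂ).exists_mem_open
      (isOpen_ball (x := z) (ε := min r (ε * r / 4))) ⟨z, mem_ball_self hδ⟩ |>.elim
      fun i hi => (⟨_, hi, i, rfl⟩ : ∃ x ∈ ball z (min r (ε * r / 4)), ∃ i, d i = x)
    have hxr : d i ∈ ball z r := ball_subset_ball (min_le_left _ _) hx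
    have hxU : d i ∈ U := hball (ball_subset_closedBall
      (ball_subset_ball (by linarith) hxr))
    have hxe : ‖d i - z‖ < ε * r / 4 := by
      rw [mem_ball, dist_eq_norm] at hx
      exact lt_of_lt_of_le hx (min_le_right _ _)
    have hclose : ∀ n, dist (F (k n) (d i)) (F (k n) z) < ε / 4 := by
      intro n
      rw [dist_eq_norm]
      refine lt_of_le_of_lt (RA_lip (hd _) (hb _) hr hball hxr) ?_
      rw [one_div, inv_mul_lt_iff₀ hr]
      linarith
    obtain ⟨N, hN⟩ := Metric.cauchySeq_iff'.1 (hlimD i hxU).cauchySeq (ε / 4) (by positivity)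
    refine ⟨N, fun n hn => ?_⟩
    have h1 := hN n hn
    have h2 := hclose n
    have h3 := hclose N
    calc dist (F (k n) z) (F (k N) z) ≤ dist (F (k n) z) (F (k n) (d i)) +
          dist (F (k n) (d i)) (F (k N) (d i)) + dist (F (k N) (d i)) (F (k N) z) :=
          dist_triangle4 _ _ _ _
      _ < ε := by
          rw [dist_comm (F (k n) z)]
          linarith
  choose! f hf using hcau
  have hloc : TendstoLocallyUniformlyOn (fun n => F (k n)) f atTop U := by
    rw [Metric.tendstoLocallyUniformlyOn_iff]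
    intro ε hε z hz
    obtain ⟨r, hr, hball⟩ := hrad z hz
    have hδ : 0 < min r (ε * r / 4) := lt_min hr (by positivity)
    refine ⟨ball z (min r (ε * r / 4)), mem_nhdsWithin_of_mem_nhds (ball_mem_nhds z hδ), ?_⟩
    have hclose : ∀ y ∈ ball z (min r (ε * r / 4)), ∀ n, dist (F (k n) y) (F (k n) z) ≤ ε / 4 := by
      intro y hy n
      have hyr : y ∈ ball z r := ball_subset_ball (min_le_left _ _) hy
      rw [dist_eq_norm]
      refine (RA_lip (hd _) (hb _) hr hball hyr).trans ?_
      rw [mem_ball, dist_eq_norm] at hy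
      have := lt_of_lt_of_le hy (min_le_right _ _)
      rw [one_div, inv_mul_le_iff₀ hr]
      linarith
    have hclosef : ∀ y ∈ ball z (min r (ε * r / 4)), dist (f y) (f z) ≤ ε / 4 := by
      intro y hy
      have hyr : y ∈ ball z r := ball_subset_ball (min_le_left _ _) hy
      have hyU : y ∈ U := hball (ball_subset_closedBall (ball_subset_ball (by linarith) hyr))
      exact le_of_tendsto ((hf y hyU).dist (hf z hz)) (Eventually.of_forall (hclose y hy))
    filter_upwards [Metric.tendsto_nhds.1 (hf z hz) (ε / 4) (by positivity)] with n hn y hy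
    have h1 := hclosef y hy
    have h2 := hclose y hy n
    calc dist (f y) (F (k n) y) ≤ dist (f y) (f z) + dist (f z) (F (k n) z) +
          dist (F (k n) z) (F (k n) y) := dist_triangle4 _ _ _ _
      _ < ε := by
          rw [dist_comm (f z), dist_comm (F (k n) z) (F (k n) y)]
          linarith
  exact ⟨k, f, hk, hloc.differentiableOn (Eventually.of_forall fun n => hd _) hU, hloc⟩

end DS
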