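import Pool.Agent.H36.DS.Base

/-!
RB (Hurwitz).  Proof.  Suppose `f a = f b` with `a ≠ b` in `U` and `f` not constant on `U`.
`g n z = F n z - F n a` has no zero in `U \ {a}` (injectivity) and converges locally uniformly to
`g z = f z - f a`, not identically zero on the connected set `U`, with an isolated zero at `b`
(`AnalyticAt.eventually_eq_zero_or_eventually_ne_zero` and the identity theorem).  Choose a closed ball
about `b`, inside `U`, not containing `a`, with `g ≠ 0` on its boundary sphere, so `‖g‖ ≥ 2c` there and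
`‖g n‖ ≥ c` there for large `n`.  `1 / g n` is holomorphic near the closed ball, so by the maximum
modulus principle `1/‖g n b‖ ≤ 1/c`, i.e. `‖g n b‖ ≥ c`; but `g n b → g b = 0`.  Contradiction.
(`f` is holomorphic as a locally uniform limit.)
-/

namespace DS
open Metric Set Filter Topology

theorem hurwitz_inj {U : Set ℂ} (hU : IsOpen U) (hc : IsPreconnected U) (F : ℕ → ℂ → ℂ) (f : ℂ → ℂ)
    (hd : ∀ n, DifferentiableOn ℂ (F n) U) (hi : ∀ n, InjOn (F n) U)
    (hlim : TendstoLocallyUniformlyOn F f atTop U) :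
    InjOn f U ∨ ∃ c, EqOn f (fun _ => c) U := by
  by_contra hcon
  push Not at hcon
  obtain ⟨h1, h2⟩ := hcon
  have hf : DifferentiableOn ℂ f U := hlim.differentiableOn (Eventually.of_forall hd) hU
  unfold InjOn at h1
  push Not at h1
  obtain ⟨a, ha, b, hb, hab, hne⟩ := h1
  have hg : AnalyticOnNhd ℂ (fun z => f z - f a) U :=
    (hf.sub (differentiableOn_const _)).analyticOnNhd hU
  have hgb : f b - f a = 0 := by rw [hab, sub_self]
  have hiso : ∀ᶠ z in 𝓝[≠] b, f z - f a ≠ 0 := by
    rcases (hg b hb).eventually_eq_zero_or_eventually_ne_zero with h | h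
    · exfalso
      refine h2 (f a) fun z hz => ?_
      have := hg.eqOn_zero_of_preconnected_of_eventuallyEq_zero hc hb h hz
      exact sub_eq_zero.1 this
    · exact h
  have hev : ∀ᶠ z in 𝓝 b, z ∈ U ∧ z ≠ a ∧ (z ≠ b → f z - f a ≠ 0) := by
    have e1 : ∀ᶠ z in 𝓝 b, z ∈ U := hU.mem_nhds hb
    have e2 : ∀ᶠ z in 𝓝 b, z ≠ a := isOpen_ne.mem_nhds (Ne.symm hne)
    exact e1.and (e2.and (eventually_nhdsWithin_iff.1 hiso))
  obtain ⟨r, hr, hball⟩ := Metric.nhds_basis_closedBall.eventually_iff.1 hev
  have hsubU : closedBall b r ⊆ U := fun z hz => (hball hz).1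
  have hsph : (sphere b r).Nonempty := NormedSpace.sphere_nonempty.2 hr.le
  have hgc : ContinuousOn (fun z => ‖f z - f a‖) (sphere b r) :=
    ((hf.continuousOn.mono (sphere_subset_closedBall.trans hsubU)).sub continuousOn_const).norm
  obtain ⟨z₀, hz₀, hmin⟩ := (isCompact_sphere b r).exists_isMinOn hsph hgc
  set c : ℝ := ‖f z₀ - f a‖ with hcdef
  have hz₀b : z₀ ≠ b := by
    rintro rfl
    rw [mem_sphere, dist_self] at hz₀
    exact hr.ne hz₀
  have hcpos : 0 < c := norm_pos_iff.2 ((hball (sphere_subset_closedBall hz₀)).2.2 hz₀b)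
  have hu : TendstoUniformlyOn F f atTop (closedBall b r) :=
    (tendstoLocallyUniformlyOn_iff_forall_isCompact hU).1 hlim _ hsubU (isCompact_closedBall b r)
  have hu1 := Metric.tendstoUniformlyOn_iff.1 hu (c / 4) (by positivity)
  have hu2 := Metric.tendsto_nhds.1 (hlim.tendsto_at ha) (c / 4) (by positivity)
  obtain ⟨n, hn1, hn2⟩ := (hu1.and hu2).exists
  have hclose : ∀ z ∈ closedBall b r, ‖(F n z - F n a) - (f z - f a)‖ < c / 2 := by
    intro z hz
    have e1 := hn1 z hz
    have e2 := hn2
    rw [dist_eq_norm] at e1 e2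
    calc ‖(F n z - F n a) - (f z - f a)‖ = ‖-(f z - F n z) - (F n a - f a)‖ := by
          congr 1
          ring
      _ ≤ ‖-(f z - F n z)‖ + ‖F n a - f a‖ := norm_sub_le _ _
      _ < c / 4 + c / 4 := by
          rw [norm_neg]
          exact add_lt_add e1 e2
      _ = c / 2 := by ring
  have hnz : ∀ z ∈ closedBall b r, F n z - F n a ≠ 0 := by
    intro z hz h
    exact (hball hz).2.1 (hi n (hsubU hz) ha (sub_eq_zero.1 h))
  have hsphlow : ∀ z ∈ sphere b r, c / 2 ≤ ‖F n z - F n a‖ := by
    intro z hz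
    have e1 := hclose z (sphere_subset_closedBall hz)
    have e2 : c ≤ ‖f z - f a‖ := hmin hz
    have e3 : ‖f z - f a‖ ≤ ‖F n z - F n a‖ + ‖(F n z - F n a) - (f z - f a)‖ := by
      calc ‖f z - f a‖ = ‖(F n z - F n a) - ((F n z - F n a) - (f z - f a))‖ := by
            congr 1
            ring
        _ ≤ _ := norm_sub_le _ _
    linarith
  have hdiff : DiffContOnCl ℂ (fun z => (F n z - F n a)⁻¹) (ball b r) := by
    have hdd : DifferentiableOn ℂ (fun z => (F n z - F n a)⁻¹) (closure (ball b r)) := by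
      rw [closure_ball b hr.ne']
      exact (((hd n).mono hsubU).sub (differentiableOn_const _)).inv hnz
    exact hdd.diffContOnCl
  have hmax := Complex.norm_le_of_forall_mem_frontier_norm_le (C := (c / 2)⁻¹) isBounded_ball hdiff
    (by
      intro z hz
      rw [frontier_ball b hr.ne'] at hz
      rw [norm_inv]
      exact inv_anti₀ (by positivity) (hsphlow z hz)) (subset_closure (mem_ball_self hr))
  rw [norm_inv] at hmax
  have e4 : c / 2 ≤ ‖F n b - F n a‖ := by
    have hp : 0 < ‖F n b - F n a‖ := norm_pos_iff.2 (hnz b (mem_closedBall_self hr.le))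
    exact (inv_le_inv₀ hp (by positivity)).1 hmax
  have e5 := hclose b (mem_closedBall_self hr.le)
  rw [hgb, sub_zero] at e5
  linarith

end DS
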