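import Pool.Agent.H36.DS.RA
import Pool.Agent.H36.DS.RB
import Pool.Agent.H36.DS.RI

/-!
RC (extremal map).  Proof.  Let `closedBall z₀ r ⊆ U`.  By the Cauchy estimate `‖deriv g z₀‖ ≤ 1/r` for all
`g ∈ Fam U`, so `S = sup ‖deriv g z₀‖` is finite, and `S > 0` by `deriv_ne_zero_of_injOn`.  Take
`g n ∈ Fam U` with `‖deriv (g n) z₀‖ → S`; by `montel` a subsequence converges locally uniformly to `f`,
`deriv (g (k n)) z₀ → deriv f z₀` (`TendstoLocallyUniformlyOn.deriv`), so `‖deriv f z₀‖ = S > 0`, hence `f`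
is not constant near `z₀` and by `hurwitz_inj` it is injective on `U`.  `‖f z‖ ≤ 1` on `U`; by the open
mapping theorem (or the maximum principle) `‖f z‖ < 1` on `U`, since `f` is not constant.  So `f ∈ Fam U`.
-/

namespace DS
open Metric Set Filter Topology

theorem extremal {U : Set ℂ} (hU : IsOpen U) (hc : IsConnected U) {z₀ : ℂ} (hz₀ : z₀ ∈ U)
    (hne : (Fam U).Nonempty) :
    ∃ f ∈ Fam U, 0 < ‖deriv f z₀‖ ∧ ∀ g ∈ Fam U, ‖deriv g z₀‖ ≤ ‖deriv f z₀‖ := by
  obtain ⟨r, hr, hrU⟩ := Metric.isOpen_iff.1 hU z₀ hz₀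
  have hcb : closedBall z₀ (r/2) ⊆ U := (closedBall_subset_ball (by linarith)).trans hrU
  set D : Set ℝ := (fun g : ℂ → ℂ => ‖deriv g z₀‖) '' Fam U with hD
  have hbd : BddAbove D := by
    refine ⟨1 / (r/2), ?_⟩
    rintro _ ⟨g, ⟨gd, gm, gi⟩, rfl⟩
    refine Complex.norm_deriv_le_of_forall_mem_sphere_norm_le (by linarith) ?_ ?_
    · exact (gd.mono hcb).diffContOnCl_ball (subset_refl _)
    · intro z hz
      have := gm (hcb (sphere_subset_closedBall hz))
      exact (mem_ball_zero_iff.1 this).le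
  have hDne : D.Nonempty := hne.image _
  have hle : ∀ g ∈ Fam U, ‖deriv g z₀‖ ≤ sSup D := fun g hg => le_csSup hbd ⟨g, hg, rfl⟩
  have hSpos : 0 < sSup D := by
    obtain ⟨g, hg⟩ := hne
    exact lt_of_lt_of_le (norm_pos_iff.2 (deriv_ne_zero_of_injOn hU hg.1 hg.2.2 hz₀)) (hle g hg)
  obtain ⟨u, -, hut, hu⟩ := exists_seq_tendsto_sSup hDne hbd
  choose g hg hgu using hu
  obtain ⟨k, f, hk, hfd, hlim⟩ := montel hU g (fun n => (hg n).1)
    (fun n z hz => (mem_ball_zero_iff.1 ((hg n).2.1 hz)).le)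
  have hder : Tendsto (fun n => ‖deriv (g (k n)) z₀‖) atTop (𝓝 ‖deriv f z₀‖) :=
    ((hlim.deriv (Eventually.of_forall fun n => (hg (k n)).1) hU).tendsto_at hz₀).norm
  have hder2 : Tendsto (fun n => ‖deriv (g (k n)) z₀‖) atTop (𝓝 (sSup D)) := by
    have := hut.comp hk.tendsto_atTop
    refine this.congr (fun n => ?_)
    exact (hgu (k n)).symm
  have hfS : ‖deriv f z₀‖ = sSup D := tendsto_nhds_unique hder hder2
  have hnc : ∀ c, ¬ EqOn f (fun _ => c) U := by
    intro c hcst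
    have : deriv f z₀ = 0 := by
      have h1 : f =ᶠ[𝓝 z₀] fun _ => c := by
        filter_upwards [hU.mem_nhds hz₀] with z hz using hcst hz
      rw [h1.deriv_eq]; simp
    rw [this, norm_zero] at hfS
    linarith
  have hinj : InjOn f U := by
    rcases hurwitz_inj hU hc.isPreconnected (fun n => g (k n)) f (fun n => (hg (k n)).1)
      (fun n => (hg (k n)).2.2) hlim with h | ⟨c, h⟩
    · exact h
    · exact absurd h (hnc c)
  have hle1 : ∀ z ∈ U, ‖f z‖ ≤ 1 := by
    intro z hz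
    exact le_of_tendsto (hlim.tendsto_at hz).norm
      (Eventually.of_forall fun n => (mem_ball_zero_iff.1 ((hg (k n)).2.1 hz)).le)
  have han : AnalyticOnNhd ℂ f U := hfd.analyticOnNhd hU
  have hopen : IsOpen (f '' U) := by
    rcases han.is_constant_or_isOpen hc.isPreconnected with ⟨w, hw⟩ | h
    · exact absurd (fun z hz => hw z hz) (hnc w)
    · exact h U (subset_refl _) hU
  have hmaps : MapsTo f U (ball 0 1) := by
    intro z hz
    have h1 : f '' U ⊆ closedBall 0 1 := by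
      rintro _ ⟨w, hw, rfl⟩
      exact mem_closedBall_zero_iff.2 (hle1 w hw)
    have h2 : f '' U ⊆ interior (closedBall 0 1) := interior_maximal h1 hopen
    rw [interior_closedBall (0:ℂ) one_ne_zero] at h2
    exact h2 ⟨z, hz, rfl⟩
  refine ⟨f, ⟨hfd, hmaps, hinj⟩, ?_, ?_⟩
  · rw [hfS]; exact hSpos
  · intro g hg
    rw [hfS]; exact hle g hg

end DS
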