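import Pool.Agent.H36.DS.RI

/-!
RD (Koebe square root step).  Proof.  For `a` in the unit disc let
`B a w = (w - a) / (1 - conj a * w)` (an automorphism of the disc with inverse `B (-a)`).
First replace `f` by `f₀ = B (f z₀) ∘ f`: it is in `Fam U`, `f₀ z₀ = 0`, and
`‖deriv f₀ z₀‖ = ‖deriv f z₀‖ / (1 - ‖f z₀‖ ^ 2) ≥ ‖deriv f z₀‖`; it omits `a₀ = B (f z₀) a`, a point of
the disc.  So assume `f z₀ = 0` and `a ∉ f '' U` (then `a ≠ 0`).  `B a ∘ f` has no zero on `U`; let `s` be a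
holomorphic square root of it (`hsq`); `s` maps `U` to the disc and is injective (`s z = s w` gives
`B a (f z) = B a (f w)`).  Put `b = s z₀`, `b ^ 2 = B a 0 = -a`, `g = B b ∘ s ∈ Fam U`, `g z₀ = 0`.
Derivatives: `deriv (B a) 0 = 1 - ‖a‖ ^ 2`, `2 b * deriv s z₀ = (1 - ‖a‖ ^ 2) * deriv f z₀`,
`deriv (B b) b = 1 / (1 - ‖b‖ ^ 2)`, `‖b‖ ^ 2 = ‖a‖`, so
`‖deriv g z₀‖ = ‖deriv f z₀‖ * (1 + ‖a‖) / (2 * sqrt ‖a‖) > ‖deriv f z₀‖`
because `‖a‖ < 1` and `deriv f z₀ ≠ 0` (`deriv_ne_zero_of_injOn`).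
-/

namespace DS
open Metric Set Filter Topology

/-- the disc automorphism -/
private noncomputable def RD_B (a w : ℂ) : ℂ := (w - a) / (1 - (starRingEnd ℂ) a * w)

private theorem RD_id (a w : ℂ) :
    ‖1 - (starRingEnd ℂ) a * w‖ ^ 2 - ‖w - a‖ ^ 2 = (1 - ‖a‖ ^ 2) * (1 - ‖w‖ ^ 2) := by
  simp only [Complex.sq_norm, Complex.normSq_apply, Complex.sub_re, Complex.sub_im, Complex.mul_re,
    Complex.mul_im, Complex.conj_re, Complex.conj_im, Complex.one_re, Complex.one_im]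
  ring

private theorem RD_ne {a w : ℂ} (ha : ‖a‖ < 1) (hw : ‖w‖ < 1) : 1 - (starRingEnd ℂ) a * w ≠ 0 := by
  intro h
  have h1 : ‖(starRingEnd ℂ) a * w‖ < 1 := by
    rw [norm_mul, Complex.norm_conj]
    exact mul_lt_one_of_nonneg_of_lt_one_left (norm_nonneg _) ha hw.le
  have h2 : (starRingEnd ℂ) a * w = 1 := (sub_eq_zero.1 h).symm
  rw [h2] at h1
  simp at h1

private theorem RD_one_sub {a w : ℂ} (ha : ‖a‖ < 1) (hw : ‖w‖ < 1) :
    1 - ‖RD_B a w‖ ^ 2 = (1 - ‖a‖ ^ 2) * (1 - ‖w‖ ^ 2) / ‖1 - (starRingEnd ℂ) a * w‖ ^ 2 := by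
  have h := norm_pos_iff.2 (RD_ne ha hw)
  rw [RD_B, norm_div, div_pow, ← RD_id, sub_div, div_self (by positivity)]

private theorem RD_lt {a w : ℂ} (ha : ‖a‖ < 1) (hw : ‖w‖ < 1) : ‖RD_B a w‖ < 1 := by
  have h := norm_pos_iff.2 (RD_ne ha hw)
  have h1 := RD_one_sub ha hw
  have h2 : 0 < (1 - ‖a‖ ^ 2) * (1 - ‖w‖ ^ 2) / ‖1 - (starRingEnd ℂ) a * w‖ ^ 2 := by
    apply div_pos
    · apply mul_pos
      · nlinarith [norm_nonneg a]
      · nlinarith [norm_nonneg w]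
    · positivity
  nlinarith [norm_nonneg (RD_B a w)]

private theorem RD_inj {a w w' : ℂ} (ha : ‖a‖ < 1) (hw : ‖w‖ < 1) (hw' : ‖w'‖ < 1)
    (h : RD_B a w = RD_B a w') : w = w' := by
  unfold RD_B at h
  rw [div_eq_div_iff (RD_ne ha hw) (RD_ne ha hw')] at h
  have h1 : (w - w') * (1 - (starRingEnd ℂ) a * a) = 0 := by linear_combination h
  rcases mul_eq_zero.1 h1 with h2 | h2
  · exact sub_eq_zero.1 h2
  · exact absurd h2 (RD_ne ha ha)

private theorem RD_deriv {a w : ℂ} (ha : ‖a‖ < 1) (hw : ‖w‖ < 1) :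
    HasDerivAt (RD_B a) ((1 - (starRingEnd ℂ) a * a) / (1 - (starRingEnd ℂ) a * w) ^ 2) w := by
  have h1 : HasDerivAt (fun w : ℂ => w - a) 1 w := (hasDerivAt_id w).sub_const a
  have h2 : HasDerivAt (fun w : ℂ => 1 - (starRingEnd ℂ) a * w) (-((starRingEnd ℂ) a)) w := by
    have := ((hasDerivAt_id w).const_mul ((starRingEnd ℂ) a)).const_sub 1
    simpa using this
  have h3 := h1.div h2 (RD_ne ha hw)
  have e : (1 * (1 - (starRingEnd ℂ) a * w) - (w - a) * -(starRingEnd ℂ) a) /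
      (1 - (starRingEnd ℂ) a * w) ^ 2 =
      (1 - (starRingEnd ℂ) a * a) / (1 - (starRingEnd ℂ) a * w) ^ 2 := by
    congr 1
    ring
  rw [e] at h3
  exact h3

private theorem RD_norm_deriv {a w : ℂ} (ha : ‖a‖ < 1) (hw : ‖w‖ < 1) :
    ‖(1 - (starRingEnd ℂ) a * a) / (1 - (starRingEnd ℂ) a * w) ^ 2‖ * (1 - ‖w‖ ^ 2) =
      1 - ‖RD_B a w‖ ^ 2 := by
  have h1 : (1 : ℂ) - (starRingEnd ℂ) a * a = ((1 - ‖a‖ ^ 2 : ℝ) : ℂ) := by
    rw [mul_comm, Complex.mul_conj, Complex.normSq_eq_norm_sq]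
    push_cast
    ring
  rw [RD_one_sub ha hw, h1, norm_div, norm_pow, Complex.norm_real, Real.norm_eq_abs,
    abs_of_nonneg (by nlinarith [norm_nonneg a])]
  ring

theorem koebe_step {U : Set ℂ} (hU : IsOpen U) (hc : IsConnected U) {z₀ : ℂ} (hz₀ : z₀ ∈ U)
    (hsq : ∀ f : ℂ → ℂ, DifferentiableOn ℂ f U → (∀ z ∈ U, f z ≠ 0) →
      ∃ s : ℂ → ℂ, DifferentiableOn ℂ s U ∧ ∀ z ∈ U, s z ^ 2 = f z)
    {f : ℂ → ℂ} (hf : f ∈ Fam U) (hns : ∃ a ∈ ball (0:ℂ) 1, a ∉ f '' U) :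
    ∃ g ∈ Fam U, ‖deriv f z₀‖ < ‖deriv g z₀‖ := by
  obtain ⟨hfd, hfm, hfi⟩ := hf
  obtain ⟨a, ha, hna⟩ := hns
  rw [mem_ball_zero_iff] at ha
  have hfn : ∀ z ∈ U, ‖f z‖ < 1 := fun z hz => mem_ball_zero_iff.1 (hfm hz)
  have hU0 : ∀ z ∈ U, U ∈ 𝓝 z := fun z hz => hU.mem_nhds hz
  set h : ℂ → ℂ := fun z => RD_B a (f z) with hh
  have hfder : ∀ z ∈ U, HasDerivAt f (deriv f z) z := fun z hz =>
    ((hfd z hz).differentiableAt (hU0 z hz)).hasDerivAt
  have hhder : ∀ z ∈ U, HasDerivAt h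
      ((1 - (starRingEnd ℂ) a * a) / (1 - (starRingEnd ℂ) a * f z) ^ 2 * deriv f z) z :=
    fun z hz => (RD_deriv ha (hfn z hz)).comp z (hfder z hz)
  have hh0 : ∀ z ∈ U, h z ≠ 0 := by
    intro z hz h0
    apply hna
    refine ⟨z, hz, ?_⟩
    have : f z - a = 0 := by
      rcases div_eq_zero_iff.1 h0 with h1 | h1
      · exact h1
      · exact absurd h1 (RD_ne ha (hfn z hz))
    exact sub_eq_zero.1 this
  obtain ⟨s, hsd, hs⟩ := hsq h (fun z hz => (hhder z hz).differentiableAt.differentiableWithinAt) hh0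
  have hsn : ∀ z ∈ U, ‖s z‖ < 1 := by
    intro z hz
    have h1 : ‖s z‖ ^ 2 < 1 := by
      rw [← norm_pow, hs z hz]
      exact RD_lt ha (hfn z hz)
    nlinarith [norm_nonneg (s z)]
  have hsder : ∀ z ∈ U, HasDerivAt s (deriv s z) z := fun z hz =>
    ((hsd z hz).differentiableAt (hU0 z hz)).hasDerivAt
  have hsi : InjOn s U := by
    intro z hz w hw hzw
    apply hfi hz hw
    apply RD_inj ha (hfn z hz) (hfn w hw)
    have h1 := hs z hz
    rw [hzw, hs w hw] at h1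
    exact h1.symm
  set b := s z₀ with hb
  have hbn : ‖b‖ < 1 := hsn z₀ hz₀
  have hb0 : b ≠ 0 := by
    intro h0
    apply hh0 z₀ hz₀
    rw [← hs z₀ hz₀, ← hb, h0]
    simp
  have hbpos := norm_pos_iff.2 hb0
  refine ⟨fun z => RD_B b (s z), ⟨?_, ?_, ?_⟩, ?_⟩
  · intro z hz
    exact ((RD_deriv hbn (hsn z hz)).comp z (hsder z hz)).differentiableAt.differentiableWithinAt
  · intro z hz
    exact mem_ball_zero_iff.2 (RD_lt hbn (hsn z hz))
  · intro z hz w hw hzw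
    exact hsi hz hw (RD_inj hbn (hsn z hz) (hsn w hw) hzw)
  · have hf0 : 0 < ‖deriv f z₀‖ := norm_pos_iff.2 (deriv_ne_zero_of_injOn hU hfd hfi hz₀)
    -- derivative of `s ^ 2 = h` at `z₀`
    have e1 : 2 * b * deriv s z₀ =
        (1 - (starRingEnd ℂ) a * a) / (1 - (starRingEnd ℂ) a * f z₀) ^ 2 * deriv f z₀ := by
      have h1 : HasDerivAt (fun z => s z ^ 2) (2 * b * deriv s z₀) z₀ := by
        have := (hsder z₀ hz₀).pow 2
        have e : ((2 : ℕ) : ℂ) * s z₀ ^ (2 - 1) * deriv s z₀ = 2 * b * deriv s z₀ := by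
          rw [hb]; norm_num
        rw [e] at this
        exact this
      have h2 : HasDerivAt (fun z => s z ^ 2)
          ((1 - (starRingEnd ℂ) a * a) / (1 - (starRingEnd ℂ) a * f z₀) ^ 2 * deriv f z₀) z₀ :=
        (hhder z₀ hz₀).congr_of_eventuallyEq (by
          filter_upwards [hU0 z₀ hz₀] with z hz
          exact hs z hz)
      exact h1.unique h2
    have e2 : deriv (fun z => RD_B b (s z)) z₀ =
        (1 - (starRingEnd ℂ) b * b) / (1 - (starRingEnd ℂ) b * b) ^ 2 * deriv s z₀ :=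
      ((RD_deriv hbn (hsn z₀ hz₀)).comp z₀ (hsder z₀ hz₀)).deriv
    have n1 := RD_norm_deriv ha (hfn z₀ hz₀)
    have n2 := RD_norm_deriv hbn hbn
    have n3 : RD_B b b = 0 := by unfold RD_B; simp
    rw [n3, norm_zero] at n2
    have n4 : ‖RD_B a (f z₀)‖ = ‖b‖ ^ 2 := by
      rw [← norm_pow, hb, hs z₀ hz₀]
    rw [n4] at n1
    set A := ‖(1 - (starRingEnd ℂ) a * a) / (1 - (starRingEnd ℂ) a * f z₀) ^ 2‖ with hA
    set D := ‖(1 - (starRingEnd ℂ) b * b) / (1 - (starRingEnd ℂ) b * b) ^ 2‖ with hD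
    have m1 : 2 * ‖b‖ * ‖deriv s z₀‖ = A * ‖deriv f z₀‖ := by
      have := congrArg norm e1
      rw [norm_mul, norm_mul, norm_mul, Complex.norm_two] at this
      exact this
    have m2 : ‖deriv (fun z => RD_B b (s z)) z₀‖ = D * ‖deriv s z₀‖ := by
      rw [e2, norm_mul]
    rw [m2]
    set x := ‖deriv f z₀‖
    set y := ‖deriv s z₀‖
    set t := ‖b‖
    have hfz := hfn z₀ hz₀
    have hA0 : 0 ≤ A := norm_nonneg _
    have hA1 : 1 - t ^ 4 ≤ A := by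
      have : A * (1 - ‖f z₀‖ ^ 2) ≤ A * 1 :=
        mul_le_mul_of_nonneg_left (by nlinarith [norm_nonneg (f z₀)]) hA0
      have h4 : (t ^ 2) ^ 2 = t ^ 4 := by ring
      rw [h4] at n1
      linarith
    have ht1 : 0 < 1 - t ^ 2 := by nlinarith
    have hDe : D = 1 / (1 - t ^ 2) := by
      rw [eq_div_iff ht1.ne']
      simpa using n2
    have h5 : (1 - t ^ 4) * x ≤ 2 * t * y := by
      rw [m1]
      exact mul_le_mul_of_nonneg_right hA1 hf0.le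
    rw [hDe, one_div, inv_mul_eq_div, lt_div_iff₀ ht1]
    -- `x (1 - t²) < y`
    have h6 : 2 * t * (x * (1 - t ^ 2)) < 2 * t * y := by
      refine lt_of_lt_of_le ?_ h5
      have h7 : (1 - t ^ 4) * x - 2 * t * (x * (1 - t ^ 2)) = x * (1 - t ^ 2) * (1 - t) ^ 2 := by ring
      have h8 : 0 < x * (1 - t ^ 2) * (1 - t) ^ 2 := by
        apply mul_pos (mul_pos hf0 ht1)
        have : 0 < 1 - t := by linarith
        positivity
      linarith
    exact lt_of_mul_lt_mul_left h6 (by positivity)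

end DS
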