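import Pool.Agent.H36.DS.Base

/-!
RE (the family is not empty).  Proof.  Take `p ∉ U` and a holomorphic square root `s` of `z - p` on `U`.
`s` is injective and `s z = - s w` is impossible for `z, w ∈ U` (it gives `z = w`, then `s z = 0`, `z = p`).
`s` is not constant on the (open, nonempty) set `U`, so `s '' U` contains a ball `ball c r` (open mapping,
`U` connected; or: `deriv s z = 1 / (2 s z) ≠ 0` and the local inverse), hence `‖s z + c‖ ≥ r` for all
`z ∈ U`.  Then `f z = (r / 2) / (s z + c)` is holomorphic and injective on `U` with `‖f z‖ ≤ 1/2`.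
(Compare the proof of `Complex.exists_mapsTo_unitBall_injOn_deriv_ne_zero` in Mathlib.)
-/

namespace DS
open Metric Set Filter Topology

theorem fam_nonempty {U : Set ℂ} (hU : IsOpen U) (hc : IsConnected U) (hne : U ≠ univ)
    (hsq : ∀ f : ℂ → ℂ, DifferentiableOn ℂ f U → (∀ z ∈ U, f z ≠ 0) →
      ∃ s : ℂ → ℂ, DifferentiableOn ℂ s U ∧ ∀ z ∈ U, s z ^ 2 = f z) :
    (Fam U).Nonempty := by
  obtain ⟨p, hp⟩ : ∃ p, p ∉ U := by
    by_contra hcon
    push Not at hcon
    exact hne (eq_univ_of_forall hcon)
  have hzp : ∀ z ∈ U, z - p ≠ 0 := by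
    intro z hz h
    exact hp ((sub_eq_zero.1 h) ▸ hz)
  obtain ⟨s, hsd, hs⟩ := hsq (fun z => z - p) (by fun_prop) hzp
  have hs0 : ∀ z ∈ U, s z ≠ 0 := by
    intro z hz h
    apply hzp z hz
    have := hs z hz
    rw [h] at this
    simpa using this.symm
  obtain ⟨x, hx⟩ := hc.nonempty
  have hder : HasStrictDerivAt s (2 * s x)⁻¹ x := by
    refine HasStrictDerivAt.of_local_left_inverse (f := fun w => w ^ 2 + p) ?_ ?_ ?_ ?_
    · exact (hsd.differentiableAt (hU.mem_nhds hx)).continuousAt
    · simpa using (hasStrictDerivAt_pow 2 (s x)).add_const p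
    · simpa using hs0 x hx
    · filter_upwards [hU.mem_nhds hx] with z hz
      rw [hs z hz]
      ring
  have himg : s '' U ∈ 𝓝 (s x) := by
    rw [← hder.map_nhds_eq (by simpa using hs0 x hx)]
    exact Filter.image_mem_map (hU.mem_nhds hx)
  obtain ⟨r, hr, hball⟩ := Metric.mem_nhds_iff.1 himg
  have hfar : ∀ z ∈ U, r ≤ ‖s z + s x‖ := by
    intro z hz
    by_contra hcon
    push Not at hcon
    have h1 : - s z ∈ ball (s x) r := by
      rw [mem_ball, dist_eq_norm]
      have : - s z - s x = -(s z + s x) := by ring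
      rw [this, norm_neg]
      exact hcon
    obtain ⟨w, hw, hws⟩ := hball h1
    have h2 : z = w := by
      have e1 := hs z hz
      have e2 := hs w hw
      rw [hws] at e2
      have e3 : (- s z) ^ 2 = s z ^ 2 := by ring
      rw [e3, e1] at e2
      simpa using e2
    rw [← h2] at hws
    apply hs0 z hz
    linear_combination hws / 2
  have hne0 : ∀ z ∈ U, s z + s x ≠ 0 := by
    intro z hz h
    have := hfar z hz
    rw [h, norm_zero] at this
    linarith
  refine ⟨fun z => ((r / 2 : ℝ) : ℂ) / (s z + s x), ?_, ?_, ?_⟩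
  · refine DifferentiableOn.div (differentiableOn_const _) (hsd.add_const _) hne0
  · intro z hz
    rw [mem_ball_zero_iff, norm_div, Complex.norm_real, Real.norm_of_nonneg (by positivity),
      div_lt_one (norm_pos_iff.2 (hne0 z hz))]
    have := hfar z hz
    linarith
  · intro z hz w hw h
    simp only at h
    have h3 : ((r / 2 : ℝ) : ℂ) ≠ 0 := by
      exact_mod_cast (by positivity : (r / 2 : ℝ) ≠ 0)
    rw [div_eq_div_iff (hne0 z hz) (hne0 w hw)] at h
    have h4 := mul_left_cancel₀ h3 h
    have h5 : s w = s z := by linear_combination h4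
    have e1 := hs z hz
    have e2 := hs w hw
    rw [h5, e1] at e2
    simpa using e2

end DS
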