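import Pool.Agent.H36.DS.RC
import Pool.Agent.H36.DS.RD
import Pool.Agent.H36.DS.RE

/-!
RF (Riemann mapping theorem for domains with square roots).  Proof.  By `fam_nonempty` and `extremal`
there is an extremal `f ∈ Fam U` for `z₀`; by `koebe_step` it is onto the disc.  Replace it by
`B (f z₀) ∘ f` (`B a w = (w - a) / (1 - conj a * w)`) to get `f z₀ = 0`.  The inverse `F` of the bijection
`f : U → ball 0 1` is holomorphic: `f` has nonzero derivative (`deriv_ne_zero_of_injOn`) and is open, so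
`F` is continuous and `HasStrictDerivAt.of_local_left_inverse` / the inverse function theorem applies.
-/

namespace DS
open Metric Set Filter Topology

/-- the automorphism of the disc moving `a` to `0` -/
private noncomputable def RF_B (a w : ℂ) : ℂ := (w - a) / (1 - (starRingEnd ℂ) a * w)

private lemma RF_den {a w : ℂ} (ha : ‖a‖ < 1) (hw : ‖w‖ < 1) : 1 - (starRingEnd ℂ) a * w ≠ 0 := by
  intro h
  have h1 : (starRingEnd ℂ) a * w = 1 := (sub_eq_zero.1 h).symm
  have h2 : ‖(starRingEnd ℂ) a * w‖ = 1 := by rw [h1]; simp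
  rw [norm_mul, Complex.norm_conj] at h2
  nlinarith [norm_nonneg a, norm_nonneg w]

private lemma RF_lt {a w : ℂ} (ha : ‖a‖ < 1) (hw : ‖w‖ < 1) : ‖RF_B a w‖ < 1 := by
  have hden := RF_den ha hw
  rw [RF_B, norm_div, div_lt_one (norm_pos_iff.2 hden)]
  have h1 : ‖w - a‖ ^ 2 < ‖1 - (starRingEnd ℂ) a * w‖ ^ 2 := by
    have ha2 : a.re * a.re + a.im * a.im < 1 := by
      have := Complex.normSq_apply a
      rw [Complex.normSq_eq_norm_sq] at this
      rw [← this]; nlinarith [norm_nonneg a]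
    have hw2 : w.re * w.re + w.im * w.im < 1 := by
      have := Complex.normSq_apply w
      rw [Complex.normSq_eq_norm_sq] at this
      rw [← this]; nlinarith [norm_nonneg w]
    rw [← Complex.normSq_eq_norm_sq, ← Complex.normSq_eq_norm_sq, Complex.normSq_apply,
      Complex.normSq_apply]
    simp only [Complex.sub_re, Complex.sub_im, Complex.one_re, Complex.one_im, Complex.mul_re,
      Complex.mul_im, Complex.conj_re, Complex.conj_im]
    nlinarith [mul_pos (sub_pos.2 ha2) (sub_pos.2 hw2)]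
  exact lt_of_pow_lt_pow_left₀ 2 (norm_nonneg _) h1

private lemma RF_inv {a w : ℂ} (ha : ‖a‖ < 1) (hw : ‖w‖ < 1) : RF_B (-a) (RF_B a w) = w := by
  have hden := RF_den ha hw
  have hb := RF_lt ha hw
  have hden2 := RF_den (a := -a) (by simpa using ha) hb
  have haa : (1 : ℂ) - (starRingEnd ℂ) a * a ≠ 0 := RF_den ha ha
  unfold RF_B at hden2 ⊢
  rw [div_eq_iff hden2]
  rw [map_neg] at hden2 ⊢
  generalize (starRingEnd ℂ) a = c at *
  have key : (w - a) / (1 - c * w) - -a = w * (1 - -c * ((w - a) / (1 - c * w))) := by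
    have e : (1 - c * w) ≠ 0 := hden
    have e1 : (w - a) / (1 - c * w) * (1 - c * w) = w - a := div_mul_cancel₀ _ e
    apply mul_right_cancel₀ e
    linear_combination (1 - w * c) * e1
  exact key

private lemma RF_diff {a : ℂ} (ha : ‖a‖ < 1) : DifferentiableOn ℂ (RF_B a) (ball 0 1) := by
  intro w hw
  have hw' : ‖w‖ < 1 := mem_ball_zero_iff.1 hw
  unfold RF_B
  refine DifferentiableWithinAt.div (by fun_prop) (by fun_prop) (RF_den ha hw')

theorem riemann_map {U : Set ℂ} (hU : IsOpen U) (hc : IsConnected U) (hne : U ≠ univ)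
    (hsq : ∀ f : ℂ → ℂ, DifferentiableOn ℂ f U → (∀ z ∈ U, f z ≠ 0) →
      ∃ s : ℂ → ℂ, DifferentiableOn ℂ s U ∧ ∀ z ∈ U, s z ^ 2 = f z)
    {z₀ : ℂ} (hz₀ : z₀ ∈ U) :
    ∃ f F : ℂ → ℂ, DifferentiableOn ℂ f U ∧ DifferentiableOn ℂ F (ball 0 1) ∧
      MapsTo f U (ball 0 1) ∧ MapsTo F (ball 0 1) U ∧ (∀ z ∈ U, F (f z) = z) ∧
      (∀ w ∈ ball (0:ℂ) 1, f (F w) = w) ∧ f z₀ = 0 := by
  obtain ⟨f, hf, -, hmax⟩ := extremal hU hc hz₀ (fam_nonempty hU hc hne hsq)
  have hsurj : ∀ a ∈ ball (0:ℂ) 1, ∃ z ∈ U, f z = a := by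
    by_contra hcon
    push Not at hcon
    obtain ⟨a, ha, hna⟩ := hcon
    obtain ⟨g, hg, hlt⟩ := koebe_step hU hc hz₀ hsq hf
      ⟨a, ha, by rintro ⟨z, hz, hza⟩; exact hna z hz hza⟩
    exact absurd (hmax g hg) (not_le.2 hlt)
  obtain ⟨fd, fm, fi⟩ := hf
  classical
  -- the inverse of `f`
  choose! G hGU hGf using hsurj
  have hGinv : ∀ z ∈ U, G (f z) = z := fun z hz =>
    fi (hGU _ (fm hz)) hz (hGf _ (fm hz))
  have han : AnalyticOnNhd ℂ f U := fd.analyticOnNhd hU
  have hopen : ∀ s ⊆ U, IsOpen s → IsOpen (f '' s) := by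
    rcases han.is_constant_or_isOpen hc.isPreconnected with ⟨w, hw⟩ | h
    · exfalso
      have h0 := hw (G 0) (hGU 0 (by simp))
      have h1 := hw (G (1/2)) (hGU (1/2) (by rw [mem_ball_zero_iff]; norm_num))
      rw [hGf 0 (by simp)] at h0
      rw [hGf (1/2) (by rw [mem_ball_zero_iff]; norm_num)] at h1
      rw [← h0] at h1
      norm_num at h1
    · exact h
  have hGcont : ∀ w ∈ ball (0:ℂ) 1, ContinuousAt G w := by
    intro w hw
    rw [ContinuousAt, Filter.tendsto_def]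
    intro V hV
    obtain ⟨W, hWV, hWo, hW⟩ := _root_.mem_nhds_iff.1 (Filter.inter_mem hV (hU.mem_nhds (hGU w hw)))
    have h1 : f '' W ∈ 𝓝 w :=
      (hopen W (fun x hx => (hWV hx).2) hWo).mem_nhds ⟨G w, hW, hGf w hw⟩
    filter_upwards [h1] with y hy
    obtain ⟨x, hx, rfl⟩ := hy
    show G (f x) ∈ V
    rw [hGinv x (hWV hx).2]
    exact (hWV hx).1
  have hGd : DifferentiableOn ℂ G (ball 0 1) := by
    intro w hw
    have h1 : HasStrictDerivAt f (deriv f (G w)) (G w) :=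
      (han (G w) (hGU w hw)).hasStrictDerivAt
    have h2 : HasStrictDerivAt G (deriv f (G w))⁻¹ w := by
      refine HasStrictDerivAt.of_local_left_inverse (hGcont w hw) h1
        (deriv_ne_zero_of_injOn hU fd fi (hGU w hw)) ?_
      filter_upwards [isOpen_ball.mem_nhds hw] with y hy using hGf y hy
    exact h2.hasDerivAt.differentiableAt.differentiableWithinAt
  -- normalisation
  set a := f z₀ with ha
  have ha1 : ‖a‖ < 1 := mem_ball_zero_iff.1 (fm hz₀)
  have ham : ‖-a‖ < 1 := by simpa using ha1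
  have hBm : MapsTo (RF_B a) (ball 0 1) (ball 0 1) := fun w hw =>
    mem_ball_zero_iff.2 (RF_lt ha1 (mem_ball_zero_iff.1 hw))
  have hBm' : MapsTo (RF_B (-a)) (ball 0 1) (ball 0 1) := fun w hw =>
    mem_ball_zero_iff.2 (RF_lt ham (mem_ball_zero_iff.1 hw))
  refine ⟨fun z => RF_B a (f z), fun w => G (RF_B (-a) w), ?_, ?_, ?_, ?_, ?_, ?_, ?_⟩
  · exact (RF_diff ha1).comp fd fm
  · exact hGd.comp (RF_diff ham) hBm'
  · exact fun z hz => hBm (fm hz)
  · exact fun w hw => hGU _ (hBm' hw)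
  · intro z hz
    show G (RF_B (-a) (RF_B a (f z))) = z
    rw [RF_inv ha1 (mem_ball_zero_iff.1 (fm hz)), hGinv z hz]
  · intro w hw
    show RF_B a (f (G (RF_B (-a) w))) = w
    rw [hGf _ (hBm' hw)]
    have := RF_inv ham (mem_ball_zero_iff.1 hw)
    rwa [neg_neg] at this
  · show RF_B a (f z₀) = 0
    rw [← ha, RF_B]; simp

end DS
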