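import Pool.Agent.H36.DS.Base

/-!
RH (winding numbers of closed polygons around points of a set without compact open pieces).
Proof.  For a segment `[a,b]` not containing `z`: `segI (fun w => (w - z)⁻¹) a b = Complex.log ((b-z)/(a-z))`
(the quotient is not in `(-∞, 0]`, differentiate `t ↦ log ((a + t (b-a) - z)/(a-z))`).  Hence for a closed
polygon avoiding `z` the sum of the edge integrals has exponential `1`, so it is `2 π i n`, `n ∈ ℤ`
(`wnd_int`).  The sum is continuous in `z` on the (open) set of points off the polygon (each term is a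
continuous function of `z`, the logarithm of a quotient in the slit plane), hence locally constant there,
and it tends to `0` for `‖z‖ → ∞`, so it vanishes for `‖z‖ ≥ R` (`‖sum‖ < 2 π`).
`wnd_zero`: let `C` be the set of `z ∉ U` with nonzero value.  It is relatively open in `Uᶜ` and relatively
closed (locally constant), closed in `ℂ` and bounded, so compact, and of the form `O ∩ Uᶜ` with `O` open;
by hypothesis it is empty.
-/

namespace DS
open Metric Set Filter Topology

private theorem RH_slit {a b z : ℂ} (hz : z ∉ segment ℝ a b) {t : ℝ} (h0 : 0 ≤ t) (h1 : t ≤ 1) :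
    (a + t * (b - a) - z) / (a - z) ∈ Complex.slitPlane := by
  have haz : a - z ≠ 0 := by
    intro h
    apply hz
    rw [← sub_eq_zero.mp h]
    exact left_mem_segment ℝ a b
  by_contra hcon
  rw [Complex.mem_slitPlane_iff_not_le_zero, not_not] at hcon
  obtain ⟨s, hs⟩ : ∃ s : ℝ, (a + t * (b - a) - z) / (a - z) = (s : ℂ) := by
    refine ⟨((a + t * (b - a) - z) / (a - z)).re, ?_⟩
    apply Complex.ext
    · simp
    · rw [Complex.ofReal_im]
      exact (Complex.le_def.mp hcon).2
  have hs0 : s ≤ 0 := by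
    rw [hs] at hcon
    exact_mod_cast hcon
  rw [div_eq_iff haz] at hs
  apply hz
  have h1s : (0 : ℝ) < 1 - s := by linarith
  rw [segment_eq_image']
  refine ⟨t / (1 - s), ⟨by positivity, ?_⟩, ?_⟩
  · rw [div_le_one h1s]
    linarith
  · have h1s' : ((1 : ℂ) - s) ≠ 0 := by
      have : ((1 - s : ℝ) : ℂ) ≠ 0 := by exact_mod_cast h1s.ne'
      push_cast at this
      exact this
    show a + (t / (1 - s)) • (b - a) = z
    rw [Complex.real_smul]
    push_cast
    field_simp
    linear_combination hs

private theorem RH_seg {a b z : ℂ} (hz : z ∉ segment ℝ a b) :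
    segI (fun w => (w - z)⁻¹) a b = Complex.log ((b - z) / (a - z)) := by
  have haz : a - z ≠ 0 := by
    intro h
    apply hz
    rw [← sub_eq_zero.mp h]
    exact left_mem_segment ℝ a b
  have hne : ∀ t ∈ Set.uIcc (0 : ℝ) 1, (a + t * (b - a) - z) ≠ 0 := by
    intro t ht h
    rw [Set.uIcc_of_le zero_le_one] at ht
    have := RH_slit hz ht.1 ht.2
    rw [h, zero_div] at this
    exact Complex.zero_notMem_slitPlane this
  have hd : ∀ t ∈ Set.uIcc (0 : ℝ) 1, HasDerivAt
      (fun t : ℝ => Complex.log ((a + t * (b - a) - z) / (a - z)))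
      ((b - a) * (a + t * (b - a) - z)⁻¹) t := by
    intro t ht
    have h1 : HasDerivAt (fun t : ℝ => (a + t * (b - a) - z) / (a - z)) ((b - a) / (a - z)) t := by
      have h2 : HasDerivAt (fun t : ℝ => ((t : ℝ) : ℂ)) 1 t := Complex.ofRealCLM.hasDerivAt
      have h3 := (((h2.mul_const (b - a)).const_add a).sub_const z).div_const (a - z)
      rw [one_mul] at h3
      exact h3
    have ht' := ht
    rw [Set.uIcc_of_le zero_le_one] at ht'
    have h4 := h1.clog_real (RH_slit hz ht'.1 ht'.2)
    convert h4 using 1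
    have := hne t ht
    field_simp
  have hcont : ContinuousOn (fun t : ℝ => (b - a) * (a + t * (b - a) - z)⁻¹)
      (Set.uIcc (0 : ℝ) 1) := by
    apply ContinuousOn.mul continuousOn_const
    apply ContinuousOn.inv₀ _ hne
    fun_prop
  have := intervalIntegral.integral_eq_sub_of_hasDerivAt hd hcont.intervalIntegrable
  unfold segI
  rw [← intervalIntegral.integral_const_mul, this]
  have e1 : (a + ((1 : ℝ) : ℂ) * (b - a) - z) / (a - z) = (b - z) / (a - z) := by
    push_cast
    congr 1
    ring
  have e2 : (a + ((0 : ℝ) : ℂ) * (b - a) - z) / (a - z) = 1 := by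
    rw [Complex.ofReal_zero, zero_mul, add_zero, div_self haz]
  rw [e1, e2, Complex.log_one, sub_zero]

private theorem RH_exp (z : ℂ) : ∀ (l : List ℂ) (a : ℂ), PolyIn {z}ᶜ (a :: l) →
    Complex.exp (polyI (fun w => (w - z)⁻¹) (a :: l))
      = ((a :: l).getLast (List.cons_ne_nil a l) - z) / (a - z) ∧ a - z ≠ 0 := by
  intro l
  induction l with
  | nil =>
    intro a ha
    have : a ≠ z := ha
    have h1 : a - z ≠ 0 := sub_ne_zero.mpr this
    refine ⟨?_, h1⟩
    show Complex.exp 0 = _
    rw [Complex.exp_zero, List.getLast_singleton, div_self h1]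
  | cons b l ih =>
    intro a ha
    have hab : z ∉ segment ℝ a b := fun h => ha.1 h rfl
    obtain ⟨h1, h2⟩ := ih b ha.2
    have haz : a - z ≠ 0 := by
      intro h
      apply hab
      rw [← sub_eq_zero.mp h]
      exact left_mem_segment ℝ a b
    refine ⟨?_, haz⟩
    show Complex.exp (segI (fun w => (w - z)⁻¹) a b + polyI (fun w => (w - z)⁻¹) (b :: l)) = _
    rw [Complex.exp_add, h1, RH_seg hab, Complex.exp_log (div_ne_zero h2 haz),
      List.getLast_cons (List.cons_ne_nil b l)]
    field_simp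

theorem wnd_int (a : ℂ) (l : List ℂ) (z : ℂ) (hz : PolyIn {z}ᶜ (a :: (l ++ [a]))) :
    ∃ n : ℤ, polyI (fun w => (w - z)⁻¹) (a :: (l ++ [a])) = 2 * Real.pi * Complex.I * n := by
  obtain ⟨h1, h2⟩ := RH_exp z (l ++ [a]) a hz
  have h3 : (a :: (l ++ [a])).getLast (List.cons_ne_nil a (l ++ [a])) = a := by
    simp
  rw [h3, div_self h2, Complex.exp_eq_one_iff] at h1
  obtain ⟨n, hn⟩ := h1
  exact ⟨n, by rw [hn]; ring⟩

theorem wnd_cont (L : List ℂ) :
    ContinuousOn (fun z => polyI (fun w => (w - z)⁻¹) L) {z | PolyIn {z}ᶜ L} := by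
  match L with
  | [] => exact continuousOn_const
  | [a] => exact continuousOn_const
  | a :: b :: l =>
    have ih := wnd_cont (b :: l)
    show ContinuousOn (fun z => segI (fun w => (w - z)⁻¹) a b + polyI (fun w => (w - z)⁻¹) (b :: l))
      {z | PolyIn {z}ᶜ (a :: b :: l)}
    apply ContinuousOn.add
    · have h1 : ContinuousOn (fun z => Complex.log ((b - z) / (a - z)))
          {z | PolyIn {z}ᶜ (a :: b :: l)} := by
        have hs : ∀ z ∈ {z | PolyIn {z}ᶜ (a :: b :: l)}, z ∉ segment ℝ a b :=
          fun z hz h => hz.1 h rfl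
        apply ContinuousOn.clog
        · apply ContinuousOn.div
          · fun_prop
          · fun_prop
          · intro z hz h
            apply hs z hz
            rw [← sub_eq_zero.mp h]
            exact left_mem_segment ℝ a b
        · intro z hz
          have := RH_slit (hs z hz) zero_le_one le_rfl
          have e1 : (a + ((1 : ℝ) : ℂ) * (b - a) - z) / (a - z) = (b - z) / (a - z) := by
            push_cast
            congr 1
            ring
          rw [e1] at this
          exact this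
      refine h1.congr fun z hz => ?_
      exact RH_seg fun h => hz.1 h rfl
    · exact ih.mono fun z hz => hz.2

private theorem RH_mono {U V : Set ℂ} (h : U ⊆ V) : ∀ L : List ℂ, PolyIn U L → PolyIn V L
  | [], _ => trivial
  | [_], ha => h ha
  | _ :: _ :: _, ha => ⟨ha.1.trans h, RH_mono h _ ha.2⟩

private theorem RH_cpt (a b : ℂ) : IsCompact (segment ℝ a b) := by
  rw [segment_eq_image']
  exact isCompact_Icc.image (by fun_prop)

private theorem RH_open : ∀ L : List ℂ, IsOpen {z : ℂ | PolyIn {z}ᶜ L}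
  | [] => isOpen_univ
  | [a] => by
      have : {z : ℂ | PolyIn {z}ᶜ [a]} = {a}ᶜ := by
        ext z
        exact ⟨fun h => fun h' => h (by rw [h']; rfl), fun h => fun h' => h (by rw [h']; rfl)⟩
      rw [this]
      exact isOpen_compl_singleton
  | a :: b :: l => by
      have : {z : ℂ | PolyIn {z}ᶜ (a :: b :: l)} = (segment ℝ a b)ᶜ ∩ {z | PolyIn {z}ᶜ (b :: l)} := by
        ext z
        constructor
        · rintro ⟨h1, h2⟩
          exact ⟨fun h => h1 h rfl, h2⟩
        · rintro ⟨h1, h2⟩
          exact ⟨fun w hw h => h1 (by rw [← show w = z from h]; exact hw), h2⟩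
      rw [this]
      exact (RH_cpt a b).isClosed.isOpen_compl.inter (RH_open (b :: l))

private theorem RH_tend : ∀ L : List ℂ,
    Tendsto (fun z => polyI (fun w => (w - z)⁻¹) L) (cocompact ℂ) (𝓝 0)
  | [] => tendsto_const_nhds
  | [_] => tendsto_const_nhds
  | a :: b :: l => by
      have ih := RH_tend (b :: l)
      have h1 : Tendsto (fun z : ℂ => (a - z)⁻¹) (cocompact ℂ) (𝓝 0) := by
        rw [← Metric.cobounded_eq_cocompact]
        apply tendsto_inv₀_cobounded.comp
        exact tendsto_const_sub_cobounded a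
      have h2 : Tendsto (fun z : ℂ => (b - z) / (a - z)) (cocompact ℂ) (𝓝 1) := by
        have h3 : Tendsto (fun z : ℂ => 1 + (b - a) * (a - z)⁻¹) (cocompact ℂ) (𝓝 1) := by
          have := (h1.const_mul (b - a)).const_add 1
          rwa [mul_zero, add_zero] at this
        refine h3.congr' ?_
        have h4 : ∀ᶠ z in cocompact ℂ, z ∈ ({a} : Set ℂ)ᶜ :=
          (isCompact_singleton (x := a)).compl_mem_cocompact
        filter_upwards [h4] with z hz
        have : a - z ≠ 0 := fun h => hz (sub_eq_zero.mp h).symm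
        field_simp
        ring
      have h3 : Tendsto (fun z : ℂ => Complex.log ((b - z) / (a - z))) (cocompact ℂ) (𝓝 0) := by
        have := h2.clog (by simp)
        rwa [Complex.log_one] at this
      have h5 : Tendsto (fun z : ℂ => segI (fun w => (w - z)⁻¹) a b) (cocompact ℂ) (𝓝 0) := by
        refine h3.congr' ?_
        have h4 : ∀ᶠ z in cocompact ℂ, z ∈ (segment ℝ a b)ᶜ :=
          (RH_cpt a b).compl_mem_cocompact
        filter_upwards [h4] with z hz
        exact (RH_seg hz).symm
      have := h5.add ih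
      rw [add_zero] at this
      exact this

theorem wnd_zero {U : Set ℂ} (hU : IsOpen U)
    (hK : ∀ C ⊆ Uᶜ, IsCompact C → (∃ O, IsOpen O ∧ C = O ∩ Uᶜ) → C = ∅)
    (a : ℂ) (l : List ℂ) (hl : PolyIn U (a :: (l ++ [a]))) {z : ℂ} (hz : z ∉ U) :
    polyI (fun w => (w - z)⁻¹) (a :: (l ++ [a])) = 0 := by
  set L := a :: (l ++ [a]) with hL
  set I : ℂ → ℂ := fun z => polyI (fun w => (w - z)⁻¹) L with hI
  have hVsub : Uᶜ ⊆ {z | PolyIn {z}ᶜ L} := by
    intro w hw
    have hUw : U ⊆ ({w} : Set ℂ)ᶜ := by
      intro x hx h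
      apply hw
      rw [← show x = w from h]
      exact hx
    exact RH_mono hUw L hl
  have hint : ∀ w ∈ Uᶜ, I w ≠ 0 → 1 ≤ ‖I w‖ := by
    intro w hw h0
    obtain ⟨n, hn⟩ := wnd_int a l w (hVsub hw)
    have hn' : I w = 2 * Real.pi * Complex.I * n := hn
    have hn0 : n ≠ 0 := by
      rintro rfl
      apply h0
      rw [hn']
      simp
    rw [hn', norm_mul, norm_mul, norm_mul, Complex.norm_I, mul_one]
    have h1 : ‖(n : ℂ)‖ = |(n : ℝ)| := by
      rw [Complex.norm_intCast]
    have h2 : (1 : ℝ) ≤ |(n : ℝ)| := by exact_mod_cast Int.one_le_abs hn0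
    have h3 : ‖(Real.pi : ℂ)‖ = Real.pi := by
      rw [Complex.norm_real, Real.norm_of_nonneg Real.pi_pos.le]
    have h4 : ‖(2 : ℂ)‖ = 2 := by simp
    rw [h1, h3, h4]
    have := Real.pi_gt_three
    nlinarith
  set C : Set ℂ := {w | w ∈ Uᶜ ∧ I w ≠ 0} with hC
  have hCO : C = ({w | PolyIn {w}ᶜ L} ∩ I ⁻¹' {0}ᶜ) ∩ Uᶜ := by
    ext w
    constructor
    · rintro ⟨h1, h2⟩
      exact ⟨⟨hVsub h1, h2⟩, h1⟩
    · rintro ⟨⟨h1, h2⟩, h3⟩
      exact ⟨h3, h2⟩
  have hO : IsOpen ({w | PolyIn {w}ᶜ L} ∩ I ⁻¹' {0}ᶜ) :=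
    (wnd_cont L).isOpen_inter_preimage (RH_open L) isOpen_compl_singleton
  have hCcl : IsClosed C := by
    have : C = Uᶜ ∩ I ⁻¹' {y | 1 ≤ ‖y‖} := by
      ext w
      constructor
      · rintro ⟨h1, h2⟩
        exact ⟨h1, hint w h1 h2⟩
      · rintro ⟨h1, h2⟩
        refine ⟨h1, fun h => ?_⟩
        have h3 : 1 ≤ ‖I w‖ := h2
        rw [h, norm_zero] at h3
        linarith
    rw [this]
    exact ((wnd_cont L).mono hVsub).preimage_isClosed_of_isClosed hU.isClosed_compl
      (isClosed_le continuous_const continuous_norm)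
  have hCc : IsCompact C := by
    have h1 : ∀ᶠ w in cocompact ℂ, ‖I w‖ < 1 := by
      have := (RH_tend L).norm
      rw [norm_zero] at this
      exact this.eventually_lt_const one_pos
    obtain ⟨t, ht, hts⟩ := Filter.mem_cocompact.mp h1
    refine ht.of_isClosed_subset hCcl fun w hw => ?_
    by_contra hwt
    have h2 : ‖I w‖ < 1 := hts hwt
    have h3 := hint w hw.1 hw.2
    linarith
  have hCe := hK C (fun w hw => hw.1) hCc ⟨_, hO, hCO⟩
  by_contra h0
  have : z ∈ C := ⟨hz, h0⟩
  rw [hCe] at this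
  exact this

end DS
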