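import Pool.Agent.H36.DS.XBase

/-!
SA (the invariant measure of the area form).  Proof (cone trick).  Let `C = ball 0 1 \ {0}` in `E3`, `π x = x / ‖x‖`
(values in `S2`), `m = (volume.restrict C).withDensity (ρ ∘ π)`, `ν = Measure.map π m`: finite because `ρ` is bounded
(compactness), positive on nonempty open sets because `C ∩ π ⁻¹' O` is open and nonempty.
Let `F x = ‖x‖ • f (π x)`, a bijection of `C` (inverse built from `fi`), differentiable at every `x ∈ C`; with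
`x' = π x`: `F' x (x') = f x'` (`F (s x') = s f x'`), and for a tangent vector `e` at `x'`, `v = emb x' e`:
`F' x v = emb (f x') (mfderiv f x' e)` (`v` is orthogonal to `x`, and `F (x + s v) = ‖x + s v‖ • f (π (x + s v))`; use that
`π` restricted to the sphere is the identity and that `F` is homogeneous of degree one, so `F' (t x) = F' x` for `t > 0`, and the
restriction of `F` to the sphere is `f`).  For the standard basis `e₁, e₂`, `v i = emb x' (e i)`, `w i = F' x (v i)`: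
`det3 (f x') w₁ w₂ = det (F' x) * det3 x' v₁ v₂`, and `PreservesArea` says
`ρ (f x') * det3 (f x') w₁ w₂ = ρ x' * det3 x' v₁ v₂`, with `det3 x' v₁ v₂ ≠ 0` (`emb x'` is injective with range the orthogonal complement of
`x'`).  So `ρ (f x') * det (F' x) = ρ x'`.
By the change of variables formula (`lintegral_image_eq_lintegral_abs_det_fderiv_mul`) for `B ⊆ S2` measurable
`ν (f '' B) = m (F '' (C ∩ π ⁻¹' B)) = ∫_{C ∩ π ⁻¹' B} |det F'| ρ (π (F x)) = ∫_{C ∩ π ⁻¹' B} ρ (π x) = ν B`.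
-/

namespace DS
open Metric Set Filter Topology Function MeasureTheory
open scoped Manifold ContDiff

/-- the point of the sphere on the ray of a nonzero vector -/
private noncomputable def SA_pr (x : E3) : S2 :=
  if h : x = 0 then ⟨EuclideanSpace.single 0 1, by simp⟩
  else ⟨‖x‖⁻¹ • x, by
    rw [mem_sphere_zero_iff_norm, norm_smul, norm_inv, norm_norm,
      inv_mul_cancel₀ (norm_ne_zero_iff.2 h)]⟩

private theorem SA_pr_coe {x : E3} (h : x ≠ 0) : (SA_pr x : E3) = ‖x‖⁻¹ • x := by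
  simp [SA_pr, h]

private theorem SA_pr_smul {x : E3} (h : x ≠ 0) {t : ℝ} (ht : 0 < t) : SA_pr (t • x) = SA_pr x := by
  apply Subtype.ext
  rw [SA_pr_coe h, SA_pr_coe (smul_ne_zero ht.ne' h), norm_smul, Real.norm_of_nonneg ht.le,
    smul_smul]
  congr 1
  field_simp

private theorem SA_pr_self (x : S2) : SA_pr (x : E3) = x := by
  have h1 : ‖(x : E3)‖ = 1 := by simpa using x.2
  have h0 : (x : E3) ≠ 0 := by
    intro h; rw [h] at h1; simp at h1
  apply Subtype.ext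
  rw [SA_pr_coe h0, h1]; simp

private theorem SA_pr_smooth {x : E3} (h : x ≠ 0) :
    ContMDiffAt 𝓘(ℝ, E3) (𝓡 2) 1 SA_pr x := by
  let U : TopologicalSpace.Opens E3 := ⟨{0}ᶜ, isOpen_compl_singleton⟩
  have h1 : ContMDiff 𝓘(ℝ, E3) 𝓘(ℝ, E3) 1 (fun y : U => ‖(y : E3)‖⁻¹ • (y : E3)) := by
    intro y
    have hy : (y : E3) ≠ 0 := y.2
    have : ContMDiffAt 𝓘(ℝ, E3) 𝓘(ℝ, E3) 1 (fun y : E3 => ‖y‖⁻¹ • y) (y : E3) := by
      rw [contMDiffAt_iff_contDiffAt]
      exact ((contDiffAt_norm ℝ hy).inv (norm_ne_zero_iff.2 hy)).smul contDiffAt_id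
    exact contMDiffAt_subtype_iff.2 this
  have h2 : ∀ y : U, ‖(y : E3)‖⁻¹ • (y : E3) ∈ sphere (0 : E3) 1 := by
    intro y
    have hy : (y : E3) ≠ 0 := y.2
    rw [mem_sphere_zero_iff_norm, norm_smul, norm_inv, norm_norm,
      inv_mul_cancel₀ (norm_ne_zero_iff.2 hy)]
  have h3 := (ContMDiff.codRestrict_sphere (n := 2) h1 h2) (⟨x, h⟩ : U)
  have h4 : (fun y : U => SA_pr y) = (Set.codRestrict (fun y : U => ‖(y : E3)‖⁻¹ • (y : E3)) (sphere (0 : E3) 1) h2 : U → S2) := by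
    funext y
    apply Subtype.ext
    exact SA_pr_coe y.2
  have h5 : ContMDiffAt 𝓘(ℝ, E3) (𝓡 2) 1 (fun y : U => SA_pr y) (⟨x, h⟩ : U) := by
    rw [h4]; exact h3
  exact contMDiffAt_subtype_iff.1 h5

/-- the homogeneous extension -/
private noncomputable def SA_F (f : S2 → S2) (x : E3) : E3 := ‖x‖ • (f (SA_pr x) : E3)

private theorem SA_F_norm (f : S2 → S2) (x : E3) : ‖SA_F f x‖ = ‖x‖ := by
  have h1 : ‖(f (SA_pr x) : E3)‖ = 1 := by simpa using (f (SA_pr x)).2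
  rw [SA_F, norm_smul, h1, norm_norm, mul_one]

private theorem SA_F_ne {f : S2 → S2} {x : E3} (h : x ≠ 0) : SA_F f x ≠ 0 := by
  rw [← norm_ne_zero_iff, SA_F_norm]; exact norm_ne_zero_iff.2 h

private theorem SA_pr_F {f : S2 → S2} {x : E3} (h : x ≠ 0) : SA_pr (SA_F f x) = f (SA_pr x) := by
  have h1 : ‖(f (SA_pr x) : E3)‖ = 1 := by simpa using (f (SA_pr x)).2
  have h0 : (f (SA_pr x) : E3) ≠ 0 := by
    intro h; rw [h] at h1; simp at h1
  rw [SA_F, SA_pr_smul h0 (norm_pos_iff.2 h), SA_pr_self]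

private theorem SA_F_inv {f fi : S2 → S2} (hfif : ∀ x, fi (f x) = x) {x : E3} (h : x ≠ 0) :
    SA_F fi (SA_F f x) = x := by
  rw [SA_F, SA_F_norm, SA_pr_F h, hfif, SA_pr_coe h, smul_smul,
    mul_inv_cancel₀ (norm_ne_zero_iff.2 h), one_smul]

private theorem SA_det3 (L : E3 →ₗ[ℝ] E3) (a b c : E3) :
    det3 (L a) (L b) (L c) = LinearMap.det L * det3 a b c := by
  have key : ∀ a b c : E3, (EuclideanSpace.basisFun (Fin 3) ℝ).toBasis.det ![a, b, c] = det3 a b c := by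
    intro a b c
    rw [Module.Basis.det_apply, det3, ← Matrix.det_transpose]
    congr 1
    ext i j
    fin_cases i <;> fin_cases j <;> simp [Module.Basis.toMatrix_apply]
  rw [← key, ← key, ← Module.Basis.det_comp]
  congr 1
  ext i
  fin_cases i <;> rfl

/-- two vectors orthogonal to a unit vector with nonzero determinant -/
private theorem SA_vec (x : E3) (hx : x ≠ 0) : ∃ v w : E3, inner ℝ x v = 0 ∧ inner ℝ x w = 0 ∧
    det3 x v w ≠ 0 := by
  have hx' : x 0 ≠ 0 ∨ x 1 ≠ 0 ∨ x 2 ≠ 0 := by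
    by_contra hc
    push Not at hc
    apply hx
    ext i
    fin_cases i
    · exact hc.1
    · exact hc.2.1
    · exact hc.2.2
  by_cases h01 : x 0 = 0 ∧ x 1 = 0
  · have h2 : x 2 ≠ 0 := by tauto
    refine ⟨!₂[1, 0, 0], !₂[0, 1, 0], ?_, ?_, ?_⟩
    · simp [PiLp.inner_apply, Fin.sum_univ_three, h01.1, h01.2]
    · simp [PiLp.inner_apply, Fin.sum_univ_three, h01.1, h01.2]
    · simp [det3, Matrix.det_fin_three, h01.1, h01.2, h2]
  · refine ⟨!₂[-x 1, x 0, 0], !₂[-(x 2 * x 0), -(x 2 * x 1), x 0 * x 0 + x 1 * x 1], ?_, ?_, ?_⟩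
    · simp [PiLp.inner_apply, Fin.sum_univ_three]; ring
    · simp [PiLp.inner_apply, Fin.sum_univ_three]; ring
    · have : det3 x !₂[-x 1, x 0, 0] !₂[-(x 2 * x 0), -(x 2 * x 1), x 0 * x 0 + x 1 * x 1] =
          (x 0 ^ 2 + x 1 ^ 2) * (x 0 ^ 2 + x 1 ^ 2 + x 2 ^ 2) := by
        simp [det3, Matrix.det_fin_three]; ring
      rw [this]
      have h1 : 0 < x 0 ^ 2 + x 1 ^ 2 := by
        rcases not_and_or.1 h01 with h | h
        · positivity
        · positivity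
      have h2 : 0 < x 0 ^ 2 + x 1 ^ 2 + x 2 ^ 2 := by positivity
      positivity

private theorem SA_G_diff {f : S2 → S2} (cf : ContMDiff (𝓡 2) (𝓡 2) 1 f) {x : E3} (h : x ≠ 0) :
    ContDiffAt ℝ 1 (fun y => (f (SA_pr y) : E3)) x := by
  rw [← contMDiffAt_iff_contDiffAt]
  have h1 : ContMDiffAt 𝓘(ℝ, E3) (𝓡 2) 1 (f ∘ SA_pr) x := cf.contMDiffAt.comp x (SA_pr_smooth h)
  have h2 : ContMDiff (𝓡 2) 𝓘(ℝ, E3) 1 (fun y : S2 => (y : E3)) := contMDiff_coe_sphere
  exact h2.contMDiffAt.comp x h1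

private theorem SA_F_diff {f : S2 → S2} (cf : ContMDiff (𝓡 2) (𝓡 2) 1 f) {x : E3} (h : x ≠ 0) :
    DifferentiableAt ℝ (SA_F f) x :=
  ((contDiffAt_norm ℝ h).smul (SA_G_diff cf h)).differentiableAt (by norm_num)

/-- the derivative along the ray -/
private theorem SA_F_ray {f : S2 → S2} (cf : ContMDiff (𝓡 2) (𝓡 2) 1 f) {x : E3} (h : x ≠ 0) :
    fderiv ℝ (SA_F f) x (SA_pr x : E3) = f (SA_pr x) := by
  have hx : 0 < ‖x‖ := norm_pos_iff.2 h
  have h1 : HasDerivAt (fun s : ℝ => x + s • (SA_pr x : E3)) (SA_pr x : E3) 0 := by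
    simpa using ((hasDerivAt_id (0:ℝ)).smul_const (SA_pr x : E3)).const_add x
  have h2 : HasFDerivAt (SA_F f) (fderiv ℝ (SA_F f) x) (x + (0:ℝ) • (SA_pr x : E3)) := by
    simpa using (SA_F_diff cf h).hasFDerivAt
  have h3 := h2.comp_hasDerivAt (0:ℝ) h1
  have h4 : HasDerivAt (fun s : ℝ => (‖x‖ + s) • (f (SA_pr x) : E3)) (f (SA_pr x) : E3) 0 := by
    simpa using (((hasDerivAt_id (0:ℝ)).const_add ‖x‖).smul_const (f (SA_pr x) : E3))
  have h5 : (SA_F f ∘ fun s : ℝ => x + s • (SA_pr x : E3)) =ᶠ[𝓝 0]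
      (fun s : ℝ => (‖x‖ + s) • (f (SA_pr x) : E3)) := by
    have : ∀ᶠ s : ℝ in 𝓝 0, -‖x‖ < s := lt_mem_nhds (by linarith)
    filter_upwards [this] with s hs
    have e1 : x + s • (SA_pr x : E3) = ((‖x‖ + s) * ‖x‖⁻¹) • x := by
      rw [SA_pr_coe h, smul_smul, add_mul, mul_inv_cancel₀ hx.ne', add_smul, one_smul]
    have e2 : 0 < (‖x‖ + s) * ‖x‖⁻¹ := mul_pos (by linarith) (inv_pos.2 hx)
    simp only [Function.comp]
    rw [e1, SA_F, SA_pr_smul h e2, norm_smul, Real.norm_of_nonneg e2.le]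
    congr 1
    field_simp
  exact (h3.congr_of_eventuallyEq h5.symm).unique h4

private theorem SA_norm_fderiv {x v : E3} (h : x ≠ 0) (hv : inner ℝ x v = 0) :
    fderiv ℝ (fun y : E3 => ‖y‖) x v = 0 := by
  have h1 : HasFDerivAt (fun y : E3 => ‖y‖) (fderiv ℝ (fun y : E3 => ‖y‖) x) x :=
    ((contDiffAt_norm ℝ h).differentiableAt (n := 1) (by norm_num)).hasFDerivAt
  have h2 : HasFDerivAt (fun y : E3 => ‖y‖ ^ 2) (2 • innerSL ℝ x) x := by
    simpa using (hasStrictFDerivAt_norm_sq x).hasFDerivAt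
  have h3 := (h1.pow 2).unique h2
  have h4 := DFunLike.congr_fun h3 v
  have hx : 0 < ‖x‖ := norm_pos_iff.2 h
  simp [hv, hx.ne'] at h4
  exact h4

/-- the derivative along tangent vectors -/
private theorem SA_F_tan {f : S2 → S2} (cf : ContMDiff (𝓡 2) (𝓡 2) 1 f) {x v : E3} (h : x ≠ 0)
    (hv : inner ℝ x v = 0) :
    ∃ e : TangentSpace (𝓡 2) (SA_pr x), emb (SA_pr x) e = v ∧
      fderiv ℝ (SA_F f) x v = emb (f (SA_pr x)) (mfderiv (𝓡 2) (𝓡 2) f (SA_pr x) e) := by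
  have hx : 0 < ‖x‖ := norm_pos_iff.2 h
  have hp : MDifferentiableAt 𝓘(ℝ, E3) (𝓡 2) SA_pr x := (SA_pr_smooth h).mdifferentiableAt (by norm_num)
  have hf : MDifferentiableAt (𝓡 2) (𝓡 2) f (SA_pr x) := cf.contMDiffAt.mdifferentiableAt (by norm_num)
  have hc : ContMDiff (𝓡 2) 𝓘(ℝ, E3) 1 (fun y : S2 => (y : E3)) := contMDiff_coe_sphere
  have hc' : ∀ z : S2, MDifferentiableAt (𝓡 2) 𝓘(ℝ, E3) (fun y : S2 => (y : E3)) z := fun z =>
    hc.contMDiffAt.mdifferentiableAt (by norm_num)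
  refine ⟨(‖x‖ • (mfderiv 𝓘(ℝ, E3) (𝓡 2) SA_pr x v : TangentSpace (𝓡 2) (SA_pr x)) : TangentSpace (𝓡 2) (SA_pr x)), ?_, ?_⟩
  · have h1 : mfderiv 𝓘(ℝ, E3) 𝓘(ℝ, E3) ((fun y : S2 => (y : E3)) ∘ SA_pr) x =
        (mfderiv (𝓡 2) 𝓘(ℝ, E3) (fun y : S2 => (y : E3)) (SA_pr x)).comp
          (mfderiv 𝓘(ℝ, E3) (𝓡 2) SA_pr x) := mfderiv_comp x (hc' _) hp
    rw [mfderiv_eq_fderiv] at h1
    have h2 : fderiv ℝ ((fun y : S2 => (y : E3)) ∘ SA_pr) x v = ‖x‖⁻¹ • v := by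
      have h3 : ((fun y : S2 => (y : E3)) ∘ SA_pr) =ᶠ[𝓝 x] (fun y : E3 => ‖y‖⁻¹ • y) := by
        filter_upwards [isOpen_compl_singleton.mem_nhds (show x ∈ ({0}ᶜ : Set E3) from h)] with y hy
        exact SA_pr_coe hy
      have h4 : HasFDerivAt (fun y : E3 => ‖y‖) (fderiv ℝ (fun y : E3 => ‖y‖) x) x :=
        ((contDiffAt_norm ℝ h).differentiableAt (n := 1) (by norm_num)).hasFDerivAt
      have h5 := ((hasDerivAt_inv hx.ne').comp_hasFDerivAt x h4).smul (hasFDerivAt_id x)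
      rw [h3.fderiv_eq]
      have h6 : HasFDerivAt (fun y : E3 => ‖y‖⁻¹ • y) _ x := h5
      rw [h6.fderiv]
      simp [SA_norm_fderiv h hv]
    have h7 := DFunLike.congr_fun h1 v
    have h7' : (‖x‖⁻¹ • v : E3) = ((mfderiv (𝓡 2) 𝓘(ℝ, E3) (fun y : S2 => (y : E3)) (SA_pr x)).comp
          (mfderiv 𝓘(ℝ, E3) (𝓡 2) SA_pr x)) v := h2.symm.trans h7
    have h8 : emb (SA_pr x) (‖x‖ • (mfderiv 𝓘(ℝ, E3) (𝓡 2) SA_pr x v : TangentSpace (𝓡 2) (SA_pr x)) : TangentSpace (𝓡 2) (SA_pr x)) = ‖x‖ • (‖x‖⁻¹ • v) := by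
      rw [h7', emb, map_smul]
      rfl
    rw [h8, smul_smul, mul_inv_cancel₀ hx.ne', one_smul]
  · have h1 : mfderiv 𝓘(ℝ, E3) 𝓘(ℝ, E3) ((fun y : S2 => (y : E3)) ∘ (f ∘ SA_pr)) x =
        (mfderiv (𝓡 2) 𝓘(ℝ, E3) (fun y : S2 => (y : E3)) (f (SA_pr x))).comp
          ((mfderiv (𝓡 2) (𝓡 2) f (SA_pr x)).comp (mfderiv 𝓘(ℝ, E3) (𝓡 2) SA_pr x)) := by
      rw [← mfderiv_comp x hf hp]
      exact mfderiv_comp x (hc' _) (hf.comp x hp)
    rw [mfderiv_eq_fderiv] at h1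
    have h4 : HasFDerivAt (fun y : E3 => ‖y‖) (fderiv ℝ (fun y : E3 => ‖y‖) x) x :=
      ((contDiffAt_norm ℝ h).differentiableAt (n := 1) (by norm_num)).hasFDerivAt
    have h5 : HasFDerivAt (fun y : E3 => (f (SA_pr y) : E3)) (fderiv ℝ ((fun y : S2 => (y : E3)) ∘ (f ∘ SA_pr)) x) x :=
      ((SA_G_diff cf h).differentiableAt (by norm_num)).hasFDerivAt
    have h6 : HasFDerivAt (SA_F f) _ x := h4.smul h5
    rw [h6.fderiv, h1]
    simp only [add_apply, smul_apply,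
      ContinuousLinearMap.smulRight_apply, SA_norm_fderiv h hv, zero_smul, add_zero]
    rw [emb, map_smul, map_smul]
    rfl

private theorem SA_det {f : S2 → S2} (cf : ContMDiff (𝓡 2) (𝓡 2) 1 f) {ρ : S2 → ℝ}
    (hf : PreservesArea ρ f) {x : E3} (h : x ≠ 0) :
    ρ (f (SA_pr x)) * (fderiv ℝ (SA_F f) x).det = ρ (SA_pr x) := by
  have hx : 0 < ‖x‖ := norm_pos_iff.2 h
  have h1 : ‖(SA_pr x : E3)‖ = 1 := by simp
  have h0 : (SA_pr x : E3) ≠ 0 := by
    intro h; rw [h] at h1; simp at h1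
  obtain ⟨v, w, hv, hw, hD⟩ := SA_vec (SA_pr x : E3) h0
  have hvx : ∀ u : E3, inner ℝ (SA_pr x : E3) u = 0 → inner ℝ x u = 0 := by
    intro u hu
    rw [SA_pr_coe h, inner_smul_left] at hu
    rcases mul_eq_zero.1 hu with h2 | h2
    · exfalso
      simp [hx.ne'] at h2
    · exact h2
  obtain ⟨e, he, he'⟩ := SA_F_tan cf h (hvx v hv)
  obtain ⟨g, hg, hg'⟩ := SA_F_tan cf h (hvx w hw)
  have h2 := hf (SA_pr x) e g
  unfold areaForm at h2
  rw [← he', ← hg', he, hg, ← SA_F_ray cf h] at h2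
  have h3 := SA_det3 (fderiv ℝ (SA_F f) x : E3 →ₗ[ℝ] E3) (SA_pr x : E3) v w
  simp only [ContinuousLinearMap.coe_coe] at h3
  rw [h3, ← mul_assoc] at h2
  exact mul_right_cancel₀ hD h2

private theorem SA_pr_meas : Measurable SA_pr := by
  apply measurable_of_continuousOn_compl_singleton (0 : E3)
  intro x hx
  exact (SA_pr_smooth hx).continuousAt.continuousWithinAt


theorem exists_measure {f fi : S2 → S2} (cf : ContMDiff (𝓡 2) (𝓡 2) 1 f)
    (cfi : ContMDiff (𝓡 2) (𝓡 2) 1 fi) (hffi : ∀ x, f (fi x) = x) (hfif : ∀ x, fi (f x) = x)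
    {ρ : S2 → ℝ} (hρ : Continuous ρ) (hρ0 : ∀ x, 0 < ρ x) (hf : PreservesArea ρ f) :
    ∃ ν : Measure S2, ν univ < ⊤ ∧ (∀ B, MeasurableSet B → ν (f '' B) = ν B) ∧
      ∀ O, IsOpen O → O.Nonempty → 0 < ν O := by
  classical
  set C : Set E3 := ball 0 1 \ {0} with hC
  have hCo : IsOpen C := isOpen_ball.sdiff isClosed_singleton
  have hCm : MeasurableSet C := hCo.measurableSet
  have hC0 : ∀ x ∈ C, x ≠ 0 := fun x hx => hx.2
  have hCfin : volume C < ⊤ := lt_of_le_of_lt (measure_mono sdiff_subset) measure_ball_lt_top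
  set R : S2 → ENNReal := fun x => ENNReal.ofReal (ρ x) with hR
  have hRm : Measurable R := ENNReal.measurable_ofReal.comp hρ.measurable
  set m : Measure E3 := (volume.restrict C).withDensity (R ∘ SA_pr) with hm
  have hval : ∀ B, MeasurableSet B → Measure.map SA_pr m B = ∫⁻ x in C ∩ SA_pr ⁻¹' B, R (SA_pr x) := by
    intro B hB
    rw [Measure.map_apply SA_pr_meas hB, hm, withDensity_apply _ (SA_pr_meas hB),
      Measure.restrict_restrict (SA_pr_meas hB), inter_comm]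
    rfl
  have hfc : Continuous f := cf.continuous
  have hfic : Continuous fi := cfi.continuous
  refine ⟨Measure.map SA_pr m, ?_, ?_, ?_⟩
  · rw [hval univ MeasurableSet.univ]
    obtain ⟨M, hM⟩ := (isCompact_range hρ).bddAbove
    calc ∫⁻ x in C ∩ SA_pr ⁻¹' univ, R (SA_pr x) ≤ ∫⁻ x in C ∩ SA_pr ⁻¹' univ, ENNReal.ofReal M := by
          apply lintegral_mono
          intro x
          exact ENNReal.ofReal_le_ofReal (hM ⟨_, rfl⟩)
      _ = ENNReal.ofReal M * volume (C ∩ SA_pr ⁻¹' univ) := by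
          rw [setLIntegral_const]
      _ < ⊤ := by
          apply ENNReal.mul_lt_top ENNReal.ofReal_lt_top
          simpa using hCfin
  · intro B hB
    have hfB : f '' B = fi ⁻¹' B := by
      ext y
      constructor
      · rintro ⟨x, hx, rfl⟩
        simpa [hfif] using hx
      · intro hy
        exact ⟨fi y, hy, hffi y⟩
    have hfBm : MeasurableSet (f '' B) := by
      rw [hfB]; exact hfic.measurable hB
    rw [hval _ hfBm, hval _ hB]
    have himg : C ∩ SA_pr ⁻¹' (f '' B) = SA_F f '' (C ∩ SA_pr ⁻¹' B) := by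
      ext y
      constructor
      · rintro ⟨hyC, hy⟩
        have hy0 := hC0 y hyC
        have hF : SA_F f (SA_F fi y) = y := SA_F_inv hffi hy0
        refine ⟨SA_F fi y, ⟨⟨?_, SA_F_ne hy0⟩, ?_⟩, hF⟩
        · rw [mem_ball_zero_iff, SA_F_norm]
          exact mem_ball_zero_iff.1 hyC.1
        · rw [mem_preimage, SA_pr_F hy0]
          rw [hfB] at hy
          exact hy
      · rintro ⟨x, ⟨hxC, hx⟩, rfl⟩
        have hx0 := hC0 x hxC
        refine ⟨⟨?_, SA_F_ne hx0⟩, ?_⟩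
        · rw [mem_ball_zero_iff, SA_F_norm]
          exact mem_ball_zero_iff.1 hxC.1
        · rw [mem_preimage, SA_pr_F hx0]
          exact ⟨_, hx, rfl⟩
    have hinj : InjOn (SA_F f) (C ∩ SA_pr ⁻¹' B) := by
      intro x hx y hy hxy
      rw [← SA_F_inv hfif (hC0 x hx.1), hxy, SA_F_inv hfif (hC0 y hy.1)]
    rw [himg, lintegral_image_eq_lintegral_abs_det_fderiv_mul volume
      (hCm.inter (SA_pr_meas hB)) (fun x hx => (SA_F_diff cf (hC0 x hx.1)).hasFDerivAt.hasFDerivWithinAt)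
      hinj]
    apply setLIntegral_congr_fun (hCm.inter (SA_pr_meas hB))
    intro x hx
    have hx0 := hC0 x hx.1
    have hd := SA_det cf hf hx0
    have hdp : 0 < (fderiv ℝ (SA_F f) x).det := by
      have h1 := hρ0 (SA_pr x)
      rw [← hd] at h1
      exact pos_of_mul_pos_right h1 (hρ0 _).le
    simp only [hR]
    rw [abs_of_pos hdp, SA_pr_F hx0, ← ENNReal.ofReal_mul hdp.le, mul_comm, hd]
  · intro O hO hOne
    rw [hval O hO.measurableSet]
    have hopen : IsOpen (C ∩ SA_pr ⁻¹' O) := by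
      rw [isOpen_iff_mem_nhds]
      rintro x ⟨hx, hxO⟩
      exact Filter.inter_mem (hCo.mem_nhds hx)
        ((SA_pr_smooth (hC0 x hx)).continuousAt.preimage_mem_nhds (hO.mem_nhds hxO))
    obtain ⟨y, hy⟩ := hOne
    have hne : (C ∩ SA_pr ⁻¹' O).Nonempty := by
      have h1 : ‖(y : E3)‖ = 1 := by simp
      have h0 : (y : E3) ≠ 0 := by
        intro h; rw [h] at h1; simp at h1
      refine ⟨(1/2 : ℝ) • (y : E3), ⟨?_, ?_⟩, ?_⟩
      · rw [mem_ball_zero_iff, norm_smul, h1]; norm_num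
      · exact smul_ne_zero (by norm_num) h0
      · rw [mem_preimage, SA_pr_smul h0 (by norm_num), SA_pr_self]; exact hy
    have hpos : 0 < volume (C ∩ SA_pr ⁻¹' O) := hopen.measure_pos volume hne
    obtain ⟨z, hz⟩ := hρ.exists_forall_le' (x₀ := y) (by
      have : cocompact S2 = ⊥ := by simp
      rw [this]; exact Filter.eventually_bot)
    calc 0 < ENNReal.ofReal (ρ z) * volume (C ∩ SA_pr ⁻¹' O) :=
          ENNReal.mul_pos (by simpa using hρ0 z) hpos.ne'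
      _ = ∫⁻ x in C ∩ SA_pr ⁻¹' O, ENNReal.ofReal (ρ z) := by rw [setLIntegral_const]
      _ ≤ ∫⁻ x in C ∩ SA_pr ⁻¹' O, R (SA_pr x) := by
          apply lintegral_mono
          intro x
          exact ENNReal.ofReal_le_ofReal (hz _)

end DS
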