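import Pool.Agent.H36.DS.SA

/-!
SB.  `det_one`: the iterates preserve the area form (chain rule for `mfderiv`, `f` is differentiable).  At a point
with `f^[n] P = P` the differential `D = iterDeriv f n P` satisfies `ρ P * det3 P (emb P (D v)) (emb P (D w)) =
ρ P * det3 P (emb P v) (emb P w)`; the right side is a nonzero alternating bilinear form on the two dimensional
tangent space (`emb P` is injective with values orthogonal to `P ≠ 0`, so `P, emb P v, emb P w` are independent for a basis), so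
`det D = 1`.
`sys_of`: collect (`f` and `f.symm` are `C^r` with `r ≥ 1`, so `C¹`; `exists_measure`).
-/

namespace DS
open Metric Set Filter Topology Function MeasureTheory
open scoped Manifold ContDiff

private theorem SB_det3 (p x y : E3) (a b c d : ℝ) :
    det3 p (a • x + b • y) (c • x + d • y) = (a * d - b * c) * det3 p x y := by
  simp [det3, Matrix.det_fin_three]
  ring

private theorem SB_basis (v : E2) : v = v 0 • (EuclideanSpace.single 0 1 : E2) +
    v 1 • (EuclideanSpace.single 1 1 : E2) := by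
  ext i
  fin_cases i <;> simp

/-- the determinant of a linear map of the plane and a pulled back area form -/
private theorem SB_alt (T : E2 →ₗ[ℝ] E3) (p : E3) (A : E2 →ₗ[ℝ] E2) (v w : E2) :
    det3 p (T (A v)) (T (A w)) = LinearMap.det A * det3 p (T v) (T w) := by
  set x : E2 := EuclideanSpace.single 0 1 with hx
  set y : E2 := EuclideanSpace.single 1 1 with hy
  have hdet : LinearMap.det A = (A x) 0 * (A y) 1 - (A y) 0 * (A x) 1 := by
    rw [← LinearMap.det_toMatrix (EuclideanSpace.basisFun (Fin 2) ℝ).toBasis, Matrix.det_fin_two]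
    simp [LinearMap.toMatrix_apply, hx, hy]
  have hT : ∀ u : E2, T u = u 0 • T x + u 1 • T y := by
    intro u
    conv_lhs => rw [SB_basis u]
    rw [map_add, map_smul, map_smul]
  have hA : ∀ u : E2, A u = u 0 • A x + u 1 • A y := by
    intro u
    conv_lhs => rw [SB_basis u]
    rw [map_add, map_smul, map_smul]
  rw [hT (A v), hT (A w), hT v, hT w, SB_det3, SB_det3, hdet, hA v, hA w]
  simp only [PiLp.add_apply, PiLp.smul_apply, smul_eq_mul]
  ring

/-- two vectors orthogonal to a vector with nonzero determinant -/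
private theorem SB_vec (x : E3) (hx : x ≠ 0) : ∃ v w : E3, inner ℝ x v = 0 ∧ inner ℝ x w = 0 ∧
    det3 x v w ≠ 0 := by
  have hx' : x 0 ≠ 0 ∨ x 1 ≠ 0 ∨ x 2 ≠ 0 := by
    by_contra hc
    push Not at hc
    apply hx
    ext i
    fin_cases i
    · exact hc.1
    · exact hc.2.1
    · exact hc.2.2
  by_cases h01 : x 0 = 0 ∧ x 1 = 0
  · have h2 : x 2 ≠ 0 := by tauto
    refine ⟨!₂[1, 0, 0], !₂[0, 1, 0], ?_, ?_, ?_⟩
    · simp [PiLp.inner_apply, Fin.sum_univ_three, h01.1, h01.2]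
    · simp [PiLp.inner_apply, Fin.sum_univ_three, h01.1, h01.2]
    · simp [det3, Matrix.det_fin_three, h01.1, h01.2, h2]
  · refine ⟨!₂[-x 1, x 0, 0], !₂[-(x 2 * x 0), -(x 2 * x 1), x 0 * x 0 + x 1 * x 1], ?_, ?_, ?_⟩
    · simp [PiLp.inner_apply, Fin.sum_univ_three]; ring
    · simp [PiLp.inner_apply, Fin.sum_univ_three]; ring
    · have : det3 x !₂[-x 1, x 0, 0] !₂[-(x 2 * x 0), -(x 2 * x 1), x 0 * x 0 + x 1 * x 1] =
          (x 0 ^ 2 + x 1 ^ 2) * (x 0 ^ 2 + x 1 ^ 2 + x 2 ^ 2) := by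
        simp [det3, Matrix.det_fin_three]; ring
      rw [this]
      have h1 : 0 < x 0 ^ 2 + x 1 ^ 2 := by
        rcases not_and_or.1 h01 with h | h
        · positivity
        · positivity
      have h2 : 0 < x 0 ^ 2 + x 1 ^ 2 + x 2 ^ 2 := by positivity
      positivity

private theorem SB_iter {f : S2 → S2} (cf : ContMDiff (𝓡 2) (𝓡 2) 1 f) (k : ℕ) :
    ContMDiff (𝓡 2) (𝓡 2) 1 (f^[k]) := by
  induction k with
  | zero => exact contMDiff_id
  | succ k ih =>
    rw [Function.iterate_succ']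
    exact cf.comp ih

private theorem SB_comp {f g : S2 → S2} (cf : ContMDiff (𝓡 2) (𝓡 2) 1 f)
    (cg : ContMDiff (𝓡 2) (𝓡 2) 1 g) {ρ : S2 → ℝ} (hf : PreservesArea ρ f)
    (hg : PreservesArea ρ g) : PreservesArea ρ (f ∘ g) := by
  intro x v w
  have h1 : mfderiv (𝓡 2) (𝓡 2) (f ∘ g) x =
      (mfderiv (𝓡 2) (𝓡 2) f (g x)).comp (mfderiv (𝓡 2) (𝓡 2) g x) :=
    mfderiv_comp x (cf.mdifferentiable (by norm_num) (g x)) (cg.mdifferentiable (by norm_num) x)
  rw [h1]
  exact (hf (g x) _ _).trans (hg x v w)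

private theorem SB_pres {f : S2 → S2} (cf : ContMDiff (𝓡 2) (𝓡 2) 1 f) {ρ : S2 → ℝ}
    (hf : PreservesArea ρ f) (k : ℕ) : PreservesArea ρ (f^[k]) := by
  induction k with
  | zero =>
    intro x v w
    rw [Function.iterate_zero, mfderiv_id]
    rfl
  | succ k ih =>
    rw [Function.iterate_succ']
    exact SB_comp cf (SB_iter cf k) hf ih

theorem det_one {f : S2 → S2} (cf : ContMDiff (𝓡 2) (𝓡 2) 1 f) {ρ : S2 → ℝ}
    (hρ0 : ∀ x, 0 < ρ x) (hf : PreservesArea ρ f) (P : S2) (n : ℕ) (hP : f^[n] P = P) :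
    (iterDeriv f n P).det = 1 := by
  set A : E2 →L[ℝ] E2 := iterDeriv f n P with hA
  have h1 : ∀ (y : S2), y = f^[n] P → ∀ v w : E2, ρ y * det3 y (emb y (A v)) (emb y (A w)) =
      ρ P * det3 P (emb P v) (emb P w) := by
    rintro y rfl v w
    exact SB_pres cf hf n P v w
  have h2 := h1 P hP.symm
  let T' : E2 →L[ℝ] E3 := mfderiv (𝓡 2) 𝓘(ℝ, E3) (fun y : S2 => (y : E3)) P
  set T : E2 →ₗ[ℝ] E3 := (T' : E2 →ₗ[ℝ] E3) with hT
  have hTe : ∀ v : E2, emb P v = T v := fun v => rfl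
  have hPn : ‖(P : E3)‖ = 1 := by simp
  have hP0 : (P : E3) ≠ 0 := by
    intro h
    rw [h] at hPn
    simp at hPn
  obtain ⟨v, w, hv, hw, hD⟩ := SB_vec (P : E3) hP0
  have hrange := range_mfderiv_coe_sphere (n := 2) P
  have hmem : ∀ u : E3, inner ℝ (P : E3) u = 0 → ∃ e : E2, T e = u := by
    intro u hu
    have h3 : u ∈ (ℝ ∙ (P : E3))ᗮ := by
      rw [Submodule.mem_orthogonal_singleton_iff_inner_right]
      exact hu
    rw [← hrange] at h3
    obtain ⟨e, he⟩ := h3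
    exact ⟨e, he⟩
  obtain ⟨a, rfl⟩ := hmem v hv
  obtain ⟨b, rfl⟩ := hmem w hw
  have h4 := h2 a b
  rw [hTe, hTe, hTe, hTe] at h4
  have h5 := SB_alt T P (A : E2 →ₗ[ℝ] E2) a b
  simp only [ContinuousLinearMap.coe_coe] at h5
  rw [h5] at h4
  have h6 := mul_left_cancel₀ (hρ0 P).ne' h4
  have h7 : LinearMap.det (A : E2 →ₗ[ℝ] E2) = 1 := by
    have h8 : LinearMap.det (A : E2 →ₗ[ℝ] E2) * det3 P (T a) (T b) = 1 * det3 P (T a) (T b) := by
      rw [one_mul]
      exact h6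
    exact mul_right_cancel₀ hD h8
  exact h7

theorem sys_of (r : WithTop ℕ∞) (hr : 1 ≤ r) (f : Diffeomorph (𝓡 2) (𝓡 2) S2 S2 r) (ρ : S2 → ℝ)
    (hρ : Continuous ρ) (hρ0 : ∀ x, 0 < ρ x) (hf : PreservesArea ρ f) (h1 : Cond1 f)
    (h2 : Cond2 f f.symm) : ∃ ν : Measure S2, Sys f f.symm ν := by
  have cf : ContMDiff (𝓡 2) (𝓡 2) 1 f := f.contMDiff.of_le hr
  have cfi : ContMDiff (𝓡 2) (𝓡 2) 1 f.symm := f.symm.contMDiff.of_le hr
  obtain ⟨ν, hν1, hν2, hν3⟩ := exists_measure cf cfi f.apply_symm_apply f.symm_apply_apply hρ hρ0 hf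
  exact ⟨ν, ⟨cf, cfi, f.apply_symm_apply, f.symm_apply_apply, hν1, hν2, hν3,
    fun P n hP => det_one cf hρ0 hf P n hP, h1, h2⟩⟩

end DS
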