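import Pool.Agent.H36.DS.SL
import Pool.Agent.H36.DS.JF

/-!
SF (no fixed prime ends, sphere case).  Proof.  `no_fixed_end` for `g = f^[m]`, `E = sphere 0 1`, `SP = SPt f`: the measure is finite
and invariant under iterates; `hloc` for `m'`: the boundary map of `f^[m * m'] = (f^[m])^[m']` is `hb^[m']` (`endMap_iter`), so
`sphere_loc` applies (`2 * (m * m') = m * (2 * m')`, `f^[m * (2 * m')] = (f^[m])^[2 * m']`); `hnext` is trivial since `E` is
the whole circle; `spt_back` iterated.
-/

namespace DS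
open Metric Set Filter Topology Function MeasureTheory
open scoped Manifold ContDiff

private theorem SF_image_iter {K : Set S2} {g : S2 → S2} (hgK : g '' K = K) (j : ℕ) :
    g^[j] '' K = K := by
  induction j with
  | zero => simp
  | succ n ih => rw [Function.iterate_succ', image_comp, ih, hgK]

private theorem SF_maps {K : Set S2} {g gi : S2 → S2} (hgig : ∀ x, gi (g x) = x)
    (hgK : g '' K = K) : MapsTo g Kᶜ Kᶜ := by
  intro x hx hgx
  rw [← hgK] at hgx
  obtain ⟨y, hy, hyx⟩ := hgx
  have : y = x := by rw [← hgig y, hyx, hgig]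
  exact hx (this ▸ hy)

private theorem SF_maps' {K : Set S2} {g gi : S2 → S2} (hggi : ∀ x, g (gi x) = x)
    (hgK : g '' K = K) : MapsTo gi Kᶜ Kᶜ := by
  intro x hx hgx
  apply hx
  rw [← hggi x, ← hgK]
  exact ⟨_, hgx, rfl⟩

private theorem SF_nu_iter {f fi : S2 → S2} {ν : Measure S2} (hS : Sys f fi ν) (j : ℕ) :
    ∀ B, MeasurableSet B → ν (f^[j] '' B) = ν B := by
  have hc : Continuous f := hS.cf.continuous
  have hci : Continuous fi := hS.cfi.continuous
  induction j with
  | zero => intro B _; simp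
  | succ n ih =>
    intro B hBm
    rw [Function.iterate_succ, image_comp]
    have h1 : f '' B = fi ⁻¹' B := by
      ext y
      constructor
      · rintro ⟨x, hx, rfl⟩
        rw [mem_preimage, hS.fif]
        exact hx
      · intro hy
        exact ⟨fi y, hy, hS.ffi y⟩
    rw [ih (f '' B) (by rw [h1]; exact hci.measurable hBm), hS.inv B hBm]

private theorem SF_spt {f fi : S2 → S2} {ν : Measure S2} (hS : Sys f fi ν) (j : ℕ) {x : S2}
    (h : SPt f x) : SPt f (fi^[j] x) := by
  induction j with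
  | zero => exact h
  | succ n ih =>
    rw [Function.iterate_succ_apply']
    exact spt_back hS ih

theorem sphere_no_fixed_end {f fi : S2 → S2} {ν : Measure S2} (hS : Sys f fi ν) {V K : Set S2}
    (hC : CompK f V K) (hn : K.Nontrivial) {φ : ℂ → S2} {u : S2 → ℂ} (hD : DiscMap K φ u) {m : ℕ}
    (hm0 : 0 < m) (hm : f^[m] '' K = K) {hb hbi : ℂ → ℂ}
    (hE : EndMap φ u (f^[m]) (fi^[m]) hb hbi) : ∀ ζ ∈ sphere (0:ℂ) 1, hb ζ ≠ ζ := by
  have hgig : ∀ x, fi^[m] (f^[m] x) = x := Function.LeftInverse.iterate hS.fif m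
  have hggi : ∀ x, f^[m] (fi^[m] x) = x := Function.LeftInverse.iterate hS.ffi m
  have hM1 : MapsTo (f^[m]) Kᶜ Kᶜ := SF_maps hgig hm
  have hM2 : MapsTo (fi^[m]) Kᶜ Kᶜ := SF_maps' hggi hm
  refine no_fixed_end hC.K_closed hD (hS.cf.continuous.iterate m) (hS.cfi.continuous.iterate m)
    hggi hgig hm hE ν (fun B _ hB => SF_nu_iter hS m B hB) (fun O _ hO hO' => hS.pos O hO hO')
    (SP := SPt f) (fun x hx => SF_spt hS m hx) (Subset.refl _)
    (fun ζ _ => ⟨1, one_pos, inter_subset_left⟩) ?_ ?_ ?_ ?_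
  · apply Subset.antisymm
    · rintro _ ⟨z, hz, rfl⟩
      exact hE.bs hz
    · intro z hz
      exact ⟨hbi z, hE.bis hz, hE.bbi z (sphere_subset_closedBall hz)⟩
  · intro ζ _
    exact ⟨1, one_pos, lt_of_le_of_lt (measure_mono (subset_univ _)) hS.fin⟩
  · intro ζ hζ m' hm' hfix
    have hE' : EndMap φ u (f^[m * m']) (fi^[m * m']) (hb^[m']) (hbi^[m']) := by
      rw [Function.iterate_mul, Function.iterate_mul]
      exact endMap_iter hD hM1 hM2 hE m'
    have hK' : f^[m * m'] '' K = K := by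
      rw [Function.iterate_mul]
      exact SF_image_iter hm m'
    obtain ⟨P, hP, hPr, h⟩ := sphere_loc hS hC hn hD (Nat.mul_pos hm0 hm') hK' hE'
      (mem_sphere_zero_iff_norm.1 hζ) hfix
    refine ⟨P, hP, hPr, ?_⟩
    rcases h with h | ⟨P', χ, κ, r, lp, km, kp, h⟩
    · left
      rw [← Function.iterate_mul]
      exact h
    · right
      refine ⟨P', χ, κ, r, lp, km, kp, ?_⟩
      rw [← Function.iterate_mul]
      have : m * (2 * m') = 2 * (m * m') := by ring
      rw [this]
      exact h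
  · intro ζ _ m' _ _ J _ _ _ _ e he _
    exact he

end DS
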