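import Mathlib

/-!
Project MP_8a27c0_DS: definitions for the sphere.
-/

namespace DS

open Metric Set Filter Topology Function
open scoped Manifold ContDiff

/-- three dimensional Euclidean space -/
abbrev E3 := EuclideanSpace ℝ (Fin 3)

/-- the Euclidean plane (model space of the sphere) -/
abbrev E2 := EuclideanSpace ℝ (Fin 2)

instance factE3 : Fact (Module.finrank ℝ E3 = 2 + 1) := ⟨by simp⟩

/-- the unit sphere in three dimensional space, with the manifold structure of Mathlib -/
abbrev S2 := sphere (0 : E3) 1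

/-- the determinant of three vectors -/
noncomputable def det3 (a b c : E3) : ℝ :=
  Matrix.det !![a 0, a 1, a 2; b 0, b 1, b 2; c 0, c 1, c 2]

/-- a tangent vector of the sphere, as a vector of three dimensional space -/
noncomputable def emb (x : S2) (v : TangentSpace (𝓡 2) x) : E3 :=
  mfderiv (𝓡 2) 𝓘(ℝ, E3) (fun y : S2 => (y : E3)) x v

/-- the area form with density `ρ` with respect to the standard area form of the sphere -/
noncomputable def areaForm (ρ : S2 → ℝ) (x : S2) (v w : TangentSpace (𝓡 2) x) : ℝ :=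
  ρ x * det3 x (emb x v) (emb x w)

/-- `f` preserves the area form with density `ρ` -/
def PreservesArea (ρ : S2 → ℝ) (f : S2 → S2) : Prop :=
  ∀ (x : S2) (v w : TangentSpace (𝓡 2) x),
    areaForm ρ (f x) (mfderiv (𝓡 2) (𝓡 2) f x v) (mfderiv (𝓡 2) (𝓡 2) f x w) = areaForm ρ x v w

/-- the stable set of the orbit of `P` at `P` -/
def stableSet (f : S2 → S2) (P : S2) : Set S2 :=
  {x | Tendsto (fun n : ℕ => dist (f^[n] x) (f^[n] P)) atTop (𝓝 0)}

/-- the derivative at `P` of `f` iterated `q` times -/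
noncomputable def iterDeriv (f : S2 → S2) (q : ℕ) (P : S2) : E2 →L[ℝ] E2 :=
  mfderiv (𝓡 2) (𝓡 2) (f^[q]) P

/-- `μ` is a (complex) eigenvalue of the derivative at the periodic point `P` of the return map -/
def IsMultiplier (f : S2 → S2) (P : S2) (μ : ℂ) : Prop :=
  μ ∈ ((iterDeriv f (minimalPeriod f P) P : E2 →ₗ[ℝ] E2).charpoly.map (algebraMap ℝ ℂ)).roots

/-- condition 1: no multiplier of a periodic point is a root of unity -/
def Cond1 (f : S2 → S2) : Prop :=
  ∀ P ∈ periodicPts f, ∀ μ : ℂ, IsMultiplier f P μ → ∀ n : ℕ, 0 < n → μ ^ n ≠ 1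

/-- hyperbolic periodic points: no multiplier of modulus one -/
def Hyperbolic (f : S2 → S2) (P : S2) : Prop :=
  P ∈ periodicPts f ∧ ∀ μ : ℂ, IsMultiplier f P μ → ‖μ‖ ≠ 1

/-- `v` is the velocity at `x` of a regular `C¹` curve through `x` contained in `W` -/
def TangentTo (W : Set S2) (x : S2) (v : E3) : Prop :=
  v ≠ 0 ∧ ∃ α : ℝ → S2, ContDiffOn ℝ 1 (fun t => (α t : E3)) (Ioo (-1) 1) ∧
    (∀ t ∈ Ioo (-1:ℝ) 1, α t ∈ W) ∧ α 0 = x ∧ deriv (fun t => (α t : E3)) 0 = v

/-- condition 2: the stable and the unstable manifolds of hyperbolic periodic points are transverse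
(velocities of regular curves in the two manifolds at a common point are linearly independent);
`fi` is the inverse of `f` -/
def Cond2 (f fi : S2 → S2) : Prop :=
  ∀ P Q : S2, Hyperbolic f P → Hyperbolic f Q → ∀ x ∈ stableSet f P ∩ stableSet fi Q,
    ∀ v w : E3, TangentTo (stableSet f P) x v → TangentTo (stableSet fi Q) x w →
      LinearIndependent ℝ ![v, w]

/-- `A` is an annular rotation domain of the map `g`: an open `g`-invariant set homeomorphic to an open
annulus without periodic point of `g` -/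
def RotationAnnulus (g : S2 → S2) (A : Set S2) : Prop :=
  IsOpen A ∧ g '' A = A ∧ Nonempty (A ≃ₜ {z : ℂ | 1 < ‖z‖ ∧ ‖z‖ < 2}) ∧ ∀ P ∈ A, P ∉ periodicPts g

/-- condition 4: no iterate of `f` has an annular rotation domain -/
def Cond4 (f : S2 → S2) : Prop :=
  ∀ q : ℕ, 0 < q → ∀ A : Set S2, ¬ RotationAnnulus (f^[q]) A

end DS
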