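import Mathlib

/-!
TCA (compactness near the circle; separation of finitely many compact sets).  Plain Mathlib.
-/

namespace DS
open Metric Set Filter Topology

theorem far_circle {F : ℂ → ℝ} (hF : ContinuousOn F (closedBall 0 1))
    (hpos : ∀ z ∈ sphere (0:ℂ) 1, 0 < F z) :
    ∃ ρ : ℝ, 0 < ρ ∧ ρ < 1 ∧ ∃ c > 0, ∀ z : ℂ, ρ ≤ ‖z‖ → ‖z‖ ≤ 1 → c ≤ F z := by
  have hsc : IsCompact (sphere (0:ℂ) 1) := isCompact_sphere 0 1
  have hsub : sphere (0:ℂ) 1 ⊆ closedBall 0 1 := sphere_subset_closedBall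
  obtain ⟨z₀, hz₀, hmin⟩ := hsc.exists_isMinOn ⟨1, by simp⟩ (hF.mono hsub)
  set c := F z₀ / 2 with hc
  have hc0 : 0 < c := by have := hpos z₀ hz₀; positivity
  -- the compact set where `F` is small
  have hT : IsCompact (closedBall (0:ℂ) 1 ∩ F ⁻¹' Iic c) := by
    apply (isCompact_closedBall (0:ℂ) 1).of_isClosed_subset _ inter_subset_left
    exact hF.preimage_isClosed_of_isClosed isClosed_closedBall isClosed_Iic
  rcases (closedBall (0:ℂ) 1 ∩ F ⁻¹' Iic c).eq_empty_or_nonempty with he | hne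
  · refine ⟨1 / 2, by norm_num, by norm_num, c, hc0, fun z _ hz => ?_⟩
    by_contra h
    push Not at h
    have : z ∈ closedBall (0:ℂ) 1 ∩ F ⁻¹' Iic c := ⟨by simpa using hz, h.le⟩
    rw [he] at this
    exact this
  · obtain ⟨w, hw, hmax⟩ := hT.exists_isMaxOn hne continuous_norm.continuousOn
    have hw1 : ‖w‖ < 1 := by
      have h1 : ‖w‖ ≤ 1 := by simpa using hw.1
      rcases h1.lt_or_eq with h | h
      · exact h
      · exfalso
        have h2 : F z₀ ≤ F w := hmin (by simpa using h)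
        have h3 : F w ≤ c := hw.2
        linarith
    refine ⟨(1 + ‖w‖) / 2, by positivity, by linarith, c, hc0, fun z hz hz1 => ?_⟩
    by_contra h
    push Not at h
    have h1 : ‖z‖ ≤ ‖w‖ := hmax (⟨by simpa using hz1, h.le⟩ : z ∈ closedBall (0:ℂ) 1 ∩ F ⁻¹' Iic c)
    linarith

theorem sep_open {m : ℕ} (K : Fin m → Set ℂ) (hK : ∀ i, IsCompact (K i))
    (hd : ∀ i j, i ≠ j → Disjoint (K i) (K j)) :
    ∃ N : Fin m → Set ℂ, (∀ i, IsOpen (N i)) ∧ (∀ i, K i ⊆ N i) ∧
      ∀ i j, i ≠ j → Disjoint (N i) (N j) := by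
  have h1 : ∀ i j, ∃ δ > 0, i ≠ j → Disjoint (thickening δ (K i)) (thickening δ (K j)) := by
    intro i j
    by_cases h : i = j
    · exact ⟨1, one_pos, fun h' => absurd h h'⟩
    · obtain ⟨δ, hδ, hdis⟩ := (hd i j h).exists_thickenings (hK i) (hK j).isClosed
      exact ⟨δ, hδ, fun _ => hdis⟩
  choose δ hδ hdis using h1
  obtain ⟨d, hd0, hdle⟩ : ∃ d > 0, ∀ i j, d ≤ δ i j := by
    rcases isEmpty_or_nonempty (Fin m) with he | hne
    · exact ⟨1, one_pos, fun i => (he.false i).elim⟩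
    · obtain ⟨p, hp⟩ := Finite.exists_min (fun p : Fin m × Fin m => δ p.1 p.2)
      exact ⟨δ p.1 p.2, hδ _ _, fun i j => hp (i, j)⟩
  refine ⟨fun i => thickening d (K i), fun i => isOpen_thickening,
    fun i => self_subset_thickening hd0 _, fun i j hij => ?_⟩
  exact (hdis i j hij).mono (thickening_mono (hdle i j) _) (thickening_mono (hdle i j) _)

end DS
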