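import Pool.Agent.H36.DS.TBase
import Pool.Agent.H36.DS.TCA
import Pool.Agent.H36.DS.SF
import Pool.Agent.H36.DS.IC

/-!
TCB (Star property of an invariant component with more than one point).  Proof.  `K` is one of the components
(`hK.1` : `K = connectedComponentIn Vᶜ x`), `hC := hV.compK' hK : CompK f V K`, `Kᶜ` is connected (`hV.compl_conn`), `O ∈ Kᶜ`.
1. As in the proof of `sphere_plane` in `NA.lean` (copy): `p '' K` is compact, connected, nontrivial, and its complement is connected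
(`punctured_connected`); `k₀ ∈ p '' K`, `K₀ = (p '' K) - k₀` (copy `NA_trans`): `g7 : (fun z => k₀ + z) '' K₀ = p '' K`;
`ext_map` gives `hE : ExtMap K₀ ψ v`; `discMap_ext` with `g7` and `q '' (p '' K) = K` gives `hD : DiscMap K φ u` with
`φ = fun z => if z = 0 then O else q (k₀ + (ψ z)⁻¹)`, `u = fun x => if x = O then 0 else v ((p x - k₀)⁻¹)`.
2. `end_homeo hC.K_closed hD` (for `g = f^[m]`, `gi = fi^[m]`, `hS.cf.continuous.iterate m`, `iter_fif`, `hK.2`) gives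
`hb, hbi, hEM : EndMap φ u (f^[m]) (fi^[m]) hb hbi`, and `sphere_no_fixed_end hS hC hn hD hV.hm hK.2 hEM` gives `hb ζ ≠ ζ` on the circle.
3. `far_circle` for `F z = min ‖hb z - z‖ ‖hb z‖` (continuous on the closed disc by `hEM.bc`; positive on the circle, where
`‖hb z‖ = 1` by `hEM.bs`) gives `ρ₀, c`; `far_circle` for `F z = ‖hb z‖ - (1 - ε)` gives `hlim`.
4. `star_nontrivial g1 g2 g5 hE k₀ hρ₀ hρ₀' hc (h := hb)` with `g z = p (f^[m] (q z))`: `ContinuousOn hb` from `hEM.bc`; for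
`ρ₀ ≤ ‖z‖ < 1`: `‖hb z‖ < 1` by `hEM.bo`; `hb z ≠ 0` as `c ≤ ‖hb z‖`; the conjugacy: `z ≠ 0`, `φ z = q (k₀ + (ψ z)⁻¹)`,
`hb z = u (f^[m] (φ z))` (`hEM.be`), so `φ (hb z) = f^[m] (φ z)` (`hD.φu`, since `f^[m] (φ z) ∉ K`: `f^[m]` is injective and maps `K` onto
`K`), and `φ (hb z) = q (k₀ + (ψ (hb z))⁻¹)` as `hb z ≠ 0`; apply `p` (`hC'.pq`).
-/

namespace DS
open Metric Set Filter Topology Function MeasureTheory
open scoped Manifold ContDiff

private theorem TCB_trans {K : Set ℂ} (hK : IsCompact K) (hc : IsConnected K) (hcc : IsConnected Kᶜ)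
    (hn : K.Nontrivial) {k₀ : ℂ} (hk₀ : k₀ ∈ K) :
    ∃ K₀ : Set ℂ, IsCompact K₀ ∧ IsConnected K₀ ∧ IsConnected K₀ᶜ ∧ K₀.Nontrivial ∧ (0:ℂ) ∈ K₀ ∧
      (∀ z, z ∈ K₀ ↔ k₀ + z ∈ K) ∧ (fun z => k₀ + z) '' K₀ = K := by
  have hiff : ∀ z, z ∈ (fun z => z - k₀) '' K ↔ k₀ + z ∈ K := by
    intro z
    constructor
    · rintro ⟨w, hw, rfl⟩
      simpa using hw
    · intro h
      exact ⟨k₀ + z, h, by simp⟩
  have hcont : Continuous (fun z : ℂ => z - k₀) := continuous_id.sub continuous_const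
  refine ⟨(fun z => z - k₀) '' K, hK.image hcont, hc.image _ hcont.continuousOn, ?_, ?_, ?_, hiff, ?_⟩
  · have : ((fun z => z - k₀) '' K)ᶜ = (fun z => z - k₀) '' Kᶜ := by
      ext z
      rw [mem_compl_iff, hiff]
      constructor
      · intro h
        exact ⟨k₀ + z, h, by simp⟩
      · rintro ⟨w, hw, rfl⟩
        simpa using hw
    rw [this]
    exact hcc.image _ hcont.continuousOn
  · exact hn.image (fun a b h => by simpa using h)
  · exact ⟨k₀, hk₀, by simp⟩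
  · ext z
    constructor
    · rintro ⟨w, hw, rfl⟩
      exact (hiff w).mp hw
    · intro h
      exact ⟨z - k₀, ⟨z, h, rfl⟩, by simp⟩

theorem star_comp_nontrivial {f fi : S2 → S2} {ν : Measure S2} (hS : Sys f fi ν) {m : ℕ}
    {V : Set S2} (hV : InvV f m V) {O : S2} {p : S2 → ℂ} {q : ℂ → S2} (hO : O ∈ V)
    (hpq : SC O p q) {K : Set S2} (hK : K ∈ invComp (f^[m]) V) (hn : K.Nontrivial) {k : ℂ}
    (hk : k ∈ p '' K) : Star (fun z => p (f^[m] (q z))) k (p '' K) := by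
  have hC : CompK f V K := hV.compK' hK
  have hcc : IsConnected Kᶜ := by
    obtain ⟨⟨x, hx, rfl⟩, -⟩ := hK
    exact hV.compl_conn hx
  have hOK : O ∉ K := fun h => disjoint_left.mp hC.K_V h hO
  have hKO : K ⊆ {O}ᶜ := fun x hx h => hOK (by rw [mem_singleton_iff] at h; exact h ▸ hx)
  have hpK : ContinuousOn p K := hpq.p_smooth.continuousOn.mono hKO
  have h1 : IsCompact (p '' K) := hC.K_closed.isCompact.image_of_continuousOn hpK
  have h2 : IsConnected (p '' K) := hC.K_conn.image _ hpK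
  have hiff : ∀ z, z ∈ p '' K ↔ q z ∈ K := by
    intro z
    constructor
    · rintro ⟨x, hx, rfl⟩
      rw [hpq.qp x (hKO hx)]
      exact hx
    · intro h
      exact ⟨q z, h, hpq.pq z⟩
  have h3 : IsConnected (p '' K)ᶜ := by
    have h4 : IsConnected (Kᶜ \ {O}) := punctured_connected hpq hC.K_closed.isOpen_compl hcc hOK
    have h5 : (p '' K)ᶜ = p '' (Kᶜ \ {O}) := by
      ext z
      rw [mem_compl_iff, hiff]
      constructor
      · intro h
        exact ⟨q z, ⟨h, hpq.q_ne z⟩, hpq.pq z⟩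
      · rintro ⟨x, ⟨hx, hxO⟩, rfl⟩
        rw [hpq.qp x hxO]
        exact hx
    rw [h5]
    exact h4.image _ (hpq.p_smooth.continuousOn.mono fun x hx => hx.2)
  have h4 : (p '' K).Nontrivial := by
    obtain ⟨a, ha, b, hb, hab⟩ := hn
    refine ⟨p a, ⟨a, ha, rfl⟩, p b, ⟨b, hb, rfl⟩, fun h => hab ?_⟩
    rw [← hpq.qp a (hKO ha), ← hpq.qp b (hKO hb), h]
  obtain ⟨k₀, hk₀⟩ := h2.nonempty
  obtain ⟨K₀, g1, g2, g3, g4, g5, g6, g7⟩ := TCB_trans h1 h2 h3 h4 hk₀
  obtain ⟨ψ, v, hE⟩ := ext_map g1 g2 g5 g4 g3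
  have hD := discMap_ext hpq g1 g2 g5 g4 hE k₀
  rw [g7] at hD
  have hqK : q '' (p '' K) = K := by
    ext x
    constructor
    · rintro ⟨_, ⟨y, hy, rfl⟩, rfl⟩
      rw [hpq.qp y (hKO hy)]
      exact hy
    · intro hx
      exact ⟨p x, ⟨x, hx, rfl⟩, hpq.qp x (hKO hx)⟩
  rw [hqK] at hD
  set φ : ℂ → S2 := fun z => if z = 0 then O else q (k₀ + (ψ z)⁻¹) with hφ
  set u : S2 → ℂ := fun x => if x = O then 0 else v ((p x - k₀)⁻¹) with hu
  obtain ⟨hb, hbi, hEM⟩ := end_homeo hC.K_closed hD (hS.cf.continuous.iterate m)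
    (hS.cfi.continuous.iterate m) (iter_fif hS.ffi m) (iter_fif hS.fif m) hK.2
  have hnf := sphere_no_fixed_end hS hC hn hD hV.hm hK.2 hEM
  have hsph : ∀ z ∈ sphere (0:ℂ) 1, ‖hb z‖ = 1 := fun z hz => by
    have := hEM.bs hz
    rwa [mem_sphere_zero_iff_norm] at this
  -- step 3
  obtain ⟨ρ₀, hρ₀, hρ₀', c, hc, hfar⟩ := far_circle (F := fun z => min ‖hb z - z‖ ‖hb z‖)
    (ContinuousOn.inf (hEM.bc.sub continuousOn_id).norm hEM.bc.norm) (fun z hz => by
      refine lt_min (norm_pos_iff.mpr (sub_ne_zero.mpr (hnf z hz))) ?_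
      rw [hsph z hz]
      exact one_pos)
  have hinj : Injective (f^[m]) := Function.LeftInverse.injective (iter_fif hS.fif m)
  have hgK : ∀ x, x ∉ K → f^[m] x ∉ K := by
    intro x hx h
    have hx' : f^[m] x ∈ f^[m] '' K := by rw [hK.2]; exact h
    obtain ⟨y, hy, hyx⟩ := hx'
    exact hx (hinj hyx ▸ hy)
  intro N hN hKN
  have key := star_nontrivial g1 g2 g5 hE k₀ (g := fun z => p (f^[m] (q z))) (h := hb) hρ₀ hρ₀' hc
    (hEM.bc.mono fun z hz => by
      rw [mem_closedBall_zero_iff]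
      exact hz.2.le) ?_ ?_ hN (by rw [g7]; exact hKN) (k := k) (by rw [g7]; exact hk)
  · rw [g7] at key
    exact key
  · intro z hz1 hz2
    have hz : z ∈ ball (0:ℂ) 1 := by rw [mem_ball_zero_iff]; exact hz2
    have hz0 : z ≠ 0 := by
      intro h
      rw [h, norm_zero] at hz1
      linarith
    have hfz := hfar z hz1 hz2.le
    have hcz : c ≤ ‖hb z - z‖ := hfz.trans (min_le_left _ _)
    have hb0 : hb z ≠ 0 := by
      intro h
      have : c ≤ ‖hb z‖ := hfz.trans (min_le_right _ _)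
      rw [h, norm_zero] at this
      linarith
    have hbz := hEM.bo hz
    refine ⟨by rwa [mem_ball_zero_iff] at hbz, hb0, hcz, ?_⟩
    have e1 : φ z = q (k₀ + (ψ z)⁻¹) := by simp only [hφ, if_neg hz0]
    have e2 : φ (hb z) = q (k₀ + (ψ (hb z))⁻¹) := by simp only [hφ, if_neg hb0]
    have e3 : φ (hb z) = f^[m] (φ z) := by
      rw [hEM.be z hz]
      exact hD.φu _ (hgK _ (hD.φ_maps hz))
    show p (f^[m] (q (k₀ + (ψ z)⁻¹))) = _
    rw [← e1, ← e3, e2, hpq.pq]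
  · intro ε hε
    obtain ⟨ρ, -, hρ1, c', hc', hfar'⟩ := far_circle (F := fun z => ‖hb z‖ - (1 - ε))
      (hEM.bc.norm.sub continuousOn_const) (fun z hz => by
        show 0 < ‖hb z‖ - (1 - ε)
        rw [hsph z hz]
        linarith)
    refine ⟨ρ, hρ1, fun z hz1 hz2 => ?_⟩
    have : c' ≤ ‖hb z‖ - (1 - ε) := hfar' z hz1 hz2.le
    linarith

end DS
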