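import Pool.Agent.H36.DS.TBase
import Pool.Agent.H36.DS.SM
import Pool.Agent.H36.DS.SH
import Pool.Agent.H36.DS.SW
import Pool.Agent.H36.DS.SV
import Pool.Agent.H36.DS.ID

/-!
TCC (Star property of an invariant component consisting of one point).  Proof.  `hK.2` gives `f^[m] P = P`; `P ∉ V` so `P ≠ O`.
1. `tr f m P < 2`: by `trichotomy hS hV.hm` it remains to exclude that `P` is hyperbolic with `2 < |tr f m P|`.  Then
`tr f (2 * m) P = tr f m P ^ 2 - 2 > 2` (`tr_two`); `g = f^[2 * m]` fixes `P`; `iterDeriv g 1 P = iterDeriv f (2 * m) P` and `tr g 1 P = tr f (2 * m) P`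
(`rfl` or `simp [iterDeriv, tr]`: the first iterate is the map itself), determinant one by `hS.det1`; `hyp_chart` for `g`, `P`, `O` gives `χ κ r …`;
`axis_stable hS.cf.continuous (M := 2 * m)` : `κ ⟨x, 0⟩ ∈ stableSet f P` for `|x| ≤ r`.  The set `C = κ '' ((fun x : ℝ => ⟨x, 0⟩) '' Icc (-r) r)` is
preconnected, misses `V` (`hV.V_stab P`, `P` is periodic) and contains `P = κ 0`; by `(hV.compK' hK).K_max` it is contained in `K = {P}`; but
`κ ⟨r, 0⟩ = κ 0` contradicts `χ (κ z) = z` and `0 < r` (`HypLoc.hr`).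
2. `chart_deriv (pc1_of_SC hpq)` for `g = f^[m]` (smooth: `ContMDiff.iterate`) gives `B` with `HasFDerivAt (fun z => p (g (q z))) B (p P)`, `B.det = 1`
and trace `tr f m P`.  The determinant of `B - id` is `det B - tr B + 1 = 2 - tr > 0`: for a linear map `T` of a two dimensional space
`det (T - 1) = det T - tr T + 1` (take the matrix in the basis `Complex.basisOneI`, `LinearMap.det_toLin`/`LinearMap.trace_eq_matrix_trace`,
`Matrix.det_fin_two`, `Matrix.trace_fin_two`).
3. Continuity near `p P`: `chart_c1` (the set `{z | g (q z) ≠ O}` is open, contains `p P`, and the map is `C¹` on it).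
4. `star_point` with `N` gives the claim (`p '' {P} = {p P}`, `k = p P`).
-/

namespace DS
open Metric Set Filter Topology Function MeasureTheory
open scoped Manifold ContDiff

theorem TCC_iter {f : S2 → S2} (cf : ContMDiff (𝓡 2) (𝓡 2) 1 f) (k : ℕ) :
    ContMDiff (𝓡 2) (𝓡 2) 1 (f^[k]) := by
  induction k with
  | zero => exact contMDiff_id
  | succ k ih =>
    rw [Function.iterate_succ']
    exact cf.comp ih

/-- the trace at a fixed point contained in a one point component is less than two -/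
theorem TCC_tr {f fi : S2 → S2} {ν : Measure S2} (hS : Sys f fi ν) {m : ℕ}
    {V : Set S2} (hV : InvV f m V) {O : S2} (hO : O ∈ V) {P : S2}
    (hK : {P} ∈ invComp (f^[m]) V) (hP : f^[m] P = P) : tr f m P < 2 := by
  by_contra hcon
  have hPO : P ≠ O := fun h => hV.not_per ⟨m, hV.hm, hP⟩ (h ▸ hO)
  have h2 : 2 < |tr f m P| := by
    rcases trichotomy hS hV.hm hP with h | h
    · exact absurd (lt_of_le_of_lt (le_abs_self _) h) hcon
    · exact h.2
  have hm2 : 0 < 2 * m := by have := hV.hm; omega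
  have hP2 : f^[2 * m] P = P := by
    rw [two_mul, Function.iterate_add_apply, hP, hP]
  have htr2 : 2 < tr f (2 * m) P := by
    rw [tr_two hS hP]
    have : (2:ℝ) ^ 2 < tr f m P ^ 2 := by
      rw [← sq_abs (tr f m P)]
      exact pow_lt_pow_left₀ h2 (by norm_num) (by norm_num)
    linarith
  have hdet : (iterDeriv (f^[2 * m]) 1 P).det = 1 := by
    rw [iterDeriv_iter]
    exact hS.det1 P _ hP2
  have htr3 : 2 < tr (f^[2 * m]) 1 P := by
    unfold tr
    rw [iterDeriv_iter]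
    exact htr2
  obtain ⟨χ, κ, r, lp, km, kp, hχ, hκ0, HL, hO'⟩ :=
    hyp_chart (TCC_iter hS.cf (2 * m)) hP2 hPO hdet htr3
  have hr : 0 < r := HL.hr
  set C : Set S2 := (fun x : ℝ => κ ⟨x, 0⟩) '' Icc (-r) r with hC
  have hcont : Continuous (fun x : ℝ => κ ⟨x, 0⟩) := by
    have h1 : Continuous (fun x : ℝ => (⟨x, 0⟩ : ℂ)) := by
      have : (fun x : ℝ => (⟨x, 0⟩ : ℂ)) = fun x : ℝ => (x : ℂ) := by
        funext x
        rfl
      rw [this]
      exact Complex.continuous_ofReal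
    exact hχ.κ_smooth.continuous.comp h1
  have hCp : IsPreconnected C := isPreconnected_Icc.image _ hcont.continuousOn
  have hCV : Disjoint C V := by
    rw [disjoint_left]
    rintro z ⟨x, hx, rfl⟩ hzV
    have hst := axis_stable hS.cf.continuous hm2 hχ hκ0 hP2 HL hO' (x := x)
      (abs_le.mpr ⟨hx.1, hx.2⟩)
    exact disjoint_left.mp (hV.V_stab P ⟨m, hV.hm, hP⟩) hzV hst
  have hCP : (C ∩ {P}).Nonempty := by
    refine ⟨P, ⟨0, ⟨by linarith, hr.le⟩, ?_⟩, rfl⟩
    exact hκ0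
  have hsub := (hV.compK' hK).K_max C hCp hCV hCP
  have h3 : κ ⟨r, 0⟩ = P := hsub ⟨r, ⟨by linarith, le_rfl⟩, rfl⟩
  have h4 : χ (κ ⟨r, 0⟩) = χ (κ 0) := by rw [h3, hκ0]
  rw [hχ.χκ, hχ.χκ] at h4
  have h5 := congrArg Complex.re h4
  simp only [Complex.zero_re] at h5
  exact hr.ne' h5

theorem TCC_det (B : ℂ →L[ℝ] ℂ) : (B - ContinuousLinearMap.id ℝ ℂ).det =
    B.det - LinearMap.trace ℝ ℂ (B : ℂ →ₗ[ℝ] ℂ) + 1 := by
  rw [(SH_entries B).1, (SH_entries B).2, (SH_entries (B - ContinuousLinearMap.id ℝ ℂ)).1]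
  simp only [sub_apply, ContinuousLinearMap.id_apply, Complex.sub_re,
    Complex.sub_im, Complex.one_re, Complex.one_im, Complex.I_re, Complex.I_im]
  ring

theorem star_comp_point {f fi : S2 → S2} {ν : Measure S2} (hS : Sys f fi ν) {m : ℕ}
    {V : Set S2} (hV : InvV f m V) {O : S2} {p : S2 → ℂ} {q : ℂ → S2} (hO : O ∈ V)
    (hpq : SC O p q) {P : S2} (hK : {P} ∈ invComp (f^[m]) V) :
    Star (fun z => p (f^[m] (q z))) (p P) (p '' {P}) := by
  have hP : f^[m] P = P := by
    have h := hK.2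
    rw [image_singleton] at h
    exact singleton_injective h
  have hPO : P ≠ O := fun h => hV.not_per ⟨m, hV.hm, hP⟩ (h ▸ hO)
  have htr := TCC_tr hS hV hO hK hP
  have hg : ContMDiff (𝓡 2) (𝓡 2) 1 (f^[m]) := TCC_iter hS.cf m
  obtain ⟨B, hB, hBdet, hBtr⟩ := chart_deriv (pc1_of_SC hpq) hg hP hPO
  have hdet1 : (iterDeriv (f^[m]) 1 P).det = 1 := by
    rw [iterDeriv_iter]
    exact hS.det1 P _ hP
  have htr1 : tr (f^[m]) 1 P = tr f m P := by
    unfold tr
    rw [iterDeriv_iter]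
  obtain ⟨hU, hF⟩ := chart_c1 (pc1_of_SC hpq) hg
  have hPU : p P ∈ {z | f^[m] (q z) ≠ O} := by
    show f^[m] (q (p P)) ≠ O
    rw [hpq.qp P hPO, hP]
    exact hPO
  have hgP : (fun z => p (f^[m] (q z))) (p P) = p P := by
    show p (f^[m] (q (p P))) = p P
    rw [hpq.qp P hPO, hP]
  have hcont : ∀ᶠ z in 𝓝 (p P), ContinuousAt (fun z => p (f^[m] (q z))) z := by
    filter_upwards [hU.mem_nhds hPU] with z hz
    exact hF.continuousOn.continuousAt (hU.mem_nhds hz)
  intro N hN hKN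
  rw [image_singleton] at hKN ⊢
  obtain ⟨W, w1, w2, w3, w4, w5, w6, w7⟩ := star_point hB hgP
    (by rw [TCC_det, hBdet, hdet1, hBtr, htr1]; linarith)
    (by rw [hBdet, hdet1]; norm_num) hcont hN (hKN rfl)
  refine ⟨W, w1, singleton_subset_iff.mpr w2, w3, w4, w5, w6, ?_⟩
  intro x hx hxP
  exact w7 x hx hxP

end DS
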