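import Pool.Agent.H36.DS.TCB
import Pool.Agent.H36.DS.TCC
import Pool.Agent.H36.DS.IE

/-!
TD (fixed points in invariant components; finitely many invariant components).
Preparation.  `G = fun z => p (f^[m] (q z))`, `a = p (fi^[m] O)` (`fi^[m] O ≠ O`: otherwise `O` would be periodic, `hV.not_per`; so `q a = fi^[m] O`),
and `G` is continuous on `{a}ᶜ` (`f^[m] (q z) = O` only for `z = a`).  `a ∉ p '' K` for `K ∈ invComp` (`fi^[m] O ∈ V`).
`star_comp`: `K ∈ invComp` is not empty; either `K = {P}` (`star_comp_point`; `k = p P`) or nontrivial (`star_comp_nontrivial`).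
`comp_has_fix`.  Take a stereographic chart with pole `O ∈ V` (`exists_SC`), `k ∈ p '' K`, `Star` with `N = {a}ᶜ`: `O'`.  If `K` had no fixed point then
`G x - x ≠ 0` on `closure O'` (for `x ∈ p '' K`, `x = p y`, `G x = p (f^[m] y)`, and `p` is injective on `K`; otherwise the last clause), `G` is continuous
on `closure O' ⊆ {a}ᶜ`; `no_nonvanishing` gives a contradiction.
`invComp_finite`.  `F = {x | f^[m] x = x}` is closed, so compact.  For `x ∈ F`, `K_x = connectedComponentIn Vᶜ x ∈ invComp` (`hV.comp_fix`) and `Star` with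
`N = univ` gives `O'_x`; `W_x = {O}ᶜ ∩ p ⁻¹' O'_x` is an open neighbourhood of `x` with `F ∩ W_x ⊆ K_x`.  Finitely many `W_{x_i}` cover `F`
(`IsCompact.elim_nhds_subcover`); every `K ∈ invComp` contains a fixed point `y` (`comp_has_fix`), `y ∈ W_{x_i}`, so `y ∈ K_{x_i} ∩ K` and `K = K_{x_i}`
(`invComp_disj`): `invComp ⊆` image of a finite set.
-/

namespace DS
open Metric Set Filter Topology Function MeasureTheory
open scoped Manifold ContDiff

theorem star_comp {f fi : S2 → S2} {ν : Measure S2} (hS : Sys f fi ν) {m : ℕ}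
    {V : Set S2} (hV : InvV f m V) {O : S2} {p : S2 → ℂ} {q : ℂ → S2} (hO : O ∈ V)
    (hpq : SC O p q) {K : Set S2} (hK : K ∈ invComp (f^[m]) V) {k : ℂ}
    (hk : k ∈ p '' K) : Star (fun z => p (f^[m] (q z))) k (p '' K) := by
  have hKe : K.Nonempty := by
    obtain ⟨⟨x, hx, rfl⟩, -⟩ := hK
    exact ⟨x, mem_connectedComponentIn hx⟩
  rcases hKe.exists_eq_singleton_or_nontrivial with ⟨P, rfl⟩ | hn
  · rw [image_singleton, mem_singleton_iff] at hk
    rw [hk]
    exact star_comp_point hS hV hO hpq hK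
  · exact star_comp_nontrivial hS hV hO hpq hK hn hk

theorem comp_has_fix {f fi : S2 → S2} {ν : Measure S2} (hS : Sys f fi ν) {m : ℕ}
    {V : Set S2} (hV : InvV f m V) {K : Set S2} (hK : K ∈ invComp (f^[m]) V) :
    ∃ x ∈ K, f^[m] x = x := by
  by_contra hcon
  push Not at hcon
  obtain ⟨O, hO⟩ := hV.V_conn.nonempty
  obtain ⟨p, q, hpq⟩ := exists_SC O
  have hKC := hV.compK' hK
  obtain ⟨y0, hy0⟩ := hKC.K_conn.nonempty
  have hKO : ∀ y ∈ K, y ≠ O := by
    rintro y hy rfl
    exact disjoint_left.mp hKC.K_V hy hO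
  have ha0 : fi^[m] O ≠ O := by
    intro h
    have h1 : f^[m] O = O := by
      have h2 := iter_fif hS.ffi m O
      rwa [h] at h2
    exact hV.not_per ⟨m, hV.hm, h1⟩ hO
  have haV : fi^[m] O ∈ V := by
    rw [← hV.mem_iff hS, iter_fif hS.ffi m O]
    exact hO
  have hqa : q (p (fi^[m] O)) = fi^[m] O := hpq.qp _ ha0
  have haK : p '' K ⊆ {p (fi^[m] O)}ᶜ := by
    rintro _ ⟨y, hy, rfl⟩ h
    rw [mem_singleton_iff] at h
    have h1 : y = fi^[m] O := by rw [← hpq.qp y (hKO y hy), h, hqa]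
    rw [h1] at hy
    exact disjoint_left.mp hKC.K_V hy haV
  obtain ⟨U, hU, hKU, hUN, hUb, hlog, -, hUf⟩ :=
    star_comp hS hV hO hpq hK (mem_image_of_mem p hy0) _ isOpen_compl_singleton haK
  have hne : ∀ z ∈ closure U, f^[m] (q z) ≠ O := by
    intro z hz h
    apply hUN hz
    rw [mem_singleton_iff, ← h, iter_fif hS.fif m, hpq.pq]
  have hpc : ContinuousOn p {O}ᶜ := hpq.p_smooth.continuousOn
  have hGc : ContinuousOn (fun z => p (f^[m] (q z)) - z) (closure U) := by
    refine ContinuousOn.sub ?_ continuousOn_id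
    exact hpc.comp ((hS.cf.continuous.iterate m).comp hpq.q_smooth.continuous).continuousOn
      (fun z hz => hne z hz)
  refine no_nonvanishing hU hUb (hKU (mem_image_of_mem p hy0)) hGc ?_ hlog
  intro z hz h0
  rw [sub_eq_zero] at h0
  by_cases hzK : z ∈ p '' K
  · obtain ⟨y, hy, rfl⟩ := hzK
    rw [hpq.qp y (hKO y hy)] at h0
    have h1 : f^[m] y ∈ K := by
      rw [← hK.2]
      exact mem_image_of_mem _ hy
    apply hcon y hy
    rw [← hpq.qp _ (hKO _ h1), h0, hpq.qp y (hKO y hy)]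
  · exact hUf z hz hzK h0

theorem invComp_finite {f fi : S2 → S2} {ν : Measure S2} (hS : Sys f fi ν) {m : ℕ}
    {V : Set S2} (hV : InvV f m V) : (invComp (f^[m]) V).Finite := by
  classical
  obtain ⟨O, hO⟩ := hV.V_conn.nonempty
  obtain ⟨p, q, hpq⟩ := exists_SC O
  have hFc : IsClosed {x : S2 | f^[m] x = x} :=
    isClosed_eq (hS.cf.continuous.iterate m) continuous_id
  have hpc : ContinuousOn p {O}ᶜ := hpq.p_smooth.continuousOn
  have hW : ∀ x ∈ {x : S2 | f^[m] x = x}, ∃ W : Set S2, IsOpen W ∧ x ∈ W ∧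
      ∀ y ∈ W, f^[m] y = y → y ∈ connectedComponentIn Vᶜ x := by
    intro x hx
    have hxK : connectedComponentIn Vᶜ x ∈ invComp (f^[m]) V := hV.comp_fix hS hx
    have hxV : x ∉ V := hV.not_per ⟨m, hV.hm, hx⟩
    have hKO : ∀ y ∈ connectedComponentIn Vᶜ x, y ≠ O := by
      rintro y hy rfl
      exact connectedComponentIn_subset _ _ hy hO
    have hxx : x ∈ connectedComponentIn Vᶜ x := mem_connectedComponentIn hxV
    obtain ⟨U, hU, hKU, -, -, -, -, hUf⟩ :=
      star_comp hS hV hO hpq hxK (mem_image_of_mem p hxx) univ isOpen_univ (subset_univ _)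
    refine ⟨{O}ᶜ ∩ p ⁻¹' U, hpc.isOpen_inter_preimage isOpen_compl_singleton hU,
      ⟨hKO x hxx, hKU (mem_image_of_mem p hxx)⟩, ?_⟩
    rintro y ⟨hyO, hyU⟩ hyf
    have hyO' : y ≠ O := hyO
    by_cases h1 : p y ∈ p '' connectedComponentIn Vᶜ x
    · obtain ⟨z, hz, hzy⟩ := h1
      have h2 : z = y := by rw [← hpq.qp z (hKO z hz), hzy, hpq.qp y hyO']
      rwa [← h2]
    · exfalso
      apply hUf (p y) (subset_closure hyU) h1
      change p (f^[m] (q (p y))) = p y
      rw [hpq.qp y hyO', hyf]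
  choose! W hWo hWx hWK using hW
  obtain ⟨t, ht, hcov⟩ := hFc.isCompact.elim_nhds_subcover W
    (fun x hx => (hWo x hx).mem_nhds (hWx x hx))
  refine (t.finite_toSet.image (fun x => connectedComponentIn Vᶜ x)).subset ?_
  intro K hK
  obtain ⟨y, hyK, hyf⟩ := comp_has_fix hS hV hK
  obtain ⟨x, hxt, hyx⟩ := mem_iUnion₂.mp (hcov hyf)
  refine ⟨x, hxt, ?_⟩
  have hx := ht x hxt
  have h1 := hWK x hx y hyx hyf
  by_contra hne
  exact disjoint_left.mp (invComp_disj (hV.comp_fix hS hx) hK hne) h1 hyK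

end DS
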