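import Pool.Agent.H36.DS.TD
import Pool.Agent.H36.DS.IF

/-!
TDD (exactly two invariant components).  Proof.  `O ∈ V`, a stereographic chart `hpq : SC O p q` (`exists_SC`).  `T = invComp (f^[m]) V` is finite
(`invComp_finite`) and not empty; let `n = T.ncard` and `K : Fin n → Set S2` an enumeration (injective, range `T`; e.g. `Finite.equivFin` of the subtype, or
`hT.toFinset.equivFin`).  `K' i = p '' K i` compact (`K i` is closed and contained in `{O}ᶜ`), pairwise disjoint (`invComp_disj`, `p` injective on `{O}ᶜ`);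
`k i ∈ K' i`.  `a = p (fi^[m] O)`, `b = p (f^[m] O)` (`fi^[m] O ≠ O ≠ f^[m] O` as `O` is not periodic, `hV.not_per`; `q a = fi^[m] O`).
`sep_open` gives `N i`; `star_comp` with the open set `N i \ {a}` (contains `K' i`: `fi^[m] O ∈ V`) gives `O' i`.  Apply `two_holes O' k` with
`g z = p (f^[m] (q z))`: `ContinuousOn g {a}ᶜ`: `f^[m] (q z) ≠ O` for `z ≠ a`; `hfix`: `g z = z`, `z ≠ a` implies `f^[m] (q z) = q z` (apply `q`), so
`connectedComponentIn Vᶜ (q z) ∈ T` (`hV.comp_fix`) is some `K i` and `z = p (q z) ∈ K' i ⊆ O' i`; `hpole`: `q` is continuous at `a`,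
`f^[m] (q z) → O` and `≠ O` for `z ≠ a`, `hpq.p_lim`; `hinf`: `q z → O` (`hpq.q_lim`), `f^[m] (q z) → f^[m] O ≠ O`, `p` continuous there; `i₀` any index (`T` not
empty); `hk₀`: `g z = k i₀`, `z ≠ a`: `k i₀ = p x`, `x ∈ K i₀`, so `f^[m] (q z) = x ∈ K i₀ = f^[m] '' K i₀`, `q z ∈ K i₀`; `hbk`: `f^[m] O ∈ V`, `x ∉ V`, both `≠ O`.
-/

namespace DS
open Metric Set Filter Topology Function MeasureTheory
open scoped Manifold ContDiff

theorem invComp_two {f fi : S2 → S2} {ν : Measure S2} (hS : Sys f fi ν) {m : ℕ}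
    {V : Set S2} (hV : InvV f m V) (hne : (invComp (f^[m]) V).Nonempty) :
    (invComp (f^[m]) V).ncard = 2 := by
  obtain ⟨O, hO⟩ := hV.V_conn.nonempty
  obtain ⟨p, q, hpq⟩ := exists_SC O
  have hT := invComp_finite hS hV
  obtain ⟨n, K, hKinj, hKr⟩ := hT.fin_param
  have hcard : (invComp (f^[m]) V).ncard = n := by
    rw [← hKr, ← image_univ, Set.ncard_image_of_injective _ hKinj, Set.ncard_univ, Nat.card_fin]
  rw [hcard]
  have hKT : ∀ i, K i ∈ invComp (f^[m]) V := fun i => hKr ▸ mem_range_self i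
  have hgc : Continuous (f^[m]) := hS.cf.continuous.iterate m
  have hnper : O ∉ periodicPts f := fun h => hV.not_per h hO
  -- the points `A` and `B`
  obtain ⟨A, hA⟩ : ∃ A, A = fi^[m] O := ⟨_, rfl⟩
  obtain ⟨B, hB⟩ : ∃ B, B = f^[m] O := ⟨_, rfl⟩
  have hfA : f^[m] A = O := by rw [hA]; exact iter_fif hS.ffi m O
  have hBO : B ≠ O := fun h => hnper ⟨m, hV.hm, hB.symm.trans h⟩
  have hAO : A ≠ O := by
    intro h
    rw [h] at hfA
    exact hnper ⟨m, hV.hm, hfA⟩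
  have hAV : A ∈ V := (hV.mem_iff hS A).1 (hfA ▸ hO)
  have hBV : B ∈ V := hB ▸ (hV.mem_iff hS O).2 hO
  have hginj : ∀ x y, f^[m] x = f^[m] y → x = y := by
    intro x y h
    rw [← iter_fif hS.fif m x, h, iter_fif hS.fif]
  have hqA : q (p A) = A := hpq.qp A hAO
  have hpinj : ∀ x y, x ≠ O → y ≠ O → p x = p y → x = y := by
    intro x y hx hy h
    rw [← hpq.qp x hx, h, hpq.qp y hy]
  have hne0 : ∀ z, z ≠ p A → f^[m] (q z) ≠ O := by
    intro z hz h
    apply hz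
    have h1 : q z = A := hginj _ _ (h.trans hfA.symm)
    rw [← h1, hpq.pq]
  have hKV : ∀ i, ∀ x ∈ K i, x ∉ V := fun i x hx hx' =>
    disjoint_left.1 (hV.compK' (hKT i)).K_V hx hx'
  have hKO : ∀ i, ∀ x ∈ K i, x ≠ O := fun i x hx h => hKV i x hx (h ▸ hO)
  have hK'c : ∀ i, IsCompact (p '' K i) := fun i =>
    (hV.compK' (hKT i)).K_closed.isCompact.image_of_continuousOn
      (hpq.p_smooth.continuousOn.mono fun x hx => hKO i x hx)
  have hK'd : ∀ i j, i ≠ j → Disjoint (p '' K i) (p '' K j) := by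
    intro i j hij
    rw [disjoint_left]
    rintro _ ⟨x, hx, rfl⟩ ⟨y, hy, hxy⟩
    have h1 : y = x := hpinj _ _ (hKO j y hy) (hKO i x hx) hxy
    exact disjoint_left.1 (invComp_disj (hKT i) (hKT j) fun h => hij (hKinj h)) hx (h1 ▸ hy)
  have haK : ∀ i, p A ∉ p '' K i := by
    rintro i ⟨x, hx, hxA⟩
    have h1 : x = A := hpinj _ _ (hKO i x hx) hAO hxA
    exact hKV i x hx (h1 ▸ hAV)
  obtain ⟨N, hNo, hKN, hNd⟩ := sep_open (fun i => p '' K i) hK'c hK'd
  have hkex : ∀ i, ∃ z, z ∈ p '' K i := fun i =>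
    (hV.compK' (hKT i)).K_conn.nonempty.image p
  choose k hk using hkex
  have hstar : ∀ i, ∃ O' : Set ℂ, IsOpen O' ∧ p '' K i ⊆ O' ∧ closure O' ⊆ N i \ {p A} ∧
      Bornology.IsBounded O' ∧
      HasLog (fun x => ((fun z => p (f^[m] (q z))) x - x) / (x - k i)) (frontier O') ∧
      HasLog (fun x => ((fun z => p (f^[m] (q z))) x - k i) / (x - k i)) (frontier O') ∧
      ∀ x ∈ closure O', x ∉ p '' K i → (fun z => p (f^[m] (q z))) x ≠ x := fun i =>
    star_comp hS hV hO hpq (hKT i) (hk i) (N i \ {p A}) ((hNo i).sdiff isClosed_singleton)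
      (fun z hz => ⟨hKN i hz, fun h => haK i (h ▸ hz)⟩)
  choose O' hO'o hKO' hO'N hO'b hl1 hl2 hO'f using hstar
  obtain ⟨X, hX⟩ := hne
  rw [← hKr] at hX
  obtain ⟨i₀, -⟩ := hX
  have hcq : Continuous q := hpq.q_smooth.continuous
  refine two_holes O' k hO'o hO'b (fun i => hKO' i (hk i)) ?_ (g := fun z => p (f^[m] (q z)))
    (a := p A) (b := p B) ?_ ?_ ?_ ?_ ?_ hl1 i₀ ?_ ?_ (hl2 i₀)
  · intro i j hij
    exact (hNd i j hij).mono (fun z hz => (hO'N i hz).1) (fun z hz => (hO'N j hz).1)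
  · intro i h
    exact (hO'N i h).2 rfl
  · exact hpq.p_smooth.continuousOn.comp (hgc.comp hcq).continuousOn fun z hz => hne0 z hz
  · intro z hz hgz
    have h1 : f^[m] (q z) = q z := by
      rw [← hpq.qp _ (hne0 z hz), hgz]
    have h2 := hV.comp_fix hS h1
    have h3 : q z ∉ V := hV.not_per ⟨m, hV.hm, h1⟩
    rw [← hKr] at h2
    obtain ⟨i, hi⟩ := h2
    refine ⟨i, hKO' i ⟨q z, ?_, hpq.pq z⟩⟩
    rw [hi]
    exact mem_connectedComponentIn h3
  · refine hpq.p_lim.comp (tendsto_nhdsWithin_iff.2 ⟨?_, ?_⟩)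
    · have h1 : Tendsto (fun z => f^[m] (q z)) (𝓝 (p A)) (𝓝 (f^[m] (q (p A)))) :=
        (hgc.comp hcq).tendsto (p A)
      rw [hqA, hfA] at h1
      exact h1.mono_left nhdsWithin_le_nhds
    · filter_upwards [self_mem_nhdsWithin] with z hz
      exact hne0 z hz
  · have h1 : Tendsto (fun z => f^[m] (q z)) (cocompact ℂ) (𝓝 B) := by
      rw [hB]
      exact (hgc.tendsto O).comp hpq.q_lim
    have h2 : ContinuousAt p B :=
      hpq.p_smooth.continuousOn.continuousAt (isOpen_compl_singleton.mem_nhds hBO)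
    exact h2.tendsto.comp h1
  · intro z hz hgz
    obtain ⟨x, hx, hxk⟩ := hk i₀
    have h1 : f^[m] (q z) = x :=
      hpinj _ _ (hne0 z hz) (hKO i₀ x hx) (hgz.trans hxk.symm)
    have h2 : f^[m] '' K i₀ = K i₀ := (hKT i₀).2
    rw [← h1, ← h2] at hx
    obtain ⟨y, hy, hyz⟩ := hx
    have h3 : y = q z := hginj _ _ hyz
    exact hKO' i₀ ⟨q z, h3 ▸ hy, hpq.pq z⟩
  · intro h
    obtain ⟨x, hx, hxk⟩ := hk i₀
    have h1 : B = x := hpinj _ _ hBO (hKO i₀ x hx) (h.trans hxk.symm)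
    exact hKV i₀ x hx (h1 ▸ hBV)

end DS
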